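import Pool.Agent.Lib.MP_e426f4_ag.NK.Basic
import Pool.Agent.Lib.MP_e426f4_ag.CI.Heights
import Pool.Agent.Lib.MP_e426f4_ag.N.CubeCount

/-!
NK-Heights: the functions of the height. Template: CI/ClassPts.lean (nadm_pos, dens_pos, TT_tendsto, TT_large, TT_bdd, Lev_asymp, TL_eq). Everything about `Bf n e C0 H` is in CI/Heights.lean
(nu_pos, two_r_le, Bf_atTop, Bf_pow, Bf_small_one, Bf_two, Bf_small_two, borderline; namespace CIHP) and is used as it is (no K in it).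
nadm_pos: the residue class of x0 modulo Q with coordinates in [0,Q): Q in P, F congruent mod Q. TT -> ((2 kap^2)^(n+1-r) Q^r C0)^m dens/vg >= 2/eps (C0_large).
Lev_asymp: each factor: NFHP.cube_count with r = 0, c = 0, R = th H B^(e i) -> infinity; product over i; N(q)^r. TL_eq: algebra, nu + sum e = n + 1.
-/

namespace NKHP

open NumberField GenHP NFHP Finset Filter Topology
open CIHP (Sys NS Jac nu Bf)

variable {K : Type} [Field K] [NumberField K] {n r : ℕ} {e : Fin r → ℕ}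

private theorem hk_F_congr (I : Ideal (𝓞 K)) {d : ℕ} (A : Idx n d → 𝓞 K)
    (x x' : Fin (n + 1) → 𝓞 K) (hx : ∀ i, x i - x' i ∈ I) : F A x - F A x' ∈ I := by
  rw [← Ideal.Quotient.eq, ← F_map, ← F_map]
  congr 1
  funext i
  exact Ideal.Quotient.eq.2 (hx i)

theorem nadm_pos (P : Ideal (𝓞 K)) (Q W : ℕ) (hQ : 0 < Q) (A0 : Sys n e (𝓞 K))
    (x0 : Fin (n + 1) → 𝓞 K) (hH : Hens P Q W A0 x0) : 0 < nadm P Q A0 x0 := by
  have hQ' : (0 : ℤ) < Q := by exact_mod_cast hQ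
  unfold nadm
  refine (Set.ncard_pos ?_).mpr ?_
  · refine (Set.Finite.pi' fun _ : Fin (n + 1) => cube_finite (K := K) (fun _ => 0) Q).subset ?_
    intro x hx i j
    have h1 := hx.1 i j
    have h2 : (0 : ℝ) ≤ crd (x i) j := by exact_mod_cast h1.1
    have h3 : (crd (x i) j : ℝ) < Q := by exact_mod_cast h1.2
    rw [sub_zero, abs_of_nonneg h2]
    exact h3.le
  · have h0 : ∀ i, ∃ a : 𝓞 K, ∀ j, crd a j = crd (x0 i) j % Q := fun i => exists_crd _
    choose y hy using h0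
    have h1 : ∀ i, (Q : 𝓞 K) ∣ y i - x0 i := by
      intro i
      rw [natCast_dvd_iff]
      intro j
      rw [crd_sub, hy]
      exact ⟨-(crd (x0 i) j / Q), by
        have := Int.emod_add_mul_ediv (crd (x0 i) j) Q
        linarith⟩
    refine ⟨y, ⟨fun i j => ?_, ?_, ?_⟩⟩
    · rw [hy]
      exact ⟨Int.emod_nonneg _ hQ'.ne', Int.emod_lt_of_pos _ hQ'⟩
    · intro i
      exact Ideal.mem_of_dvd _ (h1 i) hH.1
    · intro i
      have h2 := hk_F_congr (Ideal.span {(Q : 𝓞 K)}) (A0 i) y x0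
        (fun i => Ideal.mem_span_singleton.2 (h1 i))
      rw [Ideal.mem_span_singleton] at h2
      have h3 := hH.2.2.1.2 i
      have h4 := dvd_add h2 h3
      rwa [sub_add_cancel] at h4

theorem dens_pos (p : Par K n e) {eps k0 : ℝ} {w : ℕ} (hp : p.Valid eps k0 w) : 0 < p.dens := by
  have h1 : (0 : ℝ) < nadm p.P p.Q p.A0 p.x0 := by
    exact_mod_cast nadm_pos p.P p.Q p.W hp.Q_pos p.A0 p.x0 hp.hens
  have h2 : (0 : ℝ) < p.Q := by exact_mod_cast hp.Q_pos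
  unfold Par.dens
  positivity

/-- the constant of the main term -/
private theorem TT_tendsto (p : Par K n e) {eps k0 : ℝ} {w : ℕ} (hp : p.Valid eps k0 w) :
    Tendsto p.TT atTop
      (𝓝 (((2 * p.kap ^ 2) ^ (n + 1 - r) * (p.Q : ℝ) ^ r * p.C0) ^ mK K * (p.dens / p.vg))) := by
  have h1 := (((CIHP.Bf_pow (n := n) e hp.r_pos hp.sum_le p.C0 hp.C0_ge).const_mul
    ((2 * p.kap ^ 2) ^ (n + 1 - r) * (p.Q : ℝ) ^ r)).pow (mK K)).mul_const (p.dens / p.vg)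
  refine h1.congr ?_
  intro H
  unfold Par.TT Par.B
  rw [mul_div_assoc, mul_div_assoc]

/-- the expected number of points is eventually large -/
theorem TT_large (p : Par K n e) {eps k0 : ℝ} {w : ℕ} (hp : p.Valid eps k0 w) :
    ∀ᶠ H : ℝ in atTop, 1 / eps ≤ p.TT H := by
  have h1 := TT_tendsto p hp
  have hg : 0 < p.vg := hp.vg_pos
  have he := hp.eps_pos
  have h2 : 1 / eps < ((2 * p.kap ^ 2) ^ (n + 1 - r) * (p.Q : ℝ) ^ r * p.C0) ^ mK K *
      (p.dens / p.vg) := by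
    have h3 := hp.C0_large
    rw [← mul_div_assoc, div_lt_div_iff₀ he hg]
    nlinarith
  exact (h1.eventually (lt_mem_nhds h2)).mono fun H hH => hH.le

/-- the expected number of points is bounded -/
theorem TT_bdd (p : Par K n e) {eps k0 : ℝ} {w : ℕ} (hp : p.Valid eps k0 w) :
    ∃ C : ℝ, ∀ᶠ H : ℝ in atTop, p.TT H ≤ C := by
  have h1 := TT_tendsto p hp
  exact ⟨_, (h1.eventually (gt_mem_nhds (lt_add_one _))).mono fun H hH => hH.le⟩

theorem TT_nonneg (p : Par K n e) {eps k0 : ℝ} {w : ℕ} (hp : p.Valid eps k0 w) (H : ℝ)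
    (hH : 0 ≤ H) : 0 ≤ p.TT H := by
  have h1 := dens_pos p hp
  have h2 := hp.vg_pos
  unfold Par.TT
  positivity

theorem XR_nonneg (p : Par K n e) (s H : ℝ) (hs : 0 ≤ s) (hH : 0 ≤ H) : 0 ≤ p.XR s H := by
  unfold Par.XR
  positivity

theorem Lev_pos (p : Par K n e) {th H : ℝ} (hth : 0 ≤ th) (hH : 0 ≤ H) (q : Ideal (𝓞 K)) :
    0 < p.Lev th q H := by
  unfold Par.Lev
  refine Finset.prod_pos fun i _ => ?_
  have h1 : 0 < Set.ncard {s : 𝓞 K | s ∈ q ∧ CIn (th * H * (p.B H : ℝ) ^ e i) s} := by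
    refine (Set.ncard_pos ((CIn_finite _).subset fun s hs => hs.2)).2 ⟨0, q.zero_mem, fun j => ?_⟩
    rw [crd_zero, Int.cast_zero, abs_zero]
    positivity
  exact_mod_cast h1

/-- one factor of `Lev` -/
private theorem lev_factor (q : Ideal (𝓞 K)) (hq : q ≠ ⊥) (f : ℝ → ℝ) (hf : Tendsto f atTop atTop) :
    Tendsto (fun H => (Set.ncard {s : 𝓞 K | s ∈ q ∧ CIn (f H) s} : ℝ) /
      ((2 * f H) ^ mK K / Ideal.absNorm q)) atTop (𝓝 1) := by
  have hN : (0 : ℝ) < Ideal.absNorm q := by exact_mod_cast absNorm_pos hq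
  rw [Metric.tendsto_nhds]
  intro eps he
  obtain ⟨R0, hR0, hR⟩ := cube_count q hq (eps / 2) (by positivity)
  filter_upwards [hf.eventually_ge_atTop R0] with H hH
  have hf0 : 0 < f H := hR0.trans_le hH
  obtain ⟨-, h1, h2⟩ := hR (f H) hH (fun _ => 0) 0
  have h3 : {a : 𝓞 K | a - 0 ∈ q ∧ ∀ j, |(crd a j : ℝ) - 0| ≤ f H} =
      {s : 𝓞 K | s ∈ q ∧ CIn (f H) s} := by
    ext a
    simp only [sub_zero, Set.mem_setOf_eq, CIn]
  rw [h3] at h1 h2
  have h4 : 0 < (2 * f H) ^ mK K / (Ideal.absNorm q : ℝ) := by positivity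
  rw [← le_div_iff₀ h4] at h1
  rw [← div_le_iff₀ h4] at h2
  rw [Real.dist_eq, abs_lt]
  constructor <;> linarith

theorem Lev_asymp (p : Par K n e) {eps k0 : ℝ} {w : ℕ} (hp : p.Valid eps k0 w)
    (th : ℝ) (hth : 0 < th) (q : Ideal (𝓞 K)) (hq : q ≠ ⊥) (del : ℝ) (hdel : 0 < del) :
    ∀ᶠ H : ℝ in atTop,
      (1 - del) * (((2 * th * H) ^ r * (p.B H : ℝ) ^ (∑ i, e i)) ^ mK K /
        (Ideal.absNorm q : ℝ) ^ r) ≤ p.Lev th q H ∧
      p.Lev th q H ≤ (1 + del) * (((2 * th * H) ^ r * (p.B H : ℝ) ^ (∑ i, e i)) ^ mK K /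
        (Ideal.absNorm q : ℝ) ^ r) := by
  have hN : (0 : ℝ) < Ideal.absNorm q := by exact_mod_cast absNorm_pos hq
  have hB : Tendsto (fun H : ℝ => (p.B H : ℝ)) atTop atTop :=
    tendsto_natCast_atTop_atTop.comp (CIHP.Bf_atTop (n := n) e hp.r_pos hp.sum_le p.C0 hp.C0_ge)
  have hf : ∀ i, Tendsto (fun H : ℝ => th * H * (p.B H : ℝ) ^ e i) atTop atTop := by
    intro i
    have hei : e i ≠ 0 := by have := hp.e_ge i; omega
    have h1 : Tendsto (fun H : ℝ => th * H) atTop atTop :=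
      Tendsto.const_mul_atTop hth tendsto_id
    exact h1.atTop_mul_atTop₀ ((tendsto_pow_atTop hei).comp hB)
  have h1 : Tendsto (fun H : ℝ => ∏ i, ((Set.ncard {s : 𝓞 K | s ∈ q ∧
      CIn (th * H * (p.B H : ℝ) ^ e i) s} : ℝ) /
      ((2 * (th * H * (p.B H : ℝ) ^ e i)) ^ mK K / Ideal.absNorm q))) atTop
      (𝓝 (∏ _i : Fin r, 1)) :=
    tendsto_finsetProd _ fun i _ => lev_factor q hq _ (hf i)
  rw [Finset.prod_const_one] at h1
  have h2 := h1.eventually (Metric.ball_mem_nhds 1 hdel)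
  filter_upwards [h2, eventually_gt_atTop 0, hB.eventually_gt_atTop 0] with H hH hH0 hB0
  have h3 : ∏ i, ((2 * (th * H * (p.B H : ℝ) ^ e i)) ^ mK K / (Ideal.absNorm q : ℝ)) =
      ((2 * th * H) ^ r * (p.B H : ℝ) ^ (∑ i, e i)) ^ mK K / (Ideal.absNorm q : ℝ) ^ r := by
    have h4 : ∀ i, 2 * (th * H * (p.B H : ℝ) ^ e i) =
        (2 * th * H) * (p.B H : ℝ) ^ e i := fun i => by ring
    simp only [h4]
    rw [Finset.prod_div_distrib, Finset.prod_const, Finset.card_univ, Fintype.card_fin,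
      Finset.prod_pow, Finset.prod_mul_distrib, Finset.prod_const, Finset.card_univ,
      Fintype.card_fin, Finset.prod_pow_eq_pow_sum]
  have h5 : 0 < ((2 * th * H) ^ r * (p.B H : ℝ) ^ (∑ i, e i)) ^ mK K /
      (Ideal.absNorm q : ℝ) ^ r := by positivity
  have h6 : p.Lev th q H = ∏ i, (Set.ncard {s : 𝓞 K | s ∈ q ∧
      CIn (th * H * (p.B H : ℝ) ^ e i) s} : ℝ) := rfl
  have hH' : ∏ i, ((Set.ncard {s : 𝓞 K | s ∈ q ∧
      CIn (th * H * (p.B H : ℝ) ^ e i) s} : ℝ) /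
      ((2 * (th * H * (p.B H : ℝ) ^ e i)) ^ mK K / Ideal.absNorm q)) ∈ Metric.ball (1 : ℝ) del := hH
  rw [Finset.prod_div_distrib, h3, ← h6, Metric.mem_ball, Real.dist_eq, abs_lt] at hH'
  have h7 : 1 - del < p.Lev th q H / (((2 * th * H) ^ r * (p.B H : ℝ) ^ (∑ i, e i)) ^ mK K /
      (Ideal.absNorm q : ℝ) ^ r) := by
    linarith [hH'.1]
  have h8 : p.Lev th q H / (((2 * th * H) ^ r * (p.B H : ℝ) ^ (∑ i, e i)) ^ mK K /
      (Ideal.absNorm q : ℝ) ^ r) < 1 + del := by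
    linarith [hH'.2]
  rw [lt_div_iff₀ h5] at h7
  rw [div_lt_iff₀ h5] at h8
  exact ⟨h7.le, h8.le⟩

/-- the relation between the local count and the number of levels: `T' = T * levels` -/
theorem TL_eq (p : Par K n e) {eps k0 : ℝ} {w : ℕ} (hp : p.Valid eps k0 w) (th : ℝ)
    (hth : 0 < th) (s : ℕ) (H : ℝ) (hH : 0 < H) :
    p.TL th s (p.B H) =
      p.TT H * ((2 * th * H / (p.W : ℝ) ^ s) ^ r * (p.B H : ℝ) ^ (∑ i, e i)) ^ mK K := by
  have hW' : (0 : ℝ) < p.W := by exact_mod_cast hp.W_pos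
  have hg : 0 < p.vg := hp.vg_pos
  have hB : (p.B H : ℝ) ^ (n + 1) = (p.B H : ℝ) ^ (∑ i, e i) * (p.B H : ℝ) ^ nu n e := by
    rw [← pow_add]
    congr 1
    have := hp.sum_le
    unfold nu
    omega
  unfold Par.TL Vol Par.TT
  rw [hB]
  have h1 : ((2 * p.kap ^ 2) ^ (n + 1 - r) * (2 * th) ^ r *
      ((p.B H : ℝ) ^ (∑ i, e i) * (p.B H : ℝ) ^ nu n e)) * ((p.Q : ℝ) / (p.W : ℝ) ^ s) ^ r =
      ((2 * p.kap ^ 2) ^ (n + 1 - r) * (p.Q : ℝ) ^ r * (p.B H : ℝ) ^ nu n e / H ^ r) *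
      ((2 * th * H / (p.W : ℝ) ^ s) ^ r * (p.B H : ℝ) ^ (∑ i, e i)) := by
    rw [div_pow, div_pow, mul_pow (2 * th) H r]
    field_simp
  calc _ = ((((2 * p.kap ^ 2) ^ (n + 1 - r) * (2 * th) ^ r *
      ((p.B H : ℝ) ^ (∑ i, e i) * (p.B H : ℝ) ^ nu n e)) *
        ((p.Q : ℝ) / (p.W : ℝ) ^ s) ^ r) ^ mK K) * (p.dens / p.vg) := by
        rw [mul_pow _ (((p.Q : ℝ) / (p.W : ℝ) ^ s) ^ r) (mK K)]
        ring
    _ = _ := by
        rw [h1, mul_pow]
        ring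

/-- the norm of the ideal generated by `W ^ s` -/
theorem absNorm_span_W (K : Type) [Field K] [NumberField K] (W s : ℕ) :
    Ideal.absNorm (Ideal.span {(W : 𝓞 K) ^ s}) = (W ^ s) ^ mK K := by
  have h := Ideal.absNorm_span_natCast (S := 𝓞 K) (W ^ s)
  rw [Nat.cast_pow] at h
  rw [h, NumberField.RingOfIntegers.rank]
  rfl

end NKHP
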