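import Pool.Agent.Lib.MP_e426f4_ag.NK.Defs
import Pool.Agent.Lib.MP_e426f4_ag.N.CubeCount
import Pool.Agent.Lib.MP_e426f4_ag.CI.Basic

/-!
NK-Basic: finiteness of the basic sets, boxes.
-/

namespace NKHP

open NumberField GenHP NFHP Finset Filter Topology
open CIHP (Sys NS Jac nu Bf)

variable {K : Type} [Field K] [NumberField K] {n r : ℕ} {e : Fin r → ℕ}

theorem CIn_norm {R : ℝ} {s : 𝓞 K} (h : CIn R s) (w : InfinitePlace K) : ‖sg w s‖ ≤ cK K * R :=
  norm_sg_le_of_crd h w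

theorem CIn_of_norm {R : ℝ} {s : 𝓞 K} (h : ∀ w, ‖sg w s‖ ≤ R) : CIn (cK K * R) s :=
  fun j => crd_le_of_norm_sg h j

theorem CIn_finite (R : ℝ) : {s : 𝓞 K | CIn R s}.Finite := by
  refine (cube_finite (K := K) (fun _ => 0) R).subset ?_
  intro s hs j
  rw [sub_zero]
  exact hs j

theorem sys_finite (S : Set (Sys n e (𝓞 K))) (C : ℝ)
    (h : ∀ A ∈ S, ∀ i t j, |(crd (A i t) j : ℝ)| ≤ C) : S.Finite := by
  refine (CIHP.finite_pi (fun i : Fin r => BoxK K n (e i) C) fun i => BoxK_finite C).subset ?_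
  intro A hA i t j
  exact h A hA i t j

theorem BoxS_finite (H : ℝ) : (BoxS K n e H).Finite := sys_finite _ H fun _ hA => hA

theorem card_BoxS (H : ℕ) : (BoxS K n e H).ncard = (2 * H + 1) ^ (mK K * NS n e) := by
  have h1 : BoxS K n e H = {A : Sys n e (𝓞 K) | ∀ i, A i ∈ BoxK K n (e i) H} := rfl
  rw [h1, CIHP.ncard_pi (fun i : Fin r => BoxK K n (e i) H) fun i => BoxK_finite _]
  simp only [card_BoxK]
  rw [Finset.prod_pow_eq_pow_sum, ← Finset.mul_sum]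
  rfl

theorem Cl_finite (p : Par K n e) (s H : ℝ) : (p.Cl s H).Finite := by
  obtain ⟨C, hC⟩ : ∃ C : ℝ, ∀ i t j, |H * p.AC i t j| ≤ C := by
    refine ⟨∑ i, ∑ t, ∑ j, |H * p.AC i t j|, fun i t j => ?_⟩
    refine le_trans ?_ (Finset.single_le_sum (f := fun i => ∑ t, ∑ j, |H * p.AC i t j|)
      (fun _ _ => Finset.sum_nonneg fun _ _ => Finset.sum_nonneg fun _ _ => abs_nonneg _)
      (Finset.mem_univ i))
    refine le_trans ?_ (Finset.single_le_sum (f := fun t => ∑ j, |H * p.AC i t j|)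
      (fun _ _ => Finset.sum_nonneg fun _ _ => abs_nonneg _) (Finset.mem_univ t))
    exact Finset.single_le_sum (f := fun j => |H * p.AC i t j|) (fun _ _ => abs_nonneg _)
      (Finset.mem_univ j)
  refine sys_finite _ (C + s * H) ?_
  intro A hA i t j
  have h1 := hA.1 i t j
  calc |(crd (A i t) j : ℝ)| =
      |H * p.AC i t j + ((crd (A i t) j : ℝ) - H * p.AC i t j)| := by ring_nf
    _ ≤ |H * p.AC i t j| + |(crd (A i t) j : ℝ) - H * p.AC i t j| := abs_add_le _ _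
    _ ≤ C + s * H := add_le_add (hC i t j) h1

theorem Cl_mono (p : Par K n e) {s s' H : ℝ} (hs : s ≤ s') (hH : 0 ≤ H) : p.Cl s H ⊆ p.Cl s' H :=
  fun _ h => ⟨fun i t j => (h.1 i t j).trans (mul_le_mul_of_nonneg_right hs hH), h.2⟩

/-- every coordinate with index less than `r` is a free coordinate -/
theorem fr_of_lt (hr : r ≤ n + 1) (i : Fin (n + 1)) (hi : (i : ℕ) < r) :
    fr n (⟨i, hi⟩ : Fin r) = i := by
  apply Fin.ext
  simp only [fr]
  exact Nat.mod_eq_of_lt i.isLt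

theorem fr_val (hr : r ≤ n + 1) (l : Fin r) : ((fr n l : Fin (n + 1)) : ℕ) = l := by
  simp only [fr]
  exact Nat.mod_eq_of_lt (lt_of_lt_of_le l.isLt hr)

theorem Reg_finite (hr : r ≤ n + 1) (xi : Fin (n + 1) → IK K → ℝ) (h : Fin r → Fin (n + 1) → ℤ)
    (kap : ℝ) (B : ℕ) : (Reg xi h kap B).Finite := by
  obtain ⟨C1, hC1⟩ : ∃ C1 : ℝ, ∀ i j, |(B : ℝ) * xi i j| ≤ C1 := by
    refine ⟨∑ i, ∑ j, |(B : ℝ) * xi i j|, fun i j => ?_⟩
    refine le_trans ?_ (Finset.single_le_sum (f := fun i => ∑ j, |(B : ℝ) * xi i j|)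
      (fun _ _ => Finset.sum_nonneg fun _ _ => abs_nonneg _) (Finset.mem_univ i))
    exact Finset.single_le_sum (f := fun j => |(B : ℝ) * xi i j|) (fun _ _ => abs_nonneg _)
      (Finset.mem_univ j)
  obtain ⟨C2, hC2⟩ : ∃ C2 : ℝ, ∀ i : Fin (n + 1), ∑ l : Fin r, |(h l i : ℝ)| ≤ C2 :=
    ⟨∑ i : Fin (n + 1), ∑ l : Fin r, |(h l i : ℝ)|, fun i =>
      Finset.single_le_sum (f := fun i : Fin (n + 1) => ∑ l : Fin r, |(h l i : ℝ)|)
        (fun _ _ => Finset.sum_nonneg fun _ _ => abs_nonneg _) (Finset.mem_univ i)⟩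
  have hC20 : 0 ≤ C2 := le_trans (Finset.sum_nonneg fun _ _ => abs_nonneg _) (hC2 0)
  have hk : 0 ≤ |kap| * B := by positivity
  have hk2 : 0 ≤ kap ^ 2 * B := by positivity
  refine (Set.Finite.pi' fun _ : Fin (n + 1) =>
    CIn_finite (K := K) (C1 + (1 + C2) * (|kap| * B) + kap ^ 2 * B)).subset ?_
  intro x hx i j
  have hfree : ∀ (l : Fin r) j, |(crd (x (fr n l)) j : ℝ) - B * xi (fr n l) j| ≤ |kap| * B :=
    fun l j => (hx.1 l j).trans (mul_le_mul_of_nonneg_right (le_abs_self _) (Nat.cast_nonneg _))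
  have h2 : |(crd (x i) j : ℝ) - B * xi i j| ≤ (1 + C2) * (|kap| * B) + kap ^ 2 * B := by
    by_cases hi : (i : ℕ) < r
    · have h3 := hfree ⟨i, hi⟩ j
      rw [fr_of_lt hr i hi] at h3
      nlinarith [mul_nonneg hC20 hk]
    · have h3 := hx.2 i (not_lt.mp hi) j
      have h4 : |∑ l, (h l i : ℝ) * ((crd (x (fr n l)) j : ℝ) - B * xi (fr n l) j)| ≤
          C2 * (|kap| * B) := by
        refine (Finset.abs_sum_le_sum_abs _ _).trans ?_
        calc ∑ l, |(h l i : ℝ) * ((crd (x (fr n l)) j : ℝ) - B * xi (fr n l) j)| ≤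
            ∑ l : Fin r, |(h l i : ℝ)| * (|kap| * B) := Finset.sum_le_sum fun l _ => by
              rw [abs_mul]
              exact mul_le_mul_of_nonneg_left (hfree l j) (abs_nonneg _)
          _ = (∑ l : Fin r, |(h l i : ℝ)|) * (|kap| * B) := by rw [Finset.sum_mul]
          _ ≤ C2 * (|kap| * B) := mul_le_mul_of_nonneg_right (hC2 i) hk
      have h5 : |(crd (x i) j : ℝ) - B * xi i j| ≤
          |((crd (x i) j : ℝ) - B * xi i j) -
            ∑ l, (h l i : ℝ) * ((crd (x (fr n l)) j : ℝ) - B * xi (fr n l) j)| +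
          |∑ l, (h l i : ℝ) * ((crd (x (fr n l)) j : ℝ) - B * xi (fr n l) j)| := by
        have := abs_add_le (((crd (x i) j : ℝ) - B * xi i j) -
            ∑ l, (h l i : ℝ) * ((crd (x (fr n l)) j : ℝ) - B * xi (fr n l) j))
          (∑ l, (h l i : ℝ) * ((crd (x (fr n l)) j : ℝ) - B * xi (fr n l) j))
        rwa [sub_add_cancel] at this
      nlinarith
  have h6 := hC1 i j
  calc |(crd (x i) j : ℝ)| = |(B : ℝ) * xi i j + ((crd (x i) j : ℝ) - B * xi i j)| := by ring_nf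
    _ ≤ |(B : ℝ) * xi i j| + |(crd (x i) j : ℝ) - B * xi i j| := abs_add_le _ _
    _ ≤ C1 + (1 + C2) * (|kap| * B) + kap ^ 2 * B := by linarith

theorem XX_finite (hr : r ≤ n + 1) (p : Par K n e) (B : ℕ) : (p.XX B).Finite :=
  (Reg_finite hr p.xi p.h p.kap B).subset fun _ hx => hx.1

theorem GG_subset_XX (p : Par K n e) (R : ℝ) (B : ℕ) : p.GG R B ⊆ p.XX B := fun _ hx => hx.1

theorem GG_finite (hr : r ≤ n + 1) (p : Par K n e) (R : ℝ) (B : ℕ) : (p.GG R B).Finite :=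
  (XX_finite hr p B).subset fun _ hx => hx.1

theorem Pairs_finite (hr : r ≤ n + 1) (p : Par K n e) (s R H : ℝ) : (p.Pairs s R H).Finite :=
  ((Cl_finite p s H).prod (GG_finite hr p R (p.B H))).subset fun _ hq => ⟨hq.1, hq.2.1⟩

theorem LP_finite (p : Par K n e) (u th : ℝ) (s : ℕ) (S : Set (Fin (n + 1) → 𝓞 K))
    (hS : S.Finite) (H : ℝ) : (p.LP u th s S H).Finite :=
  ((Cl_finite p u H).prod hS).subset fun _ hq => ⟨hq.1, hq.2.1⟩

theorem TBad_finite (hr : r ≤ n + 1) (p : Par K n e) (R : ℝ) (G : ℕ) (tau H : ℝ) :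
    (p.TBad R G tau H).Finite :=
  ((Cl_finite p p.rho H).prod ((GG_finite hr p R (p.B H)).prod (GG_finite hr p R (p.B H)))).subset
    fun _ hq => ⟨hq.1, hq.2.1, hq.2.2.1⟩

theorem TNF_finite (hr : r ≤ n + 1) (p : Par K n e) (R : ℝ) (G : ℕ) (tau eps1 H : ℝ) :
    (p.TNF R G tau eps1 H).Finite :=
  ((Cl_finite p p.rho H).prod ((GG_finite hr p R (p.B H)).prod (GG_finite hr p R (p.B H)))).subset
    fun _ hq => ⟨hq.1, hq.2.1, hq.2.2.1⟩

theorem TMain_finite (hr : r ≤ n + 1) (p : Par K n e) (R : ℝ) (G : ℕ) (tau eps1 H : ℝ) :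
    (p.TMain R G tau eps1 H).Finite :=
  ((Cl_finite p p.rho H).prod ((GG_finite hr p R (p.B H)).prod (GG_finite hr p R (p.B H)))).subset
    fun _ hq => ⟨hq.1, hq.2.1, hq.2.2.1⟩

end NKHP
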