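import Pool.Agent.Lib.MP_e426f4_ag.N.Dir

/-! Module NK-DIR: integral directions for systems. -/

namespace NKHP

open NumberField GenHP Finset Filter Topology NFHP

/-- the sum over an extension -/
private theorem dirs_sum {n m : ℕ} (em : Fin m → Fin (n + 1)) (hem : Function.Injective em)
    (c : Fin (n + 1) → ℂ) (t : Fin m → ℤ) :
    ∑ j, c j * ((Function.extend em t 0 j : ℤ) : ℂ) = ∑ s, c (em s) * (t s : ℂ) := by
  symm
  refine Fintype.sum_of_injective em hem _ _ ?_ ?_
  · intro j hj
    have hj' : ¬ ∃ l, em l = j := fun ⟨l, hl⟩ => hj ⟨l, hl⟩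
    rw [Function.extend_apply' _ _ _ hj']
    simp
  · intro l
    rw [hem.extend_apply]

/-- the column which is exchanged -/
private theorem dirs_pick {n r k : ℕ} (hk : k < r) (J : Fin r → Fin (n + 1))
    (hJ : Function.Injective J) (hJk : ∀ l : Fin r, k ≤ (l : ℕ) → k ≤ (J l : ℕ)) :
    ∃ l0 : Fin r, k ≤ (l0 : ℕ) ∧ ((J l0 : ℕ) = k ∨
      (r ≤ (J l0 : ℕ) ∧ ∀ l : Fin r, k ≤ (l : ℕ) → (J l : ℕ) ≠ k)) := by
  classical
  by_cases h1 : ∃ l0 : Fin r, k ≤ (l0 : ℕ) ∧ (J l0 : ℕ) = k
  · obtain ⟨l0, h2, h3⟩ := h1
    exact ⟨l0, h2, Or.inl h3⟩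
  · push Not at h1
    by_contra hcon
    push Not at hcon
    have h2 : ∀ l : Fin r, k ≤ (l : ℕ) → (J l : ℕ) < r := by
      intro l hl
      by_contra h3
      obtain ⟨l', h4, h5⟩ := (hcon l hl).2 (not_lt.mp h3)
      exact h1 l' h4 h5
    have h3 : ((Finset.univ.filter fun l : Fin r => k ≤ (l : ℕ)).image fun l => (J l : ℕ)) ⊆
        Finset.Ico (k + 1) r := by
      intro a ha
      obtain ⟨l, hl, rfl⟩ := Finset.mem_image.mp ha
      have hl' := (Finset.mem_filter.mp hl).2
      rw [Finset.mem_Ico]
      refine ⟨?_, h2 l hl'⟩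
      have h4 := hJk l hl'
      have h5 := h1 l hl'
      show k + 1 ≤ (J l : ℕ)
      omega
    have h4 := Finset.card_le_card h3
    rw [Finset.card_image_of_injective _ (fun a b hab => hJ (Fin.ext hab)), Nat.card_Ico] at h4
    have h5 : (Finset.univ.filter fun l : Fin r => k ≤ (l : ℕ)).card = r - k := by
      have h6 : ((Finset.univ.filter fun l : Fin r => k ≤ (l : ℕ)).image fun l : Fin r =>
          (l : ℕ)) = Finset.Ico k r := by
        ext a
        rw [Finset.mem_image, Finset.mem_Ico]
        constructor
        · rintro ⟨l, hl, rfl⟩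
          exact ⟨(Finset.mem_filter.mp hl).2, l.2⟩
        · rintro ⟨h7, h8⟩
          exact ⟨⟨a, h8⟩, Finset.mem_filter.mpr ⟨Finset.mem_univ _, h7⟩, rfl⟩
      rw [← Nat.card_Ico, ← h6, Finset.card_image_of_injective _ Fin.val_injective]
    omega

theorem exists_dirs (n r M : ℕ) (hr : r ≤ n + 1) (hM : 1 ≤ M) : ∃ v0 : ℝ, 0 < v0 ∧ v0 ≤ 1 ∧
    ∀ (ι : Type) [Fintype ι], Fintype.card ι ≤ M →
      ∀ (G : ι → Matrix (Fin r) (Fin (n + 1)) ℂ) (β : ℝ), 0 ≤ β →
      (∀ w, ∃ J : Fin r → Fin (n + 1), β ≤ ‖((G w).submatrix id J).det‖) →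
      ∃ h : Fin r → Fin (n + 1) → ℤ,
        (∀ (l : Fin r) (i : Fin (n + 1)), (i : ℕ) < r → h l i = if (i : ℕ) = l then 1 else 0) ∧
        (∀ l i, |h l i| ≤ hb n M) ∧
        ∀ w, β * v0 ≤ ‖(Matrix.of fun i l => ∑ j, G w i j * (h l j : ℂ)).det‖ := by
  classical
  obtain ⟨v, hv0, hv1, hv⟩ := exists_dir (n + 1 - r) M hM
  refine ⟨v ^ r, by positivity, pow_le_one₀ hv0.le hv1, ?_⟩
  intro ι _ hι G β hβ hG
  -- the trivial case
  rcases hβ.eq_or_lt with hβ0 | hβpos
  · refine ⟨fun l i => if (i : ℕ) = l then 1 else 0, fun l i _ => rfl, fun l i => ?_, fun w => ?_⟩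
    · have h1 : 1 ≤ (M * n + 1) ^ n := Nat.one_le_pow _ _ (Nat.succ_pos _)
      unfold hb
      show |(if (i : ℕ) = l then (1 : ℤ) else 0)| ≤ _
      split_ifs
      · rw [abs_one]
        exact_mod_cast h1
      · rw [abs_zero]
        positivity
    · rw [← hβ0, zero_mul]
      exact norm_nonneg _
  -- induction
  have key : ∀ k : ℕ, k ≤ r → ∃ (h : Fin r → Fin (n + 1) → ℤ) (J : ι → Fin r → Fin (n + 1)),
      (∀ w, Function.Injective (J w)) ∧
      (∀ w (l : Fin r), k ≤ (l : ℕ) → k ≤ (J w l : ℕ)) ∧
      (∀ l : Fin r, (l : ℕ) < k →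
        (∀ i : Fin (n + 1), (i : ℕ) < r → h l i = if (i : ℕ) = l then 1 else 0) ∧
        ∀ i, |h l i| ≤ hb n M) ∧
      ∀ w, β * v ^ k ≤ ‖(Matrix.of fun i (l : Fin r) =>
        if (l : ℕ) < k then ∑ j, G w i j * (h l j : ℂ) else G w i (J w l)).det‖ := by
    intro k
    induction k with
    | zero =>
      intro _
      choose J hJ using hG
      refine ⟨fun _ _ => 0, J, fun w => ?_, fun _ _ _ => Nat.zero_le _,
        fun l hl => absurd hl (Nat.not_lt_zero _), fun w => ?_⟩
      · intro a b hab
        by_contra hne
        have h0 : ((G w).submatrix id (J w)).det = 0 := by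
          refine Matrix.det_zero_of_column_eq hne fun i => ?_
          simp only [Matrix.submatrix_apply, hab]
        have h1 := hJ w
        rw [h0, norm_zero] at h1
        linarith
      · rw [pow_zero, mul_one]
        have h1 : (Matrix.of fun i (l : Fin r) => if (l : ℕ) < 0 then
            ∑ j, G w i j * ((0 : ℤ) : ℂ) else G w i (J w l)) = (G w).submatrix id (J w) := by
          ext i l
          simp
        rw [h1]
        exact hJ w
    | succ k ih =>
      intro hk
      obtain ⟨h, J, hJi, hJk, hh, hdet⟩ := ih (by omega)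
      have hkr : k < r := by omega
      choose l0 hl0 hl1 using fun w => dirs_pick hkr (J w) (hJi w) (hJk w)
      obtain ⟨kk, hkk⟩ : ∃ kk : Fin r, (kk : ℕ) = k := ⟨⟨k, hkr⟩, rfl⟩
      -- the new columns
      obtain ⟨J', hJ'⟩ : ∃ J' : ι → Fin r → Fin (n + 1),
          J' = fun w l => J w (Equiv.swap kk (l0 w) l) := ⟨_, rfl⟩
      have hJ'i : ∀ w, Function.Injective (J' w) := by
        intro w a b hab
        rw [hJ'] at hab
        exact (Equiv.swap kk (l0 w)).injective (hJi w hab)
      have hswk : ∀ w (l : Fin r), k ≤ (Equiv.swap kk (l0 w) l : ℕ) ↔ k ≤ (l : ℕ) := by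
        intro w l
        have h2 := hl0 w
        rcases eq_or_ne l kk with rfl | hne
        · rw [Equiv.swap_apply_left, hkk]
          exact ⟨fun _ => le_rfl, fun _ => h2⟩
        · rcases eq_or_ne l (l0 w) with h1 | hne2
          · rw [h1, Equiv.swap_apply_right, hkk]
            exact ⟨fun _ => h2, fun _ => le_rfl⟩
          · rw [Equiv.swap_apply_of_ne_of_ne hne hne2]
      have hJ'kk : ∀ w, J' w kk = J w (l0 w) := by
        intro w
        rw [hJ']
        simp only [Equiv.swap_apply_left]
      have hJ'k : ∀ w (l : Fin r), k + 1 ≤ (l : ℕ) → k + 1 ≤ (J' w l : ℕ) := by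
        intro w l hl
        have h1 : k ≤ (J' w l : ℕ) := by
          rw [hJ']
          exact hJk w _ ((hswk w l).mpr (by omega))
        have h2 : (J' w l : ℕ) ≠ k := by
          intro h3
          rcases hl1 w with h4 | ⟨-, h4⟩
          · have h5 : J' w l = J' w kk := by
              apply Fin.ext
              rw [h3, hJ'kk, h4]
            have h6 := hJ'i w h5
            rw [h6, hkk] at hl
            omega
          · refine h4 (Equiv.swap kk (l0 w) l) ((hswk w l).mpr (by omega)) ?_
            rw [hJ'] at h3
            exact h3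
        omega
      -- the matrices with the exchanged columns
      obtain ⟨A, hA⟩ : ∃ A : ι → Matrix (Fin r) (Fin r) ℂ, A = fun w => Matrix.of fun i (l : Fin r) =>
          if (l : ℕ) < k then ∑ j, G w i j * (h l j : ℂ) else G w i (J' w l) := ⟨_, rfl⟩
      have hAdet : ∀ w, β * v ^ k ≤ ‖(A w).det‖ := by
        intro w
        have h1 : A w = (Matrix.of fun i (l : Fin r) =>
            if (l : ℕ) < k then ∑ j, G w i j * (h l j : ℂ) else G w i (J w l)).submatrix id
              (Equiv.swap kk (l0 w)) := by
          ext i l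
          rw [hA]
          simp only [Matrix.submatrix_apply, Matrix.of_apply, id]
          have h2 := hswk w l
          by_cases h3 : (l : ℕ) < k
          · have h4 : ((Equiv.swap kk (l0 w) l : Fin r) : ℕ) < k := by
              by_contra h5
              exact absurd ((h2.mp (not_lt.mp h5))) (not_le.mpr h3)
            have h6 : Equiv.swap kk (l0 w) l = l := by
              refine Equiv.swap_apply_of_ne_of_ne ?_ ?_
              · intro h7
                rw [h7, hkk] at h3
                omega
              · intro h7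
                have := hl0 w
                rw [← h7] at this
                omega
            rw [if_pos h3, if_pos h4, h6]
          · have h4 : ¬ ((Equiv.swap kk (l0 w) l : Fin r) : ℕ) < k :=
              not_lt.mpr (h2.mpr (not_lt.mp h3))
            rw [if_neg h3, if_neg h4, hJ']
        rw [h1, Matrix.det_permute', norm_mul]
        have h2 : ‖((Equiv.Perm.sign (Equiv.swap kk (l0 w)) : ℤˣ) : ℂ)‖ = 1 := by
          rcases Int.units_eq_one_or (Equiv.Perm.sign (Equiv.swap kk (l0 w))) with h | h
          · rw [h]; simp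
          · rw [h]; simp
        rw [h2, one_mul]
        exact hdet w
      -- the linear form
      obtain ⟨m, hm⟩ : ∃ m, m = n + 1 - r := ⟨_, rfl⟩
      obtain ⟨em, hem⟩ : ∃ em : Fin (m + 1) → Fin (n + 1), em = Fin.cons ⟨k, by omega⟩
          fun s : Fin m => (⟨r + s, by have := s.2; omega⟩ : Fin (n + 1)) := ⟨_, rfl⟩
      have hem0 : (em 0 : ℕ) = k := by rw [hem]; rfl
      have hems : ∀ s : Fin m, (em s.succ : ℕ) = r + s := by
        intro s
        rw [hem]
        rfl
      have hemi : Function.Injective em := by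
        intro a b hab
        have hab' : (em a : ℕ) = em b := congrArg Fin.val hab
        rcases Fin.eq_zero_or_eq_succ a with rfl | ⟨a, rfl⟩ <;>
          rcases Fin.eq_zero_or_eq_succ b with rfl | ⟨b, rfl⟩
        · rfl
        · rw [hem0, hems] at hab'
          omega
        · rw [hem0, hems] at hab'
          omega
        · rw [hems, hems] at hab'
          congr 1
          apply Fin.ext
          omega
      obtain ⟨g, hg⟩ : ∃ g : ι → Fin (n + 1) → ℂ,
          g = fun w j => Matrix.cramer (A w) (fun i => G w i j) kk := ⟨_, rfl⟩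
      have hgJ : ∀ w, g w (J' w kk) = (A w).det := by
        intro w
        rw [hg]
        simp only [Matrix.cramer_apply]
        congr 1
        ext i l
        rw [Matrix.updateCol_apply]
        split_ifs with h1
        · rw [h1, hA]
          simp only [Matrix.of_apply, hkk]
          rw [if_neg (lt_irrefl k)]
        · rfl
      obtain ⟨t, ht0, htle, ht⟩ := hv ι hι (fun w s => g w (em (Fin.cast (by rw [hm]) s)))
        (β * v ^ k) (by positivity) (by
          intro w
          have h1 := hAdet w
          rw [← hgJ w] at h1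
          have h2 : ∃ s, em s = J' w kk := by
            rcases hl1 w with h3 | ⟨h3, -⟩
            · refine ⟨0, Fin.ext ?_⟩
              rw [hem0, hJ'kk, h3]
            · have h4 := (J w (l0 w)).2
              refine ⟨Fin.succ ⟨(J w (l0 w) : ℕ) - r, by omega⟩, Fin.ext ?_⟩
              rw [hems, hJ'kk]
              show r + ((J w (l0 w) : ℕ) - r) = _
              omega
          obtain ⟨s, hs⟩ := h2
          refine ⟨Fin.cast (by rw [hm]) s, ?_⟩
          simp only [Fin.cast_cast, Fin.cast_eq_self]
          rw [hs]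
          exact h1)
      obtain ⟨t', ht'⟩ : ∃ t' : Fin (m + 1) → ℤ, t' = fun s => t (Fin.cast (by rw [hm]) s) :=
        ⟨_, rfl⟩
      have hsum : ∀ w, ∑ s, g w (em (Fin.cast (by rw [hm]) s)) * (t s : ℂ) =
          ∑ s, g w (em s) * (t' s : ℂ) := by
        intro w
        subst hm
        rw [ht']
        rfl
      obtain ⟨hn, hhn⟩ : ∃ hn : Fin (n + 1) → ℤ, hn = Function.extend em t' 0 := ⟨_, rfl⟩
      refine ⟨fun l => if l = kk then hn else h l, J', hJ'i, hJ'k, ?_, ?_⟩
      · intro l hl
        show (∀ i : Fin (n + 1), (i : ℕ) < r → (if l = kk then hn else h l) i =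
            if (i : ℕ) = l then 1 else 0) ∧ ∀ i, |(if l = kk then hn else h l) i| ≤ hb n M
        by_cases hlk : l = kk
        · rw [if_pos hlk, hlk]
          constructor
          · intro i hi
            by_cases hik : (i : ℕ) = k
            · have h1 : em 0 = i := Fin.ext (by rw [hem0, hik])
              rw [hhn, ← h1, hemi.extend_apply, ht', hem0, hkk, if_pos rfl]
              have h2 : (Fin.cast (by rw [hm]) (0 : Fin (m + 1)) : Fin (n + 1 - r + 1)) = 0 := by
                apply Fin.ext
                simp
              show t _ = 1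
              rw [h2]
              exact ht0
            · have h1 : ¬ ∃ s, em s = i := by
                rintro ⟨s, hs⟩
                have hs' : (em s : ℕ) = i := congrArg Fin.val hs
                rcases Fin.eq_zero_or_eq_succ s with rfl | ⟨s, rfl⟩
                · rw [hem0] at hs'
                  exact hik hs'.symm
                · rw [hems] at hs'
                  omega
              rw [hhn, Function.extend_apply' _ _ _ h1, hkk, if_neg hik]
              rfl
          · intro i
            rw [hhn]
            by_cases h1 : ∃ s, em s = i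
            · obtain ⟨s, rfl⟩ := h1
              rw [hemi.extend_apply, ht']
              refine (htle _).trans ?_
              unfold hb
              have h2 : (M * (n + 1 - r) + 1) ^ (n + 1 - r) ≤ (M * n + 1) ^ n := by
                have h3 : n + 1 - r ≤ n := by omega
                calc (M * (n + 1 - r) + 1) ^ (n + 1 - r) ≤ (M * n + 1) ^ (n + 1 - r) :=
                      Nat.pow_le_pow_left (Nat.succ_le_succ (Nat.mul_le_mul_left M h3)) _
                  _ ≤ (M * n + 1) ^ n := Nat.pow_le_pow_right (Nat.succ_pos _) h3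
              exact_mod_cast h2
            · rw [Function.extend_apply' _ _ _ h1]
              simp
        · rw [if_neg hlk]
          refine hh l ?_
          have : (l : ℕ) ≠ k := fun h1 => hlk (Fin.ext (h1.trans hkk.symm))
          omega
      · intro w
        have h1 := ht w
        rw [hsum w] at h1
        have h2 : (Matrix.of fun i (l : Fin r) => if (l : ℕ) < k + 1 then
            ∑ j, G w i j * (((if l = kk then hn else h l) j : ℤ) : ℂ) else G w i (J' w l)) =
            (A w).updateCol kk fun i => ∑ j, G w i j * (hn j : ℂ) := by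
          ext i l
          rw [Matrix.updateCol_apply, Matrix.of_apply]
          by_cases hlk : l = kk
          · rw [if_pos hlk, if_pos hlk, if_pos (by rw [hlk, hkk]; omega)]
          · have h3 : (l : ℕ) ≠ k := fun h1 => hlk (Fin.ext (h1.trans hkk.symm))
            rw [if_neg hlk, if_neg hlk, hA]
            show _ = if (l : ℕ) < k then ∑ j, G w i j * (h l j : ℂ) else G w i (J' w l)
            by_cases h4 : (l : ℕ) < k
            · rw [if_pos h4, if_pos (by omega)]
            · rw [if_neg h4, if_neg (by omega)]
        rw [h2, ← Matrix.cramer_apply]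
        have h3 : Matrix.cramer (A w) (fun i => ∑ j, G w i j * (hn j : ℂ)) kk =
            ∑ j, g w j * (hn j : ℂ) := by
          have h4 : (fun i => ∑ j, G w i j * (hn j : ℂ)) =
              ∑ j, (hn j : ℂ) • fun i => G w i j := by
            funext i
            rw [Finset.sum_apply]
            refine Finset.sum_congr rfl fun j _ => ?_
            rw [Pi.smul_apply, smul_eq_mul, mul_comm]
          rw [h4, map_sum, Finset.sum_apply, hg]
          refine Finset.sum_congr rfl fun j _ => ?_
          rw [map_smul, Pi.smul_apply, smul_eq_mul, mul_comm]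
        rw [h3, hhn, dirs_sum em hemi, pow_succ, ← mul_assoc]
        exact h1
  obtain ⟨h, J, -, -, hh, hdet⟩ := key r le_rfl
  refine ⟨h, fun l i hi => (hh l l.2).1 i hi, fun l i => (hh l l.2).2 i, fun w => ?_⟩
  have h1 := hdet w
  have h2 : (Matrix.of fun i (l : Fin r) => if (l : ℕ) < r then
      ∑ j, G w i j * (h l j : ℂ) else G w i (J w l)) =
      Matrix.of fun i l => ∑ j, G w i j * (h l j : ℂ) := by
    ext i l
    rw [Matrix.of_apply, Matrix.of_apply, if_pos l.2]
  rw [h2] at h1
  exact h1

end NKHP
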