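import Pool.Agent.Lib.MP_e426f4_ag.NK.Basic
import Pool.Agent.Lib.MP_e426f4_ag.N.HensLocal

/-! NK-HensLocal: Hensel data from local data, for systems over the integers of a number field. -/

namespace NKHP

open NumberField GenHP NFHP Finset Filter Topology
open CIHP (Sys NS Jac nu Bf)

section ring
variable {n d : ℕ} {R : Type*} [CommRing R]

private theorem hd_mon {ι : Type*} [DecidableEq ι] (s : Finset ι) (x y : ι → R)
    (hy : ∀ i j, y i * y j = 0) (t : ι → ℕ) :
    ∏ i ∈ s, (x i + y i) ^ t i = ∏ i ∈ s, x i ^ t i +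
      ∑ j ∈ s, (t j : R) * (∏ i ∈ s, x i ^ (if i = j then t i - 1 else t i)) * y j := by
  induction s using Finset.induction_on with
  | empty => simp
  | insert a s ha ih =>
    obtain ⟨q, hq⟩ := pow_add_mul (x a) 1 (y a) (t a)
    have hq' : (x a + y a) ^ t a = x a ^ t a + (t a : R) * x a ^ (t a - 1) * y a := by
      rw [mul_one] at hq
      rw [hq]
      have : y a ^ 2 = 0 := by rw [pow_two]; exact hy a a
      rw [this]
      ring
    rw [Finset.prod_insert ha, Finset.prod_insert ha, Finset.sum_insert ha, ih, hq',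
      Finset.prod_insert ha, if_pos rfl]
    have h1 : ∏ i ∈ s, x i ^ (if i = a then t i - 1 else t i) = ∏ i ∈ s, x i ^ t i := by
      refine Finset.prod_congr rfl fun i hi => ?_
      rw [if_neg]
      rintro rfl
      exact ha hi
    have h2 : ∑ j ∈ s, (t j : R) *
        (∏ i ∈ insert a s, x i ^ (if i = j then t i - 1 else t i)) * y j =
        x a ^ t a * ∑ j ∈ s, (t j : R) *
        (∏ i ∈ s, x i ^ (if i = j then t i - 1 else t i)) * y j := by
      rw [Finset.mul_sum]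
      refine Finset.sum_congr rfl fun j hj => ?_
      rw [Finset.prod_insert ha, if_neg (by rintro rfl; exact ha hj)]
      ring
    have h3 : y a * ∑ j ∈ s, (t j : R) *
        (∏ i ∈ s, x i ^ (if i = j then t i - 1 else t i)) * y j = 0 := by
      rw [Finset.mul_sum]
      refine Finset.sum_eq_zero fun j _ => ?_
      calc y a * ((t j : R) * (∏ i ∈ s, x i ^ (if i = j then t i - 1 else t i)) * y j)
          = ((t j : R) * (∏ i ∈ s, x i ^ (if i = j then t i - 1 else t i))) * (y a * y j) := by ring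
        _ = 0 := by rw [hy, mul_zero]
    rw [h1, h2]
    linear_combination ((t a : R) * x a ^ (t a - 1)) * h3

private theorem hd_F_sq_zero (A : Idx n d → R) (x y : Fin (n + 1) → R)
    (hy : ∀ i j, y i * y j = 0) :
    F A (fun i => x i + y i) = F A x + ∑ j, D A x j * y j := by
  have h2 : ∑ j, D A x j * y j = ∑ t : Idx n d, A t * ∑ j, dmon x j t.1 * y j := by
    simp only [D, Finset.sum_mul, Finset.mul_sum]
    rw [Finset.sum_comm]
    refine Finset.sum_congr rfl fun t _ => Finset.sum_congr rfl fun j _ => by ring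
  rw [h2]
  unfold F
  rw [← Finset.sum_add_distrib]
  refine Finset.sum_congr rfl fun t _ => ?_
  have h1 := hd_mon univ x y hy t.1
  unfold mon dmon
  rw [h1]
  ring

private theorem hd_taylor (I : Ideal R) (A : Idx n d → R) (x y : Fin (n + 1) → R)
    (hy : ∀ i, y i ∈ I) :
    F A (fun i => x i + y i) - F A x - ∑ j, D A x j * y j ∈ I ^ 2 := by
  rw [← Ideal.Quotient.eq_zero_iff_mem]
  have h := hd_F_sq_zero (fun t => Ideal.Quotient.mk (I ^ 2) (A t))
    (fun i => Ideal.Quotient.mk (I ^ 2) (x i)) (fun i => Ideal.Quotient.mk (I ^ 2) (y i)) (by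
      intro i j
      rw [← map_mul, Ideal.Quotient.eq_zero_iff_mem, pow_two]
      exact Ideal.mul_mem_mul (hy i) (hy j))
  have h1 := F_map (Ideal.Quotient.mk (I ^ 2)) A (fun i => x i + y i)
  simp only [map_add] at h1
  rw [map_sub, map_sub, map_sum, ← h1, h, F_map]
  simp only [map_mul, D_map]
  ring

private theorem hd_F_congr (I : Ideal R) (A A' : Idx n d → R) (x x' : Fin (n + 1) → R)
    (hA : ∀ m, A m - A' m ∈ I) (hx : ∀ i, x i - x' i ∈ I) : F A x - F A' x' ∈ I := by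
  rw [← Ideal.Quotient.eq, ← F_map, ← F_map]
  congr 1
  · funext m
    exact Ideal.Quotient.eq.2 (hA m)
  · funext i
    exact Ideal.Quotient.eq.2 (hx i)

private theorem hd_D_congr (I : Ideal R) (A A' : Idx n d → R) (x x' : Fin (n + 1) → R)
    (j : Fin (n + 1)) (hA : ∀ m, A m - A' m ∈ I) (hx : ∀ i, x i - x' i ∈ I) :
    D A x j - D A' x' j ∈ I := by
  rw [← Ideal.Quotient.eq, ← D_map, ← D_map]
  congr 1
  · funext m
    exact Ideal.Quotient.eq.2 (hA m)
  · funext i
    exact Ideal.Quotient.eq.2 (hx i)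

/-- the differences for `b` in `P ^ t` -/
private theorem hd_diff {n r : ℕ} {e : Fin r → ℕ} (P : Ideal R) (a c : ℕ) (hc : c < a)
    (A A0 : Sys n e R) (xp y : Fin (n + 1) → R)
    (hA : ∀ i m, A i m - A0 i m ∈ P ^ (2 * a)) (hy : ∀ j, y j - xp j ∈ P ^ (2 * a - c))
    (h : Fin r → Fin (n + 1) → R) (det p0 : R)
    (hh : ∀ i s, (∑ j, D (A0 i) xp j * h s j) - (if i = s then det else 0) ∈ P ^ (c + 1))
    (hp0 : p0 ∈ P ^ (2 * a - c)) (t : ℕ) (b : Fin r → R) (hb : ∀ s, b s ∈ P ^ t) (i : Fin r) :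
    F (A i) (fun j => y j + ∑ s, b s * (p0 * h s j)) - F (A i) y - p0 * det * b i ∈
      P ^ (2 * a + t + 1) := by
  have hyy : ∀ j, ∑ s, b s * (p0 * h s j) ∈ P ^ (2 * a - c + t) := by
    intro j
    refine Ideal.sum_mem _ fun s _ => ?_
    have h1 := Ideal.mul_mem_mul hp0 (hb s)
    rw [← pow_add] at h1
    have h2 : b s * (p0 * h s j) = (p0 * b s) * h s j := by ring
    rw [h2]
    exact Ideal.mul_mem_right _ _ h1
  have h1 := hd_taylor (P ^ (2 * a - c + t)) (A i) y (fun j => ∑ s, b s * (p0 * h s j)) hyy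
  rw [← pow_mul] at h1
  have h1' : F (A i) (fun j => y j + ∑ s, b s * (p0 * h s j)) - F (A i) y -
      ∑ j, D (A i) y j * ∑ s, b s * (p0 * h s j) ∈ P ^ (2 * a + t + 1) :=
    Ideal.pow_le_pow_right (by omega) h1
  have hD : ∀ s, (∑ j, D (A i) y j * h s j) - (if i = s then det else 0) ∈ P ^ (c + 1) := by
    intro s
    have h2 : ∀ j, D (A i) y j - D (A0 i) xp j ∈ P ^ (c + 1) := fun j =>
      hd_D_congr _ (A i) (A0 i) y xp j
        (fun m => Ideal.pow_le_pow_right (by omega) (hA i m))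
        (fun m => Ideal.pow_le_pow_right (by omega) (hy m))
    have h3 : ∑ j, (D (A i) y j - D (A0 i) xp j) * h s j ∈ P ^ (c + 1) :=
      Ideal.sum_mem _ fun j _ => Ideal.mul_mem_right _ _ (h2 j)
    have h4 := Ideal.add_mem _ h3 (hh i s)
    have h5 : (∑ j, (D (A i) y j - D (A0 i) xp j) * h s j) +
        ((∑ j, D (A0 i) xp j * h s j) - if i = s then det else 0) =
        (∑ j, D (A i) y j * h s j) - if i = s then det else 0 := by
      simp only [sub_mul, Finset.sum_sub_distrib]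
      ring
    rwa [h5] at h4
  have h2 : ∑ j, D (A i) y j * ∑ s, b s * (p0 * h s j) - p0 * det * b i =
      ∑ s, (p0 * b s) * ((∑ j, D (A i) y j * h s j) - if i = s then det else 0) := by
    have e1 : ∑ j, D (A i) y j * ∑ s, b s * (p0 * h s j) =
        ∑ s, (p0 * b s) * ∑ j, D (A i) y j * h s j := by
      simp only [Finset.mul_sum]
      rw [Finset.sum_comm]
      exact Finset.sum_congr rfl fun s _ => Finset.sum_congr rfl fun j _ => by ring
    have e2 : p0 * det * b i = ∑ s, (p0 * b s) * (if i = s then det else 0) := by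
      simp only [mul_ite, mul_zero, Finset.sum_ite_eq, Finset.mem_univ, if_true]
      ring
    rw [e1, e2, ← Finset.sum_sub_distrib]
    exact Finset.sum_congr rfl fun s _ => by ring
  have h3 : ∑ j, D (A i) y j * ∑ s, b s * (p0 * h s j) - p0 * det * b i ∈
      P ^ (2 * a + t + 1) := by
    rw [h2]
    refine Ideal.sum_mem _ fun s _ => ?_
    have h4 := Ideal.mul_mem_mul (Ideal.mul_mem_mul hp0 (hb s)) (hD s)
    rw [← pow_add, ← pow_add] at h4
    exact Ideal.pow_le_pow_right (by omega) h4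
  have h4 := Ideal.add_mem _ h1' h3
  have h5 : F (A i) (fun j => y j + ∑ s, b s * (p0 * h s j)) - F (A i) y -
      ∑ j, D (A i) y j * ∑ s, b s * (p0 * h s j) +
      (∑ j, D (A i) y j * ∑ s, b s * (p0 * h s j) - p0 * det * b i) =
      F (A i) (fun j => y j + ∑ s, b s * (p0 * h s j)) - F (A i) y - p0 * det * b i := by ring
  rwa [h5] at h4

end ring

section dedekind
variable {R : Type*} [CommRing R] [IsDedekindDomain R]

private theorem hd_emult (P : Ideal R) (x : R) (a : ℕ) (hx : x ∈ P ^ a) (hx' : x ∉ P ^ (a + 1)) :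
    emultiplicity P (Ideal.span {x}) = a := by
  rw [emultiplicity_eq_coe]
  exact ⟨Ideal.dvd_span_singleton.2 hx, fun h => hx' (Ideal.dvd_span_singleton.1 h)⟩

private theorem hd_mul_notMem (P : Ideal R) (hP : Prime P) (x y : R) (a b : ℕ) (hx : x ∈ P ^ a)
    (hx' : x ∉ P ^ (a + 1)) (hy : y ∈ P ^ b) (hy' : y ∉ P ^ (b + 1)) :
    x * y ∉ P ^ (a + b + 1) := by
  intro h
  have h1 : emultiplicity P (Ideal.span {x * y}) = a + b := by
    rw [← Ideal.span_singleton_mul_span_singleton, emultiplicity_mul hP, hd_emult P x a hx hx',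
      hd_emult P y b hy hy']
  have h2 := le_emultiplicity_of_pow_dvd (Ideal.dvd_span_singleton.2 h)
  rw [h1] at h2
  have h3 : ((a + b + 1 : ℕ) : ℕ∞) ≤ ((a + b : ℕ) : ℕ∞) := by
    rw [Nat.cast_add a b]
    exact h2
  rw [Nat.cast_le] at h3
  omega

private theorem hd_iff {n r : ℕ} {e : Fin r → ℕ} (P : Ideal R) (hP : Prime P) (a c : ℕ)
    (hc : c < a) (A A0 : Sys n e R) (xp y : Fin (n + 1) → R)
    (hA : ∀ i m, A i m - A0 i m ∈ P ^ (2 * a)) (hy : ∀ j, y j - xp j ∈ P ^ (2 * a - c))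
    (h : Fin r → Fin (n + 1) → R) (det p0 : R)
    (hh : ∀ i s, (∑ j, D (A0 i) xp j * h s j) - (if i = s then det else 0) ∈ P ^ (c + 1))
    (hp0 : p0 ∈ P ^ (2 * a - c)) (hp0' : p0 ∉ P ^ (2 * a - c + 1))
    (hdet : det ∈ P ^ c) (hdet' : det ∉ P ^ (c + 1)) (t : ℕ) (b : Fin r → R) :
    (∀ i, F (A i) (fun j => y j + ∑ s, b s * (p0 * h s j)) - F (A i) y ∈ P ^ (2 * a + t)) ↔
      ∀ s, b s ∈ P ^ t := by
  have hpd : p0 * det ∈ P ^ (2 * a) := by
    have h5 := Ideal.mul_mem_mul hp0 hdet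
    rw [← pow_add] at h5
    have h6 : 2 * a - c + c = 2 * a := by omega
    rwa [h6] at h5
  have hpd' : p0 * det ∉ P ^ (2 * a + 1) := by
    have h5 := hd_mul_notMem P hP p0 det (2 * a - c) c hp0 hp0' hdet hdet'
    have h6 : 2 * a - c + c + 1 = 2 * a + 1 := by omega
    rwa [h6] at h5
  constructor
  · induction t with
    | zero =>
      intro _ s
      rw [pow_zero, Ideal.one_eq_top]
      exact Submodule.mem_top
    | succ t ih =>
      intro hd i
      have hb := ih fun i => Ideal.pow_le_pow_right (by omega) (hd i)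
      have h1 := hd_diff P a c hc A A0 xp y hA hy h det p0 hh hp0 t b hb i
      have h2 := Ideal.sub_mem _ (hd i) h1
      have h3 : F (A i) (fun j => y j + ∑ s, b s * (p0 * h s j)) - F (A i) y -
          (F (A i) (fun j => y j + ∑ s, b s * (p0 * h s j)) - F (A i) y - p0 * det * b i) =
          p0 * det * b i := by ring
      rw [h3] at h2
      by_contra hcon
      exact hd_mul_notMem P hP (p0 * det) (b i) (2 * a) t hpd hpd' (hb i) hcon h2
  · intro hb i
    have h1 := hd_diff P a c hc A A0 xp y hA hy h det p0 hh hp0 t b hb i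
    have h2 := Ideal.mul_mem_mul hpd (hb i)
    rw [← pow_add] at h2
    have h3 := Ideal.add_mem _ (Ideal.pow_le_pow_right (Nat.le_succ _) h1) h2
    have h4 : F (A i) (fun j => y j + ∑ s, b s * (p0 * h s j)) - F (A i) y - p0 * det * b i +
        p0 * det * b i = F (A i) (fun j => y j + ∑ s, b s * (p0 * h s j)) - F (A i) y := by ring
    rwa [h4] at h3

end dedekind

variable {K : Type} [Field K] [NumberField K] {n r : ℕ} {e : Fin r → ℕ}

theorem hens_of_local (w k : ℕ) (hw : 2 ≤ w) (hk : 1 ≤ k) (A0 : Sys n e (𝓞 K))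
    (hloc : ∀ P' : Ideal (𝓞 K), P'.IsMaximal → (primorial w : 𝓞 K) ∈ P' →
      GoodPS P' (k * vW (primorial w) P') A0) :
    ∃ (P : Ideal (𝓞 K)) (x0 : Fin (n + 1) → 𝓞 K), P ≠ ⊥ ∧
      Hens P ((primorial w) ^ (2 * k)) (primorial w) A0 x0 := by
  classical
  obtain ⟨W, hW⟩ : ∃ W : ℕ, W = primorial w := ⟨_, rfl⟩
  rw [← hW] at hloc ⊢
  have hW0 : 0 < W := by rw [hW]; exact primorial_pos w
  have hWne : (W : 𝓞 K) ≠ 0 := by exact_mod_cast hW0.ne'
  obtain ⟨Wi, hWi⟩ : ∃ Wi : Ideal (𝓞 K), Wi = Ideal.span {(W : 𝓞 K)} := ⟨_, rfl⟩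
  have hWi0 : Wi ≠ ⊥ := by
    rw [hWi, Ne, Ideal.span_singleton_eq_bot]
    exact hWne
  obtain ⟨S, hS⟩ : ∃ S : Finset (Ideal (𝓞 K)),
    S = (UniqueFactorizationMonoid.normalizedFactors Wi).toFinset := ⟨_, rfl⟩
  have hSmem : ∀ P, P ∈ S ↔ P.IsPrime ∧ Wi ≤ P := fun P => by
    rw [hS, Multiset.mem_toFinset, Ideal.mem_normalizedFactors_iff hWi0]
  have hSbot : ∀ P ∈ S, P ≠ ⊥ := by
    intro P hP h0
    have := ((hSmem P).1 hP).2
    rw [h0] at this
    exact hWi0 (le_bot_iff.1 this)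
  have hSprime : ∀ P ∈ S, Prime P := fun P hP =>
    Ideal.prime_of_isPrime (hSbot P hP) ((hSmem P).1 hP).1
  have hSmax : ∀ P ∈ S, P.IsMaximal := fun P hP =>
    Ideal.IsPrime.isMaximal ((hSmem P).1 hP).1 (hSbot P hP)
  have hSW : ∀ P ∈ S, (W : 𝓞 K) ∈ P := fun P hP => by
    have := ((hSmem P).1 hP).2
    rw [hWi, Ideal.span_singleton_le_iff_mem] at this
    exact this
  have hSof : ∀ P : Ideal (𝓞 K), P.IsMaximal → (W : 𝓞 K) ∈ P → P ∈ S := fun P hP h => by
    rw [hSmem]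
    refine ⟨hP.isPrime, ?_⟩
    rw [hWi, Ideal.span_singleton_le_iff_mem]
    exact h
  -- the multiplicities
  have hmul : ∀ N : ℕ, N ≠ 0 → ∀ P ∈ S,
      emultiplicity P (Ideal.span {(N : 𝓞 K)}) = (vW N P : ℕ) := by
    intro N hN P hP
    have hN0 : Ideal.span {(N : 𝓞 K)} ≠ ⊥ := by
      rw [Ne, Ideal.span_singleton_eq_bot]
      exact_mod_cast hN
    have hfin : FiniteMultiplicity P (Ideal.span {(N : 𝓞 K)}) :=
      FiniteMultiplicity.of_prime_left (hSprime P hP) hN0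
    rw [hfin.emultiplicity_eq_multiplicity]
    rfl
  have hvmul : ∀ N N' : ℕ, N ≠ 0 → N' ≠ 0 → ∀ P ∈ S, vW (N * N') P = vW N P + vW N' P := by
    intro N N' hN hN' P hP
    have h1 := hmul (N * N') (Nat.mul_ne_zero hN hN') P hP
    have h2 : Ideal.span {((N * N' : ℕ) : 𝓞 K)} =
        Ideal.span {(N : 𝓞 K)} * Ideal.span {(N' : 𝓞 K)} := by
      rw [Ideal.span_singleton_mul_span_singleton]
      push_cast
      rfl
    rw [h2, emultiplicity_mul (hSprime P hP), hmul N hN P hP, hmul N' hN' P hP] at h1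
    have h3 : ((vW N P + vW N' P : ℕ) : ℕ∞) = ((vW (N * N') P : ℕ) : ℕ∞) := by
      push_cast
      exact h1
    exact (Nat.cast_inj.1 h3).symm
  have hvpow : ∀ N : ℕ, N ≠ 0 → ∀ j : ℕ, ∀ P ∈ S, vW (N ^ j) P = j * vW N P := by
    intro N hN j P hP
    induction j with
    | zero =>
      rw [pow_zero, zero_mul]
      have h1 := hmul 1 one_ne_zero P hP
      have h2 : emultiplicity P (Ideal.span {((1 : ℕ) : 𝓞 K)}) = 0 := by
        rw [emultiplicity_eq_zero]
        intro h3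
        rw [Nat.cast_one, Ideal.span_singleton_one, ← Ideal.one_eq_top] at h3
        exact (hSprime P hP).not_unit (isUnit_of_dvd_one h3)
      rw [h2] at h1
      exact (Nat.cast_eq_zero.1 h1.symm)
    | succ j ih =>
      rw [pow_succ, hvmul _ _ (pow_ne_zero _ hN) hN P hP, ih]
      ring
  -- divisibility can be tested at the primes
  have hdvd : ∀ N : ℕ, (∃ s, N ∣ W ^ s) → ∀ z : 𝓞 K,
      (N : 𝓞 K) ∣ z ↔ ∀ P ∈ S, z ∈ P ^ vW N P := by
    rintro N ⟨s, hs⟩ z
    have hN : N ≠ 0 := by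
      rintro rfl
      exact (pow_pos hW0 s).ne' (Nat.eq_zero_of_zero_dvd hs)
    have hN0 : Ideal.span {(N : 𝓞 K)} ≠ 0 := by
      rw [Ne, Ideal.zero_eq_bot, Ideal.span_singleton_eq_bot]
      exact_mod_cast hN
    constructor
    · intro h P hP
      rw [← Ideal.dvd_span_singleton]
      refine dvd_trans (pow_dvd_of_le_emultiplicity (hmul N hN P hP).ge) ?_
      rw [Ideal.dvd_iff_le, Ideal.span_singleton_le_span_singleton]
      exact h
    · intro hz
      rw [← Ideal.span_singleton_le_span_singleton, ← Ideal.dvd_iff_le]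
      rw [UniqueFactorizationMonoid.dvd_iff_emultiplicity_le hN0]
      intro p hp
      by_cases hpS : p ∈ S
      · rw [hmul N hN p hpS]
        exact le_emultiplicity_of_pow_dvd (Ideal.dvd_span_singleton.2 (hz p hpS))
      · have h0 : emultiplicity p (Ideal.span {(N : 𝓞 K)}) = 0 := by
          rw [emultiplicity_eq_zero]
          intro h
          apply hpS
          rw [hSmem]
          refine ⟨Ideal.isPrime_of_prime hp, ?_⟩
          have h1 : Ideal.span {(N : 𝓞 K)} ∣ Wi ^ s := by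
            rw [hWi, Ideal.span_singleton_pow, Ideal.dvd_iff_le,
              Ideal.span_singleton_le_span_singleton]
            exact_mod_cast Nat.cast_dvd_cast (α := 𝓞 K) hs
          exact Ideal.dvd_iff_le.1 (hp.dvd_of_dvd_pow (h.trans h1))
        rw [h0]
        exact zero_le
  obtain ⟨a, ha⟩ : ∃ a : Ideal (𝓞 K) → ℕ, a = fun P => k * vW W P := ⟨_, rfl⟩
  -- the modulus `Q`
  obtain ⟨Q, hQ⟩ : ∃ Q : ℕ, Q = W ^ (2 * k) := ⟨_, rfl⟩
  have hQ0 : Q ≠ 0 := by rw [hQ]; exact (pow_pos hW0 _).ne'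
  have hvQ : ∀ P ∈ S, vW Q P = 2 * a P := by
    intro P hP
    rw [hQ, hvpow W hW0.ne' _ P hP, ha]
    ring
  have hQW : ∃ s, Q ∣ W ^ s := ⟨2 * k, by rw [hQ]⟩
  have hQdvd : ∀ z : 𝓞 K, (Q : 𝓞 K) ∣ z ↔ ∀ P ∈ S, z ∈ P ^ (2 * a P) := by
    intro z
    rw [hdvd Q hQW z]
    exact forall₂_congr fun P hP => by rw [hvQ P hP]
  have hdvdQ : ∀ P ∈ S, (Q : 𝓞 K) ∈ P ^ (2 * a P) := (hQdvd _).1 dvd_rfl
  have hcopW : ∀ z : 𝓞 K, (∀ P ∈ S, z ∉ P) → IsCoprime z (W : 𝓞 K) := by
    intro z hz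
    rw [← Ideal.isCoprime_span_singleton_iff, Ideal.isCoprime_iff_sup_eq]
    by_contra hne
    obtain ⟨M, hM, hle⟩ := Ideal.exists_le_maximal _ hne
    have h1 : z ∈ M := hle (Ideal.mem_sup_left (Ideal.mem_span_singleton_self z))
    have h2 : (W : 𝓞 K) ∈ M := hle (Ideal.mem_sup_right (Ideal.mem_span_singleton_self _))
    exact hz M (hSof M hM h2) h1
  -- local data
  have hdat : ∀ P : Ideal (𝓞 K), ∃ (x : Fin (n + 1) → 𝓞 K) (i0 : Fin (n + 1)) (c : ℕ)
      (J : Fin r → Fin (n + 1)), P ∈ S →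
      (x i0 ∉ P ∧ (∀ i, F (A0 i) x ∈ P ^ (2 * a P)) ∧ c < a P ∧
        (Jac A0 x J).det ∈ P ^ c ∧ (Jac A0 x J).det ∉ P ^ (c + 1)) := by
    intro P
    by_cases hp : P ∈ S
    · obtain ⟨x, ⟨i0, hi0⟩, hF, ⟨J, hJ⟩⟩ := hloc P (hSmax P hp) (hSW P hp)
      have hex : ∃ b : ℕ, (Jac A0 x J).det ∉ P ^ b := ⟨k * vW W P, hJ⟩
      have hJp := Nat.find_spec hex
      have hle : Nat.find hex ≤ k * vW W P := Nat.find_min' hex hJ
      have hpos : 0 < Nat.find hex := by
        rcases Nat.eq_zero_or_pos (Nat.find hex) with h0 | h0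
        · rw [h0, pow_zero] at hJp
          exact absurd (by rw [Ideal.one_eq_top]; exact Submodule.mem_top) hJp
        · exact h0
      refine ⟨x, i0, Nat.find hex - 1, J, fun _ => ⟨hi0, ?_, ?_, ?_, ?_⟩⟩
      · rw [ha]; exact hF
      · rw [ha]
        show Nat.find hex - 1 < k * vW W P
        omega
      · by_contra hcon
        exact Nat.find_min hex (m := Nat.find hex - 1) (by omega) hcon
      · have : Nat.find hex - 1 + 1 = Nat.find hex := by omega
        rw [this]; exact hJp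
    · exact ⟨0, 0, 0, fun _ => 0, fun h => absurd h hp⟩
  choose xp ip c Jp hprop using hdat
  -- uniformizing elements
  have hpi : ∀ P : Ideal (𝓞 K), ∃ y : 𝓞 K, P ∈ S →
      y ∈ P ^ (2 * a P - c P) ∧ y ∉ P ^ (2 * a P - c P + 1) := by
    intro P
    by_cases hp : P ∈ S
    · obtain ⟨y, h1, h2⟩ := Ideal.exists_mem_pow_notMem_pow_succ P (hSbot P hp)
        (hSmax P hp).ne_top (2 * a P - c P)
      exact ⟨y, fun _ => ⟨h1, h2⟩⟩
    · exact ⟨0, fun h => absurd h hp⟩
  choose pi hpi using hpi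
  have hcrt : ∀ (e : Ideal (𝓞 K) → ℕ) (f : Ideal (𝓞 K) → 𝓞 K), ∃ y : 𝓞 K, ∀ P ∈ S,
      y - f P ∈ P ^ e P := by
    intro e f
    obtain ⟨y, hy⟩ := IsDedekindDomain.exists_forall_sub_mem_ideal (s := S)
      (fun P : Ideal (𝓞 K) => P) e hSprime (fun i _ j _ h => h) (fun P => f P)
    exact ⟨y, fun P hP => hy P hP⟩
  choose x0 hx0 using fun i => hcrt (fun P => 2 * a P) (fun P => xp P i)
  choose h hh using fun (s : Fin r) (j : Fin (n + 1)) => hcrt (fun P => 2 * a P)
    (fun P => ∑ l, if Jp P l = j then (Jac A0 (xp P) (Jp P)).adjugate l s else 0)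
  choose c0 hc0 using fun i : Fin (n + 1) => hcrt (fun _ => 1) (fun P => if i = ip P then 1 else 0)
  obtain ⟨p0, hp0⟩ := hcrt (fun P => 2 * a P - c P + 1) pi
  simp only [pow_one] at hc0
  have hp0a : ∀ P ∈ S, p0 ∈ P ^ (2 * a P - c P) := by
    intro P hP
    have := Ideal.add_mem _ (Ideal.pow_le_pow_right (Nat.le_succ _) (hp0 P hP)) (hpi P hP).1
    simpa using this
  have hp0b : ∀ P ∈ S, p0 ∉ P ^ (2 * a P - c P + 1) := by
    intro P hP hcon
    have := Ideal.sub_mem _ hcon (hp0 P hP)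
    apply (hpi P hP).2
    simpa using this
  -- the modulus for the points
  obtain ⟨I, hI⟩ : ∃ I : Ideal (𝓞 K), I = S.inf fun P => P ^ (2 * a P - c P) := ⟨_, rfl⟩
  have hImem : ∀ z, z ∈ I ↔ ∀ P ∈ S, z ∈ P ^ (2 * a P - c P) := fun z => by
    rw [hI, Submodule.mem_finsetInf]
  have hQI : (Q : 𝓞 K) ∈ I := by
    rw [hImem]
    intro P hP
    exact Ideal.pow_le_pow_right (Nat.sub_le _ _) (hdvdQ P hP)
  have hX : ∀ P ∈ S, ∀ x : Fin (n + 1) → 𝓞 K, (∀ i, x i - x0 i ∈ I) → ∀ i,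
      x i - xp P i ∈ P ^ (2 * a P - c P) := by
    intro P hP x hx i
    have h1 : x i - xp P i = (x i - x0 i) + (x0 i - xp P i) := by ring
    rw [h1]
    exact Ideal.add_mem _ ((hImem _).1 (hx i) P hP)
      (Ideal.pow_le_pow_right (Nat.sub_le _ _) (hx0 i P hP))
  have hhp : ∀ P ∈ S, ∀ i s, (∑ j, D (A0 i) (xp P) j * h s j) -
      (if i = s then (Jac A0 (xp P) (Jp P)).det else 0) ∈ P ^ (c P + 1) := by
    intro P hP i s
    obtain ⟨-, -, hc, -, -⟩ := hprop P hP
    refine Ideal.pow_le_pow_right (show c P + 1 ≤ 2 * a P by omega) ?_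
    have h1 : ∑ j, D (A0 i) (xp P) j *
        (h s j - ∑ l, if Jp P l = j then (Jac A0 (xp P) (Jp P)).adjugate l s else 0) ∈
        P ^ (2 * a P) :=
      Ideal.sum_mem _ fun j _ => Ideal.mul_mem_left _ _ (hh s j P hP)
    have h2 : ∑ j, D (A0 i) (xp P) j *
        (∑ l, if Jp P l = j then (Jac A0 (xp P) (Jp P)).adjugate l s else 0) =
        if i = s then (Jac A0 (xp P) (Jp P)).det else 0 := by
      have h3 : ∑ j, D (A0 i) (xp P) j *
          (∑ l, if Jp P l = j then (Jac A0 (xp P) (Jp P)).adjugate l s else 0) =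
          ∑ l, (Jac A0 (xp P) (Jp P)) i l * (Jac A0 (xp P) (Jp P)).adjugate l s := by
        simp only [Finset.mul_sum]
        rw [Finset.sum_comm]
        refine Finset.sum_congr rfl fun l _ => ?_
        simp [Jac]
      rw [h3, ← Matrix.mul_apply, Matrix.mul_adjugate, Matrix.smul_apply, Matrix.one_apply]
      simp
    have h4 : ∑ j, D (A0 i) (xp P) j *
        (h s j - ∑ l, if Jp P l = j then (Jac A0 (xp P) (Jp P)).adjugate l s else 0) =
        (∑ j, D (A0 i) (xp P) j * h s j) -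
          if i = s then (Jac A0 (xp P) (Jp P)).det else 0 := by
      rw [← h2, ← Finset.sum_sub_distrib]
      exact Finset.sum_congr rfl fun j _ => by ring
    rwa [h4] at h1
  rw [← hQ]
  refine ⟨I, x0, ?_, hQI, ⟨2 * k, hQ⟩, ⟨fun i => ?_, fun i => ?_⟩, ?_,
    fun s j => p0 * h s j, ?_, ?_⟩
  · intro h0
    rw [h0, Ideal.mem_bot] at hQI
    exact hQ0 (by exact_mod_cast hQI)
  · rw [sub_self]
    exact Ideal.zero_mem _
  · rw [hQdvd]
    intro P hP
    obtain ⟨-, hF, -, -, -⟩ := hprop P hP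
    have h2 := hd_F_congr (P ^ (2 * a P)) (A0 i) (A0 i) x0 (xp P)
      (fun m => by rw [sub_self]; exact Ideal.zero_mem _) (fun j => hx0 j P hP)
    have h3 := Ideal.add_mem _ h2 (hF i)
    simpa using h3
  · intro x hx
    refine ⟨c0, hcopW _ fun P hP hdiv => ?_⟩
    obtain ⟨hi, -, hc, -, -⟩ := hprop P hP
    apply hi
    have hXp : ∀ i, x i - xp P i ∈ P := fun i =>
      Ideal.pow_le_self (by omega) (hX P hP x hx i)
    have h1 : ∑ i, c0 i * x i - xp P (ip P) ∈ P := by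
      have h2 : ∑ i, c0 i * x i - xp P (ip P) =
          ∑ i, (c0 i * (x i - xp P i)
            + (c0 i - if i = ip P then 1 else 0) * xp P i) := by
        have h3 : xp P (ip P) = ∑ i, (if i = ip P then 1 else 0) * xp P i := by simp
        rw [h3, ← Finset.sum_sub_distrib]
        exact Finset.sum_congr rfl fun i _ => by ring
      rw [h2]
      exact Ideal.sum_mem _ fun i _ => Ideal.add_mem _ (Ideal.mul_mem_left _ _ (hXp i))
        (Ideal.mul_mem_right _ _ (hc0 i P hP))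
    have := Ideal.sub_mem _ hdiv h1
    simpa using this
  · intro s i
    rw [hImem]
    intro P hP
    exact Ideal.mul_mem_right _ _ (hp0a P hP)
  · intro A hA x hx cc cc' m hm
    obtain ⟨s0, hs0⟩ := hm
    have hm0 : m ≠ 0 := by
      rintro rfl
      exact (pow_pos hW0 s0).ne' (Nat.eq_zero_of_zero_dvd hs0)
    obtain ⟨y, hyd⟩ : ∃ y : Fin (n + 1) → 𝓞 K,
      y = fun j => x j + ∑ s, cc' s * (p0 * h s j) := ⟨_, rfl⟩
    have hyx0 : ∀ i, y i - x0 i ∈ I := by
      intro i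
      have h1 : y i - x0 i = (x i - x0 i) + ∑ s, cc' s * (p0 * h s i) := by rw [hyd]; ring
      rw [h1]
      refine Ideal.add_mem _ (hx.1 i) (Ideal.sum_mem _ fun s _ => Ideal.mul_mem_left _ _ ?_)
      rw [hImem]
      exact fun P hP => Ideal.mul_mem_right _ _ (hp0a P hP)
    have he : (fun j => x j + ∑ s, cc s * (p0 * h s j)) =
        fun j => y j + ∑ s, (cc s - cc' s) * (p0 * h s j) := by
      funext j
      rw [hyd]
      simp only [sub_mul, Finset.sum_sub_distrib]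
      ring
    have hAP : ∀ P ∈ S, ∀ i t, A i t - A0 i t ∈ P ^ (2 * a P) := fun P hP i t =>
      (hQdvd _).1 (hA i t) P hP
    rw [he, ← hyd]
    have hQm : ∃ s, Q * m ∣ W ^ s := by
      refine ⟨2 * k + s0, ?_⟩
      rw [pow_add, ← hQ]
      exact Nat.mul_dvd_mul_left _ hs0
    have key : ∀ P ∈ S, (∀ i, F (A i) (fun j => y j + ∑ s, (cc s - cc' s) * (p0 * h s j)) -
        F (A i) y ∈ P ^ (2 * a P + vW m P)) ↔ ∀ s, cc s - cc' s ∈ P ^ vW m P := by
      intro P hP
      obtain ⟨-, -, hc, hd1, hd2⟩ := hprop P hP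
      exact hd_iff P (hSprime P hP) (a P) (c P) hc A A0 (xp P) y (hAP P hP)
        (hX P hP y hyx0) h _ p0 (hhp P hP) (hp0a P hP) (hp0b P hP) hd1 hd2 (vW m P)
        (fun s => cc s - cc' s)
    have hvQm : ∀ P ∈ S, vW (Q * m) P = 2 * a P + vW m P := fun P hP => by
      rw [hvmul Q m hQ0 hm0 P hP, hvQ P hP]
    constructor
    · intro hdiv s
      rw [hdvd m ⟨s0, hs0⟩]
      intro P hP
      refine (key P hP).1 (fun i => ?_) s
      have h1 := (hdvd (Q * m) hQm _).1 (hdiv i) P hP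
      rwa [hvQm P hP] at h1
    · intro hdiv i
      rw [hdvd (Q * m) hQm]
      intro P hP
      rw [hvQm P hP]
      exact (key P hP).2 (fun s => (hdvd m ⟨s0, hs0⟩ _).1 (hdiv s) P hP) i

end NKHP
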