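import Pool.Agent.Lib.MP_e426f4_ag.NK.RealMap

/-! Module NK-RL: the hypotheses of the region theorem for the values of a system. -/

set_option linter.unusedSectionVars false

namespace NKRC

open NumberField GenHP NFHP NKHP Finset Filter Topology
open CIHP (Sys NS Jac nu Bf)

variable {K : Type} [Field K] [NumberField K] {n r : ℕ} {e : Fin r → ℕ}

/-- constant for all monomials -/
noncomputable def kN (n : ℕ) {r : ℕ} (e : Fin r → ℕ) : ℝ :=
  1 + ∑ i, (NN n (e i) : ℝ) * (e i + 1) * 4 ^ e i * 2 ^ e i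

theorem kN_one (n : ℕ) {r : ℕ} (e : Fin r → ℕ) : 1 ≤ kN n e := by
  unfold kN
  have : (0 : ℝ) ≤ ∑ i, (NN n (e i) : ℝ) * (e i + 1) * 4 ^ e i * 2 ^ e i :=
    Finset.sum_nonneg fun i _ => by positivity
  linarith

theorem kN_ge (n : ℕ) {r : ℕ} (e : Fin r → ℕ) (i : Fin r) :
    (NN n (e i) : ℝ) * (e i + 1) * 4 ^ e i * 2 ^ e i ≤ kN n e := by
  unfold kN
  have h := Finset.single_le_sum (f := fun i => (NN n (e i) : ℝ) * (e i + 1) * 4 ^ e i * 2 ^ e i)
    (fun i _ => by positivity) (Finset.mem_univ i)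
  linarith

theorem kN_ge1 (n : ℕ) {r : ℕ} (e : Fin r → ℕ) (i : Fin r) :
    (NN n (e i) : ℝ) * e i * 4 ^ e i * 2 ^ e i ≤ kN n e := by
  refine le_trans ?_ (kN_ge n e i)
  gcongr
  linarith

theorem kN_ge2 (n : ℕ) {r : ℕ} (e : Fin r → ℕ) (i : Fin r) :
    (NN n (e i) : ℝ) * 4 ^ e i * 2 ^ e i ≤ kN n e := by
  refine le_trans ?_ (kN_ge n e i)
  have h1 : (0 : ℝ) ≤ e i := Nat.cast_nonneg _
  calc (NN n (e i) : ℝ) * 4 ^ e i * 2 ^ e i = NN n (e i) * 1 * 4 ^ e i * 2 ^ e i := by ring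
    _ ≤ _ := by gcongr; linarith

theorem kN_ge3 (n : ℕ) {r : ℕ} (e : Fin r → ℕ) (i : Fin r) :
    (NN n (e i) : ℝ) * e i * 2 ^ e i ≤ kN n e := by
  refine le_trans ?_ (kN_ge1 n e i)
  have h1 : (1 : ℝ) ≤ 4 ^ e i := one_le_pow₀ (by norm_num)
  calc (NN n (e i) : ℝ) * e i * 2 ^ e i = NN n (e i) * e i * 1 * 2 ^ e i := by ring
    _ ≤ _ := by gcongr

theorem kN_ge4 (n : ℕ) {r : ℕ} (e : Fin r → ℕ) (i : Fin r) :
    (NN n (e i) : ℝ) * 2 ^ e i ≤ kN n e := by
  refine le_trans ?_ (kN_ge2 n e i)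
  have h1 : (1 : ℝ) ≤ 4 ^ e i := one_le_pow₀ (by norm_num)
  calc (NN n (e i) : ℝ) * 2 ^ e i = NN n (e i) * 1 * 2 ^ e i := by ring
    _ ≤ _ := by gcongr

private theorem rl_F_sub {d : ℕ} (A A' : Idx n d → ℂ) (x : Fin (n + 1) → ℂ) :
    F A x - F A' x = F (fun t => A t - A' t) x := by
  unfold F
  rw [← Finset.sum_sub_distrib]
  exact Finset.sum_congr rfl fun t _ => by ring

private theorem rl_D_sub {d : ℕ} (A A' : Idx n d → ℂ) (x : Fin (n + 1) → ℂ) (j : Fin (n + 1)) :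
    D A x j - D A' x j = D (fun t => A t - A' t) x j := by
  unfold D
  rw [← Finset.sum_sub_distrib]
  exact Finset.sum_congr rfl fun t _ => by ring

private theorem rl_sum_le {ι : Type*} [Fintype ι] (u v : ι → ℂ) (a b : ℝ) (ha : 0 ≤ a)
    (hu : ∀ i, ‖u i‖ ≤ a) (hv : ∀ i, ‖v i‖ ≤ b) :
    ‖∑ i, u i * v i‖ ≤ (Fintype.card ι : ℝ) * (a * b) := by
  calc ‖∑ i, u i * v i‖ ≤ ∑ i, ‖u i * v i‖ := norm_sum_le _ _
    _ ≤ ∑ _i : ι, a * b := by
        refine Finset.sum_le_sum fun i _ => ?_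
        rw [norm_mul]
        exact mul_le_mul (hu i) (hv i) (norm_nonneg _) ha
    _ = (Fintype.card ι : ℝ) * (a * b) := by
        rw [Finset.sum_const, Finset.card_univ, nsmul_eq_mul]

/-- derivative of a form near the base point -/
private theorem rl_D_near (i : Fin r) (A A' : Idx n (e i) → ℂ) (x y : Fin (n + 1) → ℂ)
    (j : Fin (n + 1)) (c rho Y : ℝ) (hY : 0 ≤ Y) (hY1 : Y ≤ 1)
    (hA : ∀ t, ‖A t‖ ≤ c) (hA' : ∀ t, ‖A' t - A t‖ ≤ 3 * c * rho) (hc : 0 ≤ c) (hrho : 0 ≤ rho)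
    (hx : ∀ i, ‖x i‖ ≤ 1) (hy : ∀ i, ‖y i‖ ≤ Y) :
    ‖D A' (fun k => x k + y k) j - D A x j‖ ≤ kN n e * c * (3 * rho + Y) := by
  have h1 := D_taylor A x y j c 2 Y (by norm_num) hY (by linarith) hA
    (fun k => (hx k).trans (by norm_num)) hy
  have h2 := D_norm_le (fun t => A' t - A t) (fun k => x k + y k) j (3 * c * rho) 2 (by norm_num)
    hA' (fun k => (norm_add_le _ _).trans (by linarith [hx k, hy k]))
  rw [← rl_D_sub] at h2
  have h3 : D A' (fun k => x k + y k) j - D A x j =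
      (D A' (fun k => x k + y k) j - D A (fun k => x k + y k) j) +
      (D A (fun k => x k + y k) j - D A x j) := by ring
  rw [h3]
  refine (norm_add_le _ _).trans ?_
  have h4 : (NN n (e i) : ℝ) * e i * (3 * c * rho) * 2 ^ e i ≤ kN n e * (3 * c * rho) := by
    calc (NN n (e i) : ℝ) * e i * (3 * c * rho) * 2 ^ e i =
        (NN n (e i) * e i * 2 ^ e i) * (3 * c * rho) := by ring
      _ ≤ _ := mul_le_mul_of_nonneg_right (kN_ge3 n e i) (by positivity)
  have h5 : (NN n (e i) : ℝ) * e i * 4 ^ e i * c * 2 ^ e i * Y ≤ kN n e * (c * Y) := by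
    calc (NN n (e i) : ℝ) * e i * 4 ^ e i * c * 2 ^ e i * Y =
        (NN n (e i) * e i * 4 ^ e i * 2 ^ e i) * (c * Y) := by ring
      _ ≤ _ := mul_le_mul_of_nonneg_right (kN_ge1 n e i) (by positivity)
  calc ‖D A' (fun k => x k + y k) j - D A (fun k => x k + y k) j‖ +
      ‖D A (fun k => x k + y k) j - D A x j‖ ≤ kN n e * (3 * c * rho) + kN n e * (c * Y) :=
        add_le_add (h2.trans h4) (h1.trans h5)
    _ = _ := by ring

/-- derivative of a form at the base point -/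
private theorem rl_D_base (i : Fin r) (A : Idx n (e i) → ℂ) (x : Fin (n + 1) → ℂ)
    (j : Fin (n + 1)) (c : ℝ) (hA : ∀ t, ‖A t‖ ≤ c) (hc : 0 ≤ c) (hx : ∀ i, ‖x i‖ ≤ 1) :
    ‖D A x j‖ ≤ kN n e * c := by
  have h2 := D_norm_le A x j c 2 (by norm_num) hA (fun k => (hx k).trans (by norm_num))
  refine h2.trans ?_
  calc (NN n (e i) : ℝ) * e i * c * 2 ^ e i = (NN n (e i) * e i * 2 ^ e i) * c := by ring
    _ ≤ _ := mul_le_mul_of_nonneg_right (kN_ge3 n e i) hc

/-- value near the base point -/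
private theorem rl_F_near (i : Fin r) (A A' : Idx n (e i) → ℂ) (x y : Fin (n + 1) → ℂ)
    (c rho kap : ℝ) (hk : 0 < kap) (hk1 : kap ≤ 1) (hrho : 0 ≤ rho) (hrho2 : rho ≤ kap ^ 2)
    (hc : 1 ≤ c) (hck : c * kap ^ 2 ≤ 1)
    (hA : ∀ t, ‖A t‖ ≤ c) (hA' : ∀ t, ‖A' t - A t‖ ≤ 3 * c * rho)
    (hx : ∀ i, ‖x i‖ ≤ 1) (hy : ∀ i, ‖y i‖ ≤ c * kap ^ 2) (hF : ‖F A x‖ ≤ kap ^ 2) :
    ‖F A' (fun k => x k + y k)‖ ≤
      (1 + kN n e * (3 * c + c ^ 2 * ((n : ℝ) + 1) + c ^ 3)) * kap ^ 2 := by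
  have hc0 : 0 ≤ c := by linarith
  have hY : 0 ≤ c * kap ^ 2 := by positivity
  have h1 := F_taylor A x y c 2 (c * kap ^ 2) (by norm_num) hY (by linarith) hA
    (fun k => (hx k).trans (by norm_num)) hy
  have h2 := F_norm_le (fun t => A' t - A t) (fun k => x k + y k) (3 * c * rho) 2 (by norm_num)
    hA' (fun k => (norm_add_le _ _).trans (by linarith [hx k, hy k]))
  rw [← rl_F_sub] at h2
  have h6 := rl_sum_le (fun j => D A x j) y (kN n e * c) (c * kap ^ 2)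
    (mul_nonneg (by linarith [kN_one n e]) hc0) (fun j => rl_D_base i A x j c hA hc0 hx) hy
  rw [Fintype.card_fin] at h6
  have h3 : F A' (fun k => x k + y k) =
      (F A' (fun k => x k + y k) - F A (fun k => x k + y k)) +
      (F A (fun k => x k + y k) - F A x - ∑ j, D A x j * y j) + (∑ j, D A x j * y j) + F A x := by
    ring
  rw [h3]
  have hkN := kN_one n e
  have h4 : (NN n (e i) : ℝ) * (3 * c * rho) * 2 ^ e i ≤ kN n e * (3 * c * kap ^ 2) := by
    calc (NN n (e i) : ℝ) * (3 * c * rho) * 2 ^ e i =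
        (NN n (e i) * 2 ^ e i) * (3 * c * rho) := by ring
      _ ≤ kN n e * (3 * c * rho) := mul_le_mul_of_nonneg_right (kN_ge4 n e i) (by positivity)
      _ ≤ _ := by gcongr
  have h5 : (NN n (e i) : ℝ) * 4 ^ e i * c * 2 ^ e i * (c * kap ^ 2) ^ 2 ≤
      kN n e * (c ^ 3 * kap ^ 2) := by
    calc (NN n (e i) : ℝ) * 4 ^ e i * c * 2 ^ e i * (c * kap ^ 2) ^ 2 =
        (NN n (e i) * 4 ^ e i * 2 ^ e i) * (c ^ 3 * kap ^ 2 * kap ^ 2) := by ring
      _ ≤ kN n e * (c ^ 3 * kap ^ 2 * kap ^ 2) :=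
        mul_le_mul_of_nonneg_right (kN_ge2 n e i) (by positivity)
      _ ≤ kN n e * (c ^ 3 * kap ^ 2 * 1) := by
        gcongr
        exact pow_le_one₀ hk.le hk1
      _ = _ := by ring
  calc _ ≤ ‖F A' (fun k => x k + y k) - F A (fun k => x k + y k)‖ +
      ‖F A (fun k => x k + y k) - F A x - ∑ j, D A x j * y j‖ + ‖∑ j, D A x j * y j‖ + ‖F A x‖ := by
        refine (norm_add_le _ _).trans (add_le_add ((norm_add_le _ _).trans
          (add_le_add (norm_add_le _ _) le_rfl)) le_rfl)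
    _ ≤ kN n e * (3 * c * kap ^ 2) + kN n e * (c ^ 3 * kap ^ 2) +
        ((n + 1 : ℕ) : ℝ) * (kN n e * c * (c * kap ^ 2)) + kap ^ 2 :=
        add_le_add (add_le_add (add_le_add (h2.trans h4) (h1.trans h5)) h6) hF
    _ = _ := by push_cast; ring

/-- the hypotheses of the region theorem -/
theorem real_local (K : Type) [Field K] [NumberField K] [DecidableEq (IK K)] (n : ℕ) {r : ℕ}
    (e : Fin r → ℕ) (hr : 1 ≤ r) (del bet : ℝ) (hdel : 0 < del) (hbt : 0 < bet) :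
    ∃ kap1 : ℝ, 0 < kap1 ∧ kap1 ≤ 1 ∧ ∃ C : ℝ, 0 < C ∧ ∀ kap : ℝ, 0 < kap → kap ≤ kap1 →
    ∃ th1 : ℝ, 0 < th1 ∧ ∀ rho : ℝ, 0 ≤ rho → rho ≤ kap ^ 2 →
    ∀ (Ainf A' : Sys n e (IK K → ℝ)) (xi ze : Fin (n + 1) → IK K → ℝ)
      (h : Fin r → Fin (n + 1) → ℤ),
    (∀ i t j, |Ainf i t j| ≤ 1) → (∀ i t j, |A' i t j - Ainf i t j| ≤ 3 * rho) →
    (∀ i w, ‖lam (xi i) w‖ ≤ 1) → (∀ l i, |h l i| ≤ hb n (mK K)) →
    (∀ i j, |ze i j| ≤ kap ^ 2) →
    (∀ (w : InfinitePlace K) i, ‖F (sysC Ainf w i) (ptC xi w)‖ ≤ kap ^ 2) →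
    (∀ w : InfinitePlace K, bet ≤ ‖(Gm Ainf xi h w).det‖) →
    ∃ Li : Matrix (Fin r × IK K) (Fin r × IK K) ℝ, Li * fl (Gm Ainf xi h) = 1 ∧
      (∀ t : Fin r × IK K → ℝ, (∀ p, |t p| ≤ 2 * kap) → ∀ p q,
        |(Li * fl (Gm A' (Xp xi ze h t) h) - 1) p q| ≤ del) ∧
      (∀ t : Fin r × IK K → ℝ, (∀ p, |t p| ≤ 2 * kap) → ∀ p q,
        |fl (Gm A' (Xp xi ze h t) h) p q| ≤ C) ∧
      (∀ p, |(Li.mulVec (Ph A' xi ze h 0)) p| ≤ kap / 4) ∧
      (∀ th : ℝ, th ≤ th1 → ∀ y : Fin r × IK K → ℝ, (∀ p, |y p| ≤ 2 * th) →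
        ∀ p, |(Li.mulVec y) p| ≤ kap / 4) := by
  obtain ⟨c, hcdef⟩ : ∃ c : ℝ, c = cK K := ⟨_, rfl⟩
  have hc1 : 1 ≤ c := by rw [hcdef]; exact one_le_cK
  have hc0 : 0 < c := by linarith
  obtain ⟨m, hmdef⟩ : ∃ m : ℝ, m = (hb n (mK K) : ℝ) := ⟨_, rfl⟩
  have hm0 : 0 ≤ m := by rw [hmdef]; positivity
  obtain ⟨N, hNdef⟩ : ∃ N : ℝ, N = kN n e := ⟨_, rfl⟩
  have hN1 : 1 ≤ N := by rw [hNdef]; exact kN_one n e
  have hN0 : 0 < N := by linarith
  have hr' : (0 : ℝ) < r := by exact_mod_cast hr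
  have hfac : (0 : ℝ) < Nat.factorial r := by exact_mod_cast Nat.factorial_pos r
  obtain ⟨C1, hC1⟩ : ∃ C1 : ℝ, C1 = (2 * r * m + 1) * c := ⟨_, rfl⟩
  have hC1p : 0 < C1 := by rw [hC1]; positivity
  obtain ⟨KG, hKG⟩ : ∃ KG : ℝ, KG = ((n : ℝ) + 1) * (N * c * m) + 1 := ⟨_, rfl⟩
  have hKG1 : 1 ≤ KG := by
    rw [hKG]
    have : 0 ≤ ((n : ℝ) + 1) * (N * c * m) := by positivity
    linarith
  obtain ⟨KD, hKD⟩ : ∃ KD : ℝ, KD = ((n : ℝ) + 1) * (N * c * (3 + C1) * m) := ⟨_, rfl⟩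
  have hKD0 : 0 ≤ KD := by rw [hKD]; positivity
  obtain ⟨KF, hKF⟩ : ∃ KF : ℝ, KF = 1 + N * (3 * c + c ^ 2 * ((n : ℝ) + 1) + c ^ 3) := ⟨_, rfl⟩
  have hKF0 : 0 < KF := by rw [hKF]; positivity
  obtain ⟨c2, hc2⟩ : ∃ c2 : ℝ, c2 = (Nat.factorial r : ℝ) * KG ^ r / bet := ⟨_, rfl⟩
  have hc2p : 0 < c2 := by rw [hc2]; positivity
  obtain ⟨D1, hD1⟩ : ∃ D1 : ℝ, D1 = c * (r * c2) * (c * KD + KF + 1) := ⟨_, rfl⟩
  have hD1p : 0 < D1 := by rw [hD1]; positivity
  refine ⟨min (min 1 (1 / (4 * D1))) (min (1 / C1) (min (del / D1) (1 / c))), by positivity,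
    (min_le_left _ _).trans (min_le_left _ _), c * ((KG + KD) * c), by positivity, ?_⟩
  intro kap hk hkle
  have hk1 : kap ≤ 1 := hkle.trans ((min_le_left _ _).trans (min_le_left _ _))
  have hk2 : kap * (4 * D1) ≤ 1 := by
    have h1 : kap ≤ 1 / (4 * D1) := hkle.trans ((min_le_left _ _).trans (min_le_right _ _))
    rwa [le_div_iff₀ (by positivity)] at h1
  have hk3 : kap * C1 ≤ 1 := by
    have h1 : kap ≤ 1 / C1 := hkle.trans ((min_le_right _ _).trans (min_le_left _ _))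
    rwa [le_div_iff₀ hC1p] at h1
  have hk4 : kap * D1 ≤ del := by
    have h1 : kap ≤ del / D1 :=
      hkle.trans ((min_le_right _ _).trans ((min_le_right _ _).trans (min_le_left _ _)))
    rwa [le_div_iff₀ hD1p] at h1
  have hk5 : kap * c ≤ 1 := by
    have h1 : kap ≤ 1 / c :=
      hkle.trans ((min_le_right _ _).trans ((min_le_right _ _).trans (min_le_right _ _)))
    rwa [le_div_iff₀ hc0] at h1
  have hck : c * kap ^ 2 ≤ 1 := by
    calc c * kap ^ 2 = (kap * c) * kap := by ring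
      _ ≤ 1 * 1 := mul_le_mul hk5 hk1 hk.le zero_le_one
      _ = 1 := one_mul 1
  refine ⟨kap / (8 * (c * (r * c2 * c))), by positivity, ?_⟩
  intro rho hrho hrho2 Ainf A' xi ze h hAinf hA' hxi hh hze hF hdet
  have hhm : ∀ l i, |(h l i : ℝ)| ≤ m := by
    intro l i
    rw [hmdef]
    have := hh l i
    exact_mod_cast this
  have hAc : ∀ (w : InfinitePlace K) i t, ‖sysC Ainf w i t‖ ≤ c := by
    intro w i t
    rw [hcdef]
    exact (norm_lam_le _ 1 (fun j => hAinf i t j) w).trans (le_of_eq (mul_one _))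
  have hA'c : ∀ (w : InfinitePlace K) i t, ‖sysC A' w i t - sysC Ainf w i t‖ ≤ 3 * c * rho := by
    intro w i t
    have h1 : sysC A' w i t - sysC Ainf w i t = lam (fun j => A' i t j - Ainf i t j) w :=
      (lam_sub (A' i t) (Ainf i t) w).symm
    rw [h1, hcdef]
    refine (norm_lam_le _ (3 * rho) (fun j => hA' i t j) w).trans (le_of_eq (by ring))
  have hzec : ∀ (w : InfinitePlace K) i, ‖lam (ze i) w‖ ≤ c * kap ^ 2 := by
    intro w i
    rw [hcdef]
    exact norm_lam_le _ _ (fun j => hze i j) w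
  have hxic : ∀ (w : InfinitePlace K) i, ‖ptC xi w i‖ ≤ 1 := fun w i => hxi i w
  -- the displacement
  have hpt : ∀ (t : Fin r × IK K → ℝ) (w : InfinitePlace K), ptC (Xp xi ze h t) w =
      fun i => ptC xi w i + (∑ l, ((h l i : ℤ) : ℂ) * lam (fun j => t (l, j)) w + lam (ze i) w) :=
    fun t w => funext fun i => ptC_Xp xi ze h t w i
  have hY : ∀ (t : Fin r × IK K → ℝ), (∀ p, |t p| ≤ 2 * kap) → ∀ (w : InfinitePlace K) i,
      ‖∑ l, ((h l i : ℤ) : ℂ) * lam (fun j => t (l, j)) w + lam (ze i) w‖ ≤ C1 * kap := by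
    intro t ht w i
    refine (norm_add_le _ _).trans ?_
    have h1 := shift_norm_le h m hhm t (2 * kap) (by positivity) ht w i
    rw [← hcdef] at h1
    have h2 : kap ^ 2 ≤ kap := by nlinarith only [hk, hk1]
    calc _ ≤ r * (m * (c * (2 * kap))) + c * kap ^ 2 := add_le_add h1 (hzec w i)
      _ ≤ r * (m * (c * (2 * kap))) + c * kap := by gcongr
      _ = C1 * kap := by rw [hC1]; ring
  -- the matrices
  have hRG := RM_Gm Ainf xi h
  have hRG' := fun t => RM_Gm A' (Xp xi ze h t) h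
  have hGb : ∀ (w : InfinitePlace K) i l, ‖Gm Ainf xi h w i l‖ ≤ KG := by
    intro w i l
    have h1 := rl_sum_le (fun j => D (sysC Ainf w i) (ptC xi w) j) (fun j => ((h l j : ℤ) : ℂ))
      (N * c) m (by positivity) (fun j => by
        rw [hNdef]
        exact rl_D_base i _ _ j c (hAc w i) hc0.le (hxic w))
      (fun j => by
        rw [Complex.norm_intCast]
        exact hhm l j)
    rw [Fintype.card_fin] at h1
    have h2 : Gm Ainf xi h w i l = ∑ j, D (sysC Ainf w i) (ptC xi w) j * ((h l j : ℤ) : ℂ) := rfl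
    rw [h2, hKG]
    refine h1.trans ?_
    push_cast
    linarith
  have hdiff : ∀ (t : Fin r × IK K → ℝ), (∀ p, |t p| ≤ 2 * kap) → ∀ (w : InfinitePlace K) i l,
      ‖Gm A' (Xp xi ze h t) h w i l - Gm Ainf xi h w i l‖ ≤ KD * kap := by
    intro t ht w i l
    have h2 : Gm A' (Xp xi ze h t) h w i l - Gm Ainf xi h w i l =
        ∑ j, (D (sysC A' w i) (ptC (Xp xi ze h t) w) j - D (sysC Ainf w i) (ptC xi w) j) *
          ((h l j : ℤ) : ℂ) := by
      have e1 : Gm A' (Xp xi ze h t) h w i l =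
        ∑ j, D (sysC A' w i) (ptC (Xp xi ze h t) w) j * ((h l j : ℤ) : ℂ) := rfl
      have e2 : Gm Ainf xi h w i l = ∑ j, D (sysC Ainf w i) (ptC xi w) j * ((h l j : ℤ) : ℂ) := rfl
      rw [e1, e2, ← Finset.sum_sub_distrib]
      refine Finset.sum_congr rfl fun j _ => ?_
      ring
    have hYt := hY t ht w
    have h1 := rl_sum_le
      (fun j => D (sysC A' w i) (ptC (Xp xi ze h t) w) j - D (sysC Ainf w i) (ptC xi w) j)
      (fun j => ((h l j : ℤ) : ℂ)) (N * c * ((3 + C1) * kap)) m (by positivity) (fun j => by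
        rw [hNdef]
        have h3 := rl_D_near i (sysC Ainf w i) (sysC A' w i) (ptC xi w)
          (fun i => ∑ l, ((h l i : ℤ) : ℂ) * lam (fun j => t (l, j)) w + lam (ze i) w) j c rho
          (C1 * kap) (by positivity) (by linarith) (hAc w i) (hA'c w i) hc0.le hrho (hxic w) hYt
        rw [← hpt t w] at h3
        refine h3.trans ?_
        have h4 : 3 * rho + C1 * kap ≤ (3 + C1) * kap := by
          have : rho ≤ kap := hrho2.trans (by nlinarith only [hk, hk1])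
          nlinarith only [this]
        have h5 : 0 ≤ kN n e * c := by rw [← hNdef]; positivity
        exact mul_le_mul_of_nonneg_left h4 h5)
      (fun j => by
        rw [Complex.norm_intCast]
        exact hhm l j)
    rw [Fintype.card_fin] at h1
    rw [h2, hKD]
    refine h1.trans (le_of_eq ?_)
    push_cast
    ring
  obtain ⟨I, hI⟩ : ∃ I : InfinitePlace K → Matrix (Fin r) (Fin r) ℂ,
      I = fun w => (Gm Ainf xi h w).det⁻¹ • (Gm Ainf xi h w).adjugate := ⟨_, rfl⟩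
  have hRI : RM I := by rw [hI]; exact RM_inv hRG
  have hdet0 : ∀ w, (Gm Ainf xi h w).det ≠ 0 := by
    intro w h0
    have h1 := hdet w
    rw [h0, norm_zero] at h1
    linarith
  have hIG : ∀ w, I w * Gm Ainf xi h w = 1 := by
    intro w
    rw [hI]
    show ((Gm Ainf xi h w).det⁻¹ • (Gm Ainf xi h w).adjugate) * Gm Ainf xi h w = 1
    rw [Matrix.smul_mul, Matrix.adjugate_mul, smul_smul, inv_mul_cancel₀ (hdet0 w), one_smul]
  have hIb : ∀ (w : InfinitePlace K) i l, ‖I w i l‖ ≤ c2 := by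
    intro w i l
    have h1 := adjugate_norm_le (Gm Ainf xi h w) KG hKG1 (hGb w) i l
    have h2 : I w i l = (Gm Ainf xi h w).det⁻¹ * (Gm Ainf xi h w).adjugate i l := by
      rw [hI]; rfl
    rw [h2, norm_mul, norm_inv, hc2, div_eq_inv_mul]
    exact mul_le_mul (inv_anti₀ hbt (hdet w)) h1 (norm_nonneg _) (by positivity)
  have hLi1 : fl I * fl (Gm Ainf xi h) = 1 := by
    rw [← fl_mul hRI hRG, ← fl_one]
    congr 1
    exact funext hIG
  -- products with the inverse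
  have hprod : ∀ (M : InfinitePlace K → Matrix (Fin r) (Fin r) ℂ), RM M → ∀ Y : ℝ, 0 ≤ Y →
      (∀ w i l, ‖M w i l‖ ≤ Y) → ∀ p q, |(fl I * fl M) p q| ≤ c * ((r * (c2 * Y)) * c) := by
    intro M hM Y hY0 hMY p q
    rw [← fl_mul hRI hM, hcdef]
    refine fl_abs_le (RM_mul hRI hM) (fun w i l => ?_) p q
    rw [Matrix.mul_apply]
    have h1 := rl_sum_le (fun k => I w i k) (fun k => M w k l) c2 Y hc2p.le (fun k => hIb w i k)
      (fun k => hMY w k l)
    rwa [Fintype.card_fin] at h1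
  refine ⟨fl I, hLi1, ?_, ?_, ?_, ?_⟩
  · intro t ht p q
    have h1 : fl I * fl (Gm A' (Xp xi ze h t) h) - 1 =
        fl I * fl (fun w => Gm A' (Xp xi ze h t) h w - Gm Ainf xi h w) := by
      rw [fl_sub (hRG' t) hRG, Matrix.mul_sub, hLi1]
    rw [h1]
    refine (hprod _ (RM_sub (hRG' t) hRG) (KD * kap) (by positivity)
      (fun w i l => hdiff t ht w i l) p q).trans ?_
    refine le_trans ?_ hk4
    rw [hD1]
    have h2 : 0 ≤ c * (r * c2) * (KF + 1) * kap := by positivity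
    calc c * ((r * (c2 * (KD * kap))) * c) = c * (r * c2) * (c * KD) * kap := by ring
      _ ≤ c * (r * c2) * (c * KD) * kap + c * (r * c2) * (KF + 1) * kap := by linarith
      _ = _ := by ring
  · intro t ht p q
    have h1 : ∀ (w : InfinitePlace K) i l, ‖Gm A' (Xp xi ze h t) h w i l‖ ≤ KG + KD := by
      intro w i l
      have h2 : Gm A' (Xp xi ze h t) h w i l = (Gm A' (Xp xi ze h t) h w i l -
        Gm Ainf xi h w i l) + Gm Ainf xi h w i l := by ring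
      rw [h2]
      refine (norm_add_le _ _).trans ?_
      have h3 := hdiff t ht w i l
      have h4 : KD * kap ≤ KD := by nlinarith only [hKD0, hk1]
      linarith [hGb w i l]
    have h2 := fl_abs_le (hRG' t) h1 p q
    rw [← hcdef] at h2
    exact h2
  · intro p
    have hval : ∀ (w : InfinitePlace K) i, ‖F (sysC A' w i) (ptC (Xp xi ze h 0) w)‖ ≤
        KF * kap ^ 2 := by
      intro w i
      have h1 := rl_F_near (n := n) i (sysC Ainf w i) (sysC A' w i) (ptC xi w)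
        (fun i => lam (ze i) w) c rho kap hk hk1 hrho hrho2 hc1 hck (hAc w i) (hA'c w i) (hxic w)
        (hzec w) (hF w i)
      rw [← hNdef, ← hKF] at h1
      have h2 : ptC (Xp xi ze h 0) w = fun i => ptC xi w i + lam (ze i) w := by
        rw [hpt 0 w]
        funext i
        have h3 : ∀ l : Fin r, lam (fun j => (0 : Fin r × IK K → ℝ) (l, j)) w = 0 := fun l =>
          lam_zero w
        simp only [h3, mul_zero, Finset.sum_const_zero, zero_add]
      rw [h2]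
      exact h1
    rw [fl_mulVec hRI]
    have hlam : ∀ (w : InfinitePlace K) l, lam (fun k => Ph A' xi ze h 0 (l, k)) w =
        F (sysC A' w l) (ptC (Xp xi ze h 0) w) := fun w l =>
      lam_co (RV_Fs A' (Xp xi ze h 0) l) w
    have h1 : |co (fun w => ∑ l, I w p.1 l * lam (fun k => Ph A' xi ze h 0 (l, k)) w) p.2| ≤
        c * (r * (c2 * (KF * kap ^ 2))) := by
      rw [hcdef]
      refine co_abs_le (RV_sum _ fun l _ => RV_mul (hRI p.1 l) (RV_lam _)) (fun w => ?_) p.2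
      simp only [hlam]
      have h2 := rl_sum_le (fun l => I w p.1 l)
        (fun l => F (sysC A' w l) (ptC (Xp xi ze h 0) w)) c2 (KF * kap ^ 2) hc2p.le
        (fun l => hIb w p.1 l) (fun l => hval w l)
      rwa [Fintype.card_fin] at h2
    refine h1.trans ?_
    have h3 : c * (r * (c2 * (KF * kap ^ 2))) ≤ D1 * kap ^ 2 := by
      rw [hD1]
      have h4 : 0 ≤ c * (r * c2) * (c * KD + 1) * kap ^ 2 := by positivity
      calc c * (r * (c2 * (KF * kap ^ 2))) = c * (r * c2) * KF * kap ^ 2 := by ring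
        _ ≤ c * (r * c2) * KF * kap ^ 2 + c * (r * c2) * (c * KD + 1) * kap ^ 2 := by linarith
        _ = _ := by ring
    refine h3.trans ?_
    calc D1 * kap ^ 2 = (kap * (4 * D1)) * kap / 4 := by ring
      _ ≤ 1 * kap / 4 := by gcongr
      _ = kap / 4 := by ring
  · intro th hth y hy p
    have hth0 : 0 ≤ 2 * th := (abs_nonneg _).trans (hy p)
    rw [fl_mulVec hRI]
    have h1 : |co (fun w => ∑ l, I w p.1 l * lam (fun k => y (l, k)) w) p.2| ≤
        c * (r * (c2 * (c * (2 * th)))) := by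
      rw [hcdef]
      refine co_abs_le (RV_sum _ fun l _ => RV_mul (hRI p.1 l) (RV_lam _)) (fun w => ?_) p.2
      have h2 := rl_sum_le (fun l => I w p.1 l) (fun l => lam (fun k => y (l, k)) w) c2
        (cK K * (2 * th)) hc2p.le (fun l => hIb w p.1 l)
        (fun l => norm_lam_le _ _ (fun k => hy (l, k)) w)
      rwa [Fintype.card_fin] at h2
    refine h1.trans ?_
    rw [le_div_iff₀ (by positivity)] at hth
    linarith

end NKRC
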