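import Pool.Agent.Lib.MP_e426f4_ag.NK.Defs
import Pool.Agent.Lib.MP_e426f4_ag.N.CubeCount
import Pool.Agent.Lib.MP_e426f4_ag.G.RealCount

/-! Module NK-RR: from integral moduli to ideals. -/

set_option linter.unusedSectionVars false

namespace NKRC

open NumberField GenHP NFHP NKHP Finset Filter Topology
open CIHP (Sys NS Jac nu Bf)

variable {K : Type} [Field K] [NumberField K] {n r : ℕ} {e : Fin r → ℕ}

/-- counting in products -/
theorem pi_bounds {ι α : Type*} [Fintype ι] [DecidableEq ι] (s : ι → Set α)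
    (hs : ∀ k, (s k).Finite) :
    {y : ι → α | ∀ k, y k ∈ s k}.Finite ∧
    (Set.ncard {y : ι → α | ∀ k, y k ∈ s k} : ℝ) = ∏ k, ((s k).ncard : ℝ) := by
  classical
  have h1 : {y : ι → α | ∀ k, y k ∈ s k} =
      ((Fintype.piFinset fun k => (hs k).toFinset : Finset (ι → α)) : Set (ι → α)) := by
    ext y
    simp
  refine ⟨by rw [h1]; exact Finset.finite_toSet _, ?_⟩
  rw [h1, Set.ncard_coe_finset, Fintype.card_piFinset]
  push_cast
  refine Finset.prod_congr rfl fun k _ => ?_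
  rw [Set.ncard_eq_toFinset_card (s k) (hs k)]

theorem absNorm_natCast (M : ℕ) :
    Ideal.absNorm (Ideal.span {(M : 𝓞 K)}) = M ^ mK K := by
  rw [Ideal.absNorm_span_singleton, Algebra.norm_natCast, Int.natAbs_pow, Int.natAbs_natCast]
  rw [RingOfIntegers.rank K]
  rfl

/-- the classes modulo `M` in an ideal -/
theorem card_classes (b : Ideal (𝓞 K)) (M : ℕ) (hMb : (M : 𝓞 K) ∈ b) :
    Set.ncard (Ideal.Quotient.mk (Ideal.span {(M : 𝓞 K)}) '' (b : Set (𝓞 K))) *
      Ideal.absNorm b = M ^ mK K := by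
  have hle : (Ideal.span {(M : 𝓞 K)} : Ideal (𝓞 K)) ≤ b :=
    (Ideal.span_singleton_le_iff_mem b).mpr hMb
  have h := Submodule.card_quotient_mul_card_quotient b (Ideal.span {(M : 𝓞 K)}) hle
  rw [← absNorm_natCast (K := K) M, Ideal.absNorm_apply, Ideal.absNorm_apply,
    Submodule.cardQuot_apply, Submodule.cardQuot_apply, ← h]
  congr 1

/-- counting the points of a class modulo an ideal by the classes modulo `M` -/
theorem class_bounds (S : Set (Fin (n + 1) → 𝓞 K)) (hS : S.Finite) (b : Ideal (𝓞 K))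
    (hb : b ≠ ⊥) (M : ℕ) (hM : 1 ≤ M) (hMb : (M : 𝓞 K) ∈ b) (lo hi : ℝ)
    (h : ∀ z : Fin (n + 1) → 𝓞 K,
      lo ≤ (Set.ncard {x | x ∈ S ∧ ∀ i, (M : 𝓞 K) ∣ x i - z i} : ℝ) ∧
      (Set.ncard {x | x ∈ S ∧ ∀ i, (M : 𝓞 K) ∣ x i - z i} : ℝ) ≤ hi)
    (z : Fin (n + 1) → 𝓞 K) :
    lo * ((M : ℝ) ^ mK K / Ideal.absNorm b) ^ (n + 1) ≤
      (Set.ncard {x | x ∈ S ∧ ∀ i, x i - z i ∈ b} : ℝ) ∧
    (Set.ncard {x | x ∈ S ∧ ∀ i, x i - z i ∈ b} : ℝ) ≤
      hi * ((M : ℝ) ^ mK K / Ideal.absNorm b) ^ (n + 1) := by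
  classical
  have hNb : (0 : ℝ) < Ideal.absNorm b := by exact_mod_cast absNorm_pos hb
  set T : Ideal (𝓞 K) := Ideal.span {(M : 𝓞 K)} with hT
  have hMK : (M : 𝓞 K) ≠ 0 := by
    have : M ≠ 0 := by omega
    exact_mod_cast this
  have hTne : T ≠ ⊥ := by
    rw [hT, Ne, Ideal.span_singleton_eq_bot]
    exact hMK
  have : Finite (𝓞 K ⧸ T) := Ideal.finiteQuotientOfFreeOfNeBot T hTne
  obtain ⟨Q1, hQ1⟩ : ∃ Q1 : Set (𝓞 K ⧸ T), Q1 = Ideal.Quotient.mk T '' (b : Set (𝓞 K)) := ⟨_, rfl⟩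
  have hcard := card_classes b M hMb
  rw [← hT, ← hQ1] at hcard
  have hQn : (Q1.ncard : ℝ) = (M : ℝ) ^ mK K / Ideal.absNorm b := by
    rw [eq_div_iff hNb.ne']
    exact_mod_cast hcard
  obtain ⟨hYf, hYn⟩ := pi_bounds (ι := Fin (n + 1)) (fun _ => Q1) (fun _ => Q1.toFinite)
  rw [Finset.prod_const, Finset.card_univ, Fintype.card_fin, hQn] at hYn
  have hle : T ≤ b := (Ideal.span_singleton_le_iff_mem b).mpr hMb
  have hfib := ncard_fiber_bounds {x | x ∈ S ∧ ∀ i, x i - z i ∈ b} (hS.subset fun x hx => hx.1)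
    (fun x i => Ideal.Quotient.mk T (x i - z i)) {y : Fin (n + 1) → 𝓞 K ⧸ T | ∀ k, y k ∈ Q1}
    hYf (fun x hx i => by
      rw [hQ1]
      exact ⟨x i - z i, hx.2 i, rfl⟩) lo hi (by
      intro y hy
      choose c hc using fun i => (by
        have := hy i
        rw [hQ1] at this
        exact this : y i ∈ Ideal.Quotient.mk T '' (b : Set (𝓞 K)))
      have hset : {x | x ∈ {x | x ∈ S ∧ ∀ i, x i - z i ∈ b} ∧
          (fun i => Ideal.Quotient.mk T (x i - z i)) = y} =
          {x | x ∈ S ∧ ∀ i, (M : 𝓞 K) ∣ x i - (z i + c i)} := by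
        ext x
        constructor
        · rintro ⟨⟨h1, -⟩, h2⟩
          refine ⟨h1, fun i => ?_⟩
          have h3 : Ideal.Quotient.mk T (x i - z i) = Ideal.Quotient.mk T (c i) := by
            rw [(hc i).2]
            exact congrFun h2 i
          rw [Ideal.Quotient.eq] at h3
          rw [← Ideal.mem_span_singleton]
          have h4 : x i - (z i + c i) = x i - z i - c i := by ring
          rw [h4]
          exact h3
        · rintro ⟨h1, h2⟩
          have h3 : ∀ i, x i - z i - c i ∈ T := by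
            intro i
            have h4 : x i - (z i + c i) = x i - z i - c i := by ring
            rw [← h4]
            exact Ideal.mem_span_singleton.mpr (h2 i)
          refine ⟨⟨h1, fun i => ?_⟩, funext fun i => ?_⟩
          · have h4 : x i - z i = (x i - z i - c i) + c i := by ring
            rw [h4]
            exact b.add_mem (hle (h3 i)) (hc i).1
          · rw [← (hc i).2]
            exact Ideal.Quotient.eq.mpr (h3 i)
      rw [hset]
      exact h fun i => z i + c i)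
  rw [hYn] at hfib
  exact hfib

end NKRC
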