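import Mathlib

/-! Lattice points in the preimage of a cube under a map close to a linear map. -/

set_option linter.unusedSectionVars false

namespace NKRC

open Finset Filter Topology MeasureTheory

section aux

variable {ι : Type*} [Fintype ι] [DecidableEq ι]

theorem mulVec_norm_le (M : Matrix ι ι ℝ) (c : ℝ) (hc0 : 0 ≤ c)
    (hc : ∀ i l, |M i l| ≤ c) (v : ι → ℝ) : ‖M.mulVec v‖ ≤ (Fintype.card ι) * c * ‖v‖ := by
  rw [pi_norm_le_iff_of_nonneg (by positivity)]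
  intro i
  rw [Real.norm_eq_abs]
  have h1 : M.mulVec v i = ∑ l, M i l * v l := rfl
  rw [h1]
  calc |∑ l, M i l * v l| ≤ ∑ l, |M i l * v l| := Finset.abs_sum_le_sum_abs _ _
    _ ≤ ∑ _l : ι, c * ‖v‖ := by
        refine Finset.sum_le_sum fun l _ => ?_
        rw [abs_mul]
        exact mul_le_mul (hc i l) (norm_le_pi_norm v l) (abs_nonneg _) hc0
    _ = (Fintype.card ι) * c * ‖v‖ := by
        rw [Finset.sum_const, Finset.card_univ, nsmul_eq_mul]
        ring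

theorem toCLM_norm_le (M : Matrix ι ι ℝ) (c : ℝ) (hc0 : 0 ≤ c)
    (hc : ∀ i l, |M i l| ≤ c) : ‖(Matrix.toLin' M).toContinuousLinearMap‖ ≤ (Fintype.card ι) * c :=
  ContinuousLinearMap.opNorm_le_bound _ (by positivity) fun v => mulVec_norm_le M c hc0 hc v

/-- membership in a closed ball of the sup norm -/
theorem mem_cb (t : ι → ℝ) (R : ℝ) (hR : 0 ≤ R) :
    t ∈ Metric.closedBall (0 : ι → ℝ) R ↔ ∀ i, |t i| ≤ R := by
  rw [mem_closedBall_zero_iff, pi_norm_le_iff_of_nonneg hR]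
  simp only [Real.norm_eq_abs]

/-- `det` is close to `1` near the identity matrix -/
theorem det_near_one (ι : Type*) [Fintype ι] [DecidableEq ι] (eta : ℝ) (he : 0 < eta) : ∃ del : ℝ, 0 < del ∧
    ∀ M : Matrix ι ι ℝ, (∀ i l, |(M - 1) i l| ≤ del) → |M.det - 1| ≤ eta := by
  have hcont : Continuous fun M : ι → ι → ℝ => (Matrix.of M).det :=
    Continuous.matrix_det continuous_id
  have h1 := Metric.continuousAt_iff.mp
    (hcont.continuousAt (x := fun i l => (1 : Matrix ι ι ℝ) i l)) eta he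
  obtain ⟨d, hd, h2⟩ := h1
  refine ⟨d / 2, by positivity, fun M hM => ?_⟩
  have h3 : dist (fun i l => M i l) (fun i l => (1 : Matrix ι ι ℝ) i l) < d := by
    refine lt_of_le_of_lt ?_ (half_lt_self hd)
    rw [dist_pi_le_iff (by positivity)]
    intro i
    rw [dist_pi_le_iff (by positivity)]
    intro l
    rw [Real.dist_eq]
    exact hM i l
  have h4 := h2 h3
  rw [Real.dist_eq] at h4
  have h5 : (Matrix.of (fun i l => M i l)).det = M.det := rfl
  have h6 : (Matrix.of (fun i l => (1 : Matrix ι ι ℝ) i l)).det = 1 :=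
    Matrix.det_one
  rw [h5, h6] at h4
  exact h4.le

/-- powers of numbers near `1` -/
theorem pow_near_one (r : ℕ) (eta : ℝ) (he : 0 < eta) : ∃ x0 : ℝ, 0 < x0 ∧ x0 ≤ 1 / 2 ∧
    ∀ x : ℝ, 0 ≤ x → x ≤ x0 → (1 + x) ^ r ≤ 1 + eta ∧ 1 - eta ≤ (1 - x) ^ r := by
  have hc : Continuous fun x : ℝ => (1 + x) ^ r := by fun_prop
  have h1 := Metric.continuousAt_iff.mp (hc.continuousAt (x := (0 : ℝ))) eta he
  obtain ⟨d, hd, h2⟩ := h1
  refine ⟨min (d / 2) (1 / 2), by positivity, min_le_right _ _, fun x hx hx0 => ?_⟩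
  have hxd : x ≤ d / 2 := hx0.trans (min_le_left _ _)
  have h3 := @h2 x (by rw [Real.dist_eq, sub_zero, abs_of_nonneg hx]; linarith)
  have h4 := @h2 (-x) (by rw [Real.dist_eq, sub_zero, abs_neg, abs_of_nonneg hx]; linarith)
  rw [Real.dist_eq] at h3 h4
  simp only [add_zero, one_pow] at h3 h4
  rw [abs_lt] at h3 h4
  have h5 : (1 + -x) ^ r = (1 - x) ^ r := by ring
  rw [h5] at h4
  constructor <;> linarith [h3.1, h3.2, h4.1, h4.2]

end aux

section main

variable {ι : Type*} [Fintype ι] [DecidableEq ι] (Phi : (ι → ℝ) → ι → ℝ)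
  (Phi' : (ι → ℝ) → Matrix ι ι ℝ) (L Li : Matrix ι ι ℝ)

/-- Lipschitz bound for `Li Phi - id` -/
theorem lip_G (kap del : ℝ) (hdel : 0 ≤ del) (hrd : (Fintype.card ι) * del ≤ 1 / 8)
    (hPhi : ∀ t, HasFDerivAt Phi (Matrix.toLin' (Phi' t)).toContinuousLinearMap t)
    (hD : ∀ t, (∀ i, |t i| ≤ 2 * kap) → ∀ i l, |(Li * Phi' t - 1) i l| ≤ del)
    (hk : 0 ≤ kap)
    (t t' : ι → ℝ) (ht : ‖t‖ ≤ 2 * kap) (ht' : ‖t'‖ ≤ 2 * kap) :
    ‖(Li.mulVec (Phi t) - t) - (Li.mulVec (Phi t') - t')‖ ≤ 1 / 8 * ‖t - t'‖ := by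
  have hk2 : 0 ≤ 2 * kap := by positivity
  have hder : ∀ x, HasFDerivAt (fun t => Li.mulVec (Phi t) - t)
      (Matrix.toLin' (Li * Phi' x - 1)).toContinuousLinearMap x := by
    intro x
    have h1 := ((Matrix.toLin' Li).toContinuousLinearMap.hasFDerivAt.comp x (hPhi x)).sub
      (hasFDerivAt_id x)
    have h3 : (Matrix.toLin' Li).toContinuousLinearMap.comp
        (Matrix.toLin' (Phi' x)).toContinuousLinearMap -
        ContinuousLinearMap.id ℝ (ι → ℝ) =
        (Matrix.toLin' (Li * Phi' x - 1)).toContinuousLinearMap := by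
      refine ContinuousLinearMap.ext fun v => ?_
      have e1 : (Matrix.toLin' (Li * Phi' x - 1)).toContinuousLinearMap v =
        (Li * Phi' x - 1).mulVec v := rfl
      have e2 : ((Matrix.toLin' Li).toContinuousLinearMap.comp
        (Matrix.toLin' (Phi' x)).toContinuousLinearMap -
        ContinuousLinearMap.id ℝ (ι → ℝ)) v = Li.mulVec ((Phi' x).mulVec v) - v := rfl
      rw [e1, e2, Matrix.sub_mulVec, Matrix.one_mulVec, Matrix.mulVec_mulVec]
    rw [← h3]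
    exact h1
  obtain ⟨G, hG⟩ : ∃ G : (ι → ℝ) → ι → ℝ, G = fun t => Li.mulVec (Phi t) - t := ⟨_, rfl⟩
  obtain ⟨G', hG'⟩ : ∃ G' : (ι → ℝ) → ((ι → ℝ) →L[ℝ] (ι → ℝ)),
      G' = fun x => (Matrix.toLin' (Li * Phi' x - 1)).toContinuousLinearMap := ⟨_, rfl⟩
  have hder' : ∀ x, HasFDerivAt G (G' x) x := by
    intro x
    rw [hG, hG']
    exact hder x
  have hb : ∀ x ∈ Metric.closedBall (0 : ι → ℝ) (2 * kap), ‖G' x‖ ≤ 1 / 8 := by
    intro x hx
    rw [hG']
    exact (toCLM_norm_le _ del hdel (hD x ((mem_cb x _ hk2).mp hx))).trans hrd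
  have h2 : ‖G t - G t'‖ ≤ 1 / 8 * ‖t - t'‖ :=
    Convex.norm_image_sub_le_of_norm_hasFDerivWithin_le
      (fun x _ => (hder' x).hasFDerivWithinAt) hb
      (convex_closedBall _ _) (mem_closedBall_zero_iff.mpr ht') (mem_closedBall_zero_iff.mpr ht)
  rw [hG] at h2
  exact h2

/-- Lipschitz bound for `Phi` -/
theorem lip_Phi (kap C : ℝ) (hC : 0 ≤ C)
    (hPhi : ∀ t, HasFDerivAt Phi (Matrix.toLin' (Phi' t)).toContinuousLinearMap t)
    (hD : ∀ t, (∀ i, |t i| ≤ 2 * kap) → ∀ i l, |Phi' t i l| ≤ C)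
    (hk : 0 ≤ kap)
    (t t' : ι → ℝ) (ht : ‖t‖ ≤ 2 * kap) (ht' : ‖t'‖ ≤ 2 * kap) :
    ‖Phi t - Phi t'‖ ≤ (Fintype.card ι) * C * ‖t - t'‖ := by
  have hk2 : 0 ≤ 2 * kap := by positivity
  exact Convex.norm_image_sub_le_of_norm_hasFDerivWithin_le
    (f := Phi) (C := (Fintype.card ι) * C)
    (f' := fun x => (Matrix.toLin' (Phi' x)).toContinuousLinearMap)
    (s := Metric.closedBall (0 : ι → ℝ) (2 * kap)) (x := t') (y := t)
    (fun x _ => (hPhi x).hasFDerivWithinAt)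
    (fun x hx => toCLM_norm_le _ C hC (hD x ((mem_cb x _ hk2).mp hx)))
    (convex_closedBall _ _) (mem_closedBall_zero_iff.mpr ht') (mem_closedBall_zero_iff.mpr ht)

/-- the data of the main theorem -/
structure RegData (kap th : ℝ) : Prop where
  hk : 0 < kap
  hth : 0 < th
  hL : Li * L = 1
  lip : ∀ t t' : ι → ℝ, ‖t‖ ≤ 2 * kap → ‖t'‖ ≤ 2 * kap →
    ‖(Li.mulVec (Phi t) - t) - (Li.mulVec (Phi t') - t')‖ ≤ 1 / 8 * ‖t - t'‖
  h0 : ‖Li.mulVec (Phi 0)‖ ≤ kap / 4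
  hy : ∀ y : ι → ℝ, ‖y‖ ≤ 2 * th → ‖Li.mulVec y‖ ≤ kap / 4
  cont : Continuous Phi

variable {Phi L Li} {kap th : ℝ}

theorem RegData.small (R : RegData Phi L Li kap th) (t : ι → ℝ) (ht : ‖t‖ ≤ 2 * kap)
    (h : ‖Phi t‖ ≤ 2 * th) : ‖t‖ ≤ 3 / 4 * kap := by
  have hk := R.hk
  have h1 := R.lip t 0 ht (by rw [norm_zero]; positivity)
  have h2 := R.hy _ h
  have h3 := R.h0
  rw [sub_zero, sub_zero] at h1
  have h4 : t = Li.mulVec (Phi t) - Li.mulVec (Phi 0) -
      (Li.mulVec (Phi t) - t - Li.mulVec (Phi 0)) := by abel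
  calc ‖t‖ = ‖Li.mulVec (Phi t) - Li.mulVec (Phi 0) -
      (Li.mulVec (Phi t) - t - Li.mulVec (Phi 0))‖ := by rw [← h4]
    _ ≤ ‖Li.mulVec (Phi t)‖ + ‖Li.mulVec (Phi 0)‖ +
      ‖Li.mulVec (Phi t) - t - Li.mulVec (Phi 0)‖ :=
        (norm_sub_le _ _).trans (add_le_add (norm_sub_le _ _) le_rfl)
    _ ≤ kap / 4 + kap / 4 + 1 / 8 * ‖t‖ := by linarith
    _ ≤ 3 / 4 * kap := by linarith

theorem RegData.li_inj (R : RegData Phi L Li kap th) (y y' : ι → ℝ)
    (h : Li.mulVec y = Li.mulVec y') : y = y' := by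
  have h1 : L * Li = 1 := mul_eq_one_comm.mp R.hL
  have h2 := congrArg (L.mulVec) h
  rwa [Matrix.mulVec_mulVec, Matrix.mulVec_mulVec, h1, Matrix.one_mulVec, Matrix.one_mulVec] at h2

theorem RegData.inj (R : RegData Phi L Li kap th) (t t' : ι → ℝ) (ht : ‖t‖ ≤ 2 * kap)
    (ht' : ‖t'‖ ≤ 2 * kap) (h : Phi t = Phi t') : t = t' := by
  have h1 := R.lip t t' ht ht'
  rw [h] at h1
  have h2 : Li.mulVec (Phi t') - t - (Li.mulVec (Phi t') - t') = -(t - t') := by abel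
  rw [h2, norm_neg] at h1
  have h3 : ‖t - t'‖ = 0 := le_antisymm (by linarith [norm_nonneg (t - t')]) (norm_nonneg _)
  exact sub_eq_zero.mp (norm_eq_zero.mp h3)

theorem RegData.surj (R : RegData Phi L Li kap th) (y : ι → ℝ) (hy : ‖y‖ ≤ 2 * th) :
    ∃ t, ‖t‖ ≤ 2 * kap ∧ Phi t = y := by
  have hk := R.hk
  set s := Metric.closedBall (0 : ι → ℝ) (2 * kap) with hs
  set f : (ι → ℝ) → ι → ℝ := fun t => t - Li.mulVec (Phi t) + Li.mulVec y with hf
  have hmaps : Set.MapsTo f s s := by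
    intro t ht
    rw [hs, mem_closedBall_zero_iff] at ht ⊢
    have h1 := R.lip t 0 ht (by rw [norm_zero]; positivity)
    rw [sub_zero, sub_zero] at h1
    have h4 : f t = -(Li.mulVec (Phi t) - t - Li.mulVec (Phi 0)) - Li.mulVec (Phi 0) +
        Li.mulVec y := by simp only [hf]; abel
    rw [h4]
    calc ‖-(Li.mulVec (Phi t) - t - Li.mulVec (Phi 0)) - Li.mulVec (Phi 0) + Li.mulVec y‖
        ≤ ‖Li.mulVec (Phi t) - t - Li.mulVec (Phi 0)‖ + ‖Li.mulVec (Phi 0)‖ +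
          ‖Li.mulVec y‖ := by
          refine (norm_add_le _ _).trans (add_le_add ((norm_sub_le _ _).trans ?_) le_rfl)
          rw [norm_neg]
      _ ≤ 1 / 8 * ‖t‖ + kap / 4 + kap / 4 := by
          have := R.h0
          have := R.hy y hy
          linarith
      _ ≤ 2 * kap := by linarith
  have hcontr : ContractingWith (1 / 8 : NNReal) (hmaps.restrict f s s) := by
    refine ⟨?_, ?_⟩
    · exact NNReal.coe_lt_coe.mp (by push_cast; norm_num)
    · refine LipschitzWith.of_dist_le_mul fun a b => ?_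
      have ha := mem_closedBall_zero_iff.mp a.2
      have hb := mem_closedBall_zero_iff.mp b.2
      have h1 := R.lip a.1 b.1 ha hb
      rw [Subtype.dist_eq, Subtype.dist_eq, dist_eq_norm, dist_eq_norm]
      simp only [Set.MapsTo.val_restrict_apply, hf]
      have h2 : a.1 - Li.mulVec (Phi a.1) + Li.mulVec y -
          (b.1 - Li.mulVec (Phi b.1) + Li.mulVec y) =
          -((Li.mulVec (Phi a.1) - a.1) - (Li.mulVec (Phi b.1) - b.1)) := by abel
      rw [h2, norm_neg]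
      push_cast
      exact h1
  obtain ⟨t, hts, htf, -⟩ := hcontr.exists_fixedPoint' (x := (0 : ι → ℝ))
    (Metric.isClosed_closedBall.isComplete) hmaps
    (by rw [hs, mem_closedBall_zero_iff, norm_zero]; positivity) (edist_ne_top _ _)
  refine ⟨t, mem_closedBall_zero_iff.mp hts, ?_⟩
  have h5 : f t = t := htf
  refine R.li_inj _ _ ?_
  simp only [hf] at h5
  have h6 : Li.mulVec y - Li.mulVec (Phi t) = 0 := by
    have : t - Li.mulVec (Phi t) + Li.mulVec y - t = 0 := by rw [h5]; abel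
    rw [← this]; abel
  exact (sub_eq_zero.mp h6).symm

/-- the preimage of a cube -/
def RS (Phi : (ι → ℝ) → ι → ℝ) (kap u : ℝ) : Set (ι → ℝ) :=
  {t | ‖t‖ ≤ 2 * kap ∧ ‖Phi t‖ ≤ u}

theorem RegData.rs_measurable (R : RegData Phi L Li kap th) (u : ℝ) :
    MeasurableSet (RS Phi kap u) := by
  refine IsClosed.measurableSet ?_
  exact (isClosed_le continuous_norm continuous_const).inter
    (isClosed_le R.cont.norm continuous_const)

theorem rs_finite (u : ℝ) : volume (RS Phi kap u) ≠ ⊤ := by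
  refine ne_top_of_le_ne_top (Metric.isBounded_closedBall (x := (0 : ι → ℝ))
    (r := 2 * kap)).measure_lt_top.ne (measure_mono ?_)
  intro t ht
  exact mem_closedBall_zero_iff.mpr ht.1

theorem RegData.vol (R : RegData Phi L Li kap th)
    (hPhi : ∀ t, HasFDerivAt Phi (Matrix.toLin' (Phi' t)).toContinuousLinearMap t)
    (a b : ℝ) (ha : 0 ≤ a) (hb : 0 ≤ b)
    (hab : ∀ t : ι → ℝ, ‖t‖ ≤ 2 * kap → a ≤ |(Phi' t).det| ∧ |(Phi' t).det| ≤ b)
    (u : ℝ) (hu : 0 ≤ u) (hu2 : u ≤ 2 * th) :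
    a * (volume (RS Phi kap u)).toReal ≤ (2 * u) ^ (Fintype.card ι) ∧
      (2 * u) ^ (Fintype.card ι) ≤ b * (volume (RS Phi kap u)).toReal := by
  have himg : Phi '' RS Phi kap u = Metric.closedBall 0 u := by
    ext y
    constructor
    · rintro ⟨t, ht, rfl⟩
      exact mem_closedBall_zero_iff.mpr ht.2
    · intro hy
      rw [mem_closedBall_zero_iff] at hy
      obtain ⟨t, ht, rfl⟩ := R.surj y (hy.trans hu2)
      exact ⟨t, ⟨ht, hy⟩, rfl⟩
  have hinj : Set.InjOn Phi (RS Phi kap u) := fun t ht t' ht' h => R.inj t t' ht.1 ht'.1 h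
  have hlin := lintegral_image_eq_lintegral_abs_det_fderiv_mul volume (R.rs_measurable u)
    (fun x _ => (hPhi x).hasFDerivWithinAt) hinj (fun _ => 1)
  rw [himg] at hlin
  have hdet : ∀ x, ((Matrix.toLin' (Phi' x)).toContinuousLinearMap).det = (Phi' x).det := by
    intro x
    rw [ContinuousLinearMap.det, LinearMap.coe_toContinuousLinearMap, LinearMap.det_toLin']
  have h1 : ∫⁻ _x in Metric.closedBall (0 : ι → ℝ) u, (1 : ENNReal) =
      ENNReal.ofReal ((2 * u) ^ (Fintype.card ι)) := by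
    rw [lintegral_one, Measure.restrict_apply_univ, Real.volume_pi_closedBall _ hu]
  rw [h1] at hlin
  simp only [hdet, mul_one] at hlin
  have hfin := rs_finite (Phi := Phi) (kap := kap) u
  constructor
  · have h2 : ENNReal.ofReal a * volume (RS Phi kap u) ≤ ENNReal.ofReal ((2 * u) ^ (Fintype.card ι)) := by
      rw [hlin, ← setLIntegral_const]
      refine setLIntegral_mono' (R.rs_measurable u) fun t ht => ?_
      exact ENNReal.ofReal_le_ofReal (hab t ht.1).1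
    have h3 := ENNReal.toReal_mono ENNReal.ofReal_ne_top h2
    rwa [ENNReal.toReal_mul, ENNReal.toReal_ofReal ha, ENNReal.toReal_ofReal (by positivity)] at h3
  · have h2 : ENNReal.ofReal ((2 * u) ^ (Fintype.card ι)) ≤ ENNReal.ofReal b * volume (RS Phi kap u) := by
      rw [hlin, ← setLIntegral_const]
      refine setLIntegral_mono' (R.rs_measurable u) fun t ht => ?_
      exact ENNReal.ofReal_le_ofReal (hab t ht.1).2
    have h3 := ENNReal.toReal_mono (ENNReal.mul_ne_top ENNReal.ofReal_ne_top hfin) h2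
    rwa [ENNReal.toReal_mul, ENNReal.toReal_ofReal hb, ENNReal.toReal_ofReal (by positivity)] at h3

/-! ### cells -/

/-- the corner of a cell -/
def corner (p0 : ι → ℝ) (h : ℝ) (k : ι → ℤ) : ι → ℝ := fun j => p0 j + h * k j

/-- a cell -/
def cell (p0 : ι → ℝ) (h : ℝ) (k : ι → ℤ) : Set (ι → ℝ) :=
  Set.pi Set.univ fun j => Set.Ico (corner p0 h k j) (corner p0 h k j + h)

theorem vol_cell (p0 : ι → ℝ) (h : ℝ) (hh : 0 < h) (k : ι → ℤ) :
    volume (cell p0 h k) = ENNReal.ofReal (h ^ (Fintype.card ι)) := by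
  rw [cell, Real.volume_pi_Ico]
  simp only [add_sub_cancel_left, Finset.prod_const, Finset.card_univ]
  rw [ENNReal.ofReal_pow hh.le]

theorem cell_measurable (p0 : ι → ℝ) (h : ℝ) (k : ι → ℤ) :
    MeasurableSet (cell p0 h k) :=
  MeasurableSet.univ_pi fun _ => measurableSet_Ico

theorem mem_cell_iff (p0 : ι → ℝ) (h : ℝ) (hh : 0 < h) (k : ι → ℤ) (t : ι → ℝ) :
    t ∈ cell p0 h k ↔ ∀ j, ⌊(t j - p0 j) / h⌋ = k j := by
  simp only [cell, Set.mem_univ_pi, Set.mem_Ico, corner, Int.floor_eq_iff, le_div_iff₀ hh,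
    div_lt_iff₀ hh]
  refine forall_congr' fun j => ?_
  constructor
  · rintro ⟨h1, h2⟩
    constructor <;> nlinarith
  · rintro ⟨h1, h2⟩
    constructor <;> nlinarith

theorem cell_disjoint (p0 : ι → ℝ) (h : ℝ) (hh : 0 < h) :
    Pairwise (Function.onFun Disjoint (cell p0 h)) := by
  intro k k' hkk
  rw [Function.onFun, Set.disjoint_left]
  intro t h1 h2
  rw [mem_cell_iff p0 h hh] at h1 h2
  exact hkk (funext fun j => (h1 j).symm.trans (h2 j))

theorem cell_dist (p0 : ι → ℝ) (h : ℝ) (hh : 0 < h) (k : ι → ℤ) (t : ι → ℝ)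
    (ht : t ∈ cell p0 h k) : ‖t - corner p0 h k‖ ≤ h := by
  rw [pi_norm_le_iff_of_nonneg hh.le]
  intro j
  have h1 := ht j (Set.mem_univ j)
  rw [Real.norm_eq_abs, Pi.sub_apply, abs_le]
  constructor <;> linarith [h1.1, h1.2]

/-- the set of counted corners -/
def Cnt (Phi : (ι → ℝ) → ι → ℝ) (kap th : ℝ) (p0 : ι → ℝ) (h : ℝ) :
    Set (ι → ℤ) :=
  {k | ‖corner p0 h k‖ ≤ kap ∧ ‖Phi (corner p0 h k)‖ ≤ th}

theorem cnt_finite (p0 : ι → ℝ) (h : ℝ) (hh : 0 < h) : (Cnt Phi kap th p0 h).Finite := by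
  have h1 : (Cnt Phi kap th p0 h) ⊆
      {k : ι → ℤ | ∀ j, k j ∈ Set.Icc (⌊(-(kap) - p0 j) / h⌋) (⌈(kap - p0 j) / h⌉)} := by
    intro k hk j
    have h2 := (norm_le_pi_norm (corner p0 h k) j).trans hk.1
    rw [Real.norm_eq_abs, abs_le, corner] at h2
    constructor
    · have h3 : (-(kap) - p0 j) / h ≤ k j := by
        rw [div_le_iff₀ hh]; nlinarith [h2.1]
      exact_mod_cast (Int.floor_le _).trans h3
    · have h3 : (k j : ℝ) ≤ (kap - p0 j) / h := by
        rw [le_div_iff₀ hh]; nlinarith [h2.2]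
      exact_mod_cast h3.trans (Int.le_ceil _)
  exact (Set.Finite.pi' fun j => Set.finite_Icc _ _).subset h1

theorem vol_cells (p0 : ι → ℝ) (h : ℝ) (hh : 0 < h) :
    (volume (⋃ k ∈ Cnt Phi kap th p0 h, cell p0 h k)).toReal =
      ((Cnt Phi kap th p0 h).ncard : ℝ) * h ^ (Fintype.card ι) := by
  have hf := cnt_finite (Phi := Phi) (kap := kap) (th := th) p0 h hh
  rw [measure_biUnion hf.countable (fun k _ k' _ hkk => cell_disjoint p0 h hh hkk)
    (fun k _ => cell_measurable p0 h k)]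
  simp only [vol_cell p0 h hh]
  have h1 : ∑' _k : (Cnt Phi kap th p0 h), ENNReal.ofReal (h ^ (Fintype.card ι)) =
      ((Cnt Phi kap th p0 h).ncard : ENNReal) * ENNReal.ofReal (h ^ (Fintype.card ι)) := by
    rw [ENNReal.tsum_const]
    congr 1
    rw [ENat.card_coe_set_eq, ← hf.cast_ncard_eq]
    simp
  rw [h1, ENNReal.toReal_mul, ENNReal.toReal_natCast, ENNReal.toReal_ofReal (by positivity)]

theorem RegData.upper (R : RegData Phi L Li kap th) (Cl : ℝ) (hCl : 0 ≤ Cl)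
    (hlip : ∀ t t' : ι → ℝ, ‖t‖ ≤ 2 * kap → ‖t'‖ ≤ 2 * kap →
      ‖Phi t - Phi t'‖ ≤ Cl * ‖t - t'‖) (p0 : ι → ℝ) (h : ℝ) (hh : 0 < h)
    (hhk : h ≤ kap / 4) :
    ((Cnt Phi kap th p0 h).ncard : ℝ) * h ^ (Fintype.card ι) ≤
      (volume (RS Phi kap (th + Cl * h))).toReal := by
  have hk := R.hk
  rw [← vol_cells p0 h hh]
  refine ENNReal.toReal_mono (rs_finite _) (measure_mono ?_)
  intro t ht
  rw [Set.mem_iUnion₂] at ht
  obtain ⟨k, hk1, hk2⟩ := ht
  have h1 := cell_dist p0 h hh k t hk2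
  have h2 : ‖t‖ ≤ 2 * kap := by
    calc ‖t‖ = ‖corner p0 h k + (t - corner p0 h k)‖ := by congr 1; abel
      _ ≤ ‖corner p0 h k‖ + ‖t - corner p0 h k‖ := norm_add_le _ _
      _ ≤ kap + h := add_le_add hk1.1 h1
      _ ≤ 2 * kap := by linarith
  refine ⟨h2, ?_⟩
  have h3 := hlip t (corner p0 h k) h2 (hk1.1.trans (by linarith))
  calc ‖Phi t‖ = ‖Phi (corner p0 h k) + (Phi t - Phi (corner p0 h k))‖ := by congr 1; abel
    _ ≤ ‖Phi (corner p0 h k)‖ + ‖Phi t - Phi (corner p0 h k)‖ := norm_add_le _ _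
    _ ≤ th + Cl * ‖t - corner p0 h k‖ := add_le_add hk1.2 h3
    _ ≤ th + Cl * h := by gcongr

theorem RegData.lower (R : RegData Phi L Li kap th) (Cl : ℝ) (hCl : 0 ≤ Cl)
    (hlip : ∀ t t' : ι → ℝ, ‖t‖ ≤ 2 * kap → ‖t'‖ ≤ 2 * kap →
      ‖Phi t - Phi t'‖ ≤ Cl * ‖t - t'‖) (p0 : ι → ℝ) (h : ℝ) (hh : 0 < h)
    (hhk : h ≤ kap / 4) :
    (volume (RS Phi kap (th - Cl * h))).toReal ≤ ((Cnt Phi kap th p0 h).ncard : ℝ) * h ^ (Fintype.card ι) := by
  have hk := R.hk
  have hth := R.hth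
  rw [← vol_cells p0 h hh]
  have hfin : volume (⋃ k ∈ Cnt Phi kap th p0 h, cell p0 h k) ≠ ⊤ := by
    rw [measure_biUnion (cnt_finite p0 h hh).countable
      (fun k _ k' _ hkk => cell_disjoint p0 h hh hkk) (fun k _ => cell_measurable p0 h k)]
    simp only [vol_cell p0 h hh]
    have : Finite (Cnt Phi kap th p0 h) := (cnt_finite p0 h hh).to_subtype
    letI : Fintype (Cnt Phi kap th p0 h) := Fintype.ofFinite _
    rw [tsum_fintype]
    exact (ENNReal.sum_lt_top.mpr fun _ _ => ENNReal.ofReal_lt_top).ne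
  refine ENNReal.toReal_mono hfin (measure_mono ?_)
  intro t ht
  have hCh : 0 ≤ Cl * h := by positivity
  have h1 : ‖t‖ ≤ 3 / 4 * kap := R.small t ht.1 (ht.2.trans (by linarith))
  rw [Set.mem_iUnion₂]
  refine ⟨fun j => ⌊(t j - p0 j) / h⌋, ?_, (mem_cell_iff p0 h hh _ t).mpr fun _ => rfl⟩
  set k : ι → ℤ := fun j => ⌊(t j - p0 j) / h⌋ with hkdef
  have hc : t ∈ cell p0 h k := (mem_cell_iff p0 h hh _ t).mpr fun _ => rfl
  have h2 := cell_dist p0 h hh k t hc
  have h3 : ‖corner p0 h k‖ ≤ kap := by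
    calc ‖corner p0 h k‖ = ‖t - (t - corner p0 h k)‖ := by congr 1; abel
      _ ≤ ‖t‖ + ‖t - corner p0 h k‖ := norm_sub_le _ _
      _ ≤ 3 / 4 * kap + h := add_le_add h1 h2
      _ ≤ kap := by linarith
  refine ⟨h3, ?_⟩
  have h4 := hlip t (corner p0 h k) ht.1 (h3.trans (by linarith))
  calc ‖Phi (corner p0 h k)‖ = ‖Phi t - (Phi t - Phi (corner p0 h k))‖ := by congr 1; abel
    _ ≤ ‖Phi t‖ + ‖Phi t - Phi (corner p0 h k)‖ := norm_sub_le _ _
    _ ≤ (th - Cl * h) + Cl * ‖t - corner p0 h k‖ := add_le_add ht.2 h4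
    _ ≤ (th - Cl * h) + Cl * h := by gcongr
    _ = th := by ring

end main

/-- `Phi` is a `C^1` map on the cube `|t| ≤ 2 kap`, close to its linear part `L` at all points,
small at the origin. The number of points `p0 + h k` in the cube `|t| ≤ kap` with
`|Phi| ≤ th` is `(1 ± eps) (2 th)^r / (|det L| h^r)` for `h ≤ h0`, uniformly. -/
theorem region_points (ι : Type*) [Fintype ι] [DecidableEq ι] (eps : ℝ) (he : 0 < eps) (he1 : eps ≤ 1) :
    ∃ del : ℝ, 0 < del ∧ ∀ kap th C : ℝ, 0 < kap → 0 < th → 0 < C → ∃ h0 : ℝ, 0 < h0 ∧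
      ∀ (Phi : (ι → ℝ) → ι → ℝ) (Phi' : (ι → ℝ) → Matrix ι ι ℝ)
        (L Li : Matrix ι ι ℝ), Li * L = 1 →
      (∀ t, HasFDerivAt Phi (Matrix.toLin' (Phi' t)).toContinuousLinearMap t) →
      (∀ t, (∀ i, |t i| ≤ 2 * kap) → ∀ i l, |(Li * Phi' t - 1) i l| ≤ del) →
      (∀ t, (∀ i, |t i| ≤ 2 * kap) → ∀ i l, |Phi' t i l| ≤ C) →
      (∀ i, |(Li.mulVec (Phi 0)) i| ≤ kap / 4) →
      (∀ y : ι → ℝ, (∀ i, |y i| ≤ 2 * th) → ∀ i, |(Li.mulVec y) i| ≤ kap / 4) →
      ∀ (h : ℝ) (p0 : ι → ℝ), 0 < h → h ≤ h0 →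
        (1 - eps) * ((2 * th) ^ (Fintype.card ι) / |L.det|) ≤
          (Set.ncard {k : ι → ℤ | (∀ i, |p0 i + h * k i| ≤ kap) ∧
            ∀ i, |Phi (fun j => p0 j + h * k j) i| ≤ th} : ℝ) * h ^ (Fintype.card ι) ∧
        (Set.ncard {k : ι → ℤ | (∀ i, |p0 i + h * k i| ≤ kap) ∧
            ∀ i, |Phi (fun j => p0 j + h * k j) i| ≤ th} : ℝ) * h ^ (Fintype.card ι) ≤
          (1 + eps) * ((2 * th) ^ (Fintype.card ι) / |L.det|) := by
  obtain ⟨d1, hd1, hdet⟩ := det_near_one ι (eps / 8) (by positivity)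
  obtain ⟨x0, hx0, hx1, hpow⟩ := pow_near_one (Fintype.card ι) (eps / 4) (by positivity)
  obtain ⟨del, hdel, hdel1, hdel2⟩ : ∃ del : ℝ, 0 < del ∧ del ≤ d1 ∧ (Fintype.card ι) * del ≤ 1 / 8 := by
    refine ⟨min d1 (1 / (8 * ((Fintype.card ι) + 1))), by positivity, min_le_left _ _, ?_⟩
    have h1 : ((Fintype.card ι) : ℝ) * min d1 (1 / (8 * ((Fintype.card ι) + 1))) ≤ (Fintype.card ι) * (1 / (8 * ((Fintype.card ι) + 1))) := by
      gcongr
      exact min_le_right _ _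
    refine h1.trans ?_
    rw [mul_one_div, div_le_div_iff₀ (by positivity) (by norm_num)]
    nlinarith [(Nat.cast_nonneg (Fintype.card ι) : (0 : ℝ) ≤ (Fintype.card ι))]
  refine ⟨del, hdel, fun kap th C hk hth hC => ?_⟩
  obtain ⟨h0, hh0, h0k, h0x⟩ : ∃ h0 : ℝ, 0 < h0 ∧ h0 ≤ kap / 4 ∧ (Fintype.card ι) * C * h0 ≤ x0 * th := by
    refine ⟨min (kap / 4) (x0 * th / ((Fintype.card ι) * C + 1)), by positivity, min_le_left _ _, ?_⟩
    have h1 : (Fintype.card ι) * C * min (kap / 4) (x0 * th / ((Fintype.card ι) * C + 1)) ≤ (Fintype.card ι) * C * (x0 * th / ((Fintype.card ι) * C + 1)) := by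
      gcongr
      exact min_le_right _ _
    refine h1.trans ?_
    rw [mul_div_assoc', div_le_iff₀ (by positivity)]
    have h2 : 0 ≤ x0 * th := by positivity
    nlinarith
  refine ⟨h0, hh0, ?_⟩
  intro Phi Phi' L Li hLi hPhi hD hC' hPhi0 hy h p0 hh hhh
  have hk2 : 0 ≤ 2 * kap := by positivity
  have hD' : ∀ t : ι → ℝ, ‖t‖ ≤ 2 * kap → ∀ i l, |(Li * Phi' t - 1) i l| ≤ del :=
    fun t ht => hD t ((mem_cb t _ hk2).mp (mem_closedBall_zero_iff.mpr ht))
  have R : RegData Phi L Li kap th :=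
    { hk := hk
      hth := hth
      hL := hLi
      lip := lip_G Phi Phi' Li kap del hdel.le hdel2 hPhi hD hk.le
      h0 := by
        rw [pi_norm_le_iff_of_nonneg (by positivity)]
        exact hPhi0
      hy := fun y hy' => by
        rw [pi_norm_le_iff_of_nonneg (by positivity)]
        exact hy y ((mem_cb y _ (by positivity)).mp (mem_closedBall_zero_iff.mpr hy'))
      cont := continuous_iff_continuousAt.mpr fun t => (hPhi t).continuousAt }
  have hlip := lip_Phi Phi Phi' kap C hC.le hPhi hC' hk.le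
  -- determinants
  have hdetL : Li.det * L.det = 1 := by rw [← Matrix.det_mul, hLi, Matrix.det_one]
  have hL0 : L.det ≠ 0 := right_ne_zero_of_mul (by rw [hdetL]; exact one_ne_zero)
  have hLpos : 0 < |L.det| := abs_pos.mpr hL0
  have hab : ∀ t : ι → ℝ, ‖t‖ ≤ 2 * kap → (1 - eps / 8) * |L.det| ≤ |(Phi' t).det| ∧
      |(Phi' t).det| ≤ (1 + eps / 8) * |L.det| := by
    intro t ht
    have h1 := hdet (Li * Phi' t) fun i l => (hD' t ht i l).trans hdel1
    have h2 : (Phi' t).det = (Li * Phi' t).det * L.det := by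
      rw [Matrix.det_mul]
      calc (Phi' t).det = (Li.det * L.det) * (Phi' t).det := by rw [hdetL, one_mul]
        _ = Li.det * (Phi' t).det * L.det := by ring
    rw [h2, abs_mul]
    rw [abs_le] at h1
    have h3 : |(Li * Phi' t).det| = (Li * Phi' t).det := abs_of_nonneg (by linarith [h1.1])
    rw [h3]
    constructor <;> gcongr <;> linarith [h1.1, h1.2]
  have ha : 0 ≤ (1 - eps / 8) * |L.det| := mul_nonneg (by linarith) hLpos.le
  have ha' : 0 < (1 - eps / 8) * |L.det| := mul_pos (by linarith) hLpos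
  have hb : 0 < (1 + eps / 8) * |L.det| := by positivity
  -- the set
  have hset : {k : ι → ℤ | (∀ i, |p0 i + h * k i| ≤ kap) ∧
      ∀ i, |Phi (fun j => p0 j + h * k j) i| ≤ th} = Cnt Phi kap th p0 h := by
    ext k
    simp only [Set.mem_ofPred_eq, Cnt]
    rw [pi_norm_le_iff_of_nonneg hk.le, pi_norm_le_iff_of_nonneg hth.le]
    rfl
  rw [hset]
  obtain ⟨x, hxdef⟩ : ∃ x, x = (Fintype.card ι) * C * h / th := ⟨_, rfl⟩
  have hx : 0 ≤ x := by rw [hxdef]; positivity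
  have hxth : (Fintype.card ι) * C * h = x * th := by rw [hxdef]; field_simp
  have hxx0 : x ≤ x0 := by
    rw [hxdef, div_le_iff₀ hth]
    refine le_trans ?_ h0x
    gcongr
  have hup := R.upper ((Fintype.card ι) * C) (by positivity) hlip p0 h hh (hhh.trans h0k)
  have hlo := R.lower ((Fintype.card ι) * C) (by positivity) hlip p0 h hh (hhh.trans h0k)
  have hvu := (R.vol Phi' hPhi _ _ ha hb.le hab (th + (Fintype.card ι) * C * h) (by positivity)
    (by rw [hxth]; nlinarith)).1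
  have hvl := (R.vol Phi' hPhi _ _ ha hb.le hab (th - (Fintype.card ι) * C * h)
    (by rw [hxth]; nlinarith) (by rw [hxth]; nlinarith)).2
  obtain ⟨hp1, hp2⟩ := hpow x hx hxx0
  have e1 : (2 * (th + (Fintype.card ι) * C * h)) ^ (Fintype.card ι) = (2 * th) ^ (Fintype.card ι) * (1 + x) ^ (Fintype.card ι) := by
    rw [hxth, ← mul_pow]; ring
  have e2 : (2 * (th - (Fintype.card ι) * C * h)) ^ (Fintype.card ι) = (2 * th) ^ (Fintype.card ι) * (1 - x) ^ (Fintype.card ι) := by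
    rw [hxth, ← mul_pow]; ring
  rw [e1] at hvu
  rw [e2] at hvl
  have hTpos : 0 < (2 * th) ^ (Fintype.card ι) := by positivity
  set N : ℝ := ((Cnt Phi kap th p0 h).ncard : ℝ) * h ^ (Fintype.card ι) with hN
  set T : ℝ := (2 * th) ^ (Fintype.card ι) with hT
  constructor
  · -- (1 - eps) T / |det L| ≤ N
    have h1 : T * (1 - eps / 4) ≤ (1 + eps / 8) * |L.det| * N := by
      calc T * (1 - eps / 4) ≤ T * (1 - x) ^ (Fintype.card ι) := by gcongr
        _ ≤ (1 + eps / 8) * |L.det| * (volume (RS Phi kap (th - (Fintype.card ι) * C * h))).toReal := hvl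
        _ ≤ (1 + eps / 8) * |L.det| * N := by gcongr
    rw [mul_div_assoc', div_le_iff₀ hLpos]
    have h2 : (1 - eps) * T * (1 + eps / 8) ≤ T * (1 - eps / 4) := by
      have h5 : 0 ≤ T * (eps * (5 / 8 + eps / 8)) :=
        mul_nonneg hTpos.le (mul_nonneg he.le (by linarith))
      linarith
    have h3 : (1 - eps) * T * (1 + eps / 8) ≤ N * |L.det| * (1 + eps / 8) := by
      calc _ ≤ _ := h2
        _ ≤ _ := h1
        _ = _ := by ring
    exact le_of_mul_le_mul_right h3 (by positivity)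
  · have h1 : (1 - eps / 8) * |L.det| * N ≤ T * (1 + eps / 4) := by
      calc (1 - eps / 8) * |L.det| * N ≤
          (1 - eps / 8) * |L.det| * (volume (RS Phi kap (th + (Fintype.card ι) * C * h))).toReal := by gcongr
        _ ≤ T * (1 + x) ^ (Fintype.card ι) := hvu
        _ ≤ T * (1 + eps / 4) := by gcongr
    rw [mul_div_assoc', le_div_iff₀ hLpos]
    have h2 : T * (1 + eps / 4) ≤ (1 + eps) * T * (1 - eps / 8) := by
      have h5 : 0 ≤ T * (eps * (5 / 8 - eps / 8)) :=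
        mul_nonneg hTpos.le (mul_nonneg he.le (by linarith))
      linarith
    have h3 : N * |L.det| * (1 - eps / 8) ≤ (1 + eps) * T * (1 - eps / 8) := by
      calc _ = (1 - eps / 8) * |L.det| * N := by ring
        _ ≤ _ := h1
        _ ≤ _ := h2
    exact le_of_mul_le_mul_right h3 (by linarith)

end NKRC
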