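import Pool.Agent.Lib.MP_e426f4_ag.NK.Basic
import Pool.Agent.Lib.MP_e426f4_ag.NK.RealLoc
import Pool.Agent.Lib.MP_e426f4_ag.NK.RealRes
import Pool.Agent.Lib.MP_e426f4_ag.NK.Region

/-! Module NK-RC: the real counting property for systems over a number field. -/

set_option linter.unusedSectionVars false

namespace NKHP

open NumberField GenHP NFHP NKRC Finset Filter Topology
open CIHP (Sys NS Jac nu Bf)

variable {K : Type} [Field K] [NumberField K] {n r : ℕ} {e : Fin r → ℕ}

private theorem rc_num (n m : ℕ) (hm : m ≤ n + 1) (eps e0 : ℝ) (he : 0 < eps)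
    (he1 : eps ≤ 1 / 10) (hedef : e0 = eps / (8 * ((n : ℝ) + 1))) :
    1 - eps ≤ (1 - eps / 8) * (1 - e0) ^ m ∧ (1 + eps / 8) * (1 + e0) ^ m ≤ 1 + eps := by
  have hn : (0 : ℝ) < (n : ℝ) + 1 := by positivity
  have hepos : 0 < e0 := by rw [hedef]; positivity
  have h1 : ((n : ℝ) + 1) * e0 = eps / 8 := by
    rw [hedef]
    field_simp
  have hm' : (m : ℝ) ≤ (n : ℝ) + 1 := by exact_mod_cast hm
  have h2 : (m : ℝ) * e0 ≤ eps / 8 := by
    rw [← h1]
    exact mul_le_mul_of_nonneg_right hm' hepos.le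
  have he2 : e0 ≤ 1 := by
    have h0 : (0 : ℝ) ≤ n := Nat.cast_nonneg n
    nlinarith only [h1, he, he1, hepos]
  have h3 : 1 - eps / 8 ≤ (1 - e0) ^ m := by
    have h0 := one_add_mul_le_pow (a := -e0) (by linarith) m
    calc 1 - eps / 8 ≤ 1 + (m : ℝ) * -e0 := by linarith only [h2]
      _ ≤ (1 + -e0) ^ m := h0
      _ = (1 - e0) ^ m := by ring
  have h4 : (1 + e0) ^ m * (1 - e0) ^ m ≤ 1 := by
    rw [← mul_pow]
    apply pow_le_one₀
    · nlinarith only [h1, he, he1, hepos]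
    · nlinarith only [he, he1, hepos]
  have h5 : 0 < 1 - eps / 8 := by linarith only [he, he1]
  constructor
  · have h6 : (1 - eps / 8) * (1 - eps / 8) ≤ (1 - eps / 8) * (1 - e0) ^ m :=
      mul_le_mul_of_nonneg_left h3 h5.le
    nlinarith only [h6, he]
  · have h6 : (1 + e0) ^ m * (1 - eps / 8) ≤ 1 :=
      (mul_le_mul_of_nonneg_left h3 (by positivity)).trans h4
    have h7 : (1 + eps / 8) * (1 + e0) ^ m * (1 - eps / 8) ≤ (1 + eps) * (1 - eps / 8) := by
      have h8 : (1 + eps / 8) * ((1 + e0) ^ m * (1 - eps / 8)) ≤ (1 + eps / 8) * 1 :=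
        mul_le_mul_of_nonneg_left h6 (by linarith)
      nlinarith only [h8, he, he1]
    exact le_of_mul_le_mul_right h7 h5

private theorem rc_prod (n r : ℕ) (hrn : r ≤ n + 1) (c : ℝ) :
    ∏ i : Fin (n + 1), (if (i : ℕ) < r then (1 : ℝ) else c) = c ^ (n + 1 - r) := by
  rw [← Finset.prod_range (fun i => if i < r then (1 : ℝ) else c)]
  obtain ⟨m, hm⟩ : ∃ m, n + 1 = r + m := ⟨n + 1 - r, by omega⟩
  rw [hm, Finset.prod_range_add]
  have h1 : ∏ x ∈ Finset.range r, (if x < r then (1 : ℝ) else c) = 1 :=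
    Finset.prod_eq_one fun x hx => if_pos (Finset.mem_range.mp hx)
  have h2 : ∏ x ∈ Finset.range m, (if r + x < r then (1 : ℝ) else c) = c ^ m := by
    rw [Finset.prod_congr rfl fun x _ => if_neg (show ¬ r + x < r by omega), Finset.prod_const,
      Finset.card_range]
  rw [h1, h2, one_mul]
  congr 1
  omega

private theorem co_div (a : 𝓞 K) (C : ℝ) :
    co (fun w => sg w a / C) = fun j => (crd a j : ℝ) / C := by
  refine co_eq (RV_div (RV_sg a) (RV_ofReal fun _ => C)) fun w => ?_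
  have h1 : (fun j => (crd a j : ℝ) / C) = fun j => C⁻¹ * (crd a j : ℝ) := by
    funext j
    ring
  rw [h1, lam_smul, lam_crd]
  push_cast
  ring

/-- the value of the system at an integral point -/
private theorem Ph_value (A : Sys n e (𝓞 K)) (H : ℝ) (hH : 0 < H) (B : ℕ) (hB : 0 < B)
    (xi ze : Fin (n + 1) → IK K → ℝ) (h : Fin r → Fin (n + 1) → ℤ) (t : Fin r × IK K → ℝ)
    (x : Fin (n + 1) → 𝓞 K) (hx : ∀ i j, Xp xi ze h t i j = (crd (x i) j : ℝ) / B)
    (p : Fin r × IK K) :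
    Ph (fun i m j => (crd (A i m) j : ℝ) / H) xi ze h t p =
      (crd (F (A p.1) x) p.2 : ℝ) / (H * (B : ℝ) ^ e p.1) := by
  have hHc : (H : ℂ) ≠ 0 := by exact_mod_cast hH.ne'
  have hBc : (B : ℂ) ≠ 0 := by exact_mod_cast hB.ne'
  have hlam : ∀ (a : 𝓞 K) (C : ℝ) (w : InfinitePlace K),
      lam (fun j => (crd a j : ℝ) / C) w = sg w a / C := by
    intro a C w
    have h1 : (fun j => (crd a j : ℝ) / C) = fun j => C⁻¹ * (crd a j : ℝ) := by
      funext j
      ring
    rw [h1, lam_smul, lam_crd]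
    push_cast
    ring
  have h1 : ∀ w : InfinitePlace K, F (sysC (fun i m j => (crd (A i m) j : ℝ) / H) w p.1)
      (ptC (Xp xi ze h t) w) = sg w (F (A p.1) x) / ((H * (B : ℝ) ^ e p.1 : ℝ) : ℂ) := by
    intro w
    have h2 : ptC (Xp xi ze h t) w = fun i => ((B : ℂ)⁻¹) * sg w (x i) := by
      funext i
      show lam (Xp xi ze h t i) w = _
      have h3 : Xp xi ze h t i = fun j => (crd (x i) j : ℝ) / B := funext fun j => hx i j
      rw [h3, hlam]
      push_cast
      ring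
    have h4 : sysC (fun i m j => (crd (A i m) j : ℝ) / H) w p.1 =
        fun m => ((H : ℂ)⁻¹) * sg w (A p.1 m) := by
      funext m
      show lam (fun j => (crd (A p.1 m) j : ℝ) / H) w = _
      rw [hlam]
      ring
    rw [h2, h4, F_smul, F_scale, F_sg, inv_pow]
    push_cast
    field_simp
  unfold Ph
  rw [co_congr h1, co_div]

/-- number of points with small values in a class modulo `M` -/
private theorem rc_int [DecidableEq (IK K)] (hrn : r ≤ n + 1) (eps kap rho th h0 vg : ℝ)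
    (heps : 0 < eps)
    (he1 : eps ≤ 1 / 10) (hk : 0 < kap) (hth : 0 < th) (hh0 : 0 < h0) (hvg : 0 < vg)
    (Ainf : Sys n e (IK K → ℝ)) (xi : Fin (n + 1) → IK K → ℝ) (h : Fin r → Fin (n + 1) → ℤ)
    (hid : ∀ l l' : Fin r, h l (fr n l') = if l = l' then 1 else 0)
    (hmain : ∀ (A' : Sys n e (IK K → ℝ)) (ze : Fin (n + 1) → IK K → ℝ),
      (∀ i t j, |A' i t j - Ainf i t j| ≤ 3 * rho) → (∀ i j, |ze i j| ≤ kap ^ 2) →
      ∀ (s : ℝ) (p0 : Fin r × IK K → ℝ), 0 < s → s ≤ h0 →
        (1 - eps / 8) * ((2 * th) ^ Fintype.card (Fin r × IK K) / vg) ≤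
          (Set.ncard {k : Fin r × IK K → ℤ | (∀ p, |p0 p + s * k p| ≤ kap) ∧
            ∀ p, |Ph A' xi ze h (fun j => p0 j + s * k j) p| ≤ th} : ℝ) *
              s ^ Fintype.card (Fin r × IK K) ∧
        (Set.ncard {k : Fin r × IK K → ℤ | (∀ p, |p0 p + s * k p| ≤ kap) ∧
            ∀ p, |Ph A' xi ze h (fun j => p0 j + s * k j) p| ≤ th} : ℝ) *
              s ^ Fintype.card (Fin r × IK K) ≤
          (1 + eps / 8) * ((2 * th) ^ Fintype.card (Fin r × IK K) / vg))
    (M : ℕ) (hM : 1 ≤ M) :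
    ∃ B0 : ℕ, 1 ≤ B0 ∧ ∀ B : ℕ, B0 ≤ B → ∀ H : ℝ, 0 < H → ∀ A : Sys n e (𝓞 K),
    (∀ i t j, |(crd (A i t) j : ℝ) - H * Ainf i t j| ≤ 3 * rho * H) →
    ∀ z : Fin (n + 1) → 𝓞 K,
    (1 - eps) * Vol K n r vg kap th B / (((M : ℝ) ^ mK K)) ^ (n + 1) ≤
        (Set.ncard {x : Fin (n + 1) → 𝓞 K | x ∈ {x | x ∈ Reg xi h kap B ∧
          ∀ i, CIn (th * H * (B : ℝ) ^ e i) (F (A i) x)} ∧ (∀ i, (M : 𝓞 K) ∣ x i - z i)} : ℝ) ∧
      (Set.ncard {x : Fin (n + 1) → 𝓞 K | x ∈ {x | x ∈ Reg xi h kap B ∧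
          ∀ i, CIn (th * H * (B : ℝ) ^ e i) (F (A i) x)} ∧ (∀ i, (M : 𝓞 K) ∣ x i - z i)} : ℝ) ≤
        (1 + eps) * Vol K n r vg kap th B / (((M : ℝ) ^ mK K)) ^ (n + 1) := by
  classical
  have hM' : (0 : ℝ) < M := by exact_mod_cast hM
  have hMne : M ≠ 0 := by omega
  have hMK : (M : 𝓞 K) ≠ 0 := by exact_mod_cast hMne
  obtain ⟨e0, hedef⟩ : ∃ e0, e0 = eps / (8 * ((n : ℝ) + 1)) := ⟨_, rfl⟩
  have hepos : 0 < e0 := by rw [hedef]; positivity
  have he32 : e0 ≤ 1 / 80 := by
    rw [hedef, div_le_iff₀ (by positivity)]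
    have : (0 : ℝ) ≤ n := Nat.cast_nonneg n
    nlinarith only [he1]
  have hTne : (Ideal.span {(M : 𝓞 K)} : Ideal (𝓞 K)) ≠ ⊥ := by
    rw [Ne, Ideal.span_singleton_eq_bot]
    exact hMK
  obtain ⟨R0, hR0, hcube⟩ := cube_count (K := K) (Ideal.span {(M : 𝓞 K)}) hTne e0 hepos
  rw [absNorm_natCast] at hcube
  push_cast at hcube
  obtain ⟨V, hV⟩ : ∃ V, V = (2 * th) ^ Fintype.card (Fin r × IK K) / vg := ⟨_, rfl⟩
  have hVpos : 0 < V := by rw [hV]; positivity
  rw [← hV] at hmain
  refine ⟨⌈R0 / kap ^ 2⌉₊ + ⌈M / h0⌉₊ + 1, by omega, ?_⟩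
  intro B hB H hH A hA z
  have hBpos : 0 < B := by omega
  have hB' : (0 : ℝ) < B := by exact_mod_cast hBpos
  have hBR : R0 ≤ kap ^ 2 * B := by
    have h1 : R0 / kap ^ 2 ≤ (B : ℝ) := by
      refine (Nat.le_ceil _).trans ?_
      have : ⌈R0 / kap ^ 2⌉₊ ≤ B := by omega
      exact_mod_cast this
    rw [div_le_iff₀ (by positivity)] at h1
    linarith
  obtain ⟨s, hsdef⟩ : ∃ s : ℝ, s = M / B := ⟨_, rfl⟩
  have hspos : 0 < s := by rw [hsdef]; positivity
  have hsle : s ≤ h0 := by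
    have h1 : (M : ℝ) / h0 ≤ (⌈(M : ℝ) / h0⌉₊ : ℝ) := Nat.le_ceil _
    have h2 : ((⌈(M : ℝ) / h0⌉₊ : ℕ) : ℝ) ≤ B := by exact_mod_cast (by omega)
    have h3 : (M : ℝ) / h0 ≤ B := h1.trans h2
    rw [div_le_iff₀ hh0] at h3
    rw [hsdef, div_le_iff₀ hB']
    linarith only [h3]
  -- the normalised system
  let A' : Sys n e (IK K → ℝ) := fun i m j => (crd (A i m) j : ℝ) / H
  have hA' : ∀ i t j, |A' i t j - Ainf i t j| ≤ 3 * rho := by
    intro i t j
    have h1 : A' i t j - Ainf i t j = ((crd (A i t) j : ℝ) - H * Ainf i t j) / H := by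
      simp only [A']
      field_simp
    rw [h1, abs_div, abs_of_pos hH, div_le_iff₀ hH]
    exact hA i t j
  -- the sets
  obtain ⟨S, hS⟩ : ∃ S : Set (Fin (n + 1) → 𝓞 K), S = {x : Fin (n + 1) → 𝓞 K |
      x ∈ {x | x ∈ Reg xi h kap B ∧ ∀ i, CIn (th * H * (B : ℝ) ^ e i) (F (A i) x)} ∧
      (∀ i, (M : 𝓞 K) ∣ x i - z i)} := ⟨_, rfl⟩
  have hSfin : S.Finite := by
    rw [hS]
    exact (Reg_finite hrn xi h kap B).subset fun x hx => hx.1.1
  let g : (Fin (n + 1) → 𝓞 K) → Fin (n + 1) → 𝓞 K := fun x i =>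
    x i - ∑ l, (h l i : 𝓞 K) * x (fr n l)
  let cube : Fin (n + 1) → Set (𝓞 K) := fun i =>
    {a : 𝓞 K | a - (z i - ∑ l, (h l i : 𝓞 K) * z (fr n l)) ∈ Ideal.span {(M : 𝓞 K)} ∧
      ∀ j, |(crd a j : ℝ) - B * (xi i j - ∑ l, (h l i : ℝ) * xi (fr n l) j)| ≤ kap ^ 2 * B}
  let ss : Fin (n + 1) → Set (𝓞 K) := fun i => if (i : ℕ) < r then {0} else cube i
  have hcubef : ∀ i, (cube i).Finite := fun i => (hcube (kap ^ 2 * B) hBR
    (fun j => B * (xi i j - ∑ l, (h l i : ℝ) * xi (fr n l) j))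
    (z i - ∑ l, (h l i : 𝓞 K) * z (fr n l))).1
  have hssf : ∀ i, (ss i).Finite := by
    intro i
    simp only [ss]
    split_ifs
    · exact Set.finite_singleton _
    · exact hcubef i
  obtain ⟨a, hadef⟩ : ∃ a : ℝ, a = (2 * (kap ^ 2 * B)) ^ mK K / (M : ℝ) ^ mK K := ⟨_, rfl⟩
  have hapos : 0 < a := by rw [hadef]; positivity
  have hcubeb : ∀ i, (1 - e0) * a ≤ ((cube i).ncard : ℝ) ∧ ((cube i).ncard : ℝ) ≤ (1 + e0) * a := by
    intro i
    rw [hadef]
    exact (hcube (kap ^ 2 * B) hBR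
      (fun j => B * (xi i j - ∑ l, (h l i : ℝ) * xi (fr n l) j))
      (z i - ∑ l, (h l i : 𝓞 K) * z (fr n l))).2
  obtain ⟨hYf, hYn⟩ := pi_bounds ss hssf
  have hssn : ∀ i, ((ss i).ncard : ℝ) = if (i : ℕ) < r then 1 else ((cube i).ncard : ℝ) := by
    intro i
    simp only [ss]
    split_ifs
    · rw [Set.ncard_singleton, Nat.cast_one]
    · rfl
  obtain ⟨Y, hY⟩ : ∃ Y : Set (Fin (n + 1) → 𝓞 K), Y = {y | ∀ k, y k ∈ ss k} := ⟨_, rfl⟩
  rw [← hY] at hYf hYn
  have hYlo : ((1 - e0) * a) ^ (n + 1 - r) ≤ (Y.ncard : ℝ) := by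
    rw [hYn, ← rc_prod n r hrn]
    refine Finset.prod_le_prod (fun i _ => ?_) fun i _ => ?_
    · split_ifs
      · exact zero_le_one
      · exact mul_nonneg (by linarith only [he32]) hapos.le
    · rw [hssn]
      split_ifs
      · exact le_rfl
      · exact (hcubeb i).1
  have hYup : (Y.ncard : ℝ) ≤ ((1 + e0) * a) ^ (n + 1 - r) := by
    rw [hYn, ← rc_prod n r hrn]
    refine Finset.prod_le_prod (fun i _ => Nat.cast_nonneg _) fun i _ => ?_
    rw [hssn]
    split_ifs
    · exact le_rfl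
    · exact (hcubeb i).2
  -- identity block
  have hidK : ∀ (l' : Fin r) (c : Fin r → 𝓞 K), ∑ l, (h l (fr n l') : 𝓞 K) * c l = c l' := by
    intro l' c
    rw [Finset.sum_eq_single l']
    · rw [hid, if_pos rfl, Int.cast_one, one_mul]
    · intro l _ hl
      rw [hid, if_neg hl, Int.cast_zero, zero_mul]
    · intro h1
      exact absurd (Finset.mem_univ _) h1
  have hidR : ∀ (l' : Fin r) (c : Fin r → ℝ), ∑ l, (h l (fr n l') : ℝ) * c l = c l' := by
    intro l' c
    rw [Finset.sum_eq_single l']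
    · rw [hid, if_pos rfl, Int.cast_one, one_mul]
    · intro l _ hl
      rw [hid, if_neg hl, Int.cast_zero, zero_mul]
    · intro h1
      exact absurd (Finset.mem_univ _) h1
  have hgmap : ∀ x ∈ S, g x ∈ Y := by
    intro x hx
    rw [hS] at hx
    rw [hY]
    intro i
    show g x i ∈ (if (i : ℕ) < r then {0} else cube i : Set (𝓞 K))
    by_cases hi : (i : ℕ) < r
    · rw [if_pos hi, Set.mem_singleton_iff]
      have h1 := hidK ⟨i, hi⟩ fun l => x (fr n l)
      rw [fr_of_lt hrn i hi] at h1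
      show x i - ∑ l, (h l i : 𝓞 K) * x (fr n l) = 0
      rw [h1, sub_self]
    · rw [if_neg hi]
      refine ⟨?_, fun j => ?_⟩
      · rw [Ideal.mem_span_singleton]
        have h1 : g x i - (z i - ∑ l, (h l i : 𝓞 K) * z (fr n l)) =
            (x i - z i) - ∑ l, (h l i : 𝓞 K) * (x (fr n l) - z (fr n l)) := by
          simp only [g, mul_sub, Finset.sum_sub_distrib]
          ring
        rw [h1]
        exact dvd_sub (hx.2 i) (Finset.dvd_sum fun l _ => Dvd.dvd.mul_left (hx.2 _) _)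
      · have h1 : (crd (g x i) j : ℝ) - B * (xi i j - ∑ l, (h l i : ℝ) * xi (fr n l) j) =
            ((crd (x i) j : ℝ) - B * xi i j) -
              ∑ l, (h l i : ℝ) * ((crd (x (fr n l)) j : ℝ) - B * xi (fr n l) j) := by
          simp only [g]
          rw [crd_sub, crd_sum]
          simp only [crd_intCast_mul]
          push_cast
          simp only [mul_sub, Finset.sum_sub_distrib, Finset.mul_sum]
          have h2 : ∀ l, (h l i : ℝ) * ((B : ℝ) * xi (fr n l) j) =
              (B : ℝ) * ((h l i : ℝ) * xi (fr n l) j) := fun l => by ring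
          simp only [h2]
          ring
        rw [h1]
        exact hx.1.1.2 i (not_lt.mp hi) j
  -- integers with given coordinates
  choose κ hκ using exists_crd (K := K)
  have hfib := ncard_fiber_bounds S hSfin g Y hYf hgmap
    ((1 - eps / 8) * V / s ^ Fintype.card (Fin r × IK K))
    ((1 + eps / 8) * V / s ^ Fintype.card (Fin r × IK K)) (by
      intro y hy
      rw [hY] at hy
      have hy0 : ∀ i : Fin (n + 1), (i : ℕ) < r → y i = 0 := by
        intro i hi
        have h1 : y i ∈ (if (i : ℕ) < r then {0} else cube i : Set (𝓞 K)) := hy i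
        rwa [if_pos hi, Set.mem_singleton_iff] at h1
      have hyc : ∀ i : Fin (n + 1), r ≤ (i : ℕ) → y i ∈ cube i := by
        intro i hi
        have h1 : y i ∈ (if (i : ℕ) < r then {0} else cube i : Set (𝓞 K)) := hy i
        rwa [if_neg (not_lt.mpr hi)] at h1
      have hyfr : ∀ l : Fin r, y (fr n l) = 0 := fun l =>
        hy0 _ (by rw [fr_val hrn]; exact l.2)
      let X : (Fin r × IK K → ℤ) → Fin (n + 1) → 𝓞 K := fun k i =>
        ∑ l, (h l i : 𝓞 K) * (z (fr n l) + M * κ (fun j => k (l, j))) + y i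
      have hXfr : ∀ k l, X k (fr n l) = z (fr n l) + M * κ (fun j => k (l, j)) := by
        intro k l
        simp only [X]
        rw [hidK l fun l => z (fr n l) + M * κ (fun j => k (l, j)), hyfr, add_zero]
      have hgX : ∀ k, g (X k) = y := by
        intro k
        funext i
        simp only [g, hXfr]
        simp only [X]
        ring
      let ze : Fin (n + 1) → IK K → ℝ := fun i j =>
        (crd (y i) j : ℝ) / B - (xi i j - ∑ l, (h l i : ℝ) * xi (fr n l) j)
      have hze : ∀ i j, |ze i j| ≤ kap ^ 2 := by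
        intro i j
        by_cases hi : (i : ℕ) < r
        · have h1 := hidR ⟨i, hi⟩ fun l => xi (fr n l) j
          rw [fr_of_lt hrn i hi] at h1
          simp only [ze]
          rw [h1, hy0 i hi, crd_zero, sub_self]
          simp
          positivity
        · have h1 := (hyc i (not_lt.mp hi)).2 j
          have h2 : ze i j = ((crd (y i) j : ℝ) -
              B * (xi i j - ∑ l, (h l i : ℝ) * xi (fr n l) j)) / B := by
            simp only [ze]
            field_simp
          rw [h2, abs_div, abs_of_pos hB', div_le_iff₀ hB']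
          exact h1
      let p0 : Fin r × IK K → ℝ := fun p => (crd (z (fr n p.1)) p.2 : ℝ) / B - xi (fr n p.1) p.2
      have hm := hmain A' ze hA' hze s p0 hspos hsle
      have hp : ∀ (k : Fin r × IK K → ℤ) (p : Fin r × IK K), p0 p + s * k p =
          (crd (X k (fr n p.1)) p.2 : ℝ) / B - xi (fr n p.1) p.2 := by
        intro k p
        rw [hXfr, crd_add, crd_natCast_mul, hκ, hsdef]
        simp only [p0]
        push_cast
        ring
      have hXp : ∀ (k : Fin r × IK K → ℤ) i j,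
          Xp xi ze h (fun p => p0 p + s * k p) i j = (crd (X k i) j : ℝ) / B := by
        intro k i j
        have h1 : (crd (X k i) j : ℝ) = (crd (y i) j : ℝ) +
            ∑ l, (h l i : ℝ) * (crd (X k (fr n l)) j : ℝ) := by
          have h2 : X k i = (∑ l, (h l i : 𝓞 K) * X k (fr n l)) + y i := by
            simp only [hXfr]
            rfl
          rw [h2, crd_add, crd_sum]
          simp only [crd_intCast_mul]
          push_cast
          ring
        rw [h1]
        simp only [Xp, hp, ze]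
        simp only [mul_sub, Finset.sum_sub_distrib]
        have h3 : ∀ l, (h l i : ℝ) * ((crd (X k (fr n l)) j : ℝ) / B) =
            ((h l i : ℝ) * (crd (X k (fr n l)) j : ℝ)) / B := fun l => by ring
        simp only [h3, ← Finset.sum_div]
        ring
      have hset : {x | x ∈ S ∧ g x = y} =
          X '' {k : Fin r × IK K → ℤ | (∀ p, |p0 p + s * k p| ≤ kap) ∧
            ∀ p, |Ph A' xi ze h (fun j => p0 j + s * k j) p| ≤ th} := by
        have hregJ : ∀ (k : Fin r × IK K → ℤ) (p : Fin r × IK K),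
            |(crd (X k (fr n p.1)) p.2 : ℝ) - B * xi (fr n p.1) p.2| ≤ kap * B ↔
            |p0 p + s * k p| ≤ kap := by
          intro k p
          have h1 : p0 p + s * k p =
              ((crd (X k (fr n p.1)) p.2 : ℝ) - B * xi (fr n p.1) p.2) / B := by
            rw [hp]
            field_simp
          rw [h1, abs_div, abs_of_pos hB', div_le_iff₀ hB']
        have hvl : ∀ (k : Fin r × IK K → ℤ) (p : Fin r × IK K),
            |(crd (F (A p.1) (X k)) p.2 : ℝ)| ≤ th * H * (B : ℝ) ^ e p.1 ↔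
            |Ph A' xi ze h (fun j => p0 j + s * k j) p| ≤ th := by
          intro k p
          have h1 := Ph_value A H hH B hBpos xi ze h (fun j => p0 j + s * k j) (X k) (hXp k) p
          have h2 : (0 : ℝ) < H * (B : ℝ) ^ e p.1 := by positivity
          show _ ↔ |Ph (fun i m j => (crd (A i m) j : ℝ) / H) xi ze h
            (fun j => p0 j + s * k j) p| ≤ th
          rw [h1, abs_div, abs_of_pos h2, div_le_iff₀ h2, ← mul_assoc]
        ext x
        rw [hS]
        constructor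
        · rintro ⟨⟨⟨h1, h3⟩, h2⟩, h4⟩
          choose c hc using fun l : Fin r => h2 (fr n l)
          have hx : X (fun p => crd (c p.1) p.2) = x := by
            have h5 : ∀ l, κ (fun j => crd (c l) j) = c l := fun l => crd_ext fun j => hκ _ j
            funext i
            have h6 := congrFun h4 i
            simp only [g] at h6
            simp only [X, h5]
            rw [← h6]
            have h7 : ∀ l, z (fr n l) + (M : 𝓞 K) * c l = x (fr n l) := by
              intro l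
              rw [← hc l]
              ring
            simp only [h7]
            ring
          refine ⟨fun p => crd (c p.1) p.2, ⟨fun p => ?_, fun p => ?_⟩, hx⟩
          · refine (hregJ (fun p => crd (c p.1) p.2) p).1 ?_
            rw [hx]
            exact h1.1 p.1 p.2
          · refine (hvl (fun p => crd (c p.1) p.2) p).1 ?_
            rw [hx]
            exact h3 p.1 p.2
        · rintro ⟨k, ⟨h1, h2⟩, rfl⟩
          refine ⟨⟨⟨⟨fun l j => (hregJ k (l, j)).2 (h1 (l, j)), fun i hi j => ?_⟩,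
            fun i j => (hvl k (i, j)).2 (h2 (i, j))⟩, fun i => ?_⟩, hgX k⟩
          · have h3 := (hyc i hi).2 j
            have h4 : (crd (X k i) j : ℝ) = (crd (y i) j : ℝ) +
                ∑ l, (h l i : ℝ) * (crd (X k (fr n l)) j : ℝ) := by
              have h2 : X k i = (∑ l, (h l i : 𝓞 K) * X k (fr n l)) + y i := by
                simp only [hXfr]
                rfl
              rw [h2, crd_add, crd_sum]
              simp only [crd_intCast_mul]
              push_cast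
              ring
            have h5 : ((crd (X k i) j : ℝ) - B * xi i j) -
                ∑ l, (h l i : ℝ) * ((crd (X k (fr n l)) j : ℝ) - B * xi (fr n l) j) =
                (crd (y i) j : ℝ) - B * (xi i j - ∑ l, (h l i : ℝ) * xi (fr n l) j) := by
              rw [h4]
              simp only [mul_sub, Finset.sum_sub_distrib, Finset.mul_sum]
              have h6 : ∀ l, (h l i : ℝ) * ((B : ℝ) * xi (fr n l) j) =
                (B : ℝ) * ((h l i : ℝ) * xi (fr n l) j) := fun l => by ring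
              simp only [h6]
              ring
            rw [h5]
            exact h3
          · by_cases hi : (i : ℕ) < r
            · have h3 := hXfr k ⟨i, hi⟩
              rw [fr_of_lt hrn i hi] at h3
              rw [h3]
              exact ⟨κ (fun j => k (⟨i, hi⟩, j)), by ring⟩
            · have h3 := (hyc i (not_lt.mp hi)).1
              rw [Ideal.mem_span_singleton] at h3
              have h4 : X k i - z i = (∑ l, (h l i : 𝓞 K) * ((M : 𝓞 K) *
                  κ (fun j => k (l, j)))) +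
                  (y i - (z i - ∑ l, (h l i : 𝓞 K) * z (fr n l))) := by
                simp only [X, mul_add, Finset.sum_add_distrib]
                ring
              rw [h4]
              exact dvd_add (Finset.dvd_sum fun l _ =>
                Dvd.dvd.mul_left (dvd_mul_right _ _) _) h3
      have hXinj : Function.Injective X := by
        intro k k' hkk
        funext p
        have h1 := congrFun hkk (fr n p.1)
        rw [hXfr, hXfr] at h1
        have h2 : κ (fun j => k (p.1, j)) = κ (fun j => k' (p.1, j)) :=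
          mul_left_cancel₀ hMK (add_left_cancel h1)
        have h3 := congrArg (fun a => crd a p.2) h2
        simp only [hκ] at h3
        exact h3
      rw [hset, Set.ncard_image_of_injective _ hXinj]
      have hhr : 0 < s ^ Fintype.card (Fin r × IK K) := by positivity
      constructor
      · rw [div_le_iff₀ hhr]
        exact hm.1
      · rw [le_div_iff₀ hhr]
        exact hm.2)
  obtain ⟨hlo, hup⟩ := hfib
  rw [← hS]
  set m := n + 1 - r with hmdef
  have hmle : m ≤ n + 1 := Nat.sub_le _ _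
  obtain ⟨hn1, hn2⟩ := rc_num n m hmle eps e0 heps he1 hedef
  have hcard : Fintype.card (Fin r × IK K) = r * mK K := by
    rw [Fintype.card_prod, Fintype.card_fin, card_IK]
  have hVol : Vol K n r vg kap th B / (((M : ℝ) ^ mK K)) ^ (n + 1) =
      V / s ^ Fintype.card (Fin r × IK K) * a ^ m := by
    have h1 : n + 1 = m + r := by omega
    rw [Vol, hV, hsdef, hadef, hcard, ← hmdef, h1]
    have h2 : ((M : ℝ) ^ mK K) ^ (m + r) = ((M : ℝ) ^ mK K) ^ m * (M : ℝ) ^ (r * mK K) := by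
      rw [pow_add, mul_comm r (mK K), pow_mul]
    have h3 : ((2 * kap ^ 2) ^ m * (2 * th) ^ r * (B : ℝ) ^ (m + r)) ^ mK K =
        ((2 * (kap ^ 2 * B)) ^ mK K) ^ m * ((2 * th) ^ (r * mK K) * (B : ℝ) ^ (r * mK K)) := by
      have h4 : (2 * kap ^ 2) ^ m * (2 * th) ^ r * (B : ℝ) ^ (m + r) =
          (2 * (kap ^ 2 * B)) ^ m * ((2 * th) ^ r * (B : ℝ) ^ r) := by
        rw [← mul_assoc 2 (kap ^ 2) (B : ℝ), mul_pow (2 * kap ^ 2) (B : ℝ) m, pow_add]
        ring
      rw [h4, mul_pow ((2 * (kap ^ 2 * (B : ℝ))) ^ m) ((2 * th) ^ r * (B : ℝ) ^ r) (mK K),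
        mul_pow ((2 * th) ^ r) ((B : ℝ) ^ r) (mK K), ← pow_mul (2 * (kap ^ 2 * (B : ℝ))) m (mK K),
        ← pow_mul (2 * (kap ^ 2 * (B : ℝ))) (mK K) m, ← pow_mul (2 * th) r (mK K),
        ← pow_mul (B : ℝ) r (mK K), mul_comm m (mK K)]
    rw [h2, h3, div_pow ((2 * (kap ^ 2 * (B : ℝ))) ^ mK K) ((M : ℝ) ^ mK K) m,
      div_pow (M : ℝ) (B : ℝ) (r * mK K)]
    have hx1 : ((M : ℝ) ^ mK K) ^ m ≠ 0 := by positivity
    have hx2 : (M : ℝ) ^ (r * mK K) ≠ 0 := by positivity
    have hx3 : (B : ℝ) ^ (r * mK K) ≠ 0 := by positivity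
    field_simp
  have hVh : 0 < V / s ^ Fintype.card (Fin r × IK K) := by positivity
  have haB : 0 < a ^ m := by positivity
  constructor
  · rw [mul_div_assoc, hVol]
    refine le_trans ?_ hlo
    calc (1 - eps) * (V / s ^ Fintype.card (Fin r × IK K) * a ^ m)
        ≤ ((1 - eps / 8) * (1 - e0) ^ m) * (V / s ^ Fintype.card (Fin r × IK K) * a ^ m) :=
          mul_le_mul_of_nonneg_right hn1 (by positivity)
      _ = (1 - eps / 8) * V / s ^ Fintype.card (Fin r × IK K) * ((1 - e0) * a) ^ m := by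
          rw [mul_pow (1 - e0)]
          ring
      _ ≤ _ := mul_le_mul_of_nonneg_left hYlo (by
          have : 0 < 1 - eps / 8 := by linarith only [he1, heps]
          (clear * - hVpos hspos this; positivity))
  · rw [mul_div_assoc, hVol]
    refine hup.trans ?_
    calc (1 + eps / 8) * V / s ^ Fintype.card (Fin r × IK K) * (Y.ncard : ℝ)
        ≤ (1 + eps / 8) * V / s ^ Fintype.card (Fin r × IK K) * ((1 + e0) * a) ^ m :=
          mul_le_mul_of_nonneg_left hYup (by positivity)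
      _ = ((1 + eps / 8) * (1 + e0) ^ m) * (V / s ^ Fintype.card (Fin r × IK K) * a ^ m) := by
          rw [mul_pow (1 + e0)]
          ring
      _ ≤ _ := mul_le_mul_of_nonneg_right hn2 (by positivity)

/-- NK-RC (RealCount.lean) -/
theorem real_count (K : Type) [Field K] [NumberField K] (n : ℕ) {r : ℕ} (e : Fin r → ℕ)
    (hr : 1 ≤ r) (hrn : r ≤ n) (he : ∀ i, 1 ≤ e i) (eps bet k0 : ℝ) (heps : 0 < eps)
    (he1 : eps ≤ 1 / 10) (hb0 : 0 < bet) (hb1 : bet ≤ 1) (hk0 : 0 < k0) (hk1 : k0 ≤ 1) :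
    ∃ kap : ℝ, 0 < kap ∧ kap ≤ kmax K n r k0 ∧ ∃ rho0 th1 : ℝ, 0 < rho0 ∧ rho0 ≤ 1 ∧ 0 < th1 ∧
      ∀ rho : ℝ, 0 < rho → rho ≤ rho0 →
      ∀ (Ainf : Sys n e (IK K → ℝ)) (xi : Fin (n + 1) → IK K → ℝ)
        (h : Fin r → Fin (n + 1) → ℤ),
      (∀ i t j, |Ainf i t j| ≤ 1) → (∀ i w, ‖lam (xi i) w‖ ≤ 1) →
      (∀ w, ∃ i, ‖lam (xi i) w‖ = 1) →
      (∀ l l' : Fin r, h l (fr n l') = if l = l' then 1 else 0) →
      (∀ l i, |h l i| ≤ hb n (mK K)) →
      (∀ w i, ‖F (sysC Ainf w i) (ptC xi w)‖ ≤ rho0) →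
      (∀ w, bet ≤ ‖(Dh (sysC Ainf w) (ptC xi w) h).det‖) →
      ∃ vg : ℝ, 0 < vg ∧ RC Ainf xi h kap rho th1 vg eps := by
  classical
  obtain ⟨del, hdel, hreg⟩ := region_points (Fin r × IK K) (eps / 8) (by positivity)
    (by linarith only [he1, heps])
  obtain ⟨kap1, hkap1, hkap1', C, hC, hloc⟩ := real_local K n e hr del bet hdel hb0
  have hcK : 0 < cK K := cK_pos
  have hkm : 0 < kmax K n r k0 := by
    unfold kmax
    positivity
  obtain ⟨kap, hkapdef⟩ : ∃ kap : ℝ, kap = min kap1 (kmax K n r k0) := ⟨_, rfl⟩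
  have hkap : 0 < kap := by rw [hkapdef]; positivity
  have hkle : kap ≤ kap1 := by rw [hkapdef]; exact min_le_left _ _
  obtain ⟨th1, hth1, hloc2⟩ := hloc kap hkap hkle
  have hkap1 : kap ≤ 1 := hkle.trans hkap1'
  refine ⟨kap, hkap, by rw [hkapdef]; exact min_le_right _ _, kap ^ 2, th1, by positivity,
    pow_le_one₀ hkap.le hkap1, hth1, ?_⟩
  intro rho hrho hrhole Ainf xi h hA hxi _ hid hhle hF hD
  obtain ⟨vg, hvgdef⟩ : ∃ vg : ℝ, vg = |(fl (Gm Ainf xi h)).det| := ⟨_, rfl⟩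
  have hvg : 0 < vg := by
    obtain ⟨Li, h1, -⟩ := hloc2 rho hrho.le hrhole Ainf Ainf xi (fun _ _ => 0) h hA
      (fun i t j => by rw [sub_self, abs_zero]; positivity) hxi hhle
      (fun i j => by rw [abs_zero]; positivity) hF hD
    have h2 : Li.det * (fl (Gm Ainf xi h)).det = 1 := by
      rw [← Matrix.det_mul, h1, Matrix.det_one]
    rw [hvgdef, abs_pos]
    exact right_ne_zero_of_mul (by rw [h2]; exact one_ne_zero)
  refine ⟨vg, hvg, ?_⟩
  intro th hth hthle b hb
  obtain ⟨h0, hh0, hreg'⟩ := hreg kap th C hkap hth hC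
  have hMb : ((Ideal.absNorm b : ℕ) : 𝓞 K) ∈ b := Ideal.absNorm_mem b
  have hM : 1 ≤ Ideal.absNorm b := absNorm_pos hb
  obtain ⟨B0, hB01, hB0⟩ := rc_int (by omega) eps kap rho th h0 vg heps he1 hkap hth hh0 hvg Ainf
    xi h hid (by
      intro A' ze hA' hze s p0 hs hsle
      obtain ⟨Li, g1, g2, g3, g4, g5⟩ := hloc2 rho hrho.le hrhole Ainf A' xi ze h hA hA' hxi hhle
        hze hF hD
      have hm := hreg' (Ph A' xi ze h) (fun t => fl (Gm A' (Xp xi ze h t) h))
        (fl (Gm Ainf xi h)) Li g1 (fun t => Ph_deriv A' xi ze h t) g2 g3 g4 (g5 th hthle) s p0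
        hs hsle
      rw [← hvgdef] at hm
      exact hm) (Ideal.absNorm b) hM
  refine ⟨B0, fun B hB H hH A hAn z => ?_⟩
  have hNb : (0 : ℝ) < Ideal.absNorm b := by exact_mod_cast absNorm_pos hb
  obtain ⟨g1, g2⟩ := class_bounds {x : Fin (n + 1) → 𝓞 K | x ∈ Reg xi h kap B ∧
      ∀ i, CIn (th * H * (B : ℝ) ^ e i) (F (A i) x)}
    ((Reg_finite (by omega) xi h kap B).subset fun x hx => hx.1) b hb (Ideal.absNorm b) hM hMb _ _
    (hB0 B hB H hH A hAn) z
  have hset : {x : Fin (n + 1) → 𝓞 K | x ∈ {x : Fin (n + 1) → 𝓞 K | x ∈ Reg xi h kap B ∧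
      ∀ i, CIn (th * H * (B : ℝ) ^ e i) (F (A i) x)} ∧ ∀ i, x i - z i ∈ b} =
      {x : Fin (n + 1) → 𝓞 K | x ∈ Reg xi h kap B ∧ (∀ i, x i - z i ∈ b) ∧
          ∀ i, CIn (th * H * (B : ℝ) ^ e i) (F (A i) x)} := by
    ext x
    constructor
    · rintro ⟨⟨h1, h2⟩, h3⟩
      exact ⟨h1, h3, h2⟩
    · rintro ⟨h1, h3, h2⟩
      exact ⟨⟨h1, h2⟩, h3⟩
  rw [hset] at g1 g2
  have hident : ∀ c : ℝ, c / (((Ideal.absNorm b : ℕ) : ℝ) ^ mK K) ^ (n + 1) *
      (((Ideal.absNorm b : ℕ) : ℝ) ^ mK K / (Ideal.absNorm b : ℝ)) ^ (n + 1) =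
      c / (Ideal.absNorm b : ℝ) ^ (n + 1) := by
    intro c
    rw [div_pow]
    field_simp
  rw [hident] at g1 g2
  exact ⟨g1, g2⟩

end NKHP
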