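import Pool.Agent.Lib.MP_e426f4_ag.N.CubeCount

/-! Module NK-AlgDep: points over the integers of a number field in the image of a lower
dimensional space are few. -/

namespace NKHP

open NumberField GenHP NFHP Finset Filter Topology

variable {K : Type} [Field K] [NumberField K]

/-- number of integers with all coordinates in `[-H, H]` -/
theorem card_boxO (H : ℕ) :
    Set.ncard {a : 𝓞 K | ∀ j, |(crd a j : ℝ)| ≤ H} = (2 * H + 1) ^ mK K := by
  classical
  have h1 := ncard_cube (K := K) (fun _ => 0) (H : ℝ)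
  simp only [sub_zero] at h1
  rw [h1]
  unfold cubeF
  rw [Fintype.card_piFinset]
  simp only [zero_sub, zero_add, Int.ceil_neg, Int.floor_natCast, Int.card_Icc, Finset.prod_const,
    Finset.card_univ, card_IK]
  congr 1
  omega

theorem boxO_finite (H : ℝ) : {a : 𝓞 K | ∀ j, |(crd a j : ℝ)| ≤ H}.Finite := by
  have h1 := cube_finite (K := K) (fun _ => 0) H
  simp only [sub_zero] at h1
  exact h1

private theorem ad_finite {I : Type} [Fintype I] (H : ℝ) :
    {A : I → 𝓞 K | ∀ i j, |(crd (A i) j : ℝ)| ≤ H}.Finite := by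
  have h1 := Set.Finite.pi' (fun _ : I => boxO_finite (K := K) H)
  exact h1

private theorem ad_zeros {I : Type} [Fintype I] [DecidableEq I] (P : MvPolynomial I (𝓞 K))
    (hP : P ≠ 0) (H : ℕ) :
    (Set.ncard {A : I → 𝓞 K | (∀ i j, |(crd (A i) j : ℝ)| ≤ H) ∧
      MvPolynomial.eval A P = 0} : ℝ) ≤
      (P.totalDegree / (2 * H + 1) ^ mK K) * ((2 * (H : ℝ) + 1) ^ mK K) ^ Fintype.card I := by
  classical
  obtain ⟨e⟩ : Nonempty (I ≃ Fin (Fintype.card I)) := ⟨Fintype.equivFin I⟩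
  obtain ⟨S, hS⟩ : ∃ S : Finset (𝓞 K), S = (boxO_finite (K := K) (H : ℝ)).toFinset := ⟨_, rfl⟩
  have hScard : S.card = (2 * H + 1) ^ mK K := by
    rw [hS, ← Set.ncard_eq_toFinset_card _ (boxO_finite (K := K) (H : ℝ)), card_boxO]
  obtain ⟨Q, hQ⟩ : ∃ Q : MvPolynomial (Fin (Fintype.card I)) (𝓞 K),
      Q = MvPolynomial.rename e P := ⟨_, rfl⟩
  have hQ0 : Q ≠ 0 := by
    rw [hQ]
    intro h
    exact hP (MvPolynomial.rename_injective e e.injective (by rw [h, map_zero]))
  have hdeg : Q.totalDegree ≤ P.totalDegree := by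
    rw [hQ]
    exact MvPolynomial.totalDegree_rename_le _ _
  have h1 := MvPolynomial.schwartz_zippel_totalDegree hQ0 S
  obtain ⟨N, hN⟩ : ∃ N : ℕ, N = #{f ∈ Fintype.piFinset fun _ => S | MvPolynomial.eval f Q = 0} :=
    ⟨_, rfl⟩
  rw [← hN, hScard] at h1
  have h2 : (N : ℝ) / (((2 * H + 1) ^ mK K : ℕ) : ℝ) ^ Fintype.card I ≤
      (Q.totalDegree : ℝ) / (((2 * H + 1) ^ mK K : ℕ) : ℝ) := by
    have h2 := (NNRat.cast_le (K := ℝ)).2 h1
    push_cast at h2 ⊢
    exact h2
  have h3 : Set.ncard {A : I → 𝓞 K | (∀ i j, |(crd (A i) j : ℝ)| ≤ H) ∧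
      MvPolynomial.eval A P = 0} ≤ N := by
    rw [hN, ← Set.ncard_coe_finset]
    refine Set.ncard_le_ncard_of_injOn (fun A => fun j => A (e.symm j)) ?_ ?_
      (Finset.finite_toSet _)
    · rintro A ⟨hA1, hA2⟩
      rw [Finset.mem_coe, Finset.mem_filter, Fintype.mem_piFinset]
      refine ⟨fun j => ?_, ?_⟩
      · rw [hS, Set.Finite.mem_toFinset]
        exact hA1 _
      · rw [hQ, MvPolynomial.eval_rename]
        have : (fun j => A (e.symm j)) ∘ e = A := by
          funext i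
          simp
        rw [this]
        exact hA2
    · intro A _ A' _ h
      funext i
      have := congrFun h (e i)
      simpa using this
  calc (Set.ncard {A : I → 𝓞 K | (∀ i j, |(crd (A i) j : ℝ)| ≤ H) ∧
        MvPolynomial.eval A P = 0} : ℝ) ≤ N := by
        exact_mod_cast h3
    _ ≤ ((Q.totalDegree : ℝ) / (((2 * H + 1) ^ mK K : ℕ) : ℝ)) *
        (((2 * H + 1) ^ mK K : ℕ) : ℝ) ^ Fintype.card I := by
        rwa [div_le_iff₀ (by positivity)] at h2
    _ ≤ (P.totalDegree / (2 * H + 1) ^ mK K) * ((2 * (H : ℝ) + 1) ^ mK K) ^ Fintype.card I := by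
        push_cast
        gcongr

/-- NK-AlgDep: points over `𝓞 K` in the image of a lower dimensional space are few -/
theorem few_in_imageK (L : Type) [Field L] [Algebra (𝓞 K) L]
    (hL : Function.Injective (algebraMap (𝓞 K) L))
    {I T : Type} [Fintype I] [DecidableEq I] [Fintype T] [DecidableEq T]
    (hc : Fintype.card T < Fintype.card I) (psi : I → MvPolynomial T ℤ) (eps : ℝ) (he : 0 < eps) :
    ∀ᶠ H : ℕ in atTop,
      (Set.ncard {A : I → 𝓞 K | (∀ i j, |(crd (A i) j : ℝ)| ≤ H) ∧ ∃ z : T → L, ∀ i,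
        MvPolynomial.aeval z (psi i) = algebraMap (𝓞 K) L (A i)} : ℝ) ≤
        eps * (2 * H + 1) ^ (mK K * Fintype.card I) := by
  classical
  have hdep : ¬ AlgebraicIndependent ℤ psi := by
    intro h
    have h1 := h.cardinalMk_le_trdeg
    rw [MvPolynomial.trdeg_of_isDomain, Cardinal.lift_id] at h1
    have h2 : Fintype.card I ≤ Fintype.card T := by simpa using h1
    omega
  rw [algebraicIndependent_iff] at hdep
  push Not at hdep
  obtain ⟨P, hP, hP0⟩ := hdep
  obtain ⟨P', hP'⟩ : ∃ P' : MvPolynomial I (𝓞 K), P' = MvPolynomial.map (Int.castRingHom (𝓞 K)) P :=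
    ⟨_, rfl⟩
  have hP0' : P' ≠ 0 := by
    rw [hP']
    intro h
    exact hP0 (MvPolynomial.map_injective _ (Int.cast_injective (α := 𝓞 K)) (by
      rw [h, map_zero]))
  filter_upwards [eventually_ge_atTop ⌈(P'.totalDegree : ℝ) / eps⌉₊] with H hH
  have hsub : {A : I → 𝓞 K | (∀ i j, |(crd (A i) j : ℝ)| ≤ H) ∧ ∃ z : T → L, ∀ i,
      MvPolynomial.aeval z (psi i) = algebraMap (𝓞 K) L (A i)} ⊆
      {A : I → 𝓞 K | (∀ i j, |(crd (A i) j : ℝ)| ≤ H) ∧ MvPolynomial.eval A P' = 0} := by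
    rintro A ⟨hA1, z, hz⟩
    refine ⟨hA1, ?_⟩
    have h1 : MvPolynomial.aeval (fun i => algebraMap (𝓞 K) L (A i)) P = 0 := by
      have h2 : (MvPolynomial.aeval (fun i => algebraMap (𝓞 K) L (A i)) :
          MvPolynomial I ℤ →ₐ[ℤ] L) = (MvPolynomial.aeval z).comp (MvPolynomial.aeval psi) := by
        refine MvPolynomial.algHom_ext fun i => ?_
        rw [AlgHom.comp_apply, MvPolynomial.aeval_X, MvPolynomial.aeval_X, hz]
      rw [h2, AlgHom.comp_apply, hP, map_zero]
    have h3 : algebraMap (𝓞 K) L (MvPolynomial.eval A P') = 0 := by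
      rw [← h1, hP']
      have h4 : ((algebraMap (𝓞 K) L).comp ((MvPolynomial.eval A).comp
          (MvPolynomial.map (Int.castRingHom (𝓞 K))))) =
          (MvPolynomial.aeval (fun i => algebraMap (𝓞 K) L (A i)) :
            MvPolynomial I ℤ →ₐ[ℤ] L).toRingHom := by
        refine MvPolynomial.ringHom_ext (fun c => ?_) fun i => ?_
        · simp
        · simp
      exact congrArg (fun f : MvPolynomial I ℤ →+* L => f P) h4
    exact hL (by rw [h3, map_zero])
  have hfin : {A : I → 𝓞 K | (∀ i j, |(crd (A i) j : ℝ)| ≤ H) ∧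
      MvPolynomial.eval A P' = 0}.Finite := (ad_finite (H : ℝ)).subset fun A hA => hA.1
  have h1 := Set.ncard_le_ncard hsub hfin
  have h2 := ad_zeros P' hP0' H
  have hm : 1 ≤ mK K := mK_pos
  have h3 : (P'.totalDegree : ℝ) / (2 * H + 1) ^ mK K ≤ eps := by
    rw [div_le_iff₀ (by positivity)]
    have h4 : (P'.totalDegree : ℝ) / eps ≤ H := (Nat.le_ceil _).trans (by exact_mod_cast hH)
    rw [div_le_iff₀ he] at h4
    have h5 : (2 * (H : ℝ) + 1) ≤ (2 * (H : ℝ) + 1) ^ mK K := by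
      refine le_self_pow₀ ?_ (by omega)
      have : (0 : ℝ) ≤ H := Nat.cast_nonneg _
      linarith
    have h6 : (H : ℝ) ≤ (2 * (H : ℝ) + 1) ^ mK K := by
      have : (0 : ℝ) ≤ H := Nat.cast_nonneg _
      linarith
    nlinarith
  calc (Set.ncard {A : I → 𝓞 K | (∀ i j, |(crd (A i) j : ℝ)| ≤ H) ∧ ∃ z : T → L, ∀ i,
        MvPolynomial.aeval z (psi i) = algebraMap (𝓞 K) L (A i)} : ℝ)
      ≤ (Set.ncard {A : I → 𝓞 K | (∀ i j, |(crd (A i) j : ℝ)| ≤ H) ∧
          MvPolynomial.eval A P' = 0} : ℝ) := by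
        exact_mod_cast h1
    _ ≤ (P'.totalDegree / (2 * H + 1) ^ mK K) * ((2 * (H : ℝ) + 1) ^ mK K) ^ Fintype.card I := h2
    _ ≤ eps * ((2 * (H : ℝ) + 1) ^ mK K) ^ Fintype.card I := by
        gcongr
    _ = eps * (2 * H + 1) ^ (mK K * Fintype.card I) := by
        rw [pow_mul]

end NKHP
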