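import Pool.Agent.Lib.MP_e426f4_ag.NK.Basic

/-!
NK-PadicCount. Templates: CI/PadicCount.lean, N/PadicCount.lean. M = W^s, m = M/Q. Let Xs = {x mod M admissible (Adm)} (coordinates in [0,M)): #Xs = nadm (M/Q)^(m_K (n+1)) (Adm depends only on x mod Q, since Q in P).
Z = {x in Xs, M | F(A i) x for all i} (x = x0 mod P and M | F(A i) x imply Adm, since Q | M and A = A0 mod Q). For c in (O/m)^r the translation x -> x + sum_s c_s g_s (g from Hens, g_s in P) is a bijection of Xs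
(hens with m = 1: the values are unchanged mod Q). For x in Xs exactly one c in (O/m)^r has x + sum c_s g_s in Z: the map c -> (F(A i)(x + sum c g)/Q mod m)_i is injective on (O/m)^r by hens (m' = m), hence bijective. Double counting: #Z (m^r)^{m_K} = #Xs.
-/

namespace NKHP

open NumberField GenHP NFHP Finset Filter Topology
open CIHP (Sys NS Jac nu Bf)

variable {K : Type} [Field K] [NumberField K] {n r : ℕ} {e : Fin r → ℕ}

private theorem card_quot (I : Ideal (𝓞 K)) : Nat.card (𝓞 K ⧸ I) = Ideal.absNorm I := by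
  rw [Ideal.absNorm_apply, Submodule.cardQuot_apply]

private theorem finite_quot {I : Ideal (𝓞 K)} (hI : I ≠ ⊥) : Finite (𝓞 K ⧸ I) := by
  refine Nat.finite_of_card_ne_zero ?_
  rw [card_quot]
  exact (absNorm_pos hI).ne'

private theorem absNorm_nat (M : ℕ) : Ideal.absNorm (Ideal.span {(M : 𝓞 K)}) = M ^ mK K := by
  rw [Ideal.absNorm_span_singleton]
  have h1 : (M : 𝓞 K) = algebraMap ℤ (𝓞 K) (M : ℤ) := by simp
  rw [h1, Algebra.norm_algebraMap, RingOfIntegers.rank, Int.natAbs_pow, Int.natAbs_natCast]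
  rfl

private theorem span_nat_ne_bot {M : ℕ} (hM : 0 < M) : Ideal.span {(M : 𝓞 K)} ≠ ⊥ := by
  rw [Ne, Ideal.span_singleton_eq_bot]
  exact_mod_cast hM.ne'

private theorem mk_eq_iff (M : ℕ) (a b : 𝓞 K) :
    Ideal.Quotient.mk (Ideal.span {(M : 𝓞 K)}) a = Ideal.Quotient.mk (Ideal.span {(M : 𝓞 K)}) b ↔
      (M : 𝓞 K) ∣ a - b := by
  rw [Ideal.Quotient.eq, Ideal.mem_span_singleton]

private theorem out_dvd (M : ℕ) (u : 𝓞 K ⧸ Ideal.span {(M : 𝓞 K)}) (a : 𝓞 K)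
    (h : Ideal.Quotient.mk (Ideal.span {(M : 𝓞 K)}) a = u) : (M : 𝓞 K) ∣ a - u.out := by
  rw [← mk_eq_iff, h, Ideal.Quotient.mk_out]

private theorem out_dvd' (M : ℕ) (u : 𝓞 K ⧸ Ideal.span {(M : 𝓞 K)}) (a : 𝓞 K)
    (h : Ideal.Quotient.mk (Ideal.span {(M : 𝓞 K)}) a = u) : (M : 𝓞 K) ∣ u.out - a := by
  rw [← mk_eq_iff, h, Ideal.Quotient.mk_out]

private theorem F_congr_nat {d : ℕ} (N : ℕ) (A A' : Idx n d → 𝓞 K) (x x' : Fin (n + 1) → 𝓞 K)
    (hA : ∀ m, (N : 𝓞 K) ∣ A m - A' m) (hx : ∀ i, (N : 𝓞 K) ∣ x i - x' i) :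
    (N : 𝓞 K) ∣ F A x - F A' x' := by
  rw [← mk_eq_iff]
  have h1 : (fun m => Ideal.Quotient.mk (Ideal.span {(N : 𝓞 K)}) (A m)) =
      fun m => Ideal.Quotient.mk (Ideal.span {(N : 𝓞 K)}) (A' m) :=
    funext fun m => (mk_eq_iff N _ _).mpr (hA m)
  have h2 : (fun i => Ideal.Quotient.mk (Ideal.span {(N : 𝓞 K)}) (x i)) =
      fun i => Ideal.Quotient.mk (Ideal.span {(N : 𝓞 K)}) (x' i) :=
    funext fun i => (mk_eq_iff N _ _).mpr (hx i)
  rw [← F_map (Ideal.Quotient.mk (Ideal.span {(N : 𝓞 K)})) A x,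
    ← F_map (Ideal.Quotient.mk (Ideal.span {(N : 𝓞 K)})) A' x', h1, h2]

/-- double counting: a periodic condition which holds exactly once on each cell of an admissible
point and never on the others -/
private theorem pcs_count {N r : ℕ} (M m : ℕ) (hM : 0 < M) (hm : 0 < m)
    (good adm : (Fin N → 𝓞 K) → Prop)
    (hper : ∀ v v' : Fin N → 𝓞 K, (∀ i, (M : 𝓞 K) ∣ v i - v' i) → good v → good v')
    (τ : (Fin r → 𝓞 K) → Fin N → 𝓞 K)
    (hone : ∀ v : Fin N → 𝓞 K, adm v →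
      ∃! c : Fin r → 𝓞 K ⧸ Ideal.span {(m : 𝓞 K)},
        good (fun i => v i + τ (fun s => (c s).out) i))
    (hnone : ∀ (v : Fin N → 𝓞 K) (c : Fin r → 𝓞 K), good (fun i => v i + τ c i) → adm v) :
    Set.ncard {u : Fin N → 𝓞 K ⧸ Ideal.span {(M : 𝓞 K)} | good (fun i => (u i).out)} *
        (m ^ r) ^ mK K =
      Set.ncard {u : Fin N → 𝓞 K ⧸ Ideal.span {(M : 𝓞 K)} | adm (fun i => (u i).out)} := by
  classical
  have hfM : Finite (𝓞 K ⧸ Ideal.span {(M : 𝓞 K)}) := finite_quot (span_nat_ne_bot hM)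
  have hfm : Finite (𝓞 K ⧸ Ideal.span {(m : 𝓞 K)}) := finite_quot (span_nat_ne_bot hm)
  have hcm : Nat.card (𝓞 K ⧸ Ideal.span {(m : 𝓞 K)}) = m ^ mK K := by
    rw [card_quot, absNorm_nat]
  have := Fintype.ofFinite (𝓞 K ⧸ Ideal.span {(M : 𝓞 K)})
  have := Fintype.ofFinite (𝓞 K ⧸ Ideal.span {(m : 𝓞 K)})
  have h1 : ∀ Pr : (Fin N → 𝓞 K) → Prop,
      Set.ncard {u : Fin N → 𝓞 K ⧸ Ideal.span {(M : 𝓞 K)} | Pr (fun i => (u i).out)} =
      (Finset.univ.filter fun u : Fin N → 𝓞 K ⧸ Ideal.span {(M : 𝓞 K)} =>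
        Pr (fun i => (u i).out)).card := by
    intro Pr
    rw [← Set.ncard_coe_finset]
    congr 1
    ext u
    simp
  rw [h1, h1]
  have h2 : ∀ c : Fin r → 𝓞 K ⧸ Ideal.span {(m : 𝓞 K)},
      (Finset.univ.filter fun u : Fin N → 𝓞 K ⧸ Ideal.span {(M : 𝓞 K)} =>
        good (fun i => (u i).out)).card =
      (Finset.univ.filter fun u : Fin N → 𝓞 K ⧸ Ideal.span {(M : 𝓞 K)} =>
        good (fun i => (u i).out + τ (fun s => (c s).out) i)).card := by
    intro c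
    symm
    refine Finset.card_bij (fun u _ => fun i => u i +
      Ideal.Quotient.mk (Ideal.span {(M : 𝓞 K)}) (τ (fun s => (c s).out) i)) ?_ ?_ ?_
    · intro u hu
      simp only [Finset.mem_filter, Finset.mem_univ, true_and] at hu ⊢
      refine hper _ _ (fun i => ?_) hu
      refine out_dvd M _ _ ?_
      rw [map_add, Ideal.Quotient.mk_out]
    · intro u _ u' _ huu
      funext i
      have := congrFun huu i
      exact add_right_cancel this
    · intro u hu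
      refine ⟨fun i => u i -
        Ideal.Quotient.mk (Ideal.span {(M : 𝓞 K)}) (τ (fun s => (c s).out) i), ?_, ?_⟩
      · simp only [Finset.mem_filter, Finset.mem_univ, true_and] at hu ⊢
        refine hper _ _ (fun i => ?_) hu
        refine out_dvd' M _ _ ?_
        rw [map_add, Ideal.Quotient.mk_out]
        ring
      · funext i
        ring
  have h3 : ∑ c : Fin r → 𝓞 K ⧸ Ideal.span {(m : 𝓞 K)},
      (Finset.univ.filter fun u : Fin N → 𝓞 K ⧸ Ideal.span {(M : 𝓞 K)} =>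
        good (fun i => (u i).out + τ (fun s => (c s).out) i)).card =
      (Finset.univ.filter fun u : Fin N → 𝓞 K ⧸ Ideal.span {(M : 𝓞 K)} =>
        adm (fun i => (u i).out)).card := by
    simp only [Finset.card_filter]
    rw [Finset.sum_comm]
    refine Finset.sum_congr rfl fun u _ => ?_
    by_cases hadm : adm (fun i => (u i).out)
    · rw [if_pos hadm]
      obtain ⟨c, hc, hc2⟩ := hone (fun i => (u i).out) hadm
      rw [Finset.sum_eq_single c]
      · rw [if_pos hc]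
      · intro c' _ hne
        rw [if_neg]
        intro hg
        exact hne (hc2 c' hg)
      · intro hcn
        exact absurd (Finset.mem_univ c) hcn
    · rw [if_neg hadm]
      refine Finset.sum_eq_zero fun c _ => ?_
      rw [if_neg]
      intro hg
      exact hadm (hnone _ _ hg)
  rw [← h3, ← Finset.sum_congr rfl fun c _ => h2 c]
  rw [Finset.sum_const, smul_eq_mul, Finset.card_univ, Fintype.card_fun,
    ← Nat.card_eq_fintype_card, hcm, Fintype.card_fin, mul_comm, ← pow_mul, ← pow_mul,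
    mul_comm r]

/-- integral vectors in a box and vectors over the quotient ring -/
private theorem pcs_box {N : ℕ} (M : ℕ) (hM : 0 < M) (Pr : (Fin N → 𝓞 K) → Prop)
    (hper : ∀ v v' : Fin N → 𝓞 K, (∀ i, (M : 𝓞 K) ∣ v i - v' i) → Pr v → Pr v') :
    Set.ncard {z : Fin N → 𝓞 K | (∀ i j, 0 ≤ crd (z i) j ∧ crd (z i) j < (M : ℤ)) ∧ Pr z} =
      Set.ncard {u : Fin N → 𝓞 K ⧸ Ideal.span {(M : 𝓞 K)} | Pr (fun i => (u i).out)} := by
  refine Set.ncard_congr (fun z _ => fun i =>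
    Ideal.Quotient.mk (Ideal.span {(M : 𝓞 K)}) (z i)) ?_ ?_ ?_
  · rintro z ⟨-, hz⟩
    exact hper _ _ (fun i => out_dvd M _ _ rfl) hz
  · rintro z z' ⟨hr1, -⟩ ⟨hr1', -⟩ hrr
    funext i
    have h1 := (mk_eq_iff M _ _).mp (congrFun hrr i)
    have h2 := (natCast_dvd_iff M _).mp h1
    refine crd_ext fun j => ?_
    have h3 := h2 j
    rw [crd_sub] at h3
    have h5 : crd (z i) j % (M : ℤ) = crd (z' i) j % (M : ℤ) :=
      Int.emod_eq_emod_iff_emod_sub_eq_zero.mpr (Int.emod_eq_zero_of_dvd h3)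
    rwa [Int.emod_eq_of_lt (hr1 i j).1 (hr1 i j).2,
      Int.emod_eq_of_lt (hr1' i j).1 (hr1' i j).2] at h5
  · intro u hu
    choose z hz using fun i => exists_crd (K := K) fun j => crd ((u i).out) j % (M : ℤ)
    have hzv : ∀ i, (M : 𝓞 K) ∣ z i - (u i).out := by
      intro i
      rw [natCast_dvd_iff]
      intro j
      rw [crd_sub, hz]
      exact ((Int.mod_modEq _ _).symm).dvd
    have hmk : ∀ i, Ideal.Quotient.mk (Ideal.span {(M : 𝓞 K)}) (z i) = u i := fun i => by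
      conv_rhs => rw [← Ideal.Quotient.mk_out (u i)]
      rw [mk_eq_iff]
      exact hzv i
    have hM1 : (0 : ℤ) < (M : ℤ) := by exact_mod_cast hM
    refine ⟨z, ⟨fun i j => ?_, ?_⟩, funext hmk⟩
    · rw [hz]
      exact ⟨Int.emod_nonneg _ hM1.ne', Int.emod_lt_of_pos _ hM1⟩
    · exact hper _ _ (fun i => out_dvd' M _ _ (hmk i)) hu

/-- counting a `Q`-periodic condition in the box of side `Q * m` -/
private theorem pcs_periodic {N : ℕ} (Q m : ℕ) (hQ : 0 < Q) (hm : 0 < m)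
    (Pr : (Fin N → 𝓞 K) → Prop)
    (hper : ∀ v v' : Fin N → 𝓞 K, (∀ i, (Q : 𝓞 K) ∣ v i - v' i) → Pr v → Pr v') :
    Set.ncard {z : Fin N → 𝓞 K | (∀ i j, 0 ≤ crd (z i) j ∧ crd (z i) j < ((Q * m : ℕ) : ℤ)) ∧
        Pr z} =
      Set.ncard {z : Fin N → 𝓞 K | (∀ i j, 0 ≤ crd (z i) j ∧ crd (z i) j < (Q : ℤ)) ∧ Pr z} *
        (m ^ N) ^ mK K := by
  classical
  have hQ' : (0 : ℤ) < Q := by exact_mod_cast hQ
  have h1 : Set.ncard {b : Fin N → 𝓞 K | (∀ i j, 0 ≤ crd (b i) j ∧ crd (b i) j < (m : ℤ)) ∧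
      True} = (m ^ N) ^ mK K := by
    rw [pcs_box m hm (fun _ => True) (fun _ _ _ h => h)]
    have hfm : Finite (𝓞 K ⧸ Ideal.span {(m : 𝓞 K)}) := finite_quot (span_nat_ne_bot hm)
    have := Fintype.ofFinite (𝓞 K ⧸ Ideal.span {(m : 𝓞 K)})
    rw [Set.setOf_true, Set.ncard_univ, Nat.card_eq_fintype_card, Fintype.card_fun,
      ← Nat.card_eq_fintype_card, card_quot, absNorm_nat, Fintype.card_fin, ← pow_mul, ← pow_mul,
      mul_comm N]
  rw [← h1, ← Set.ncard_prod]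
  have hcrd : ∀ (a b : 𝓞 K) j, crd (a + (Q : 𝓞 K) * b) j = crd a j + Q * crd b j := by
    intro a b j
    rw [crd_add]
    congr 1
    exact crd_natCast_mul Q b j
  symm
  refine Set.ncard_congr (fun ab _ => fun i => ab.1 i + (Q : 𝓞 K) * ab.2 i) ?_ ?_ ?_
  · rintro ⟨a, b⟩ ⟨⟨ha1, ha2⟩, hb, -⟩
    refine ⟨fun i j => ?_, ?_⟩
    · have h3 := ha1 i j
      have h4 := hb i j
      simp only at h3 h4 ⊢
      rw [hcrd]
      refine ⟨?_, ?_⟩
      · have := h3.1
        have := h4.1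
        positivity
      · push_cast
        have h5 : crd (b i) j + 1 ≤ m := h4.2
        nlinarith [h3.2]
    · refine hper a _ (fun i => ?_) ha2
      refine ⟨-b i, ?_⟩
      ring
  · rintro ⟨a, b⟩ ⟨a', b'⟩ ⟨⟨ha1, _⟩, hb⟩ ⟨⟨ha1', _⟩, hb'⟩ hab
    simp only at hab
    have h3 : ∀ i j, crd (a i) j = crd (a' i) j ∧ crd (b i) j = crd (b' i) j := by
      intro i j
      have h4 : crd (a i + (Q : 𝓞 K) * b i) j = crd (a' i + (Q : 𝓞 K) * b' i) j := by
        rw [congrFun hab i]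
      rw [hcrd, hcrd] at h4
      have h5 : (crd (a i) j + Q * crd (b i) j) % Q = (crd (a' i) j + Q * crd (b' i) j) % Q := by
        rw [h4]
      have ha1 : ∀ i j, 0 ≤ crd (a i) j ∧ crd (a i) j < (Q : ℤ) := ha1
      have ha1' : ∀ i j, 0 ≤ crd (a' i) j ∧ crd (a' i) j < (Q : ℤ) := ha1'
      rw [Int.add_mul_emod_self_left, Int.add_mul_emod_self_left,
        Int.emod_eq_of_lt (ha1 i j).1 (ha1 i j).2,
        Int.emod_eq_of_lt (ha1' i j).1 (ha1' i j).2] at h5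
      refine ⟨h5, ?_⟩
      rw [h5] at h4
      exact mul_left_cancel₀ hQ'.ne' (add_left_cancel h4)
    exact Prod.ext (funext fun i => crd_ext fun j => (h3 i j).1)
      (funext fun i => crd_ext fun j => (h3 i j).2)
  · rintro z ⟨hz1, hz2⟩
    choose a ha using fun i => exists_crd (K := K) fun j => crd (z i) j % (Q : ℤ)
    choose b hb using fun i => exists_crd (K := K) fun j => crd (z i) j / (Q : ℤ)
    have hzab : ∀ i, a i + (Q : 𝓞 K) * b i = z i := by
      intro i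
      refine crd_ext fun j => ?_
      rw [hcrd, ha, hb]
      exact Int.emod_add_mul_ediv _ _
    refine ⟨(a, b), ⟨⟨fun i j => ?_, ?_⟩, fun i j => ?_, trivial⟩, funext hzab⟩
    · show 0 ≤ crd (a i) j ∧ crd (a i) j < (Q : ℤ)
      rw [ha]
      exact ⟨Int.emod_nonneg _ hQ'.ne', Int.emod_lt_of_pos _ hQ'⟩
    · refine hper z _ (fun i => ?_) hz2
      exact ⟨b i, by rw [← hzab i]; ring⟩
    · show 0 ≤ crd (b i) j ∧ crd (b i) j < (m : ℤ)
      rw [hb]
      refine ⟨Int.ediv_nonneg (hz1 i j).1 hQ'.le, ?_⟩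
      rw [Int.ediv_lt_iff_lt_mul hQ']
      have := (hz1 i j).2
      push_cast at this
      rw [mul_comm]
      exact this

theorem padic_count (P : Ideal (𝓞 K)) (hP : P ≠ ⊥) (Q W : ℕ) (hW : 0 < W)
    (A0 : Sys n e (𝓞 K)) (x0 : Fin (n + 1) → 𝓞 K) (hH : Hens P Q W A0 x0) (s : ℕ)
    (hQ : Q ∣ W ^ s) (A : Sys n e (𝓞 K)) (hA : ∀ i t, (Q : 𝓞 K) ∣ A i t - A0 i t) :
    Set.ncard {z : Fin (n + 1) → 𝓞 K | (∀ i j, 0 ≤ crd (z i) j ∧ crd (z i) j < (W : ℤ) ^ s) ∧
      (∀ i, z i - x0 i ∈ P) ∧ ∀ i, (W : 𝓞 K) ^ s ∣ F (A i) z} * ((W ^ s / Q) ^ r) ^ mK K =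
      nadm P Q A0 x0 * ((W ^ s / Q) ^ (n + 1)) ^ mK K := by
  classical
  obtain ⟨hQP, -, -, -, g, hgP, hspeed⟩ := hH
  have hM : 0 < W ^ s := pow_pos hW s
  have hMc : ((W : 𝓞 K) ^ s) = ((W ^ s : ℕ) : 𝓞 K) := by push_cast; rfl
  have hMz : ((W : ℤ) ^ s) = ((W ^ s : ℕ) : ℤ) := by push_cast; rfl
  rw [hMc, hMz]
  have hdivM : ∀ m : ℕ, m ∣ W ^ s → ∃ s, m ∣ W ^ s := fun m hm => ⟨s, hm⟩
  generalize W ^ s = M at hQ hM hdivM ⊢
  obtain ⟨m, hm⟩ := hQ
  have hQ0 : 0 < Q := Nat.pos_of_ne_zero (by rintro rfl; simp at hm; omega)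
  have hm0 : 0 < m := Nat.pos_of_ne_zero (by rintro rfl; simp at hm; omega)
  have hMQ : M / Q = m := by rw [hm]; exact Nat.mul_div_cancel_left m hQ0
  rw [hMQ]
  have hQ1 : (Q : 𝓞 K) ≠ 0 := by exact_mod_cast hQ0.ne'
  have hQM : (Q : 𝓞 K) ∣ (M : 𝓞 K) := ⟨m, by rw [hm]; push_cast; ring⟩
  have hPdvd : ∀ a : 𝓞 K, (Q : 𝓞 K) ∣ a → a ∈ P := by
    rintro a ⟨b, rfl⟩
    exact P.mul_mem_right _ hQP
  -- periodicity of admissibility
  have hadm_per : ∀ v v' : Fin (n + 1) → 𝓞 K, (∀ i, (Q : 𝓞 K) ∣ v i - v' i) →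
      Adm P Q A0 x0 v → Adm P Q A0 x0 v' := by
    intro v v' hv hadm
    refine ⟨fun i => ?_, fun i => ?_⟩
    · have h1 := P.sub_mem (hadm.1 i) (hPdvd _ (hv i))
      have h2 : v i - x0 i - (v i - v' i) = v' i - x0 i := by ring
      rwa [h2] at h1
    · have h1 := F_congr_nat Q (A0 i) (A0 i) v v' (fun m => by simp) hv
      have h2 := dvd_sub (hadm.2 i) h1
      simpa using h2
  -- `A` and `A0` have the same values modulo `Q`
  have hAA0 : ∀ (i : Fin r) (v : Fin (n + 1) → 𝓞 K),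
      (Q : 𝓞 K) ∣ F (A i) v ↔ (Q : 𝓞 K) ∣ F (A0 i) v := by
    intro i v
    have h1 := F_congr_nat Q (A i) (A0 i) v v (hA i) (fun m => by simp)
    constructor
    · intro h2
      have h3 := dvd_sub h2 h1
      simpa using h3
    · intro h2
      have h3 := dvd_add h1 h2
      simpa using h3
  -- the translations
  set τ : (Fin r → 𝓞 K) → Fin (n + 1) → 𝓞 K := fun c j => ∑ t, c t * g t j with hτ
  have hτP : ∀ c j, τ c j ∈ P := fun c j => P.sum_mem fun t _ => P.mul_mem_left _ (hgP t j)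
  have hτval : ∀ (x : Fin (n + 1) → 𝓞 K), Adm P Q A0 x0 x → ∀ (c : Fin r → 𝓞 K) (i : Fin r),
      (Q : 𝓞 K) ∣ F (A i) (fun j => x j + τ c j) := by
    intro x hx c i
    have h1 := (hspeed A hA x hx c (fun _ => 0) 1 ⟨0, one_dvd _⟩).mpr (fun s => by simp) i
    have h2 : (fun j => x j + ∑ t : Fin r, (0 : 𝓞 K) * g t j) = x := by
      funext j; simp
    rw [h2] at h1
    have h3 : (Q : 𝓞 K) ∣ F (A i) x := (hAA0 i x).mpr (hx.2 i)
    have h4 : ((Q * 1 : ℕ) : 𝓞 K) = (Q : 𝓞 K) := by simp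
    rw [h4] at h1
    have h5 := dvd_add h1 h3
    simpa using h5
  have hτadm : ∀ (x : Fin (n + 1) → 𝓞 K), Adm P Q A0 x0 x → ∀ (c : Fin r → 𝓞 K),
      Adm P Q A0 x0 (fun j => x j + τ c j) := by
    intro x hx c
    refine ⟨fun i => ?_, fun i => (hAA0 i _).mp (hτval x hx c i)⟩
    have h1 : x i + τ c i - x0 i = (x i - x0 i) + τ c i := by ring
    rw [h1]
    exact P.add_mem (hx.1 i) (hτP c i)
  set good : (Fin (n + 1) → 𝓞 K) → Prop := fun v =>
    (∀ i, v i - x0 i ∈ P) ∧ ∀ i, (M : 𝓞 K) ∣ F (A i) v with hgood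
  have hgood_adm : ∀ v, good v → Adm P Q A0 x0 v := fun v hv =>
    ⟨hv.1, fun i => (hAA0 i v).mp (hQM.trans (hv.2 i))⟩
  have hper : ∀ v v' : Fin (n + 1) → 𝓞 K, (∀ i, (M : 𝓞 K) ∣ v i - v' i) → good v → good v' := by
    intro v v' hv hg
    refine ⟨fun i => ?_, fun i => ?_⟩
    · have h1 := P.sub_mem (hg.1 i) (hPdvd _ (hQM.trans (hv i)))
      have h2 : v i - x0 i - (v i - v' i) = v' i - x0 i := by ring
      rwa [h2] at h1
    · have h1 := F_congr_nat M (A i) (A i) v v' (fun m => by simp) hv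
      have h2 := dvd_sub (hg.2 i) h1
      simpa using h2
  have hnone : ∀ (v : Fin (n + 1) → 𝓞 K) (c : Fin r → 𝓞 K), good (fun i => v i + τ c i) →
      Adm P Q A0 x0 v := by
    intro v c hg
    have h1 := hτadm _ (hgood_adm _ hg) (fun t => -c t)
    have h2 : (fun j => (v j + τ c j) + τ (fun t => -c t) j) = v := by
      funext j
      rw [hτ]
      simp
    rwa [h2] at h1
  have hone : ∀ v : Fin (n + 1) → 𝓞 K, Adm P Q A0 x0 v →
      ∃! c : Fin r → 𝓞 K ⧸ Ideal.span {(m : 𝓞 K)},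
        good (fun i => v i + τ (fun s => (c s).out) i) := by
    intro v hv
    have hdv : ∀ (c : Fin r → 𝓞 K ⧸ Ideal.span {(m : 𝓞 K)}) (i : Fin r),
        (Q : 𝓞 K) ∣ F (A i) (fun j => v j + τ (fun t => (c t).out) j) := fun c i =>
      hτval v hv _ i
    choose G hG using hdv
    have key : ∀ c c' : Fin r → 𝓞 K ⧸ Ideal.span {(m : 𝓞 K)},
        (∀ i, (m : 𝓞 K) ∣ G c i - G c' i) → c = c' := by
      intro c c' hcc
      have h1 := (hspeed A hA v hv (fun t => (c t).out) (fun t => (c' t).out) m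
        (hdivM m ⟨Q, by rw [hm]; ring⟩)).mp (fun i => by
          have h2 := hG c i
          have h3 := hG c' i
          simp only [hτ] at h2 h3
          rw [h2, h3, ← mul_sub]
          push_cast
          exact mul_dvd_mul_left _ (hcc i))
      funext t
      have h6 := (mk_eq_iff m _ _).mpr (h1 t)
      rw [Ideal.Quotient.mk_out, Ideal.Quotient.mk_out] at h6
      exact h6
    have hinj : Function.Injective
        (fun (c : Fin r → 𝓞 K ⧸ Ideal.span {(m : 𝓞 K)}) (i : Fin r) =>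
          Ideal.Quotient.mk (Ideal.span {(m : 𝓞 K)}) (G c i)) := by
      intro c c' hcc
      refine key c c' fun i => ?_
      exact (mk_eq_iff m _ _).mp (congrFun hcc i)
    have hfm : Finite (𝓞 K ⧸ Ideal.span {(m : 𝓞 K)}) := finite_quot (span_nat_ne_bot hm0)
    have hsurj := Finite.surjective_of_injective hinj
    have hiff : ∀ c : Fin r → 𝓞 K ⧸ Ideal.span {(m : 𝓞 K)},
        good (fun i => v i + τ (fun s => (c s).out) i) ↔ ∀ i, (m : 𝓞 K) ∣ G c i := by
      intro c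
      constructor
      · intro hg i
        have h1 := hg.2 i
        rw [hG c i, hm] at h1
        push_cast at h1
        exact (mul_dvd_mul_iff_left hQ1).mp h1
      · intro hg
        refine ⟨(hτadm v hv _).1, fun i => ?_⟩
        rw [hG c i, hm]
        push_cast
        exact (mul_dvd_mul_iff_left hQ1).mpr (hg i)
    obtain ⟨c, hc⟩ := hsurj (fun _ => 0)
    have hc1 : ∀ i, (m : 𝓞 K) ∣ G c i := fun i => by
      have h7 := congrFun hc i
      rw [← map_zero (Ideal.Quotient.mk (Ideal.span {(m : 𝓞 K)}))] at h7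
      simpa using (mk_eq_iff m _ _).mp h7
    refine ⟨c, (hiff c).mpr hc1, fun c' hc' => ?_⟩
    exact key c' c fun i => dvd_sub ((hiff c').mp hc' i) (hc1 i)
  have hcount := pcs_count M m hM hm0 good (Adm P Q A0 x0) hper τ hone hnone
  have h1 := pcs_box M hM good hper
  have hadm_perM : ∀ v v' : Fin (n + 1) → 𝓞 K, (∀ i, (M : 𝓞 K) ∣ v i - v' i) →
      Adm P Q A0 x0 v → Adm P Q A0 x0 v' := fun v v' hv =>
    hadm_per v v' fun i => hQM.trans (hv i)
  have h2 := pcs_box M hM (Adm P Q A0 x0) hadm_perM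
  have h3 := pcs_periodic Q m hQ0 hm0 (Adm P Q A0 x0) hadm_per
  rw [h1, hcount, ← h2, hm, h3]
  rfl

end NKHP
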