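import Pool.Agent.Lib.MP_e426f4_ag.NK.Basic
import Pool.Agent.Lib.MP_e426f4_ag.N.Minors

/-!
NK-Points: facts on the points of a class. Template: N/Points.lean (r = 1), CI/ClassPts.lean.
For x in XX: for every i, |crd (x i) j - B xi i j| <= (kap^2 + r hb kap) B <= kap (r hb + 1) B (free coordinates i = fr n l: <= kap B; i >= r: kap^2 B + sum_l |h l i| kap B;
every i < r is fr n <i>, since r <= n), so |sg w (x i) - B lam xi_i|_w <= cK kap (r hb + 1) B <= k0 B/(10 (r hb + 1)(n+1)) <= B/10 by kap_le (kmax). u_large: the sum over i of |u_i| <= hb times that is <= k0 B/10.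
mgI_ne_bot_of_mem_GG: as in N/Points (if mgI = bot then y = a x, a is close to 1 at all places, so |a - 1|_w < 1 for all w, a = 1).
-/

namespace NKHP

open NumberField GenHP NFHP Finset Filter Topology
open CIHP (Sys NS Jac nu Bf)

variable {K : Type} [Field K] [NumberField K] {n r : ℕ} {e : Fin r → ℕ}

private theorem pt_near (p : Par K n e) {eps k0 : ℝ} {w : ℕ} (hp : p.Valid eps k0 w)
    (B : ℕ) (x : Fin (n + 1) → 𝓞 K) (hx : x ∈ p.XX B) (i : Fin (n + 1)) (w' : InfinitePlace K) :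
    ‖sg w' (x i) - B * lam (p.xi i) w'‖ *
      (10 * ((r : ℝ) * (hb n (mK K) : ℝ) + 1) * ((n : ℝ) + 1)) ≤ k0 * B := by
  have hB : (0 : ℝ) ≤ B := by positivity
  have hc := cK_pos (K := K)
  have hrn : r ≤ n + 1 := by have := hp.n_ge; omega
  obtain ⟨M, hM⟩ : ∃ M : ℝ, M = (r : ℝ) * (hb n (mK K) : ℝ) := ⟨_, rfl⟩
  have hM0 : 0 ≤ M := by rw [hM]; positivity
  have hkap : p.kap * (10 * cK K * (M + 1) ^ 2 * ((n : ℝ) + 1)) ≤ k0 := by
    have h1 := hp.kap_le
    unfold kmax at h1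
    rw [← hM, le_div_iff₀ (by positivity)] at h1
    exact h1
  have hkap1 : p.kap ≤ 1 := by
    have h1 := one_le_cK (K := K)
    have h2 : 1 ≤ 10 * cK K * (M + 1) ^ 2 * ((n : ℝ) + 1) := by
      have h3 : 1 ≤ (M + 1) ^ 2 := by nlinarith
      have h4 : (1 : ℝ) ≤ (n : ℝ) + 1 := by
        have : (0 : ℝ) ≤ n := by positivity
        linarith
      have h5 : 1 ≤ 10 * cK K := by linarith
      exact one_le_mul_of_one_le_of_one_le (one_le_mul_of_one_le_of_one_le h5 h3) h4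
    have h3 := hp.kap_pos
    have h4 := hp.k0_le
    nlinarith
  have hkap0 := hp.kap_pos
  have h2 : ∀ j, |(crd (x i) j : ℝ) - B * p.xi i j| ≤ (M + 1) * p.kap * B := by
    intro j
    by_cases hi : (i : ℕ) < r
    · have h0 := hx.1.1 ⟨i, hi⟩ j
      rw [fr_of_lt hrn i hi] at h0
      have h3 : 0 ≤ M * p.kap * B := by positivity
      nlinarith
    · have h3 := hx.1.2 i (not_lt.mp hi) j
      have h4 : |(crd (x i) j : ℝ) - B * p.xi i j| ≤
          |((crd (x i) j : ℝ) - B * p.xi i j) -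
            ∑ l, (p.h l i : ℝ) * ((crd (x (fr n l)) j : ℝ) - B * p.xi (fr n l) j)| +
          |∑ l, (p.h l i : ℝ) * ((crd (x (fr n l)) j : ℝ) - B * p.xi (fr n l) j)| := by
        have := abs_add_le (((crd (x i) j : ℝ) - B * p.xi i j) -
          ∑ l, (p.h l i : ℝ) * ((crd (x (fr n l)) j : ℝ) - B * p.xi (fr n l) j))
          (∑ l, (p.h l i : ℝ) * ((crd (x (fr n l)) j : ℝ) - B * p.xi (fr n l) j))
        rwa [sub_add_cancel] at this
      have h5 : |∑ l, (p.h l i : ℝ) * ((crd (x (fr n l)) j : ℝ) - B * p.xi (fr n l) j)| ≤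
          M * (p.kap * B) := by
        refine (Finset.abs_sum_le_sum_abs _ _).trans ?_
        have h6 : ∀ l ∈ (univ : Finset (Fin r)),
            |(p.h l i : ℝ) * ((crd (x (fr n l)) j : ℝ) - B * p.xi (fr n l) j)| ≤
              (hb n (mK K) : ℝ) * (p.kap * B) := by
          intro l _
          rw [abs_mul]
          refine mul_le_mul ?_ (hx.1.1 l j) (abs_nonneg _) (by positivity)
          have := hp.h_le l i
          rw [← Int.cast_abs]
          exact_mod_cast this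
        refine (Finset.sum_le_card_nsmul _ _ _ h6).trans (le_of_eq ?_)
        rw [Finset.card_univ, Fintype.card_fin, nsmul_eq_mul, hM]
        ring
      have h7 : p.kap ^ 2 * B ≤ p.kap * B := by
        refine mul_le_mul_of_nonneg_right ?_ hB
        nlinarith
      nlinarith
  have h3 : ‖sg w' (x i) - B * lam (p.xi i) w'‖ ≤ cK K * ((M + 1) * p.kap * B) := by
    have h4 := norm_lam_le (fun j => (crd (x i) j : ℝ) - B * p.xi i j) _ h2 w'
    rw [lam_sub (fun j => (crd (x i) j : ℝ)) (fun j => (B : ℝ) * p.xi i j) w', lam_crd,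
      lam_smul] at h4
    simpa using h4
  rw [← hM]
  calc ‖sg w' (x i) - B * lam (p.xi i) w'‖ * (10 * (M + 1) * ((n : ℝ) + 1))
      ≤ cK K * ((M + 1) * p.kap * B) * (10 * (M + 1) * ((n : ℝ) + 1)) :=
        mul_le_mul_of_nonneg_right h3 (by positivity)
    _ = p.kap * (10 * cK K * (M + 1) ^ 2 * ((n : ℝ) + 1)) * B := by ring
    _ ≤ k0 * B := mul_le_mul_of_nonneg_right hkap hB

theorem mem_XX_near (p : Par K n e) {eps k0 : ℝ} {w : ℕ} (hp : p.Valid eps k0 w)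
    (B : ℕ) (x : Fin (n + 1) → 𝓞 K) (hx : x ∈ p.XX B) (i : Fin (n + 1)) (w' : InfinitePlace K) :
    ‖sg w' (x i) - B * lam (p.xi i) w'‖ ≤ B / 10 := by
  have h1 := pt_near p hp B x hx i w'
  have h2 := hp.k0_le
  have hB : (0 : ℝ) ≤ B := by positivity
  have h3 : (1 : ℝ) ≤ ((r : ℝ) * (hb n (mK K) : ℝ) + 1) * ((n : ℝ) + 1) := by
    have h4 : (0 : ℝ) ≤ (r : ℝ) * (hb n (mK K) : ℝ) := by positivity
    have h5 : (0 : ℝ) ≤ n := by positivity
    nlinarith
  have h4 := norm_nonneg (sg w' (x i) - B * lam (p.xi i) w')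
  nlinarith

theorem mem_XX_bounds (p : Par K n e) {eps k0 : ℝ} {w : ℕ} (hp : p.Valid eps k0 w)
    (B : ℕ) : (∀ x ∈ p.XX B, x ∈ Bx n (2 * (B : ℝ))) ∧
      ∀ w', ∃ i, ∀ x ∈ p.XX B, (B : ℝ) / 2 ≤ ‖sg w' (x i)‖ := by
  have hB : (0 : ℝ) ≤ B := by positivity
  constructor
  · intro x hx i w'
    have h1 := mem_XX_near p hp B x hx i w'
    have h2 : ‖sg w' (x i)‖ ≤ ‖sg w' (x i) - B * lam (p.xi i) w'‖ + ‖(B : ℂ) * lam (p.xi i) w'‖ := by
      have := norm_add_le (sg w' (x i) - B * lam (p.xi i) w') (B * lam (p.xi i) w')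
      rwa [sub_add_cancel] at this
    rw [norm_mul, Complex.norm_natCast] at h2
    have h3 := mul_le_mul_of_nonneg_left (hp.xi_le i w') hB
    linarith
  · intro w'
    obtain ⟨i, hi⟩ := hp.xi_eq w'
    refine ⟨i, fun x hx => ?_⟩
    have h1 := mem_XX_near p hp B x hx i w'
    have h2 : ‖(B : ℂ) * lam (p.xi i) w'‖ ≤ ‖sg w' (x i) - B * lam (p.xi i) w'‖ +
        ‖sg w' (x i)‖ := by
      have := norm_sub_le (sg w' (x i)) (sg w' (x i) - B * lam (p.xi i) w')
      rw [sub_sub_cancel] at this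
      linarith
    rw [norm_mul, Complex.norm_natCast, hi] at h2
    linarith

theorem u_large (p : Par K n e) {eps k0 : ℝ} {w : ℕ} (hp : p.Valid eps k0 w)
    (B : ℕ) (x : Fin (n + 1) → 𝓞 K) (hx : x ∈ p.XX B) (w' : InfinitePlace K) :
    k0 / 2 * B ≤ ‖sg w' (∑ i, (p.u i : 𝓞 K) * x i)‖ := by
  have hB : (0 : ℝ) ≤ B := by positivity
  have hk0 := hp.k0_pos
  have hM0 : (0 : ℝ) ≤ (hb n (mK K) : ℝ) := by positivity
  have hr1 : (hb n (mK K) : ℝ) ≤ (r : ℝ) * (hb n (mK K) : ℝ) := by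
    have h1 : (1 : ℝ) ≤ r := by exact_mod_cast hp.r_pos
    nlinarith
  have e1 : sg w' (∑ i, (p.u i : 𝓞 K) * x i) = ∑ i, (p.u i : ℂ) * sg w' (x i) := by
    rw [map_sum]
    refine Finset.sum_congr rfl fun i _ => ?_
    rw [map_mul, sg_intCast]
  have e2 : ∑ i, (p.u i : ℂ) * ((B : ℂ) * lam (p.xi i) w') =
      B * ∑ i, (p.u i : ℂ) * lam (p.xi i) w' := by
    rw [Finset.mul_sum]
    refine Finset.sum_congr rfl fun i _ => ?_
    ring
  have h1 : k0 * B ≤ ‖∑ i, (p.u i : ℂ) * ((B : ℂ) * lam (p.xi i) w')‖ := by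
    rw [e2, norm_mul, Complex.norm_natCast, mul_comm]
    exact mul_le_mul_of_nonneg_left (hp.u_ge w') hB
  have h2 : ‖∑ i, (p.u i : ℂ) * (sg w' (x i) - B * lam (p.xi i) w')‖ ≤ k0 / 10 * B := by
    refine (norm_sum_le _ _).trans ?_
    have h3 : ∀ i ∈ (univ : Finset (Fin (n + 1))),
        ‖(p.u i : ℂ) * (sg w' (x i) - B * lam (p.xi i) w')‖ ≤ k0 * B / (10 * ((n : ℝ) + 1)) := by
      intro i _
      have h4 := pt_near p hp B x hx i w'
      have h6 : ‖(p.u i : ℂ)‖ ≤ (hb n (mK K) : ℝ) := by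
        rw [Complex.norm_intCast]
        have := hp.u_le i
        rw [← Int.cast_abs]
        exact_mod_cast this
      rw [norm_mul, le_div_iff₀ (by positivity)]
      have h7 := norm_nonneg (sg w' (x i) - B * lam (p.xi i) w')
      calc ‖(p.u i : ℂ)‖ * ‖sg w' (x i) - B * lam (p.xi i) w'‖ * (10 * ((n : ℝ) + 1))
          ≤ ((r : ℝ) * (hb n (mK K) : ℝ) + 1) * ‖sg w' (x i) - B * lam (p.xi i) w'‖ *
            (10 * ((n : ℝ) + 1)) := by
            refine mul_le_mul_of_nonneg_right ?_ (by positivity)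
            exact mul_le_mul_of_nonneg_right (by linarith) h7
        _ = ‖sg w' (x i) - B * lam (p.xi i) w'‖ *
            (10 * ((r : ℝ) * (hb n (mK K) : ℝ) + 1) * ((n : ℝ) + 1)) := by ring
        _ ≤ k0 * B := h4
    refine (Finset.sum_le_card_nsmul _ _ _ h3).trans (le_of_eq ?_)
    rw [Finset.card_univ, Fintype.card_fin, nsmul_eq_mul]
    push_cast
    field_simp
  have h3 : ∑ i, (p.u i : ℂ) * ((B : ℂ) * lam (p.xi i) w') = ∑ i, (p.u i : ℂ) * sg w' (x i) -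
      ∑ i, (p.u i : ℂ) * (sg w' (x i) - B * lam (p.xi i) w') := by
    rw [← Finset.sum_sub_distrib]
    refine Finset.sum_congr rfl fun i _ => ?_
    ring
  rw [h3] at h1
  have h4 := norm_sub_le (∑ i, (p.u i : ℂ) * sg w' (x i))
    (∑ i, (p.u i : ℂ) * (sg w' (x i) - B * lam (p.xi i) w'))
  rw [e1]
  nlinarith

theorem mgI_ne_bot_of_mem_GG (p : Par K n e) {eps k0 : ℝ} {w : ℕ}
    (hp : p.Valid eps k0 w) (R : ℝ) (B : ℕ) (hB : 1 ≤ B) (x y : Fin (n + 1) → 𝓞 K)
    (hx : x ∈ p.GG R B) (hy : y ∈ p.GG R B) (h : x ≠ y) : mgI x y ≠ ⊥ := by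
  intro hbot
  obtain ⟨u, hu⟩ := eq_mul_of_mgI_bot x y hx.2.1 hbot
  have hB' : (1 : ℝ) ≤ B := by exact_mod_cast hB
  have hu1 : u - 1 ≠ 0 := by
    intro h0
    apply h
    funext i
    rw [hu i, sub_eq_zero.mp h0, one_mul]
  have h1 : ∀ w', ‖sg w' (u - 1)‖ ≤ 1 / 2 := by
    intro w'
    obtain ⟨i, hi⟩ := hp.xi_eq w'
    have h2 := mem_XX_near p hp B x hx.1 i w'
    have h3 := mem_XX_near p hp B y hy.1 i w'
    have h4 : ‖(B : ℂ) * lam (p.xi i) w'‖ ≤ ‖sg w' (x i) - B * lam (p.xi i) w'‖ +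
        ‖sg w' (x i)‖ := by
      have := norm_sub_le (sg w' (x i)) (sg w' (x i) - B * lam (p.xi i) w')
      rw [sub_sub_cancel] at this
      linarith
    rw [norm_mul, Complex.norm_natCast, hi] at h4
    have h5 : sg w' (u - 1) * sg w' (x i) = (sg w' (y i) - B * lam (p.xi i) w') -
        (sg w' (x i) - B * lam (p.xi i) w') := by
      rw [hu i, map_sub, map_one, map_mul]
      ring
    have h6 : ‖sg w' (u - 1)‖ * ‖sg w' (x i)‖ ≤ B / 10 + B / 10 := by
      rw [← norm_mul, h5]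
      refine (norm_sub_le _ _).trans (add_le_add h3 h2)
    have h7 := norm_nonneg (sg w' (u - 1))
    by_contra hcon
    push Not at hcon
    nlinarith
  have h2 := one_le_np_sg hu1
  have h3 : np (fun w => ‖sg w (u - 1)‖) ≤ np (fun _ : InfinitePlace K => (1 / 2 : ℝ)) :=
    np_mono (fun _ => norm_nonneg _) h1
  rw [np_const] at h3
  have h4 : (1 / 2 : ℝ) ^ mK K < 1 := pow_lt_one₀ (by norm_num) (by norm_num) mK_pos.ne'
  linarith

theorem x_unimod (p : Par K n e) {eps k0 : ℝ} {w : ℕ} (hp : p.Valid eps k0 w) (B : ℕ)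
    (x : Fin (n + 1) → 𝓞 K) (hx : x ∈ p.XX B) :
    ∃ c : Fin (n + 1) → 𝓞 K, IsCoprime (∑ i, c i * x i) (p.W : 𝓞 K) := by
  exact hp.hens.2.2.2.1 x hx.2.1

end NKHP
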