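import Pool.Agent.Lib.MP_e426f4_ag.NK.LocPairs
import Pool.Agent.Lib.MP_e426f4_ag.N.FewNotGood

/-!
NK-BadA: points that are not well-rounded. Templates: N/BadA.lean, CI/BadA.lean. NFHP.few_not_good: #{x in XX not Good} <= eps' B^(m(n+1)) for R >= R0(eps'); loc_pairs_le with this set; MT = TL XR, TL = Vol dens ((Q/W^s)^r)^m,
Vol = ((2kap^2)^(n+1-r)(2th)^r B^(n+1))^m/vg. eps' does not depend on th, s (ratio of the constants of loc_pairs_le and MT does not).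
-/

namespace NKHP

open NumberField GenHP NFHP Finset Filter Topology
open CIHP (Sys NS Jac nu Bf)

variable {K : Type} [Field K] [NumberField K] {n r : ℕ} {e : Fin r → ℕ}

/-- the comparison of the error term with the main term -/
private theorem bpa_few_points_le (p : Par K n e) {eps k0 : ℝ} {w : ℕ} (hp : p.Valid eps k0 w) :
    ∃ c : ℝ, 0 < c ∧ ∀ th : ℝ, 0 < th → ∀ s : ℕ, p.Q ∣ p.W ^ s →
      ∀ᶠ H : ℝ in atTop, ∀ S : Set (Fin (n + 1) → 𝓞 K), S ⊆ p.XX (p.B H) →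
        (S.ncard : ℝ) ≤ c * (p.B H : ℝ) ^ (mK K * (n + 1)) →
        ((p.LP p.rho th s S H).ncard : ℝ) ≤ eps / 2 * p.MT th s H := by
  obtain ⟨C, hC, hloc⟩ := loc_pairs_le p hp
  have hvg := hp.vg_pos
  have hd := dens_pos p hp
  have hQ : (0 : ℝ) < p.Q := by exact_mod_cast hp.Q_pos
  have hW : (0 : ℝ) < p.W := by exact_mod_cast hp.W_pos
  have hk := hp.kap_pos
  have hr := hp.rho_pos
  have he := hp.eps_pos
  refine ⟨eps / 2 * (((2 * p.kap ^ 2) ^ (n + 1 - r) * 2 ^ r * (p.Q : ℝ) ^ r) ^ mK K / p.vg *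
    p.dens) / C, by positivity, ?_⟩
  intro th hth s hs
  filter_upwards [hloc th hth s hs, eventually_ge_atTop 0] with H hH hH0 S hS hcard
  refine (hH S hS).trans ?_
  have hX : 0 ≤ p.XR p.rho H := by
    rw [Par.XR]
    positivity
  have h1 : eps / 2 * p.MT th s H =
      (eps / 2 * (((2 * p.kap ^ 2) ^ (n + 1 - r) * 2 ^ r * (p.Q : ℝ) ^ r) ^ mK K / p.vg *
        p.dens) / C * (p.B H : ℝ) ^ (mK K * (n + 1))) *
        (C * ((th / (p.W : ℝ) ^ s) ^ r) ^ mK K) * p.XR p.rho H := by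
    rw [Par.MT, Par.TL, Vol, mul_comm (mK K) (n + 1), pow_mul (p.B H : ℝ)]
    have h2 : ((2 * p.kap ^ 2) ^ (n + 1 - r) * (2 * th) ^ r * (p.B H : ℝ) ^ (n + 1)) ^ mK K *
        (((p.Q : ℝ) / (p.W : ℝ) ^ s) ^ r) ^ mK K =
        ((2 * p.kap ^ 2) ^ (n + 1 - r) * 2 ^ r * (p.Q : ℝ) ^ r) ^ mK K *
        ((p.B H : ℝ) ^ (n + 1)) ^ mK K * ((th / (p.W : ℝ) ^ s) ^ r) ^ mK K := by
      rw [← mul_pow, ← mul_pow, ← mul_pow]
      congr 1
      rw [mul_pow 2 th r, div_pow, div_pow]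
      ring
    calc eps / 2 * (((2 * p.kap ^ 2) ^ (n + 1 - r) * (2 * th) ^ r *
          (p.B H : ℝ) ^ (n + 1)) ^ mK K / p.vg * p.dens *
          (((p.Q : ℝ) / (p.W : ℝ) ^ s) ^ r) ^ mK K * p.XR p.rho H) =
        eps / 2 / p.vg * p.dens * (((2 * p.kap ^ 2) ^ (n + 1 - r) * (2 * th) ^ r *
          (p.B H : ℝ) ^ (n + 1)) ^ mK K * (((p.Q : ℝ) / (p.W : ℝ) ^ s) ^ r) ^ mK K) *
          p.XR p.rho H := by ring
      _ = _ := by
        rw [h2]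
        field_simp
  rw [h1]
  apply mul_le_mul_of_nonneg_right _ hX
  exact mul_le_mul_of_nonneg_right hcard (by positivity)

theorem bad_not_good (p : Par K n e) {eps k0 : ℝ} {w : ℕ} (hp : p.Valid eps k0 w) :
    ∃ R0 : ℝ, 1 ≤ R0 ∧ ∀ R, R0 ≤ R → ∀ th : ℝ, 0 < th → ∀ s : ℕ, p.Q ∣ p.W ^ s →
      ∀ᶠ H : ℝ in atTop,
        ((p.LP p.rho th s {x | x ∈ p.XX (p.B H) ∧ ¬ Good R (p.B H) x} H).ncard : ℝ) ≤
          eps / 2 * p.MT th s H := by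
  obtain ⟨c, hc, hfew⟩ := bpa_few_points_le p hp
  obtain ⟨R0, hR0, hR⟩ := few_not_good K n (by have := hp.n_ge; have := hp.r_pos; omega) c hc
  refine ⟨R0, hR0, ?_⟩
  intro R hRR th hth s hs
  have hB : ∀ᶠ H : ℝ in atTop, 1 ≤ p.B H :=
    (CIHP.Bf_atTop (n := n) e hp.r_pos hp.sum_le p.C0 hp.C0_ge).eventually_ge_atTop 1
  filter_upwards [hfew th hth s hs, hB] with H hH hB1
  refine hH _ (fun x hx => hx.1) ?_
  refine le_trans ?_ (hR R hRR (p.B H) hB1)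
  have hfin : {x : Fin (n + 1) → 𝓞 K | x ∈ Bx n (2 * (p.B H : ℝ)) ∧
      ¬ Good R (p.B H) x}.Finite := (Bx_finite _).subset fun x hx => hx.1
  have hsub : {x | x ∈ p.XX (p.B H) ∧ ¬ Good R (p.B H) x} ⊆
      {x : Fin (n + 1) → 𝓞 K | x ∈ Bx n (2 * (p.B H : ℝ)) ∧ ¬ Good R (p.B H) x} :=
    fun x hx => ⟨(mem_XX_bounds p hp _).1 x hx.1, hx.2⟩
  exact_mod_cast Set.ncard_le_ncard hsub hfin

end NKHP
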