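import Pool.Agent.Lib.MP_e426f4_ag.NK.Basic
import Pool.Agent.Lib.MP_e426f4_ag.N.CardCl

/-!
NK-CardCl: number of systems in a class. Templates: N/CardCl.lean, CI/CardCl.lean. Coordinates (i,t,j): product over i (CIHP.ncard_pi) of the sets of N/CardCl (p.Cl of N with the data of the i-th equation;
build a `NFHP.Par K n (e i)` with the fields AC, Q, A0 of the i-th equation and anything for the rest, then NFHP.card_Cl applies), NS = sum of NN, eps' from NFHP.exists_radius.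
-/

namespace NKHP

open NumberField GenHP NFHP Finset Filter Topology
open CIHP (Sys NS Jac nu Bf)

variable {K : Type} [Field K] [NumberField K] {n r : ℕ} {e : Fin r → ℕ}

theorem card_Cl (p : Par K n e) (hQ : 0 < p.Q) (u eps : ℝ) (hu : 0 < u) (he : 0 < eps) :
    ∀ᶠ H : ℝ in atTop,
      (1 - eps) * p.XR u H ≤ ((p.Cl u H).ncard : ℝ) ∧
      ((p.Cl u H).ncard : ℝ) ≤ (1 + eps) * p.XR u H := by
  classical
  have hQ' : (0 : ℝ) < p.Q := by exact_mod_cast hQ
  obtain ⟨e0, he0, he1, he2, he3⟩ := exists_radius r (min eps 1) (by positivity)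
    (min_le_right _ _)
  let q : ∀ i, NFHP.Par K n (e i) := fun i =>
    ⟨p.Ainf i, p.AC i, fun _ _ => 0, fun _ => 0, fun _ => 0, 0, 0, 0, 0, p.Q, ⊥, p.A0 i,
      fun _ => 0⟩
  have ev : ∀ᶠ H : ℝ in atTop, ∀ i,
      (1 - e0) * (q i).XR u H ≤ (((q i).Cl u H).ncard : ℝ) ∧
      (((q i).Cl u H).ncard : ℝ) ≤ (1 + e0) * (q i).XR u H :=
    eventually_all.2 fun i => NFHP.card_Cl (q i) hQ u e0 hu he0
  filter_upwards [ev, eventually_gt_atTop 0] with H h1 hH0
  have hcl : p.Cl u H = {A : Sys n e (𝓞 K) | ∀ i, A i ∈ (q i).Cl u H} := by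
    ext A
    constructor
    · rintro ⟨ha, hb⟩ i
      exact ⟨fun t j => ha i t j, fun t => hb i t⟩
    · intro h
      exact ⟨fun i t j => (h i).1 t j, fun i t => (h i).2 t⟩
  have hcard : ((p.Cl u H).ncard : ℝ) = ∏ i, (((q i).Cl u H).ncard : ℝ) := by
    rw [hcl, CIHP.ncard_pi (fun i => (q i).Cl u H) fun i => NFHP.Cl_finite (q i) u H]
    push_cast
    rfl
  have hXR : p.XR u H = ∏ i, (q i).XR u H := by
    have h2 : ∀ i, (q i).XR u H = (2 * u * H / p.Q) ^ (mK K * NN n (e i)) := fun i => rfl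
    simp only [h2]
    rw [Finset.prod_pow_eq_pow_sum, ← Finset.mul_sum]
    rfl
  have hX0 : ∀ i, 0 ≤ (q i).XR u H := fun i => by
    have h2 : (q i).XR u H = (2 * u * H / p.Q) ^ (mK K * NN n (e i)) := rfl
    rw [h2]
    positivity
  have hP0 : 0 ≤ ∏ i, (q i).XR u H := Finset.prod_nonneg fun i _ => hX0 i
  have hcon : ∀ c : ℝ, ∏ i, (c * (q i).XR u H) = c ^ r * ∏ i, (q i).XR u H := fun c => by
    rw [Finset.prod_mul_distrib, Finset.prod_const, Finset.card_univ, Fintype.card_fin]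
  have hm := min_le_left eps 1
  rw [hcard, hXR]
  constructor
  · calc (1 - eps) * ∏ i, (q i).XR u H ≤ (1 - e0) ^ r * ∏ i, (q i).XR u H :=
          mul_le_mul_of_nonneg_right (by linarith) hP0
      _ = ∏ i, ((1 - e0) * (q i).XR u H) := (hcon _).symm
      _ ≤ ∏ i, (((q i).Cl u H).ncard : ℝ) :=
        Finset.prod_le_prod (fun i _ => mul_nonneg (by linarith) (hX0 i)) fun i _ => (h1 i).1
  · calc ∏ i, (((q i).Cl u H).ncard : ℝ) ≤ ∏ i, ((1 + e0) * (q i).XR u H) :=
          Finset.prod_le_prod (fun _ _ => by positivity) fun i _ => (h1 i).2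
      _ = (1 + e0) ^ r * ∏ i, (q i).XR u H := hcon _
      _ ≤ (1 + eps) * ∏ i, (q i).XR u H :=
          mul_le_mul_of_nonneg_right (by linarith) hP0

end NKHP
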