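import Pool.Agent.Lib.MP_e426f4_ag.NK.NLoc
import Pool.Agent.Lib.MP_e426f4_ag.NK.CardCl
import Pool.Agent.Lib.MP_e426f4_ag.N.Ideals

/-!
NK-BadC: points divisible by a prime P of norm <= z not containing W. Templates: N/BadC.lean, CI/BadC.lean. For each system A of Cl(rho) (|A - H Ainf| <= 2 rho H by AC_near): nloc with q = P, z = 0: (1+eps) TL/N P^(n+1); sum over the finitely many P (norm > w, since the primes <= w divide W): <= E; card_Cl: #Cl <= (1+small) XR.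
-/

namespace NKHP

open NumberField GenHP NFHP Finset Filter Topology
open CIHP (Sys NS Jac nu Bf)

variable {K : Type} [Field K] [NumberField K] {n r : ℕ} {e : Fin r → ℕ}

private theorem bp_max_ne_bot (P : Ideal (𝓞 K)) (hP : P.IsMaximal) : P ≠ ⊥ :=
  Ring.ne_bot_of_isMaximal_of_not_isField hP (RingOfIntegers.not_isField K)

/-- counting in fibres -/
private theorem bp_ncard_fiber_le {α β : Type*} (S : Set α) (hS : S.Finite) (g : α → β) (Y : Set β)
    (hY : Y.Finite) (hg : ∀ x ∈ S, g x ∈ Y) (C : ℝ)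
    (h : ∀ y ∈ Y, (Set.ncard {x | x ∈ S ∧ g x = y} : ℝ) ≤ C) :
    (S.ncard : ℝ) ≤ C * Y.ncard := by
  classical
  have h1 : S.ncard = ∑ y ∈ hY.toFinset, Set.ncard {x | x ∈ S ∧ g x = y} := by
    rw [Set.ncard_eq_toFinset_card S hS]
    rw [Finset.card_eq_sum_card_fiberwise (f := g) (t := hY.toFinset)]
    · refine Finset.sum_congr rfl fun y _ => ?_
      rw [← Set.ncard_coe_finset]
      congr 1
      ext x
      simp
    · intro x hx
      have hx' : x ∈ S := by simpa using hx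
      simpa using hg x hx'
  rw [h1, Set.ncard_eq_toFinset_card Y hY]
  push_cast
  calc (∑ y ∈ hY.toFinset, (Set.ncard {x | x ∈ S ∧ g x = y} : ℝ))
      ≤ ∑ y ∈ hY.toFinset, C := Finset.sum_le_sum fun y hy => h y (by simpa using hy)
    _ = _ := by rw [Finset.sum_const, nsmul_eq_mul, mul_comm]

/-- a prime ideal which does not contain `W` has norm larger than `w` -/
private theorem bp_lt_absNorm (p : Par K n e) {eps k0 : ℝ} {w : ℕ} (hp : p.Valid eps k0 w)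
    (P : Ideal (𝓞 K)) (hP : P.IsMaximal) (hW : (p.W : 𝓞 K) ∉ P) : w < Ideal.absNorm P := by
  have hPne := bp_max_ne_bot P hP
  have hprime : P.IsPrime := hP.isPrime
  have hN0 : Ideal.absNorm P ≠ 0 := (absNorm_pos hPne).ne'
  have hmem : ((Ideal.absNorm P : ℕ) : 𝓞 K) ∈ P := Ideal.absNorm_mem P
  -- a prime factor of the norm lies in `P`
  have hex : ∃ l : ℕ, l.Prime ∧ l ∣ Ideal.absNorm P ∧ (l : 𝓞 K) ∈ P := by
    by_contra hcon
    push Not at hcon
    have key : ∀ m : ℕ, m ∣ Ideal.absNorm P → m ≠ 0 → (m : 𝓞 K) ∉ P := by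
      intro m
      induction m using Nat.recOnMul with
      | zero => intro _ h; exact absurd rfl h
      | one =>
        intro _ _ h1
        rw [Nat.cast_one] at h1
        exact hprime.ne_top ((Ideal.eq_top_iff_one P).mpr h1)
      | prime l hl => intro h _; exact hcon l hl h
      | mul a b iha ihb =>
        intro h h0 hab
        rw [Nat.cast_mul] at hab
        have ha0 : a ≠ 0 := fun h1 => h0 (by rw [h1, zero_mul])
        have hb0 : b ≠ 0 := fun h1 => h0 (by rw [h1, mul_zero])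
        rcases hprime.mem_or_mem hab with h2 | h2
        · exact iha (dvd_trans (dvd_mul_right a b) h) ha0 h2
        · exact ihb (dvd_trans (dvd_mul_left b a) h) hb0 h2
    exact key _ dvd_rfl hN0 hmem
  obtain ⟨l, hl, hlN, hlP⟩ := hex
  have hlw : w < l := by
    by_contra hcon
    push Not at hcon
    obtain ⟨c, hc⟩ := (hp.W_primes l hl).2 hcon
    apply hW
    rw [hc, Nat.cast_mul]
    exact P.mul_mem_right _ hlP
  exact lt_of_lt_of_le hlw (Nat.le_of_dvd (Nat.pos_of_ne_zero hN0) hlN)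

private theorem bp_Cl_near (p : Par K n e) {eps k0 : ℝ} {w : ℕ} (hp : p.Valid eps k0 w)
    (u H : ℝ) (hH : 0 ≤ H) (hu : u ≤ 2 * p.rho) (A : Sys n e (𝓞 K)) (hA : A ∈ p.Cl u H)
    (i : Fin r) (t : Idx n (e i)) (j : IK K) :
    |(crd (A i t) j : ℝ) - H * p.Ainf i t j| ≤ 3 * p.rho * H := by
  calc |(crd (A i t) j : ℝ) - H * p.Ainf i t j|
      = |((crd (A i t) j : ℝ) - H * p.AC i t j) + H * (p.AC i t j - p.Ainf i t j)| := by
        ring_nf
    _ ≤ |(crd (A i t) j : ℝ) - H * p.AC i t j| + |H * (p.AC i t j - p.Ainf i t j)| :=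
        abs_add_le _ _
    _ ≤ u * H + H * p.rho := by
        refine add_le_add (hA.1 i t j) ?_
        rw [abs_mul, abs_of_nonneg hH]
        exact mul_le_mul_of_nonneg_left (hp.AC_near i t j) hH
    _ ≤ 3 * p.rho * H := by nlinarith

theorem bad_medium_prime (p : Par K n e) {eps k0 : ℝ} {w : ℕ} (hp : p.Valid eps k0 w)
    (E : ℝ) (hE : ∀ S : Finset (Ideal (𝓞 K)), (∀ I ∈ S, w < Ideal.absNorm I) →
      ∑ I ∈ S, 1 / (Ideal.absNorm I : ℝ) ^ 2 ≤ E)
    (z : ℕ) (th : ℝ) (hth : 0 < th) (hth2 : th ≤ p.th1) (s : ℕ) (hs : p.Q ∣ p.W ^ s) :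
    ∀ᶠ H : ℝ in atTop,
      ((p.LP p.rho th s {x | x ∈ p.XX (p.B H) ∧ ∃ P : Ideal (𝓞 K), P.IsMaximal ∧
        (p.W : 𝓞 K) ∉ P ∧ Ideal.absNorm P ≤ z ∧ ∀ i, x i ∈ P} H).ncard : ℝ) ≤
          2 * E * p.MT th s H := by
  classical
  have hd := dens_pos p hp
  have hQ : (0 : ℝ) < p.Q := by exact_mod_cast hp.Q_pos
  have hW : (0 : ℝ) < p.W := by exact_mod_cast hp.W_pos
  have hk := hp.kap_pos
  have hr := hp.rho_pos
  have he := hp.eps_pos
  have he1 := hp.eps_le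
  have hvg := hp.vg_pos
  have hrn : r ≤ n + 1 := by have := hp.n_ge; omega
  let PP : Finset (Ideal (𝓞 K)) := (finite_ideals (K := K) z).toFinset.filter
    fun P => P.IsMaximal ∧ (p.W : 𝓞 K) ∉ P
  have hall : ∀ P ∈ PP, ∀ᶠ H : ℝ in atTop, ∀ A ∈ p.Cl p.rho H,
      (Set.ncard {x : Fin (n + 1) → 𝓞 K | x ∈ p.XX (p.B H) ∧ (∀ i, (p.W : 𝓞 K) ^ s ∣ F (A i) x ∧
          CIn (th * H * (p.B H : ℝ) ^ e i) (F (A i) x)) ∧ ∀ i, x i - 0 ∈ P} : ℝ) ≤
        (1 + eps) * p.TL th s (p.B H) / (Ideal.absNorm P : ℝ) ^ (n + 1) := by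
    intro P hPP
    simp only [PP, Finset.mem_filter] at hPP
    have hcop : IsCoprime P (Ideal.span {(p.W : 𝓞 K)}) := by
      rw [Ideal.isCoprime_iff_sup_eq]
      by_contra hne
      have h1 : P = P ⊔ Ideal.span {(p.W : 𝓞 K)} := hPP.2.1.eq_of_le hne le_sup_left
      apply hPP.2.2
      rw [h1]
      exact Ideal.mem_sup_right (Ideal.mem_span_singleton_self _)
    obtain ⟨B0, hB0⟩ := nloc p hp th hth hth2 s hs P (bp_max_ne_bot P hPP.2.1) hcop
    filter_upwards [eventually_gt_atTop 0,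
      (CIHP.Bf_atTop e hp.r_pos hp.sum_le p.C0 hp.C0_ge).eventually
      (eventually_ge_atTop B0)] with H hH hB A hA
    exact (hB0 (p.B H) hB H hH A (fun i t j => bp_Cl_near p hp p.rho H hH.le
      (by linarith) A hA i t j) hA.2 (fun _ => 0)).2
  have hall' := (Filter.eventually_all_finset PP).2 hall
  filter_upwards [hall', card_Cl p hp.Q_pos p.rho eps hr he, eventually_ge_atTop 0]
    with H hH hCl hH0
  have hXn : 0 ≤ p.XR p.rho H := XR_nonneg p p.rho H hr.le hH0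
  have hCl2 : ((p.Cl p.rho H).ncard : ℝ) ≤ (1 + eps) * p.XR p.rho H := hCl.2
  obtain ⟨T, hT⟩ : ∃ T, T = p.TL th s (p.B H) := ⟨_, rfl⟩
  have hT0 : 0 ≤ T := by
    rw [hT, Par.TL, Vol]
    positivity
  rw [← hT] at hH
  let U : Ideal (𝓞 K) → Set (Sys n e (𝓞 K) × (Fin (n + 1) → 𝓞 K)) := fun P =>
    {q | q.1 ∈ p.Cl p.rho H ∧ q.2 ∈ p.XX (p.B H) ∧ (∀ i, (p.W : 𝓞 K) ^ s ∣ F (q.1 i) q.2 ∧
      CIn (th * H * (p.B H : ℝ) ^ e i) (F (q.1 i) q.2)) ∧ ∀ i, q.2 i - 0 ∈ P}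
  have hUfin : ∀ P, (U P).Finite := fun P =>
    ((Cl_finite p p.rho H).prod (XX_finite hrn p (p.B H))).subset fun q hq => ⟨hq.1, hq.2.1⟩
  have hU : ∀ P ∈ PP, ((U P).ncard : ℝ) ≤
      (1 + eps) * T / (Ideal.absNorm P : ℝ) ^ (n + 1) * (p.Cl p.rho H).ncard := by
    intro P hPP
    refine bp_ncard_fiber_le (U P) (hUfin P) Prod.fst (p.Cl p.rho H) (Cl_finite p p.rho H)
      (fun q hq => hq.1) _ ?_
    intro A hA
    have hset : {q | q ∈ U P ∧ q.1 = A} = (fun x : Fin (n + 1) → 𝓞 K => (A, x)) ''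
        {x : Fin (n + 1) → 𝓞 K | x ∈ p.XX (p.B H) ∧ (∀ i, (p.W : 𝓞 K) ^ s ∣ F (A i) x ∧
          CIn (th * H * (p.B H : ℝ) ^ e i) (F (A i) x)) ∧ ∀ i, x i - 0 ∈ P} := by
      ext q
      constructor
      · rintro ⟨⟨h1, h2⟩, rfl⟩
        exact ⟨q.2, h2, rfl⟩
      · rintro ⟨x, hx, rfl⟩
        exact ⟨⟨hA, hx⟩, rfl⟩
    rw [hset, Set.ncard_image_of_injective _ (fun x y hxy => (Prod.mk.inj hxy).2)]
    exact hH P hPP A hA
  have hsub : p.LP p.rho th s {x | x ∈ p.XX (p.B H) ∧ ∃ P : Ideal (𝓞 K), P.IsMaximal ∧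
        (p.W : 𝓞 K) ∉ P ∧ Ideal.absNorm P ≤ z ∧ ∀ i, x i ∈ P} H ⊆
      ((PP.biUnion fun P => (hUfin P).toFinset :
        Finset (Sys n e (𝓞 K) × (Fin (n + 1) → 𝓞 K))) :
        Set (Sys n e (𝓞 K) × (Fin (n + 1) → 𝓞 K))) := by
    rintro q ⟨h1, ⟨h2, P, hPm, hWP, hPz, hxP⟩, h3⟩
    rw [Finset.mem_coe, Finset.mem_biUnion]
    refine ⟨P, ?_, ?_⟩
    · simp only [PP, Finset.mem_filter, Set.Finite.mem_toFinset]
      exact ⟨⟨bp_max_ne_bot P hPm, hPz⟩, hPm, hWP⟩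
    · rw [Set.Finite.mem_toFinset]
      exact ⟨h1, h2, h3, fun i => by rw [sub_zero]; exact hxP i⟩
  have h1 := Set.ncard_le_ncard hsub (Finset.finite_toSet _)
  rw [Set.ncard_coe_finset] at h1
  have h2 : ((PP.biUnion fun P => (hUfin P).toFinset).card : ℝ) ≤
      ∑ P ∈ PP, ((U P).ncard : ℝ) := by
    have h3 : ((PP.biUnion fun P => (hUfin P).toFinset).card : ℝ) ≤
        ∑ P ∈ PP, (((hUfin P).toFinset).card : ℝ) := by
      exact_mod_cast Finset.card_biUnion_le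
    refine h3.trans (le_of_eq ?_)
    refine Finset.sum_congr rfl fun P _ => ?_
    rw [Set.ncard_eq_toFinset_card _ (hUfin P)]
  have hn2 : 2 ≤ n + 1 := by have := hp.n_ge; omega
  have h4 : ∑ P ∈ PP, (1 : ℝ) / (Ideal.absNorm P : ℝ) ^ (n + 1) ≤ E := by
    refine le_trans (Finset.sum_le_sum fun P hPP => ?_) (hE PP ?_)
    · simp only [PP, Finset.mem_filter] at hPP
      have hN1 : (1 : ℝ) ≤ (Ideal.absNorm P : ℝ) := by
        exact_mod_cast absNorm_pos (bp_max_ne_bot P hPP.2.1)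
      apply one_div_le_one_div_of_le (by positivity)
      exact pow_le_pow_right₀ hN1 hn2
    · intro P hPP
      simp only [PP, Finset.mem_filter] at hPP
      exact bp_lt_absNorm p hp P hPP.2.1 hPP.2.2
  have hE0 : 0 ≤ E := by
    have := hE ∅ (by simp)
    simpa using this
  have hMT : p.MT th s H = T * p.XR p.rho H := by rw [Par.MT, hT]
  rw [hMT]
  calc ((p.LP p.rho th s {x | x ∈ p.XX (p.B H) ∧ ∃ P : Ideal (𝓞 K), P.IsMaximal ∧
        (p.W : 𝓞 K) ∉ P ∧ Ideal.absNorm P ≤ z ∧ ∀ i, x i ∈ P} H).ncard : ℝ)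
      ≤ ((PP.biUnion fun P => (hUfin P).toFinset).card : ℝ) := by exact_mod_cast h1
    _ ≤ ∑ P ∈ PP, ((U P).ncard : ℝ) := h2
    _ ≤ ∑ P ∈ PP, (1 + eps) * T / (Ideal.absNorm P : ℝ) ^ (n + 1) * (p.Cl p.rho H).ncard :=
        Finset.sum_le_sum hU
    _ = (1 + eps) * T * (p.Cl p.rho H).ncard *
        ∑ P ∈ PP, (1 : ℝ) / (Ideal.absNorm P : ℝ) ^ (n + 1) := by
        rw [Finset.mul_sum]
        refine Finset.sum_congr rfl fun P _ => ?_
        ring
    _ ≤ (1 + eps) * T * (p.Cl p.rho H).ncard * E :=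
        mul_le_mul_of_nonneg_left h4 (by positivity)
    _ ≤ (1 + eps) * T * ((1 + eps) * p.XR p.rho H) * E := by
        apply mul_le_mul_of_nonneg_right _ hE0
        exact mul_le_mul_of_nonneg_left hCl2 (by positivity)
    _ = (1 + eps) ^ 2 * (E * T * p.XR p.rho H) := by ring
    _ ≤ 2 * (E * T * p.XR p.rho H) := by
        apply mul_le_mul_of_nonneg_right _ (by positivity)
        nlinarith
    _ = 2 * E * (T * p.XR p.rho H) := by ring

end NKHP
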