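import Pool.Agent.Lib.MP_e426f4_ag.NK.SecondMoment
import Pool.Agent.Lib.MP_e426f4_ag.NK.RealCount
import Pool.Agent.Lib.MP_e426f4_ag.NK.HensLocal
import Pool.Agent.Lib.MP_e426f4_ag.NK.Dirs
import Pool.Agent.Lib.MP_e426f4_ag.N.Dir
import Pool.Agent.Lib.MP_e426f4_ag.N.Ideals

/-!
NK-ClassThm: the class theorem. Templates: N/ClassThm.lean, CI/ClassThm.lean. w1 from NFHP.ideal_tail with E = eps/40, eps' = min(1/10, eps/400). NFHP.exists_dir (M = mK K; v0) gives u with k0 = v0 (u large at xi at all places, as in N/ClassThm), exists_dirs (M = mK K, number of places <= mK K) gives h with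
det Dh >= bet v0' at all places (Jac submatrix: GoodIS; choose at each place the point z_w of GoodIS and xi with lam (xi i) w = z_w i by NFHP.exists_lam, RV because PtI is real at real places); real_count with bet' = bet v0', k0, eps' gives kap, rho0, th1, then vg; hens_of_local gives P, x0; C0 with C0_large (dens > 0: nadm_pos, vg > 0, m >= 1).
rho0 of the theorem = min of rho0 of real_count (the hypothesis |F (sysC Ainf w i)(ptC xi w)| <= rho0 comes from GoodIS w rho0 bet).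
-/

namespace NKHP

open NumberField GenHP NFHP Finset Filter Topology
open CIHP (Sys NS Jac nu Bf)

theorem class_thm (K : Type) [Field K] [NumberField K] (n : ℕ) {r : ℕ} (e : Fin r → ℕ)
    (hr : 1 ≤ r) (hn : r + 2 ≤ n) (he2 : ∀ i, 2 ≤ e i) (hs : ∑ i, e i ≤ n)
    (eps : ℝ) (he : 0 < eps) :
    ∃ w1 : ℕ, ∀ w : ℕ, w1 ≤ w → 2 ≤ w → ∀ bet : ℝ, 0 < bet → bet ≤ 1 →
    ∃ rho0 : ℝ, 0 < rho0 ∧ rho0 ≤ 1 ∧ ∀ rho : ℝ, 0 < rho → rho ≤ rho0 → ∀ k : ℕ, 1 ≤ k →
      ∀ A0 : Sys n e (𝓞 K),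
      (∀ P : Ideal (𝓞 K), P.IsMaximal → (primorial w : 𝓞 K) ∈ P →
        GoodPS P (k * vW (primorial w) P) A0) →
      ∀ (AC Ainf : Sys n e (IK K → ℝ)), (∀ i t j, |Ainf i t j| ≤ 1) →
      (∀ i t j, |AC i t j - Ainf i t j| ≤ rho) →
      (∀ w', GoodIS w' rho0 bet (sysC Ainf w')) →
      ∀ᶠ H : ℝ in atTop,
        (Set.ncard {A : Sys n e (𝓞 K) | (∀ i t j, |(crd (A i t) j : ℝ) - H * AC i t j| ≤ rho * H) ∧
          (∀ i t, (((primorial w) ^ (2 * k) : ℕ) : 𝓞 K) ∣ A i t - A0 i t) ∧ ¬ SolubleS A} : ℝ) ≤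
          eps * (2 * rho * H / ((primorial w : ℝ)) ^ (2 * k)) ^ (mK K * NS n e) := by
  have hr1 : r ≤ n + 1 := by omega
  obtain ⟨G, hG, hGS⟩ := ideal_tail K (eps / 40) (by positivity)
  refine ⟨G, fun w hGw hw bet hb hb1 => ?_⟩
  have hE : ∀ S : Finset (Ideal (𝓞 K)), (∀ I ∈ S, w < Ideal.absNorm I) →
      ∑ I ∈ S, 1 / (Ideal.absNorm I : ℝ) ^ 2 ≤ eps / 40 := fun S hS =>
    hGS S fun I hI => lt_of_le_of_lt hGw (hS I hI)
  set e1 : ℝ := min (1 / 10) (eps / 400) with he1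
  have he10 : 0 < e1 := lt_min (by norm_num) (by positivity)
  have he11 : e1 ≤ 1 / 10 := min_le_left _ _
  have he12 : e1 ≤ eps / 400 := min_le_right _ _
  obtain ⟨v0, hv0, hv1, hdir⟩ := exists_dir n (mK K) mK_pos
  obtain ⟨v0', hv0', hv1', hdirs⟩ := exists_dirs n r (mK K) hr1 mK_pos
  have hbv : 0 < bet * v0' := mul_pos hb hv0'
  have hbv1 : bet * v0' ≤ 1 := mul_le_one₀ hb1 hv0'.le hv1'
  obtain ⟨kap, hkap, hkap1, rho0, th1, hrho0, hrho01, hth1, hRC⟩ :=
    real_count K n e hr (by omega) (fun i => le_trans (by norm_num) (he2 i)) e1 (bet * v0') v0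
      he10 he11 hbv hbv1 hv0 hv1
  refine ⟨rho0, hrho0, hrho01, fun rho hrho hrho' k hk A0 hloc AC Ainf hA hAC hI => ?_⟩
  obtain ⟨P, x0, hP, hH⟩ := hens_of_local w k hw hk A0 hloc
  have hWp : 0 < primorial w := primorial_pos w
  have hQp : 0 < primorial w ^ (2 * k) := pow_pos hWp _
  -- the points at the infinite places
  choose z hz hzF J hzD using hI
  have hRVz : ∀ i, RV fun w' => z w' i := fun i w' hw' => (hz w').1 hw' i
  choose xi hxi using fun i => exists_lam (hRVz i)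
  have hxi' : ∀ w', ptC xi w' = z w' := fun w' => funext fun i => hxi i w'
  obtain ⟨h, hhid, hhle, hhge⟩ := hdirs (InfinitePlace K) card_places_le
    (fun w' => Matrix.of fun i j => D (sysC Ainf w' i) (ptC xi w') j) bet hb.le (fun w' => by
      refine ⟨J w', ?_⟩
      have h1 := hzD w'
      rw [← hxi'] at h1
      exact h1)
  obtain ⟨u, hu0, hule, huge⟩ := hdir (InfinitePlace K) card_places_le
    (fun w' i => lam (xi i) w') 1 zero_le_one (fun w' => by
      obtain ⟨j, hj⟩ := (hz w').2.2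
      exact ⟨j, by rw [hxi, hj]⟩)
  have hxile : ∀ i w', ‖lam (xi i) w'‖ ≤ 1 := fun i w' => by
    rw [hxi]
    exact (hz w').2.1 i
  have hxieq : ∀ w', ∃ i, ‖lam (xi i) w'‖ = 1 := fun w' => by
    obtain ⟨j, hj⟩ := (hz w').2.2
    exact ⟨j, by rw [hxi, hj]⟩
  have hFle : ∀ w' i, ‖F (sysC Ainf w' i) (ptC xi w')‖ ≤ rho0 := fun w' i => by
    rw [hxi']
    exact hzF w' i
  have hDge : ∀ w', bet * v0' ≤ ‖(Dh (sysC Ainf w') (ptC xi w') h).det‖ := fun w' => hhge w'
  have hhid' : ∀ l l' : Fin r, h l (fr n l') = if l = l' then 1 else 0 := by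
    intro l l'
    have h1 : ((fr n l' : Fin (n + 1)) : ℕ) = (l' : ℕ) := fr_val hr1 l'
    rw [hhid l (fr n l') (by rw [h1]; exact l'.isLt), h1]
    by_cases hll : l = l'
    · rw [if_pos hll, if_pos (by rw [hll])]
    · rw [if_neg hll, if_neg fun h2 => hll (Fin.ext h2.symm)]
  obtain ⟨vg, hvg, hRCv⟩ := hRC rho hrho hrho' Ainf xi h hA hxile hxieq hhid' hhle hFle hDge
  -- the constant of the height function
  set dn : ℝ := (nadm P (primorial w ^ (2 * k)) A0 x0 : ℝ) /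
    (((primorial w ^ (2 * k) : ℕ) : ℝ) ^ (n + 1)) ^ mK K with hdn
  have hnad : (0 : ℝ) < nadm P (primorial w ^ (2 * k)) A0 x0 := by
    exact_mod_cast nadm_pos P _ (primorial w) hQp A0 x0 hH
  have hQr : (0 : ℝ) < ((primorial w ^ (2 * k) : ℕ) : ℝ) := by exact_mod_cast hQp
  have hdn0 : 0 < dn := by positivity
  set cc : ℝ := ((2 * kap ^ 2) ^ (n + 1 - r) * ((primorial w ^ (2 * k) : ℕ) : ℝ) ^ r) ^ mK K * dn
    with hcc
  have hcc0 : 0 < cc := by positivity
  set C0 : ℝ := max 1 (2 * vg / (e1 * cc)) with hC0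
  have hC01 : 1 ≤ C0 := le_max_left _ _
  have hC02 : 2 * vg ≤ e1 * (((2 * kap ^ 2) ^ (n + 1 - r) *
      ((primorial w ^ (2 * k) : ℕ) : ℝ) ^ r * C0) ^ mK K * dn) := by
    have h1 : 2 * vg / (e1 * cc) ≤ C0 := le_max_right _ _
    rw [div_le_iff₀ (by positivity)] at h1
    have h2 : C0 ≤ C0 ^ mK K := le_self_pow₀ hC01 (mK_pos (K := K)).ne'
    rw [mul_pow]
    calc 2 * vg ≤ C0 * (e1 * cc) := h1
      _ ≤ C0 ^ mK K * (e1 * cc) := mul_le_mul_of_nonneg_right h2 (by positivity)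
      _ = _ := by rw [hcc]; ring
  set p : Par K n e := ⟨Ainf, AC, xi, h, u, kap, rho, th1, vg, C0, primorial w,
    primorial w ^ (2 * k), P, A0, x0⟩ with hpdef
  have hvalid : p.Valid e1 v0 w := by
    refine ⟨hr, hn, he2, hs, he10, he11, hv0, hv1, hw, hkap, hkap1, hrho, hrho'.trans hrho01,
      hth1, hA, hAC, hxile, hxieq, hhid', hhle, hu0, hule, ?_, hvg, hRCv, hWp, ?_, hQp, hP, hH,
      hC01, hC02⟩
    · intro w'
      have h1 := huge w'
      rw [one_mul] at h1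
      refine h1.trans (le_of_eq ?_)
      congr 1
      exact Finset.sum_congr rfl fun i _ => mul_comm _ _
    · intro l hl
      show l ∣ primorial w ↔ l ≤ w
      unfold primorial
      rw [Prime.dvd_finsetProd_iff hl.prime]
      constructor
      · rintro ⟨q, hq, hlq⟩
        rw [Finset.mem_filter, Finset.mem_range] at hq
        rw [Nat.prime_dvd_prime_iff_eq hl hq.2] at hlq
        omega
      · intro hlw
        exact ⟨l, Finset.mem_filter.mpr ⟨Finset.mem_range.mpr (by omega), hl⟩, dvd_rfl⟩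
  have hsm := second_moment p hvalid (eps / 40) hE
  filter_upwards [hsm, Filter.eventually_ge_atTop 0] with H hH hH0
  have e1' : {A : Sys n e (𝓞 K) | (∀ i t j, |(crd (A i t) j : ℝ) - H * AC i t j| ≤ rho * H) ∧
          (∀ i t, (((primorial w) ^ (2 * k) : ℕ) : 𝓞 K) ∣ A i t - A0 i t) ∧ ¬ SolubleS A} =
      {A | A ∈ p.Cl p.rho H ∧ ¬ SolubleS A} := by
    ext A
    simp only [Par.Cl, hpdef, ← and_assoc]
    rfl
  rw [e1']
  refine hH.trans ?_
  have e2 : p.XR p.rho H =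
      (2 * rho * H / ((primorial w : ℝ)) ^ (2 * k)) ^ (mK K * NS n e) := by
    unfold Par.XR
    rw [hpdef]
    push_cast
    rfl
  rw [e2]
  refine mul_le_mul_of_nonneg_right ?_ (by positivity)
  linarith

end NKHP
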