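import Pool.Agent.Lib.MP_e426f4_ag.NK.Heights

/-!
NK-Const (definitions only): constants of the translations.
-/

namespace NKHP

open NumberField GenHP NFHP Finset Filter Topology
open CIHP (Sys NS Jac nu Bf)

/-- constant of the translation over one point -/
noncomputable def c4 (K : Type) [Field K] [NumberField K] (n : ℕ) : ℝ := 2 ^ n * cK K ^ 2 + 1

/-- constant of the translation over two points -/
noncomputable def c5 (K : Type) [Field K] [NumberField K] (n : ℕ) : ℝ :=
  2 ^ (n + 3) * ((n : ℝ) + 1) ^ 2 * cK K ^ 2 + 1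

theorem one_le_c4 (K : Type) [Field K] [NumberField K] (n : ℕ) : 1 ≤ c4 K n := by
  unfold c4
  have : 0 ≤ (2 : ℝ) ^ n * cK K ^ 2 := by positivity
  linarith

theorem one_le_c5 (K : Type) [Field K] [NumberField K] (n : ℕ) : 1 ≤ c5 K n := by
  unfold c5
  have : 0 ≤ (2 : ℝ) ^ (n + 3) * ((n : ℝ) + 1) ^ 2 * cK K ^ 2 := by positivity
  linarith

end NKHP
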