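import Pool.Agent.Lib.MP_e426f4_ag.NK.Points
import Pool.Agent.Lib.MP_e426f4_ag.NK.Heights
import Pool.Agent.Lib.MP_e426f4_ag.N.Crude

/-!
NK-Crude: crude count of systems through two points. Template: CI/Crude.lean: product over i (CIHP.ncard_pi) of NFHP.crude_pair K n (e i) with the bound H' = C' H (2 c2 mu^2 <= H', 2 c1 mu <= H', cK 3H <= H'; mu^2 = R^2 B^(2/n) <= R^2 C0 H by CIHP.Bf_two).
np (fun w => H'^2 B^(2e-2) dl_w) = (H'^2 B^(2e-2))^m np(dl) (sum of mult = m). The congruences are dropped: factor Q^(m NS)/(2 rho)^(m NS) in C.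
-/

namespace NKHP

open NumberField GenHP NFHP Finset Filter Topology
open CIHP (Sys NS Jac nu Bf)

variable {K : Type} [Field K] [NumberField K] {n r : ℕ} {e : Fin r → ℕ}

private theorem cr_Cl_abs_le (p : Par K n e) {eps k0 : ℝ} {w : ℕ} (hp : p.Valid eps k0 w)
    (H : ℝ) (hH : 0 ≤ H) (A : Sys n e (𝓞 K)) (hA : A ∈ p.Cl p.rho H) (i : Fin r)
    (m : Idx n (e i)) (j : IK K) : |(crd (A i m) j : ℝ)| ≤ 3 * H := by
  have h1 := hA.1 i m j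
  have h2 := hp.AC_near i m j
  have h3 := hp.Ainf_le i m j
  have h4 := hp.rho_le
  have h5 : |p.AC i m j| ≤ 1 + p.rho := by
    calc |p.AC i m j| = |(p.AC i m j - p.Ainf i m j) + p.Ainf i m j| := by ring_nf
      _ ≤ |p.AC i m j - p.Ainf i m j| + |p.Ainf i m j| := abs_add_le _ _
      _ ≤ 1 + p.rho := by linarith
  calc |(crd (A i m) j : ℝ)| =
      |((crd (A i m) j : ℝ) - H * p.AC i m j) + H * p.AC i m j| := by ring_nf
    _ ≤ |(crd (A i m) j : ℝ) - H * p.AC i m j| + |H * p.AC i m j| := abs_add_le _ _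
    _ ≤ p.rho * H + H * (1 + p.rho) := by
        rw [abs_mul, abs_of_nonneg hH]
        exact add_le_add h1 (mul_le_mul_of_nonneg_left h5 hH)
    _ ≤ 3 * H := by nlinarith

theorem crude_sys (p : Par K n e) {eps k0 : ℝ} {w : ℕ} (hp : p.Valid eps k0 w) (R : ℝ)
    (hR : 1 ≤ R) :
    ∃ C : ℝ, 0 < C ∧ ∀ᶠ H : ℝ in atTop, ∀ x y : Fin (n + 1) → 𝓞 K, x ∈ p.GG R (p.B H) →
      y ∈ p.GG R (p.B H) → x ≠ y →
      (Set.ncard {A : Sys n e (𝓞 K) | A ∈ p.Cl p.rho H ∧ ∀ i, F (A i) x = 0 ∧ F (A i) y = 0} : ℝ) ≤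
        C * p.XR p.rho H * ((mgN x y : ℝ) / np (fun w => dl w x y)) ^ r *
          ((p.B H : ℝ) ^ (2 * r) / (H ^ (2 * r) * (p.B H : ℝ) ^ (2 * ∑ i, e i))) ^ mK K := by
  classical
  have hrho := hp.rho_pos
  have hQ : (0 : ℝ) < p.Q := by exact_mod_cast hp.Q_pos
  have hn2 : 2 ≤ n := by have := hp.n_ge; omega
  have hC0 : 0 < p.C0 := lt_of_lt_of_le one_pos hp.C0_ge
  have hcK1 : 1 ≤ cK K := one_le_cK
  have hc1 : ∀ i : Fin r, 0 ≤ c1 K n (e i) := fun i => by unfold NFHP.c1; positivity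
  have hc2 : ∀ i : Fin r, 0 ≤ c2 K n (e i) := fun i => by unfold NFHP.c2; positivity
  obtain ⟨s1, hs1⟩ : ∃ s1 : ℝ, s1 = ∑ i, c1 K n (e i) := ⟨_, rfl⟩
  obtain ⟨s2, hs2⟩ : ∃ s2 : ℝ, s2 = ∑ i, c2 K n (e i) := ⟨_, rfl⟩
  have hs1' : ∀ i, c1 K n (e i) ≤ s1 := fun i => by
    rw [hs1]
    exact Finset.single_le_sum (f := fun i => c1 K n (e i)) (fun i _ => hc1 i) (Finset.mem_univ i)
  have hs2' : ∀ i, c2 K n (e i) ≤ s2 := fun i => by
    rw [hs2]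
    exact Finset.single_le_sum (f := fun i => c2 K n (e i)) (fun i _ => hc2 i) (Finset.mem_univ i)
  have hs20 : 0 ≤ s2 := by rw [hs2]; exact Finset.sum_nonneg fun i _ => hc2 i
  obtain ⟨CK, hCK⟩ : ∃ CK : ℝ, CK = 3 * cK K + 2 * s2 * R ^ 2 * p.C0 := ⟨_, rfl⟩
  have hCK3 : 3 * cK K ≤ CK := by
    rw [hCK]
    have : 0 ≤ 2 * s2 * R ^ 2 * p.C0 := by positivity
    linarith
  have hCK1 : 1 ≤ CK := by linarith
  have hCK0 : 0 < CK := by linarith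
  choose Cc hCc0 hCc using fun i : Fin r => crude_pair K n (e i) (hp.e_ge i)
  obtain ⟨ci, hci⟩ : ∃ ci : Fin r → ℝ, ci = fun i => Cc i *
    (CK * p.Q / (2 * p.rho)) ^ (mK K * NN n (e i)) := ⟨_, rfl⟩
  have hci0 : ∀ i, 0 < ci i := fun i => by
    have := hCc0 i
    rw [hci]
    positivity
  refine ⟨∏ i, ci i, Finset.prod_pos fun i _ => hci0 i, ?_⟩
  filter_upwards [(CIHP.Bf_atTop e hp.r_pos hp.sum_le p.C0 hp.C0_ge).eventually_ge_atTop 1,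
    CIHP.Bf_small_one e hn2 hp.e_ge hp.r_pos hp.sum_le p.C0 hp.C0_ge (2 * s1 * R),
    eventually_ge_atTop (1 : ℝ)] with H hB hsm hH
  intro x y hx hy hxy
  change 1 ≤ p.B H at hB
  change 2 * s1 * R * (p.B H : ℝ) ^ (1 / (n : ℝ)) ≤ H at hsm
  have htwo : (p.B H : ℝ) ^ (2 / (n : ℝ)) ≤ p.C0 * H :=
    CIHP.Bf_two e hn2 hp.e_ge hp.r_pos hp.sum_le p.C0 hp.C0_ge H hH
  have hB1 : (1 : ℝ) ≤ p.B H := by exact_mod_cast hB
  have hB0 : (0 : ℝ) < p.B H := by linarith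
  obtain ⟨mu, hmu⟩ : ∃ mu : ℝ, mu = R * (p.B H : ℝ) ^ (1 / (n : ℝ)) := ⟨_, rfl⟩
  have hmu1 : 1 ≤ mu := by
    have : (1 : ℝ) ≤ (p.B H : ℝ) ^ (1 / (n : ℝ)) := Real.one_le_rpow hB1 (by positivity)
    rw [hmu]
    nlinarith
  have hmu2 : mu ^ 2 = R ^ 2 * (p.B H : ℝ) ^ (2 / (n : ℝ)) := by
    rw [hmu, mul_pow, ← Real.rpow_natCast ((p.B H : ℝ) ^ (1 / (n : ℝ))) 2,
      ← Real.rpow_mul hB0.le]
    congr 2
    push_cast
    ring
  have hmg := mgI_ne_bot_of_mem_GG p hp R (p.B H) hB x y hx hy hxy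
  have hdl : ∀ w, 0 < dl w x y := fun w => dl_pos x y hmg w
  have hmgN : (0 : ℝ) < mgN x y := by exact_mod_cast mgN_pos x y hmg
  have hnd : 0 < np (fun w => dl w x y) := np_pos hdl
  obtain ⟨hbd, hlow⟩ := mem_XX_bounds p hp (p.B H)
  have hH0 : 0 < H := by linarith
  have hHCK : H ≤ CK * H := by nlinarith
  have hcp : ∀ i, {A : Idx n (e i) → 𝓞 K | (∀ m w, ‖sg w (A m)‖ ≤ CK * H) ∧ F A x = 0 ∧
        F A y = 0}.Finite ∧
      (Set.ncard {A : Idx n (e i) → 𝓞 K | (∀ m w, ‖sg w (A m)‖ ≤ CK * H) ∧ F A x = 0 ∧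
        F A y = 0} : ℝ) ≤ Cc i * (CK * H) ^ (mK K * NN n (e i)) * mgN x y /
          np (fun w => (CK * H) ^ 2 * (p.B H : ℝ) ^ (2 * e i - 2) * dl w x y) := by
    intro i
    refine hCc i (p.B H) hB x y hx.2.1 hy.2.1 mu hmu1 (hmu ▸ hx.2.2) (hmu ▸ hy.2.2) ?_
      (hbd x hx.1) (hbd y hy.1) hmg (CK * H) (by linarith) ?_ ?_
    · intro w'
      obtain ⟨i0, hi0⟩ := hlow w'
      exact ⟨i0, hi0 x hx.1, hi0 y hy.1⟩
    · rw [hmu2]
      calc 2 * c2 K n (e i) * (R ^ 2 * (p.B H : ℝ) ^ (2 / (n : ℝ)))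
          ≤ 2 * s2 * (R ^ 2 * (p.C0 * H)) := by
            have h1 := hs2' i
            have h2 := hc2 i
            gcongr
        _ = (2 * s2 * R ^ 2 * p.C0) * H := by ring
        _ ≤ CK * H := by
            refine mul_le_mul_of_nonneg_right ?_ hH0.le
            rw [hCK]
            linarith
    · rw [hmu]
      calc 2 * c1 K n (e i) * (R * (p.B H : ℝ) ^ (1 / (n : ℝ)))
          ≤ 2 * s1 * (R * (p.B H : ℝ) ^ (1 / (n : ℝ))) := by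
            have h1 := hs1' i
            gcongr
        _ = 2 * s1 * R * (p.B H : ℝ) ^ (1 / (n : ℝ)) := by ring
        _ ≤ H := hsm
        _ ≤ CK * H := hHCK
  have hfac : ∀ i, (Set.ncard {A : Idx n (e i) → 𝓞 K | (∀ m w, ‖sg w (A m)‖ ≤ CK * H) ∧
      F A x = 0 ∧ F A y = 0} : ℝ) ≤ ci i * (2 * p.rho * H / p.Q) ^ (mK K * NN n (e i)) *
        ((mgN x y : ℝ) / np (fun w => dl w x y) * ((p.B H : ℝ) ^ 2 / H ^ 2) ^ mK K) *
          (((p.B H : ℝ) ^ (2 * e i)) ^ mK K)⁻¹ := by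
    intro i
    refine (hcp i).2.trans ?_
    have he := hp.e_ge i
    have hCc0' := hCc0 i
    have e1 : (p.B H : ℝ) ^ (2 * e i) = (p.B H : ℝ) ^ (2 * e i - 2) * (p.B H : ℝ) ^ 2 := by
      rw [← pow_add]
      congr 1
      omega
    have e2 : ci i * (2 * p.rho * H / p.Q) ^ (mK K * NN n (e i)) =
        Cc i * (CK * H) ^ (mK K * NN n (e i)) := by
      rw [hci]
      have : CK * H = (CK * p.Q / (2 * p.rho)) * (2 * p.rho * H / p.Q) := by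
        field_simp
      rw [this, mul_pow (CK * p.Q / (2 * p.rho))]
      ring
    have e4 : np (fun w => (CK * H) ^ 2 * (p.B H : ℝ) ^ (2 * e i - 2) * dl w x y) =
        ((CK * H) ^ 2 * (p.B H : ℝ) ^ (2 * e i - 2)) ^ mK K * np (fun w => dl w x y) := by
      rw [np_mul (fun _ => (CK * H) ^ 2 * (p.B H : ℝ) ^ (2 * e i - 2)) (fun w => dl w x y),
        np_const]
    rw [e2, e1, e4]
    have e3 : Cc i * (CK * H) ^ (mK K * NN n (e i)) *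
        ((mgN x y : ℝ) / np (fun w => dl w x y) * ((p.B H : ℝ) ^ 2 / H ^ 2) ^ mK K) *
        (((p.B H : ℝ) ^ (2 * e i - 2) * (p.B H : ℝ) ^ 2) ^ mK K)⁻¹ =
        Cc i * (CK * H) ^ (mK K * NN n (e i)) * mgN x y /
          ((H ^ 2 * (p.B H : ℝ) ^ (2 * e i - 2)) ^ mK K * np (fun w => dl w x y)) := by
      rw [div_pow, mul_pow ((p.B H : ℝ) ^ (2 * e i - 2)), mul_pow (H ^ 2)]
      field_simp
    rw [e3]
    gcongr
  have hfin : ∀ i, {A : Idx n (e i) → 𝓞 K | (∀ m w, ‖sg w (A m)‖ ≤ CK * H) ∧ F A x = 0 ∧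
      F A y = 0}.Finite := fun i => (hcp i).1
  have hsub : {A : Sys n e (𝓞 K) | A ∈ p.Cl p.rho H ∧ ∀ i, F (A i) x = 0 ∧ F (A i) y = 0} ⊆
      {A : Sys n e (𝓞 K) | ∀ i, A i ∈ {A : Idx n (e i) → 𝓞 K |
        (∀ m w, ‖sg w (A m)‖ ≤ CK * H) ∧ F A x = 0 ∧ F A y = 0}} := by
    intro A hA i
    refine ⟨fun m w' => ?_, hA.2 i⟩
    refine (norm_sg_le_of_crd (fun j => cr_Cl_abs_le p hp H hH0.le A hA.1 i m j) w').trans ?_
    calc cK K * (3 * H) = 3 * cK K * H := by ring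
      _ ≤ CK * H := mul_le_mul_of_nonneg_right hCK3 hH0.le
  have hcard : (Set.ncard {A : Sys n e (𝓞 K) | A ∈ p.Cl p.rho H ∧
      ∀ i, F (A i) x = 0 ∧ F (A i) y = 0} : ℝ) ≤
      ∏ i, (Set.ncard {A : Idx n (e i) → 𝓞 K | (∀ m w, ‖sg w (A m)‖ ≤ CK * H) ∧ F A x = 0 ∧
        F A y = 0} : ℝ) := by
    have h1 := Set.ncard_le_ncard hsub (CIHP.finite_pi _ hfin)
    rw [CIHP.ncard_pi _ hfin] at h1
    exact_mod_cast h1
  refine hcard.trans ((Finset.prod_le_prod (fun i _ => Nat.cast_nonneg _)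
    fun i _ => hfac i).trans (le_of_eq ?_))
  rw [Finset.prod_mul_distrib, Finset.prod_mul_distrib, Finset.prod_mul_distrib,
    Finset.prod_pow_eq_pow_sum, Finset.prod_const, Finset.card_univ, Fintype.card_fin,
    Finset.prod_inv_distrib, Finset.prod_pow, Finset.prod_pow_eq_pow_sum, ← Finset.mul_sum,
    ← Finset.mul_sum]
  have e5 : (2 * p.rho * H / p.Q) ^ (mK K * ∑ i, NN n (e i)) = p.XR p.rho H := rfl
  rw [e5, mul_pow]
  obtain ⟨z, hz⟩ : ∃ z : ℝ, z = ((mgN x y : ℝ) / np (fun w => dl w x y)) ^ r := ⟨_, rfl⟩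
  rw [← hz]
  have e6 : (((p.B H : ℝ) ^ 2 / H ^ 2) ^ mK K) ^ r * (((p.B H : ℝ) ^ (2 * ∑ i, e i)) ^ mK K)⁻¹ =
      ((p.B H : ℝ) ^ (2 * r) / (H ^ (2 * r) * (p.B H : ℝ) ^ (2 * ∑ i, e i))) ^ mK K := by
    rw [← pow_mul, mul_comm (mK K) r, pow_mul, div_pow ((p.B H : ℝ) ^ 2), ← pow_mul, ← pow_mul,
      ← inv_pow, ← mul_pow]
    congr 1
    rw [div_mul_eq_div_div, div_eq_mul_inv _ ((p.B H : ℝ) ^ (2 * ∑ i, e i))]
  rw [← e6]
  ring

end NKHP
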