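import Pool.Agent.Lib.MP_e426f4_ag.N.Const
import Pool.Agent.Lib.MP_e426f4_ag.CI.Defs

/-!
# Systems of `r` forms of degrees `e i` in `n + 1` variables over the integers of a number field

`K` is a number field, `𝓞 K` its ring of integers with the integral basis `RingOfIntegers.basis K`.
`CIHP.Sys n e R` is the type of the coefficient vectors of systems of forms over `R`.
-/

namespace NKHP

open NumberField GenHP NFHP Finset Filter Topology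
open CIHP (Sys NS Jac nu Bf)

section basic
variable {K : Type} [Field K] [NumberField K] {n r : ℕ} {e : Fin r → ℕ}

/-- The system over `K ⊗ ℝ` with real coordinates `A`, at the place `w`. -/
noncomputable def sysC (A : Sys n e (IK K → ℝ)) (w : InfinitePlace K) : Sys n e ℂ :=
  fun i t => lam (A i t) w

/-- The point over `K ⊗ ℝ` with real coordinates `x`, at the place `w`. -/
noncomputable def ptC (x : Fin (n + 1) → IK K → ℝ) (w : InfinitePlace K) : Fin (n + 1) → ℂ :=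
  fun i => lam (x i) w

/-- The integral system at the place `w`. -/
noncomputable def sgS (w : InfinitePlace K) (A : Sys n e (𝓞 K)) : Sys n e ℂ :=
  fun i t => sg w (A i t)

/-- The system has a zero over `K`. -/
def SolubleS (A : Sys n e (𝓞 K)) : Prop :=
  ∃ x : Fin (n + 1) → K, x ≠ 0 ∧ ∀ i, F (fun t => ((A i t : 𝓞 K) : K)) x = 0

/-- The box of systems: all coordinates of all coefficients are in `[-H, H]`. -/
def BoxS (K : Type) [Field K] [NumberField K] (n : ℕ) {r : ℕ} (e : Fin r → ℕ) (H : ℝ) :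
    Set (Sys n e (𝓞 K)) :=
  {A | ∀ i t j, |(crd (A i t) j : ℝ)| ≤ H}

/-- The `l`-th free coordinate. -/
def fr (n : ℕ) {r : ℕ} (l : Fin r) : Fin (n + 1) :=
  ⟨(l : ℕ) % (n + 1), Nat.mod_lt _ (Nat.succ_pos n)⟩

/-- The matrix of the derivatives of the forms at `x` in the directions `h l`. -/
def Dh {R : Type*} [CommRing R] (A : Sys n e R) (x : Fin (n + 1) → R)
    (h : Fin r → Fin (n + 1) → ℤ) : Matrix (Fin r) (Fin r) R :=
  Matrix.of fun i l => ∑ j, D (A i) x j * (h l j : R)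

/-- The coordinates of `s` are at most `R` (box of values). -/
def CIn (R : ℝ) (s : 𝓞 K) : Prop := ∀ j, |(crd s j : ℝ)| ≤ R

end basic

/-! ### Pairs of points with good pair lattice -/

section fine
variable {K : Type} [Field K] [NumberField K]

/-- At all infinite places the space of forms of degree `d` vanishing at `x` and `y` is spanned by
finitely many integral forms `g q` vanishing at `x` and `y`, with `N * |g q|_w ≤ E`, `N` the number of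
the `g q`. -/
def FineD (n d : ℕ) (E : ℝ) (x y : Fin (n + 1) → 𝓞 K) : Prop :=
  ∃ (N : ℕ) (g : Fin N → Idx n d → 𝓞 K), (∀ q, F (g q) x = 0 ∧ F (g q) y = 0) ∧
    (∀ q t (w : InfinitePlace K), (N : ℝ) * ‖sg w (g q t)‖ ≤ E) ∧
    ∀ (w : InfinitePlace K) (A : Idx n d → ℂ), F A (fun i => sg w (x i)) = 0 →
      F A (fun i => sg w (y i)) = 0 → ∃ c : Fin N → ℂ, ∀ t, A t = ∑ q, c q * sg w (g q t)

/-- all degrees of the system -/
def Fine (n : ℕ) {r : ℕ} (e : Fin r → ℕ) (E : ℝ) (x y : Fin (n + 1) → 𝓞 K) : Prop :=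
  ∀ i, FineD n (e i) E x y

end fine

/-! ### Parameters of a local class -/

/-- Data of a local class: real approximations at the infinite places and congruence conditions. -/
structure Par (K : Type) [Field K] [NumberField K] (n : ℕ) {r : ℕ} (e : Fin r → ℕ) where
  /-- real coordinates of a system with an approximate nonsingular zero `xi` at all infinite places -/
  Ainf : Sys n e (IK K → ℝ)
  /-- centre of the cube of systems -/
  AC : Sys n e (IK K → ℝ)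
  /-- real coordinates of the zero -/
  xi : Fin (n + 1) → IK K → ℝ
  /-- `r` directions for which the matrix of derivatives is nonsingular at all places -/
  h : Fin r → Fin (n + 1) → ℤ
  /-- linear form which is large at `xi` at all places -/
  u : Fin (n + 1) → ℤ
  /-- half side of the box of points -/
  kap : ℝ
  /-- half side of the cube of systems -/
  rho : ℝ
  /-- largest admissible `θ` -/
  th1 : ℝ
  /-- the constant of the real count -/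
  vg : ℝ
  /-- constant of the height function -/
  C0 : ℝ
  /-- product of the small primes -/
  W : ℕ
  /-- modulus for the systems -/
  Q : ℕ
  /-- modulus for the points -/
  P : Ideal (𝓞 K)
  /-- residue class of the systems -/
  A0 : Sys n e (𝓞 K)
  /-- residue class of the points -/
  x0 : Fin (n + 1) → 𝓞 K

section par
variable {K : Type} [Field K] [NumberField K] {n r : ℕ} {e : Fin r → ℕ}

/-- height of the points -/
noncomputable def Par.B (p : Par K n e) (H : ℝ) : ℕ := Bf n e p.C0 H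

/-- Systems of the class in the cube with centre `H * AC` and half side `s * H`. -/
def Par.Cl (p : Par K n e) (s H : ℝ) : Set (Sys n e (𝓞 K)) :=
  {A | (∀ i t j, |(crd (A i t) j : ℝ) - H * p.AC i t j| ≤ s * H) ∧
    ∀ i t, (p.Q : 𝓞 K) ∣ A i t - p.A0 i t}

/-- The real box of integer points around `B * xi`. -/
def Reg (xi : Fin (n + 1) → IK K → ℝ) (h : Fin r → Fin (n + 1) → ℤ) (kap : ℝ) (B : ℕ) :
    Set (Fin (n + 1) → 𝓞 K) :=
  {x | (∀ (l : Fin r) j, |(crd (x (fr n l)) j : ℝ) - B * xi (fr n l) j| ≤ kap * B) ∧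
    ∀ i : Fin (n + 1), r ≤ (i : ℕ) → ∀ j, |((crd (x i) j : ℝ) - B * xi i j) -
      ∑ l, (h l i : ℝ) * ((crd (x (fr n l)) j : ℝ) - B * xi (fr n l) j)| ≤ kap ^ 2 * B}

/-- Residue conditions for points. -/
def Adm (P : Ideal (𝓞 K)) (Q : ℕ) (A0 : Sys n e (𝓞 K)) (x0 x : Fin (n + 1) → 𝓞 K) : Prop :=
  (∀ i, x i - x0 i ∈ P) ∧ ∀ i, (Q : 𝓞 K) ∣ F (A0 i) x

/-- Points of the class. -/
def Par.XX (p : Par K n e) (B : ℕ) : Set (Fin (n + 1) → 𝓞 K) :=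
  {x | x ∈ Reg p.xi p.h p.kap B ∧ Adm p.P p.Q p.A0 p.x0 x}

/-- Primitive well-rounded points of the class. -/
def Par.GG (p : Par K n e) (R : ℝ) (B : ℕ) : Set (Fin (n + 1) → 𝓞 K) :=
  {x | x ∈ p.XX B ∧ Prim x ∧ Good R B x}

/-- number of admissible residue classes modulo `Q` -/
noncomputable def nadm (P : Ideal (𝓞 K)) (Q : ℕ) (A0 : Sys n e (𝓞 K))
    (x0 : Fin (n + 1) → 𝓞 K) : ℕ :=
  Set.ncard {x : Fin (n + 1) → 𝓞 K | (∀ i j, 0 ≤ crd (x i) j ∧ crd (x i) j < Q) ∧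
    Adm P Q A0 x0 x}

/-- density of the admissible points -/
noncomputable def Par.dens (p : Par K n e) : ℝ :=
  nadm p.P p.Q p.A0 p.x0 / ((p.Q : ℝ) ^ (n + 1)) ^ mK K

/-- Real part of the main term. -/
noncomputable def Vol (K : Type) [Field K] [NumberField K] (n r : ℕ) (vg kap th : ℝ) (B : ℕ) : ℝ :=
  ((2 * kap ^ 2) ^ (n + 1 - r) * (2 * th) ^ r * (B : ℝ) ^ (n + 1)) ^ mK K / vg

/-- Real counting property. -/
def RC (Ainf : Sys n e (IK K → ℝ)) (xi : Fin (n + 1) → IK K → ℝ) (h : Fin r → Fin (n + 1) → ℤ)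
    (kap rho th1 vg eps : ℝ) : Prop :=
  ∀ th : ℝ, 0 < th → th ≤ th1 → ∀ b : Ideal (𝓞 K), b ≠ ⊥ → ∃ B0 : ℕ, ∀ B : ℕ, B0 ≤ B →
    ∀ H : ℝ, 0 < H → ∀ A : Sys n e (𝓞 K),
    (∀ i t j, |(crd (A i t) j : ℝ) - H * Ainf i t j| ≤ 3 * rho * H) →
    ∀ z : Fin (n + 1) → 𝓞 K,
    (1 - eps) * Vol K n r vg kap th B / (Ideal.absNorm b : ℝ) ^ (n + 1) ≤
        (Set.ncard {x : Fin (n + 1) → 𝓞 K | x ∈ Reg xi h kap B ∧ (∀ i, x i - z i ∈ b) ∧
          ∀ i, CIn (th * H * (B : ℝ) ^ e i) (F (A i) x)} : ℝ) ∧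
      (Set.ncard {x : Fin (n + 1) → 𝓞 K | x ∈ Reg xi h kap B ∧ (∀ i, x i - z i ∈ b) ∧
          ∀ i, CIn (th * H * (B : ℝ) ^ e i) (F (A i) x)} : ℝ) ≤
        (1 + eps) * Vol K n r vg kap th B / (Ideal.absNorm b : ℝ) ^ (n + 1)

/-- Hensel data for systems. -/
def Hens (P : Ideal (𝓞 K)) (Q W : ℕ) (A0 : Sys n e (𝓞 K)) (x0 : Fin (n + 1) → 𝓞 K) : Prop :=
  (Q : 𝓞 K) ∈ P ∧ (∃ m : ℕ, Q = W ^ m) ∧ Adm P Q A0 x0 x0 ∧
  (∀ x : Fin (n + 1) → 𝓞 K, (∀ i, x i - x0 i ∈ P) →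
    ∃ c : Fin (n + 1) → 𝓞 K, IsCoprime (∑ i, c i * x i) (W : 𝓞 K)) ∧
  ∃ g : Fin r → Fin (n + 1) → 𝓞 K, (∀ s i, g s i ∈ P) ∧
    ∀ A : Sys n e (𝓞 K), (∀ i t, (Q : 𝓞 K) ∣ A i t - A0 i t) →
    ∀ x : Fin (n + 1) → 𝓞 K, Adm P Q A0 x0 x → ∀ c c' : Fin r → 𝓞 K, ∀ m : ℕ, (∃ s, m ∣ W ^ s) →
      ((∀ i, ((Q * m : ℕ) : 𝓞 K) ∣ F (A i) (fun j => x j + ∑ s, c s * g s j)
        - F (A i) (fun j => x j + ∑ s, c' s * g s j)) ↔ ∀ s, (m : 𝓞 K) ∣ c s - c' s)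

/-- The largest admissible half side of the box of points. -/
noncomputable def kmax (K : Type) [Field K] [NumberField K] (n r : ℕ) (k0 : ℝ) : ℝ :=
  k0 / (10 * cK K * ((r : ℝ) * hb n (mK K) + 1) ^ 2 * ((n : ℝ) + 1))

/-- Validity of the data of a class. -/
structure Par.Valid (p : Par K n e) (eps k0 : ℝ) (w : ℕ) : Prop where
  r_pos : 1 ≤ r
  n_ge : r + 2 ≤ n
  e_ge : ∀ i, 2 ≤ e i
  sum_le : ∑ i, e i ≤ n
  eps_pos : 0 < eps
  eps_le : eps ≤ 1 / 10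
  k0_pos : 0 < k0
  k0_le : k0 ≤ 1
  w_two : 2 ≤ w
  kap_pos : 0 < p.kap
  kap_le : p.kap ≤ kmax K n r k0
  rho_pos : 0 < p.rho
  rho_le : p.rho ≤ 1
  th1_pos : 0 < p.th1
  Ainf_le : ∀ i t j, |p.Ainf i t j| ≤ 1
  AC_near : ∀ i t j, |p.AC i t j - p.Ainf i t j| ≤ p.rho
  xi_le : ∀ i w', ‖lam (p.xi i) w'‖ ≤ 1
  xi_eq : ∀ w', ∃ i, ‖lam (p.xi i) w'‖ = 1
  h_id : ∀ l l' : Fin r, p.h l (fr n l') = if l = l' then 1 else 0
  h_le : ∀ l i, |p.h l i| ≤ hb n (mK K)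
  u0 : p.u 0 = 1
  u_le : ∀ i, |p.u i| ≤ hb n (mK K)
  u_ge : ∀ w', k0 ≤ ‖∑ i, (p.u i : ℂ) * lam (p.xi i) w'‖
  vg_pos : 0 < p.vg
  rc : RC p.Ainf p.xi p.h p.kap p.rho p.th1 p.vg eps
  W_pos : 0 < p.W
  W_primes : ∀ q : ℕ, q.Prime → (q ∣ p.W ↔ q ≤ w)
  Q_pos : 0 < p.Q
  P_ne : p.P ≠ ⊥
  hens : Hens p.P p.Q p.W p.A0 p.x0
  C0_ge : 1 ≤ p.C0
  C0_large : 2 * p.vg ≤ eps * (((2 * p.kap ^ 2) ^ (n + 1 - r) * (p.Q : ℝ) ^ r * p.C0) ^ mK K *
    p.dens)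

/-- Expected number of points. -/
noncomputable def Par.TT (p : Par K n e) (H : ℝ) : ℝ :=
  ((2 * p.kap ^ 2) ^ (n + 1 - r) * (p.Q : ℝ) ^ r * (p.B H : ℝ) ^ nu n e / H ^ r) ^ mK K *
    p.dens / p.vg

/-- Expected number of systems with half side `s`. -/
noncomputable def Par.XR (p : Par K n e) (s H : ℝ) : ℝ :=
  (2 * s * H / p.Q) ^ (mK K * NS n e)

/-- pairs (system, point) -/
def Par.Pairs (p : Par K n e) (s R H : ℝ) : Set (Sys n e (𝓞 K) × (Fin (n + 1) → 𝓞 K)) :=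
  {q | q.1 ∈ p.Cl s H ∧ q.2 ∈ p.GG R (p.B H) ∧ ∀ i, F (q.1 i) q.2 = 0}

/-- triples (system, two distinct points) with bad pair of points -/
def Par.TBad (p : Par K n e) (R : ℝ) (G : ℕ) (tau H : ℝ) :
    Set (Sys n e (𝓞 K) × (Fin (n + 1) → 𝓞 K) × (Fin (n + 1) → 𝓞 K)) :=
  {q | q.1 ∈ p.Cl p.rho H ∧ q.2.1 ∈ p.GG R (p.B H) ∧ q.2.2 ∈ p.GG R (p.B H) ∧
    (∀ i, F (q.1 i) q.2.1 = 0 ∧ F (q.1 i) q.2.2 = 0) ∧ q.2.1 ≠ q.2.2 ∧
    BadPr G tau (p.B H) q.2.1 q.2.2}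

/-- triples with a pair of points that is not fine -/
def Par.TNF (p : Par K n e) (R : ℝ) (G : ℕ) (tau eps1 H : ℝ) :
    Set (Sys n e (𝓞 K) × (Fin (n + 1) → 𝓞 K) × (Fin (n + 1) → 𝓞 K)) :=
  {q | q.1 ∈ p.Cl p.rho H ∧ q.2.1 ∈ p.GG R (p.B H) ∧ q.2.2 ∈ p.GG R (p.B H) ∧
    (∀ i, F (q.1 i) q.2.1 = 0 ∧ F (q.1 i) q.2.2 = 0) ∧ q.2.1 ≠ q.2.2 ∧
    ¬ BadPr G tau (p.B H) q.2.1 q.2.2 ∧ ¬ Fine n e (eps1 * H) q.2.1 q.2.2}

/-- triples (system, two points) with good fine pair of points -/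
def Par.TMain (p : Par K n e) (R : ℝ) (G : ℕ) (tau eps1 H : ℝ) :
    Set (Sys n e (𝓞 K) × (Fin (n + 1) → 𝓞 K) × (Fin (n + 1) → 𝓞 K)) :=
  {q | q.1 ∈ p.Cl p.rho H ∧ q.2.1 ∈ p.GG R (p.B H) ∧ q.2.2 ∈ p.GG R (p.B H) ∧
    (∀ i, F (q.1 i) q.2.1 = 0 ∧ F (q.1 i) q.2.2 = 0) ∧ q.2.1 ≠ q.2.2 ∧
    ¬ BadPr G tau (p.B H) q.2.1 q.2.2 ∧ Fine n e (eps1 * H) q.2.1 q.2.2}

/-- local pairs: systems and points with `W^s ∣ F (A i) x` and small values. -/
def Par.LP (p : Par K n e) (u th : ℝ) (s : ℕ) (S : Set (Fin (n + 1) → 𝓞 K)) (H : ℝ) :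
    Set (Sys n e (𝓞 K) × (Fin (n + 1) → 𝓞 K)) :=
  {q | q.1 ∈ p.Cl u H ∧ q.2 ∈ S ∧ ∀ i, (p.W : 𝓞 K) ^ s ∣ F (q.1 i) q.2 ∧
    CIn (th * H * (p.B H : ℝ) ^ e i) (F (q.1 i) q.2)}

/-- number of vectors of elements of `q`, the `i`-th with coordinates in `[-θ H B^(e i), θ H B^(e i)]` -/
noncomputable def Par.Lev (p : Par K n e) (th : ℝ) (q : Ideal (𝓞 K)) (H : ℝ) : ℝ :=
  ∏ i, (Set.ncard {s : 𝓞 K | s ∈ q ∧ CIn (th * H * (p.B H : ℝ) ^ e i) s} : ℝ)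

/-- the local count of points `T'` -/
noncomputable def Par.TL (p : Par K n e) (th : ℝ) (s B : ℕ) : ℝ :=
  Vol K n r p.vg p.kap th B * p.dens * (((p.Q : ℝ) / (p.W : ℝ) ^ s) ^ r) ^ mK K

/-- the local main term `T' X` -/
noncomputable def Par.MT (p : Par K n e) (th : ℝ) (s : ℕ) (H : ℝ) : ℝ :=
  p.TL th s (p.B H) * p.XR p.rho H

end par

/-! ### Local solubility -/

section local_
variable {K : Type} [Field K] [NumberField K] {n r : ℕ} {e : Fin r → ℕ}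

/-- Every level of solubility at the prime `P`. -/
def LocPS (P : Ideal (𝓞 K)) (A : Sys n e (𝓞 K)) : Prop :=
  ∀ L : ℕ, ∃ z : Fin (n + 1) → 𝓞 K, (∃ j, z j ∉ P) ∧ ∀ i, F (A i) z ∈ P ^ L

/-- A good local point modulo `P ^ (2 a)`. -/
def GoodPS (P : Ideal (𝓞 K)) (a : ℕ) (A : Sys n e (𝓞 K)) : Prop :=
  ∃ z : Fin (n + 1) → 𝓞 K, (∃ j, z j ∉ P) ∧ (∀ i, F (A i) z ∈ P ^ (2 * a)) ∧
    ∃ J : Fin r → Fin (n + 1), (Jac A z J).det ∉ P ^ a

/-- Solubility at the infinite place `w`. -/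
def LocIS (w : InfinitePlace K) (A : Sys n e ℂ) : Prop :=
  ∃ z : Fin (n + 1) → ℂ, PtI w z ∧ ∀ i, F (A i) z = 0

/-- A good local point at the infinite place `w`. -/
def GoodIS (w : InfinitePlace K) (f g : ℝ) (A : Sys n e ℂ) : Prop :=
  ∃ z : Fin (n + 1) → ℂ, PtI w z ∧ (∀ i, ‖F (A i) z‖ ≤ f) ∧
    ∃ J : Fin r → Fin (n + 1), g ≤ ‖(Jac A z J).det‖

/-- The system is everywhere locally soluble, elementary version. -/
def ELSeS (A : Sys n e (𝓞 K)) : Prop :=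
  (∀ P : Ideal (𝓞 K), P.IsMaximal → LocPS P A) ∧ ∀ w : InfinitePlace K, LocIS w (sgS w A)

end local_

end NKHP
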