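import Pool.Agent.Lib.MP_e426f4_ag.N.Sg

/-! Module NK-Lift: integral approximations of integral vectors over a completion. -/

set_option linter.unusedSectionVars false

namespace NKHP

open NumberField GenHP NFHP Finset Filter Topology
open IsDedekindDomain

variable {K : Type} [Field K] [NumberField K]

private theorem az_approx (v : HeightOneSpectrum (𝓞 K)) (L : ℕ) (y : v.adicCompletion K)
    (hy : Valued.v y ≤ 1) : ∃ c : 𝓞 K,
      Valued.v (algebraMap (𝓞 K) (v.adicCompletion K) c - y) ≤ WithZero.exp (-(L : ℤ)) := by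
  have hexp : WithZero.exp (-(L : ℤ)) ≠ 0 := WithZero.exp_ne_zero
  have hexp1 : WithZero.exp (-(L : ℤ)) ≤ 1 := by
    rw [← WithZero.exp_zero, WithZero.exp_le_exp]
    omega
  obtain ⟨π, hπ⟩ := HeightOneSpectrum.valuedAdicCompletion_surjective K v (WithZero.exp (-(L : ℤ)))
  have hopen : IsOpen {x : v.adicCompletion K | Valued.v (x - y) < WithZero.exp (-(L : ℤ))} := by
    have h1 := (Valued.isOpen_ball (v.adicCompletion K) (Valued.v.restrict π)).preimage
      (f := fun x => x - y) (continuous_id.sub continuous_const)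
    have h2 : {x : v.adicCompletion K | Valued.v (x - y) < WithZero.exp (-(L : ℤ))} =
        (fun x : v.adicCompletion K => x - y) ⁻¹' {x | Valued.v.restrict x < Valued.v.restrict π} := by
      ext x
      show Valued.v (x - y) < WithZero.exp (-(L : ℤ)) ↔
        Valued.v.restrict (x - y) < Valued.v.restrict π
      rw [Valuation.restrict_lt_iff, hπ]
    rw [h2]
    exact h1
  have hne : {x : v.adicCompletion K | Valued.v (x - y) < WithZero.exp (-(L : ℤ))}.Nonempty := by
    refine ⟨y, ?_⟩
    show Valued.v (y - y) < _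
    rw [sub_self, map_zero]
    exact zero_lt_iff.mpr hexp
  obtain ⟨x, hx⟩ := (HeightOneSpectrum.denseRange_algebraMap K v).exists_mem_open hopen hne
  have hx' : Valued.v ((algebraMap K (v.adicCompletion K)) x - y) < WithZero.exp (-(L : ℤ)) := hx
  have hxv : v.valuation K x ≤ 1 := by
    have h1 : Valued.v ((algebraMap K (v.adicCompletion K)) x) = v.valuation K x :=
      HeightOneSpectrum.valuedAdicCompletion_eq_valuation' v x
    rw [← h1]
    have h2 : (algebraMap K (v.adicCompletion K)) x =
        ((algebraMap K (v.adicCompletion K)) x - y) + y := by ring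
    rw [h2]
    refine (Valuation.map_add _ _ _).trans (max_le (hx'.le.trans hexp1) hy)
  obtain ⟨c, hc⟩ := v.exists_valuation_sub_lt_of_integer hxv (Units.mk0 _ hexp)
  refine ⟨c, ?_⟩
  have h3 : algebraMap (𝓞 K) (v.adicCompletion K) c - y =
      (algebraMap K (v.adicCompletion K)) (algebraMap (𝓞 K) K c - x) +
        ((algebraMap K (v.adicCompletion K)) x - y) := by
    rw [map_sub, ← IsScalarTower.algebraMap_apply (𝓞 K) K (v.adicCompletion K)]
    ring
  rw [h3]
  refine (Valuation.map_add _ _ _).trans (max_le ?_ hx'.le)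
  have h4 : Valued.v ((algebraMap K (v.adicCompletion K)) (algebraMap (𝓞 K) K c - x)) =
      v.valuation K (algebraMap (𝓞 K) K c - x) :=
    HeightOneSpectrum.valuedAdicCompletion_eq_valuation' v _
  rw [h4]
  exact hc.le

/-- the ideal of the elements of valuation at most `γ` -/
private def azJ (v : HeightOneSpectrum (𝓞 K)) (γ : WithZero (Multiplicative ℤ)) :
    Ideal (v.adicCompletionIntegers K) where
  carrier := {x | Valued.v (x : v.adicCompletion K) ≤ γ}
  add_mem' := fun {a b} ha hb => by
    show Valued.v ((a + b : v.adicCompletionIntegers K) : v.adicCompletion K) ≤ γ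
    rw [AddMemClass.coe_add]
    exact (Valuation.map_add _ _ _).trans (max_le ha hb)
  zero_mem' := by
    show Valued.v ((0 : v.adicCompletionIntegers K) : v.adicCompletion K) ≤ γ
    rw [ZeroMemClass.coe_zero, map_zero]
    exact zero_le
  smul_mem' := fun c x hx => by
    show Valued.v ((c • x : v.adicCompletionIntegers K) : v.adicCompletion K) ≤ γ
    rw [smul_eq_mul, MulMemClass.coe_mul, map_mul]
    exact (mul_le_of_le_one_left' c.2).trans hx

/-- the integers of `K` in the integers of the completion -/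
noncomputable def azPhi (v : HeightOneSpectrum (𝓞 K)) : 𝓞 K →+* v.adicCompletionIntegers K :=
  (algebraMap (𝓞 K) (v.adicCompletion K)).codRestrict (v.adicCompletionIntegers K) fun r => by
    rw [HeightOneSpectrum.mem_adicCompletionIntegers]
    have h1 : Valued.v (algebraMap (𝓞 K) (v.adicCompletion K) r) =
      v.valuation K (algebraMap (𝓞 K) K r) := HeightOneSpectrum.valuedAdicCompletion_eq_valuation v r
    rw [h1]
    exact v.valuation_le_one r

theorem azPhi_coe (v : HeightOneSpectrum (𝓞 K)) (r : 𝓞 K) :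
    (v.adicCompletionIntegers K).subtype (azPhi v r) = algebraMap (𝓞 K) (v.adicCompletion K) r := rfl

/-- integral vectors over the completion are approximated by vectors over `𝓞 K` -/
theorem az_lift (v : HeightOneSpectrum (𝓞 K)) (L : ℕ) {ι : Type*}
    (y : ι → v.adicCompletionIntegers K) : ∃ (c : ι → 𝓞 K) (J : Ideal (v.adicCompletionIntegers K)),
      (∀ l, azPhi v (c l) - y l ∈ J) ∧ ∀ r, azPhi v r ∈ J → r ∈ v.asIdeal ^ L := by
  choose c hc using fun l => az_approx v L (y l : v.adicCompletion K) (y l).2
  refine ⟨c, azJ v (WithZero.exp (-(L : ℤ))), fun l => ?_, fun r hr => ?_⟩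
  · show Valued.v ((azPhi v (c l) - y l : v.adicCompletionIntegers K) : v.adicCompletion K) ≤ _
    rw [AddSubgroupClass.coe_sub]
    exact hc l
  · have hr' : Valued.v (algebraMap (𝓞 K) (v.adicCompletion K) r) ≤ WithZero.exp (-(L : ℤ)) := hr
    rw [← v.intValuation_le_pow_iff_mem]
    have h1 : Valued.v (algebraMap (𝓞 K) (v.adicCompletion K) r) =
        v.valuation K (algebraMap (𝓞 K) K r) := HeightOneSpectrum.valuedAdicCompletion_eq_valuation v r
    rw [h1, v.valuation_of_algebraMap] at hr'
    exact hr'

/-- a nonzero vector over the completion, normalised -/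
theorem az_normal (v : HeightOneSpectrum (𝓞 K)) {ι : Type*} [Fintype ι]
    (z : ι → v.adicCompletion K) (hz : ∃ a, z a ≠ 0) :
    ∃ a, z a ≠ 0 ∧ ∀ l, Valued.v ((z a)⁻¹ * z l) ≤ (1 : WithZero (Multiplicative ℤ)) := by
  obtain ⟨a0, ha0⟩ := hz
  obtain ⟨a, -, ha⟩ := Finset.exists_max_image (univ : Finset ι)
    (fun a => (Valued.v (z a) : WithZero (Multiplicative ℤ))) ⟨a0, mem_univ a0⟩
  have hmax : ∀ b, (Valued.v (z b) : WithZero (Multiplicative ℤ)) ≤ Valued.v (z a) :=
    fun b => ha b (mem_univ b)
  refine ⟨a, fun h0 => ?_, fun l => ?_⟩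
  · have h1 := hmax a0
    rw [h0, map_zero] at h1
    exact ha0 ((Valuation.zero_iff _).mp (le_zero_iff.mp h1))
  · rw [map_mul, map_inv₀]
    exact inv_mul_le_one_of_le₀ (hmax l) zero_le

end NKHP
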