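import Pool.Agent.Lib.MP_e426f4_ag.NK.Defs
import Pool.Agent.Lib.MP_e426f4_ag.NK.Lift
import Pool.Agent.Lib.MP_e426f4_ag.N.ApproxInf

/-! Module NK-Els: everywhere locally soluble systems. -/

set_option linter.unusedSectionVars false

namespace NKHP

open NumberField GenHP NFHP Finset Filter Topology
open CIHP (Sys NS Jac nu Bf)
open IsDedekindDomain

variable {K : Type} [Field K] [NumberField K] {n r : ℕ} {e : Fin r → ℕ}

/-- The system has zeros over all completions. -/
def ELSS (A : Sys n e (𝓞 K)) : Prop :=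
  (∀ v : HeightOneSpectrum (𝓞 K), ∃ z : Fin (n + 1) → v.adicCompletion K, z ≠ 0 ∧
      ∀ i, F (fun t => algebraMap (𝓞 K) (v.adicCompletion K) (A i t)) z = 0) ∧
    ∀ w : InfinitePlace K, ∃ z : Fin (n + 1) → w.Completion, z ≠ 0 ∧
      ∀ i, F (fun t => algebraMap (𝓞 K) w.Completion (A i t)) z = 0

private theorem els_transfer {L : Type*} [Field L] [Algebra K L] [Algebra (𝓞 K) L]
    [IsScalarTower (𝓞 K) K L] (A : Sys n e (𝓞 K)) (h : SolubleS A) :
    ∃ z : Fin (n + 1) → L, z ≠ 0 ∧ ∀ i, F (fun t => algebraMap (𝓞 K) L (A i t)) z = 0 := by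
  obtain ⟨x, hx, hF⟩ := h
  refine ⟨fun i => algebraMap K L (x i), ?_, fun i => ?_⟩
  · intro h0
    apply hx
    funext i
    exact (map_eq_zero (algebraMap K L)).mp (congrFun h0 i)
  · have h1 := F_map (algebraMap K L) (fun t => ((A i t : 𝓞 K) : K)) x
    rw [hF i, map_zero] at h1
    rw [← h1]
    congr 1
    funext t
    exact IsScalarTower.algebraMap_apply (𝓞 K) K L (A i t)

theorem els_of_solubleS (A : Sys n e (𝓞 K)) (h : SolubleS A) : ELSS A :=
  ⟨fun _ => els_transfer A h, fun _ => els_transfer A h⟩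

theorem locPS_of_completion (v : HeightOneSpectrum (𝓞 K)) (A : Sys n e (𝓞 K))
    (h : ∃ z : Fin (n + 1) → v.adicCompletion K, z ≠ 0 ∧
      ∀ i, F (fun t => algebraMap (𝓞 K) (v.adicCompletion K) (A i t)) z = 0) :
    LocPS v.asIdeal A := by
  obtain ⟨z, hz, hF⟩ := h
  obtain ⟨a, hza, hle⟩ := az_normal v z (Function.ne_iff.mp hz)
  intro L
  let y : Fin (n + 1) → v.adicCompletionIntegers K := fun l => ⟨(z a)⁻¹ * z l, hle l⟩
  have hya : y a = 1 := Subtype.ext (inv_mul_cancel₀ hza)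
  obtain ⟨c, J, hcJ, hJ⟩ := az_lift v (L + 1) y
  refine ⟨c, ⟨a, ?_⟩, fun i => ?_⟩
  · intro hca
    have h1 := hcJ a
    rw [hya, ← map_one (azPhi v), ← map_sub] at h1
    have h3 : c a - 1 ∈ v.asIdeal := Ideal.pow_le_self (by omega) (hJ _ h1)
    have h4 : (1 : 𝓞 K) ∈ v.asIdeal := by
      have := sub_mem hca h3
      simpa using this
    exact v.isPrime.ne_top ((Ideal.eq_top_iff_one _).mpr h4)
  · have hy : F (fun t => azPhi v (A i t)) y = 0 := by
      have h1 : (v.adicCompletionIntegers K).subtype (F (fun t => azPhi v (A i t)) y) = 0 := by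
        rw [← F_map]
        have h2 : (fun l => (v.adicCompletionIntegers K).subtype (y l)) =
            fun l => (z a)⁻¹ * z l := rfl
        have h3 : (fun t => (v.adicCompletionIntegers K).subtype (azPhi v (A i t))) =
            fun t => algebraMap (𝓞 K) (v.adicCompletion K) (A i t) := rfl
        rw [h2, h3, F_scale, hF i, mul_zero]
      exact Subtype.ext h1
    have h1 : Ideal.Quotient.mk J (F (fun t => azPhi v (A i t)) (fun l => azPhi v (c l))) = 0 := by
      rw [← F_map]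
      have h2 : (fun l => Ideal.Quotient.mk J (azPhi v (c l))) =
          fun l => Ideal.Quotient.mk J (y l) := by
        funext l
        exact (Ideal.Quotient.eq).mpr (hcJ l)
      rw [h2, F_map, hy, map_zero]
    rw [F_map, Ideal.Quotient.eq_zero_iff_mem] at h1
    exact Ideal.pow_le_pow_right (by omega) (hJ _ h1)

theorem locIS_of_completion (w : InfinitePlace K) (A : Sys n e (𝓞 K))
    (h : ∃ z : Fin (n + 1) → w.Completion, z ≠ 0 ∧
      ∀ i, F (fun t => algebraMap (𝓞 K) w.Completion (A i t)) z = 0) :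
    LocIS w (sgS w A) := by
  obtain ⟨z, hz, hF⟩ := h
  set φ := InfinitePlace.Completion.extensionEmbedding w with hφ
  have hF' : ∀ i, F (fun t => sg w (A i t)) (fun i => φ (z i)) = 0 := by
    intro i
    have h1 := F_map φ (fun t => algebraMap (𝓞 K) w.Completion (A i t)) z
    rw [hF i, map_zero] at h1
    rw [← h1]
    congr 1
    funext t
    exact (ext_algebraMap w (A i t)).symm
  obtain ⟨a, -, ha⟩ := Finset.exists_max_image (univ : Finset (Fin (n + 1)))
    (fun a => ‖φ (z a)‖) ⟨0, mem_univ 0⟩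
  have hmax : ∀ b, ‖φ (z b)‖ ≤ ‖φ (z a)‖ := fun b => ha b (mem_univ b)
  have hza : φ (z a) ≠ 0 := by
    intro h0
    apply hz
    funext b
    have h1 := hmax b
    rw [h0, norm_zero] at h1
    exact (map_eq_zero φ).mp (norm_le_zero_iff.mp h1)
  have hpos : 0 < ‖φ (z a)‖ := norm_pos_iff.mpr hza
  refine ⟨fun i => (φ (z a))⁻¹ * φ (z i), ⟨fun hw i => ?_, fun i => ?_, a, ?_⟩, fun i => ?_⟩
  · have h1 : ∀ x : w.Completion, ((InfinitePlace.Completion.extensionEmbeddingOfIsReal hw x : ℝ) : ℂ)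
        = φ x := fun x => InfinitePlace.Completion.extensionEmbeddingOfIsReal_apply hw x
    show ((φ (z a))⁻¹ * φ (z i)).im = 0
    rw [← h1, ← h1, ← Complex.ofReal_inv, ← Complex.ofReal_mul]
    exact Complex.ofReal_im _
  · show ‖(φ (z a))⁻¹ * φ (z i)‖ ≤ 1
    rw [norm_mul, norm_inv, inv_mul_le_iff₀ hpos, mul_one]
    exact hmax i
  · show ‖(φ (z a))⁻¹ * φ (z a)‖ = 1
    rw [inv_mul_cancel₀ hza, norm_one]
  · show F (fun t => sg w (A i t)) (fun i => (φ (z a))⁻¹ * φ (z i)) = 0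
    rw [F_scale, hF' i, mul_zero]

theorem ELSeS_of_ELSS (A : Sys n e (𝓞 K)) (h : ELSS A) : ELSeS A := by
  refine ⟨fun P hP => ?_, fun w => locIS_of_completion w A (h.2 w)⟩
  have hP0 : P ≠ ⊥ := Ring.ne_bot_of_isMaximal_of_not_isField hP (RingOfIntegers.not_isField K)
  exact locPS_of_completion ⟨P, hP.isPrime, hP0⟩ A (h.1 ⟨P, hP.isPrime, hP0⟩)

end NKHP
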