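import Pool.Agent.Lib.MP_e426f4_ag.NK.Basic
import Pool.Agent.Lib.MP_e426f4_ag.N.CubeCount

/-!
NK-Equi: at most the expected proportion of the box lies in a union of residue classes, for an arbitrary finite index type and for systems. Template: N/Equi.lean (Idx n d replaced by I: same proof). box_classes_leS: transport along Sys n e = functions on the sigma type (i : Fin r) x Idx n (e i) (Equiv.piCurry / Set.ncard_image_of_injective), card = NS n e.
-/

namespace NKHP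

open NumberField GenHP NFHP Finset Filter Topology
open CIHP (Sys NS Jac nu Bf)

variable {K : Type} [Field K] [NumberField K] {n r : ℕ} {e : Fin r → ℕ}

/-- one class -/
private theorem equi_oneG (I : Type) [Fintype I] [DecidableEq I] (b : Ideal (𝓞 K)) (C H : ℝ)
    (hfin : ∀ r : 𝓞 K, {a : 𝓞 K | a - r ∈ b ∧ ∀ j, |(crd a j : ℝ) - 0| ≤ H}.Finite)
    (hcard : ∀ r : 𝓞 K,
      (Set.ncard {a : 𝓞 K | a - r ∈ b ∧ ∀ j, |(crd a j : ℝ) - 0| ≤ H} : ℝ) ≤ C)
    (s : I → 𝓞 K ⧸ b) :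
    {A : I → 𝓞 K | (∀ t j, |(crd (A t) j : ℝ)| ≤ H) ∧
      (fun t => Ideal.Quotient.mk b (A t)) = s}.Finite ∧
    (Set.ncard {A : I → 𝓞 K | (∀ t j, |(crd (A t) j : ℝ)| ≤ H) ∧
      (fun t => Ideal.Quotient.mk b (A t)) = s} : ℝ) ≤ C ^ Fintype.card I := by
  classical
  have hr : ∀ t, ∃ r : 𝓞 K, Ideal.Quotient.mk b r = s t := fun t =>
    Ideal.Quotient.mk_surjective (s t)
  choose r hr using hr
  have e : {A : I → 𝓞 K | (∀ t j, |(crd (A t) j : ℝ)| ≤ H) ∧
      (fun t => Ideal.Quotient.mk b (A t)) = s} =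
      ((Fintype.piFinset fun t => (hfin (r t)).toFinset : Finset (I → 𝓞 K)) :
        Set (I → 𝓞 K)) := by
    ext A
    simp only [Set.mem_ofPred_eq, Finset.mem_coe, Fintype.mem_piFinset, Set.Finite.mem_toFinset,
      sub_zero]
    constructor
    · rintro ⟨h1, h2⟩ t
      refine ⟨?_, h1 t⟩
      rw [← Ideal.Quotient.eq, hr t]
      exact congrFun h2 t
    · intro h
      refine ⟨fun t => (h t).2, ?_⟩
      funext t
      have := (h t).1
      rw [← Ideal.Quotient.eq, hr t] at this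
      exact this
  rw [e]
  refine ⟨Finset.finite_toSet _, ?_⟩
  rw [Set.ncard_coe_finset, Fintype.card_piFinset]
  push_cast
  have h1 : ∀ t : I, ((hfin (r t)).toFinset.card : ℝ) ≤ C := by
    intro t
    have := hcard (r t)
    rwa [Set.ncard_eq_toFinset_card _ (hfin (r t))] at this
  calc ∏ t, ((hfin (r t)).toFinset.card : ℝ) ≤ ∏ _t : I, C :=
        Finset.prod_le_prod (fun t _ => Nat.cast_nonneg _) fun t _ => h1 t
    _ = C ^ Fintype.card I := by rw [Finset.prod_const, Finset.card_univ]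

theorem box_classes_leG (I : Type) [Fintype I] [DecidableEq I] (b : Ideal (𝓞 K)) (hb : b ≠ ⊥)
    (S : Set (I → 𝓞 K ⧸ b)) :
    ∀ᶠ H : ℕ in atTop,
      (Set.ncard {A : I → 𝓞 K | (∀ t j, |(crd (A t) j : ℝ)| ≤ H) ∧
        (fun t => Ideal.Quotient.mk b (A t)) ∈ S} : ℝ) ≤
        2 * (S.ncard : ℝ) / (Ideal.absNorm b : ℝ) ^ Fintype.card I *
          (2 * H + 1) ^ (mK K * Fintype.card I) := by
  classical
  have hfinq : Finite (𝓞 K ⧸ b) := Ideal.finiteQuotientOfFreeOfNeBot b hb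
  have hS : S.Finite := Set.toFinite S
  have hlog : 0 < Real.log 2 := Real.log_pos (by norm_num)
  obtain ⟨M, hM⟩ : ∃ M : ℕ, M = Fintype.card I := ⟨_, rfl⟩
  rw [← hM]
  set e : ℝ := Real.log 2 / ((M : ℝ) + 1) with he
  have he0 : 0 < e := by positivity
  have he1 : (1 + e) ^ M ≤ 2 := by
    have h1 : 1 + e ≤ Real.exp e := by
      have := Real.add_one_le_exp e
      linarith
    calc (1 + e) ^ M ≤ Real.exp e ^ M := pow_le_pow_left₀ (by positivity) h1 _
      _ = Real.exp (M * e) := by rw [← Real.exp_nat_mul]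
      _ ≤ Real.exp (Real.log 2) := by
          apply Real.exp_le_exp.mpr
          rw [he, ← mul_div_assoc, div_le_iff₀ (by positivity)]
          nlinarith
      _ = 2 := Real.exp_log (by norm_num)
  obtain ⟨R0, hR0, hR⟩ := cube_count b hb e he0
  have hN : (0 : ℝ) < Ideal.absNorm b := by exact_mod_cast absNorm_pos hb
  filter_upwards [eventually_ge_atTop ⌈R0⌉₊] with H hH
  have hH' : R0 ≤ (H : ℝ) := (Nat.le_ceil R0).trans (by exact_mod_cast hH)
  set C : ℝ := (1 + e) * ((2 * (H : ℝ)) ^ mK K / Ideal.absNorm b) with hC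
  have hone := fun s : I → 𝓞 K ⧸ b => equi_oneG I b C H
    (fun r => (hR H hH' (fun _ => 0) r).1) (fun r => (hR H hH' (fun _ => 0) r).2.2) s
  rw [← hM] at hone
  have hsub : {A : I → 𝓞 K | (∀ t j, |(crd (A t) j : ℝ)| ≤ H) ∧
      (fun t => Ideal.Quotient.mk b (A t)) ∈ S} ⊆
      ⋃ s ∈ hS.toFinset, {A : I → 𝓞 K | (∀ t j, |(crd (A t) j : ℝ)| ≤ H) ∧
        (fun t => Ideal.Quotient.mk b (A t)) = s} := by
    rintro A ⟨h1, h2⟩
    rw [Set.mem_iUnion₂]
    exact ⟨_, hS.mem_toFinset.mpr h2, h1, rfl⟩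
  have h1 : (Set.ncard {A : I → 𝓞 K | (∀ t j, |(crd (A t) j : ℝ)| ≤ H) ∧
      (fun t => Ideal.Quotient.mk b (A t)) ∈ S} : ℝ) ≤ ∑ s ∈ hS.toFinset,
        (Set.ncard {A : I → 𝓞 K | (∀ t j, |(crd (A t) j : ℝ)| ≤ H) ∧
          (fun t => Ideal.Quotient.mk b (A t)) = s} : ℝ) := by
    have h2 := Set.ncard_le_ncard hsub
      (Set.Finite.biUnion hS.toFinset.finite_toSet fun s _ => (hone s).1)
    have h3 := Finset.set_ncard_biUnion_le hS.toFinset
      (fun s => {A : I → 𝓞 K | (∀ t j, |(crd (A t) j : ℝ)| ≤ H) ∧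
        (fun t => Ideal.Quotient.mk b (A t)) = s})
    exact_mod_cast h2.trans h3
  refine h1.trans ((Finset.sum_le_sum fun s _ => (hone s).2).trans ?_)
  rw [Finset.sum_const, ← Set.ncard_eq_toFinset_card S hS, nsmul_eq_mul]
  have h4 : C ^ M ≤ 2 * ((2 * (H : ℝ) + 1) ^ (mK K * M) /
      (Ideal.absNorm b : ℝ) ^ M) := by
    rw [hC, mul_pow, div_pow, ← pow_mul]
    have h5 : (2 * (H : ℝ)) ^ (mK K * M) ≤ (2 * (H : ℝ) + 1) ^ (mK K * M) :=
      pow_le_pow_left₀ (by positivity) (by linarith) _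
    gcongr
  calc (S.ncard : ℝ) * C ^ M ≤ (S.ncard : ℝ) * (2 * ((2 * (H : ℝ) + 1) ^ (mK K * M) /
        (Ideal.absNorm b : ℝ) ^ M)) := mul_le_mul_of_nonneg_left h4 (Nat.cast_nonneg _)
    _ = _ := by ring

/-- functions on the sigma type -/
private def unc {X : Type} (g : (i : Fin r) → Idx n (e i) → X) :
    (Σ i : Fin r, Idx n (e i)) → X := fun q => g q.1 q.2

private theorem unc_injective {X : Type} :
    Function.Injective (unc : ((i : Fin r) → Idx n (e i) → X) → _) := by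
  intro g g' h
  funext i t
  exact congrFun h ⟨i, t⟩

theorem box_classes_leS (b : Ideal (𝓞 K)) (hb : b ≠ ⊥)
    (S : Set ((i : Fin r) → Idx n (e i) → 𝓞 K ⧸ b)) :
    ∀ᶠ H : ℕ in atTop,
      (Set.ncard {A : Sys n e (𝓞 K) | A ∈ BoxS K n e H ∧
        (fun i t => Ideal.Quotient.mk b (A i t)) ∈ S} : ℝ) ≤
        2 * (S.ncard : ℝ) / (Ideal.absNorm b : ℝ) ^ NS n e * (2 * H + 1) ^ (mK K * NS n e) := by
  classical
  have hcard : Fintype.card (Σ i : Fin r, Idx n (e i)) = NS n e := by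
    rw [Fintype.card_sigma]
    rfl
  have h1 := box_classes_leG (Σ i : Fin r, Idx n (e i)) b hb (unc '' S)
  rw [Set.ncard_image_of_injective S unc_injective, hcard] at h1
  filter_upwards [h1] with H hH
  have hset : {A : (Σ i : Fin r, Idx n (e i)) → 𝓞 K | (∀ t j, |(crd (A t) j : ℝ)| ≤ H) ∧
        (fun t => Ideal.Quotient.mk b (A t)) ∈ unc '' S} =
      unc '' {A : Sys n e (𝓞 K) | A ∈ BoxS K n e H ∧
        (fun i t => Ideal.Quotient.mk b (A i t)) ∈ S} := by
    ext A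
    constructor
    · rintro ⟨h2, g, hg, hgA⟩
      refine ⟨fun i t => A ⟨i, t⟩, ⟨fun i t j => h2 ⟨i, t⟩ j, ?_⟩, ?_⟩
      · have h3 : (fun i t => Ideal.Quotient.mk b (A ⟨i, t⟩)) = g := by
          funext i t
          exact (congrFun hgA ⟨i, t⟩).symm
        rw [h3]
        exact hg
      · rfl
    · rintro ⟨A', ⟨h2, h3⟩, rfl⟩
      refine ⟨fun q j => h2 q.1 q.2 j, ?_⟩
      exact ⟨_, h3, rfl⟩
  rw [hset, Set.ncard_image_of_injective _ unc_injective] at hH
  exact hH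

end NKHP
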