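import Pool.Agent.Lib.MP_e426f4_ag.NK.Defs
import Pool.Agent.Lib.MP_e426f4_ag.NK.SpanTwo
import Pool.Agent.Lib.MP_e426f4_ag.N.Minors
import Pool.Agent.Lib.MP_e426f4_ag.CI.Transference

/-! A pair of points which is not fine has a bounded functional. -/

namespace NKHP

open NumberField GenHP NFHP Finset Filter Topology

variable {K : Type} [Field K] [NumberField K] {n d : ℕ}

/-- the products of the vectors of the frames with the vectors of the integral basis -/
noncomputable def fnG (w v : Fin n → Fin (n + 1) → 𝓞 K) (q : IK K × Fin n × Fin n)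
    (t : Idx n 2) : 𝓞 K :=
  RingOfIntegers.basis K q.1 * T ![w q.2.1, v q.2.2] t

theorem fnG_F (w v : Fin n → Fin (n + 1) → 𝓞 K) (q : IK K × Fin n × Fin n)
    (z : Fin (n + 1) → 𝓞 K) :
    F (fnG w v q) z = RingOfIntegers.basis K q.1 * F (T ![w q.2.1, v q.2.2]) z :=
  F_smul _ _ z

theorem norm_basis_le (l : IK K) (u : InfinitePlace K) :
    ‖sg u (RingOfIntegers.basis K l)‖ ≤ cK K := by
  have h := norm_sg_le_of_crd (a := RingOfIntegers.basis K l) (R := 1) (fun j => by
    have h1 : crd (RingOfIntegers.basis K l) j = Finsupp.single l (1 : ℤ) j := by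
      unfold crd
      rw [Module.Basis.repr_self]
    rw [h1, Finsupp.single_apply]
    split_ifs <;> simp) u
  rwa [mul_one] at h

theorem fnG_norm_le (w v : Fin n → Fin (n + 1) → 𝓞 K) (mu : ℝ)
    (hmu : 0 ≤ mu) (hw : ∀ k i u, ‖sg u (w k i)‖ ≤ mu) (hv : ∀ k i u, ‖sg u (v k i)‖ ≤ mu)
    (q : IK K × Fin n × Fin n) (t : Idx n 2) (u : InfinitePlace K) :
    ‖sg u (fnG w v q t)‖ ≤ cK K * (((n : ℝ) + 1) ^ 2 * mu ^ 2) := by
  unfold fnG
  rw [map_mul, norm_mul]
  refine mul_le_mul (norm_basis_le _ _) ?_ (norm_nonneg _) (cK_pos (K := K)).le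
  rw [← T_sg]
  refine (T_norm_le _ t).trans ?_
  rw [Fin.prod_univ_two]
  have h : ∀ z : Fin (n + 1) → 𝓞 K, (∀ a, ‖sg u (z a)‖ ≤ mu) →
      ∑ a, ‖sg u (z a)‖ ≤ ((n : ℝ) + 1) * mu := by
    intro z hz
    calc ∑ a, ‖sg u (z a)‖ ≤ ∑ _a : Fin (n + 1), mu := Finset.sum_le_sum fun a _ => hz a
      _ = ((n : ℝ) + 1) * mu := by simp
  have h1 := h (w q.2.1) fun a => hw q.2.1 a u
  have h2 := h (v q.2.2) fun a => hv q.2.2 a u
  calc (∑ a, ‖sg u ((![w q.2.1, v q.2.2] : Fin 2 → Fin (n + 1) → 𝓞 K) 0 a)‖) *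
        ∑ a, ‖sg u ((![w q.2.1, v q.2.2] : Fin 2 → Fin (n + 1) → 𝓞 K) 1 a)‖ =
        (∑ a, ‖sg u (w q.2.1 a)‖) * ∑ a, ‖sg u (v q.2.2 a)‖ := by simp
    _ ≤ (((n : ℝ) + 1) * mu) * (((n : ℝ) + 1) * mu) :=
        mul_le_mul h1 h2 (Finset.sum_nonneg fun _ _ => norm_nonneg _) (by positivity)
    _ = ((n : ℝ) + 1) ^ 2 * mu ^ 2 := by ring

/-- a rational linear map of the real numbers to the rational numbers which is the identity on the
rational numbers -/
theorem exists_rho : ∃ ρ : ℝ →ₗ[ℚ] ℚ, ∀ m : ℤ, ρ (m : ℝ) = m := by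
  obtain ⟨g, hg⟩ := LinearMap.exists_leftInverse_of_injective (Algebra.linearMap ℚ ℝ)
    (LinearMap.ker_eq_bot.mpr (algebraMap ℚ ℝ).injective)
  refine ⟨g, fun m => ?_⟩
  have h1 := LinearMap.congr_fun hg (m : ℚ)
  simp only [LinearMap.comp_apply, Algebra.linearMap_apply, LinearMap.id_apply, map_intCast] at h1
  exact h1

/-- the real coordinates of a vector over `K` -/
noncomputable def fnC (n : ℕ) (K : Type) [Field K] [NumberField K] :
    (Idx n 2 → K) →ₗ[ℚ] (Idx n 2 × IK K → ℝ) where
  toFun A q := ((integralBasis K).repr (A q.1) q.2 : ℝ)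
  map_add' A A' := by
    funext q
    simp
  map_smul' c A := by
    funext q
    show (((integralBasis K).repr (c • A q.1) q.2 : ℚ) : ℝ) =
      (c • fun q : Idx n 2 × IK K => ((integralBasis K).repr (A q.1) q.2 : ℝ)) q
    rw [map_smul, Finsupp.smul_apply, smul_eq_mul, Pi.smul_apply, Rat.smul_def, Rat.cast_mul]

theorem fnC_apply (A : Idx n 2 → 𝓞 K) (q : Idx n 2 × IK K) :
    fnC n K (fun t => ((A t : 𝓞 K) : K)) q = (crd (A q.1) q.2 : ℝ) := by
  have h : (integralBasis K).repr ((A q.1 : 𝓞 K) : K) q.2 = ((crd (A q.1) q.2 : ℤ) : ℚ) := by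
    have := integralBasis_repr_apply K (A q.1) q.2
    simpa [crd] using this
  show (((integralBasis K).repr ((A q.1 : 𝓞 K) : K) q.2 : ℚ) : ℝ) = _
  rw [h]
  simp

/-- for a pair of points which is not fine there is a bounded integral array of values of a
rational linear functional on the integral multiples of the products of the vectors of the frames -/
theorem fine_or_functional (K : Type) [Field K] [NumberField K] (n : ℕ) (hn : 1 ≤ n) (R R0 : ℝ)
    (hR : 1 ≤ R) (hR0 : 0 < R0) :
    ∃ Q0 : ℕ, ∀ B : ℕ, 1 ≤ B → ∀ E : ℝ, 0 < E → (B : ℝ) ^ (2 / (n : ℝ)) ≤ R0 * E →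
    ∀ x y : Fin (n + 1) → 𝓞 K, mgI x y ≠ ⊥ → ∀ w v : Fin n → Fin (n + 1) → 𝓞 K,
      LinearIndependent K (fun k : Fin n => fun i : Fin (n + 1) => ((w k i : 𝓞 K) : K)) →
      LinearIndependent K (fun k : Fin n => fun i : Fin (n + 1) => ((v k i : 𝓞 K) : K)) →
      (∀ k, ∑ i, w k i * x i = 0) → (∀ k, ∑ i, v k i * y i = 0) →
      (∀ k i u, ‖sg u (w k i)‖ ≤ R * (B : ℝ) ^ (1 / (n : ℝ))) →
      (∀ k i u, ‖sg u (v k i)‖ ≤ R * (B : ℝ) ^ (1 / (n : ℝ))) →
      ¬ FineD n 2 E x y →
      ∃ (N : IK K → Fin n → Fin n → ℤ) (φ : (Idx n 2 → K) →ₗ[ℚ] ℚ), N ≠ 0 ∧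
        (∀ l i j, |N l i j| ≤ (Q0 : ℤ)) ∧
        ∀ l i j, φ (fun t => ((RingOfIntegers.basis K l * T ![w i, v j] t : 𝓞 K) : K)) =
          N l i j := by
  classical
  have hn0 : (0 : ℝ) < n := by exact_mod_cast hn
  have hc0 := cK_pos (K := K)
  have hm0 : (0 : ℝ) < Fintype.card (IK K × Fin n × Fin n) := by
    have h1 : 0 < Fintype.card (IK K × Fin n × Fin n) := by
      rw [Fintype.card_prod, Fintype.card_prod, Fintype.card_fin, card_IK]
      have := mK_pos (K := K)
      positivity
    exact_mod_cast h1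
  set M : ℝ := (Fintype.card (IK K × Fin n × Fin n) : ℝ) with hM
  set del : ℝ := 1 / (M * cK K * (cK K ^ 2 * ((n : ℝ) + 1) ^ 2 * R ^ 2) * R0) with hdel
  have hdel0 : 0 < del := by positivity
  obtain ⟨Q0, hQ0⟩ := CIHP.transference (IK K × Fin n × Fin n) del hdel0
  refine ⟨Q0, ?_⟩
  intro B hB E hE hBE x y hxy w v hw hv hwx hvy hwb hvb hnf
  have hB0 : (0 : ℝ) < B := by exact_mod_cast hB
  set mu : ℝ := R * (B : ℝ) ^ (1 / (n : ℝ)) with hmu
  have hmu0 : 0 < mu := by positivity
  set la : ℝ := cK K * (cK K * (((n : ℝ) + 1) ^ 2 * mu ^ 2)) with hla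
  have hla0 : 0 < la := by positivity
  have hmu2 : mu ^ 2 = R ^ 2 * (B : ℝ) ^ (2 / (n : ℝ)) := by
    rw [hmu, mul_pow, ← Real.rpow_natCast ((B : ℝ) ^ (1 / (n : ℝ))) 2, ← Real.rpow_mul hB0.le]
    congr 2
    push_cast
    ring
  have hcr : ∀ q t j, |(crd (fnG w v q t) j : ℝ)| ≤ la := fun q t j =>
    crd_le_of_norm_sg (fun u => fnG_norm_le w v mu hmu0.le hwb hvb q t u) j
  obtain ⟨g, hg⟩ : ∃ g : IK K × Fin n × Fin n → Idx n 2 × IK K → ℝ,
      g = fun q p => (crd (fnG w v q p.1) p.2 : ℝ) / la := ⟨_, rfl⟩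
  have hgap : ∀ q p, (crd (fnG w v q p.1) p.2 : ℝ) = la * g q p := by
    intro q p
    rw [hg]
    field_simp
  have hg1 : ∀ q p, |g q p| ≤ 1 := by
    intro q p
    rw [hg]
    show |(crd (fnG w v q p.1) p.2 : ℝ) / la| ≤ 1
    rw [abs_div, abs_of_pos hla0, div_le_one hla0]
    exact hcr q p.1 p.2
  rcases hQ0 g hg1 with ⟨m, a, hm, ha, hspan⟩ | ⟨N, φ, hN0, hNb, hφ⟩
  · -- the pair is fine
    exfalso
    apply hnf
    obtain ⟨G, hG⟩ : ∃ G : Fin m → Idx n 2 → 𝓞 K,
        G = fun q t => ∑ i, (a q i : 𝓞 K) * fnG w v i t := ⟨_, rfl⟩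
    have hval : ∀ q t j, (crd (G q t) j : ℝ) = la * ∑ i, (a q i : ℝ) * g i (t, j) := by
      intro q t j
      rw [hG]
      simp only
      rw [crd_sum]
      push_cast
      rw [Finset.mul_sum]
      refine Finset.sum_congr rfl fun i _ => ?_
      rw [crd_intCast_mul]
      push_cast
      have h1 := hgap i (t, j)
      simp only at h1
      rw [h1]
      ring
    refine ⟨m, G, ?_, ?_, ?_⟩
    · intro q
      have h1 : ∀ z : Fin (n + 1) → 𝓞 K, (∀ i, F (fnG w v i) z = 0) → F (G q) z = 0 := by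
        intro z hz
        rw [hG]
        unfold F at hz ⊢
        simp only [Finset.sum_mul]
        rw [Finset.sum_comm]
        refine Finset.sum_eq_zero fun i _ => ?_
        have h2 := hz i
        have h3 : ∀ t : Idx n 2, (a q i : 𝓞 K) * fnG w v i t * mon z t.1 =
            (a q i : 𝓞 K) * (fnG w v i t * mon z t.1) := fun t => by ring
        simp only [h3]
        rw [← Finset.mul_sum, h2, mul_zero]
      refine ⟨h1 x fun i => ?_, h1 y fun i => ?_⟩
      · rw [fnG_F, F_T_eq_zero _ x 0 (hwx i.2.1), mul_zero]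
      · rw [fnG_F, F_T_eq_zero _ y 1 (hvy i.2.2), mul_zero]
    · intro q t u
      have h1 : ‖sg u (G q t)‖ ≤ cK K * (la * del) := by
        refine norm_sg_le_of_crd (fun j => ?_) u
        rw [hval, abs_mul, abs_of_pos hla0]
        exact mul_le_mul_of_nonneg_left (ha q (t, j)) hla0.le
      have hm' : (m : ℝ) ≤ M := by
        rw [hM]
        exact_mod_cast hm
      calc (m : ℝ) * ‖sg u (G q t)‖ ≤ M * (cK K * (la * del)) :=
            mul_le_mul hm' h1 (norm_nonneg _) hm0.le
        _ = (B : ℝ) ^ (2 / (n : ℝ)) / R0 := by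
            rw [hla, hmu2, hdel]
            field_simp
        _ ≤ E := by
            rw [div_le_iff₀ hR0]
            linarith
    · intro u A hAx hAy
      obtain ⟨i0, j0, hij⟩ := exists_minor_ne_zero x y hxy
      have hδ : sg u (x i0) * sg u (y j0) - sg u (x j0) * sg u (y i0) ≠ 0 := by
        have h1 := sg_ne_zero u hij
        unfold NFHP.minor at h1
        rw [map_sub, map_mul, map_mul] at h1
        exact h1
      have hAs := span_twoC (fun i => sg u (x i)) (fun i => sg u (y i)) i0 j0 hδ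
        (fun k i => sg u (w k i)) (fun k i => sg u (v k i)) (linearIndependent_sg w hw u)
        (linearIndependent_sg v hv u)
        (fun k => by
          have h1 : sg u (∑ i, w k i * x i) = 0 := by rw [hwx k, map_zero]
          rw [map_sum] at h1
          simpa only [map_mul] using h1)
        (fun k => by
          have h1 : sg u (∑ i, v k i * y i) = 0 := by rw [hvy k, map_zero]
          rw [map_sum] at h1
          simpa only [map_mul] using h1) A hAx hAy
      -- the products are in the span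
      have h2 : ∀ i, (fun t => sg u (fnG w v i t)) ∈
          Submodule.span ℂ (Set.range fun q : Fin m => fun t => sg u (G q t)) := by
        intro i
        have h3 := hspan i
        rw [Submodule.mem_span_range_iff_exists_fun] at h3
        obtain ⟨c, hc⟩ := h3
        rw [Submodule.mem_span_range_iff_exists_fun]
        refine ⟨fun q => (c q : ℂ), ?_⟩
        funext t
        rw [Finset.sum_apply]
        have h4 : ∀ j, (crd (fnG w v i t) j : ℝ) = ∑ q, c q * (crd (G q t) j : ℝ) := by
          intro j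
          have h5 := congrFun hc (t, j)
          rw [Finset.sum_apply] at h5
          have h6 := hgap i (t, j)
          simp only at h6
          rw [h6, ← h5, Finset.mul_sum]
          refine Finset.sum_congr rfl fun q _ => ?_
          rw [hval, Pi.smul_apply, smul_eq_mul]
          ring
        have h7 : sg u (fnG w v i t) = ∑ q, (c q : ℂ) * sg u (G q t) := by
          rw [← lam_crd]
          simp only [h4]
          simp only [← lam_crd (G _ t)]
          unfold lam
          push_cast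
          simp only [Finset.sum_mul, Finset.mul_sum]
          rw [Finset.sum_comm]
          refine Finset.sum_congr rfl fun q _ => Finset.sum_congr rfl fun j _ => ?_
          ring
        rw [h7]
        refine Finset.sum_congr rfl fun q _ => ?_
        rw [Pi.smul_apply, smul_eq_mul]
      have hle : Submodule.span ℂ (Set.range fun q : Fin n × Fin n =>
          T ![fun i => sg u (w q.1 i), fun i => sg u (v q.2 i)]) ≤
          Submodule.span ℂ (Set.range fun q : Fin m => fun t => sg u (G q t)) := by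
        rw [Submodule.span_le]
        rintro _ ⟨q, rfl⟩
        rw [SetLike.mem_coe]
        show T ![fun i => sg u (w q.1 i), fun i => sg u (v q.2 i)] ∈ _
        have h8 : T ![fun i => sg u (w q.1 i), fun i => sg u (v q.2 i)] =
            ∑ l : IK K, ((crd (1 : 𝓞 K) l : ℤ) : ℂ) • fun t => sg u (fnG w v (l, q.1, q.2) t) := by
          funext t
          rw [Finset.sum_apply]
          have h9 : T ![fun i => sg u (w q.1 i), fun i => sg u (v q.2 i)] t =
              sg u (T ![w q.1, v q.2] t) := by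
            rw [← T_sg]
            congr 1
            funext k i
            fin_cases k <;> simp
          rw [h9]
          have h10 : T ![w q.1, v q.2] t = ∑ l : IK K, ((crd (1 : 𝓞 K) l : ℤ) : 𝓞 K) *
              fnG w v (l, q.1, q.2) t := by
            unfold fnG
            simp only [← mul_assoc]
            rw [← Finset.sum_mul, sum_crd, one_mul]
          rw [h10, map_sum]
          refine Finset.sum_congr rfl fun l _ => ?_
          rw [map_mul, sg_intCast, Pi.smul_apply, smul_eq_mul]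
        rw [h8]
        exact Submodule.sum_mem _ fun l _ => Submodule.smul_mem _ _ (h2 _)
      have h4 := hle hAs
      rw [Submodule.mem_span_range_iff_exists_fun] at h4
      obtain ⟨c, hc⟩ := h4
      refine ⟨c, fun t => ?_⟩
      rw [← hc, Finset.sum_apply]
      exact Finset.sum_congr rfl fun q _ => by rw [Pi.smul_apply, smul_eq_mul]
  · obtain ⟨ρ, hρ⟩ := exists_rho
    refine ⟨fun l i j => N (l, i, j),
      ρ ∘ₗ (((la⁻¹ • φ).restrictScalars ℚ) ∘ₗ fnC n K), ?_, fun l i j => hNb _, fun l i j => ?_⟩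
    · intro h
      apply hN0
      funext q
      exact congrFun (congrFun (congrFun h q.1) q.2.1) q.2.2
    · rw [LinearMap.comp_apply, LinearMap.comp_apply]
      have h1 : fnC n K (fun t => ((RingOfIntegers.basis K l * T ![w i, v j] t : 𝓞 K) : K)) =
          la • g (l, i, j) := by
        funext p
        rw [fnC_apply, Pi.smul_apply, smul_eq_mul, ← hgap]
        rfl
      rw [h1]
      have h2 : ((la⁻¹ • φ).restrictScalars ℚ) (la • g (l, i, j)) = ((N (l, i, j) : ℤ) : ℝ) := by
        show la⁻¹ • φ (la • g (l, i, j)) = _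
        rw [map_smul, hφ, smul_smul, inv_mul_cancel₀ hla0.ne', one_smul]
      rw [h2, hρ]

end NKHP
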