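import Mathlib

/-! Few frames satisfy a symmetry relation. -/

namespace NKHP

open Finset

/-- a set of vectors with entries in a finite set which are determined by the coordinates off
`i0` -/
theorem count_off {k ι : Type*} [DecidableEq k] [Fintype ι] [DecidableEq ι] (T : Finset k) (i0 : ι)
    (S : Set (ι → k)) (hS : ∀ l ∈ S, ∀ i, l i ∈ T)
    (hinj : ∀ l ∈ S, ∀ l' ∈ S, (∀ i, i ≠ i0 → l i = l' i) → l = l') :
    S.Finite ∧ S.ncard ≤ T.card ^ (Fintype.card ι - 1) := by
  have hsub : S ⊆ ↑(Fintype.piFinset fun _ : ι => T) := by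
    intro l hl
    rw [Finset.mem_coe, Fintype.mem_piFinset]
    exact hS l hl
  have hfin : S.Finite := (Finset.finite_toSet _).subset hsub
  refine ⟨hfin, ?_⟩
  let f : (ι → k) → ({i : ι // i ≠ i0} → k) := fun l i => l i.1
  have h1 : Set.InjOn f S := by
    intro l hl l' hl' h
    refine hinj l hl l' hl' fun i hi => ?_
    exact congrFun h ⟨i, hi⟩
  rw [← Set.InjOn.ncard_image h1]
  have h2 : f '' S ⊆ ↑(Fintype.piFinset fun _ : {i : ι // i ≠ i0} => T) := by
    rintro _ ⟨l, hl, rfl⟩
    rw [Finset.mem_coe, Fintype.mem_piFinset]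
    intro i
    exact hS l hl i.1
  refine (Set.ncard_le_ncard h2 (Finset.finite_toSet _)).trans ?_
  rw [Set.ncard_coe_finset, Fintype.card_piFinset, Finset.prod_const, Finset.card_univ]
  have h3 : Fintype.card {i : ι // i ≠ i0} = Fintype.card ι - 1 := by
    rw [Fintype.card_subtype_compl, Fintype.card_subtype_eq]
  rw [h3]

/-- matrices with entries in a finite set whose row `p` satisfies a linear equation with
nonzero normal vector, both depending on the other rows -/
theorem count_row {k : Type*} [Field k] {n m : ℕ} (T : Finset k) (p : Fin n)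
    (S : Set (Fin n → Fin m → k)) (hS : ∀ l ∈ S, ∀ i a, l i a ∈ T)
    (V : (Fin n → Fin m → k) → Fin m → k) (c : (Fin n → Fin m → k) → k)
    (hV : ∀ l l' : Fin n → Fin m → k, (∀ i, i ≠ p → l i = l' i) → V l = V l')
    (hc : ∀ l l' : Fin n → Fin m → k, (∀ i, i ≠ p → l i = l' i) → c l = c l')
    (h0 : ∀ l ∈ S, V l ≠ 0) (h : ∀ l ∈ S, ∑ a, l p a * V l a = c l) :
    S.Finite ∧ S.ncard ≤ m * T.card ^ (n * m - 1) := by
  classical
  -- pass to functions on `Fin n × Fin m`
  let u : (Fin n → Fin m → k) → (Fin n × Fin m → k) := fun l q => l q.1 q.2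
  have hu : Function.Injective u := by
    intro l l' hll
    funext i a
    exact congrFun hll (i, a)
  let Sa : Fin m → Set (Fin n → Fin m → k) := fun a => {l | l ∈ S ∧ V l a ≠ 0}
  have hSa : ∀ a, (Sa a).Finite ∧ (Sa a).ncard ≤ T.card ^ (n * m - 1) := by
    intro a
    have h1 := count_off T (p, a) (u '' Sa a) (by
      rintro _ ⟨l, hl, rfl⟩ ⟨i, b⟩
      exact hS l hl.1 i b) (by
      rintro _ ⟨l, hl, rfl⟩ _ ⟨l', hl', rfl⟩ hll
      have hrows : ∀ i, i ≠ p → l i = l' i := by
        intro i hi
        funext b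
        exact hll (i, b) (by simp [hi])
      have hVV := hV l l' hrows
      have hcc := hc l l' hrows
      have e1 := h l hl.1
      have e2 := h l' hl'.1
      rw [← hVV, ← hcc, ← e1, ← Finset.add_sum_erase _ _ (Finset.mem_univ a),
        ← Finset.add_sum_erase univ (fun a => l p a * V l a) (Finset.mem_univ a)] at e2
      have e3 : ∑ b ∈ univ.erase a, l' p b * V l b =
          ∑ b ∈ univ.erase a, l p b * V l b := by
        refine Finset.sum_congr rfl fun b hb => ?_
        have hb' : b ≠ a := Finset.ne_of_mem_erase hb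
        have := hll (p, b) (by simp [hb'])
        simp only [u] at this
        rw [this]
      rw [e3] at e2
      have e4 : l' p a * V l a = l p a * V l a := add_right_cancel e2
      have e5 : l' p a = l p a := mul_right_cancel₀ hl.2 e4
      congr 1
      funext i b
      by_cases hi : i = p
      · subst hi
        by_cases hb : b = a
        · subst hb
          exact e5.symm
        · exact hll (i, b) (by simp [hb])
      · rw [hrows i hi])
    rw [Set.ncard_image_of_injective _ hu, Fintype.card_prod, Fintype.card_fin,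
      Fintype.card_fin] at h1
    exact ⟨h1.1.of_finite_image hu.injOn, h1.2⟩
  have hU : S = ⋃ a, Sa a := by
    ext l
    rw [Set.mem_iUnion]
    constructor
    · intro hl
      obtain ⟨a, ha⟩ := Function.ne_iff.mp (h0 l hl)
      exact ⟨a, hl, ha⟩
    · rintro ⟨a, ha⟩
      exact ha.1
  have hfin : S.Finite := by
    rw [hU]
    exact Set.finite_iUnion fun a => (hSa a).1
  refine ⟨hfin, ?_⟩
  have h3 : S.ncard ≤ ∑ a : Fin m, (Sa a).ncard := by
    have : hfin.toFinset ⊆ univ.biUnion fun a => (hSa a).1.toFinset := by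
      intro l hl
      rw [Set.Finite.mem_toFinset, hU, Set.mem_iUnion] at hl
      obtain ⟨a, ha⟩ := hl
      rw [Finset.mem_biUnion]
      exact ⟨a, Finset.mem_univ a, by rwa [Set.Finite.mem_toFinset]⟩
    rw [Set.ncard_eq_toFinset_card _ hfin]
    refine (Finset.card_le_card this).trans (Finset.card_biUnion_le.trans ?_)
    exact Finset.sum_le_sum fun a _ => (Set.ncard_eq_toFinset_card _ (hSa a).1).ge
  refine h3.trans ?_
  calc ∑ a : Fin m, (Sa a).ncard ≤ ∑ _a : Fin m, T.card ^ (n * m - 1) :=
        Finset.sum_le_sum fun a _ => (hSa a).2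
    _ = m * T.card ^ (n * m - 1) := by simp

/-- few frames with entries in a finite subset of a field satisfy a symmetry relation -/
theorem frame_count {k : Type*} [Field k] (n : ℕ) (hn : 3 ≤ n) (S : Finset k)
    (y v : Fin (n + 1) → k) (hvy : ∑ a, v a * y a = 0) (hy : y ≠ 0)
    (t : Fin n → Fin (n + 1) → k) (ht : ∃ i, ∑ a, t i a * v a ≠ 0) :
    {l : Fin n → Fin (n + 1) → k | (∀ i a, l i a ∈ S) ∧
        ∃ c : Fin n → k, ∀ i j, ∑ a, l j a * (t i a + c i * y a) =
          ∑ a, l i a * (t j a + c j * y a)}.Finite ∧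
      Set.ncard {l : Fin n → Fin (n + 1) → k | (∀ i a, l i a ∈ S) ∧
        ∃ c : Fin n → k, ∀ i j, ∑ a, l j a * (t i a + c i * y a) =
          ∑ a, l i a * (t j a + c j * y a)} ≤ 2 * (n + 1) * S.card ^ (n * (n + 1) - 1) := by
  classical
  obtain ⟨i0, hi0⟩ := ht
  obtain ⟨p, hp⟩ : ∃ p, p ≠ i0 := by
    have : Nontrivial (Fin n) := Fin.nontrivial_iff_two_le.mpr (by omega)
    exact exists_ne i0
  obtain ⟨q, hq0, hqp⟩ : ∃ q, q ≠ i0 ∧ q ≠ p := by
    by_contra h
    push Not at h
    have h1 : (Finset.univ : Finset (Fin n)) ⊆ {i0, p} := by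
      intro X _
      rw [Finset.mem_insert, Finset.mem_singleton]
      by_cases hX : X = i0
      · exact Or.inl hX
      · exact Or.inr (h X hX)
    have h2 := Finset.card_le_card h1
    rw [Finset.card_univ, Fintype.card_fin] at h2
    have h3 := Finset.card_le_two (a := i0) (b := p)
    omega
  let z : (Fin n → Fin (n + 1) → k) → Fin n → k := fun l i => ∑ a, l i a * y a
  let dt : (Fin n → Fin (n + 1) → k) → Fin n → Fin n → k := fun l i j => ∑ a, l i a * t j a
  let V : (Fin n → Fin (n + 1) → k) → Fin (n + 1) → k := fun l a =>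
    z l i0 * t q a + (dt l q i0 - dt l i0 q) * y a - z l q * t i0 a
  let c : (Fin n → Fin (n + 1) → k) → k := fun l => z l i0 * dt l q p - z l q * dt l i0 p
  set SS : Set (Fin n → Fin (n + 1) → k) := {l | (∀ i a, l i a ∈ S) ∧
        ∃ c : Fin n → k, ∀ i j, ∑ a, l j a * (t i a + c i * y a) =
          ∑ a, l i a * (t j a + c j * y a)} with hS
  have hkey : ∀ l ∈ SS, ∑ a, l p a * V l a = c l := by
    rintro l ⟨_, κ, hk⟩
    have hk' : ∀ i j, dt l j i + κ i * z l j = dt l i j + κ j * z l i := by
      intro i j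
      have h1 := hk i j
      have h2 : ∀ i j, ∑ a, l j a * (t i a + κ i * y a) = dt l j i + κ i * z l j := by
        intro i j
        simp only [dt, z, Finset.mul_sum]
        rw [← Finset.sum_add_distrib]
        refine Finset.sum_congr rfl fun a _ => ?_
        ring
      rw [h2, h2] at h1
      exact h1
    have h3 : ∑ a, l p a * V l a = z l i0 * dt l p q + (dt l q i0 - dt l i0 q) * z l p -
        z l q * dt l p i0 := by
      have s1 : z l i0 * dt l p q = ∑ a, z l i0 * (l p a * t q a) := Finset.mul_sum _ _ _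
      have s2 : (dt l q i0 - dt l i0 q) * z l p =
          ∑ a, (dt l q i0 - dt l i0 q) * (l p a * y a) := Finset.mul_sum _ _ _
      have s3 : z l q * dt l p i0 = ∑ a, z l q * (l p a * t i0 a) := Finset.mul_sum _ _ _
      rw [s1, s2, s3, ← Finset.sum_add_distrib, ← Finset.sum_sub_distrib]
      refine Finset.sum_congr rfl fun a _ => ?_
      show l p a * (z l i0 * t q a + (dt l q i0 - dt l i0 q) * y a - z l q * t i0 a) = _
      ring
    rw [h3]
    simp only [c]
    have a1 := hk' p q
    have a2 := hk' q i0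
    have a3 := hk' i0 p
    linear_combination (-(z l i0)) * a1 - z l p * a2 - z l q * a3
  -- the two parts
  have hpart1 := count_row S p {l | l ∈ SS ∧ V l ≠ 0} (fun l hl i a => hl.1.1 i a) V c (by
    intro l l' hll
    have e1 : ∀ i, i ≠ p → z l i = z l' i := fun i hi => by simp only [z, hll i hi]
    have e2 : ∀ i j, i ≠ p → dt l i j = dt l' i j := fun i j hi => by simp only [dt, hll i hi]
    funext a
    simp only [V]
    rw [e1 i0 hp.symm, e1 q hqp, e2 q i0 hqp, e2 i0 q hp.symm]) (by
    intro l l' hll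
    have e1 : ∀ i, i ≠ p → z l i = z l' i := fun i hi => by simp only [z, hll i hi]
    have e2 : ∀ i j, i ≠ p → dt l i j = dt l' i j := fun i j hi => by simp only [dt, hll i hi]
    simp only [c]
    rw [e1 i0 hp.symm, e1 q hqp, e2 q p hqp, e2 i0 p hp.symm]) (fun l hl => hl.2)
    (fun l hl => hkey l hl.1)
  have hpart2 := count_row S q {l | l ∈ SS ∧ V l = 0} (fun l hl i a => hl.1.1 i a)
    (fun _ => y) (fun l => z l i0 * (∑ a, t q a * v a) / (∑ a, t i0 a * v a)) (by
    intro l l' _; rfl) (by
    intro l l' hll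
    have e1 : z l i0 = z l' i0 := by simp only [z, hll i0 hq0.symm]
    simp only [e1]) (fun _ _ => hy) (by
    rintro l ⟨_, hl⟩
    have h1 : ∑ a, V l a * v a = 0 := by
      rw [hl]
      simp
    have h2 : ∑ a, V l a * v a = z l i0 * (∑ a, t q a * v a) - z l q * (∑ a, t i0 a * v a) := by
      have h3 : ∑ a, V l a * v a = ∑ a, (z l i0 * (t q a * v a) +
          (dt l q i0 - dt l i0 q) * (v a * y a) - z l q * (t i0 a * v a)) := by
        refine Finset.sum_congr rfl fun a _ => ?_
        show (z l i0 * t q a + (dt l q i0 - dt l i0 q) * y a - z l q * t i0 a) * v a = _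
        ring
      rw [h3, Finset.sum_sub_distrib, Finset.sum_add_distrib, ← Finset.mul_sum,
        ← Finset.mul_sum, ← Finset.mul_sum, hvy]
      ring
    rw [h2] at h1
    show z l q = _
    rw [eq_div_iff hi0]
    exact (sub_eq_zero.mp h1).symm)
  have hSU : SS = {l | l ∈ SS ∧ V l ≠ 0} ∪ {l | l ∈ SS ∧ V l = 0} := by
    ext l
    simp only [Set.mem_union, Set.mem_ofPred_eq]
    tauto
  have hfin : SS.Finite := by
    rw [hSU]
    exact hpart1.1.union hpart2.1
  refine ⟨hfin, ?_⟩
  rw [hSU]
  refine (Set.ncard_union_le _ _).trans ?_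
  have h1 := hpart1.2
  have h2 := hpart2.2
  calc _ ≤ (n + 1) * S.card ^ (n * (n + 1) - 1) + (n + 1) * S.card ^ (n * (n + 1) - 1) :=
        add_le_add h1 h2
    _ = 2 * (n + 1) * S.card ^ (n * (n + 1) - 1) := by ring

end NKHP
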