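import Pool.Agent.Lib.MP_e426f4_ag.NK.Defs
import Pool.Agent.Lib.MP_e426f4_ag.NK.FnFun
import Pool.Agent.Lib.MP_e426f4_ag.NK.FrameCount
import Pool.Agent.Lib.MP_e426f4_ag.N.SumBad
import Pool.Agent.Lib.MP_e426f4_ag.N.Lat
import Pool.Agent.Lib.MP_e426f4_ag.N.CubeCount

/-! Few pairs of points are not fine for quadrics. -/

namespace NKHP

open NumberField GenHP NFHP Finset Filter Topology

/-- the coefficient vector of the product of two linear forms, as a bilinear map -/
noncomputable def BmK (n : ℕ) (k : Type*) [Field k] :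
    (Fin (n + 1) → k) →ₗ[k] (Fin (n + 1) → k) →ₗ[k] (Idx n 2 → k) :=
  LinearMap.mk₂ k (fun u v => T ![u, v])
    (by
      intro u u' v
      have h := T_update_add (![0, v] : Fin 2 → Fin (n + 1) → k) 0 u u'
      have e : ∀ w : Fin (n + 1) → k, Function.update (![0, v] : Fin 2 → Fin (n + 1) → k) 0 w =
          ![w, v] := by
        intro w
        funext i
        fin_cases i <;> simp
      rwa [e, e, e] at h)
    (by
      intro c u v
      have h := T_update_smul (![0, v] : Fin 2 → Fin (n + 1) → k) 0 c u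
      have e : ∀ w : Fin (n + 1) → k, Function.update (![0, v] : Fin 2 → Fin (n + 1) → k) 0 w =
          ![w, v] := by
        intro w
        funext i
        fin_cases i <;> simp
      rwa [e, e] at h)
    (by
      intro u v v'
      have h := T_update_add (![u, 0] : Fin 2 → Fin (n + 1) → k) 1 v v'
      have e : ∀ w : Fin (n + 1) → k, Function.update (![u, 0] : Fin 2 → Fin (n + 1) → k) 1 w =
          ![u, w] := by
        intro w
        funext i
        fin_cases i <;> simp
      rwa [e, e, e] at h)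
    (by
      intro c u v
      have h := T_update_smul (![u, 0] : Fin 2 → Fin (n + 1) → k) 1 c v
      have e : ∀ w : Fin (n + 1) → k, Function.update (![u, 0] : Fin 2 → Fin (n + 1) → k) 1 w =
          ![u, w] := by
        intro w
        funext i
        fin_cases i <;> simp
      rwa [e, e] at h)

theorem BmK_apply {n : ℕ} {k : Type*} [Field k] (u v : Fin (n + 1) → k) :
    BmK n k u v = T ![u, v] := rfl

theorem BmK_comm {n : ℕ} {k : Type*} [Field k] (u v : Fin (n + 1) → k) :
    BmK n k u v = BmK n k v u := by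
  rw [BmK_apply, BmK_apply]
  have h := T_perm (![u, v] : Fin 2 → Fin (n + 1) → k) (Equiv.swap 0 1)
  rw [← h]
  congr 1
  funext i
  fin_cases i <;> simp

/-- rational functionals come from functionals over the field, by the trace -/
theorem exists_psi {K : Type} [Field K] [NumberField K] {ι : Type} [Fintype ι]
    (φ : (ι → K) →ₗ[ℚ] ℚ) : ∃ ψ : (ι → K) →ₗ[K] K,
      ∀ (a : K) (A : ι → K), Algebra.trace ℚ K (a * ψ A) = φ (a • A) := by
  have hB := traceForm_nondegenerate ℚ K
  let f : (ι → K) → Module.Dual ℚ K := fun A =>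
    { toFun := fun a => φ (a • A)
      map_add' := fun a b => by rw [add_smul, map_add]
      map_smul' := fun c a => by rw [smul_assoc, map_smul]; rfl }
  let g : (ι → K) → K := fun A => ((Algebra.traceForm ℚ K).toDual hB).symm (f A)
  have hg : ∀ (A : ι → K) (a : K), Algebra.trace ℚ K (a * g A) = φ (a • A) := by
    intro A a
    have h1 := LinearMap.BilinForm.apply_toDual_symm_apply (B := Algebra.traceForm ℚ K) (hB := hB)
      (f A) a
    rw [Algebra.traceForm_apply, mul_comm] at h1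
    exact h1
  have hinj : ∀ b c : K, (∀ a : K, Algebra.trace ℚ K (a * b) = Algebra.trace ℚ K (a * c)) →
      b = c := by
    intro b c h
    apply ((Algebra.traceForm ℚ K).toDual hB).injective
    ext a
    rw [LinearMap.BilinForm.toDual_def, LinearMap.BilinForm.toDual_def, Algebra.traceForm_apply,
      Algebra.traceForm_apply, mul_comm b, mul_comm c]
    exact h a
  refine ⟨{ toFun := g, map_add' := ?_, map_smul' := ?_ }, fun a A => hg A a⟩
  · intro A A'
    refine hinj _ _ fun a => ?_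
    rw [hg, mul_add, map_add, hg, hg, smul_add, map_add]
  · intro c A
    refine hinj _ _ fun a => ?_
    rw [hg, RingHom.id_apply, smul_eq_mul, ← mul_assoc, hg, smul_smul]

/-- an element is determined by the traces of the products with the integral basis -/
theorem trace_inj {K : Type} [Field K] [NumberField K] (b c : K)
    (h : ∀ l, Algebra.trace ℚ K ((RingOfIntegers.basis K l : 𝓞 K) * b) =
      Algebra.trace ℚ K ((RingOfIntegers.basis K l : 𝓞 K) * c)) : b = c := by
  have hB := traceForm_nondegenerate ℚ K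
  apply ((Algebra.traceForm ℚ K).toDual hB).injective
  refine (integralBasis K).ext fun l => ?_
  rw [LinearMap.BilinForm.toDual_def, LinearMap.BilinForm.toDual_def, Algebra.traceForm_apply,
    Algebra.traceForm_apply, mul_comm b, mul_comm c, integralBasis_apply]
  exact h l

/-- few pairs are not fine -/
theorem few_not_fine (K : Type) [Field K] [NumberField K] (n : ℕ) (hn : 3 ≤ n) (R R0 : ℝ)
    (hR : 1 ≤ R) (hR0 : 0 < R0) :
    ∃ C : ℝ, 0 < C ∧ ∀ B : ℕ, 1 ≤ B → ∀ E : ℝ, 0 < E → (B : ℝ) ^ (2 / (n : ℝ)) ≤ R0 * E →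
    ∀ y : Fin (n + 1) → 𝓞 K, Prim y → Good R B y →
      (Set.ncard {x : Fin (n + 1) → 𝓞 K | x ∈ Bx n (2 * (B : ℝ)) ∧
        (∀ w, ∃ i, (B : ℝ) / 2 ≤ ‖sg w (x i)‖) ∧ Prim x ∧ Good R B x ∧
        mgI x y ≠ ⊥ ∧ ¬ FineD n 2 E x y} : ℝ) ≤
        C * ((B : ℝ) ^ ((n : ℝ) + 1 - 1 / (n : ℝ))) ^ mK K := by
  classical
  obtain ⟨Q0, hQ0⟩ := fine_or_functional K n (by omega) R R0 hR hR0
  obtain ⟨C1, hC1, hlat⟩ := lat_upper K
  obtain ⟨UF, hUF⟩ : ∃ UF : Finset (𝓞 K), UF = (sumBad_finite (K := K) 4).toFinset := ⟨_, rfl⟩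
  have hUF' : ∀ a, a ∈ UF ↔ ∀ w, ‖sg w a‖ ≤ 4 := fun a => by
    rw [hUF, Set.Finite.mem_toFinset]
    rfl
  obtain ⟨M0, hM0⟩ : ∃ M0 : ℕ, M0 = UF.card + 1 := ⟨_, rfl⟩
  let TN : Finset (IK K → Fin n → Fin n → ℤ) := Fintype.piFinset fun _ =>
    Fintype.piFinset fun _ => Fintype.piFinset fun _ => Finset.Icc (-(Q0 : ℤ)) Q0
  obtain ⟨cn, hcn⟩ : ∃ cn : ℝ, cn = 2 * ((n : ℝ) + 1) * (2 * C1) ^ (n * (n + 1) - 1) := ⟨_, rfl⟩
  have hcn0 : 0 < cn := by
    rw [hcn]
    positivity
  refine ⟨(TN.card + 1) * (M0 * (cn * (R ^ (n * (n + 1) - 1)) ^ mK K)), ?_, ?_⟩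
  · have : 0 < M0 := by omega
    positivity
  intro B hB E hE hBE y hy hgy
  have hn0 : (0 : ℝ) < n := by
    have : 0 < n := by omega
    exact_mod_cast this
  have hB0 : (0 : ℝ) < B := by exact_mod_cast hB
  have hB1 : (1 : ℝ) ≤ B := by exact_mod_cast hB
  obtain ⟨v, hv, hvy, hvb⟩ := hgy
  set mu : ℝ := R * (B : ℝ) ^ (1 / (n : ℝ)) with hmu
  have hmu1 : 1 ≤ mu := by
    have : 1 ≤ (B : ℝ) ^ (1 / (n : ℝ)) := Real.one_le_rpow hB1 (by positivity)
    rw [hmu]
    nlinarith
  have hmu0 : 0 < mu := by linarith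
  -- the entries of the frames
  obtain ⟨TF, hTF⟩ : ∃ TF : Finset (𝓞 K), TF = (sumBad_finite (K := K) mu).toFinset := ⟨_, rfl⟩
  have hTF' : ∀ a, a ∈ TF ↔ ∀ w, ‖sg w a‖ ≤ mu := fun a => by
    rw [hTF, Set.Finite.mem_toFinset]
    rfl
  have hTc : (TF.card : ℝ) ≤ 2 * C1 * mu ^ mK K := by
    have h1 := hlat ⊤ (by simp) (fun _ => mu) (fun _ => hmu0) (fun _ => 0)
    have h2 : ({a : 𝓞 K | a ∈ (⊤ : Ideal (𝓞 K)) ∧ ∀ w : InfinitePlace K, ‖sg w a - 0‖ ≤ mu}) =
        ↑TF := by
      ext a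
      rw [Finset.mem_coe, hTF']
      simp
    have h3 := h1.2
    rw [h2, Set.ncard_coe_finset, Ideal.absNorm_top, np_const, Nat.cast_one, div_one] at h3
    have h4 : 1 ≤ mu ^ mK K := one_le_pow₀ hmu1
    nlinarith
  let TK : Finset K := TF.image fun a : 𝓞 K => (a : K)
  have hTK : TK.card ≤ TF.card := Finset.card_image_le
  set S : Set (Fin (n + 1) → 𝓞 K) := {x : Fin (n + 1) → 𝓞 K | x ∈ Bx n (2 * (B : ℝ)) ∧
        (∀ w, ∃ i, (B : ℝ) / 2 ≤ ‖sg w (x i)‖) ∧ Prim x ∧ Good R B x ∧
        mgI x y ≠ ⊥ ∧ ¬ FineD n 2 E x y} with hS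
  have hSfin : S.Finite := (Bx_finite (K := K) (n := n) (2 * (B : ℝ))).subset fun x hx => hx.1
  -- the frames and the functionals
  have hex : ∀ x : Fin (n + 1) → 𝓞 K, ∃ (w : Fin n → Fin (n + 1) → 𝓞 K)
      (N : IK K → Fin n → Fin n → ℤ),
      x ∈ S → (LinearIndependent K (fun k : Fin n => fun i : Fin (n + 1) =>
          ((w k i : 𝓞 K) : K)) ∧
        (∀ k, ∑ i, w k i * x i = 0) ∧ (∀ k i u, ‖sg u (w k i)‖ ≤ mu) ∧ N ≠ 0 ∧
        (∀ l i j, |N l i j| ≤ (Q0 : ℤ)) ∧ ∃ φ : (Idx n 2 → K) →ₗ[ℚ] ℚ,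
        ∀ l i j, φ (fun t => ((RingOfIntegers.basis K l * T ![w i, v j] t : 𝓞 K) : K)) =
          N l i j) := by
    intro x
    by_cases hx : x ∈ S
    · obtain ⟨hxb, hxs, hxp, ⟨w, hw, hwx, hwb⟩, hxy, hnf⟩ := hx
      obtain ⟨N, φ, hN0, hNb, hφ⟩ := hQ0 B hB E hE hBE x y hxy w v hw hv hwx hvy hwb hvb hnf
      exact ⟨w, N, fun _ => ⟨hw, hwx, hwb, hN0, hNb, φ, hφ⟩⟩
    · exact ⟨0, 0, fun h => absurd h hx⟩
  choose w N hwN using hex
  -- vectors over `K`
  let yK : Fin (n + 1) → K := fun i => ((y i : 𝓞 K) : K)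
  let vK : Fin n → Fin (n + 1) → K := fun k i => ((v k i : 𝓞 K) : K)
  let wK : (Fin (n + 1) → 𝓞 K) → Fin n → Fin (n + 1) → K := fun x k i => ((w x k i : 𝓞 K) : K)
  have hyr0 : yK ≠ 0 := by
    intro h
    obtain ⟨c, hc⟩ := hy
    have h1 : ∀ i, y i = 0 := by
      intro i
      have := congrFun h i
      simpa [yK] using this
    simp [h1] at hc
  have hvyr : ∀ k, ∑ i, vK k i * yK i = 0 := by
    intro k
    have h1 : ((∑ i, v k i * y i : 𝓞 K) : K) = 0 := by rw [hvy k]; simp
    simpa [vK, yK] using h1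
  have hTcast : ∀ (x : Fin (n + 1) → 𝓞 K) (i j : Fin n),
      BmK n K (wK x i) (vK j) = fun t => ((T ![w x i, v j] t : 𝓞 K) : K) := by
    intro x i j
    funext t
    rw [BmK_apply]
    show _ = algebraMap (𝓞 K) K (T ![w x i, v j] t)
    unfold T
    rw [map_sum]
    refine Finset.sum_congr rfl fun c _ => ?_
    split_ifs
    · rw [map_prod]
      refine Finset.prod_congr rfl fun k _ => ?_
      fin_cases k <;> simp [wK, vK]
    · rw [map_zero]
  have hfib : ∀ N0 : IK K → Fin n → Fin n → ℤ,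
      ((hSfin.toFinset.filter fun x => N x = N0).card : ℝ) ≤
        M0 * (2 * (n + 1) * TK.card ^ (n * (n + 1) - 1) : ℕ) := by
    intro N0
    rcases (hSfin.toFinset.filter fun x => N x = N0).eq_empty_or_nonempty with hempty | ⟨x1, hx1⟩
    · rw [hempty]
      simp only [Finset.card_empty, Nat.cast_zero]
      positivity
    rw [Finset.mem_filter, Set.Finite.mem_toFinset] at hx1
    obtain ⟨hx1S, hx1N⟩ := hx1
    -- the functional vectors
    have hsx : ∀ x ∈ S, N x = N0 → ∃ s : Fin n → Fin (n + 1) → K,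
        (∀ l i j, Algebra.trace ℚ K ((RingOfIntegers.basis K l : 𝓞 K) *
          ∑ a, s i a * vK j a) = N0 l i j) ∧
        ∀ i j, ∑ a, s i a * wK x j a = ∑ a, s j a * wK x i a := by
      intro x hx hxN
      obtain ⟨-, -, -, -, -, φ, hφ⟩ := hwN x hx
      obtain ⟨ψ, hψ⟩ := exists_psi φ
      have hlin : ∀ (p u : Fin (n + 1) → K),
          ∑ a, ψ (BmK n K p (Pi.single a 1)) * u a = ψ (BmK n K p u) := by
        intro p u
        have h1 : u = ∑ a, u a • (Pi.single a (1 : K) : Fin (n + 1) → K) := by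
          funext i
          simp [Finset.sum_apply, Pi.single_apply]
        conv_rhs => rw [h1, map_sum, map_sum]
        refine Finset.sum_congr rfl fun a _ => ?_
        rw [map_smul, map_smul, smul_eq_mul, mul_comm]
      refine ⟨fun i a => ψ (BmK n K (wK x i) (Pi.single a 1)), fun l i j => ?_, fun i j => ?_⟩
      · rw [hlin, hψ, ← hxN, ← hφ]
        congr 1
        rw [hTcast]
        funext t
        simp [Pi.smul_apply]
      · rw [hlin, hlin, BmK_comm]
    obtain ⟨t, ht, -⟩ := hsx x1 hx1S hx1N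
    have hN00 : N0 ≠ 0 := by
      have := (hwN x1 hx1S).2.2.2.1
      rwa [hx1N] at this
    obtain ⟨l0, i0, j0, hij0⟩ : ∃ l i j, N0 l i j ≠ 0 := by
      by_contra hcon
      push Not at hcon
      exact hN00 (funext fun l => funext fun i => funext fun j => hcon l i j)
    have hFC := frame_count n hn TK yK (vK j0) (hvyr j0) hyr0 t
      ⟨i0, fun h0 => by
        have h1 := ht l0 i0 j0
        rw [h0, mul_zero, map_zero] at h1
        exact hij0 (by exact_mod_cast h1.symm)⟩
    set FC : Set (Fin n → Fin (n + 1) → K) := {l : Fin n → Fin (n + 1) → K |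
      (∀ i a, l i a ∈ TK) ∧
        ∃ c : Fin n → K, ∀ i j, ∑ a, l j a * (t i a + c i * yK a) =
          ∑ a, l i a * (t j a + c j * yK a)} with hFCdef
    have hmaps : ∀ x ∈ hSfin.toFinset.filter fun x => N x = N0, wK x ∈ hFC.1.toFinset := by
      intro x hx
      rw [Finset.mem_filter, Set.Finite.mem_toFinset] at hx
      rw [Set.Finite.mem_toFinset]
      obtain ⟨hxS, hxN⟩ := hx
      obtain ⟨s, hs, hsym⟩ := hsx x hxS hxN
      refine ⟨fun i a => ?_, ?_⟩
      · rw [Finset.mem_image]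
        exact ⟨w x i a, (hTF' _).mpr fun u => (hwN x hxS).2.2.1 i a u, rfl⟩
      have hk : ∀ i, ∃ c : K, ∀ a, s i a - t i a = c * yK a := by
        intro i
        refine sumBad_orth vK hv yK (fun a => s i a - t i a) hyr0 hvyr fun k => ?_
        have h1 : ∑ a, vK k a * (s i a - t i a) =
            ∑ a, s i a * vK k a - ∑ a, t i a * vK k a := by
          rw [← Finset.sum_sub_distrib]
          exact Finset.sum_congr rfl fun a _ => by ring
        rw [h1, sub_eq_zero]
        refine trace_inj _ _ fun l => ?_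
        rw [hs, ht]
      choose c hc using hk
      refine ⟨c, fun i j => ?_⟩
      have h2 : ∀ i a, t i a + c i * yK a = s i a := by
        intro i a
        rw [← hc i a]
        ring
      simp only [h2]
      have h3 := hsym i j
      rw [show ∑ a, wK x j a * s i a = ∑ a, s i a * wK x j a from
        Finset.sum_congr rfl fun a _ => mul_comm _ _,
        show ∑ a, wK x i a * s j a = ∑ a, s j a * wK x i a from
        Finset.sum_congr rfl fun a _ => mul_comm _ _]
      exact h3
    -- a bounded number of points for a frame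
    have htwo : ∀ l ∈ hFC.1.toFinset,
        ((hSfin.toFinset.filter fun x => N x = N0).filter fun x => wK x = l).card ≤ M0 := by
      intro l _
      rcases ((hSfin.toFinset.filter fun x => N x = N0).filter
        fun x => wK x = l).eq_empty_or_nonempty with he | ⟨x2, hx2⟩
      · rw [he]
        simp
      rw [Finset.mem_filter, Finset.mem_filter, Set.Finite.mem_toFinset] at hx2
      obtain ⟨⟨hx2S, -⟩, hx2l⟩ := hx2
      have hsub : ((hSfin.toFinset.filter fun x => N x = N0).filter fun x => wK x = l) ⊆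
          UF.image fun u => fun i => u * x2 i := by
        intro x hx
        rw [Finset.mem_filter, Finset.mem_filter, Set.Finite.mem_toFinset] at hx
        obtain ⟨⟨hxS, -⟩, hxl⟩ := hx
        -- proportional vectors
        have hx20 : (fun i => ((x2 i : 𝓞 K) : K)) ≠ 0 := by
          intro h
          obtain ⟨c, hc⟩ := hx2S.2.2.1
          have h1 : ∀ i, x2 i = 0 := by
            intro i
            have := congrFun h i
            simpa using this
          simp [h1] at hc
        have hort : ∀ z ∈ S, wK z = l → ∀ k, ∑ i, l k i * ((z i : 𝓞 K) : K) = 0 := by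
          intro z hz hzl k
          have h1 : ((∑ i, w z k i * z i : 𝓞 K) : K) = 0 := by
            rw [(hwN z hz).2.1 k]
            simp
          rw [← hzl]
          simpa [wK] using h1
        have hli : LinearIndependent K l := by
          rw [← hx2l]
          exact (hwN x2 hx2S).1
        obtain ⟨c, hc⟩ := sumBad_orth l hli (fun i => ((x2 i : 𝓞 K) : K))
          (fun i => ((x i : 𝓞 K) : K)) hx20 (hort x2 hx2S hx2l) (hort x hxS hxl)
        have hbot := sumBad_bot x2 x c hc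
        obtain ⟨u, hu⟩ := eq_mul_of_mgI_bot x2 x hx2S.2.2.1 hbot
        rw [Finset.mem_image]
        refine ⟨u, (hUF' u).mpr fun ww => ?_, ?_⟩
        · obtain ⟨i, hi⟩ := hx2S.2.1 ww
          have h1 : ‖sg ww (x i)‖ ≤ 2 * B := hxS.1 i ww
          rw [hu i, map_mul, norm_mul] at h1
          have h2 : ‖sg ww u‖ * ((B : ℝ) / 2) ≤ ‖sg ww u‖ * ‖sg ww (x2 i)‖ :=
            mul_le_mul_of_nonneg_left hi (norm_nonneg _)
          have h3 : ‖sg ww u‖ * ((B : ℝ) / 2) ≤ 4 * ((B : ℝ) / 2) := by linarith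
          exact le_of_mul_le_mul_right h3 (by positivity)
        · funext i
          exact (hu i).symm
      refine (Finset.card_le_card hsub).trans (Finset.card_image_le.trans ?_)
      omega
    have hcard := Finset.card_le_mul_card_image_of_maps_to (f := wK) hmaps M0 htwo
    have h5 : hFC.1.toFinset.card ≤ 2 * (n + 1) * TK.card ^ (n * (n + 1) - 1) := by
      have h6 := hFC.2
      rwa [Set.ncard_eq_toFinset_card _ hFC.1] at h6
    calc ((hSfin.toFinset.filter fun x => N x = N0).card : ℝ) ≤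
          ((M0 * hFC.1.toFinset.card : ℕ) : ℝ) := by exact_mod_cast hcard
      _ = M0 * ((hFC.1.toFinset.card : ℕ) : ℝ) := by push_cast; ring
      _ ≤ M0 * (2 * (n + 1) * TK.card ^ (n * (n + 1) - 1) : ℕ) := by
          refine mul_le_mul_of_nonneg_left ?_ (Nat.cast_nonneg _)
          exact_mod_cast h5
  -- sum over `N`
  have hmapsN : ∀ x ∈ hSfin.toFinset, N x ∈ TN := by
    intro x hx
    rw [Set.Finite.mem_toFinset] at hx
    rw [Fintype.mem_piFinset]
    intro l
    rw [Fintype.mem_piFinset]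
    intro i
    rw [Fintype.mem_piFinset]
    intro j
    rw [Finset.mem_Icc]
    exact abs_le.mp ((hwN x hx).2.2.2.2.1 l i j)
  have hmain : (S.ncard : ℝ) ≤ TN.card *
      (M0 * (2 * (n + 1) * TK.card ^ (n * (n + 1) - 1) : ℕ)) := by
    rw [Set.ncard_eq_toFinset_card _ hSfin, Finset.card_eq_sum_card_fiberwise hmapsN]
    push_cast
    have hfib' := fun N0 => hfib N0
    push_cast at hfib'
    refine (Finset.sum_le_sum fun N0 _ => hfib' N0).trans ?_
    rw [Finset.sum_const, nsmul_eq_mul]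
  have hpow : (mu ^ mK K) ^ (n * (n + 1) - 1) = (R ^ (n * (n + 1) - 1)) ^ mK K *
      ((B : ℝ) ^ ((n : ℝ) + 1 - 1 / (n : ℝ))) ^ mK K := by
    rw [← pow_mul, mul_comm (mK K), pow_mul, ← mul_pow]
    congr 1
    rw [hmu, mul_pow]
    congr 1
    rw [← Real.rpow_natCast ((B : ℝ) ^ (1 / (n : ℝ))) (n * (n + 1) - 1), ← Real.rpow_mul hB0.le]
    congr 1
    have h1 : 1 ≤ n * (n + 1) := by nlinarith
    rw [Nat.cast_sub h1]
    push_cast
    field_simp
  have hK2 : ((2 * (n + 1) * TK.card ^ (n * (n + 1) - 1) : ℕ) : ℝ) ≤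
      cn * ((mu ^ mK K) ^ (n * (n + 1) - 1)) := by
    rw [hcn]
    push_cast
    have h1 : (TK.card : ℝ) ≤ 2 * C1 * mu ^ mK K := by
      have h2 : (TK.card : ℝ) ≤ TF.card := by exact_mod_cast hTK
      linarith
    calc 2 * ((n : ℝ) + 1) * (TK.card : ℝ) ^ (n * (n + 1) - 1) ≤
          2 * ((n : ℝ) + 1) * (2 * C1 * mu ^ mK K) ^ (n * (n + 1) - 1) := by gcongr
      _ = 2 * ((n : ℝ) + 1) * (2 * C1) ^ (n * (n + 1) - 1) * (mu ^ mK K) ^ (n * (n + 1) - 1) := by
          rw [mul_pow (2 * C1)]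
          ring
  refine hmain.trans ?_
  calc (TN.card : ℝ) * (M0 * ((2 * (n + 1) * TK.card ^ (n * (n + 1) - 1) : ℕ) : ℝ))
      ≤ (TN.card + 1) * (M0 * (cn * ((mu ^ mK K) ^ (n * (n + 1) - 1)))) := by
        gcongr
        linarith
    _ = (TN.card + 1) * (M0 * (cn * (R ^ (n * (n + 1) - 1)) ^ mK K)) *
        ((B : ℝ) ^ ((n : ℝ) + 1 - 1 / (n : ℝ))) ^ mK K := by
        rw [hpow]
        ring

end NKHP
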