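import Pool.Agent.Lib.MP_e426f4_ag.NK.Basic
import Pool.Agent.Lib.MP_e426f4_ag.NK.AlgDep
import Pool.Agent.Lib.MP_e426f4_ag.G.Alg

/-! Module NK-FewSing: almost all systems over the integers of a number field are smooth. -/

namespace NKHP

open NumberField GenHP NFHP Finset Filter Topology
open CIHP (Sys NS Jac nu Bf)

section mono

variable {n : ℕ}

/-- the exponent vector of `x_{j0}^d` -/
private def sg0 (j0 : Fin (n + 1)) (d : ℕ) : Idx n d :=
  ⟨fun l => if l = j0 then d else 0, by simp⟩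

/-- the exponent vector of `x_{j0}^(d-1) x_j` -/
private def sg1 (j0 : Fin (n + 1)) (d : ℕ) (hd : 1 ≤ d) (j : Fin (n + 1)) : Idx n d :=
  ⟨fun l => (if l = j0 then d - 1 else 0) + (if l = j then 1 else 0), by
    rw [Finset.sum_add_distrib]
    simp
    omega⟩

private theorem sg1_ne_sg0 (j0 : Fin (n + 1)) (d : ℕ) (hd : 1 ≤ d) (j : Fin (n + 1))
    (hj : j ≠ j0) : sg1 j0 d hd j ≠ sg0 j0 d := by
  intro h
  have h1 := congrFun (congrArg Subtype.val h) j
  simp [sg1, sg0, hj] at h1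

private theorem sg1_inj (j0 : Fin (n + 1)) (d : ℕ) (hd : 1 ≤ d) (j j' : Fin (n + 1))
    (hj : j ≠ j0) (h : sg1 j0 d hd j = sg1 j0 d hd j') : j = j' := by
  have h1 := congrFun (congrArg Subtype.val h) j
  simp only [sg1, if_neg hj, zero_add, if_true] at h1
  by_contra hne
  rw [if_neg hne] at h1
  omega

variable {R : Type*} [CommRing R]

private theorem mon_sg0 (j0 : Fin (n + 1)) (d : ℕ) (y : Fin (n + 1) → R) (hy : y j0 = 1) :
    mon y (sg0 j0 d).1 = 1 := by
  unfold mon sg0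
  refine Finset.prod_eq_one fun i _ => ?_
  simp only
  split_ifs with h
  · rw [h, hy, one_pow]
  · rw [pow_zero]

private theorem dmon_sg0 (j0 : Fin (n + 1)) (d : ℕ) (y : Fin (n + 1) → R) (j : Fin (n + 1))
    (hj : j ≠ j0) : dmon y j (sg0 j0 d).1 = 0 := by
  unfold dmon sg0
  simp [hj]

private theorem dmon_sg1 (j0 : Fin (n + 1)) (d : ℕ) (hd : 1 ≤ d) (y : Fin (n + 1) → R)
    (hy : y j0 = 1) (j : Fin (n + 1)) (hj : j ≠ j0) :
    dmon y j (sg1 j0 d hd j).1 = 1 := by
  unfold dmon sg1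
  simp only [if_neg hj, zero_add, if_true, Nat.cast_one, one_mul]
  refine Finset.prod_eq_one fun i _ => ?_
  by_cases h : i = j
  · subst h
    simp [hj]
  · by_cases h2 : i = j0
    · subst h2
      simp [h, hy]
    · simp [h, h2]

private theorem dmon_sg1_ne (j0 : Fin (n + 1)) (d : ℕ) (hd : 1 ≤ d) (y : Fin (n + 1) → R)
    (j j' : Fin (n + 1)) (hj : j ≠ j0) (hjj : j ≠ j') :
    dmon y j (sg1 j0 d hd j').1 = 0 := by
  unfold dmon sg1
  simp [hj, hjj]

end mono

section para

variable {n r : ℕ} {e : Fin r → ℕ}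

/-- the omitted coefficients -/
private def om (he : ∀ i, 1 ≤ e i) (i0 : Fin r) (j0 : Fin (n + 1)) (s : Σ i, Idx n (e i)) : Prop :=
  s.2 = sg0 j0 (e s.1) ∨ (s.1 = i0 ∧ ∃ j, j ≠ j0 ∧ s.2 = sg1 j0 (e s.1) (he s.1) j)

open Classical in
/-- the value forced by the `j`-th equation -/
private noncomputable def S1 {R : Type*} [CommRing R] (he : ∀ i, 1 ≤ e i) (i0 : Fin r)
    (j0 : Fin (n + 1)) (y : Fin (n + 1) → R) (c : Fin r → R) (a : (Σ i, Idx n (e i)) → R)
    (j : Fin (n + 1)) : R :=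
  -∑ i, c i * ∑ t : Idx n (e i), (if om he i0 j0 ⟨i, t⟩ then 0 else a ⟨i, t⟩) * dmon y j t.1

open Classical in
private noncomputable def P1 {R : Type*} [CommRing R] (he : ∀ i, 1 ≤ e i) (i0 : Fin r)
    (j0 : Fin (n + 1)) (y : Fin (n + 1) → R) (c : Fin r → R) (a : (Σ i, Idx n (e i)) → R)
    (s : Σ i, Idx n (e i)) : R :=
  if om he i0 j0 s then
    ∑ j, (if j ≠ j0 ∧ s.1 = i0 ∧ s.2 = sg1 j0 (e s.1) (he s.1) j then S1 he i0 j0 y c a j else 0)
  else a s

open Classical in
private noncomputable def psG {R : Type*} [CommRing R] (he : ∀ i, 1 ≤ e i) (i0 : Fin r)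
    (j0 : Fin (n + 1)) (y : Fin (n + 1) → R) (c : Fin r → R) (a : (Σ i, Idx n (e i)) → R)
    (s : Σ i, Idx n (e i)) : R :=
  if s.2 = sg0 j0 (e s.1) then
    -∑ t : Idx n (e s.1), (if t = sg0 j0 (e s.1) then 0 else P1 he i0 j0 y c a ⟨s.1, t⟩) * mon y t.1
  else P1 he i0 j0 y c a s

private theorem mon_map {R S : Type*} [CommRing R] [CommRing S] (f : R →+* S)
    (y : Fin (n + 1) → R) (t : Fin (n + 1) → ℕ) : f (mon y t) = mon (fun i => f (y i)) t := by
  simp [mon, map_prod]

private theorem dmon_map {R S : Type*} [CommRing R] [CommRing S] (f : R →+* S)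
    (y : Fin (n + 1) → R) (j : Fin (n + 1)) (t : Fin (n + 1) → ℕ) :
    f (dmon y j t) = dmon (fun i => f (y i)) j t := by
  simp only [dmon, map_mul, map_natCast, map_prod, map_pow]

private theorem S1_map {R S : Type*} [CommRing R] [CommRing S] (f : R →+* S)
    (he : ∀ i, 1 ≤ e i) (i0 : Fin r) (j0 : Fin (n + 1)) (y : Fin (n + 1) → R) (c : Fin r → R)
    (a : (Σ i, Idx n (e i)) → R) (j : Fin (n + 1)) :
    f (S1 he i0 j0 y c a j) =
      S1 he i0 j0 (fun i => f (y i)) (fun i => f (c i)) (fun s => f (a s)) j := by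
  classical
  unfold S1
  rw [map_neg, map_sum]
  refine congrArg _ (Finset.sum_congr rfl fun i _ => ?_)
  rw [map_mul, map_sum]
  refine congrArg _ (Finset.sum_congr rfl fun t _ => ?_)
  rw [map_mul, dmon_map]
  split_ifs
  · rw [map_zero]
  · rfl

private theorem P1_map {R S : Type*} [CommRing R] [CommRing S] (f : R →+* S)
    (he : ∀ i, 1 ≤ e i) (i0 : Fin r) (j0 : Fin (n + 1)) (y : Fin (n + 1) → R) (c : Fin r → R)
    (a : (Σ i, Idx n (e i)) → R) (s : Σ i, Idx n (e i)) :
    f (P1 he i0 j0 y c a s) =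
      P1 he i0 j0 (fun i => f (y i)) (fun i => f (c i)) (fun s => f (a s)) s := by
  classical
  unfold P1
  split_ifs with h
  · rw [map_sum]
    refine Finset.sum_congr rfl fun j _ => ?_
    split_ifs
    · exact S1_map f he i0 j0 y c a j
    · rw [map_zero]
  · rfl

private theorem psG_map {R S : Type*} [CommRing R] [CommRing S] (f : R →+* S)
    (he : ∀ i, 1 ≤ e i) (i0 : Fin r) (j0 : Fin (n + 1)) (y : Fin (n + 1) → R) (c : Fin r → R)
    (a : (Σ i, Idx n (e i)) → R) (s : Σ i, Idx n (e i)) :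
    f (psG he i0 j0 y c a s) =
      psG he i0 j0 (fun i => f (y i)) (fun i => f (c i)) (fun s => f (a s)) s := by
  classical
  unfold psG
  split_ifs with h
  · rw [map_neg, map_sum]
    refine congrArg _ (Finset.sum_congr rfl fun t _ => ?_)
    rw [map_mul, mon_map]
    split_ifs
    · rw [map_zero]
    · rw [P1_map]
  · exact P1_map f he i0 j0 y c a s

/-- the forced coefficients of a singular system -/
private theorem S1_eq {R : Type*} [CommRing R] (he : ∀ i, 1 ≤ e i) (i0 : Fin r)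
    (j0 : Fin (n + 1)) (y : Fin (n + 1) → R) (c : Fin r → R) (A : Sys n e R)
    (a : (Σ i, Idx n (e i)) → R) (ha : ∀ s, ¬ om he i0 j0 s → a s = A s.1 s.2)
    (hy : y j0 = 1) (hc : c i0 = 1) (j : Fin (n + 1)) (hj : j ≠ j0)
    (hD : ∑ i, c i * D (A i) y j = 0) :
    S1 he i0 j0 y c a j = A i0 (sg1 j0 (e i0) (he i0) j) := by
  classical
  have h1 : ∀ i, D (A i) y j =
      ∑ t : Idx n (e i), (if om he i0 j0 ⟨i, t⟩ then 0 else a ⟨i, t⟩) * dmon y j t.1 +
        (if i = i0 then A i (sg1 j0 (e i) (he i) j) else 0) := by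
    intro i
    have h2 : (if i = i0 then A i (sg1 j0 (e i) (he i) j) else 0) =
        ∑ t : Idx n (e i), if i = i0 ∧ t = sg1 j0 (e i) (he i) j then A i t else 0 := by
      split_ifs with h
      · simp only [h, true_and]
        rw [Finset.sum_ite_eq', if_pos (Finset.mem_univ _)]
      · simp [h]
    rw [h2]
    unfold D
    rw [← Finset.sum_add_distrib]
    refine Finset.sum_congr rfl fun t _ => ?_
    by_cases hom : om he i0 j0 ⟨i, t⟩
    · rw [if_pos hom, zero_mul, zero_add]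
      rcases hom with h | ⟨h, j', hj', h'⟩
      · simp only at h
        rw [h, dmon_sg0 j0 _ y j hj, mul_zero, if_neg]
        rintro ⟨_, h3⟩
        exact sg1_ne_sg0 j0 _ (he i) j hj h3.symm
      · simp only at h
        have h'' : t = sg1 j0 (e i) (he i) j' := h'
        subst h''
        by_cases hjj : j = j'
        · subst hjj
          rw [if_pos ⟨h, rfl⟩, dmon_sg1 j0 _ (he i) y hy j hj, mul_one]
        · rw [dmon_sg1_ne j0 _ (he i) y j j' hj hjj, mul_zero, if_neg]
          rintro ⟨_, h3⟩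
          exact hjj (sg1_inj j0 _ (he i) j' j hj' h3).symm
    · rw [if_neg hom, if_neg, add_zero, ha _ hom]
      rintro ⟨h3, h4⟩
      exact hom (Or.inr ⟨h3, j, hj, h4⟩)
  have h3 : ∑ i, c i * D (A i) y j =
      ∑ i, c i * ∑ t : Idx n (e i), (if om he i0 j0 ⟨i, t⟩ then 0 else a ⟨i, t⟩) * dmon y j t.1 +
      A i0 (sg1 j0 (e i0) (he i0) j) := by
    have h4 : A i0 (sg1 j0 (e i0) (he i0) j) =
        ∑ i, c i * (if i = i0 then A i (sg1 j0 (e i) (he i) j) else 0) := by
      rw [Finset.sum_eq_single i0]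
      · rw [if_pos rfl, hc, one_mul]
      · intro i _ hi
        rw [if_neg hi, mul_zero]
      · intro h
        exact absurd (Finset.mem_univ _) h
    rw [h4, ← Finset.sum_add_distrib]
    refine Finset.sum_congr rfl fun i _ => ?_
    rw [h1 i, mul_add]
  rw [hD] at h3
  unfold S1
  exact (eq_neg_of_add_eq_zero_right h3.symm).symm

private theorem P1_eq {R : Type*} [CommRing R] (he : ∀ i, 1 ≤ e i) (i0 : Fin r)
    (j0 : Fin (n + 1)) (y : Fin (n + 1) → R) (c : Fin r → R) (A : Sys n e R)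
    (a : (Σ i, Idx n (e i)) → R) (ha : ∀ s, ¬ om he i0 j0 s → a s = A s.1 s.2)
    (hy : y j0 = 1) (hc : c i0 = 1) (hD : ∀ j, ∑ i, c i * D (A i) y j = 0)
    (s : Σ i, Idx n (e i)) (hs : s.2 ≠ sg0 j0 (e s.1)) :
    P1 he i0 j0 y c a s = A s.1 s.2 := by
  classical
  unfold P1
  by_cases hom : om he i0 j0 s
  · rw [if_pos hom]
    rcases hom with h | ⟨h, j, hj, h'⟩
    · exact absurd h hs
    · rw [Finset.sum_eq_single j]
      · rw [if_pos ⟨hj, h, h'⟩, S1_eq he i0 j0 y c A a ha hy hc j hj (hD j)]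
        obtain ⟨i, t⟩ := s
        simp only at h h' ⊢
        subst h
        rw [h']
      · intro j' _ hjj
        rw [if_neg]
        rintro ⟨h1, _, h3⟩
        rw [h'] at h3
        exact hjj (sg1_inj j0 _ (he _) j j' hj h3).symm
      · intro h0
        exact absurd (Finset.mem_univ _) h0
  · rw [if_neg hom, ha s hom]

private theorem psG_eq {R : Type*} [CommRing R] (he : ∀ i, 1 ≤ e i) (i0 : Fin r)
    (j0 : Fin (n + 1)) (y : Fin (n + 1) → R) (c : Fin r → R) (A : Sys n e R)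
    (a : (Σ i, Idx n (e i)) → R) (ha : ∀ s, ¬ om he i0 j0 s → a s = A s.1 s.2)
    (hy : y j0 = 1) (hc : c i0 = 1) (hD : ∀ j, ∑ i, c i * D (A i) y j = 0)
    (hF : ∀ i, F (A i) y = 0) (s : Σ i, Idx n (e i)) :
    psG he i0 j0 y c a s = A s.1 s.2 := by
  classical
  unfold psG
  split_ifs with h
  · have h1 := hF s.1
    unfold F at h1
    have h2 : ∑ t : Idx n (e s.1), A s.1 t * mon y t.1 =
        ∑ t : Idx n (e s.1),
          (if t = sg0 j0 (e s.1) then 0 else P1 he i0 j0 y c a ⟨s.1, t⟩) * mon y t.1 +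
        A s.1 (sg0 j0 (e s.1)) := by
      have h3 : A s.1 (sg0 j0 (e s.1)) =
          ∑ t : Idx n (e s.1), (if t = sg0 j0 (e s.1) then A s.1 t else 0) * mon y t.1 := by
        rw [Finset.sum_eq_single (sg0 j0 (e s.1))]
        · rw [if_pos rfl, mon_sg0 j0 _ y hy, mul_one]
        · intro t _ ht
          rw [if_neg ht, zero_mul]
        · intro h0
          exact absurd (Finset.mem_univ _) h0
      rw [h3, ← Finset.sum_add_distrib]
      refine Finset.sum_congr rfl fun t _ => ?_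
      by_cases ht : t = sg0 j0 (e s.1)
      · rw [if_pos ht, if_pos ht, zero_mul, zero_add]
      · rw [if_neg ht, if_neg ht, zero_mul, add_zero,
          P1_eq he i0 j0 y c A a ha hy hc hD ⟨s.1, t⟩ ht]
    rw [h1] at h2
    rw [← eq_neg_of_add_eq_zero_right h2.symm, h]
  · exact P1_eq he i0 j0 y c A a ha hy hc hD s h

end para

section card

variable {n r : ℕ} {e : Fin r → ℕ}

private theorem sg_card (he : ∀ i, 1 ≤ e i) (i0 : Fin r) (j0 : Fin (n + 1)) :
    Nat.card ({j : Fin (n + 1) // j ≠ j0} ⊕ ({i : Fin r // i ≠ i0} ⊕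
      {s : Σ i, Idx n (e i) // ¬ om he i0 j0 s})) < Fintype.card (Σ i, Idx n (e i)) := by
  classical
  have h1 : Nat.card {j : Fin (n + 1) // j ≠ j0} = n := by
    rw [Nat.card_eq_fintype_card, Fintype.card_subtype_compl, Fintype.card_fin,
      Fintype.card_subtype_eq]
    omega
  have h2 : Nat.card {i : Fin r // i ≠ i0} = r - 1 := by
    rw [Nat.card_eq_fintype_card, Fintype.card_subtype_compl, Fintype.card_fin,
      Fintype.card_subtype_eq]
  have h3 : Fintype.card (Σ i, Idx n (e i)) = Nat.card {s : Σ i, Idx n (e i) // om he i0 j0 s} +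
      Nat.card {s : Σ i, Idx n (e i) // ¬ om he i0 j0 s} := by
    rw [Nat.card_eq_fintype_card, Nat.card_eq_fintype_card, ← Fintype.card_sum]
    exact Fintype.card_congr (Equiv.sumCompl _).symm
  have h4 : Nat.card (Fin r ⊕ {j : Fin (n + 1) // j ≠ j0}) ≤
      Nat.card {s : Σ i, Idx n (e i) // om he i0 j0 s} := by
    refine Nat.card_le_card_of_injective (Sum.elim
      (fun i => ⟨⟨i, sg0 j0 (e i)⟩, Or.inl rfl⟩)
      (fun j => ⟨⟨i0, sg1 j0 (e i0) (he i0) j.1⟩, Or.inr ⟨rfl, j.1, j.2, rfl⟩⟩)) ?_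
    rintro (i | ⟨j, hj⟩) (i' | ⟨j', hj'⟩) h
    · have h5 := congrArg Subtype.val h
      simp only [Sum.elim_inl] at h5
      rw [(Sigma.mk.inj_iff.1 h5).1]
    · exfalso
      have h5 := congrArg Subtype.val h
      simp only [Sum.elim_inl, Sum.elim_inr] at h5
      obtain ⟨h6, h7⟩ := Sigma.mk.inj_iff.1 h5
      subst h6
      exact sg1_ne_sg0 j0 _ _ j' hj' (eq_of_heq h7).symm
    · exfalso
      have h5 := congrArg Subtype.val h
      simp only [Sum.elim_inl, Sum.elim_inr] at h5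
      obtain ⟨h6, h7⟩ := Sigma.mk.inj_iff.1 h5
      subst h6
      exact sg1_ne_sg0 j0 _ _ j hj (eq_of_heq h7)
    · have h5 := congrArg Subtype.val h
      simp only [Sum.elim_inr] at h5
      obtain ⟨_, h7⟩ := Sigma.mk.inj_iff.1 h5
      have h8 := sg1_inj j0 _ _ j j' hj (eq_of_heq h7)
      subst h8
      rfl
  rw [Nat.card_sum, Nat.card_eq_fintype_card (α := Fin r), Fintype.card_fin, h1] at h4
  rw [Nat.card_sum, Nat.card_sum, h1, h2, h3]
  have : 0 < r := Fin.pos i0
  omega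

end card

section main

variable {K : Type} [Field K] [NumberField K] {n r : ℕ} {e : Fin r → ℕ}

/-- The system defines a smooth complete intersection: the gradients are linearly independent at
all common zeros over the algebraic closure. -/
def SmoothS (A : Sys n e (𝓞 K)) : Prop :=
  ∀ x : Fin (n + 1) → AlgebraicClosure K, x ≠ 0 →
    (∀ i, F (fun t => algebraMap (𝓞 K) (AlgebraicClosure K) (A i t)) x = 0) →
    LinearIndependent (AlgebraicClosure K) fun i : Fin r => fun j : Fin (n + 1) =>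
      D (fun t => algebraMap (𝓞 K) (AlgebraicClosure K) (A i t)) x j

private theorem sg_class (e : Fin r → ℕ) (he : ∀ i, 1 ≤ e i) (i0 : Fin r) (j0 : Fin (n + 1))
    (eps : ℝ) (heps : 0 < eps) : ∀ᶠ H : ℕ in atTop,
    (Set.ncard {A : Sys n e (𝓞 K) | A ∈ BoxS K n e H ∧
      ∃ (y : Fin (n + 1) → AlgebraicClosure K) (c : Fin r → AlgebraicClosure K),
      y j0 = 1 ∧ c i0 = 1 ∧
      (∀ i, F (fun t => algebraMap (𝓞 K) (AlgebraicClosure K) (A i t)) y = 0) ∧
      ∀ j, ∑ i, c i * D (fun t => algebraMap (𝓞 K) (AlgebraicClosure K) (A i t)) y j = 0} : ℝ) ≤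
      eps * (2 * H + 1) ^ (mK K * NS n e) := by
  classical
  let T : Type := {j : Fin (n + 1) // j ≠ j0} ⊕ ({i : Fin r // i ≠ i0} ⊕
      {s : Σ i, Idx n (e i) // ¬ om he i0 j0 s})
  have hcard : Fintype.card T < Fintype.card (Σ i, Idx n (e i)) := by
    have := sg_card (n := n) he i0 j0
    rwa [Nat.card_eq_fintype_card] at this
  let yG : Fin (n + 1) → MvPolynomial T ℤ := fun j =>
    if h : j ≠ j0 then MvPolynomial.X (Sum.inl ⟨j, h⟩) else 1
  let cG : Fin r → MvPolynomial T ℤ := fun i =>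
    if h : i ≠ i0 then MvPolynomial.X (Sum.inr (Sum.inl ⟨i, h⟩)) else 1
  let aG : (Σ i, Idx n (e i)) → MvPolynomial T ℤ := fun s =>
    if h : ¬ om he i0 j0 s then MvPolynomial.X (Sum.inr (Sum.inr ⟨s, h⟩)) else 0
  let psi : (Σ i, Idx n (e i)) → MvPolynomial T ℤ := fun s => psG he i0 j0 yG cG aG s
  have hN : Fintype.card (Σ i, Idx n (e i)) = NS n e := by
    rw [Fintype.card_sigma]
    rfl
  have hinj : Function.Injective (algebraMap (𝓞 K) (AlgebraicClosure K)) := by
    rw [IsScalarTower.algebraMap_eq (𝓞 K) K (AlgebraicClosure K)]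
    exact (algebraMap K (AlgebraicClosure K)).injective.comp RingOfIntegers.coe_injective
  have key := few_in_imageK (AlgebraicClosure K) hinj hcard psi eps heps
  filter_upwards [key] with H hH
  rw [hN] at hH
  refine le_trans ?_ hH
  have hfin : {A : (Σ i, Idx n (e i)) → 𝓞 K | (∀ i j, |(crd (A i) j : ℝ)| ≤ H) ∧
      ∃ z : T → AlgebraicClosure K, ∀ i,
        MvPolynomial.aeval z (psi i) = algebraMap (𝓞 K) (AlgebraicClosure K) (A i)}.Finite := by
    refine (Set.Finite.pi' (fun _ : (Σ i, Idx n (e i)) => boxO_finite (K := K) H)).subset ?_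
    rintro A ⟨hA1, _⟩ i
    exact hA1 i
  have h1 : Set.ncard {A : Sys n e (𝓞 K) | A ∈ BoxS K n e H ∧
      ∃ (y : Fin (n + 1) → AlgebraicClosure K) (c : Fin r → AlgebraicClosure K),
      y j0 = 1 ∧ c i0 = 1 ∧
      (∀ i, F (fun t => algebraMap (𝓞 K) (AlgebraicClosure K) (A i t)) y = 0) ∧
      ∀ j, ∑ i, c i * D (fun t => algebraMap (𝓞 K) (AlgebraicClosure K) (A i t)) y j = 0} ≤
      Set.ncard {A : (Σ i, Idx n (e i)) → 𝓞 K | (∀ i j, |(crd (A i) j : ℝ)| ≤ H) ∧
        ∃ z : T → AlgebraicClosure K, ∀ i,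
        MvPolynomial.aeval z (psi i) = algebraMap (𝓞 K) (AlgebraicClosure K) (A i)} := by
    refine Set.ncard_le_ncard_of_injOn (fun A => fun s => A s.1 s.2) ?_ ?_ hfin
    · rintro A ⟨hA, y, c, hy, hc, hF, hD⟩
      refine ⟨fun s => hA s.1 s.2, ?_⟩
      obtain ⟨z, hz⟩ : ∃ z : T → AlgebraicClosure K, z = Sum.elim (fun j => y j.1)
        (Sum.elim (fun i => c i.1)
        (fun s => algebraMap (𝓞 K) (AlgebraicClosure K) (A s.1.1 s.1.2))) := ⟨_, rfl⟩
      refine ⟨z, fun s => ?_⟩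
      have h2 := psG_map (MvPolynomial.aeval (R := ℤ) z).toRingHom he i0 j0 yG cG aG s
      refine Eq.trans h2 ?_
      have hy' : (fun i => (MvPolynomial.aeval (R := ℤ) z).toRingHom (yG i)) = y := by
        funext i
        simp only [yG]
        split_ifs with h
        · refine (MvPolynomial.aeval_X _ _).trans ?_
          rw [hz]
          rfl
        · push Not at h
          rw [map_one, h, hy]
      have hc' : (fun i => (MvPolynomial.aeval (R := ℤ) z).toRingHom (cG i)) = c := by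
        funext i
        simp only [cG]
        split_ifs with h
        · refine (MvPolynomial.aeval_X _ _).trans ?_
          rw [hz]
          rfl
        · push Not at h
          rw [map_one, h, hc]
      rw [hy', hc']
      refine psG_eq he i0 j0 y c (fun i t => algebraMap (𝓞 K) (AlgebraicClosure K) (A i t)) _ ?_
        hy hc hD hF s
      intro s hs
      simp only [aG]
      rw [dif_pos hs]
      refine (MvPolynomial.aeval_X _ _).trans ?_
      rw [hz]
      rfl
    · intro A _ A' _ h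
      funext i t
      exact congrFun h ⟨i, t⟩
  exact_mod_cast h1

/-- NK-FewSing: almost all systems are smooth -/
theorem few_singularS (K : Type) [Field K] [NumberField K] (n : ℕ) {r : ℕ} (e : Fin r → ℕ)
    (hr : 1 ≤ r) (he : ∀ i, 1 ≤ e i) (hn : 1 ≤ n) (eps : ℝ) (heps : 0 < eps) :
    ∀ᶠ H : ℕ in atTop,
    (Set.ncard {A : Sys n e (𝓞 K) | A ∈ BoxS K n e H ∧ ¬ SmoothS A} : ℝ) ≤
      eps * (2 * H + 1) ^ (mK K * NS n e) := by
  classical
  have hq : (0 : ℝ) < (r : ℝ) * ((n : ℝ) + 1) := by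
    have : (1 : ℝ) ≤ r := by exact_mod_cast hr
    positivity
  obtain ⟨Z, hZ⟩ : ∃ Z : ℕ → Fin r × Fin (n + 1) → Set (Sys n e (𝓞 K)),
      Z = fun (H : ℕ) (q : Fin r × Fin (n + 1)) => {A : Sys n e (𝓞 K) | A ∈ BoxS K n e H ∧
      ∃ (y : Fin (n + 1) → AlgebraicClosure K) (c : Fin r → AlgebraicClosure K),
      y q.2 = 1 ∧ c q.1 = 1 ∧
      (∀ i, F (fun t => algebraMap (𝓞 K) (AlgebraicClosure K) (A i t)) y = 0) ∧
      ∀ j, ∑ i, c i * D (fun t => algebraMap (𝓞 K) (AlgebraicClosure K) (A i t)) y j = 0} :=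
    ⟨_, rfl⟩
  have key : ∀ᶠ H : ℕ in atTop, ∀ q : Fin r × Fin (n + 1),
      ((Z H q).ncard : ℝ) ≤
      eps / ((r : ℝ) * ((n : ℝ) + 1)) * (2 * H + 1) ^ (mK K * NS n e) := by
    rw [hZ]
    exact eventually_all.2 fun q => sg_class e he q.1 q.2 _ (div_pos heps hq)
  filter_upwards [key] with H hH
  have hsub : {A : Sys n e (𝓞 K) | A ∈ BoxS K n e H ∧ ¬ SmoothS A} ⊆
      ⋃ q : Fin r × Fin (n + 1), Z H q := by
    rintro A ⟨hA, hS⟩
    unfold SmoothS at hS
    push Not at hS
    obtain ⟨x, hx, hF, hL⟩ := hS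
    rw [Fintype.linearIndependent_iff] at hL
    push Not at hL
    obtain ⟨g, hg, i0, hi0⟩ := hL
    obtain ⟨j0, hj0⟩ : ∃ j0, x j0 ≠ 0 := by
      by_contra hcon
      push Not at hcon
      exact hx (funext hcon)
    have hg' : ∀ j, ∑ i, g i * D (fun t => algebraMap (𝓞 K) (AlgebraicClosure K) (A i t)) x j = 0 := by
      intro j
      have := congrFun hg j
      simpa [Finset.sum_apply] using this
    rw [Set.mem_iUnion, hZ]
    refine ⟨(i0, j0), hA, fun j => (x j0)⁻¹ * x j,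
      fun i => (g i * x j0 ^ (e i - 1)) / (g i0 * x j0 ^ (e i0 - 1)), ?_, ?_, ?_, ?_⟩
    · simp only
      exact inv_mul_cancel₀ hj0
    · simp only
      exact div_self (mul_ne_zero hi0 (pow_ne_zero _ hj0))
    · intro i
      rw [F_scale, hF, mul_zero]
    · intro j
      have h1 : ∀ i, g i * x j0 ^ (e i - 1) / (g i0 * x j0 ^ (e i0 - 1)) *
          D (fun t => algebraMap (𝓞 K) (AlgebraicClosure K) (A i t)) (fun j => (x j0)⁻¹ * x j) j =
          (g i * D (fun t => algebraMap (𝓞 K) (AlgebraicClosure K) (A i t)) x j) /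
            (g i0 * x j0 ^ (e i0 - 1)) := by
        intro i
        rw [D_scale, inv_pow]
        field_simp
      rw [Finset.sum_congr rfl fun i _ => h1 i, ← Finset.sum_div, hg', zero_div]
  have hfin : ∀ q : Fin r × Fin (n + 1), (Z H q).Finite := by
    intro q
    rw [hZ]
    exact (Set.Finite.pi' (fun i : Fin r => Set.Finite.pi' (fun _ : Idx n (e i) =>
      boxO_finite (K := K) H))).subset fun A hA => hA.1
  have h1 := Set.ncard_le_ncard hsub (Set.finite_iUnion hfin)
  have h2 := Set.ncard_iUnion_le_of_fintype (fun q : Fin r × Fin (n + 1) => Z H q)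
  calc (Set.ncard {A : Sys n e (𝓞 K) | A ∈ BoxS K n e H ∧ ¬ SmoothS A} : ℝ)
      ≤ ((∑ q : Fin r × Fin (n + 1), (Z H q).ncard : ℕ) : ℝ) := by
        exact_mod_cast h1.trans h2
    _ ≤ ∑ _q : Fin r × Fin (n + 1),
        eps / ((r : ℝ) * ((n : ℝ) + 1)) * (2 * H + 1) ^ (mK K * NS n e) := by
        push_cast
        exact Finset.sum_le_sum fun q _ => hH q
    _ = eps * (2 * H + 1) ^ (mK K * NS n e) := by
        rw [Finset.sum_const, Finset.card_univ, Fintype.card_prod, Fintype.card_fin,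
          Fintype.card_fin, nsmul_eq_mul]
        push_cast
        field_simp

end main

end NKHP
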