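import Pool.Agent.Lib.MP_e426f4_ag.NK.Defs
import Pool.Agent.Lib.MP_e426f4_ag.CI.LeftKernel

/-!
NK-LeftKernel: small minors give a small combination of rows. Template: CI/LeftKernel.lean; lk_combination, lk_injective, lk_full there hold over every commutative ring.
left_kernel_P: let s < r be minimal with: all (s+1) x (s+1) minors are in P^((s+1)k). Choose an s x s minor mu0 of minimal valuation v at P (for s = 0 the minor is 1, v = 0); by minimality of s some s-minor is not in P^(sk), so v < sk or s = 0. lk_combination gives c (entries = s-minors up to sign or 0, so in P^v, c_{i1} = mu0)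
with sum_i c_i L_ij = (s+1)-minors in P^((s+1)k). Divide by a local generator: choose al in P^v, al not in P^(v+1), and de not in P with de P^v contained in (al) (the ideal (al) P^-v is integral and prime to P); c'_i = de c_i/al in O, c'_{i1} not in P, and al (sum c'_i L_ij) = de (..) in P^((s+1)k) gives
sum c'_i L_ij in P^((s+1)k - v), (s+1)k - v >= k.
left_kernel_C: same as CI left_kernel_real with norms (copy; |.| -> norm): s maximal with an s-minor of norm >= bet^s (s = 0 ok), take the largest such minor, all (s+1)-minors are < bet^(s+1): c_i/mu0. Reality: if L is real all the minors are real (c_i = minors/minor).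
-/

namespace NKHP

open NumberField GenHP NFHP Finset Filter Topology
open CIHP (Sys NS Jac nu Bf)

variable {K : Type} [Field K] [NumberField K] {n r : ℕ} {e : Fin r → ℕ}

/-- a local generator of `P ^ w` -/
private theorem lk_gen (P : Ideal (𝓞 K)) (hP : P.IsMaximal) (w : ℕ) :
    ∃ al de : 𝓞 K, de ∉ P ∧ (∀ x ∈ P ^ w, al ∣ de * x) ∧ al ∈ P ^ w ∧
      ∀ (y : 𝓞 K) (k : ℕ), al * y ∈ P ^ (w + k) → y ∈ P ^ k := by
  have hbot : P ≠ ⊥ := Ring.ne_bot_of_isMaximal_of_not_isField hP (RingOfIntegers.not_isField K)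
  have htop : P ≠ ⊤ := hP.ne_top
  obtain ⟨al, hal, hal'⟩ := Ideal.exists_mem_pow_notMem_pow_succ P hbot htop w
  have h1 : P ^ w ∣ Ideal.span {al} := by
    rw [Ideal.dvd_iff_le, Ideal.span_singleton_le_iff_mem]
    exact hal
  obtain ⟨J, hJ⟩ := h1
  have hJP : ¬ J ≤ P := by
    intro h2
    apply hal'
    rw [pow_succ, ← Ideal.span_singleton_le_iff_mem, hJ]
    exact Ideal.mul_mono_right h2
  obtain ⟨de, hde, hdeP⟩ := Set.not_subset.1 hJP
  refine ⟨al, de, hdeP, fun x hx => ?_, hal, fun y k hy => ?_⟩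
  · rw [← Ideal.mem_span_singleton, hJ, mul_comm de x]
    exact Ideal.mul_mem_mul hx hde
  · have hcop : IsCoprime (P ^ k) J := by
      apply IsCoprime.pow_left
      rw [Ideal.isCoprime_iff_sup_eq]
      refine hP.1.2 _ (lt_of_le_of_ne le_sup_left fun h2 => hJP ?_)
      rw [h2]
      exact le_sup_right
    have h2 : P ^ (w + k) ∣ Ideal.span {al} * Ideal.span {y} := by
      rw [Ideal.dvd_iff_le, Ideal.span_singleton_mul_span_singleton,
        Ideal.span_singleton_le_iff_mem]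
      exact hy
    rw [hJ, pow_add, mul_assoc] at h2
    have h3 : P ^ k ∣ J * Ideal.span {y} :=
      (mul_dvd_mul_iff_left (pow_ne_zero _ hbot)).1 h2
    have h4 : P ^ k ∣ Ideal.span {y} := hcop.dvd_of_dvd_mul_left h3
    rwa [Ideal.dvd_iff_le, Ideal.span_singleton_le_iff_mem] at h4

theorem left_kernel_P {m : ℕ} (hr : 1 ≤ r) (L : Matrix (Fin r) (Fin m) (𝓞 K)) (P : Ideal (𝓞 K))
    (hP : P.IsMaximal) (k : ℕ)
    (h : ∀ J : Fin r → Fin m, (L.submatrix id J).det ∈ P ^ (r * k)) :
    ∃ c : Fin r → 𝓞 K, (∃ i, c i ∉ P) ∧ ∀ j, ∑ i, c i * L i j ∈ P ^ k := by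
  classical
  have hpr : P.IsPrime := hP.isPrime
  have h1P : (1 : 𝓞 K) ∉ P := fun h1 => hP.ne_top ((Ideal.eq_top_iff_one P).2 h1)
  have hfull : ∀ (I : Fin r → Fin r) (J : Fin r → Fin m),
      (L.submatrix I J).det ∈ P ^ (r * k) := by
    intro I J
    rcases CIHP.lk_full L I J with h1 | ⟨a, h1⟩
    · rw [h1]
      exact Ideal.zero_mem _
    · rw [h1]
      exact Ideal.mul_mem_left _ _ (h J)
  have hPs : ∃ s : ℕ, ∀ (I : Fin (s + 1) → Fin r) (J : Fin (s + 1) → Fin m),
      (L.submatrix I J).det ∈ P ^ ((s + 1) * k) := by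
    obtain ⟨s, rfl⟩ : ∃ s, r = s + 1 := ⟨r - 1, by omega⟩
    exact ⟨s, hfull⟩
  have hsr : Nat.find hPs < r := by
    obtain ⟨s, rfl⟩ : ∃ s, r = s + 1 := ⟨r - 1, by omega⟩
    have : Nat.find hPs ≤ s := Nat.find_min' hPs hfull
    omega
  have hs := Nat.find_spec hPs
  have hmin : ∀ t, t < Nat.find hPs → ¬ ∀ (I : Fin (t + 1) → Fin r) (J : Fin (t + 1) → Fin m),
      (L.submatrix I J).det ∈ P ^ ((t + 1) * k) := fun t ht => Nat.find_min hPs ht
  generalize Nat.find hPs = s at hs hsr hmin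
  have hW' : ∃ w : ℕ, w ≤ s * k ∧ ∃ (I : Fin s → Fin r) (J : Fin s → Fin m),
      (L.submatrix I J).det ∉ P ^ (w + 1) := by
    rcases Nat.eq_zero_or_pos s with rfl | hspos
    · refine ⟨0, Nat.zero_le _, fun a => a.elim0, fun a => a.elim0, ?_⟩
      rw [Matrix.det_isEmpty, zero_add, pow_one]
      exact h1P
    · obtain ⟨t, rfl⟩ : ∃ t, s = t + 1 := ⟨s - 1, by omega⟩
      have h1 := hmin t (by omega)
      push Not at h1
      obtain ⟨I, J, hIJ⟩ := h1
      exact ⟨(t + 1) * k, le_rfl, I, J, fun h2 => hIJ (Ideal.pow_le_pow_right (by omega) h2)⟩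
  have hW : ∃ w : ℕ, ∃ (I : Fin s → Fin r) (J : Fin s → Fin m),
      (L.submatrix I J).det ∉ P ^ (w + 1) := by
    obtain ⟨w, -, h1⟩ := hW'
    exact ⟨w, h1⟩
  have hwle : Nat.find hW ≤ s * k := by
    obtain ⟨w, hw1, hw2⟩ := hW'
    exact (Nat.find_min' hW hw2).trans hw1
  have hw := Nat.find_spec hW
  have hwmin : ∀ t, t < Nat.find hW → ¬ ∃ (I : Fin s → Fin r) (J : Fin s → Fin m),
      (L.submatrix I J).det ∉ P ^ (t + 1) := fun t ht => Nat.find_min hW ht
  generalize Nat.find hW = w at hw hwle hwmin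
  obtain ⟨I0, J0, hIJ⟩ := hw
  have hall : ∀ (I : Fin s → Fin r) (J : Fin s → Fin m), (L.submatrix I J).det ∈ P ^ w := by
    intro I J
    rcases Nat.eq_zero_or_pos w with rfl | hwpos
    · rw [pow_zero, Ideal.one_eq_top]
      exact Submodule.mem_top
    · have h1 := hwmin (w - 1) (by omega)
      push Not at h1
      have h2 := h1 I J
      rwa [Nat.sub_add_cancel hwpos] at h2
  have hne : (L.submatrix I0 J0).det ≠ 0 := fun h0 => hIJ (by rw [h0]; exact Ideal.zero_mem _)
  obtain ⟨c, i1, hc1, hc2, hc3⟩ :=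
    CIHP.lk_combination L hsr I0 (CIHP.lk_injective L I0 J0 hne) J0
  have hcd : ∀ i, c i ∈ P ^ w := by
    intro i
    rcases hc2 i with h1 | ⟨a, I, h1⟩
    · rw [h1]
      exact Ideal.zero_mem _
    · rw [h1]
      exact Ideal.mul_mem_left _ _ (hall I J0)
  obtain ⟨al, de, hde, hdiv, hal, hcan⟩ := lk_gen P hP w
  choose c' hc' using fun i => hdiv (c i) (hcd i)
  refine ⟨c', ⟨i1, fun h1 => hIJ ?_⟩, fun j => ?_⟩
  · have h2 : de * c i1 ∈ P ^ (w + 1) := by
      rw [hc', pow_succ]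
      exact Ideal.mul_mem_mul hal h1
    rw [← hc1]
    rcases Ideal.IsPrime.mul_mem_pow P h2 with h3 | h3
    · exact absurd h3 hde
    · exact h3
  · obtain ⟨I, J, h1⟩ := hc3 j
    have h2 : al * ∑ i, c' i * L i j = de * ∑ i, c i * L i j := by
      rw [Finset.mul_sum, Finset.mul_sum]
      refine Finset.sum_congr rfl fun i _ => ?_
      rw [← mul_assoc, ← hc' i, mul_assoc]
    refine hcan _ _ ?_
    rw [h2, h1]
    refine Ideal.mul_mem_left _ _ (Ideal.pow_le_pow_right ?_ (hs I J))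
    rw [add_mul, one_mul]
    omega

omit [NumberField K] [Field K] in
theorem left_kernel_C {m : ℕ} (hr : 1 ≤ r) (L : Matrix (Fin r) (Fin m) ℂ) (bet : ℝ)
    (hb : 0 < bet) (h : ∀ J : Fin r → Fin m, ‖(L.submatrix id J).det‖ < bet ^ r) :
    ∃ c : Fin r → ℂ, (∀ i, ‖c i‖ ≤ 1) ∧ (∃ i, c i = 1) ∧ (∀ j, ‖∑ i, c i * L i j‖ ≤ bet) ∧
      ((∀ i j, (L i j).im = 0) → ∀ i, (c i).im = 0) := by
  classical
  have hPr : ∀ (I : Fin r → Fin r) (J : Fin r → Fin m), ‖(L.submatrix I J).det‖ < bet ^ r := by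
    intro I J
    rcases CIHP.lk_full L I J with h1 | ⟨a, h1⟩
    · rw [h1, norm_zero]
      positivity
    · rw [h1, norm_mul, norm_pow, norm_neg, norm_one, one_pow, one_mul]
      exact h J
  have hP : ∃ s : ℕ, ∀ (I : Fin s → Fin r) (J : Fin s → Fin m),
      ‖(L.submatrix I J).det‖ < bet ^ s := ⟨r, hPr⟩
  have hsr : Nat.find hP ≤ r := Nat.find_min' hP hPr
  have hs := Nat.find_spec hP
  have hmin : ∀ t, t < Nat.find hP → ¬ ∀ (I : Fin t → Fin r) (J : Fin t → Fin m),
      ‖(L.submatrix I J).det‖ < bet ^ t := fun t ht => Nat.find_min hP ht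
  generalize Nat.find hP = s' at hs hsr hmin
  obtain ⟨s, rfl⟩ : ∃ s, s' = s + 1 := by
    rcases Nat.eq_zero_or_pos s' with rfl | hpos
    · have h1 := hs (fun a => a.elim0) (fun a => a.elim0)
      rw [Matrix.det_isEmpty] at h1
      norm_num at h1
    · exact ⟨s' - 1, by omega⟩
  have h1 := hmin s (by omega)
  push Not at h1
  obtain ⟨I1, J1, hIJ1⟩ := h1
  have : Nonempty ((Fin s → Fin r) × (Fin s → Fin m)) := ⟨(I1, J1)⟩
  obtain ⟨⟨I0, J0⟩, hmax⟩ := Finite.exists_max
    (fun q : (Fin s → Fin r) × (Fin s → Fin m) => ‖(L.submatrix q.1 q.2).det‖)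
  have hD : bet ^ s ≤ ‖(L.submatrix I0 J0).det‖ := hIJ1.trans (hmax (I1, J1))
  have hDpos : 0 < ‖(L.submatrix I0 J0).det‖ := lt_of_lt_of_le (by positivity) hD
  have hne : (L.submatrix I0 J0).det ≠ 0 := norm_pos_iff.1 hDpos
  obtain ⟨c, i1, hc1, hc2, hc3⟩ :=
    CIHP.lk_combination L (by omega) I0 (CIHP.lk_injective L I0 J0 hne) J0
  refine ⟨fun i => c i / (L.submatrix I0 J0).det, fun i => ?_, ⟨i1, ?_⟩, fun j => ?_,
    fun him i => ?_⟩
  · rw [norm_div, div_le_one hDpos]
    rcases hc2 i with h1 | ⟨a, I, h1⟩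
    · rw [h1, norm_zero]
      exact hDpos.le
    · rw [h1, norm_mul, norm_pow, norm_neg, norm_one, one_pow, one_mul]
      exact hmax (I, J0)
  · simp only
    rw [hc1, div_self hne]
  · obtain ⟨I, J, h1⟩ := hc3 j
    have h2 : ∑ i, c i / (L.submatrix I0 J0).det * L i j =
        (L.submatrix I J).det / (L.submatrix I0 J0).det := by
      rw [← h1, Finset.sum_div]
      refine Finset.sum_congr rfl fun i _ => ?_
      ring
    rw [h2, norm_div, div_le_iff₀ hDpos]
    calc ‖(L.submatrix I J).det‖ ≤ bet ^ (s + 1) := (hs I J).le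
      _ = bet * bet ^ s := by ring
      _ ≤ bet * ‖(L.submatrix I0 J0).det‖ := mul_le_mul_of_nonneg_left hD hb.le
  · have hL : L = (L.map Complex.re).map (fun x : ℝ => (x : ℂ)) := by
      ext i j
      rw [Matrix.map_apply, Matrix.map_apply]
      exact Complex.ext (by simp) (by simpa using him i j)
    have hdet : ∀ (I : Fin s → Fin r) (J : Fin s → Fin m),
        (L.submatrix I J).det = (((L.map Complex.re).submatrix I J).det : ℂ) := by
      intro I J
      conv_lhs => rw [hL]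
      have h3 : (((L.map Complex.re).map (fun x : ℝ => (x : ℂ))).submatrix I J) =
          ((L.map Complex.re).submatrix I J).map (Complex.ofRealHom : ℝ →+* ℂ) := rfl
      rw [h3]
      exact (RingHom.map_det Complex.ofRealHom _).symm
    show (c i / (L.submatrix I0 J0).det).im = 0
    rcases hc2 i with h1 | ⟨a, I, h1⟩
    · rw [h1]
      simp
    · rw [h1, hdet, hdet]
      have h4 : (-1 : ℂ) ^ a * (((L.map Complex.re).submatrix I J0).det : ℂ) /
          (((L.map Complex.re).submatrix I0 J0).det : ℂ) =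
          (((-1 : ℝ) ^ a * ((L.map Complex.re).submatrix I J0).det /
          ((L.map Complex.re).submatrix I0 J0).det : ℝ) : ℂ) := by
        push_cast
        rfl
      rw [h4]
      exact Complex.ofReal_im _

end NKHP
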