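import Pool.Agent.Lib.MP_e426f4_ag.NK.Basic
import Pool.Agent.Lib.MP_e426f4_ag.NK.LeftKernel
import Pool.Agent.Lib.MP_e426f4_ag.NK.RealLoc
import Pool.Agent.Lib.MP_e426f4_ag.N.AlgCplx
import Pool.Agent.Lib.MP_e426f4_ag.N.Lat

/-!
NK-InfExc: systems without a good point at an infinite place are few.
-/

set_option linter.unusedSectionVars false

namespace NKHP

open NumberField GenHP NFHP NKRC Finset Filter Topology
open CIHP (Sys NS Jac nu Bf)

/-! ### Counting with triangular conditions -/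

section tri

private theorem ix_prod_ite {I : Type*} [Fintype I] [DecidableEq I] (K : Finset I) (c : ℕ) :
    ∏ t : I, (if t ∈ K then c else 1) = c ^ K.card := by
  rw [Finset.prod_ite_mem, Finset.univ_inter, Finset.prod_const]

private theorem ix_fibre {I M : Type*} [Fintype I] [DecidableEq I] [DecidableEq M]
    (T : Finset I) (S : Finset (I → M))
    (N : ℕ) (hag : ∀ A ∈ S, ∀ A' ∈ S, ∀ t, t ∉ T → A t = A' t)
    (h : ∀ t ∈ T, (S.image fun A => A t).card ≤ N) : S.card ≤ N ^ T.card := by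
  classical
  rcases S.eq_empty_or_nonempty with rfl | ⟨A0, hA0⟩
  · simp
  have hsub : S ⊆ Fintype.piFinset fun t => if t ∈ T then S.image (fun A => A t) else {A0 t} := by
    intro A hA
    rw [Fintype.mem_piFinset]
    intro t
    split_ifs with ht
    · exact Finset.mem_image.mpr ⟨A, hA, rfl⟩
    · rw [Finset.mem_singleton]
      exact hag A hA A0 hA0 t ht
  refine (Finset.card_le_card hsub).trans ?_
  rw [Fintype.card_piFinset, ← ix_prod_ite T N]
  refine Finset.prod_le_prod' fun t _ => ?_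
  split_ifs with ht
  · exact h t ht
  · simp

private theorem ix_tri_count {I M : Type*} [Fintype I] [DecidableEq I] [DecidableEq M] [Zero M]
    (J T : Finset I)
    (hJT : Disjoint J T) (Bf : Finset M) (S : Finset (I → M)) (hS : ∀ A ∈ S, ∀ t, A t ∈ Bf) (N : ℕ)
    (h1 : ∀ a ∈ J, ∀ S' ⊆ S, (∀ A ∈ S', ∀ A' ∈ S', ∀ t, t ∉ J → t ∉ T → A t = A' t) →
      (S'.image fun A => A a).card ≤ N)
    (h0 : ∀ a ∈ T, ∀ S' ⊆ S, (∀ A ∈ S', ∀ A' ∈ S', ∀ t, t ∉ T → A t = A' t) →
      (S'.image fun A => A a).card ≤ N) :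
    S.card ≤ Bf.card ^ (Fintype.card I - (J.card + T.card)) * N ^ (J.card + T.card) := by
  classical
  set K : Finset I := (J ∪ T)ᶜ with hK
  have hKcard : K.card = Fintype.card I - (J.card + T.card) := by
    rw [hK, Finset.card_compl, Finset.card_union_of_disjoint hJT]
  have memK : ∀ t, t ∈ K ↔ t ∉ J ∧ t ∉ T := by
    intro t
    simp [hK]
  have hJT' : ∀ t, t ∈ J → t ∉ T := fun t ht ht' => (Finset.disjoint_left.mp hJT) ht ht'
  -- fibres over the values off `T`
  have step0 : ∀ S' ⊆ S, (∀ A ∈ S', ∀ A' ∈ S', ∀ t, t ∉ T → A t = A' t) →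
      S'.card ≤ N ^ T.card := fun S' hS' hag => ix_fibre T S' N hag fun t ht => h0 t ht S' hS' hag
  -- fibres over the values off `J` and `T`
  have step1 : ∀ S' ⊆ S, (∀ A ∈ S', ∀ A' ∈ S', ∀ t, t ∉ J → t ∉ T → A t = A' t) →
      S'.card ≤ N ^ (J.card + T.card) := by
    intro S' hS' hagree
    let σ : (I → M) → I → M := fun A t => if t ∈ T then 0 else A t
    have e1 := Finset.card_le_mul_card_image (f := σ) S' (N ^ T.card) (by
      intro r _
      apply step0
      · exact (Finset.filter_subset _ _).trans hS'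
      · intro A hA A' hA' t ht
        rw [Finset.mem_filter] at hA hA'
        have := congrFun (hA.2.trans hA'.2.symm) t
        simpa [σ, ht] using this)
    have e2 : (S'.image σ).card ≤ N ^ J.card := by
      apply ix_fibre J
      · intro B hB B' hB' t ht
        obtain ⟨A, hA, rfl⟩ := Finset.mem_image.mp hB
        obtain ⟨A', hA', rfl⟩ := Finset.mem_image.mp hB'
        by_cases htT : t ∈ T
        · simp [σ, htT]
        · simp only [σ, if_neg htT]
          exact hagree A hA A' hA' t ht htT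
      · intro t ht
        have hs : ((S'.image σ).image fun A => A t) ⊆ S'.image fun A => A t := by
          intro v hv
          obtain ⟨B, hB, rfl⟩ := Finset.mem_image.mp hv
          obtain ⟨A, hA, rfl⟩ := Finset.mem_image.mp hB
          refine Finset.mem_image.mpr ⟨A, hA, ?_⟩
          simp [σ, hJT' t ht]
        exact (Finset.card_le_card hs).trans (h1 t ht S' hS' hagree)
    calc S'.card ≤ N ^ T.card * (S'.image σ).card := e1
      _ ≤ N ^ T.card * N ^ J.card := Nat.mul_le_mul_left _ e2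
      _ = N ^ (J.card + T.card) := by rw [← pow_add, add_comm]
  let ρ : (I → M) → I → M := fun A t => if t ∈ K then A t else 0
  have e1 := Finset.card_le_mul_card_image (f := ρ) S (N ^ (J.card + T.card)) (by
    intro r _
    apply step1
    · exact Finset.filter_subset _ _
    · intro A hA A' hA' t ht ht'
      rw [Finset.mem_filter] at hA hA'
      have := congrFun (hA.2.trans hA'.2.symm) t
      have htK : t ∈ K := (memK t).mpr ⟨ht, ht'⟩
      simpa [ρ, htK] using this)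
  have e2 : (S.image ρ).card ≤ Bf.card ^ K.card := by
    have hsub : S.image ρ ⊆ Fintype.piFinset fun t => if t ∈ K then Bf else {0} := by
      intro B hB
      rw [Finset.mem_image] at hB
      obtain ⟨A, hA, rfl⟩ := hB
      rw [Fintype.mem_piFinset]
      intro t
      by_cases ht : t ∈ K
      · simp only [ρ, ht, if_true]
        exact hS A hA t
      · simp [ρ, ht]
    refine (Finset.card_le_card hsub).trans ?_
    rw [Fintype.card_piFinset, ← ix_prod_ite K Bf.card]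
    refine Finset.prod_le_prod' fun t _ => ?_
    split_ifs with ht
    · exact le_rfl
    · simp
  calc S.card ≤ N ^ (J.card + T.card) * (S.image ρ).card := e1
    _ ≤ N ^ (J.card + T.card) * Bf.card ^ K.card := Nat.mul_le_mul_left _ e2
    _ = Bf.card ^ (Fintype.card I - (J.card + T.card)) * N ^ (J.card + T.card) := by
        rw [hKcard]; ring

end tri

/-! ### Two families of monomials -/

section mono

variable {n : ℕ}

/-- the exponent vector of `x_{j0}^d` -/
private def ix_pw (j0 : Fin (n + 1)) (d : ℕ) : Idx n d := ⟨Pi.single j0 d, by simp⟩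

/-- the exponent vector of `x_{j0}^(d-1) x_j` (for `d ≥ 1`) -/
private def ix_pm (j0 j : Fin (n + 1)) (d : ℕ) (hd : 1 ≤ d) : Idx n d :=
  ⟨Pi.single j0 (d - 1) + Pi.single j 1, by
    simp only [Pi.add_apply, Finset.sum_add_distrib]
    simp
    omega⟩

private theorem ix_mon_pw (x : Fin (n + 1) → ℂ) (j0 : Fin (n + 1)) (d : ℕ) :
    mon x (ix_pw j0 d).1 = x j0 ^ d := by
  unfold mon ix_pw
  rw [Finset.prod_eq_single j0]
  · simp
  · intro i _ hi
    simp [hi]
  · intro h; exact absurd (mem_univ _) h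

private theorem ix_mon_single (x : Fin (n + 1) → ℂ) (j0 : Fin (n + 1)) (d : ℕ) :
    mon x (Pi.single j0 d : Fin (n + 1) → ℕ) = x j0 ^ d := ix_mon_pw x j0 d

private theorem ix_dmon_single (x : Fin (n + 1) → ℂ) (j0 j : Fin (n + 1)) (hj : j ≠ j0) (d : ℕ) :
    dmon x j (Pi.single j0 d : Fin (n + 1) → ℕ) = 0 := by
  unfold dmon
  simp [hj]

private theorem ix_dmon_pm (x : Fin (n + 1) → ℂ) (j0 j j' : Fin (n + 1)) (hj : j ≠ j0) (d : ℕ)
    (hd : 1 ≤ d) :
    dmon x j (ix_pm j0 j' d hd).1 = if j = j' then x j0 ^ (d - 1) else 0 := by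
  show dmon x j (Pi.single j0 (d - 1) + Pi.single j' 1 : Fin (n + 1) → ℕ) = _
  rw [ALR.dmon_succ, ix_mon_single, ix_dmon_single x j0 j hj, mul_zero, add_zero]

private theorem ix_pm_inj (j0 j j' : Fin (n + 1)) (d : ℕ) (hd : 1 ≤ d)
    (h : ix_pm j0 j d hd = ix_pm j0 j' d hd) : j = j' := by
  have h1 : (Pi.single j0 (d - 1) + Pi.single j 1 : Fin (n + 1) → ℕ) =
      Pi.single j0 (d - 1) + Pi.single j' 1 := congrArg Subtype.val h
  have h2 : (Pi.single j 1 : Fin (n + 1) → ℕ) = Pi.single j' 1 := add_left_cancel h1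
  by_contra hne
  have h3 := congrFun h2 j
  simp [hne] at h3

private theorem ix_pm_ne_pw (j0 j : Fin (n + 1)) (hj : j ≠ j0) (d : ℕ) (hd : 1 ≤ d) :
    ix_pm j0 j d hd ≠ ix_pw j0 d := by
  intro h
  have h1 : (Pi.single j0 (d - 1) + Pi.single j 1 : Fin (n + 1) → ℕ) = Pi.single j0 d :=
    congrArg Subtype.val h
  have h2 := congrFun h1 j
  simp [hj] at h2

end mono

/-! ### Systems with small values and small combination of derivatives at a fixed point -/

section fixed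

variable {K : Type} [Field K] [NumberField K] {n r d : ℕ} {e : Fin r → ℕ}

private theorem ix_F_diff (a a' : Idx n d → ℂ) (x : Fin (n + 1) → ℂ) (t0 : Idx n d)
    (h : ∀ t, t ≠ t0 → a t = a' t) :
    F a x - F a' x = (a t0 - a' t0) * mon x t0.1 := by
  unfold F
  rw [← Finset.sum_sub_distrib, Finset.sum_eq_single t0]
  · ring
  · intro t _ ht
    rw [h t ht, sub_self]
  · intro h; exact absurd (mem_univ _) h

private theorem ix_D_diff1 (a a' : Idx n d → ℂ) (x : Fin (n + 1) → ℂ) (j : Fin (n + 1))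
    (t0 : Idx n d) (h : ∀ t, t ≠ t0 → dmon x j t.1 ≠ 0 → a t = a' t) :
    D a x j - D a' x j = (a t0 - a' t0) * dmon x j t0.1 := by
  unfold D
  rw [← Finset.sum_sub_distrib, Finset.sum_eq_single t0]
  · ring
  · intro t _ ht
    by_cases h0 : dmon x j t.1 = 0
    · rw [h0, mul_zero, mul_zero, sub_self]
    · rw [h t ht h0, sub_self]
  · intro h; exact absurd (mem_univ _) h

open Classical in
/-- the sizes at the places -/
private noncomputable def ix_X (w : InfinitePlace K) (r s : ℝ) : InfinitePlace K → ℝ :=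
  fun w' => if w' = w then r else s

private theorem ix_np (w : InfinitePlace K) (r s : ℝ) :
    np (ix_X w r s) = r ^ w.mult * s ^ (mK K - w.mult) := by
  classical
  unfold np
  rw [← Finset.mul_prod_erase univ _ (mem_univ w)]
  have h1 : ix_X w r s w = r := by unfold ix_X; rw [if_pos rfl]
  have h2 : ∏ w' ∈ univ.erase w, ix_X w r s w' ^ w'.mult =
      ∏ w' ∈ univ.erase w, s ^ w'.mult := by
    refine Finset.prod_congr rfl fun w' hw' => ?_
    unfold ix_X
    rw [if_neg (Finset.ne_of_mem_erase hw')]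
  rw [h1, h2, Finset.prod_pow_eq_pow_sum]
  have h3 : w.mult + ∑ w' ∈ univ.erase w, w'.mult = mK K := by
    rw [Finset.add_sum_erase univ (fun w' : InfinitePlace K => w'.mult) (mem_univ w)]
    exact sum_mult
  congr 2
  omega

open Classical in
private theorem ix_card_image (w : InfinitePlace K) (C : ℝ)
    (hC : ∀ I : Ideal (𝓞 K), I ≠ ⊥ → ∀ X : InfinitePlace K → ℝ, (∀ w, 0 < X w) →
      ∀ v : InfinitePlace K → ℂ,
      {a : 𝓞 K | a ∈ I ∧ ∀ w, ‖sg w a - v w‖ ≤ X w}.Finite ∧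
      (Set.ncard {a : 𝓞 K | a ∈ I ∧ ∀ w, ‖sg w a - v w‖ ≤ X w} : ℝ) ≤
        C * (np X / Ideal.absNorm I + 1)) (H : ℝ) (hH : 0 < H) (wd : ℝ) (hwd : 0 < wd)
    (Z : Finset (𝓞 K)) (hZ : ∀ a ∈ Z, ∀ j, |(crd a j : ℝ)| ≤ H)
    (hZ2 : ∀ a ∈ Z, ∀ a' ∈ Z, ‖sg w a - sg w a'‖ ≤ wd) :
    Z.card ≤ ⌊C * (wd ^ w.mult * (cK K * H) ^ (mK K - w.mult) + 1)⌋₊ := by
  have hcK := cK_pos (K := K)
  rcases Z.eq_empty_or_nonempty with rfl | ⟨a0, ha0⟩
  · simp
  let v : InfinitePlace K → ℂ := fun w' => if w' = w then sg w a0 else 0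
  have hX : ∀ w', 0 < ix_X w wd (cK K * H) w' := by
    intro w'
    unfold ix_X
    split_ifs
    · exact hwd
    · positivity
  obtain ⟨hfin, hcard⟩ := hC ⊤ (by simp) (ix_X w wd (cK K * H)) hX v
  rw [ix_np, Ideal.absNorm_top, Nat.cast_one, div_one] at hcard
  have hsub : (Z : Set (𝓞 K)) ⊆
      {a : 𝓞 K | a ∈ (⊤ : Ideal (𝓞 K)) ∧ ∀ w', ‖sg w' a - v w'‖ ≤ ix_X w wd (cK K * H) w'} := by
    intro a ha
    refine ⟨Submodule.mem_top, fun w' => ?_⟩
    by_cases hw : w' = w
    · subst hw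
      simp only [v, ix_X, if_true]
      exact hZ2 a ha a0 ha0
    · simp only [v, ix_X, if_neg hw, sub_zero]
      exact norm_sg_le_of_crd (hZ a ha) w'
  have h1 := Set.ncard_le_ncard hsub hfin
  rw [Set.ncard_coe_finset] at h1
  refine Nat.le_floor ?_
  refine le_trans ?_ hcard
  exact_mod_cast h1

/-- the box in one coefficient -/
private theorem ix_box (K : Type) [Field K] [NumberField K] (H : ℕ) :
    ∃ Bf : Finset (𝓞 K), Bf.card = (2 * H + 1) ^ mK K ∧
      ∀ a : 𝓞 K, (∀ j, |(crd a j : ℝ)| ≤ H) → a ∈ Bf := by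
  classical
  choose g hg using exists_crd (K := K)
  have hginj : Function.Injective g := by
    intro c c' h
    funext j
    rw [← hg c j, ← hg c' j, h]
  refine ⟨(Fintype.piFinset fun _ : IK K => Icc (-(H : ℤ)) H).image g, ?_, fun a ha => ?_⟩
  · rw [Finset.card_image_of_injective _ hginj, Fintype.card_piFinset]
    rw [Finset.prod_const, Finset.card_univ, card_IK, Int.card_Icc]
    congr 1
    omega
  · refine Finset.mem_image.mpr ⟨fun j => crd a j, ?_, ?_⟩
    · rw [Fintype.mem_piFinset]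
      intro j
      rw [Finset.mem_Icc]
      have := ha j
      rw [abs_le] at this
      constructor
      · exact_mod_cast this.1
      · exact_mod_cast this.2
    · exact crd_ext fun j => hg _ j

/-- coefficients of a system as one vector -/
private def iy_flat {R : Type*} (A : Sys n e R) : (Σ i : Fin r, Idx n (e i)) → R :=
  fun s => A s.1 s.2

private theorem iy_flat_inj {R : Type*} : Function.Injective (iy_flat (n := n) (e := e) (R := R)) := by
  intro A A' h
  funext i t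
  exact congrFun h ⟨i, t⟩

private theorem iy_card_sigma : Fintype.card (Σ i : Fin r, Idx n (e i)) = NS n e := by
  rw [Fintype.card_sigma]
  rfl

private theorem ix_D_diff0 (a a' : Idx n d → ℂ) (x : Fin (n + 1) → ℂ) (j : Fin (n + 1))
    (h : ∀ t, dmon x j t.1 ≠ 0 → a t = a' t) : D a x j = D a' x j := by
  unfold D
  refine Finset.sum_congr rfl fun t _ => ?_
  by_cases h0 : dmon x j t.1 = 0
  · rw [h0, mul_zero, mul_zero]
  · rw [h t h0]

private theorem iy_card_point (he : ∀ i, 1 ≤ e i) (w : InfinitePlace K) (C : ℝ)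
    (hC : ∀ I : Ideal (𝓞 K), I ≠ ⊥ → ∀ X : InfinitePlace K → ℝ, (∀ w, 0 < X w) →
      ∀ v : InfinitePlace K → ℂ,
      {a : 𝓞 K | a ∈ I ∧ ∀ w, ‖sg w a - v w‖ ≤ X w}.Finite ∧
      (Set.ncard {a : 𝓞 K | a ∈ I ∧ ∀ w, ‖sg w a - v w‖ ≤ X w} : ℝ) ≤
        C * (np X / Ideal.absNorm I + 1)) (H : ℕ) (hH : 1 ≤ H) (wd : ℝ) (hwd : 0 < wd)
    (x : Fin (n + 1) → ℂ) (j0 : Fin (n + 1)) (hx : x j0 = 1)
    (c : Fin r → ℂ) (i0 : Fin r) (hc : c i0 = 1)
    (S : Finset (Sys n e (𝓞 K))) (hS : ∀ A ∈ S, A ∈ BoxS K n e H)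
    (hF : ∀ A ∈ S, ∀ i, ‖F (sgS w A i) x‖ ≤ wd)
    (hD : ∀ A ∈ S, ∀ j, ‖∑ i, c i * D (sgS w A i) x j‖ ≤ wd) :
    S.card ≤ ((2 * H + 1) ^ mK K) ^ (NS n e - (n + r)) *
      ⌊C * ((2 * wd) ^ w.mult * (cK K * H) ^ (mK K - w.mult) + 1)⌋₊ ^ (n + r) ∧
      n + r ≤ NS n e := by
  classical
  obtain ⟨Bf, hBf, hBfm⟩ := ix_box K H
  have hH0 : (0 : ℝ) < H := by exact_mod_cast hH
  let I := Σ i : Fin r, Idx n (e i)
  let J : Finset I := (univ.erase j0).image fun j => ⟨i0, ix_pm j0 j (e i0) (he i0)⟩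
  let T : Finset I := univ.image fun i : Fin r => ⟨i, ix_pw j0 (e i)⟩
  have hJcard : J.card = n := by
    rw [Finset.card_image_of_injOn, Finset.card_erase_of_mem (mem_univ _), Finset.card_univ,
      Fintype.card_fin, Nat.add_sub_cancel]
    intro j _ j' _ h
    have h1 := eq_of_heq (Sigma.mk.inj h).2
    exact ix_pm_inj j0 j j' _ _ h1
  have hTcard : T.card = r := by
    rw [Finset.card_image_of_injective, Finset.card_univ, Fintype.card_fin]
    intro i i' h
    exact (Sigma.mk.inj h).1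
  have hmemT : ∀ (i : Fin r) (t : Idx n (e i)), (⟨i, t⟩ : I) ∈ T ↔ t = ix_pw j0 (e i) := by
    intro i t
    constructor
    · intro h
      obtain ⟨i', -, h1⟩ := Finset.mem_image.mp h
      obtain ⟨h2, h3⟩ := Sigma.mk.inj h1
      subst h2
      exact (eq_of_heq h3).symm
    · rintro rfl
      exact Finset.mem_image.mpr ⟨i, mem_univ _, rfl⟩
  have hmemJ : ∀ (i : Fin r) (t : Idx n (e i)), (⟨i, t⟩ : I) ∈ J →
      i = i0 ∧ ∃ j, j ≠ j0 ∧ t = ix_pm j0 j (e i) (he i) := by
    intro i t h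
    obtain ⟨j, hj, h1⟩ := Finset.mem_image.mp h
    obtain ⟨h2, h3⟩ := Sigma.mk.inj h1
    subst h2
    exact ⟨rfl, j, Finset.ne_of_mem_erase hj, (eq_of_heq h3).symm⟩
  have hJT : Disjoint J T := by
    rw [Finset.disjoint_left]
    rintro ⟨i, t⟩ h h'
    obtain ⟨-, j, hj, h1⟩ := hmemJ i t h
    rw [hmemT, h1] at h'
    exact ix_pm_ne_pw j0 j hj _ _ h'
  have hle : n + r ≤ NS n e := by
    have h1 : (J ∪ T).card ≤ Fintype.card I := Finset.card_le_univ _
    rw [Finset.card_union_of_disjoint hJT, hJcard, hTcard] at h1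
    rwa [← iy_card_sigma]
  refine ⟨?_, hle⟩
  have hmain := ix_tri_count J T hJT Bf (S.image iy_flat) (by
    intro B hB s
    obtain ⟨A, hA, rfl⟩ := Finset.mem_image.mp hB
    exact hBfm _ fun j => hS A hA s.1 s.2 j)
    ⌊C * ((2 * wd) ^ w.mult * (cK K * H) ^ (mK K - w.mult) + 1)⌋₊ (by
    intro a ha S' hS' hag
    obtain ⟨j, hj, rfl⟩ := Finset.mem_image.mp ha
    have hj' : j ≠ j0 := Finset.ne_of_mem_erase hj
    apply ix_card_image w C hC H hH0 (2 * wd) (by positivity)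
    · intro v hv
      obtain ⟨B, hB, rfl⟩ := Finset.mem_image.mp hv
      obtain ⟨A, hA, rfl⟩ := Finset.mem_image.mp (hS' hB)
      exact hS A hA _ _
    · intro v hv v' hv'
      obtain ⟨B, hB, rfl⟩ := Finset.mem_image.mp hv
      obtain ⟨B', hB', rfl⟩ := Finset.mem_image.mp hv'
      obtain ⟨A, hA, rfl⟩ := Finset.mem_image.mp (hS' hB)
      obtain ⟨A', hA', rfl⟩ := Finset.mem_image.mp (hS' hB')
      have hag' : ∀ (i : Fin r) (t : Idx n (e i)), (⟨i, t⟩ : I) ∉ J → (⟨i, t⟩ : I) ∉ T →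
          A i t = A' i t := fun i t h h' => hag _ hB _ hB' ⟨i, t⟩ h h'
      have h1 := hD A hA j
      have h2 := hD A' hA' j
      have hdpw : ∀ i, dmon x j (ix_pw (n := n) j0 (e i)).1 = 0 := fun i =>
        ix_dmon_single x j0 j hj' (e i)
      have hother : ∀ i, i ≠ i0 → D (sgS w A i) x j = D (sgS w A' i) x j := by
        intro i hi
        apply ix_D_diff0
        intro t ht
        show sg w (A i t) = sg w (A' i t)
        rw [hag' i t]
        · intro h
          exact hi (hmemJ i t h).1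
        · intro h
          rw [hmemT] at h
          rw [h] at ht
          exact ht (hdpw i)
      have hmain : D (sgS w A i0) x j - D (sgS w A' i0) x j =
          (sgS w A i0 (ix_pm j0 j (e i0) (he i0)) - sgS w A' i0 (ix_pm j0 j (e i0) (he i0))) *
            dmon x j (ix_pm j0 j (e i0) (he i0)).1 := by
        apply ix_D_diff1
        intro t ht hdt
        show sg w (A i0 t) = sg w (A' i0 t)
        rw [hag' i0 t]
        · intro h
          obtain ⟨-, j', hj'', h3⟩ := hmemJ i0 t h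
          rw [h3, ix_dmon_pm x j0 j j' hj'] at hdt
          by_cases hjj : j = j'
          · exact ht (by rw [h3, hjj])
          · rw [if_neg hjj] at hdt
            exact hdt rfl
        · intro h
          rw [hmemT] at h
          rw [h] at hdt
          exact hdt (hdpw i0)
      rw [ix_dmon_pm x j0 j j hj', if_pos rfl, hx, one_pow, mul_one] at hmain
      have h3 : ∑ i, c i * D (sgS w A i) x j - ∑ i, c i * D (sgS w A' i) x j =
          sgS w A i0 (ix_pm j0 j (e i0) (he i0)) - sgS w A' i0 (ix_pm j0 j (e i0) (he i0)) := by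
        rw [← hmain, ← Finset.sum_sub_distrib, Finset.sum_eq_single i0]
        · rw [hc]
          ring
        · intro i _ hi
          rw [hother i hi, sub_self]
        · intro h; exact absurd (mem_univ _) h
      show ‖sgS w A i0 (ix_pm j0 j (e i0) (he i0)) - sgS w A' i0 (ix_pm j0 j (e i0) (he i0))‖ ≤
        2 * wd
      rw [← h3]
      refine (norm_sub_le _ _).trans ?_
      linarith) (by
    intro a ha S' hS' hag
    obtain ⟨i, -, rfl⟩ := Finset.mem_image.mp ha
    apply ix_card_image w C hC H hH0 (2 * wd) (by positivity)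
    · intro v hv
      obtain ⟨B, hB, rfl⟩ := Finset.mem_image.mp hv
      obtain ⟨A, hA, rfl⟩ := Finset.mem_image.mp (hS' hB)
      exact hS A hA _ _
    · intro v hv v' hv'
      obtain ⟨B, hB, rfl⟩ := Finset.mem_image.mp hv
      obtain ⟨B', hB', rfl⟩ := Finset.mem_image.mp hv'
      obtain ⟨A, hA, rfl⟩ := Finset.mem_image.mp (hS' hB)
      obtain ⟨A', hA', rfl⟩ := Finset.mem_image.mp (hS' hB')
      have h1 := hF A hA i
      have h2 := hF A' hA' i
      have h3 := ix_F_diff (sgS w A i) (sgS w A' i) x (ix_pw j0 (e i)) (by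
        intro t ht
        show sg w (A i t) = sg w (A' i t)
        have h4 : A i t = A' i t := hag _ hB _ hB' ⟨i, t⟩ (by rwa [hmemT])
        rw [h4])
      rw [ix_mon_pw, hx, one_pow, mul_one] at h3
      show ‖sgS w A i (ix_pw j0 (e i)) - sgS w A' i (ix_pw j0 (e i))‖ ≤ 2 * wd
      rw [← h3]
      refine (norm_sub_le _ _).trans ?_
      linarith)
  rw [Finset.card_image_of_injective _ iy_flat_inj, hJcard, hTcard, iy_card_sigma, hBf] at hmain
  exact hmain

end fixed

/-! ### Nets -/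

section nets

private theorem ix_trunc (y : ℝ) : ∃ m : ℤ, |(m : ℝ)| ≤ |y| ∧ |y - m| ≤ 1 := by
  rcases le_or_gt 0 y with hy | hy
  · refine ⟨⌊y⌋, ?_, ?_⟩
    · rw [abs_of_nonneg hy, abs_of_nonneg (by exact_mod_cast Int.floor_nonneg.2 hy)]
      exact Int.floor_le y
    · rw [abs_le]
      constructor <;> linarith [Int.floor_le y, Int.lt_floor_add_one y]
  · refine ⟨⌈y⌉, ?_, ?_⟩
    · rw [abs_of_neg hy]
      have h1 : ⌈y⌉ ≤ 0 := Int.ceil_le.2 (by simpa using hy.le)
      have h2 : (⌈y⌉ : ℝ) ≤ 0 := by exact_mod_cast h1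
      rw [abs_of_nonpos h2]
      linarith [Int.le_ceil y]
    · rw [abs_le]
      constructor <;> linarith [Int.le_ceil y, Int.ceil_lt_add_one y]

private theorem ix_near (bet : ℝ) (hb : 0 < bet) (y : ℝ) (hy : |y| ≤ 1) :
    ∃ m : ℤ, m ∈ Icc (-⌊1 / bet⌋) ⌊1 / bet⌋ ∧ |bet * m - y| ≤ bet := by
  obtain ⟨m, h1, h2⟩ := ix_trunc (y / bet)
  refine ⟨m, ?_, ?_⟩
  · have h3 : |y / bet| ≤ 1 / bet := by
      rw [abs_div, abs_of_pos hb]
      exact div_le_div_of_nonneg_right hy hb.le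
    have h4 := abs_le.1 (h1.trans h3)
    rw [Finset.mem_Icc]
    constructor
    · have : -m ≤ ⌊1 / bet⌋ := Int.le_floor.2 (by push_cast; linarith [h4.1])
      linarith
    · exact Int.le_floor.2 h4.2
  · have h3 : bet * (m : ℝ) - y = -(bet * (y / bet - m)) := by
      field_simp
      ring
    rw [h3, abs_neg, abs_mul, abs_of_pos hb]
    calc bet * |y / bet - m| ≤ bet * 1 := mul_le_mul_of_nonneg_left h2 hb.le
      _ = bet := mul_one _

private theorem ix_Icc_card (bet : ℝ) (hb : 0 < bet) (hb1 : bet ≤ 1) :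
    ((Icc (-⌊1 / bet⌋) ⌊1 / bet⌋).card : ℝ) ≤ 3 / bet := by
  set R : ℤ := ⌊1 / bet⌋ with hR
  have hRnn : 0 ≤ R := Int.floor_nonneg.2 (by positivity)
  have h0 : (Icc (-R) R).card = (2 * R + 1).toNat := by
    rw [Int.card_Icc]
    congr 1
    ring
  have h3 : (((2 * R + 1).toNat : ℕ) : ℤ) = 2 * R + 1 := Int.toNat_of_nonneg (by omega)
  have h4 : (((2 * R + 1).toNat : ℕ) : ℝ) = 2 * (R : ℝ) + 1 := by
    exact_mod_cast congrArg (fun n : ℤ => (n : ℝ)) h3
  rw [h0, h4]
  have h5 : (R : ℝ) ≤ 1 / bet := Int.floor_le _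
  have h6 : 1 ≤ 1 / bet := by rw [le_div_iff₀ hb]; linarith
  have h7 : 3 / bet = 3 * (1 / bet) := by ring
  rw [h7]
  linarith

/-- a net of the unit ball of the completion -/
private theorem ix_net1 {K : Type} [Field K] (w : InfinitePlace K) (bet : ℝ) (hb : 0 < bet)
    (hb1 : bet ≤ 1) :
    ∃ N : Finset ℂ, (N.card : ℝ) ≤ (3 / bet) ^ w.mult ∧
      ∀ z : ℂ, (w.IsReal → z.im = 0) → ‖z‖ ≤ 1 → ∃ y ∈ N, ‖y - z‖ ≤ 2 * bet := by
  classical
  by_cases hw : w.IsReal
  · refine ⟨(Icc (-⌊1 / bet⌋) ⌊1 / bet⌋).image fun m : ℤ => ((bet * m : ℝ) : ℂ), ?_, ?_⟩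
    · have hm : w.mult = 1 := InfinitePlace.mult_isReal ⟨w, hw⟩
      rw [hm, pow_one]
      refine le_trans ?_ (ix_Icc_card bet hb hb1)
      exact_mod_cast Finset.card_image_le
    · intro z hz hz1
      have hz0 := hz hw
      have h1 : |z.re| ≤ 1 := (Complex.abs_re_le_norm z).trans hz1
      obtain ⟨m, hm1, hm2⟩ := ix_near bet hb z.re h1
      refine ⟨_, Finset.mem_image.mpr ⟨m, hm1, rfl⟩, ?_⟩
      have h2 : z = ((z.re : ℝ) : ℂ) := Complex.ext (by simp) (by simp [hz0])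
      rw [h2, ← Complex.ofReal_sub, Complex.norm_real, Real.norm_eq_abs]
      linarith
  · refine ⟨((Icc (-⌊1 / bet⌋) ⌊1 / bet⌋) ×ˢ (Icc (-⌊1 / bet⌋) ⌊1 / bet⌋)).image
      fun m : ℤ × ℤ => (⟨bet * m.1, bet * m.2⟩ : ℂ), ?_, ?_⟩
    · have hm : w.mult = 2 := by
        rw [InfinitePlace.mult, if_neg hw]
      rw [hm]
      have h1 : ((((Icc (-⌊1 / bet⌋) ⌊1 / bet⌋) ×ˢ (Icc (-⌊1 / bet⌋) ⌊1 / bet⌋)).image
          fun m : ℤ × ℤ => (⟨bet * m.1, bet * m.2⟩ : ℂ)).card : ℝ) ≤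
          (((Icc (-⌊1 / bet⌋) ⌊1 / bet⌋) ×ˢ (Icc (-⌊1 / bet⌋) ⌊1 / bet⌋)).card : ℝ) := by
        exact_mod_cast Finset.card_image_le
      refine h1.trans ?_
      rw [Finset.card_product]
      push_cast
      rw [sq]
      have h2 := ix_Icc_card bet hb hb1
      exact mul_le_mul h2 h2 (by positivity) (by positivity)
    · intro z _ hz1
      obtain ⟨m, hm1, hm2⟩ := ix_near bet hb z.re ((Complex.abs_re_le_norm z).trans hz1)
      obtain ⟨m', hm1', hm2'⟩ := ix_near bet hb z.im ((Complex.abs_im_le_norm z).trans hz1)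
      refine ⟨_, Finset.mem_image.mpr ⟨(m, m'), Finset.mem_product.mpr ⟨hm1, hm1'⟩, rfl⟩, ?_⟩
      refine (Complex.norm_le_abs_re_add_abs_im _).trans ?_
      simp only [Complex.sub_re, Complex.sub_im]
      linarith

/-- a net of the face `z_i = 1` of the unit cube -/
private theorem iy_net {K : Type} [Field K] (w : InfinitePlace K) (q : ℕ) (bet : ℝ) (hb : 0 < bet)
    (hb1 : bet ≤ 1) (i : Fin q) :
    ∃ N : Finset (Fin q → ℂ), (N.card : ℝ) ≤ ((3 / bet) ^ w.mult) ^ (q - 1) ∧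
      (∀ y ∈ N, y i = 1) ∧
      ∀ z : Fin q → ℂ, (w.IsReal → ∀ k, (z k).im = 0) → (∀ k, ‖z k‖ ≤ 1) → z i = 1 →
        ∃ y ∈ N, ∀ k, ‖y k - z k‖ ≤ 2 * bet := by
  classical
  obtain ⟨N1, hN1, hN1'⟩ := ix_net1 w bet hb hb1
  refine ⟨Fintype.piFinset fun k => if k = i then {1} else N1, ?_, ?_, ?_⟩
  · rw [Fintype.card_piFinset, ← Finset.mul_prod_erase univ _ (mem_univ i), if_pos rfl,
      Finset.card_singleton, one_mul]
    have h4 : (univ.erase i).card = q - 1 := by
      rw [card_erase_of_mem (mem_univ i), card_univ, Fintype.card_fin]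
    have h5 : ∀ j ∈ univ.erase i, (if j = i then ({1} : Finset ℂ) else N1).card = N1.card := by
      intro j hj
      rw [if_neg (Finset.ne_of_mem_erase hj)]
    rw [Finset.prod_congr rfl h5, Finset.prod_const, h4]
    push_cast
    exact pow_le_pow_left₀ (by positivity) hN1 _
  · intro y hy
    rw [Fintype.mem_piFinset] at hy
    have := hy i
    rwa [if_pos rfl, Finset.mem_singleton] at this
  · intro z hz hz1 hzi
    have h1 : ∀ k, ∃ y : ℂ, y ∈ (if k = i then ({1} : Finset ℂ) else N1) ∧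
        ‖y - z k‖ ≤ 2 * bet := by
      intro k
      by_cases hk : k = i
      · subst hk
        refine ⟨1, by simp, ?_⟩
        rw [hzi, sub_self, norm_zero]
        positivity
      · rw [if_neg hk]
        exact hN1' (z k) (fun hw => hz hw k) (hz1 k)
    choose y hy1 hy2 using h1
    exact ⟨y, Fintype.mem_piFinset.mpr hy1, hy2⟩

end nets

variable {K : Type} [Field K] [NumberField K] {n r : ℕ} {e : Fin r → ℕ}

/-- the estimates at a point of the net -/
private theorem iy_near (A : Sys n e ℂ) (z y : Fin (n + 1) → ℂ) (c l : Fin r → ℂ) (a bet H : ℝ)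
    (hb : 0 < bet) (hb1 : bet ≤ 1) (hH : 0 < H) (ha : 1 ≤ a)
    (hA : ∀ i t, ‖A i t‖ ≤ a * H) (hz : ∀ k, ‖z k‖ ≤ 1) (hy : ∀ k, ‖y k - z k‖ ≤ 2 * bet)
    (hc : ∀ i, ‖c i‖ ≤ 1) (hl : ∀ i, ‖l i - c i‖ ≤ 2 * bet) (hF : ∀ i, F (A i) z = 0)
    (hD : ∀ j, ‖∑ i, c i * D (A i) z j‖ ≤ bet * H) :
    (∀ i, ‖F (A i) y‖ ≤ (kN n e * a * (4 + 2 * ((n : ℝ) + 1) + 8 * r) + 1) * (bet * H)) ∧
    ∀ j, ‖∑ i, l i * D (A i) y j‖ ≤
      (kN n e * a * (4 + 2 * ((n : ℝ) + 1) + 8 * r) + 1) * (bet * H) := by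
  have hkN := kN_one n e
  have hyy : (fun k => z k + (y k - z k)) = y := by funext k; ring
  have hz2 : ∀ k, ‖z k‖ ≤ 2 := fun k => (hz k).trans (by norm_num)
  have haH : 0 ≤ a * H := by positivity
  have hbH : 0 ≤ bet * H := by positivity
  have hDz : ∀ i j, ‖D (A i) z j‖ ≤ kN n e * (a * H) := by
    intro i j
    refine (D_norm_le (A i) z j (a * H) 2 (by norm_num) (hA i) hz2).trans ?_
    calc (NN n (e i) : ℝ) * e i * (a * H) * 2 ^ e i = (NN n (e i) * e i * 2 ^ e i) * (a * H) := by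
          ring
      _ ≤ _ := mul_le_mul_of_nonneg_right (kN_ge3 n e i) haH
  have h0 : 0 ≤ kN n e * a * (bet * H) := by positivity
  constructor
  · intro i
    have h1 := F_taylor (A i) z (fun k => y k - z k) (a * H) 2 (2 * bet)
      (by norm_num) (by positivity) (by linarith) (hA i) hz2 hy
    rw [hyy, hF i, sub_zero] at h1
    have h2 : ‖∑ j, D (A i) z j * (y j - z j)‖ ≤
        ((n : ℝ) + 1) * ((kN n e * (a * H)) * (2 * bet)) := by
      calc ‖∑ j, D (A i) z j * (y j - z j)‖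
          ≤ ∑ j, ‖D (A i) z j * (y j - z j)‖ := norm_sum_le _ _
        _ ≤ ∑ _j : Fin (n + 1), (kN n e * (a * H)) * (2 * bet) := by
            refine Finset.sum_le_sum fun j _ => ?_
            rw [norm_mul]
            exact mul_le_mul (hDz i j) (hy j) (norm_nonneg _) (by positivity)
        _ = ((n : ℝ) + 1) * ((kN n e * (a * H)) * (2 * bet)) := by
            rw [Finset.sum_const, Finset.card_univ, Fintype.card_fin, nsmul_eq_mul]
            push_cast
            ring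
    have h3 : F (A i) y = (F (A i) y - ∑ j, D (A i) z j * (y j - z j)) +
        ∑ j, D (A i) z j * (y j - z j) := by ring
    rw [h3]
    refine (norm_add_le _ _).trans ?_
    have h5 : NN n (e i) * 4 ^ e i * (a * H) * 2 ^ e i * (2 * bet) ^ 2 ≤
        kN n e * a * (bet * H) * 4 := by
      calc NN n (e i) * 4 ^ e i * (a * H) * 2 ^ e i * (2 * bet) ^ 2 =
          (NN n (e i) * 4 ^ e i * 2 ^ e i) * ((a * H) * (4 * bet) * bet) := by ring
        _ ≤ kN n e * ((a * H) * (4 * bet) * 1) := by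
            have h6 := kN_ge2 n e i
            gcongr
        _ = _ := by ring
    have h7 : (0 : ℝ) ≤ kN n e * a * (bet * H) * (8 * r) := by positivity
    have h8 : (kN n e * a * (4 + 2 * ((n : ℝ) + 1) + 8 * r) + 1) * (bet * H) =
        kN n e * a * (bet * H) * 4 + ((n : ℝ) + 1) * ((kN n e * (a * H)) * (2 * bet)) +
        kN n e * a * (bet * H) * (8 * r) + bet * H := by ring
    rw [h8]
    linarith
  · intro j
    have h1 : ∀ i, ‖D (A i) y j - D (A i) z j‖ ≤ kN n e * (a * H) * (2 * bet) := by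
      intro i
      have h2 := D_taylor (A i) z (fun k => y k - z k) j (a * H) 2 (2 * bet)
        (by norm_num) (by positivity) (by linarith) (hA i) hz2 hy
      rw [hyy] at h2
      refine h2.trans ?_
      calc NN n (e i) * e i * 4 ^ e i * (a * H) * 2 ^ e i * (2 * bet) =
          (NN n (e i) * e i * 4 ^ e i * 2 ^ e i) * ((a * H) * (2 * bet)) := by ring
        _ ≤ kN n e * ((a * H) * (2 * bet)) :=
            mul_le_mul_of_nonneg_right (kN_ge1 n e i) (by positivity)
        _ = _ := by ring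
    have h2 : ∑ i, l i * D (A i) y j = ∑ i, c i * D (A i) z j +
        ∑ i, ((l i - c i) * D (A i) z j + l i * (D (A i) y j - D (A i) z j)) := by
      rw [← Finset.sum_add_distrib]
      refine Finset.sum_congr rfl fun i _ => ?_
      ring
    rw [h2]
    refine (norm_add_le _ _).trans ?_
    have h3 : ‖∑ i, ((l i - c i) * D (A i) z j + l i * (D (A i) y j - D (A i) z j))‖ ≤
        r * (8 * (kN n e * a * (bet * H))) := by
      refine (norm_sum_le _ _).trans ?_
      calc ∑ i, ‖(l i - c i) * D (A i) z j + l i * (D (A i) y j - D (A i) z j)‖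
          ≤ ∑ _i : Fin r, 8 * (kN n e * a * (bet * H)) := by
            refine Finset.sum_le_sum fun i _ => ?_
            refine (norm_add_le _ _).trans ?_
            rw [norm_mul, norm_mul]
            have h4 : ‖l i‖ ≤ 3 := by
              have h5 : l i = (l i - c i) + c i := by ring
              rw [h5]
              refine (norm_add_le _ _).trans ?_
              linarith [hl i, hc i]
            have h6 := mul_le_mul (hl i) (hDz i j) (norm_nonneg _) (by positivity)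
            have h7 := mul_le_mul h4 (h1 i) (norm_nonneg _) (by norm_num)
            linarith
        _ = r * (8 * (kN n e * a * (bet * H))) := by
            rw [Finset.sum_const, Finset.card_univ, Fintype.card_fin, nsmul_eq_mul]
    have h7 : (0 : ℝ) ≤ kN n e * a * (bet * H) * (4 + 2 * ((n : ℝ) + 1)) := by positivity
    have h8 : (kN n e * a * (4 + 2 * ((n : ℝ) + 1) + 8 * r) + 1) * (bet * H) =
        kN n e * a * (bet * H) * (4 + 2 * ((n : ℝ) + 1)) + r * (8 * (kN n e * a * (bet * H))) +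
        bet * H := by ring
    rw [h8]
    have := hD j
    linarith

theorem inf_exc (w : InfinitePlace K) (hr : 1 ≤ r) (he : ∀ i, 1 ≤ e i) (eps : ℝ)
    (heps : 0 < eps) :
    ∃ bet : ℝ, 0 < bet ∧ bet ≤ 1 ∧ ∀ᶠ H : ℕ in atTop,
      (Set.ncard {A : Sys n e (𝓞 K) | A ∈ BoxS K n e H ∧ LocIS w (sgS w A) ∧
        ¬ GoodIS w 0 ((bet * H) ^ r) (sgS w A)} : ℝ) ≤ eps * (2 * H + 1) ^ (mK K * NS n e) := by
  classical
  obtain ⟨C, hC1, hC⟩ := lat_upper K
  have hcK := cK_pos (K := K)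
  have hcK1 := one_le_cK (K := K)
  have hkN := kN_one n e
  have hr' : (0 : ℝ) < r := by exact_mod_cast hr
  -- constants
  obtain ⟨C5, hC5⟩ : ∃ C5 : ℝ, C5 = kN n e * cK K * (4 + 2 * ((n : ℝ) + 1) + 8 * r) + 1 :=
    ⟨_, rfl⟩
  have hC51 : 1 ≤ C5 := by
    rw [hC5]
    have : 0 ≤ kN n e * cK K * (4 + 2 * ((n : ℝ) + 1) + 8 * r) := by positivity
    linarith
  obtain ⟨C6, hC6⟩ : ∃ C6 : ℝ, C6 = 2 * C * (2 * C5 * cK K) ^ mK K := ⟨_, rfl⟩
  have hC61 : 0 < C6 := by rw [hC6]; positivity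
  obtain ⟨C7, hC7⟩ : ∃ C7 : ℝ, C7 = ((n : ℝ) + 1) * r *
    ((3 ^ w.mult) ^ n * (3 ^ w.mult) ^ (r - 1) * C6 ^ (n + r)) := ⟨_, rfl⟩
  have hC70 : 0 < C7 := by rw [hC7]; positivity
  refine ⟨min 1 (eps / C7), by positivity, min_le_left _ _, ?_⟩
  obtain ⟨bet, hbet⟩ : ∃ bet : ℝ, bet = min 1 (eps / C7) := ⟨_, rfl⟩
  have hb : 0 < bet := by rw [hbet]; positivity
  have hb1 : bet ≤ 1 := by rw [hbet]; exact min_le_left _ _
  have hbe : C7 * bet ≤ eps := by
    have : bet ≤ eps / C7 := by rw [hbet]; exact min_le_right _ _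
    rw [le_div_iff₀ hC70] at this
    linarith
  rw [← hbet]
  choose N hNcard hN1 hNnet using fun i : Fin (n + 1) => iy_net w (n + 1) bet hb hb1 i
  choose Nr hNrcard hNr1 hNrnet using fun i : Fin r => iy_net w r bet hb hb1 i
  simp only [Nat.add_sub_cancel] at hNcard
  filter_upwards [eventually_ge_atTop (⌈1 / bet ^ w.mult⌉₊ + 1)] with H hH
  have hH1 : 1 ≤ H := by omega
  have hHr : (1 : ℝ) ≤ H := by exact_mod_cast hH1
  have hHb : 1 ≤ bet ^ w.mult * H := by
    have h1 : (1 / bet ^ w.mult : ℝ) ≤ H := by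
      refine (Nat.le_ceil _).trans ?_
      exact_mod_cast (Nat.le_succ _).trans hH
    rw [div_le_iff₀ (by positivity)] at h1
    linarith
  obtain ⟨wd, hwd⟩ : ∃ wd : ℝ, wd = C5 * (bet * H) := ⟨_, rfl⟩
  have hwd0 : 0 < wd := by rw [hwd]; positivity
  let SS : (Fin (n + 1) → ℂ) → (Fin r → ℂ) → Finset (Sys n e (𝓞 K)) := fun y l =>
    (BoxS_finite (K := K) (n := n) (e := e) H).toFinset.filter fun A =>
      (∀ i, ‖F (sgS w A i) y‖ ≤ wd) ∧ ∀ j, ‖∑ i, l i * D (sgS w A i) y j‖ ≤ wd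
  -- the number of systems for one point of the net
  have hfl : (⌊C * ((2 * wd) ^ w.mult * (cK K * H) ^ (mK K - w.mult) + 1)⌋₊ : ℝ) ≤
      C6 * bet ^ w.mult * (H : ℝ) ^ mK K := by
    refine (Nat.floor_le (by positivity)).trans ?_
    have hmult : w.mult ≤ mK K := by
      rw [← sum_mult (K := K)]
      exact Finset.single_le_sum (f := fun w' : InfinitePlace K => w'.mult)
        (fun _ _ => Nat.zero_le _) (mem_univ w)
    have h1 : (2 * wd) ^ w.mult * (cK K * H) ^ (mK K - w.mult) ≤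
        bet ^ w.mult * (2 * C5 * cK K) ^ mK K * (H : ℝ) ^ mK K := by
      have h2 : (2 * wd) ^ w.mult * (cK K * H) ^ (mK K - w.mult) =
          bet ^ w.mult * ((2 * C5) ^ w.mult * (cK K) ^ (mK K - w.mult)) *
            ((H : ℝ) ^ w.mult * (H : ℝ) ^ (mK K - w.mult)) := by
        rw [hwd]
        have : 2 * (C5 * (bet * (H : ℝ))) = bet * (2 * C5) * H := by ring
        rw [this, mul_pow, mul_pow, mul_pow]
        ring
      have h3 : (H : ℝ) ^ w.mult * (H : ℝ) ^ (mK K - w.mult) = (H : ℝ) ^ mK K := by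
        rw [← pow_add, Nat.add_sub_cancel' hmult]
      rw [h2, h3]
      refine mul_le_mul_of_nonneg_right (mul_le_mul_of_nonneg_left ?_ (by positivity))
        (by positivity)
      have h4 : (2 * C5) ^ w.mult ≤ (2 * C5 * cK K) ^ w.mult := by
        refine pow_le_pow_left₀ (by positivity) ?_ _
        nlinarith
      have h5 : (cK K) ^ (mK K - w.mult) ≤ (2 * C5 * cK K) ^ (mK K - w.mult) := by
        refine pow_le_pow_left₀ (by positivity) ?_ _
        nlinarith
      calc (2 * C5) ^ w.mult * (cK K) ^ (mK K - w.mult)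
          ≤ (2 * C5 * cK K) ^ w.mult * (2 * C5 * cK K) ^ (mK K - w.mult) :=
            mul_le_mul h4 h5 (by positivity) (by positivity)
        _ = (2 * C5 * cK K) ^ mK K := by rw [← pow_add, Nat.add_sub_cancel' hmult]
    have h6 : 1 ≤ bet ^ w.mult * (2 * C5 * cK K) ^ mK K * (H : ℝ) ^ mK K := by
      have h7 : (1 : ℝ) ≤ (2 * C5 * cK K) ^ mK K := one_le_pow₀ (by nlinarith)
      have h8 : (H : ℝ) ≤ (H : ℝ) ^ mK K := le_self_pow₀ hHr (mK_pos (K := K)).ne'
      have h9 : 1 ≤ bet ^ w.mult * (H : ℝ) ^ mK K :=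
        hHb.trans (mul_le_mul_of_nonneg_left h8 (by positivity))
      calc (1 : ℝ) ≤ (2 * C5 * cK K) ^ mK K * (bet ^ w.mult * (H : ℝ) ^ mK K) :=
            one_le_mul_of_one_le_of_one_le h7 h9
        _ = _ := by ring
    calc C * ((2 * wd) ^ w.mult * (cK K * H) ^ (mK K - w.mult) + 1)
        ≤ C * (bet ^ w.mult * (2 * C5 * cK K) ^ mK K * (H : ℝ) ^ mK K +
            bet ^ w.mult * (2 * C5 * cK K) ^ mK K * (H : ℝ) ^ mK K) :=
          mul_le_mul_of_nonneg_left (add_le_add h1 h6) (by linarith)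
      _ = C6 * bet ^ w.mult * (H : ℝ) ^ mK K := by rw [hC6]; ring
  have hSS : ∀ i, ∀ y ∈ N i, ∀ i', ∀ l ∈ Nr i', ((SS y l).card : ℝ) ≤
      C6 ^ (n + r) * (bet ^ w.mult) ^ (n + r) * (2 * H + 1) ^ (mK K * NS n e) := by
    intro i y hy i' l hl
    obtain ⟨h1, h2⟩ := iy_card_point (n := n) he w C hC H hH1 wd hwd0 y i (hN1 i y hy) l i'
      (hNr1 i' l hl) (SS y l)
      (fun A hA => by
        have := (mem_filter.1 hA).1
        rwa [Set.Finite.mem_toFinset] at this)
      (fun A hA => (mem_filter.1 hA).2.1) (fun A hA => (mem_filter.1 hA).2.2)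
    have h3 : ((SS y l).card : ℝ) ≤ (((2 * H + 1) ^ mK K) ^ (NS n e - (n + r)) : ℝ) *
        (⌊C * ((2 * wd) ^ w.mult * (cK K * H) ^ (mK K - w.mult) + 1)⌋₊ : ℝ) ^ (n + r) := by
      exact_mod_cast h1
    refine h3.trans ?_
    have h4 : (⌊C * ((2 * wd) ^ w.mult * (cK K * H) ^ (mK K - w.mult) + 1)⌋₊ : ℝ) ≤
        C6 * bet ^ w.mult * (2 * (H : ℝ) + 1) ^ mK K := by
      refine hfl.trans (mul_le_mul_of_nonneg_left ?_ (by positivity))
      exact pow_le_pow_left₀ (by positivity) (by linarith) _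
    have h5 := pow_le_pow_left₀ (by positivity) h4 (n + r)
    refine (mul_le_mul_of_nonneg_left h5 (by positivity)).trans (le_of_eq ?_)
    have h6 : ((2 * (H : ℝ) + 1) ^ mK K) ^ (NS n e - (n + r)) *
        ((2 * (H : ℝ) + 1) ^ mK K) ^ (n + r) = (2 * (H : ℝ) + 1) ^ (mK K * NS n e) := by
      rw [← pow_add, Nat.sub_add_cancel h2, ← pow_mul]
    rw [← h6, mul_pow, mul_pow]
    ring
  let U : Finset (Sys n e (𝓞 K)) := univ.biUnion fun i : Fin (n + 1) => (N i).biUnion fun y =>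
    univ.biUnion fun i' : Fin r => (Nr i').biUnion fun l => SS y l
  have hsub : {A : Sys n e (𝓞 K) | A ∈ BoxS K n e H ∧ LocIS w (sgS w A) ∧
        ¬ GoodIS w 0 ((bet * H) ^ r) (sgS w A)} ⊆ (U : Set (Sys n e (𝓞 K))) := by
    rintro A ⟨hA, ⟨z, ⟨hzr, hz1, i, hzi⟩, hz0⟩, hng⟩
    have hzi0 : z i ≠ 0 := by
      intro h
      rw [h, norm_zero] at hzi
      exact zero_ne_one hzi
    -- normalisation
    obtain ⟨z', hz'⟩ : ∃ z' : Fin (n + 1) → ℂ, z' = fun k => (z i)⁻¹ * z k := ⟨_, rfl⟩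
    have hz'n : ∀ k, ‖z' k‖ ≤ 1 := fun k => by
      rw [hz', norm_mul, norm_inv, hzi, inv_one, one_mul]
      exact hz1 k
    have hz'i : z' i = 1 := by
      rw [hz']
      exact inv_mul_cancel₀ hzi0
    have hz'r : w.IsReal → ∀ k, (z' k).im = 0 := by
      intro hw k
      have h1 : ((z i).re : ℂ) = z i := Complex.ext (by simp) (by simp [hzr hw i])
      have h2 : ((z k).re : ℂ) = z k := Complex.ext (by simp) (by simp [hzr hw k])
      rw [hz']
      show ((z i)⁻¹ * z k).im = 0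
      rw [← h1, ← h2, ← Complex.ofReal_inv, ← Complex.ofReal_mul]
      exact Complex.ofReal_im _
    have hz'0 : ∀ k, F (sgS w A k) z' = 0 := by
      intro k
      rw [hz', F_scale, hz0 k, mul_zero]
    have hz'J : ∀ J : Fin r → Fin (n + 1), ‖((Matrix.of fun k j => D (sgS w A k) z' j).submatrix
        id J).det‖ < (bet * H) ^ r := by
      intro J
      by_contra hj
      push Not at hj
      refine hng ⟨z', ⟨hz'r, hz'n, i, by rw [hz'i, norm_one]⟩, fun k => ?_, J, hj⟩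
      rw [hz'0 k, norm_zero]
    obtain ⟨c, hc1, ⟨i', hci⟩, hcD, hcr⟩ := left_kernel_C hr
      (Matrix.of fun k j => D (sgS w A k) z' j) (bet * H) (by positivity) hz'J
    have hcr' : w.IsReal → ∀ k, (c k).im = 0 := by
      intro hw
      refine hcr fun k j => ?_
      show (D (sgS w A k) z' j).im = 0
      have h1 : z' = fun m => (((z' m).re : ℝ) : ℂ) := funext fun m =>
        Complex.ext (by simp) (by simp [hz'r hw m])
      have h2 : sgS w A k = fun t => (((sg w (A k t)).re : ℝ) : ℂ) := funext fun t =>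
        Complex.ext (by simp [sgS]) (by simpa [sgS] using RV_sg (A k t) w hw)
      have h3 := D_map Complex.ofRealHom (fun t => (sg w (A k t)).re) (fun m => (z' m).re) j
      rw [h1, h2]
      have h4 : D (fun t => (((sg w (A k t)).re : ℝ) : ℂ)) (fun m => (((z' m).re : ℝ) : ℂ)) j =
        ((D (fun t => (sg w (A k t)).re) (fun m => (z' m).re) j : ℝ) : ℂ) := h3
      rw [h4]
      exact Complex.ofReal_im _
    obtain ⟨y, hyN, hyz⟩ := hNnet i z' hz'r hz'n hz'i
    obtain ⟨l, hlN, hlc⟩ := hNrnet i' c hcr' hc1 hci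
    have hAn : ∀ k t, ‖sgS w A k t‖ ≤ cK K * H := fun k t => norm_sg_le_of_crd (hA k t) w
    obtain ⟨g1, g2⟩ := iy_near (sgS w A) z' y c l (cK K) bet H hb hb1 (by linarith) hcK1 hAn hz'n
      hyz hc1 hlc hz'0 hcD
    rw [← hC5, ← hwd] at g1 g2
    rw [mem_coe]
    refine mem_biUnion.mpr ⟨i, mem_univ _, mem_biUnion.mpr ⟨y, hyN, mem_biUnion.mpr
      ⟨i', mem_univ _, mem_biUnion.mpr ⟨l, hlN, ?_⟩⟩⟩⟩
    exact mem_filter.mpr ⟨by rwa [Set.Finite.mem_toFinset], g1, g2⟩
  have hncard := Set.ncard_le_ncard hsub (Finset.finite_toSet U)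
  rw [Set.ncard_coe_finset] at hncard
  have hU : (U.card : ℝ) ≤ ∑ i : Fin (n + 1), ∑ y ∈ N i, ∑ i' : Fin r, ∑ l ∈ Nr i',
      ((SS y l).card : ℝ) := by
    have h1 : U.card ≤ ∑ i : Fin (n + 1), ∑ y ∈ N i, ∑ i' : Fin r, ∑ l ∈ Nr i', (SS y l).card :=
      Finset.card_biUnion_le.trans (Finset.sum_le_sum fun i _ =>
        Finset.card_biUnion_le.trans (Finset.sum_le_sum fun y _ =>
          Finset.card_biUnion_le.trans (Finset.sum_le_sum fun i' _ => Finset.card_biUnion_le)))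
    exact_mod_cast h1
  have hncard' : (Set.ncard {A : Sys n e (𝓞 K) | A ∈ BoxS K n e H ∧ LocIS w (sgS w A) ∧
        ¬ GoodIS w 0 ((bet * H) ^ r) (sgS w A)} : ℝ) ≤ (U.card : ℝ) := by exact_mod_cast hncard
  refine hncard'.trans (hU.trans ?_)
  obtain ⟨M, hM⟩ : ∃ M : ℝ, M = C6 ^ (n + r) * (bet ^ w.mult) ^ (n + r) *
    (2 * (H : ℝ) + 1) ^ (mK K * NS n e) := ⟨_, rfl⟩
  have hM0 : 0 ≤ M := by rw [hM]; positivity
  rw [← hM] at hSS
  have hsum : ∀ {α : Type} (s : Finset α) (f : α → ℝ) (b c : ℝ), 0 ≤ b → (s.card : ℝ) ≤ c →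
      (∀ x ∈ s, f x ≤ b) → ∑ x ∈ s, f x ≤ c * b := by
    intro α s f b c hb0 hc hf
    calc ∑ x ∈ s, f x ≤ ∑ _x ∈ s, b := Finset.sum_le_sum hf
      _ = s.card * b := by rw [Finset.sum_const, nsmul_eq_mul]
      _ ≤ c * b := mul_le_mul_of_nonneg_right hc hb0
  have t1 : ∀ i, ∀ y ∈ N i, ∀ i', ∑ l ∈ Nr i', ((SS y l).card : ℝ) ≤
      ((3 / bet) ^ w.mult) ^ (r - 1) * M := fun i y hy i' =>
    hsum _ _ _ _ hM0 (hNrcard i') fun l hl => hSS i y hy i' l hl
  have t2 : ∀ i, ∀ y ∈ N i, ∑ i' : Fin r, ∑ l ∈ Nr i', ((SS y l).card : ℝ) ≤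
      r * (((3 / bet) ^ w.mult) ^ (r - 1) * M) := fun i y hy =>
    hsum _ _ _ _ (by positivity) (by rw [Finset.card_univ, Fintype.card_fin])
      fun i' _ => t1 i y hy i'
  have t3 : ∀ i, ∑ y ∈ N i, ∑ i' : Fin r, ∑ l ∈ Nr i', ((SS y l).card : ℝ) ≤
      ((3 / bet) ^ w.mult) ^ n * (r * (((3 / bet) ^ w.mult) ^ (r - 1) * M)) := fun i =>
    hsum _ _ _ _ (by positivity) (hNcard i) fun y hy => t2 i y hy
  have t4 : ∑ i : Fin (n + 1), ∑ y ∈ N i, ∑ i' : Fin r, ∑ l ∈ Nr i', ((SS y l).card : ℝ) ≤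
      ((n : ℝ) + 1) * (((3 / bet) ^ w.mult) ^ n * (r * (((3 / bet) ^ w.mult) ^ (r - 1) * M))) :=
    hsum _ _ _ _ (by positivity) (by
      rw [Finset.card_univ, Fintype.card_fin]
      push_cast
      exact le_rfl) fun i _ => t3 i
  refine t4.trans ?_
  have h1 : ((3 / bet) ^ w.mult) ^ n * ((3 / bet) ^ w.mult) ^ (r - 1) * (bet ^ w.mult) ^ (n + r) =
      (3 ^ w.mult) ^ n * (3 ^ w.mult) ^ (r - 1) * bet ^ w.mult := by
    have h2 : n + r = n + (r - 1) + 1 := by omega
    rw [h2, pow_succ, pow_add, div_pow, div_pow, div_pow]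
    field_simp
  have h3 : ((n : ℝ) + 1) * (((3 / bet) ^ w.mult) ^ n *
      (r * (((3 / bet) ^ w.mult) ^ (r - 1) * M))) =
      C7 * bet ^ w.mult * (2 * (H : ℝ) + 1) ^ (mK K * NS n e) := by
    calc ((n : ℝ) + 1) * (((3 / bet) ^ w.mult) ^ n *
        (r * (((3 / bet) ^ w.mult) ^ (r - 1) * M))) =
        ((n : ℝ) + 1) * r * C6 ^ (n + r) * (((3 / bet) ^ w.mult) ^ n *
          ((3 / bet) ^ w.mult) ^ (r - 1) * (bet ^ w.mult) ^ (n + r)) *
          (2 * (H : ℝ) + 1) ^ (mK K * NS n e) := by rw [hM]; ring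
      _ = _ := by rw [h1, hC7]; ring
  rw [h3]
  refine mul_le_mul_of_nonneg_right ?_ (by positivity)
  have h4 : bet ^ w.mult ≤ bet := pow_le_of_le_one hb.le hb1 InfinitePlace.mult_pos.ne'
  exact (mul_le_mul_of_nonneg_left h4 hC70.le).trans hbe

end NKHP
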