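import Pool.Agent.Lib.MP_e426f4_ag.NK.Equi
import Pool.Agent.Lib.MP_e426f4_ag.NK.LeftKernel
import Pool.Agent.Lib.MP_e426f4_ag.CI.PadicExc
import Pool.Agent.Lib.MP_e426f4_ag.N.PadicExc

/-!
NK-PadicExc: systems without a good point at a prime are few. Templates: CI/PadicExc.lean (r equations over Z), N/PadicExc.lean (one form over O, counting in the finite ring O/P^a, box_classes_le). LocPS at level 2 r a: z with some z_j not in P, F(A i) z in P^(2ra); not GoodPS P (r a): all minors of the Jacobian are in P^(ra);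
left_kernel_P (k = a): c, some c_i not in P, sum_i c_i D(A i) z j in P^a for all j. In the finite ring O/P^a normalise z_{j0} = 1, c_{i0} = 1 (units). For given (z, c) (C q^(a(n+r-1)) choices, q = N P): conditions F(A i) z = 0 (i /= i0), F(A i0) z = 0, sum_i c_i D(A i) z j = 0 (j /= j0): n + r conditions, triangular in the
coefficients of X_{j0}^(e i) in A i (all i) and X_{j0}^(e i0 - 1) X_j in A i0: proportion q^(-a(n+r)). So #S <= C q^(a(NS - 1)) in box_classes_leS (b = P^a): total C/q^a.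
-/

namespace NKHP

open NumberField GenHP NFHP Finset Filter Topology
open CIHP (Sys NS Jac nu Bf)

variable {K : Type} [Field K] [NumberField K] {n r : ℕ} {e : Fin r → ℕ}

/-! ### finite rings -/

section finring
variable {R : Type} [CommRing R]

/-- the singularity conditions at a normalised point -/
private def PkC (x : Fin (n + 1) → R) (c : Fin r → R) (A : Sys n e R) : Prop :=
  (∀ i, F (A i) x = 0) ∧ ∀ j, ∑ i, c i * D (A i) x j = 0

private theorem pks_inj (he : ∀ i, 1 ≤ e i) (i0 : Fin r) (j0 : Fin (n + 1))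
    (x : Fin (n + 1) → R) (hx : x j0 = 1) (c : Fin r → R) (hc : c i0 = 1)
    (A A' : Sys n e R) (hA : PkC x c A) (hA' : PkC x c A')
    (h0 : ∀ i t, ¬ CIHP.Spc (e := e) i0 j0 i t → A i t = A' i t) : A = A' := by
  -- forms with `i ≠ i0`
  have htop : ∀ i, i ≠ i0 → ∀ t, t ≠ CIHP.sx j0 j0 → A i t = A' i t := by
    intro i hi t ht
    apply h0
    rintro (h1 | ⟨h1, -⟩)
    · exact ht h1
    · exact hi h1
  have hspec : ∀ t, (∀ j', t ≠ CIHP.sx j0 j') → A i0 t = A' i0 t := by
    intro t ht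
    apply h0
    rintro (h1 | ⟨-, j, h1⟩)
    · exact ht j0 h1
    · exact ht j h1
  -- the special coefficients of the form `i0`
  have h1 : ∀ j, j ≠ j0 → A i0 (CIHP.sx j0 j) = A' i0 (CIHP.sx j0 j) := by
    intro j hj
    have h3 : ∑ i, (c i * D (A i) x j - c i * D (A' i) x j) =
        A i0 (CIHP.sx j0 j) - A' i0 (CIHP.sx j0 j) := by
      rw [Finset.sum_eq_single i0]
      · rw [hc, one_mul, one_mul]
        exact CIHP.D_sub_special (he i0) j0 j hj _ _ x hx hspec
      · intro i _ hi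
        rw [← mul_sub, CIHP.D_sub_top (he i) j0 j hj _ _ x hx (htop i hi), mul_zero]
      · intro h4
        exact absurd (Finset.mem_univ _) h4
    rw [Finset.sum_sub_distrib, hA.2 j, hA'.2 j, sub_zero] at h3
    exact (sub_eq_zero.mp h3.symm)
  have htop' : ∀ i t, t ≠ CIHP.sx j0 j0 → A i t = A' i t := by
    intro i t ht
    by_cases hi : i = i0
    · subst hi
      by_cases h2 : ∀ j', t ≠ CIHP.sx j0 j'
      · exact hspec t h2
      · push Not at h2
        obtain ⟨j', rfl⟩ := h2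
        exact h1 j' fun h3 => ht (by rw [h3])
    · exact htop i hi t ht
  funext i t
  by_cases ht : t = CIHP.sx j0 j0
  · subst ht
    have h2 := CIHP.F_sub_top j0 _ _ x hx (htop' i)
    rw [hA.1 i, hA'.1 i, sub_zero] at h2
    exact (sub_eq_zero.mp h2.symm)
  · exact htop' i t ht

private theorem pks_ker_card [Fintype R] (he : ∀ i, 1 ≤ e i) (i0 : Fin r) (j0 : Fin (n + 1))
    (x : Fin (n + 1) → R) (hx : x j0 = 1) (c : Fin r → R) (hc : c i0 = 1) :
    Set.ncard {A : Sys n e R | PkC x c A} * Fintype.card R ^ (n + r) ≤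
      Fintype.card R ^ NS n e := by
  classical
  set q := Fintype.card R with hq
  set Bx : Finset (Sys n e R) := Fintype.piFinset fun i => Fintype.piFinset fun t =>
    if CIHP.Spc (e := e) i0 j0 i t then ({0} : Finset R) else Finset.univ with hBx
  have h1 : Set.ncard {A : Sys n e R | PkC x c A} ≤ Bx.card := by
    rw [← Set.ncard_coe_finset]
    refine Set.ncard_le_ncard_of_injOn
      (fun A i t => if CIHP.Spc (e := e) i0 j0 i t then 0 else A i t) ?_ ?_ Bx.finite_toSet
    · intro A _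
      rw [Finset.mem_coe, hBx, Fintype.mem_piFinset]
      intro i
      rw [Fintype.mem_piFinset]
      intro t
      by_cases ht : CIHP.Spc (e := e) i0 j0 i t
      · simp [ht]
      · simp [ht]
    · intro A hA A' hA' hAA
      refine pks_inj he i0 j0 x hx c hc A A' hA hA' fun i t ht => ?_
      have h5 := congrFun (congrFun hAA i) t
      simp only [if_neg ht] at h5
      exact h5
  have hc1 : Bx.card = ∏ i : Fin r, ∏ t : Idx n (e i),
      (if CIHP.Spc (e := e) i0 j0 i t then 1 else q) := by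
    rw [hBx, Fintype.card_piFinset]
    refine Finset.prod_congr rfl fun i _ => ?_
    rw [Fintype.card_piFinset]
    refine Finset.prod_congr rfl fun t _ => ?_
    split_ifs
    · exact Finset.card_singleton _
    · rw [Finset.card_univ]
  have hc2 : ∏ i : Fin r, ∏ t : Idx n (e i),
      (if CIHP.Spc (e := e) i0 j0 i t then q else 1) = q ^ (n + r) := by
    have h2 := CIHP.prod_spc (e := e) he i0 j0 (q : ℝ)
    have h3 : ((∏ i : Fin r, ∏ t : Idx n (e i),
        (if CIHP.Spc (e := e) i0 j0 i t then q else 1) : ℕ) : ℝ) = ((q ^ (n + r) : ℕ) : ℝ) := by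
      push_cast
      rw [← h2]
    exact_mod_cast h3
  have hc3 : Bx.card * q ^ (n + r) = q ^ NS n e := by
    rw [hc1, ← hc2, ← Finset.prod_mul_distrib]
    have h4 : ∀ i : Fin r, (∏ t : Idx n (e i), (if CIHP.Spc (e := e) i0 j0 i t then 1 else q)) *
        (∏ t : Idx n (e i), (if CIHP.Spc (e := e) i0 j0 i t then q else 1)) =
        q ^ Fintype.card (Idx n (e i)) := by
      intro i
      rw [← Finset.prod_mul_distrib]
      have h5 : ∀ t : Idx n (e i), (if CIHP.Spc (e := e) i0 j0 i t then 1 else q) *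
          (if CIHP.Spc (e := e) i0 j0 i t then q else 1) = q := by
        intro t
        split_ifs <;> simp
      rw [Finset.prod_congr rfl fun t _ => h5 t, Finset.prod_const, Finset.card_univ]
    rw [Finset.prod_congr rfl fun i _ => h4 i, Finset.prod_pow_eq_pow_sum]
    rfl
  rw [← hc3]
  exact Nat.mul_le_mul_right _ h1

private theorem pks_card_one [Fintype R] (α : Type) [Fintype α] [DecidableEq α] [DecidableEq R]
    (a : α) : (Fintype.piFinset fun v : α => if v = a then ({1} : Finset R) else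
        Finset.univ).card = Fintype.card R ^ (Fintype.card α - 1) := by
  rw [Fintype.card_piFinset]
  have h1 : ∀ v : α, (if v = a then ({1} : Finset R) else Finset.univ).card
      = if v = a then 1 else Fintype.card R := by
    intro v
    split_ifs
    · exact Finset.card_singleton _
    · rw [Finset.card_univ]
  rw [Finset.prod_congr rfl fun v _ => h1 v, Finset.prod_ite, Finset.prod_const_one, one_mul,
    Finset.prod_const]
  congr 1
  rw [Finset.filter_not, Finset.filter_eq', if_pos (Finset.mem_univ _),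
    Finset.card_sdiff_of_subset (Finset.subset_univ _), Finset.card_singleton, Finset.card_univ]

/-- systems over a finite ring with a singular zero -/
private theorem pks_card [Fintype R] (hr : 1 ≤ r) (he : ∀ i, 1 ≤ e i) :
    Set.ncard {A : Sys n e R | ∃ (z : Fin (n + 1) → R) (c : Fin r → R), (∃ j, IsUnit (z j)) ∧
      (∃ i, IsUnit (c i)) ∧ PkC z c A} * Fintype.card R ≤
      (r * (n + 1)) * Fintype.card R ^ NS n e := by
  classical
  set q := Fintype.card R with hq
  have hq0 : 0 < q := Fintype.card_pos_iff.mpr ⟨0⟩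
  set S : Set (Sys n e R) := {A : Sys n e R | ∃ (z : Fin (n + 1) → R) (c : Fin r → R),
    (∃ j, IsUnit (z j)) ∧ (∃ i, IsUnit (c i)) ∧ PkC z c A} with hS
  set Y : Fin (n + 1) → Finset (Fin (n + 1) → R) := fun j0 =>
    Fintype.piFinset fun v => if v = j0 then ({1} : Finset R) else Finset.univ with hY
  set Bc : Fin r → Finset (Fin r → R) := fun i0 =>
    Fintype.piFinset fun i => if i = i0 then ({1} : Finset R) else Finset.univ with hBc
  have hYc : ∀ j0, (Y j0).card = q ^ n := by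
    intro j0
    have := pks_card_one (R := R) (Fin (n + 1)) j0
    rw [Fintype.card_fin, Nat.add_sub_cancel] at this
    exact this
  have hBcc : ∀ i0, (Bc i0).card = q ^ (r - 1) := by
    intro i0
    have := pks_card_one (R := R) (Fin r) i0
    rw [Fintype.card_fin] at this
    exact this
  have hsub : S ⊆ ⋃ w ∈ (Finset.univ : Finset (Fin r × Fin (n + 1))), ⋃ y ∈ Y w.2 ×ˢ Bc w.1,
      {A : Sys n e R | PkC y.1 y.2 A} := by
    rintro A ⟨z, c, ⟨j0, u, hu⟩, ⟨i0, v, hv⟩, hF, hD⟩
    refine Set.mem_iUnion₂.mpr ⟨(i0, j0), Finset.mem_univ _, ?_⟩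
    refine Set.mem_iUnion₂.mpr ⟨(fun l => (↑u⁻¹ : R) * z l,
      fun i => (↑v⁻¹ : R) * (↑u⁻¹ : R) ^ (e i0 - 1) * (c i * (u : R) ^ (e i - 1))), ?_, ?_, ?_⟩
    · rw [Finset.mem_product, hY, hBc]
      simp only
      rw [Fintype.mem_piFinset, Fintype.mem_piFinset]
      constructor
      · intro l
        split_ifs with h
        · rw [Finset.mem_singleton, h, ← hu, Units.inv_mul]
        · exact Finset.mem_univ _
      · intro i
        split_ifs with h
        · rw [Finset.mem_singleton, h, ← hv]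
          have h1 : (↑u⁻¹ : R) ^ (e i0 - 1) * (u : R) ^ (e i0 - 1) = 1 := by
            rw [← mul_pow, Units.inv_mul, one_pow]
          calc (↑v⁻¹ : R) * (↑u⁻¹ : R) ^ (e i0 - 1) * ((v : R) * (u : R) ^ (e i0 - 1)) =
              ((↑v⁻¹ : R) * (v : R)) * ((↑u⁻¹ : R) ^ (e i0 - 1) * (u : R) ^ (e i0 - 1)) := by ring
            _ = 1 := by rw [h1, Units.inv_mul, one_mul]
        · exact Finset.mem_univ _
    · intro i
      simp only
      rw [F_scale, hF i, mul_zero]
    · intro j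
      have h1 : ∀ i, (↑v⁻¹ : R) * (↑u⁻¹ : R) ^ (e i0 - 1) * (c i * (u : R) ^ (e i - 1)) *
          D (A i) (fun l => (↑u⁻¹ : R) * z l) j =
          (↑v⁻¹ : R) * (↑u⁻¹ : R) ^ (e i0 - 1) * (c i * D (A i) z j) := by
        intro i
        rw [D_scale]
        have h2 : (u : R) ^ (e i - 1) * (↑u⁻¹ : R) ^ (e i - 1) = 1 := by
          rw [← mul_pow, Units.mul_inv, one_pow]
        calc (↑v⁻¹ : R) * (↑u⁻¹ : R) ^ (e i0 - 1) * (c i * (u : R) ^ (e i - 1)) *
            ((↑u⁻¹ : R) ^ (e i - 1) * D (A i) z j) =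
            (↑v⁻¹ : R) * (↑u⁻¹ : R) ^ (e i0 - 1) * (c i * D (A i) z j) *
              ((u : R) ^ (e i - 1) * (↑u⁻¹ : R) ^ (e i - 1)) := by ring
          _ = _ := by rw [h2, mul_one]
      simp only
      rw [Finset.sum_congr rfl fun i _ => h1 i, ← Finset.mul_sum, hD j, mul_zero]
  have h1 : S.ncard ≤ ∑ w : Fin r × Fin (n + 1), ∑ y ∈ Y w.2 ×ˢ Bc w.1,
      Set.ncard {A : Sys n e R | PkC y.1 y.2 A} := by
    refine (Set.ncard_le_ncard hsub (Set.toFinite _)).trans ?_
    refine (Finset.set_ncard_biUnion_le _ _).trans ?_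
    exact Finset.sum_le_sum fun i _ => Finset.set_ncard_biUnion_le _ _
  have h2 : ∀ w : Fin r × Fin (n + 1), (∑ y ∈ Y w.2 ×ˢ Bc w.1,
      Set.ncard {A : Sys n e R | PkC y.1 y.2 A}) * q ^ (n + r) ≤
      q ^ n * q ^ (r - 1) * q ^ NS n e := by
    intro w
    rw [Finset.sum_mul]
    refine (Finset.sum_le_sum (g := fun _ => q ^ NS n e) fun y hy => ?_).trans ?_
    · rw [Finset.mem_product, hY, hBc] at hy
      simp only at hy
      rw [Fintype.mem_piFinset, Fintype.mem_piFinset] at hy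
      have hy1 : y.1 w.2 = 1 := by
        have := hy.1 w.2
        simpa using this
      have hy2 : y.2 w.1 = 1 := by
        have := hy.2 w.1
        simpa using this
      exact pks_ker_card he w.1 w.2 y.1 hy1 y.2 hy2
    · rw [Finset.sum_const, smul_eq_mul, Finset.card_product, hYc, hBcc]
  have h3 : S.ncard * q ^ (n + r) ≤ (r * (n + 1)) * (q ^ n * q ^ (r - 1) * q ^ NS n e) := by
    calc S.ncard * q ^ (n + r) ≤ (∑ w : Fin r × Fin (n + 1), ∑ y ∈ Y w.2 ×ˢ Bc w.1,
          Set.ncard {A : Sys n e R | PkC y.1 y.2 A}) * q ^ (n + r) :=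
          Nat.mul_le_mul_right _ h1
      _ ≤ ∑ _w : Fin r × Fin (n + 1), q ^ n * q ^ (r - 1) * q ^ NS n e := by
          rw [Finset.sum_mul]
          exact Finset.sum_le_sum fun i _ => h2 i
      _ = _ := by
          rw [Finset.sum_const, Finset.card_univ, Fintype.card_prod, Fintype.card_fin,
            Fintype.card_fin, smul_eq_mul]
  have h5 : q ^ (n + r) = q ^ n * q ^ (r - 1) * q := by
    rw [← pow_add, ← pow_succ]
    congr 1
    omega
  have h4 : (q ^ n * q ^ (r - 1)) * (S.ncard * q) ≤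
      (q ^ n * q ^ (r - 1)) * ((r * (n + 1)) * q ^ NS n e) := by
    calc (q ^ n * q ^ (r - 1)) * (S.ncard * q) = S.ncard * q ^ (n + r) := by rw [h5]; ring
      _ ≤ _ := h3
      _ = _ := by ring
  exact Nat.le_of_mul_le_mul_left h4 (Nat.mul_pos (pow_pos hq0 n) (pow_pos hq0 _))

end finring

/-- an element outside the maximal ideal `P` is a unit modulo `P ^ a` -/
private theorem pks_unit (P : Ideal (𝓞 K)) (hP : P.IsMaximal) (a : ℕ) (z : 𝓞 K) (hi : z ∉ P) :
    IsUnit (Ideal.Quotient.mk (P ^ a) z) := by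
  have hcop : IsCoprime (P ^ a) (Ideal.span {z}) := by
    apply IsCoprime.pow_left
    rw [Ideal.isCoprime_iff_sup_eq]
    by_contra hne
    have h1 : P ⊔ Ideal.span {z} = P := (hP.eq_of_le hne le_sup_left).symm
    apply hi
    rw [← h1]
    exact Ideal.mem_sup_right (Ideal.mem_span_singleton_self _)
  obtain ⟨u, hu, v, hv, huv⟩ := Ideal.isCoprime_iff_exists.mp hcop
  obtain ⟨c, rfl⟩ := Ideal.mem_span_singleton'.mp hv
  refine IsUnit.of_mul_eq_one (Ideal.Quotient.mk (P ^ a) c) ?_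
  rw [← map_mul, ← map_one (Ideal.Quotient.mk (P ^ a)), Ideal.Quotient.eq]
  have : z * c - 1 = -u := by linear_combination huv
  rw [this]
  exact neg_mem hu

theorem padic_excS (hr : 1 ≤ r) (hn : 1 ≤ n) (he : ∀ i, 1 ≤ e i) (P : Ideal (𝓞 K))
    (hP : P.IsMaximal) :
    ∃ C : ℝ, 0 < C ∧ ∀ a : ℕ, 1 ≤ a → ∀ᶠ H : ℕ in atTop,
      (Set.ncard {A : Sys n e (𝓞 K) | A ∈ BoxS K n e H ∧ LocPS P A ∧ ¬ GoodPS P (r * a) A} : ℝ) ≤
        C / (Ideal.absNorm P : ℝ) ^ a * (2 * H + 1) ^ (mK K * NS n e) := by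
  classical
  have hP0 : P ≠ ⊥ := Ring.ne_bot_of_isMaximal_of_not_isField hP (RingOfIntegers.not_isField K)
  have hrR : (0 : ℝ) < r := by exact_mod_cast hr
  refine ⟨2 * ((r : ℝ) * ((n : ℝ) + 1)), by positivity, fun a ha => ?_⟩
  have hb : P ^ a ≠ ⊥ := by
    rw [← Ideal.zero_eq_bot] at hP0 ⊢
    exact pow_ne_zero _ hP0
  have hfin : Finite (𝓞 K ⧸ P ^ a) := Ideal.finiteQuotientOfFreeOfNeBot _ hb
  haveI : Fintype (𝓞 K ⧸ P ^ a) := Fintype.ofFinite _
  set S : Set ((i : Fin r) → Idx n (e i) → 𝓞 K ⧸ P ^ a) :=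
    {A : Sys n e (𝓞 K ⧸ P ^ a) | ∃ (z : Fin (n + 1) → 𝓞 K ⧸ P ^ a) (c : Fin r → 𝓞 K ⧸ P ^ a),
    (∃ j, IsUnit (z j)) ∧ (∃ i, IsUnit (c i)) ∧ PkC z c A} with hS
  have hcard := pks_card (R := 𝓞 K ⧸ P ^ a) (n := n) (e := e) hr he
  rw [← hS] at hcard
  have hq : Fintype.card (𝓞 K ⧸ P ^ a) = Ideal.absNorm P ^ a := by
    rw [← map_pow, Ideal.absNorm_apply, Submodule.cardQuot_apply, Nat.card_eq_fintype_card]
  have hN : 0 < Ideal.absNorm P := absNorm_pos hP0
  have hNR : (0 : ℝ) < Ideal.absNorm P := by exact_mod_cast hN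
  filter_upwards [box_classes_leS (n := n) (e := e) (P ^ a) hb S] with H hH
  have hsub : {A : Sys n e (𝓞 K) | A ∈ BoxS K n e H ∧ LocPS P A ∧ ¬ GoodPS P (r * a) A} ⊆
      {A : Sys n e (𝓞 K) | A ∈ BoxS K n e H ∧
        (fun i t => Ideal.Quotient.mk (P ^ a) (A i t)) ∈ S} := by
    rintro A ⟨hA, hloc, hgood⟩
    refine ⟨hA, ?_⟩
    obtain ⟨z, ⟨j1, hj1⟩, hz⟩ := hloc (2 * (r * a))
    have hJ : ∀ J : Fin r → Fin (n + 1), (Jac A z J).det ∈ P ^ (r * a) := by
      by_contra hcon
      push Not at hcon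
      exact hgood ⟨z, ⟨j1, hj1⟩, hz, hcon⟩
    obtain ⟨c, ⟨i1, hi1⟩, hc⟩ := left_kernel_P hr
      (Matrix.of fun (i : Fin r) (j : Fin (n + 1)) => D (A i) z j) P hP a hJ
    have hle : a ≤ 2 * (r * a) := by nlinarith
    refine ⟨fun l => Ideal.Quotient.mk (P ^ a) (z l), fun i => Ideal.Quotient.mk (P ^ a) (c i),
      ⟨j1, pks_unit P hP a _ hj1⟩, ⟨i1, pks_unit P hP a _ hi1⟩, ?_, ?_⟩
    · intro i
      rw [F_map, Ideal.Quotient.eq_zero_iff_mem]
      exact Ideal.pow_le_pow_right hle (hz i)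
    · intro j
      have h1 : ∑ i, Ideal.Quotient.mk (P ^ a) (c i) *
          D (fun t => Ideal.Quotient.mk (P ^ a) (A i t))
            (fun l => Ideal.Quotient.mk (P ^ a) (z l)) j =
          Ideal.Quotient.mk (P ^ a) (∑ i, c i * D (A i) z j) := by
        rw [map_sum]
        refine Finset.sum_congr rfl fun i _ => ?_
        rw [D_map, map_mul]
      rw [h1, Ideal.Quotient.eq_zero_iff_mem]
      exact hc j
  have h1 : (Set.ncard {A : Sys n e (𝓞 K) | A ∈ BoxS K n e H ∧ LocPS P A ∧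
        ¬ GoodPS P (r * a) A} : ℝ) ≤
      (Set.ncard {A : Sys n e (𝓞 K) | A ∈ BoxS K n e H ∧
        (fun i t => Ideal.Quotient.mk (P ^ a) (A i t)) ∈ S} : ℝ) := by
    exact_mod_cast Set.ncard_le_ncard hsub ((BoxS_finite (H : ℝ)).subset fun A hA => hA.1)
  refine h1.trans (hH.trans ?_)
  rw [map_pow, Nat.cast_pow]
  refine mul_le_mul_of_nonneg_right ?_ (by positivity)
  have h2 : (S.ncard : ℝ) * (Ideal.absNorm P : ℝ) ^ a ≤
      ((r : ℝ) * ((n : ℝ) + 1)) * ((Ideal.absNorm P : ℝ) ^ a) ^ NS n e := by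
    rw [hq] at hcard
    exact_mod_cast hcard
  rw [div_le_div_iff₀ (by positivity) (by positivity)]
  nlinarith


end NKHP
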