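import Pool.Agent.Lib.MP_e426f4_ag.NK.House
import Pool.Agent.Lib.MP_e426f4_ag.NK.Global

/-! Module NK-Final: almost all everywhere locally soluble complete intersections over a number field
are soluble (one block). -/

namespace NKHP

open NumberField GenHP NFHP Finset Filter Topology
open CIHP (Sys NS Jac nu Bf)

variable {K : Type} [Field K] [NumberField K] {n r : ℕ} {e : Fin r → ℕ}

theorem finalS (hr : 1 ≤ r) (hn : r + 2 ≤ n) (he : ∀ i, 2 ≤ e i) (hs : ∑ i, e i ≤ n) :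
    (∃ c : ℝ, 0 < c ∧ ∀ᶠ H : ℕ in atTop, c * ((HouseS K n e H).ncard : ℝ) ≤
      (Set.ncard {A : Sys n e (𝓞 K) | A ∈ HouseS K n e H ∧ SmoothS A ∧ SolubleS A} : ℝ)) ∧
    (∀ eps : ℝ, 0 < eps → ∀ᶠ H : ℕ in atTop,
      (Set.ncard {A : Sys n e (𝓞 K) | A ∈ HouseS K n e H ∧ ELSS A ∧ ¬ SolubleS A} : ℝ) ≤
        eps * ((HouseS K n e H).ncard : ℝ)) ∧
    ∀ eps : ℝ, 0 < eps → ∀ᶠ H : ℕ in atTop,
      (Set.ncard {A : Sys n e (𝓞 K) | A ∈ HouseS K n e H ∧ ¬ SmoothS A} : ℝ) ≤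
        eps * ((HouseS K n e H).ncard : ℝ) :=
  house_finalS hr hn he hs fun eps heps => exceptional_smallS hr hn he hs eps heps

end NKHP
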