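import Pool.Agent.Lib.MP_e426f4_ag.NK.Defs
import Pool.Agent.Lib.MP_e426f4_ag.N.Span2

/-! Pairs of well-rounded points are fine if `B^(2/n)` is small. -/

namespace NKHP

open NumberField GenHP NFHP Finset Filter Topology

theorem fine_of_good (K : Type) [Field K] [NumberField K] (n d : ℕ) (hn : 1 ≤ n) (hd : 2 ≤ d)
    (R : ℝ) (hR : 1 ≤ R) : ∃ C : ℝ, 0 < C ∧
    ∀ B : ℕ, 1 ≤ B → ∀ E : ℝ, C * (B : ℝ) ^ (2 / (n : ℝ)) ≤ E →
    ∀ x y : Fin (n + 1) → 𝓞 K, Good R B x → Good R B y → mgI x y ≠ ⊥ → FineD n d E x y := by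
  have hn0 : (0 : ℝ) < n := by exact_mod_cast hn
  refine ⟨(Fintype.card (Fin n × Fin n × (Fin (d - 2) → Fin (n + 1))) : ℝ) *
    (((n : ℝ) + 1) ^ 2 * R ^ 2) + 1, by positivity, ?_⟩
  intro B hB E hE x y hx hy hdl
  have hB' : (1 : ℝ) ≤ B := by exact_mod_cast hB
  have hB0 : (0 : ℝ) < B := by linarith
  have hmu : 1 ≤ R * (B : ℝ) ^ (1 / (n : ℝ)) := by
    have h1 : 1 ≤ (B : ℝ) ^ (1 / (n : ℝ)) := Real.one_le_rpow hB' (by positivity)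
    nlinarith
  obtain ⟨g, hg0, hgm, hgs⟩ := span_pair hd x y hdl (R * (B : ℝ) ^ (1 / (n : ℝ))) hmu hx hy
  have hmu2 : (R * (B : ℝ) ^ (1 / (n : ℝ))) ^ 2 = R ^ 2 * (B : ℝ) ^ (2 / (n : ℝ)) := by
    rw [mul_pow, ← Real.rpow_natCast ((B : ℝ) ^ (1 / (n : ℝ))), ← Real.rpow_mul hB0.le]
    congr 2
    push_cast
    ring
  let ψ := Fintype.equivFin (Fin n × Fin n × (Fin (d - 2) → Fin (n + 1)))
  refine ⟨Fintype.card (Fin n × Fin n × (Fin (d - 2) → Fin (n + 1))), fun q => g (ψ.symm q),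
    fun q => hg0 _, ?_, ?_⟩
  · intro q t w
    have h1 := hgm (ψ.symm q) t w
    rw [hmu2] at h1
    refine le_trans ?_ hE
    have h2 : 0 ≤ (B : ℝ) ^ (2 / (n : ℝ)) := by positivity
    calc (Fintype.card (Fin n × Fin n × (Fin (d - 2) → Fin (n + 1))) : ℝ) *
          ‖sg w (g (ψ.symm q) t)‖
        ≤ (Fintype.card (Fin n × Fin n × (Fin (d - 2) → Fin (n + 1))) : ℝ) *
          (((n : ℝ) + 1) ^ 2 * (R ^ 2 * (B : ℝ) ^ (2 / (n : ℝ)))) := by gcongr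
      _ = (Fintype.card (Fin n × Fin n × (Fin (d - 2) → Fin (n + 1))) : ℝ) *
          (((n : ℝ) + 1) ^ 2 * R ^ 2) * (B : ℝ) ^ (2 / (n : ℝ)) := by ring
      _ ≤ ((Fintype.card (Fin n × Fin n × (Fin (d - 2) → Fin (n + 1))) : ℝ) *
          (((n : ℝ) + 1) ^ 2 * R ^ 2) + 1) * (B : ℝ) ^ (2 / (n : ℝ)) := by
          gcongr
          linarith
  · intro w A hAx hAy
    obtain ⟨c, hc⟩ := hgs w A hAx hAy
    refine ⟨fun q => c (ψ.symm q), fun t => ?_⟩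
    rw [hc t]
    exact (Equiv.sum_comp ψ.symm fun q => c q * sg w (g q t)).symm

end NKHP
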