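import Pool.Agent.Lib.MP_e426f4_ag.NK.Points
import Pool.Agent.Lib.MP_e426f4_ag.NK.Heights
import Pool.Agent.Lib.MP_e426f4_ag.NK.Const
import Pool.Agent.Lib.MP_e426f4_ag.N.ShortOne

/-!
NK-Trans: translation inequalities for pairs. Templates: CI/Trans.lean, N/Trans.lean, equation by equation. For x in GG (Ortho mu, mu = R B^(1/n)) and values s_i in (W^s) with CIn (th H B^(e i)) take t_i = Q t'_i, t'_i from NFHP.short_single with s_i/Q:
|t_i|_w <= 2^(e i) |s_i|_w/B^(e i) + Q c1 mu <= 2^n cK th H + Q c1 mu (CIn_norm, e i <= n), so the coordinates are <= 2^n cK^2 th H + cK Q c1 mu <= c4 th H for H large (CIHP.Bf_small_one: B^(1/n) = o(H)).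
trans_upper: (A, x), s -> (A + t(s), x) injective from Pairs(u) x levels into LP(u + c4 th). trans_lower: LP(u - c4 th) -> Pairs(u) x levels: (A, x) -> (A - t(F A x), x), F A x.
-/

namespace NKHP

open NumberField GenHP NFHP Finset Filter Topology
open CIHP (Sys NS Jac nu Bf)

variable {K : Type} [Field K] [NumberField K] {n r : ℕ} {e : Fin r → ℕ}

/-- A short system of the class `0 (mod Q)` with prescribed values at a well-rounded point. -/
private theorem tr_short (p : Par K n e) {eps k0 : ℝ} {w : ℕ} (hp : p.Valid eps k0 w)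
    (R : ℝ) (hR : 1 ≤ R) (th : ℝ) (hth : 0 < th) :
    ∀ᶠ H : ℝ in atTop, ∀ x ∈ p.GG R (p.B H), ∀ (i : Fin r) (s : 𝓞 K), (p.Q : 𝓞 K) ∣ s →
      CIn (th * H * (p.B H : ℝ) ^ e i) s →
      ∃ t : Idx n (e i) → 𝓞 K, F t x = s ∧ (∀ m, (p.Q : 𝓞 K) ∣ t m) ∧
        ∀ m j, |(crd (t m) j : ℝ)| ≤ c4 K n * th * H := by
  have hn := hp.n_ge
  have hr := hp.r_pos
  have h1 : ∀ i : Fin r, ∀ᶠ H : ℝ in atTop,
      cK K * c1 K n (e i) * p.Q * R / th * (p.B H : ℝ) ^ (1 / (n : ℝ)) ≤ H := fun i =>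
    CIHP.Bf_small_one e (by omega) hp.e_ge hr hp.sum_le p.C0 hp.C0_ge _
  have h2 := (CIHP.Bf_atTop (n := n) e hr hp.sum_le p.C0 hp.C0_ge).eventually_ge_atTop 1
  filter_upwards [eventually_all.2 h1, h2, eventually_gt_atTop 0] with H h1 hB1 hH0 x hx i s hs hsb
  have hB1' : 1 ≤ p.B H := hB1
  have hB1r : (1 : ℝ) ≤ p.B H := by exact_mod_cast hB1'
  have hsb' : ∀ w', ‖sg w' s‖ ≤ cK K * (th * H * (p.B H : ℝ) ^ e i) := fun w' => CIn_norm hsb w'
  obtain ⟨s', rfl⟩ := hs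
  have hxb : ∀ w' : InfinitePlace K, ∃ i, ((p.B H : ℕ) : ℝ) / 2 ≤ ‖sg w' (x i)‖ := by
    intro w'
    obtain ⟨i, hi⟩ := (mem_XX_bounds p hp (p.B H)).2 w'
    exact ⟨i, hi x hx.1⟩
  have hn0 : (0 : ℝ) < n := by exact_mod_cast (by omega : 0 < n)
  have hei : 1 ≤ e i := le_trans (by norm_num) (hp.e_ge i)
  have hein : e i ≤ n :=
    (Finset.single_le_sum (f := e) (fun _ _ => Nat.zero_le _) (Finset.mem_univ i)).trans hp.sum_le
  have hmu : 1 ≤ R * (p.B H : ℝ) ^ (1 / (n : ℝ)) := by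
    have : 1 ≤ (p.B H : ℝ) ^ (1 / (n : ℝ)) := Real.one_le_rpow hB1r (by positivity)
    nlinarith
  obtain ⟨t, ht, htb⟩ := short_single hei (p.B H) hB1' x hx.2.1
    (R * (p.B H : ℝ) ^ (1 / (n : ℝ))) hmu hx.2.2 hxb s'
  have hQ0 : (0 : ℝ) < p.Q := by exact_mod_cast hp.Q_pos
  have hcK := cK_pos (K := K)
  have hc1 : 0 ≤ c1 K n (e i) := by unfold NFHP.c1; positivity
  refine ⟨fun m => p.Q * t m, ?_, fun m => Dvd.intro _ rfl, fun m j => ?_⟩
  · rw [F_smul, ht]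
  · have hB0 : (0 : ℝ) < (p.B H : ℝ) ^ e i := by positivity
    have h8 : cK K * ((p.Q : ℝ) * (c1 K n (e i) * (R * (p.B H : ℝ) ^ (1 / (n : ℝ))))) ≤
        th * H := by
      have h9 : cK K * c1 K n (e i) * p.Q * R / th * (p.B H : ℝ) ^ (1 / (n : ℝ)) * th ≤ H * th :=
        mul_le_mul_of_nonneg_right (h1 i) hth.le
      have h10 : cK K * c1 K n (e i) * p.Q * R / th * (p.B H : ℝ) ^ (1 / (n : ℝ)) * th =
          cK K * c1 K n (e i) * p.Q * R * (p.B H : ℝ) ^ (1 / (n : ℝ)) := by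
        field_simp
      rw [h10] at h9
      linarith
    have hbound : ∀ w' : InfinitePlace K, ‖sg w' (p.Q * t m)‖ ≤
        2 ^ n * cK K * th * H +
          (p.Q : ℝ) * (c1 K n (e i) * (R * (p.B H : ℝ) ^ (1 / (n : ℝ)))) := by
      intro w'
      have h5 : (p.Q : ℝ) * ‖sg w' s'‖ ≤ cK K * (th * H * (p.B H : ℝ) ^ e i) := by
        have h := hsb' w'
        rw [map_mul, sg_natCast, norm_mul, Complex.norm_natCast] at h
        exact h
      have h6 : (p.Q : ℝ) * (2 ^ e i * ‖sg w' s'‖ / (p.B H : ℝ) ^ e i) ≤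
          2 ^ n * cK K * th * H := by
        have h61 : (p.Q : ℝ) * (2 ^ e i * ‖sg w' s'‖ / (p.B H : ℝ) ^ e i) ≤
            2 ^ e i * (cK K * th * H) := by
          have : (p.Q : ℝ) * (2 ^ e i * ‖sg w' s'‖ / (p.B H : ℝ) ^ e i) =
              2 ^ e i * ((p.Q : ℝ) * ‖sg w' s'‖) / (p.B H : ℝ) ^ e i := by ring
          rw [this, div_le_iff₀ hB0]
          have := mul_le_mul_of_nonneg_left h5 (by positivity : (0 : ℝ) ≤ 2 ^ e i)
          linarith
        have h62 : (2 : ℝ) ^ e i ≤ 2 ^ n := pow_le_pow_right₀ (by norm_num) hein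
        have h63 : 0 ≤ cK K * th * H := by positivity
        have h64 := mul_le_mul_of_nonneg_right h62 h63
        linarith
      rw [map_mul, sg_natCast, norm_mul, Complex.norm_natCast]
      calc (p.Q : ℝ) * ‖sg w' (t m)‖ ≤
          p.Q * (2 ^ e i * ‖sg w' s'‖ / (p.B H : ℝ) ^ e i +
            c1 K n (e i) * (R * (p.B H : ℝ) ^ (1 / (n : ℝ)))) :=
            mul_le_mul_of_nonneg_left (htb m w') hQ0.le
        _ = p.Q * (2 ^ e i * ‖sg w' s'‖ / (p.B H : ℝ) ^ e i) +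
            p.Q * (c1 K n (e i) * (R * (p.B H : ℝ) ^ (1 / (n : ℝ)))) := mul_add _ _ _
        _ ≤ _ := by linarith
    refine (crd_le_of_norm_sg hbound j).trans ?_
    rw [mul_add]
    unfold c4
    have e1 : cK K * (2 ^ n * cK K * th * H) = 2 ^ n * cK K ^ 2 * th * H := by
      ring
    rw [e1]
    have e2 : (2 ^ n * cK K ^ 2 + 1) * th * H = 2 ^ n * cK K ^ 2 * th * H + th * H := by ring
    rw [e2]
    linarith

/-- the set of the levels -/
private def tr_lev (p : Par K n e) (th : ℝ) (q : Ideal (𝓞 K)) (H : ℝ) : Set (Fin r → 𝓞 K) :=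
  {v | ∀ i, v i ∈ {s : 𝓞 K | s ∈ q ∧ CIn (th * H * (p.B H : ℝ) ^ e i) s}}

private theorem tr_lev_fin (p : Par K n e) (th : ℝ) (q : Ideal (𝓞 K)) (H : ℝ) (i : Fin r) :
    {s : 𝓞 K | s ∈ q ∧ CIn (th * H * (p.B H : ℝ) ^ e i) s}.Finite :=
  (CIn_finite _).subset fun _ hs => hs.2

private theorem tr_lev_finite (p : Par K n e) (th : ℝ) (q : Ideal (𝓞 K)) (H : ℝ) :
    (tr_lev p th q H).Finite :=
  CIHP.finite_pi _ fun i => tr_lev_fin p th q H i

private theorem tr_lev_card (p : Par K n e) (th : ℝ) (q : Ideal (𝓞 K)) (H : ℝ) :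
    p.Lev th q H = ((tr_lev p th q H).ncard : ℝ) := by
  unfold tr_lev Par.Lev
  rw [CIHP.ncard_pi _ fun i => tr_lev_fin p th q H i]
  push_cast
  rfl

private theorem tr_QM (p : Par K n e) {s : ℕ} (hs : p.Q ∣ p.W ^ s) :
    (p.Q : 𝓞 K) ∣ (p.W : 𝓞 K) ^ s := by
  obtain ⟨c, hc⟩ := hs
  refine ⟨(c : 𝓞 K), ?_⟩
  rw [← Nat.cast_pow, hc, Nat.cast_mul]

theorem trans_lower (p : Par K n e) {eps k0 : ℝ} {w : ℕ} (hp : p.Valid eps k0 w)
    (R : ℝ) (hR : 1 ≤ R) (u th : ℝ) (hth : 0 < th) (s : ℕ) (hs : p.Q ∣ p.W ^ s) :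
    ∀ᶠ H : ℝ in atTop,
      ((p.LP (u - c4 K n * th) th s (p.GG R (p.B H)) H).ncard : ℝ) ≤
        p.Lev th (Ideal.span {(p.W : 𝓞 K) ^ s}) H * ((p.Pairs u R H).ncard : ℝ) := by
  classical
  have hrn : r ≤ n + 1 := by have := hp.n_ge; omega
  filter_upwards [tr_short p hp R hR th hth, eventually_gt_atTop 0] with H hH hH0
  have hQM := tr_QM p hs
  choose! t ht using hH
  let f : (Sys n e (𝓞 K) × (Fin (n + 1) → 𝓞 K)) →
      (Fin r → 𝓞 K) × (Sys n e (𝓞 K) × (Fin (n + 1) → 𝓞 K)) :=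
    fun q => (fun i => F (q.1 i) q.2,
      (fun i m => q.1 i m + (-1) * t q.2 i (F (q.1 i) q.2) m, q.2))
  have hmaps : ∀ q ∈ p.LP (u - c4 K n * th) th s (p.GG R (p.B H)) H,
      f q ∈ tr_lev p th (Ideal.span {(p.W : 𝓞 K) ^ s}) H ×ˢ p.Pairs u R H := by
    intro q hq
    obtain ⟨h1, h2, h34⟩ := hq
    have h3 := fun i => (h34 i).1
    have h4 := fun i => (h34 i).2
    have h5 := fun i => ht q.2 h2 i (F (q.1 i) q.2) (hQM.trans (h3 i)) (h4 i)
    refine ⟨fun i => ⟨Ideal.mem_span_singleton.mpr (h3 i), h4 i⟩,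
      ⟨fun i m j => ?_, fun i m => ?_⟩, h2, fun i => ?_⟩
    · have h6 := h1.1 i m j
      have h7 := (h5 i).2.2 m j
      have h8 : (crd (q.1 i m + (-1) * t q.2 i (F (q.1 i) q.2) m) j : ℝ) - H * p.AC i m j =
          ((crd (q.1 i m) j : ℝ) - H * p.AC i m j) -
            (crd (t q.2 i (F (q.1 i) q.2) m) j : ℝ) := by
        have e : q.1 i m + (-1) * t q.2 i (F (q.1 i) q.2) m =
            q.1 i m - t q.2 i (F (q.1 i) q.2) m := by ring
        rw [e, crd_sub]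
        push_cast
        ring
      simp only [f]
      rw [h8]
      refine (abs_sub _ _).trans ?_
      have h9 : (u - c4 K n * th) * H + c4 K n * th * H = u * H := by ring
      linarith
    · have h8 : q.1 i m + (-1) * t q.2 i (F (q.1 i) q.2) m - p.A0 i m =
          (q.1 i m - p.A0 i m) - t q.2 i (F (q.1 i) q.2) m := by ring
      simp only [f]
      rw [h8]
      exact dvd_sub (h1.2 i m) ((h5 i).2.1 m)
    · simp only [f]
      rw [F_add (q.1 i) (fun m => (-1) * t q.2 i (F (q.1 i) q.2) m), F_smul, (h5 i).1]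
      ring
  have hinj : Set.InjOn f (p.LP (u - c4 K n * th) th s (p.GG R (p.B H)) H) := by
    intro q hq q' hq' hqq
    simp only [f, Prod.mk.injEq] at hqq
    obtain ⟨e4, e1, e2⟩ := hqq
    have e5 : q.1 = q'.1 := by
      funext i m
      have h5 : q.1 i m + (-1) * t q.2 i (F (q.1 i) q.2) m =
          q'.1 i m + (-1) * t q'.2 i (F (q'.1 i) q'.2) m := congrFun (congrFun e1 i) m
      have e6 : F (q.1 i) q.2 = F (q'.1 i) q'.2 := congrFun e4 i
      rw [e6, e2] at h5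
      exact add_right_cancel h5
    exact Prod.ext e5 e2
  have hfin : (tr_lev p th (Ideal.span {(p.W : 𝓞 K) ^ s}) H ×ˢ p.Pairs u R H).Finite :=
    (tr_lev_finite p th _ H).prod (Pairs_finite hrn p u R H)
  have hcard := Set.ncard_le_ncard_of_injOn f hmaps hinj hfin
  rw [Set.ncard_prod] at hcard
  rw [tr_lev_card]
  exact_mod_cast hcard

theorem trans_upper (p : Par K n e) {eps k0 : ℝ} {w : ℕ} (hp : p.Valid eps k0 w)
    (R : ℝ) (hR : 1 ≤ R) (u th : ℝ) (hth : 0 < th) (s : ℕ) (hs : p.Q ∣ p.W ^ s) :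
    ∀ᶠ H : ℝ in atTop,
      p.Lev th (Ideal.span {(p.W : 𝓞 K) ^ s}) H * ((p.Pairs u R H).ncard : ℝ) ≤
        ((p.LP (u + c4 K n * th) th s (p.GG R (p.B H)) H).ncard : ℝ) := by
  classical
  have hrn : r ≤ n + 1 := by have := hp.n_ge; omega
  filter_upwards [tr_short p hp R hR th hth, eventually_gt_atTop 0] with H hH hH0
  have hQM := tr_QM p hs
  choose! t ht using hH
  let f : (Fin r → 𝓞 K) × (Sys n e (𝓞 K) × (Fin (n + 1) → 𝓞 K)) →
      (Sys n e (𝓞 K) × (Fin (n + 1) → 𝓞 K)) :=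
    fun q => (fun i m => q.2.1 i m + t q.2.2 i (q.1 i) m, q.2.2)
  have hF : ∀ q ∈ tr_lev p th (Ideal.span {(p.W : 𝓞 K) ^ s}) H ×ˢ p.Pairs u R H,
      ∀ i, F ((f q).1 i) (f q).2 = q.1 i := by
    intro q hq i
    obtain ⟨h0, h1, h2, h3⟩ := hq
    have h5 := ht q.2.2 h2 i (q.1 i) (hQM.trans (Ideal.mem_span_singleton.mp (h0 i).1)) (h0 i).2
    simp only [f]
    rw [F_add (q.2.1 i) (fun m => t q.2.2 i (q.1 i) m), h3 i, h5.1, zero_add]
  have hmaps : ∀ q ∈ tr_lev p th (Ideal.span {(p.W : 𝓞 K) ^ s}) H ×ˢ p.Pairs u R H,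
      f q ∈ p.LP (u + c4 K n * th) th s (p.GG R (p.B H)) H := by
    intro q hq
    have hFq := hF q hq
    obtain ⟨h0, h1, h2, h3⟩ := hq
    have h5 := fun i => ht q.2.2 h2 i (q.1 i)
      (hQM.trans (Ideal.mem_span_singleton.mp (h0 i).1)) (h0 i).2
    refine ⟨⟨fun i m j => ?_, fun i m => ?_⟩, h2, fun i => ⟨?_, ?_⟩⟩
    · have h6 := h1.1 i m j
      have h7 := (h5 i).2.2 m j
      have h8 : (crd (q.2.1 i m + t q.2.2 i (q.1 i) m) j : ℝ) - H * p.AC i m j =
          ((crd (q.2.1 i m) j : ℝ) - H * p.AC i m j) + (crd (t q.2.2 i (q.1 i) m) j : ℝ) := by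
        rw [crd_add]
        push_cast
        ring
      simp only [f]
      rw [h8]
      refine (abs_add_le _ _).trans ?_
      have h9 : (u + c4 K n * th) * H = u * H + c4 K n * th * H := by ring
      linarith
    · have h8 : q.2.1 i m + t q.2.2 i (q.1 i) m - p.A0 i m =
          (q.2.1 i m - p.A0 i m) + t q.2.2 i (q.1 i) m := by ring
      simp only [f]
      rw [h8]
      exact dvd_add (h1.2 i m) ((h5 i).2.1 m)
    · rw [hFq i]
      exact Ideal.mem_span_singleton.mp (h0 i).1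
    · rw [hFq i]
      exact (h0 i).2
  have hinj : Set.InjOn f
      (tr_lev p th (Ideal.span {(p.W : 𝓞 K) ^ s}) H ×ˢ p.Pairs u R H) := by
    intro q hq q' hq' hqq
    have e3 : q.1 = q'.1 := by
      funext i
      have e1 := hF q hq i
      have e2 := hF q' hq' i
      rw [hqq, e2] at e1
      exact e1.symm
    simp only [f, Prod.mk.injEq] at hqq
    have e4 : q.2.1 = q'.2.1 := by
      funext i m
      have h5 : q.2.1 i m + t q.2.2 i (q.1 i) m = q'.2.1 i m + t q'.2.2 i (q'.1 i) m :=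
        congrFun (congrFun hqq.1 i) m
      rw [e3, hqq.2] at h5
      exact add_right_cancel h5
    exact Prod.ext e3 (Prod.ext e4 hqq.2)
  have hfin := LP_finite p (u + c4 K n * th) th s (p.GG R (p.B H))
    (GG_finite hrn p R (p.B H)) H
  have hcard := Set.ncard_le_ncard_of_injOn f hmaps hinj hfin
  rw [Set.ncard_prod] at hcard
  rw [tr_lev_card]
  exact_mod_cast hcard

end NKHP
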