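import Pool.Agent.Lib.MP_e426f4_ag.NK.NLoc
import Pool.Agent.Lib.MP_e426f4_ag.NK.CardCl
import Pool.Agent.Lib.MP_e426f4_ag.NK.Trans
import Pool.Agent.Lib.MP_e426f4_ag.NK.BadPoints
import Pool.Agent.Lib.MP_e426f4_ag.G.FirstAux

/-!
NK-FirstLower: lower bound for the first moment. Templates: CI/FirstLower.lean (+ FirstAux), N/FirstLower.lean (+ FirstAux). th small (c4 th <= eps rho/(...)), s with Q | W^s: LP(rho - c4 th, XX) >= (1 - eps)(1 - small) TL XR(rho - c4 th) (nloc with q = top for each A in the class, card_Cl),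
minus bad_points, then trans_lower, Lev_asymp (q = span W^s) and TL_eq.
-/

namespace NKHP

open NumberField GenHP NFHP Finset Filter Topology
open CIHP (Sys NS Jac nu Bf)

variable {K : Type} [Field K] [NumberField K] {n r : ℕ} {e : Fin r → ℕ}

private theorem fl_NS_pos (p : Par K n e) {eps k0 : ℝ} {w : ℕ} (hp : p.Valid eps k0 w) :
    0 < NS n e := by
  have hr := hp.r_pos
  unfold CIHP.NS
  exact Finset.sum_pos (fun i _ => NN_pos n (e i)) ⟨⟨0, hr⟩, Finset.mem_univ _⟩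

private theorem fl_near_Ainf (p : Par K n e) {eps k0 : ℝ} {w : ℕ} (hp : p.Valid eps k0 w)
    (u H : ℝ) (hH0 : 0 ≤ H) (hu : u ≤ 2 * p.rho) (A : Sys n e (𝓞 K)) (hA : A ∈ p.Cl u H) :
    ∀ i t j, |(crd (A i t) j : ℝ) - H * p.Ainf i t j| ≤ 3 * p.rho * H := by
  intro i t j
  have h1 := hA.1 i t j
  have h2 := hp.AC_near i t j
  calc |(crd (A i t) j : ℝ) - H * p.Ainf i t j| =
      |((crd (A i t) j : ℝ) - H * p.AC i t j) + H * (p.AC i t j - p.Ainf i t j)| := by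
        ring_nf
    _ ≤ |(crd (A i t) j : ℝ) - H * p.AC i t j| +
        |(H : ℝ) * (p.AC i t j - p.Ainf i t j)| := abs_add_le _ _
    _ = |(crd (A i t) j : ℝ) - H * p.AC i t j| + H * |p.AC i t j - p.Ainf i t j| := by
        rw [abs_mul, abs_of_nonneg hH0]
    _ ≤ u * H + H * p.rho := add_le_add h1 (mul_le_mul_of_nonneg_left h2 hH0)
    _ ≤ 3 * p.rho * H := by nlinarith

private theorem fl_span_ne_bot (p : Par K n e) {eps k0 : ℝ} {w : ℕ} (hp : p.Valid eps k0 w)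
    (s : ℕ) : Ideal.span {(p.W : 𝓞 K) ^ s} ≠ ⊥ := by
  rw [Ne, Ideal.span_singleton_eq_bot]
  exact pow_ne_zero s (Nat.cast_ne_zero.mpr hp.W_pos.ne')

theorem S1_lower (p : Par K n e) {eps k0 : ℝ} {w : ℕ} (hp : p.Valid eps k0 w)
    (E : ℝ) (hE : ∀ S : Finset (Ideal (𝓞 K)), (∀ I ∈ S, w < Ideal.absNorm I) →
      ∑ I ∈ S, 1 / (Ideal.absNorm I : ℝ) ^ 2 ≤ E) :
    ∃ R0 : ℝ, 1 ≤ R0 ∧ ∀ R, R0 ≤ R → ∀ᶠ H : ℝ in atTop,
      (1 - 8 * eps - 2 * E) * p.TT H * p.XR p.rho H ≤ ((p.Pairs p.rho R H).ncard : ℝ) := by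
  have he := hp.eps_pos
  have he1 := hp.eps_le
  have hrho := hp.rho_pos
  have hQ := hp.Q_pos
  have hQr : (0 : ℝ) < p.Q := by exact_mod_cast hQ
  have hWr : (0 : ℝ) < p.W := by exact_mod_cast hp.W_pos
  have hrn : r ≤ n + 1 := by
    have := hp.n_ge
    omega
  have hE0 : 0 ≤ E := by
    have := hE ∅ (by simp)
    simpa using this
  obtain ⟨s, hs⟩ := hp.hens.2.1
  have hnQ : p.Q ∣ p.W ^ s := by rw [hs]
  obtain ⟨N, hNdef⟩ : ∃ N : ℕ, N = mK K * NS n e := ⟨_, rfl⟩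
  have hN : 0 < N := by rw [hNdef]; exact Nat.mul_pos mK_pos (fl_NS_pos p hp)
  have hNr : (1 : ℝ) ≤ N := by exact_mod_cast hN
  have hN0 : (0 : ℝ) < N := by linarith
  have hc4 := one_le_c4 K n
  have hc2 : (0 : ℝ) < c4 K n := by linarith
  obtain ⟨th, hth, hth2, hth3⟩ : ∃ th : ℝ, 0 < th ∧ th ≤ p.th1 ∧
      th ≤ eps * p.rho / (c4 K n * N) :=
    ⟨min p.th1 (eps * p.rho / (c4 K n * N)),
      lt_min hp.th1_pos (by positivity), min_le_left _ _, min_le_right _ _⟩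
  have hct : c4 K n * th ≤ p.rho * (eps / N) := by
    rw [le_div_iff₀ (by positivity)] at hth3
    rw [mul_div_assoc', le_div_iff₀ hN0]
    linarith
  have heN : eps / N ≤ eps := div_le_self he.le hNr
  have heN0 : 0 < eps / N := by positivity
  obtain ⟨r9, hr9⟩ : ∃ r9 : ℝ, r9 = p.rho - c4 K n * th := ⟨_, rfl⟩
  have hr9a : p.rho * (1 - eps / N) ≤ r9 := by
    rw [hr9]
    linarith
  have hr9p : 0 < r9 := lt_of_lt_of_le (mul_pos hrho (by linarith)) hr9a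
  have hr9b : r9 ≤ p.rho := by
    have : 0 < c4 K n * th := mul_pos hc2 hth
    linarith
  obtain ⟨B0, hB0⟩ := nloc p hp th hth hth2 s hnQ ⊤ top_ne_bot
    (by rw [← Ideal.one_eq_top]; exact isCoprime_one_left)
  obtain ⟨R0, hR0, hbad⟩ := bad_points p hp E hE
  refine ⟨R0, hR0, fun R hR => ?_⟩
  have hR1 : 1 ≤ R := hR0.trans hR
  have hBt : Tendsto p.B atTop atTop :=
    CIHP.Bf_atTop (n := n) e hp.r_pos hp.sum_le p.C0 hp.C0_ge
  filter_upwards [hbad R hR th hth hth2 s hnQ,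
    trans_lower p hp R hR1 p.rho th hth s hnQ,
    card_Cl p hQ r9 eps hr9p he, hBt.eventually_ge_atTop 1, hBt.eventually_ge_atTop B0,
    Lev_asymp p hp th hth _ (fl_span_ne_bot p hp s) eps he,
    eventually_ge_atTop (1 : ℝ)] with H hBP hTR hCl hB1 hB0' hLev hH1
  have hH0 : (0 : ℝ) < H := by linarith
  have hB1' : (1 : ℝ) ≤ p.B H := by exact_mod_cast hB1
  have hBpos : (0 : ℝ) < p.B H := by linarith
  have hlev := hLev.2
  have hlev0 := Lev_pos p hth.le hH0.le (Ideal.span {(p.W : 𝓞 K) ^ s})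
  have hmt := TL_eq p hp th hth s H hH0
  have hMT : p.MT th s H = p.TL th s (p.B H) * p.XR p.rho H := rfl
  rw [hMT] at hBP
  have hTT0 : 0 ≤ p.TT H := TT_nonneg p hp H hH0.le
  have hX0 : 0 ≤ p.XR p.rho H := XR_nonneg p p.rho H hrho.le hH0.le
  have hP0 : (0 : ℝ) ≤ ((p.Pairs p.rho R H).ncard : ℝ) := Nat.cast_nonneg _
  obtain ⟨y, hydef⟩ : ∃ y : ℝ, y = ((2 * th * H / (p.W : ℝ) ^ s) ^ r *
      (p.B H : ℝ) ^ (∑ i, e i)) ^ mK K := ⟨_, rfl⟩
  have hy0 : 0 < y := by rw [hydef]; positivity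
  have hyeq : ((2 * th * H) ^ r * (p.B H : ℝ) ^ (∑ i, e i)) ^ mK K /
      (Ideal.absNorm (Ideal.span {(p.W : 𝓞 K) ^ s}) : ℝ) ^ r = y := by
    rw [absNorm_span_W, hydef]
    push_cast
    rw [← pow_mul, mul_comm (mK K) r, pow_mul, ← div_pow]
    congr 1
    rw [div_pow]
    field_simp
  rw [hyeq] at hlev
  rw [← hydef] at hmt
  obtain ⟨T', hT'⟩ : ∃ T' : ℝ, T' = p.TL th s (p.B H) := ⟨_, rfl⟩
  rw [← hT'] at hmt hBP
  rw [← hr9] at hTR
  have hT'nn : 0 ≤ T' := by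
    rw [hmt]
    exact mul_nonneg hTT0 hy0.le
  have hXXf := XX_finite hrn p (p.B H)
  -- all local pairs
  have hLP : ((p.Cl r9 H).ncard : ℝ) * ((1 - eps) * T') ≤
      ((p.LP r9 th s (p.XX (p.B H)) H).ncard : ℝ) := by
    refine le_ncard_pairs (p.Cl r9 H) (Cl_finite p _ H) (p.XX (p.B H)) hXXf
      (fun A x => ∀ i, (p.W : 𝓞 K) ^ s ∣ F (A i) x ∧
        CIn (th * H * (p.B H : ℝ) ^ e i) (F (A i) x)) _ ?_
    intro A hA
    have h1 := (hB0 (p.B H) hB0' H hH0 A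
      (fl_near_Ainf p hp r9 H hH0.le (by linarith) A hA) hA.2 (fun _ => 0)).1
    rw [Ideal.absNorm_top, Nat.cast_one, one_pow, div_one, ← hT'] at h1
    refine le_trans h1 ?_
    refine Nat.cast_le.mpr (Set.ncard_le_ncard ?_ (hXXf.subset fun _ hx => hx.1))
    intro x hx
    exact ⟨hx.1, hx.2.1⟩
  have hsplit : ((p.LP r9 th s (p.XX (p.B H)) H).ncard : ℝ) ≤
      ((p.LP r9 th s (p.GG R (p.B H)) H).ncard : ℝ) +
      ((p.LP p.rho th s (p.XX (p.B H) \ p.GG R (p.B H)) H).ncard : ℝ) := by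
    have h1 : p.LP r9 th s (p.XX (p.B H)) H ⊆ p.LP r9 th s (p.GG R (p.B H)) H ∪
        p.LP p.rho th s (p.XX (p.B H) \ p.GG R (p.B H)) H := by
      intro q hq
      by_cases hg : q.2 ∈ p.GG R (p.B H)
      · exact Or.inl ⟨hq.1, hg, hq.2.2⟩
      · refine Or.inr ⟨⟨fun i t j => (hq.1.1 i t j).trans ?_, hq.1.2⟩, ⟨hq.2.1, hg⟩, hq.2.2⟩
        exact mul_le_mul_of_nonneg_right hr9b hH0.le
    have h2 := Set.ncard_le_ncard h1 ((LP_finite p r9 th s _ (GG_finite hrn p R (p.B H)) H).union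
      (LP_finite p p.rho th s _ (hXXf.subset fun _ h => h.1) H))
    have h3 := Set.ncard_union_le (p.LP r9 th s (p.GG R (p.B H)) H)
      (p.LP p.rho th s (p.XX (p.B H) \ p.GG R (p.B H)) H)
    exact_mod_cast h2.trans h3
  have hX : (1 - eps) * p.XR p.rho H ≤ p.XR r9 H := by
    have h1 : (1 - eps / N) ^ N * p.XR p.rho H ≤ p.XR r9 H := by
      unfold Par.XR
      rw [← hNdef, ← mul_pow]
      refine pow_le_pow_left₀ (mul_nonneg (by linarith) (by positivity)) ?_ _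
      rw [mul_div_assoc', div_le_div_iff_of_pos_right hQr]
      nlinarith [mul_le_mul_of_nonneg_right hr9a hH0.le]
    exact (mul_le_mul_of_nonneg_right (one_sub_le_pow _ hN eps (by linarith)) hX0).trans h1
  obtain ⟨v, hv⟩ : ∃ v : ℝ, v = 2 * E := ⟨_, rfl⟩
  rw [← hv] at hBP ⊢
  have hv0 : 0 ≤ v := by rw [hv]; positivity
  -- lower bound for the local pairs over good points
  have h5 : (1 - 4 * eps - v) * (T' * p.XR p.rho H) ≤
      ((p.LP r9 th s (p.GG R (p.B H)) H).ncard : ℝ) := by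
    have h6 : (1 - eps) * ((1 - eps) * p.XR p.rho H) * ((1 - eps) * T') ≤
        ((p.Cl r9 H).ncard : ℝ) * ((1 - eps) * T') := by
      refine mul_le_mul_of_nonneg_right ?_ (mul_nonneg (by linarith) hT'nn)
      exact (mul_le_mul_of_nonneg_left hX (by linarith)).trans hCl.1
    have h7 : (1 - 4 * eps - v) * (T' * p.XR p.rho H) ≤
        (1 - eps) * ((1 - eps) * p.XR p.rho H) * ((1 - eps) * T') -
          (eps + v) * (T' * p.XR p.rho H) := by
      have h8 : 0 ≤ T' * p.XR p.rho H := mul_nonneg hT'nn hX0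
      have h9 : 1 - 4 * eps - v ≤ (1 - eps) * (1 - eps) * (1 - eps) - (eps + v) := by
        nlinarith [mul_pos he he, mul_nonneg (mul_nonneg he.le he.le) (by linarith : (0 : ℝ) ≤ 1 - eps)]
      calc (1 - 4 * eps - v) * (T' * p.XR p.rho H) ≤
          ((1 - eps) * (1 - eps) * (1 - eps) - (eps + v)) * (T' * p.XR p.rho H) :=
            mul_le_mul_of_nonneg_right h9 h8
        _ = _ := by ring
    linarith
  by_cases hneg : 1 - 8 * eps - v ≤ 0
  · calc (1 - 8 * eps - v) * p.TT H * p.XR p.rho H =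
        (1 - 8 * eps - v) * (p.TT H * p.XR p.rho H) := by ring
      _ ≤ 0 := mul_nonpos_of_nonpos_of_nonneg hneg (mul_nonneg hTT0 hX0)
      _ ≤ _ := hP0
  · have hpos : 0 < 1 - 8 * eps - v := not_le.1 hneg
    refine le_of_mul_le_mul_left ?_ hlev0
    calc p.Lev th (Ideal.span {(p.W : 𝓞 K) ^ s}) H *
          ((1 - 8 * eps - v) * p.TT H * p.XR p.rho H) ≤
        ((1 + eps) * y) * ((1 - 8 * eps - v) * p.TT H * p.XR p.rho H) :=
          mul_le_mul_of_nonneg_right hlev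
            (mul_nonneg (mul_nonneg hpos.le hTT0) hX0)
      _ = ((1 + eps) * (1 - 8 * eps - v)) * (y * p.TT H * p.XR p.rho H) := by ring
      _ ≤ (1 - 4 * eps - v) * (y * p.TT H * p.XR p.rho H) := by
          refine mul_le_mul_of_nonneg_right ?_ (by positivity)
          nlinarith [mul_nonneg he.le hv0, mul_pos he he]
      _ = (1 - 4 * eps - v) * (T' * p.XR p.rho H) := by rw [hmt]; ring
      _ ≤ _ := h5
      _ ≤ _ := hTR

end NKHP
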