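import Pool.Agent.Lib.MP_e426f4_ag.NK.NLoc
import Pool.Agent.Lib.MP_e426f4_ag.NK.CardCl
import Pool.Agent.Lib.MP_e426f4_ag.NK.Trans
import Pool.Agent.Lib.MP_e426f4_ag.G.FirstAux

/-!
NK-FirstUpper: upper bound for the first moment. Templates: CI/FirstUpper.lean, N/FirstUpper.lean: trans_upper, LP(u + c4 th, GG) <= LP(.., XX), nloc with q = top (|A - H Ainf| <= 3 rho H since u + c4 th + rho <= 3 rho), card_Cl, Lev_asymp, TL_eq.
-/

namespace NKHP

open NumberField GenHP NFHP Finset Filter Topology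
open CIHP (Sys NS Jac nu Bf)

variable {K : Type} [Field K] [NumberField K] {n r : ℕ} {e : Fin r → ℕ}

private theorem s1u_num (N : ℕ) (hN : 0 < N) (e : ℝ) (he : 0 < e) (he1 : e ≤ 1 / 10) :
    (1 + e) * (1 + e / N) ^ N * (1 + e) ≤ (1 - e) * (1 + 8 * e) := by
  have h1 := pow_le_quad N hN e he (by linarith)
  have h2 : (1 + e) * (1 + e) ≤ 1 + 21 / 10 * e := by nlinarith
  have h3 : 1 + e + e ^ 2 ≤ 1 + 11 / 10 * e := by nlinarith
  calc (1 + e) * (1 + e / N) ^ N * (1 + e) = (1 + e) * (1 + e) * (1 + e / N) ^ N := by ring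
    _ ≤ (1 + 21 / 10 * e) * (1 + 11 / 10 * e) :=
        mul_le_mul h2 (h1.trans h3) (by positivity) (by positivity)
    _ ≤ (1 - e) * (1 + 8 * e) := by nlinarith

private theorem s1u_near (p : Par K n e) {eps k0 : ℝ} {w : ℕ} (hp : p.Valid eps k0 w)
    (u H : ℝ) (hH0 : 0 ≤ H) (hu : u ≤ 2 * p.rho) (A : Sys n e (𝓞 K)) (hA : A ∈ p.Cl u H) :
    ∀ i t j, |(crd (A i t) j : ℝ) - H * p.Ainf i t j| ≤ 3 * p.rho * H := by
  intro i t j
  have h1 := hA.1 i t j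
  have h2 := hp.AC_near i t j
  calc |(crd (A i t) j : ℝ) - H * p.Ainf i t j| =
      |((crd (A i t) j : ℝ) - H * p.AC i t j) + H * (p.AC i t j - p.Ainf i t j)| := by
        ring_nf
    _ ≤ |(crd (A i t) j : ℝ) - H * p.AC i t j| + |(H : ℝ) * (p.AC i t j - p.Ainf i t j)| :=
        abs_add_le _ _
    _ = |(crd (A i t) j : ℝ) - H * p.AC i t j| + H * |p.AC i t j - p.Ainf i t j| := by
        rw [abs_mul, abs_of_nonneg hH0]
    _ ≤ u * H + H * p.rho := add_le_add h1 (mul_le_mul_of_nonneg_left h2 hH0)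
    _ ≤ 3 * p.rho * H := by nlinarith

private theorem s1u_NS_pos (hr : 1 ≤ r) : 0 < NS n e := by
  unfold CIHP.NS
  exact Finset.sum_pos (fun i _ => NN_pos n (e i)) ⟨⟨0, hr⟩, Finset.mem_univ _⟩

theorem S1_upper (p : Par K n e) {eps k0 : ℝ} {w : ℕ} (hp : p.Valid eps k0 w) (R : ℝ)
    (hR : 1 ≤ R) (u : ℝ) (hu : p.rho ≤ u) (hu2 : u ≤ 3 / 2 * p.rho) :
    ∀ᶠ H : ℝ in atTop,
      ((p.Pairs u R H).ncard : ℝ) ≤ (1 + 8 * eps) * p.TT H * p.XR u H := by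
  have he := hp.eps_pos
  have he1 := hp.eps_le
  have hrho := hp.rho_pos
  have hW := hp.W_pos
  have hQ := hp.Q_pos
  have hrn : r ≤ n + 1 := by have := hp.n_ge; omega
  have hWr : (0 : ℝ) < p.W := by exact_mod_cast hW
  have hQr : (0 : ℝ) < p.Q := by exact_mod_cast hQ
  have hu0 : 0 < u := hrho.trans_le hu
  obtain ⟨s, hs⟩ := hp.hens.2.1
  have hnQ : p.Q ∣ p.W ^ s := by rw [hs]
  obtain ⟨N, hNdef⟩ : ∃ N : ℕ, N = mK K * NS n e := ⟨_, rfl⟩
  have hN : 0 < N := by rw [hNdef]; exact Nat.mul_pos mK_pos (s1u_NS_pos hp.r_pos)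
  have hNr : (1 : ℝ) ≤ N := by exact_mod_cast hN
  have hN0 : (0 : ℝ) < N := by linarith
  have hc4 := one_le_c4 K n
  have hc2 : (0 : ℝ) < c4 K n := by linarith
  obtain ⟨th, hth, hth2, hth3⟩ : ∃ th : ℝ, 0 < th ∧ th ≤ p.th1 ∧
      th ≤ eps * p.rho / (c4 K n * N) :=
    ⟨min p.th1 (eps * p.rho / (c4 K n * N)),
      lt_min hp.th1_pos (by positivity), min_le_left _ _, min_le_right _ _⟩
  have hct : c4 K n * th ≤ p.rho * (eps / N) := by
    rw [le_div_iff₀ (by positivity)] at hth3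
    rw [mul_div_assoc', le_div_iff₀ hN0]
    linarith
  have heN : eps / N ≤ eps := div_le_self he.le hNr
  have heN0 : 0 < eps / N := by positivity
  have hr9 : u + c4 K n * th ≤ u * (1 + eps / N) := by
    have := mul_le_mul_of_nonneg_right hu heN0.le
    linarith
  have hr9b : u + c4 K n * th ≤ 2 * p.rho := by
    have h1 : p.rho * (eps / N) ≤ p.rho * (1 / 10) :=
      mul_le_mul_of_nonneg_left (heN.trans he1) hrho.le
    linarith
  have hIne : Ideal.span {(p.W : 𝓞 K) ^ s} ≠ ⊥ := by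
    rw [Ne, Ideal.span_singleton_eq_bot]
    exact pow_ne_zero s (Nat.cast_ne_zero.mpr hW.ne')
  obtain ⟨B0, hB0⟩ := nloc p hp th hth hth2 s hnQ ⊤ top_ne_bot
    (by rw [← Ideal.one_eq_top]; exact isCoprime_one_left)
  have hBt : Tendsto p.B atTop atTop := CIHP.Bf_atTop e hp.r_pos hp.sum_le p.C0 hp.C0_ge
  filter_upwards [trans_upper p hp R hR u th hth s hnQ,
    card_Cl p hQ (u + c4 K n * th) eps (by positivity) he, hBt.eventually_ge_atTop 1,
    hBt.eventually_ge_atTop B0,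
    Lev_asymp p hp th hth _ hIne eps he,
    eventually_ge_atTop (1 : ℝ)] with H hTR hCl hB1 hB0' hLev hH1
  have hH0 : (0 : ℝ) < H := by linarith
  have hB1' : (1 : ℝ) ≤ p.B H := by exact_mod_cast hB1
  have hBpos : (0 : ℝ) < p.B H := by linarith
  have hlev := hLev.1
  have hmt := TL_eq p hp th hth s H hH0
  have hTT0 : 0 ≤ p.TT H := TT_nonneg p hp H hH0.le
  obtain ⟨T', hT'⟩ : ∃ T' : ℝ, T' = p.TL th s (p.B H) := ⟨_, rfl⟩
  obtain ⟨y, hydef⟩ : ∃ y : ℝ, y = ((2 * th * H / (p.W : ℝ) ^ s) ^ r *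
      (p.B H : ℝ) ^ (∑ i, e i)) ^ mK K := ⟨_, rfl⟩
  have hy0 : 0 < y := by rw [hydef]; positivity
  have hy2 : ((2 * th * H) ^ r * (p.B H : ℝ) ^ (∑ i, e i)) ^ mK K /
      (Ideal.absNorm (Ideal.span {(p.W : 𝓞 K) ^ s}) : ℝ) ^ r = y := by
    rw [absNorm_span_W, hydef]
    push_cast
    have h1 : (((p.W : ℝ) ^ s) ^ mK K) ^ r = (((p.W : ℝ) ^ s) ^ r) ^ mK K := by
      rw [← pow_mul ((p.W : ℝ) ^ s), ← pow_mul ((p.W : ℝ) ^ s), mul_comm]
    rw [h1, ← div_pow]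
    congr 1
    rw [div_pow]
    ring
  rw [hy2] at hlev
  rw [← hT', ← hydef] at hmt
  have hT'nn : 0 ≤ T' := by rw [hmt]; positivity
  -- number of local pairs
  have hLP : ((p.LP (u + c4 K n * th) th s (p.GG R (p.B H)) H).ncard : ℝ) ≤
      ((p.Cl (u + c4 K n * th) H).ncard : ℝ) * ((1 + eps) * T') := by
    refine ncard_pairs_le (p.Cl (u + c4 K n * th) H) (Cl_finite p _ H) (p.GG R (p.B H))
      (GG_finite hrn p R (p.B H)) (fun A x => ∀ i, ((p.W : 𝓞 K) ^ s) ∣ F (A i) x ∧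
        CIn (th * H * (p.B H : ℝ) ^ e i) (F (A i) x)) _ ?_
    intro A hA
    have h1 := (hB0 (p.B H) hB0' H hH0 A
      (s1u_near p hp (u + c4 K n * th) H hH0.le hr9b A hA) hA.2 (fun _ => 0)).2
    rw [Ideal.absNorm_top, Nat.cast_one, one_pow, div_one] at h1
    have h1' : (Set.ncard {x : Fin (n + 1) → 𝓞 K | x ∈ p.XX (p.B H) ∧
        (∀ i, (p.W : 𝓞 K) ^ s ∣ F (A i) x ∧ CIn (th * H * (p.B H : ℝ) ^ e i) (F (A i) x)) ∧
        ∀ i, x i - 0 ∈ (⊤ : Ideal (𝓞 K))} : ℝ) ≤ (1 + eps) * T' := by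
      rw [hT']
      exact h1
    refine le_trans ?_ h1'
    have h3 : {x | x ∈ p.GG R (p.B H) ∧ ∀ i, ((p.W : 𝓞 K) ^ s) ∣ F (A i) x ∧
        CIn (th * H * (p.B H : ℝ) ^ e i) (F (A i) x)} ⊆
        {x : Fin (n + 1) → 𝓞 K | x ∈ p.XX (p.B H) ∧
          (∀ i, (p.W : 𝓞 K) ^ s ∣ F (A i) x ∧ CIn (th * H * (p.B H : ℝ) ^ e i) (F (A i) x)) ∧
          ∀ i, x i - 0 ∈ (⊤ : Ideal (𝓞 K))} := by
      intro x hx
      exact ⟨hx.1.1, hx.2, fun i => Submodule.mem_top⟩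
    exact Nat.cast_le.mpr
      (Set.ncard_le_ncard h3 ((XX_finite hrn p (p.B H)).subset fun _ hx => hx.1))
  have hX : p.XR (u + c4 K n * th) H ≤ (1 + eps / N) ^ N * p.XR u H := by
    unfold Par.XR
    rw [← hNdef, ← mul_pow]
    refine pow_le_pow_left₀ (by positivity) ?_ _
    rw [mul_div_assoc', div_le_div_iff_of_pos_right hQr]
    nlinarith [mul_le_mul_of_nonneg_right hr9 hH0.le]
  have hX0 : 0 ≤ p.XR u H := XR_nonneg p u H hu0.le hH0.le
  obtain ⟨X, hXdef⟩ : ∃ X : ℝ, X = p.XR u H := ⟨_, rfl⟩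
  rw [← hXdef] at hX hX0 ⊢
  have hP0 : (0 : ℝ) ≤ ((p.Pairs u R H).ncard : ℝ) := Nat.cast_nonneg _
  have h5 : (1 - eps) * y * ((p.Pairs u R H).ncard : ℝ) ≤
      (1 - eps) * y * ((1 + 8 * eps) * p.TT H * X) := by
    calc (1 - eps) * y * ((p.Pairs u R H).ncard : ℝ) ≤
        p.Lev th (Ideal.span {(p.W : 𝓞 K) ^ s}) H * ((p.Pairs u R H).ncard : ℝ) :=
          mul_le_mul_of_nonneg_right hlev hP0
      _ ≤ _ := hTR
      _ ≤ _ := hLP
      _ ≤ ((1 + eps) * p.XR (u + c4 K n * th) H) * ((1 + eps) * T') :=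
          mul_le_mul_of_nonneg_right hCl.2 (by positivity)
      _ ≤ ((1 + eps) * ((1 + eps / N) ^ N * X)) * ((1 + eps) * T') := by gcongr
      _ = (1 + eps) * (1 + eps / N) ^ N * (1 + eps) * (y * p.TT H * X) := by
          rw [hmt]
          ring
      _ ≤ (1 - eps) * (1 + 8 * eps) * (y * p.TT H * X) :=
          mul_le_mul_of_nonneg_right (s1u_num _ hN eps he he1) (by positivity)
      _ = _ := by ring
  have h6 : 0 < (1 - eps) * y := mul_pos (by linarith) hy0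
  exact le_of_mul_le_mul_left h5 h6

end NKHP
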