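import Pool.Agent.Lib.MP_e426f4_ag.NK.Defs

/-! Module NK-FL: real coordinates of families and real matrices of `K ⊗ ℝ`-linear maps. -/

set_option linter.unusedSectionVars false

namespace NKRC

open NumberField GenHP NFHP NKHP Finset Filter Topology

variable {K : Type} [Field K] [NumberField K]

open Classical in
/-- real coordinates of an element of `K ⊗ ℝ` -/
noncomputable def co (v : InfinitePlace K → ℂ) : IK K → ℝ :=
  if h : RV v then (exists_lam h).choose else fun _ => 0

theorem lam_co {v : InfinitePlace K → ℂ} (hv : RV v) (w : InfinitePlace K) :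
    lam (co v) w = v w := by
  unfold co
  rw [dif_pos hv]
  exact (exists_lam hv).choose_spec w

theorem co_eq {v : InfinitePlace K → ℂ} (hv : RV v) {r : IK K → ℝ} (h : ∀ w, lam r w = v w) :
    co v = r := lam_injective fun w => by rw [lam_co hv, h]

theorem co_lam (r : IK K → ℝ) : co (lam r) = r := co_eq (RV_lam r) fun _ => rfl

theorem co_congr {u v : InfinitePlace K → ℂ} (h : ∀ w, u w = v w) : co u = co v := by
  rw [funext h]

theorem co_sub {u v : InfinitePlace K → ℂ} (hu : RV u) (hv : RV v) (j : IK K) :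
    co (fun w => u w - v w) j = co u j - co v j := by
  have h1 : co (fun w => u w - v w) = fun j => co u j - co v j :=
    co_eq (RV_sub hu hv) fun w => by rw [lam_sub, lam_co hu, lam_co hv]
  rw [h1]

theorem co_add {u v : InfinitePlace K → ℂ} (hu : RV u) (hv : RV v) (j : IK K) :
    co (fun w => u w + v w) j = co u j + co v j := by
  have h1 : co (fun w => u w + v w) = fun j => co u j + co v j :=
    co_eq (RV_add hu hv) fun w => by rw [lam_add, lam_co hu, lam_co hv]
  rw [h1]

theorem co_abs_le {v : InfinitePlace K → ℂ} (hv : RV v) {R : ℝ} (h : ∀ w, ‖v w‖ ≤ R)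
    (j : IK K) : |co v j| ≤ cK K * R :=
  abs_le_of_lam (co v) R (fun w => by rw [lam_co hv]; exact h w) j

/-- `lam` of a real linear combination -/
theorem lam_lin {ι : Type*} (s : Finset ι) (c : ι → ℝ) (f : ι → IK K → ℝ)
    (w : InfinitePlace K) :
    lam (fun j => ∑ p ∈ s, c p * f p j) w = ∑ p ∈ s, (c p : ℂ) * lam (f p) w := by
  unfold lam
  push_cast
  simp only [Finset.sum_mul, Finset.mul_sum]
  rw [Finset.sum_comm]
  refine Finset.sum_congr rfl fun p _ => Finset.sum_congr rfl fun j _ => ?_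
  ring

theorem lam_single (k : IK K) (w : InfinitePlace K) [DecidableEq (IK K)] :
    lam (fun j => if j = k then (1 : ℝ) else 0) w = sg w (RingOfIntegers.basis K k) := by
  show ∑ j, ((if j = k then (1 : ℝ) else 0 : ℝ) : ℂ) * sg w (RingOfIntegers.basis K j) = _
  rw [Finset.sum_eq_single k]
  · rw [if_pos rfl]
    simp
  · intro j _ hj
    rw [if_neg hj]
    simp
  · intro h
    exact absurd (Finset.mem_univ k) h

theorem norm_sg_basis (k : IK K) (w : InfinitePlace K) :
    ‖sg w (RingOfIntegers.basis K k)‖ ≤ cK K := by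
  classical
  rw [← lam_single k w]
  refine (norm_lam_le _ 1 (fun j => ?_) w).trans (le_of_eq (mul_one _))
  split_ifs
  · rw [abs_one]
  · rw [abs_zero]
    exact zero_le_one

section flat
variable {r : ℕ}

/-- a matrix over `K ⊗ ℝ`, given at all places -/
def RM (M : InfinitePlace K → Matrix (Fin r) (Fin r) ℂ) : Prop := ∀ i l, RV fun w => M w i l

/-- the real matrix of a matrix over `K ⊗ ℝ` -/
noncomputable def fl (M : InfinitePlace K → Matrix (Fin r) (Fin r) ℂ) :
    Matrix (Fin r × IK K) (Fin r × IK K) ℝ :=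
  Matrix.of fun p q => co (fun w => M w p.1 q.1 * sg w (RingOfIntegers.basis K q.2)) p.2

theorem RV_fl {M : InfinitePlace K → Matrix (Fin r) (Fin r) ℂ} (hM : RM M) (i l : Fin r)
    (k : IK K) : RV fun w => M w i l * sg w (RingOfIntegers.basis K k) :=
  RV_mul (hM i l) (RV_sg _)

theorem fl_mulVec {M : InfinitePlace K → Matrix (Fin r) (Fin r) ℂ} (hM : RM M)
    (v : Fin r × IK K → ℝ) (p : Fin r × IK K) :
    (fl M).mulVec v p = co (fun w => ∑ l, M w p.1 l * lam (fun k => v (l, k)) w) p.2 := by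
  have hR : RV fun w => ∑ l, M w p.1 l * lam (fun k => v (l, k)) w :=
    RV_sum _ fun l _ => RV_mul (hM p.1 l) (RV_lam _)
  have h1 : co (fun w => ∑ l, M w p.1 l * lam (fun k => v (l, k)) w) =
      fun j => ∑ q : Fin r × IK K,
        v q * co (fun w => M w p.1 q.1 * sg w (RingOfIntegers.basis K q.2)) j := by
    refine co_eq hR fun w => ?_
    rw [lam_lin, Fintype.sum_prod_type]
    refine Finset.sum_congr rfl fun l _ => ?_
    unfold lam
    rw [Finset.mul_sum]
    refine Finset.sum_congr rfl fun k _ => ?_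
    have h2 := lam_co (RV_fl hM p.1 l k) w
    unfold lam at h2
    rw [h2]
    ring
  rw [h1]
  show ∑ q, fl M p q * v q = _
  refine Finset.sum_congr rfl fun q _ => ?_
  rw [mul_comm]
  rfl

theorem RM_mul {M N : InfinitePlace K → Matrix (Fin r) (Fin r) ℂ} (hM : RM M) (hN : RM N) :
    RM fun w => M w * N w := by
  intro i l
  simp only [Matrix.mul_apply]
  exact RV_sum _ fun k _ => RV_mul (hM i k) (hN k l)

theorem fl_mul {M N : InfinitePlace K → Matrix (Fin r) (Fin r) ℂ} (hM : RM M) (hN : RM N) :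
    fl (fun w => M w * N w) = fl M * fl N := by
  ext p q
  have h1 : (fl M * fl N) p q = (fl M).mulVec (fun p' => fl N p' q) p := rfl
  rw [h1, fl_mulVec hM]
  show co (fun w => (M w * N w) p.1 q.1 * sg w (RingOfIntegers.basis K q.2)) p.2 = _
  refine congrFun (co_congr (K := K) fun w => ?_) p.2
  rw [Matrix.mul_apply, Finset.sum_mul]
  refine Finset.sum_congr rfl fun l _ => ?_
  have h2 : lam (fun k => fl N (l, k) q) w = N w l q.1 * sg w (RingOfIntegers.basis K q.2) :=
    lam_co (RV_fl hN l q.1 q.2) w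
  rw [h2, mul_assoc]

theorem RM_one : RM (fun _ : InfinitePlace K => (1 : Matrix (Fin r) (Fin r) ℂ)) := by
  intro i l w _
  show ((1 : Matrix (Fin r) (Fin r) ℂ) i l).im = 0
  rw [Matrix.one_apply]
  split_ifs
  · exact Complex.one_im
  · exact Complex.zero_im

theorem fl_one [DecidableEq (IK K)] :
    fl (fun _ : InfinitePlace K => (1 : Matrix (Fin r) (Fin r) ℂ)) = 1 := by
  ext p q
  show co (fun w => (1 : Matrix (Fin r) (Fin r) ℂ) p.1 q.1 *
    sg w (RingOfIntegers.basis K q.2)) p.2 = _
  by_cases h : p.1 = q.1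
  · have h1 : co (fun w => (1 : Matrix (Fin r) (Fin r) ℂ) p.1 q.1 *
        sg w (RingOfIntegers.basis K q.2)) = fun j => if j = q.2 then (1 : ℝ) else 0 := by
      refine co_eq (RV_fl RM_one p.1 q.1 q.2) fun w => ?_
      rw [lam_single, h, Matrix.one_apply_eq, one_mul]
    rw [h1]
    by_cases h2 : p.2 = q.2
    · rw [show p = q from Prod.ext h h2, Matrix.one_apply_eq]
      exact if_pos rfl
    · rw [Matrix.one_apply_ne (fun h3 => h2 (congrArg Prod.snd h3))]
      exact if_neg h2
  · have h1 : co (fun w => (1 : Matrix (Fin r) (Fin r) ℂ) p.1 q.1 *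
        sg w (RingOfIntegers.basis K q.2)) = fun _ => (0 : ℝ) := by
      refine co_eq (RV_fl RM_one p.1 q.1 q.2) fun w => ?_
      rw [lam_zero, Matrix.one_apply_ne h, zero_mul]
    rw [h1, Matrix.one_apply_ne (fun h3 => h (congrArg Prod.fst h3))]

theorem RM_sub {M N : InfinitePlace K → Matrix (Fin r) (Fin r) ℂ} (hM : RM M) (hN : RM N) :
    RM fun w => M w - N w := fun i l => RV_sub (hM i l) (hN i l)

theorem fl_sub {M N : InfinitePlace K → Matrix (Fin r) (Fin r) ℂ} (hM : RM M) (hN : RM N) :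
    fl (fun w => M w - N w) = fl M - fl N := by
  ext p q
  show co (fun w => (M w - N w) p.1 q.1 * sg w (RingOfIntegers.basis K q.2)) p.2 =
    co (fun w => M w p.1 q.1 * sg w (RingOfIntegers.basis K q.2)) p.2 -
    co (fun w => N w p.1 q.1 * sg w (RingOfIntegers.basis K q.2)) p.2
  rw [← co_sub (RV_fl hM p.1 q.1 q.2) (RV_fl hN p.1 q.1 q.2)]
  refine congrFun (co_congr (K := K) fun w => ?_) p.2
  rw [Matrix.sub_apply, sub_mul]

theorem fl_abs_le {M : InfinitePlace K → Matrix (Fin r) (Fin r) ℂ} (hM : RM M) {R : ℝ}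
    (h : ∀ w i l, ‖M w i l‖ ≤ R) (p q : Fin r × IK K) : |fl M p q| ≤ cK K * (R * cK K) := by
  refine co_abs_le (RV_fl hM p.1 q.1 q.2) (fun w => ?_) p.2
  rw [norm_mul]
  exact mul_le_mul (h w p.1 q.1) (norm_sg_basis _ w) (norm_nonneg _)
    ((norm_nonneg _).trans (h w p.1 q.1))

/-- a matrix with real entries is the image of a real matrix -/
theorem exists_real_matrix (M : Matrix (Fin r) (Fin r) ℂ) (h : ∀ i l, (M i l).im = 0) :
    ∃ N : Matrix (Fin r) (Fin r) ℝ, M = N.map Complex.ofRealHom := by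
  refine ⟨Matrix.of fun i l => (M i l).re, ?_⟩
  ext i l
  show M i l = ((M i l).re : ℂ)
  exact Complex.ext (by simp) (by simp [h i l])

theorem RM_inv {M : InfinitePlace K → Matrix (Fin r) (Fin r) ℂ} (hM : RM M) :
    RM fun w => (M w).det⁻¹ • (M w).adjugate := by
  intro i l w hw
  obtain ⟨N, hN⟩ := exists_real_matrix (M w) fun i l => hM i l w hw
  show ((M w).det⁻¹ • (M w).adjugate i l).im = 0
  have h1 : (M w).det = ((N.det : ℝ) : ℂ) := by
    rw [hN]
    exact (RingHom.map_det Complex.ofRealHom N).symm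
  have h2 : (M w).adjugate = N.adjugate.map Complex.ofRealHom := by
    rw [hN]
    exact (RingHom.map_adjugate Complex.ofRealHom N).symm
  rw [h1, h2]
  show ((((N.det : ℝ) : ℂ))⁻¹ * ((N.adjugate i l : ℝ) : ℂ)).im = 0
  rw [← Complex.ofReal_inv, ← Complex.ofReal_mul]
  exact Complex.ofReal_im _

theorem RV_det {M : InfinitePlace K → Matrix (Fin r) (Fin r) ℂ} (hM : RM M) :
    RV fun w => (M w).det := by
  intro w hw
  obtain ⟨N, hN⟩ := exists_real_matrix (M w) fun i l => hM i l w hw
  have h1 : (M w).det = ((N.det : ℝ) : ℂ) := by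
    rw [hN]
    exact (RingHom.map_det Complex.ofRealHom N).symm
  show ((M w).det).im = 0
  rw [h1]
  exact Complex.ofReal_im _

theorem adjugate_norm_le (L : Matrix (Fin r) (Fin r) ℂ) (C : ℝ) (hC : 1 ≤ C)
    (hL : ∀ i l, ‖L i l‖ ≤ C) (i l : Fin r) :
    ‖L.adjugate i l‖ ≤ (Nat.factorial r : ℝ) * C ^ r := by
  rw [Matrix.adjugate_apply]
  have h := Matrix.det_le (A := L.updateRow l (Pi.single i 1))
    (abv := (NormedField.toAbsoluteValue ℂ)) (x := C) (fun a b => by
      rw [Matrix.updateRow_apply]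
      split_ifs with hab
      · change ‖(Pi.single i (1 : ℂ) : Fin r → ℂ) b‖ ≤ C
        rcases eq_or_ne b i with rfl | hbi
        · rw [Pi.single_eq_same, norm_one]
          exact hC
        · rw [Pi.single_eq_of_ne hbi, norm_zero]
          linarith
      · exact hL a b)
  rw [Fintype.card_fin, nsmul_eq_mul] at h
  exact h

end flat

end NKRC
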