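import Pool.Agent.Lib.MP_e426f4_ag.NK.ClassThm
import Pool.Agent.Lib.MP_e426f4_ag.NK.CardCl

/-! Module NK-PosProp: a positive proportion of the systems is soluble. -/

set_option linter.unusedSectionVars false

namespace NKHP

open NumberField GenHP NFHP Finset Filter Topology
open CIHP (Sys NS Jac nu Bf)

section PP
variable {n r : ℕ} {e : Fin r → ℕ}

private def ppJ (hn : r ≤ n) (i : Fin r) : Fin (n + 1) := ⟨(i : ℕ) + 1, by have := i.2; omega⟩

private theorem ppJ_ne_zero (hn : r ≤ n) (i : Fin r) : ppJ hn i ≠ 0 := by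
  intro h
  have := congrArg Fin.val h
  simp [ppJ] at this

private theorem ppJ_inj (hn : r ≤ n) {i l : Fin r} (h : ppJ hn i = ppJ hn l) : i = l := by
  have := congrArg Fin.val h
  simp only [ppJ] at this
  exact Fin.ext (by omega)

/-- the exponent vector of `x_0 ^ (e - 1) * x_{i + 1}` -/
private def ppI (e : Fin r → ℕ) (hn : r ≤ n) (he : ∀ i, 1 ≤ e i) (i : Fin r) : Idx n (e i) :=
  ⟨fun j => (if j = 0 then e i - 1 else 0) + (if j = ppJ hn i then 1 else 0), by
    rw [Finset.sum_add_distrib, Finset.sum_ite_eq' univ (0 : Fin (n + 1)) fun _ => e i - 1,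
      Finset.sum_ite_eq' univ (ppJ hn i) fun _ => 1]
    have := he i
    simp only [mem_univ, if_true]
    omega⟩

/-- the system `c * x_0 ^ (e_i - 1) * x_{i + 1}` -/
private def ppA {R : Type*} [CommRing R] (e : Fin r → ℕ) (hn : r ≤ n) (he : ∀ i, 1 ≤ e i) (c : R) :
    Sys n e R := fun i t => if t = ppI e hn he i then c else 0

/-- the point `e_0` -/
private def ppX {R : Type*} [CommRing R] (n : ℕ) : Fin (n + 1) → R := fun i => if i = 0 then 1 else 0

private theorem pp_F {R : Type*} [CommRing R] (hn : r ≤ n) (he : ∀ i, 1 ≤ e i) (c : R) (i : Fin r) :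
    F (ppA e hn he c i) (ppX n) = 0 := by
  unfold F
  refine Finset.sum_eq_zero fun t _ => ?_
  unfold ppA
  split_ifs with h
  · have h0 : mon (ppX (R := R) n) (ppI e hn he i).1 = 0 := by
      unfold mon
      refine Finset.prod_eq_zero (Finset.mem_univ (ppJ hn i)) ?_
      simp only [ppX, ppI, if_neg (ppJ_ne_zero hn i), if_true]
      exact zero_pow (by norm_num)
    rw [h, h0, mul_zero]
  · rw [zero_mul]

private theorem pp_D {R : Type*} [CommRing R] (hn : r ≤ n) (he : ∀ i, 1 ≤ e i) (c : R)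
    (i l : Fin r) :
    D (ppA e hn he c i) (ppX n) (ppJ hn l) = if i = l then c else 0 := by
  unfold D
  rw [Finset.sum_eq_single (ppI e hn he i)]
  · have h1 : ppA e hn he c i (ppI e hn he i) = c := by simp [ppA]
    rw [h1]
    unfold dmon
    by_cases hil : i = l
    · subst hil
      have h2 : (∏ k : Fin (n + 1), (ppX (R := R) n k) ^ (if k = ppJ hn i then
          (ppI e hn he i).1 k - 1 else (ppI e hn he i).1 k)) = 1 := by
        refine Finset.prod_eq_one fun k _ => ?_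
        by_cases hk : k = 0
        · subst hk
          simp [ppX]
        · by_cases hk2 : k = ppJ hn i
          · subst hk2
            simp [ppX, ppI, ppJ_ne_zero hn i]
          · simp [ppX, ppI, hk, hk2]
      rw [h2]
      simp [ppI, ppJ_ne_zero hn i]
    · have h3 : ppJ hn l ≠ ppJ hn i := fun h => hil (ppJ_inj hn h).symm
      simp [ppI, ppJ_ne_zero hn l, h3, hil]
  · intro b _ hb
    simp [ppA, hb]
  · intro h
    exact absurd (Finset.mem_univ _) h

private theorem pp_det {R : Type*} [CommRing R] (hn : r ≤ n) (he : ∀ i, 1 ≤ e i) (c : R) :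
    (Jac (ppA e hn he c) (ppX n) (ppJ hn)).det = c ^ r := by
  have h : Jac (ppA e hn he c) (ppX n) (ppJ hn) = Matrix.diagonal fun _ : Fin r => c := by
    ext i l
    rw [Matrix.diagonal_apply]
    simp only [Jac, Matrix.of_apply]
    exact pp_D hn he c i l
  rw [h, Matrix.det_diagonal, Finset.prod_const, Finset.card_univ, Fintype.card_fin]

variable {K : Type} [Field K] [NumberField K]

private theorem pp_goodP (hn : r ≤ n) (he : ∀ i, 1 ≤ e i) (P : Ideal (𝓞 K))
    (hP : P.IsMaximal) (W : ℕ) (hW : (W : 𝓞 K) ∈ P) :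
    GoodPS P (1 * vW W P) (ppA e hn he (1 : 𝓞 K)) := by
  have h1 : (1 : 𝓞 K) ∉ P := fun h => hP.ne_top ((Ideal.eq_top_iff_one P).mpr h)
  refine ⟨ppX n, ⟨0, by simpa [ppX] using h1⟩, fun i => ?_, ppJ hn, ?_⟩
  · rw [pp_F]
    exact Ideal.zero_mem _
  · rw [pp_det, one_pow, one_mul]
    intro h
    have h2 : vW W P ≠ 0 := by
      unfold vW
      rw [multiplicity_ne_zero, Ideal.dvd_span_singleton]
      exact hW
    exact h1 (Ideal.pow_le_self h2 h)

/-- coordinates of the number `1` -/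
private noncomputable def ppOne (K : Type) [Field K] [NumberField K] (j : IK K) : ℝ :=
  (crd (1 : 𝓞 K) j : ℝ)

private theorem lam_ppOne (w : InfinitePlace K) : lam (ppOne K) w = 1 := by
  unfold ppOne
  rw [lam_crd, map_one]

private theorem ppOne_le (j : IK K) : |ppOne K j| ≤ cK K := by
  unfold ppOne
  have h := crd_le_of_norm_sg (a := (1 : 𝓞 K)) (R := 1) (fun w => by rw [map_one, norm_one]) j
  rwa [mul_one] at h

end PP

theorem pos_solubleS (K : Type) [Field K] [NumberField K] (n : ℕ) {r : ℕ} (e : Fin r → ℕ)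
    (hr : 1 ≤ r) (hn : r + 2 ≤ n) (he : ∀ i, 2 ≤ e i) (hs : ∑ i, e i ≤ n) :
    ∃ c : ℝ, 0 < c ∧ ∀ᶠ H : ℕ in atTop,
      c * (2 * H + 1) ^ (mK K * NS n e) ≤
        (Set.ncard {A : Sys n e (𝓞 K) | A ∈ BoxS K n e H ∧ SolubleS A} : ℝ) := by
  classical
  have hrn : r ≤ n := by omega
  have he1 : ∀ i, 1 ≤ e i := fun i => by have := he i; omega
  have hcK := cK_pos (K := K)
  have hcK1 := one_le_cK (K := K)
  obtain ⟨w1, hclass⟩ := class_thm K n e hr hn he hs (1 / 4) (by norm_num)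
  obtain ⟨W, hW⟩ : ∃ W : ℕ, W = max w1 2 := ⟨_, rfl⟩
  obtain ⟨bet, hbet⟩ : ∃ bet : ℝ, bet = (1 / 2 / cK K) ^ r := ⟨_, rfl⟩
  have hbet0 : 0 < bet := by rw [hbet]; positivity
  have hbet1 : bet ≤ 1 := by
    rw [hbet]
    refine pow_le_one₀ (by positivity) ?_
    rw [div_div, div_le_one (by positivity)]
    linarith
  obtain ⟨rho0, hrho0, hrho01, hclass⟩ := hclass W (by rw [hW]; exact le_max_left _ _)
    (by rw [hW]; exact le_max_right _ _) bet hbet0 hbet1
  obtain ⟨rho, hrho⟩ : ∃ rho : ℝ, rho = min rho0 (1 / 2) := ⟨_, rfl⟩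
  have hr0 : 0 < rho := by rw [hrho]; exact lt_min hrho0 (by norm_num)
  have hr1 : rho ≤ rho0 := by rw [hrho]; exact min_le_left _ _
  have hr2 : rho ≤ 1 / 2 := by rw [hrho]; exact min_le_right _ _
  have hprim : 0 < primorial W := primorial_pos W
  obtain ⟨A0, hA0⟩ : ∃ A0 : Sys n e (𝓞 K), A0 = ppA e hrn he1 (1 : 𝓞 K) := ⟨_, rfl⟩
  obtain ⟨Ainf, hAinf⟩ : ∃ Ainf : Sys n e (IK K → ℝ),
      Ainf = fun i t j => ppA e hrn he1 (1 / 2 : ℝ) i t / cK K * ppOne K j := ⟨_, rfl⟩
  have hsys : ∀ w : InfinitePlace K, sysC Ainf w = ppA e hrn he1 ((1 / 2 / cK K : ℝ) : ℂ) := by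
    intro w
    funext i t
    rw [hAinf]
    show lam (fun j => ppA e hrn he1 (1 / 2 : ℝ) i t / cK K * ppOne K j) w = _
    rw [lam_smul, lam_ppOne, mul_one]
    unfold ppA
    split_ifs <;> simp
  have hAle : ∀ i t j, |Ainf i t j| ≤ 1 / 2 := by
    intro i t j
    rw [hAinf]
    show |ppA e hrn he1 (1 / 2 : ℝ) i t / cK K * ppOne K j| ≤ 1 / 2
    have h1 : |ppA e hrn he1 (1 / 2 : ℝ) i t| ≤ 1 / 2 := by
      unfold ppA
      split_ifs
      · rw [abs_of_pos (by norm_num)]
      · rw [abs_zero]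
        norm_num
    rw [abs_mul, abs_div, abs_of_pos hcK]
    calc |ppA e hrn he1 (1 / 2 : ℝ) i t| / cK K * |ppOne K j|
        ≤ |ppA e hrn he1 (1 / 2 : ℝ) i t| / cK K * cK K :=
          mul_le_mul_of_nonneg_left (ppOne_le j) (by positivity)
      _ = |ppA e hrn he1 (1 / 2 : ℝ) i t| := by field_simp
      _ ≤ 1 / 2 := h1
  have hGI : ∀ w', GoodIS w' rho0 bet (sysC Ainf w') := by
    intro w'
    rw [hsys]
    refine ⟨ppX n, ⟨fun _ i => ?_, fun i => ?_, 0, by simp [ppX]⟩, fun i => ?_, ppJ hrn, ?_⟩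
    · unfold ppX
      split_ifs <;> simp
    · unfold ppX
      split_ifs <;> simp
    · rw [pp_F, norm_zero]
      exact hrho0.le
    · rw [pp_det, norm_pow, Complex.norm_real, Real.norm_eq_abs, abs_of_pos (by positivity), hbet]
  have hN := hclass rho hr0 hr1 1 le_rfl A0 (fun P hP hPW => by
    rw [hA0]
    exact pp_goodP hrn he1 P hP _ hPW) Ainf Ainf (fun i t j => (hAle i t j).trans (by norm_num))
    (fun i t j => by rw [sub_self, abs_zero]; exact hr0.le) hGI
  set p : Par K n e :=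
    { Ainf := Ainf
      AC := Ainf
      xi := 0
      h := 0
      u := 0
      kap := 1
      rho := rho
      th1 := 1
      vg := 1
      C0 := 1
      W := primorial W
      Q := primorial W ^ (2 * 1)
      P := ⊤
      A0 := A0
      x0 := 0 } with hp
  have hQ : 0 < p.Q := pow_pos hprim _
  have hcard := tendsto_natCast_atTop_atTop.eventually
    (card_Cl p hQ rho (1 / 2) hr0 (by norm_num))
  have hN' := tendsto_natCast_atTop_atTop.eventually hN
  have hQr : (p.Q : ℝ) = (primorial W : ℝ) ^ (2 * 1) := by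
    rw [hp]
    push_cast
    rfl
  refine ⟨(1 / 4) * (2 * rho / (3 * (primorial W : ℝ) ^ (2 * 1))) ^ (mK K * NS n e),
    by positivity, ?_⟩
  filter_upwards [hN', hcard, eventually_ge_atTop 1] with H h1 h2 h3
  obtain ⟨h4, _⟩ := h2
  unfold Par.XR at h4
  rw [hQr] at h4
  have hH1 : (1 : ℝ) ≤ H := by exact_mod_cast h3
  have hH0 : (0 : ℝ) < H := by linarith
  set X : ℝ := (2 * rho * H / (primorial W : ℝ) ^ (2 * 1)) ^ (mK K * NS n e) with hX
  have hX0 : 0 ≤ X := by positivity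
  set N : Set (Sys n e (𝓞 K)) := {A : Sys n e (𝓞 K) |
      (∀ i t j, |(crd (A i t) j : ℝ) - H * Ainf i t j| ≤ rho * H) ∧
      (∀ i t, (((primorial W) ^ (2 * 1) : ℕ) : 𝓞 K) ∣ A i t - A0 i t) ∧ ¬ SolubleS A} with hNdef
  set S : Set (Sys n e (𝓞 K)) :=
    {A : Sys n e (𝓞 K) | A ∈ BoxS K n e H ∧ SolubleS A} with hS'
  have hsub : p.Cl rho H ⊆ N ∪ S := by
    rintro A ⟨hA, hA'⟩
    by_cases hsol : SolubleS A
    · right
      refine ⟨?_, hsol⟩
      intro i t j
      have h6 : |(crd (A i t) j : ℝ) - H * Ainf i t j| ≤ rho * H := hA i t j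
      have h7 : |(H : ℝ) * Ainf i t j| ≤ H * (1 / 2) := by
        rw [abs_mul, abs_of_nonneg hH0.le]
        exact mul_le_mul_of_nonneg_left (hAle i t j) hH0.le
      have h9 : (crd (A i t) j : ℝ) = ((crd (A i t) j : ℝ) - H * Ainf i t j) + H * Ainf i t j := by
        ring
      rw [h9]
      refine (abs_add_le _ _).trans ?_
      nlinarith
    · left
      exact ⟨hA, hA', hsol⟩
  have hSfin : S.Finite := (BoxS_finite (H : ℝ)).subset fun A hA => hA.1
  have hNfin : N.Finite := by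
    refine (Cl_finite p rho H).subset ?_
    rintro A ⟨hA, hA', _⟩
    exact ⟨hA, hA'⟩
  have hle : ((p.Cl rho H).ncard : ℝ) ≤ (N.ncard : ℝ) + (S.ncard : ℝ) := by
    have h5 := Set.ncard_le_ncard hsub (hNfin.union hSfin)
    have h6 := Set.ncard_union_le N S
    exact_mod_cast h5.trans h6
  have h1' : (N.ncard : ℝ) ≤ 1 / 4 * X := h1
  have h4' : (1 - 1 / 2) * X ≤ ((p.Cl rho H).ncard : ℝ) := h4
  have hSX : 1 / 4 * X ≤ (S.ncard : ℝ) := by linarith
  refine le_trans ?_ hSX
  have h5 : (2 * (H : ℝ) + 1) ^ (mK K * NS n e) ≤ (3 * H) ^ (mK K * NS n e) :=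
    pow_le_pow_left₀ (by positivity) (by linarith) _
  have h6 : (2 * rho / (3 * (primorial W : ℝ) ^ (2 * 1))) ^ (mK K * NS n e) *
      (3 * (H : ℝ)) ^ (mK K * NS n e) = X := by
    rw [hX, ← mul_pow]
    congr 1
    field_simp
  calc (1 / 4) * (2 * rho / (3 * (primorial W : ℝ) ^ (2 * 1))) ^ (mK K * NS n e) *
        (2 * (H : ℝ) + 1) ^ (mK K * NS n e)
      ≤ (1 / 4) * (2 * rho / (3 * (primorial W : ℝ) ^ (2 * 1))) ^ (mK K * NS n e) *
        (3 * H) ^ (mK K * NS n e) :=
        mul_le_mul_of_nonneg_left h5 (by positivity)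
    _ = 1 / 4 * ((2 * rho / (3 * (primorial W : ℝ) ^ (2 * 1))) ^ (mK K * NS n e) *
        (3 * (H : ℝ)) ^ (mK K * NS n e)) := by
        ring
    _ = 1 / 4 * X := by rw [h6]

end NKHP
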