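import Pool.Agent.Lib.MP_e426f4_ag.NK.HouseAbs
import Pool.Agent.Lib.MP_e426f4_ag.NK.PosProp
import Pool.Agent.Lib.MP_e426f4_ag.NK.FewSing
import Pool.Agent.Lib.MP_e426f4_ag.NK.Els

/-! Module NK-House: the final count in the house ordering, one block. -/

set_option linter.unusedSectionVars false

namespace NKHP

open NumberField GenHP NFHP Finset Filter Topology
open CIHP (Sys NS Jac nu Bf)

variable {K : Type} [Field K] [NumberField K] {n r : ℕ} {e : Fin r → ℕ}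

/-- all absolute values of all coefficients are at most `H` -/
def HouseS (K : Type) [Field K] [NumberField K] (n : ℕ) {r : ℕ} (e : Fin r → ℕ) (H : ℝ) :
    Set (Sys n e (𝓞 K)) :=
  {A | ∀ i t w, ‖sg w (A i t)‖ ≤ H}

theorem house_sub1 (H : ℕ) : HouseS K n e H ⊆ BoxS K n e (⌈cK K * (H : ℝ)⌉₊ : ℕ) := by
  intro A hA i t j
  exact (crd_le_of_norm_sg (hA i t) j).trans (Nat.le_ceil _)

theorem house_sub2 (H : ℕ) : BoxS K n e (⌊(H : ℝ) / cK K⌋₊ : ℕ) ⊆ HouseS K n e H := by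
  intro A hA i t w
  have hc := cK_pos (K := K)
  have h1 : (⌊(H : ℝ) / cK K⌋₊ : ℝ) ≤ (H : ℝ) / cK K := Nat.floor_le (by positivity)
  calc ‖sg w (A i t)‖ ≤ cK K * (⌊(H : ℝ) / cK K⌋₊ : ℝ) := norm_sg_le_of_crd (hA i t) w
    _ ≤ cK K * ((H : ℝ) / cK K) := mul_le_mul_of_nonneg_left h1 hc.le
    _ = H := by field_simp

theorem house_finiteS (H : ℝ) : (HouseS K n e H).Finite := by
  refine (BoxS_finite (cK K * H)).subset ?_
  intro A hA i t j
  exact crd_le_of_norm_sg (hA i t) j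

private theorem pos_smooth (hr : 1 ≤ r) (hn : r + 2 ≤ n) (he : ∀ i, 2 ≤ e i)
    (hs : ∑ i, e i ≤ n) : ∃ c : ℝ, 0 < c ∧ ∀ᶠ H : ℕ in atTop,
      c * (2 * H + 1) ^ (mK K * NS n e) ≤
        (Set.ncard {A : Sys n e (𝓞 K) | A ∈ BoxS K n e H ∧ (SmoothS A ∧ SolubleS A)} : ℝ) := by
  obtain ⟨c, hc, hpos⟩ := pos_solubleS K n e hr hn he hs
  refine ⟨c / 2, by positivity, ?_⟩
  have he1 : ∀ i, 1 ≤ e i := fun i => by have := he i; omega
  filter_upwards [hpos, few_singularS K n e hr he1 (by omega) (c / 2) (by positivity)] with H h1 h2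
  have h3 : {A : Sys n e (𝓞 K) | A ∈ BoxS K n e H ∧ SolubleS A} ⊆
      {A | A ∈ BoxS K n e H ∧ (SmoothS A ∧ SolubleS A)} ∪ {A | A ∈ BoxS K n e H ∧ ¬ SmoothS A} := by
    rintro A ⟨hA, hA'⟩
    by_cases h : SmoothS A
    · exact Or.inl ⟨hA, h, hA'⟩
    · exact Or.inr ⟨hA, h⟩
  have h4 := (Set.ncard_le_ncard h3 (((BoxS_finite (H : ℝ)).subset fun A hA => hA.1).union
    ((BoxS_finite (H : ℝ)).subset fun A hA => hA.1))).trans (Set.ncard_union_le _ _)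
  have h5 : (Set.ncard {A : Sys n e (𝓞 K) | A ∈ BoxS K n e H ∧ SolubleS A} : ℝ) ≤
      (Set.ncard {A : Sys n e (𝓞 K) | A ∈ BoxS K n e H ∧ (SmoothS A ∧ SolubleS A)} : ℝ) +
      (Set.ncard {A : Sys n e (𝓞 K) | A ∈ BoxS K n e H ∧ ¬ SmoothS A} : ℝ) := by
    exact_mod_cast h4
  linarith

/-- NK-House: `hex` is `exceptional_smallS` of NK/Global -/
theorem house_finalS (hr : 1 ≤ r) (hn : r + 2 ≤ n) (he : ∀ i, 2 ≤ e i) (hs : ∑ i, e i ≤ n)
    (hex : ∀ eps : ℝ, 0 < eps → ∀ᶠ H : ℕ in atTop,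
      (Set.ncard {A : Sys n e (𝓞 K) | A ∈ BoxS K n e H ∧ ELSeS A ∧ ¬ SolubleS A} : ℝ) ≤
        eps * (2 * H + 1) ^ (mK K * NS n e)) :
    (∃ c : ℝ, 0 < c ∧ ∀ᶠ H : ℕ in atTop, c * ((HouseS K n e H).ncard : ℝ) ≤
      (Set.ncard {A : Sys n e (𝓞 K) | A ∈ HouseS K n e H ∧ SmoothS A ∧ SolubleS A} : ℝ)) ∧
    (∀ eps : ℝ, 0 < eps → ∀ᶠ H : ℕ in atTop,
      (Set.ncard {A : Sys n e (𝓞 K) | A ∈ HouseS K n e H ∧ ELSS A ∧ ¬ SolubleS A} : ℝ) ≤
        eps * ((HouseS K n e H).ncard : ℝ)) ∧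
    ∀ eps : ℝ, 0 < eps → ∀ᶠ H : ℕ in atTop,
      (Set.ncard {A : Sys n e (𝓞 K) | A ∈ HouseS K n e H ∧ ¬ SmoothS A} : ℝ) ≤
        eps * ((HouseS K n e H).ncard : ℝ) := by
  have he1 : ∀ i, 1 ≤ e i := fun i => by have := he i; omega
  have hc1 : 1 ≤ cK K := one_le_cK
  have hfin : ∀ R : ℕ, (BoxS K n e R).Finite := fun R => BoxS_finite (R : ℝ)
  refine ⟨house_pos (Bx := fun R : ℕ => BoxS K n e R) (Hs := fun H : ℕ => HouseS K n e H) hc1 hfin
      (fun R => card_BoxS R) house_sub1 house_sub2 {A | SmoothS A ∧ SolubleS A}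
      (pos_smooth hr hn he hs), fun eps heps => ?_, fun eps heps => ?_⟩
  · refine house_small (Bx := fun R : ℕ => BoxS K n e R) (Hs := fun H : ℕ => HouseS K n e H) hc1
      hfin (fun R => card_BoxS R) house_sub1 house_sub2 {A | ELSS A ∧ ¬ SolubleS A} ?_ eps heps
    intro eps' heps'
    filter_upwards [hex eps' heps'] with H hH
    refine le_trans ?_ hH
    have h1 : {A : Sys n e (𝓞 K) | A ∈ BoxS K n e H ∧ A ∈ {A | ELSS A ∧ ¬ SolubleS A}} ⊆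
        {A | A ∈ BoxS K n e H ∧ ELSeS A ∧ ¬ SolubleS A} := by
      rintro A ⟨hA, h2, h3⟩
      exact ⟨hA, ELSeS_of_ELSS A h2, h3⟩
    exact_mod_cast Set.ncard_le_ncard h1 ((hfin H).subset fun A hA => hA.1)
  · exact house_small (Bx := fun R : ℕ => BoxS K n e R) (Hs := fun H : ℕ => HouseS K n e H) hc1
      hfin (fun R => card_BoxS R) house_sub1 house_sub2 {A | ¬ SmoothS A}
      (fun eps' heps' => few_singularS K n e hr he1 (by omega) eps' heps') eps heps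

end NKHP
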