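import Mathlib

/-! Module NK-HouseAbs: comparison of the count in boxes and in the house ordering. -/

namespace NKHP

open Finset Filter Topology

section
variable {V : Type*} {Bx Hs : ℕ → Set V} {M : ℕ} {c : ℝ}

private theorem ha_ratio (hc : 1 ≤ c) (M H : ℕ) (hH : 1 ≤ H) :
    (2 * (⌈c * (H : ℝ)⌉₊ : ℝ) + 1) ^ M ≤
      ((2 * c + 3) * c) ^ M * (2 * (⌊(H : ℝ) / c⌋₊ : ℝ) + 1) ^ M := by
  have hc0 : 0 < c := by linarith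
  rw [← mul_pow]
  refine pow_le_pow_left₀ (by positivity) ?_ _
  have hH1 : (1 : ℝ) ≤ H := by exact_mod_cast hH
  have h1 : (⌈c * (H : ℝ)⌉₊ : ℝ) < c * H + 1 := Nat.ceil_lt_add_one (by positivity)
  have h2 : (H : ℝ) / c < (⌊(H : ℝ) / c⌋₊ : ℝ) + 1 := Nat.lt_floor_add_one _
  have h3 : (0 : ℝ) ≤ (⌊(H : ℝ) / c⌋₊ : ℝ) := Nat.cast_nonneg _
  have h4 : (H : ℝ) / c ≤ 2 * (⌊(H : ℝ) / c⌋₊ : ℝ) + 1 := by linarith
  calc 2 * (⌈c * (H : ℝ)⌉₊ : ℝ) + 1 ≤ (2 * c + 3) * H := by nlinarith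
    _ = (2 * c + 3) * c * ((H : ℝ) / c) := by field_simp
    _ ≤ _ := mul_le_mul_of_nonneg_left h4 (by positivity)

/-- a positive proportion of the boxes is a positive proportion of the sets `Hs` -/
theorem house_pos (hc : 1 ≤ c) (hfin : ∀ R, (Bx R).Finite)
    (hcard : ∀ R : ℕ, (Bx R).ncard = (2 * R + 1) ^ M) (hsub1 : ∀ H : ℕ, Hs H ⊆ Bx ⌈c * (H : ℝ)⌉₊)
    (hsub2 : ∀ H : ℕ, Bx ⌊(H : ℝ) / c⌋₊ ⊆ Hs H) (S : Set V)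
    (hS : ∃ c' : ℝ, 0 < c' ∧ ∀ᶠ H : ℕ in atTop,
      c' * (2 * H + 1) ^ M ≤ (Set.ncard {A | A ∈ Bx H ∧ A ∈ S} : ℝ)) :
    ∃ c' : ℝ, 0 < c' ∧ ∀ᶠ H : ℕ in atTop, c' * ((Hs H).ncard : ℝ) ≤
      (Set.ncard {A | A ∈ Hs H ∧ A ∈ S} : ℝ) := by
  have hc0 : 0 < c := by linarith
  have hlow : Tendsto (fun H : ℕ => ⌊(H : ℝ) / c⌋₊) atTop atTop :=
    tendsto_nat_floor_atTop.comp (tendsto_natCast_atTop_atTop.atTop_div_const hc0)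
  obtain ⟨c', hc', hpp⟩ := hS
  refine ⟨c' / ((2 * c + 3) * c) ^ M, by positivity, ?_⟩
  filter_upwards [hlow.eventually hpp, eventually_ge_atTop 1] with H h1 hH
  have h2 : ((Hs H).ncard : ℝ) ≤ (2 * (⌈c * (H : ℝ)⌉₊ : ℝ) + 1) ^ M := by
    have h5 := Set.ncard_le_ncard (hsub1 H) (hfin _)
    rw [hcard] at h5
    exact_mod_cast h5
  have h3 : (Set.ncard {A | A ∈ Bx ⌊(H : ℝ) / c⌋₊ ∧ A ∈ S} : ℝ) ≤
      (Set.ncard {A | A ∈ Hs H ∧ A ∈ S} : ℝ) := by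
    have h4 : {A | A ∈ Bx ⌊(H : ℝ) / c⌋₊ ∧ A ∈ S} ⊆ {A | A ∈ Hs H ∧ A ∈ S} :=
      fun A hA => ⟨hsub2 H hA.1, hA.2⟩
    exact_mod_cast Set.ncard_le_ncard h4 ((((hfin _).subset (hsub1 H))).subset fun A hA => hA.1)
  calc c' / ((2 * c + 3) * c) ^ M * ((Hs H).ncard : ℝ) ≤
      c' / ((2 * c + 3) * c) ^ M *
        (((2 * c + 3) * c) ^ M * (2 * (⌊(H : ℝ) / c⌋₊ : ℝ) + 1) ^ M) :=
        mul_le_mul_of_nonneg_left (h2.trans (ha_ratio hc M H hH)) (by positivity)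
    _ = c' * (2 * (⌊(H : ℝ) / c⌋₊ : ℝ) + 1) ^ M := by
        field_simp
    _ ≤ _ := h1
    _ ≤ _ := h3

/-- a set of density `0` in the boxes has density `0` in the sets `Hs` -/
theorem house_small (hc : 1 ≤ c) (hfin : ∀ R, (Bx R).Finite)
    (hcard : ∀ R : ℕ, (Bx R).ncard = (2 * R + 1) ^ M) (hsub1 : ∀ H : ℕ, Hs H ⊆ Bx ⌈c * (H : ℝ)⌉₊)
    (hsub2 : ∀ H : ℕ, Bx ⌊(H : ℝ) / c⌋₊ ⊆ Hs H) (S : Set V)
    (hS : ∀ eps : ℝ, 0 < eps → ∀ᶠ H : ℕ in atTop,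
      (Set.ncard {A | A ∈ Bx H ∧ A ∈ S} : ℝ) ≤ eps * (2 * H + 1) ^ M) (eps : ℝ) (heps : 0 < eps) :
    ∀ᶠ H : ℕ in atTop, (Set.ncard {A | A ∈ Hs H ∧ A ∈ S} : ℝ) ≤ eps * ((Hs H).ncard : ℝ) := by
  have hc0 : 0 < c := by linarith
  have hup : Tendsto (fun H : ℕ => ⌈c * (H : ℝ)⌉₊) atTop atTop :=
    tendsto_nat_ceil_atTop.comp (tendsto_natCast_atTop_atTop.const_mul_atTop hc0)
  have h0 := hS (eps / ((2 * c + 3) * c) ^ M) (by positivity)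
  filter_upwards [hup.eventually h0, eventually_ge_atTop 1] with H h1 hH
  have h2 : (Set.ncard {A | A ∈ Hs H ∧ A ∈ S} : ℝ) ≤
      (Set.ncard {A | A ∈ Bx ⌈c * (H : ℝ)⌉₊ ∧ A ∈ S} : ℝ) := by
    have h4 : {A | A ∈ Hs H ∧ A ∈ S} ⊆ {A | A ∈ Bx ⌈c * (H : ℝ)⌉₊ ∧ A ∈ S} :=
      fun A hA => ⟨hsub1 H hA.1, hA.2⟩
    exact_mod_cast Set.ncard_le_ncard h4 ((hfin _).subset fun A hA => hA.1)
  have h3 : (2 * (⌊(H : ℝ) / c⌋₊ : ℝ) + 1) ^ M ≤ ((Hs H).ncard : ℝ) := by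
    have h5 := Set.ncard_le_ncard (hsub2 H) ((hfin _).subset (hsub1 H))
    rw [hcard] at h5
    exact_mod_cast h5
  calc _ ≤ _ := h2
    _ ≤ eps / ((2 * c + 3) * c) ^ M * (2 * (⌈c * (H : ℝ)⌉₊ : ℝ) + 1) ^ M := h1
    _ ≤ eps / ((2 * c + 3) * c) ^ M *
        (((2 * c + 3) * c) ^ M * (2 * (⌊(H : ℝ) / c⌋₊ : ℝ) + 1) ^ M) :=
        mul_le_mul_of_nonneg_left (ha_ratio hc M H hH) (by positivity)
    _ = eps * (2 * (⌊(H : ℝ) / c⌋₊ : ℝ) + 1) ^ M := by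
        field_simp
    _ ≤ eps * ((Hs H).ncard : ℝ) := mul_le_mul_of_nonneg_left h3 heps.le

end

/-- from a positive proportion and a negligible exceptional set to the ratio -/
theorem ratio_tendsto {a S T N : ℕ → ℝ} (hpos : ∃ c : ℝ, 0 < c ∧ ∀ᶠ H : ℕ in atTop, c * a H ≤ S H)
    (ha : ∀ᶠ H : ℕ in atTop, 0 < a H) (h1 : ∀ H, T H ≤ S H) (h2 : ∀ H, S H ≤ T H + N H)
    (h3 : ∀ eps : ℝ, 0 < eps → ∀ᶠ H : ℕ in atTop, N H ≤ eps * a H) :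
    Tendsto (fun H => T H / S H) atTop (𝓝 1) := by
  obtain ⟨c, hc, hpos⟩ := hpos
  rw [Metric.tendsto_nhds]
  intro e he
  filter_upwards [hpos, ha, h3 (c * (e / 2)) (by positivity)] with H g1 g2 g3
  have hS0 : 0 < S H := lt_of_lt_of_le (by positivity) g1
  have h4 : S H ≤ T H + c * (e / 2) * a H := by
    have := h2 H
    linarith
  rw [Real.dist_eq, abs_sub_comm, abs_of_nonneg]
  · have h5 : S H - T H ≤ e / 2 * S H := by nlinarith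
    have h6 : 1 - T H / S H = (S H - T H) / S H := by field_simp
    rw [h6, div_lt_iff₀ hS0]
    nlinarith
  · rw [sub_nonneg, div_le_one hS0]
    exact h1 H

end NKHP
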