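import Pool.Agent.Lib.MP_e426f4_ag.NK.Basic
import Pool.Agent.Lib.MP_e426f4_ag.N.OmegaLoc

/-!
NK-OmegaLoc: upper bound for the local count of systems through a point. Template: CI/OmegaLoc.lean: the set is a product over i (CIHP.ncard_pi after rewriting it as {A | forall i, A i in S_i},
S_i finite by sys_finite), each factor is NFHP.omega_loc_le K n (e i); C = product of the constants (max with 1), Finset.prod_le_prod.
-/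

namespace NKHP

open NumberField GenHP NFHP Finset Filter Topology
open CIHP (Sys NS Jac nu Bf)

theorem omega_loc_sys (K : Type) [Field K] [NumberField K] (n : ℕ) {r : ℕ} (e : Fin r → ℕ)
    (he : ∀ i, 1 ≤ e i) :
    ∃ C : ℝ, 0 < C ∧ ∀ (B : ℕ), 1 ≤ B → ∀ (W Q s : ℕ), 0 < W → Q ∣ W ^ s →
    ∀ (A0 : Sys n e (𝓞 K)) (x : Fin (n + 1) → 𝓞 K),
    (∃ c : Fin (n + 1) → 𝓞 K, IsCoprime (∑ i, c i * x i) (W : 𝓞 K)) →
    ∀ (u : Fin (n + 1) → ℤ), u 0 = 1 → (∀ i, |u i| ≤ hb n (mK K)) → ∀ k1 : ℝ, 0 < k1 →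
    (∀ w, k1 * B ≤ ‖sg w (∑ i, (u i : 𝓞 K) * x i)‖) →
    ∀ (c : Sys n e (IK K → ℝ)) (s0 : ℝ) (eta : Fin r → ℝ), 0 ≤ s0 → (∀ i, 0 ≤ eta i) →
    (Set.ncard {A : Sys n e (𝓞 K) | (∀ i t j, |(crd (A i t) j : ℝ) - c i t j| ≤ s0) ∧
      (∀ i t, (Q : 𝓞 K) ∣ A i t - A0 i t) ∧
      ∀ i, (W : 𝓞 K) ^ s ∣ F (A i) x ∧ ∀ w, ‖sg w (F (A i) x)‖ ≤ eta i} : ℝ) ≤
      C * (∏ i, (((W ^ s / Q : ℕ) : ℝ) ^ (NN n (e i) - 1) *
        (s0 / (W : ℝ) ^ s + 1) ^ (NN n (e i) - 1) *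
        (eta i / ((k1 * B) ^ e i * (W : ℝ) ^ s) + 1))) ^ mK K := by
  have hloc := fun i : Fin r => NFHP.omega_loc_le K n (e i) (he i)
  choose Ci hCi hle using hloc
  refine ⟨∏ i, Ci i, Finset.prod_pos fun i _ => hCi i, ?_⟩
  intro B hB W Q s hW hQ A0 x hx u hu0 hu k1 hk1 hux c s0 eta hs0 heta
  have hset : {A : Sys n e (𝓞 K) | (∀ i t j, |(crd (A i t) j : ℝ) - c i t j| ≤ s0) ∧
      (∀ i t, (Q : 𝓞 K) ∣ A i t - A0 i t) ∧
      ∀ i, (W : 𝓞 K) ^ s ∣ F (A i) x ∧ ∀ w, ‖sg w (F (A i) x)‖ ≤ eta i} =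
      {A : Sys n e (𝓞 K) | ∀ i, A i ∈ {a : Idx n (e i) → 𝓞 K |
        (∀ t j, |(crd (a t) j : ℝ) - c i t j| ≤ s0) ∧ (∀ t, (Q : 𝓞 K) ∣ a t - A0 i t) ∧
        (W : 𝓞 K) ^ s ∣ F a x ∧ ∀ w, ‖sg w (F a x)‖ ≤ eta i}} := by
    ext A
    constructor
    · rintro ⟨h1, h2, h3⟩ i
      exact ⟨h1 i, h2 i, (h3 i).1, (h3 i).2⟩
    · intro h
      exact ⟨fun i => (h i).1, fun i => (h i).2.1, fun i => ⟨(h i).2.2.1, (h i).2.2.2⟩⟩
  have hfin : ∀ i : Fin r, {a : Idx n (e i) → 𝓞 K |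
        (∀ t j, |(crd (a t) j : ℝ) - c i t j| ≤ s0) ∧ (∀ t, (Q : 𝓞 K) ∣ a t - A0 i t) ∧
        (W : 𝓞 K) ^ s ∣ F a x ∧ ∀ w, ‖sg w (F a x)‖ ≤ eta i}.Finite := by
    intro i
    refine (BoxK_finite (K := K) (n := n) (d := e i) (∑ t, ∑ j, |c i t j| + s0)).subset ?_
    intro a ha t j
    have h1 := ha.1 t j
    have h2 : |c i t j| ≤ ∑ t, ∑ j, |c i t j| := by
      refine le_trans ?_ (Finset.single_le_sum (f := fun t => ∑ j, |c i t j|)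
        (fun _ _ => Finset.sum_nonneg fun _ _ => abs_nonneg _) (Finset.mem_univ t))
      exact Finset.single_le_sum (f := fun j => |c i t j|) (fun _ _ => abs_nonneg _)
        (Finset.mem_univ j)
    calc |(crd (a t) j : ℝ)| = |c i t j + ((crd (a t) j : ℝ) - c i t j)| := by ring_nf
      _ ≤ |c i t j| + |(crd (a t) j : ℝ) - c i t j| := abs_add_le _ _
      _ ≤ ∑ t, ∑ j, |c i t j| + s0 := add_le_add h2 h1
  rw [hset, CIHP.ncard_pi _ hfin]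
  push_cast
  calc _ ≤ ∏ i, (Ci i * (((W ^ s / Q : ℕ) : ℝ) ^ (NN n (e i) - 1) *
        (s0 / (W : ℝ) ^ s + 1) ^ (NN n (e i) - 1) *
        (eta i / ((k1 * B) ^ e i * (W : ℝ) ^ s) + 1)) ^ mK K) := by
        refine Finset.prod_le_prod (fun _ _ => Nat.cast_nonneg _) fun i _ => ?_
        exact hle i B hB W Q s hW hQ (A0 i) x hx u hu0 hu k1 hk1 hux (c i) s0 (eta i) hs0 (heta i)
    _ = _ := by
        rw [Finset.prod_mul_distrib, Finset.prod_pow]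

end NKHP
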