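import Pool.Agent.Lib.MP_e426f4_ag.NK.Points
import Pool.Agent.Lib.MP_e426f4_ag.NK.Heights
import Pool.Agent.Lib.MP_e426f4_ag.NK.OmegaLoc

/-!
NK-LocPairs: local pairs over few points are few. Templates: N/LocPairs.lean, CI/LocPairs.lean. omega_loc_sys for each x in S with u = p.u, k1 = k0/2 (u_large), x_unimod, c = H AC, s0 = rho H, eta_i = cK th H B^(e i) (CIn_norm):
the product over i of ((W^s/Q)(rho H/W^s + 1))^(NN-1) (cK th H B^e/((k0 B/2)^e W^s) + 1) is <= C (rho H/Q)^(NN-1) (C th H/W^s) for H large (rho H/W^s >= 1, th H/W^s >= 1); NS = sum NN; total XR rho H * C (th/W^s)^(r m); sum over x in S (S finite as a subset of XX).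
-/

namespace NKHP

open NumberField GenHP NFHP Finset Filter Topology
open CIHP (Sys NS Jac nu Bf)

variable {K : Type} [Field K] [NumberField K] {n r : ℕ} {e : Fin r → ℕ}

/-- one factor of the local count -/
private theorem fac_le (M rho th Q : ℝ) (hM : 0 < M) (hrho : 0 < rho) (hth : 0 < th) (hQ : 0 < Q)
    (c k : ℝ) (hc : 0 ≤ c) (hk : 0 < k) (E N : ℕ) (hN : 0 < N) (H B : ℝ) (hH : 0 < H) (hB : 0 < B)
    (hH1 : M / rho ≤ H) (hH2 : M / th ≤ H) :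
    (M / Q) ^ (N - 1) * (rho * H / M + 1) ^ (N - 1) *
      (c * (th * H * B ^ E) / ((k * B) ^ E * M) + 1) ≤
      ((c / k ^ E + 1) * Q / (2 * rho)) * (th / M) * (2 * rho * H / Q) ^ N := by
  obtain ⟨N1, rfl⟩ : ∃ N1, N = N1 + 1 := ⟨N - 1, by omega⟩
  rw [div_le_iff₀ (by positivity)] at hH1 hH2
  have e1 : rho * H / M + 1 ≤ 2 * rho * H / M := by
    have : 1 ≤ rho * H / M := by
      rw [le_div_iff₀ hM]
      linarith
    have h3 : 2 * rho * H / M = rho * H / M + rho * H / M := by ring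
    rw [h3]
    linarith
  have e2 : c * (th * H * B ^ E) / ((k * B) ^ E * M) + 1 ≤ (c / k ^ E + 1) * (th * H / M) := by
    have h3 : 1 ≤ th * H / M := by
      rw [le_div_iff₀ hM]
      linarith
    have h4 : c * (th * H * B ^ E) / ((k * B) ^ E * M) = c / k ^ E * (th * H / M) := by
      rw [mul_pow]
      field_simp
    rw [h4, add_mul, one_mul]
    linarith
  rw [Nat.add_sub_cancel]
  calc _ ≤ (M / Q) ^ N1 * (2 * rho * H / M) ^ N1 * ((c / k ^ E + 1) * (th * H / M)) := by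
        gcongr
    _ = _ := by
        rw [pow_succ, ← mul_pow]
        have h6 : M / Q * (2 * rho * H / M) = 2 * rho * H / Q := by
          field_simp
        rw [h6]
        field_simp

/-- the local count over one point -/
private theorem loc_one_le (p : Par K n e) {eps k0 : ℝ} {w : ℕ} (hp : p.Valid eps k0 w) :
    ∃ C : ℝ, 0 < C ∧ ∀ (th : ℝ), 0 < th → ∀ s : ℕ, p.Q ∣ p.W ^ s →
    ∀ᶠ H : ℝ in atTop, ∀ x ∈ p.XX (p.B H),
      (Set.ncard {A : Sys n e (𝓞 K) | A ∈ p.Cl p.rho H ∧ ∀ i, ((p.W : 𝓞 K) ^ s) ∣ F (A i) x ∧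
          CIn (th * H * (p.B H : ℝ) ^ e i) (F (A i) x)} : ℝ) ≤
        (C * ((th / (p.W : ℝ) ^ s) ^ r) ^ mK K) * p.XR p.rho H := by
  classical
  obtain ⟨C, hC0, hC⟩ := omega_loc_sys K n e (fun i => le_trans (by norm_num) (hp.e_ge i))
  have hrho : 0 < p.rho := hp.rho_pos
  have hQ : (0 : ℝ) < p.Q := by exact_mod_cast hp.Q_pos
  have hcK : 0 ≤ cK K := (cK_pos (K := K)).le
  have hk0 := hp.k0_pos
  have hcpos : ∀ i : Fin r, 0 < (cK K / (k0 / 2) ^ e i + 1) * p.Q / (2 * p.rho) := fun i => by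
    positivity
  refine ⟨C * (∏ i : Fin r, (cK K / (k0 / 2) ^ e i + 1) * p.Q / (2 * p.rho)) ^ mK K,
    mul_pos hC0 (pow_pos (Finset.prod_pos fun i _ => hcpos i) _), ?_⟩
  intro th hth s hs
  obtain ⟨M, hM⟩ : ∃ M : ℝ, M = (p.W : ℝ) ^ s := ⟨_, rfl⟩
  have hW : 0 < p.W := hp.W_pos
  have hWR : (0 : ℝ) < p.W := by exact_mod_cast hW
  have hMpos : 0 < M := by rw [hM]; positivity
  have hB : ∀ᶠ H : ℝ in atTop, 1 ≤ p.B H :=
    (CIHP.Bf_atTop (n := n) e hp.r_pos hp.sum_le p.C0 hp.C0_ge).eventually_ge_atTop 1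
  filter_upwards [hB, eventually_ge_atTop (max (M / p.rho) (M / th)),
    eventually_gt_atTop (0 : ℝ)] with H hB1 hH hHpos
  intro x hx
  have hBpos : (0 : ℝ) < p.B H := by exact_mod_cast hB1
  have hbig := u_large p hp (p.B H) x hx
  have h1 := hC (p.B H) hB1 p.W p.Q s hW hs p.A0 x (x_unimod p hp _ x hx) p.u hp.u0 hp.u_le
    (k0 / 2) (by positivity) hbig (fun i t j => H * p.AC i t j) (p.rho * H)
    (fun i => cK K * (th * H * (p.B H : ℝ) ^ e i)) (by positivity) (fun i => by positivity)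
  have hsub : {A : Sys n e (𝓞 K) | A ∈ p.Cl p.rho H ∧ ∀ i, ((p.W : 𝓞 K) ^ s) ∣ F (A i) x ∧
          CIn (th * H * (p.B H : ℝ) ^ e i) (F (A i) x)} ⊆
      {A : Sys n e (𝓞 K) | (∀ i t j, |(crd (A i t) j : ℝ) - H * p.AC i t j| ≤ p.rho * H) ∧
      (∀ i t, (p.Q : 𝓞 K) ∣ A i t - p.A0 i t) ∧
      ∀ i, (p.W : 𝓞 K) ^ s ∣ F (A i) x ∧
        ∀ w, ‖sg w (F (A i) x)‖ ≤ cK K * (th * H * (p.B H : ℝ) ^ e i)} := by
    rintro A ⟨hA1, hA2⟩
    exact ⟨hA1.1, hA1.2, fun i => ⟨(hA2 i).1, fun w' => CIn_norm (hA2 i).2 w'⟩⟩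
  have hfin : {A : Sys n e (𝓞 K) | (∀ i t j, |(crd (A i t) j : ℝ) - H * p.AC i t j| ≤ p.rho * H) ∧
      (∀ i t, (p.Q : 𝓞 K) ∣ A i t - p.A0 i t) ∧
      ∀ i, (p.W : 𝓞 K) ^ s ∣ F (A i) x ∧
        ∀ w, ‖sg w (F (A i) x)‖ ≤ cK K * (th * H * (p.B H : ℝ) ^ e i)}.Finite :=
    (Cl_finite p p.rho H).subset fun A hA => ⟨hA.1, hA.2.1⟩
  have h2 := Nat.cast_le (α := ℝ).mpr (Set.ncard_le_ncard hsub hfin)
  refine (h2.trans h1).trans ?_
  have hdiv : (((p.W ^ s / p.Q : ℕ) : ℝ)) = M / p.Q := by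
    rw [Nat.cast_div hs hQ.ne', hM]
    push_cast
    rfl
  rw [hdiv, ← hM]
  have hprod : (∏ i, ((M / p.Q) ^ (NN n (e i) - 1) * (p.rho * H / M + 1) ^ (NN n (e i) - 1) *
      (cK K * (th * H * (p.B H : ℝ) ^ e i) / ((k0 / 2 * (p.B H : ℝ)) ^ e i * M) + 1))) ≤
      (∏ i : Fin r, (cK K / (k0 / 2) ^ e i + 1) * p.Q / (2 * p.rho)) * (th / M) ^ r *
        (2 * p.rho * H / p.Q) ^ NS n e := by
    have h3 : (∏ i : Fin r, (cK K / (k0 / 2) ^ e i + 1) * p.Q / (2 * p.rho)) * (th / M) ^ r *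
        (2 * p.rho * H / p.Q) ^ NS n e =
        ∏ i : Fin r, ((cK K / (k0 / 2) ^ e i + 1) * p.Q / (2 * p.rho)) * (th / M) *
          (2 * p.rho * H / p.Q) ^ NN n (e i) := by
      rw [Finset.prod_mul_distrib, Finset.prod_mul_distrib, Finset.prod_const, Finset.card_univ,
        Fintype.card_fin, Finset.prod_pow_eq_pow_sum]
      rfl
    rw [h3]
    refine Finset.prod_le_prod (fun i _ => by positivity) fun i _ => ?_
    exact fac_le M p.rho th p.Q hMpos hrho hth hQ (cK K) (k0 / 2) hcK (by positivity) (e i)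
      (NN n (e i)) (NN_pos n (e i)) H (p.B H) hHpos hBpos ((le_max_left _ _).trans hH)
      ((le_max_right _ _).trans hH)
  have hpr0 : 0 ≤ (∏ i, ((M / p.Q) ^ (NN n (e i) - 1) * (p.rho * H / M + 1) ^ (NN n (e i) - 1) *
      (cK K * (th * H * (p.B H : ℝ) ^ e i) / ((k0 / 2 * (p.B H : ℝ)) ^ e i * M) + 1))) :=
    Finset.prod_nonneg fun i _ => by positivity
  calc C * (∏ i, ((M / p.Q) ^ (NN n (e i) - 1) * (p.rho * H / M + 1) ^ (NN n (e i) - 1) *
      (cK K * (th * H * (p.B H : ℝ) ^ e i) / ((k0 / 2 * (p.B H : ℝ)) ^ e i * M) + 1))) ^ mK K ≤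
      C * ((∏ i : Fin r, (cK K / (k0 / 2) ^ e i + 1) * p.Q / (2 * p.rho)) * (th / M) ^ r *
        (2 * p.rho * H / p.Q) ^ NS n e) ^ mK K := by
        gcongr
    _ = (C * (∏ i : Fin r, (cK K / (k0 / 2) ^ e i + 1) * p.Q / (2 * p.rho)) ^ mK K *
        ((th / M) ^ r) ^ mK K) * p.XR p.rho H := by
        unfold Par.XR
        rw [mul_pow, mul_pow, ← pow_mul (2 * p.rho * H / p.Q), mul_comm (NS n e) (mK K)]
        ring

theorem loc_pairs_le (p : Par K n e) {eps k0 : ℝ} {w : ℕ} (hp : p.Valid eps k0 w) :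
    ∃ C : ℝ, 0 < C ∧ ∀ (th : ℝ), 0 < th → ∀ s : ℕ, p.Q ∣ p.W ^ s →
    ∀ᶠ H : ℝ in atTop, ∀ S : Set (Fin (n + 1) → 𝓞 K), S ⊆ p.XX (p.B H) →
      ((p.LP p.rho th s S H).ncard : ℝ) ≤
        (S.ncard : ℝ) * (C * ((th / (p.W : ℝ) ^ s) ^ r) ^ mK K) * p.XR p.rho H := by
  classical
  obtain ⟨C, hC0, hC⟩ := loc_one_le p hp
  have hr : r ≤ n + 1 := by have := hp.n_ge; omega
  refine ⟨C, hC0, ?_⟩
  intro th hth s hs
  filter_upwards [hC th hth s hs] with H hone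
  intro S hS
  have hSfin : S.Finite := (XX_finite hr p (p.B H)).subset hS
  have hLfin : (p.LP p.rho th s S H).Finite := LP_finite p p.rho th s S hSfin H
  rw [Set.ncard_eq_toFinset_card _ hLfin, Set.ncard_eq_toFinset_card _ hSfin]
  have hmap : ∀ q ∈ hLfin.toFinset, q.2 ∈ hSfin.toFinset := by
    intro q hq
    rw [Set.Finite.mem_toFinset] at hq ⊢
    exact hq.2.1
  rw [Finset.card_eq_sum_card_fiberwise hmap]
  push_cast
  have hfib : ∀ x ∈ hSfin.toFinset, ((hLfin.toFinset.filter (fun q => q.2 = x)).card : ℝ) ≤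
      (C * ((th / (p.W : ℝ) ^ s) ^ r) ^ mK K) * p.XR p.rho H := by
    intro x hx
    rw [Set.Finite.mem_toFinset] at hx
    refine le_trans ?_ (hone x (hS hx))
    have hfin : {A : Sys n e (𝓞 K) | A ∈ p.Cl p.rho H ∧ ∀ i, ((p.W : 𝓞 K) ^ s) ∣ F (A i) x ∧
          CIn (th * H * (p.B H : ℝ) ^ e i) (F (A i) x)}.Finite :=
      (Cl_finite p p.rho H).subset fun A hA => hA.1
    rw [Set.ncard_eq_toFinset_card _ hfin]
    refine Nat.cast_le.2 ?_
    refine Finset.card_le_card_of_injOn (fun q => q.1) ?_ ?_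
    · intro q hq
      rw [Finset.mem_coe, Finset.mem_filter, Set.Finite.mem_toFinset] at hq
      rw [Finset.mem_coe, Set.Finite.mem_toFinset]
      obtain ⟨⟨h1, h2, h3⟩, h5⟩ := hq
      rw [← h5]
      exact ⟨h1, h3⟩
    · intro q hq q' hq' h
      rw [Finset.mem_coe, Finset.mem_filter] at hq hq'
      exact Prod.ext h (hq.2.trans hq'.2.symm)
  refine (Finset.sum_le_sum hfib).trans ?_
  rw [Finset.sum_const, nsmul_eq_mul]
  exact le_of_eq (by ring)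

end NKHP
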