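import Pool.Agent.Lib.MP_e426f4_ag.NK.Points
import Pool.Agent.Lib.MP_e426f4_ag.NK.Heights
import Pool.Agent.Lib.MP_e426f4_ag.NK.PadicCount

/-!
NK-NLoc: local count of points for a fixed system. Templates: N/NLoc.lean, CI/NLoc.lean. Sum of RC (b = (W^s) q) over the classes z' mod W^s with z' = x0 mod P, W^s | F(A i) z' (padic_count: their number is nadm (W^s/Q)^{m(n+1-r)}: nadm ((W^s/Q)^(n+1))^m / ((W^s/Q)^r)^m),
combined by CRT with the class of z mod q (q coprime to W). x in XX iff Reg and Adm; Adm follows from x = x0 mod P and W^s | F(A i) x (Q | W^s, A = A0 mod Q). Total (1 +- eps) Vol/(W^{s m} N q)^(n+1) nadm (W^s/Q)^{m(n+1-r)} = (1 +- eps) TL/(N q)^(n+1).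
-/

namespace NKHP

open NumberField GenHP NFHP Finset Filter Topology
open CIHP (Sys NS Jac nu Bf)

variable {K : Type} [Field K] [NumberField K] {n r : ℕ} {e : Fin r → ℕ}

/-- congruences modulo an ideal -/
private theorem nkl_congr {d : ℕ} (I : Ideal (𝓞 K)) (A A' : Idx n d → 𝓞 K)
    (x x' : Fin (n + 1) → 𝓞 K)
    (hA : ∀ t, A t - A' t ∈ I) (hx : ∀ i, x i - x' i ∈ I) : F A x - F A' x' ∈ I := by
  rw [← Ideal.Quotient.eq]
  have h1 := F_map (Ideal.Quotient.mk I) A x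
  have h2 := F_map (Ideal.Quotient.mk I) A' x'
  rw [← h1, ← h2]
  congr 1
  · funext t
    exact Ideal.Quotient.eq.mpr (hA t)
  · funext i
    exact Ideal.Quotient.eq.mpr (hx i)

/-- reduction of the coordinates modulo `M` -/
private theorem nkl_red (M : ℕ) : ∃ f : 𝓞 K → 𝓞 K, ∀ a, ∀ j, crd (f a) j = crd a j % (M : ℤ) := by
  have h : ∀ a : 𝓞 K, ∃ b : 𝓞 K, ∀ j, crd b j = crd a j % (M : ℤ) := fun a => exists_crd _
  choose f hf using h
  exact ⟨f, hf⟩

theorem nloc (p : Par K n e) {eps k0 : ℝ} {w : ℕ} (hp : p.Valid eps k0 w) (th : ℝ)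
    (hth : 0 < th) (hth2 : th ≤ p.th1) (s : ℕ) (hs : p.Q ∣ p.W ^ s) (q : Ideal (𝓞 K))
    (hq : q ≠ ⊥) (hqW : IsCoprime q (Ideal.span {(p.W : 𝓞 K)})) :
    ∃ B0 : ℕ, ∀ B : ℕ, B0 ≤ B → ∀ H : ℝ, 0 < H → ∀ A : Sys n e (𝓞 K),
      (∀ i t j, |(crd (A i t) j : ℝ) - H * p.Ainf i t j| ≤ 3 * p.rho * H) →
      (∀ i t, (p.Q : 𝓞 K) ∣ A i t - p.A0 i t) → ∀ z : Fin (n + 1) → 𝓞 K,
      (1 - eps) * p.TL th s B / (Ideal.absNorm q : ℝ) ^ (n + 1) ≤
        (Set.ncard {x : Fin (n + 1) → 𝓞 K | x ∈ p.XX B ∧ (∀ i, (p.W : 𝓞 K) ^ s ∣ F (A i) x ∧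
          CIn (th * H * (B : ℝ) ^ e i) (F (A i) x)) ∧ ∀ i, x i - z i ∈ q} : ℝ) ∧
      (Set.ncard {x : Fin (n + 1) → 𝓞 K | x ∈ p.XX B ∧ (∀ i, (p.W : 𝓞 K) ^ s ∣ F (A i) x ∧
          CIn (th * H * (B : ℝ) ^ e i) (F (A i) x)) ∧ ∀ i, x i - z i ∈ q} : ℝ) ≤
        (1 + eps) * p.TL th s B / (Ideal.absNorm q : ℝ) ^ (n + 1) := by
  classical
  have hr1 : r ≤ n + 1 := by have := hp.n_ge; omega
  obtain ⟨M, hM⟩ : ∃ M : ℕ, M = p.W ^ s := ⟨_, rfl⟩
  have hMpos : 0 < M := by rw [hM]; exact pow_pos hp.W_pos s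
  have hMO : ((p.W : 𝓞 K) ^ s) = (M : 𝓞 K) := by rw [hM]; push_cast; rfl
  have hMr : ((p.W : ℝ) ^ s) = (M : ℝ) := by rw [hM]; push_cast; rfl
  have hQM : p.Q ∣ M := by rw [hM]; exact hs
  have hQMO : (p.Q : 𝓞 K) ∣ (M : 𝓞 K) := Nat.cast_dvd_cast hQM
  obtain ⟨J, hJ⟩ : ∃ J : Ideal (𝓞 K), J = Ideal.span {(M : 𝓞 K)} := ⟨_, rfl⟩
  have hJmem : ∀ a : 𝓞 K, a ∈ J ↔ (M : 𝓞 K) ∣ a := by
    intro a
    rw [hJ, Ideal.mem_span_singleton]
  have hJP : J ≤ p.P := by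
    rw [hJ, Ideal.span_singleton_le_iff_mem]
    exact Ideal.mem_of_dvd _ hQMO hp.hens.1
  have hJne : J ≠ ⊥ := by
    rw [hJ, Ne, Ideal.span_singleton_eq_bot]
    exact_mod_cast hMpos.ne'
  have hJN : Ideal.absNorm J = M ^ mK K := by
    have h1 := absNorm_span_W K p.W s
    rw [hMO] at h1
    rw [hJ, h1, hM]
  have hcop : IsCoprime J q := by
    have h1 : IsCoprime q (Ideal.span {(p.W : 𝓞 K)} ^ s) := hqW.pow_right
    rw [Ideal.span_singleton_pow, hMO, ← hJ] at h1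
    exact h1.symm
  have hJq : J * q ≠ ⊥ := mul_ne_zero hJne hq
  obtain ⟨B0, hB0⟩ := hp.rc th hth hth2 (J * q) hJq
  refine ⟨B0, fun B hB H hH A hA hAQ z => ?_⟩
  have hpc := padic_count p.P hp.P_ne p.Q p.W hp.W_pos p.A0 p.x0 hp.hens s hs A hAQ
  have hMz : ((p.W : ℤ) ^ s) = (M : ℤ) := by rw [hM]; push_cast; rfl
  simp only [hMz, hMO] at hpc
  simp only [hMO]
  obtain ⟨RR, hRR⟩ : ∃ RR : Set (Fin (n + 1) → 𝓞 K), RR = {z : Fin (n + 1) → 𝓞 K |
      (∀ i j, 0 ≤ crd (z i) j ∧ crd (z i) j < (M : ℤ)) ∧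
      (∀ i, z i - p.x0 i ∈ p.P) ∧ ∀ i, (M : 𝓞 K) ∣ F (A i) z} := ⟨_, rfl⟩
  rw [← hRR, ← hM] at hpc
  have hRRfin : RR.Finite := by
    refine (Bx_finite (n := n) (K := K) (cK K * M)).subset ?_
    intro x hx i w'
    rw [hRR] at hx
    refine norm_sg_le_of_crd (fun j => ?_) w'
    have h1 := hx.1 i j
    rw [abs_le]
    constructor
    · have : (0 : ℝ) ≤ (crd (x i) j : ℝ) := by exact_mod_cast h1.1
      have h2 : (0 : ℝ) ≤ M := by positivity
      linarith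
    · exact_mod_cast h1.2.le
  obtain ⟨α, hα, β, hβ, hab⟩ := Submodule.mem_sup.mp
    ((Ideal.eq_top_iff_one _).mp (Ideal.isCoprime_iff_sup_eq.mp hcop))
  -- CRT
  let ρ : (Fin (n + 1) → 𝓞 K) → (Fin (n + 1) → 𝓞 K) := fun u i => u i + α * (z i - u i)
  have hρ : ∀ u x : Fin (n + 1) → 𝓞 K, (∀ i, x i - ρ u i ∈ J * q) ↔
      (∀ i, (M : 𝓞 K) ∣ x i - u i) ∧ (∀ i, x i - z i ∈ q) := by
    intro u x
    have h0 : ∀ i, x i - ρ u i ∈ J * q ↔ x i - ρ u i ∈ J ∧ x i - ρ u i ∈ q := by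
      intro i
      rw [Ideal.mul_eq_inf_of_coprime (Ideal.isCoprime_iff_sup_eq.mp hcop)]
      exact Iff.rfl
    have h1 : ∀ i, x i - ρ u i ∈ J ↔ (M : 𝓞 K) ∣ x i - u i := by
      intro i
      rw [← hJmem]
      have h2 : x i - ρ u i = (x i - u i) - α * (z i - u i) := by
        simp only [ρ]; ring
      rw [h2]
      exact J.sub_mem_iff_left (J.mul_mem_right _ hα)
    have h3 : ∀ i, x i - ρ u i ∈ q ↔ x i - z i ∈ q := by
      intro i
      have h2 : x i - ρ u i = (x i - z i) - β * (u i - z i) := by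
        simp only [ρ]
        linear_combination -(z i - u i) * hab
      rw [h2]
      exact q.sub_mem_iff_left (q.mul_mem_right _ hβ)
    constructor
    · intro h
      exact ⟨fun i => (h1 i).mp ((h0 i).mp (h i)).1, fun i => (h3 i).mp ((h0 i).mp (h i)).2⟩
    · rintro ⟨h4, h5⟩ i
      exact (h0 i).mpr ⟨(h1 i).mpr (h4 i), (h3 i).mpr (h5 i)⟩
  obtain ⟨Z, hZ⟩ : ∃ Z : Set (Fin (n + 1) → 𝓞 K), Z = {x : Fin (n + 1) → 𝓞 K |
      x ∈ p.XX B ∧ (∀ i, (M : 𝓞 K) ∣ F (A i) x ∧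
          CIn (th * H * (B : ℝ) ^ e i) (F (A i) x)) ∧ ∀ i, x i - z i ∈ q} := ⟨_, rfl⟩
  rw [← hZ]
  have hZfin : Z.Finite := (XX_finite hr1 p B).subset fun x hx => by rw [hZ] at hx; exact hx.1
  obtain ⟨red, hred⟩ := nkl_red (K := K) M
  have hreddvd : ∀ a : 𝓞 K, (M : 𝓞 K) ∣ red a - a := by
    intro a
    rw [natCast_dvd_iff]
    intro j
    rw [crd_sub, hred]
    have h1 := Int.mul_ediv_add_emod (crd a j) M
    refine ⟨-(crd a j / M), ?_⟩
    linear_combination h1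
  let f : (Fin (n + 1) → 𝓞 K) → (Fin (n + 1) → 𝓞 K) := fun x i => red (x i)
  have hMz0 : (M : ℤ) ≠ 0 := by exact_mod_cast hMpos.ne'
  have hMzpos : (0 : ℤ) < M := by exact_mod_cast hMpos
  have hf : ∀ x ∈ hZfin.toFinset, f x ∈ hRRfin.toFinset := by
    intro x hx
    rw [Set.Finite.mem_toFinset] at hx ⊢
    rw [hZ] at hx
    rw [hRR]
    refine ⟨fun i j => ?_, ?_, ?_⟩
    · change 0 ≤ crd (red (x i)) j ∧ crd (red (x i)) j < (M : ℤ)
      rw [hred]
      exact ⟨Int.emod_nonneg _ hMz0, Int.emod_lt_of_pos _ hMzpos⟩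
    · intro i
      have h1 : f x i - p.x0 i = (f x i - x i) + (x i - p.x0 i) := by ring
      rw [h1]
      exact p.P.add_mem (hJP ((hJmem _).mpr (hreddvd _))) (hx.1.2.1 i)
    · intro i
      have h1 := nkl_congr J (A i) (A i) (f x) x (fun m => by simp)
        (fun i => (hJmem _).mpr (hreddvd _))
      have h2 : F (A i) (f x) = (F (A i) (f x) - F (A i) x) + F (A i) x := by ring
      rw [h2]
      exact dvd_add ((hJmem _).mp h1) (hx.2.1 i).1
  have hcard : Z.ncard = ∑ u ∈ hRRfin.toFinset,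
      (hZfin.toFinset.filter (fun x => f x = u)).card := by
    rw [Set.ncard_eq_toFinset_card Z hZfin]
    exact Finset.card_eq_sum_card_fiberwise hf
  have hfib : ∀ u ∈ hRRfin.toFinset,
      (((hZfin.toFinset.filter (fun x => f x = u)).card : ℕ) : ℝ) =
      (Set.ncard {x : Fin (n + 1) → 𝓞 K | x ∈ Reg p.xi p.h p.kap B ∧
          (∀ i, x i - ρ u i ∈ J * q) ∧
          ∀ i, CIn (th * H * (B : ℝ) ^ e i) (F (A i) x)} : ℝ) := by
    intro u hs
    rw [Set.Finite.mem_toFinset, hRR] at hs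
    congr 1
    rw [← Set.ncard_coe_finset]
    congr 1
    ext x
    rw [Finset.mem_coe, Finset.mem_filter, Set.Finite.mem_toFinset, hZ]
    simp only [Set.mem_ofPred_eq]
    rw [hρ u x]
    have hfx : f x = u ↔ ∀ i, (M : 𝓞 K) ∣ x i - u i := by
      constructor
      · rintro h i
        rw [← h]
        have := hreddvd (x i)
        rw [← dvd_neg, neg_sub] at this
        exact this
      · intro h
        funext i
        apply crd_ext
        intro j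
        change crd (red (x i)) j = crd (u i) j
        rw [hred]
        have h1 := (natCast_dvd_iff M (x i - u i)).mp (h i) j
        rw [crd_sub] at h1
        have h2 := hs.1 i j
        obtain ⟨k, hk⟩ := h1
        have h3 : crd (x i) j = crd (u i) j + M * k := by linarith
        rw [h3, Int.add_mul_emod_self_left]
        exact Int.emod_eq_of_lt h2.1 h2.2
    constructor
    · rintro ⟨⟨h1, h2, h4⟩, h5⟩
      exact ⟨h1.1, ⟨hfx.1 h5, h4⟩, fun i => (h2 i).2⟩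
    · rintro ⟨h1, ⟨h2, h3⟩, h4⟩
      have h6 : ∀ i, (M : 𝓞 K) ∣ F (A i) x := by
        intro i
        have h5 := nkl_congr J (A i) (A i) x u (fun m => by simp) (fun i => (hJmem _).mpr (h2 i))
        have h6 : F (A i) x = (F (A i) x - F (A i) u) + F (A i) u := by ring
        rw [h6]
        exact dvd_add ((hJmem _).mp h5) (hs.2.2 i)
      refine ⟨⟨⟨h1, ?_, ?_⟩, fun i => ⟨h6 i, h4 i⟩, h3⟩, hfx.2 h2⟩
      · intro i
        have h5 : x i - p.x0 i = (x i - u i) + (u i - p.x0 i) := by ring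
        rw [h5]
        exact p.P.add_mem (hJP ((hJmem _).mpr (h2 i))) (hs.2.1 i)
      · intro i
        have h5 := nkl_congr (Ideal.span {(p.Q : 𝓞 K)}) (p.A0 i) (A i) x x
          (fun m => by
            rw [Ideal.mem_span_singleton]
            have := hAQ i m
            rw [← dvd_neg, neg_sub] at this
            exact this) (fun j => by simp)
        rw [Ideal.mem_span_singleton] at h5
        have h7 : F (p.A0 i) x = (F (p.A0 i) x - F (A i) x) + F (A i) x := by ring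
        rw [h7]
        exact dvd_add h5 (hQMO.trans (h6 i))
  have hQ0 : (0 : ℝ) < p.Q := by exact_mod_cast hp.Q_pos
  have hM0 : (0 : ℝ) < M := by exact_mod_cast hMpos
  have hq0 : (0 : ℝ) < Ideal.absNorm q := by exact_mod_cast absNorm_pos hq
  have hvg := hp.vg_pos
  have hdiv : ((M / p.Q : ℕ) : ℝ) = (M : ℝ) / p.Q := Nat.cast_div hQM hQ0.ne'
  have hRc : (RR.ncard : ℝ) * (((M : ℝ) / p.Q) ^ r) ^ mK K =
      nadm p.P p.Q p.A0 p.x0 * (((M : ℝ) / p.Q) ^ (n + 1)) ^ mK K := by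
    rw [← hdiv]
    exact_mod_cast hpc
  have hRcard : (hRRfin.toFinset.card : ℝ) = (RR.ncard : ℝ) := by
    rw [Set.ncard_eq_toFinset_card RR hRRfin]
  have hRc' : (RR.ncard : ℝ) =
      nadm p.P p.Q p.A0 p.x0 * (((M : ℝ) / p.Q) ^ (n + 1)) ^ mK K /
        (((M : ℝ) / p.Q) ^ r) ^ mK K := by
    rw [eq_div_iff (by positivity)]
    exact hRc
  have hNb : (Ideal.absNorm (J * q) : ℝ) ^ (n + 1) =
      ((M : ℝ) ^ (n + 1)) ^ mK K * (Ideal.absNorm q : ℝ) ^ (n + 1) := by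
    rw [map_mul, hJN]
    push_cast
    rw [mul_pow]
    congr 1
    rw [← pow_mul, ← pow_mul, mul_comm]
  have hZc : (Z.ncard : ℝ) = ∑ u ∈ hRRfin.toFinset,
      (((hZfin.toFinset.filter (fun x => f x = u)).card : ℕ) : ℝ) := by
    rw [hcard]
    push_cast
    rfl
  have hTL : p.TL th s B = Vol K n r p.vg p.kap th B *
      (nadm p.P p.Q p.A0 p.x0 / ((p.Q : ℝ) ^ (n + 1)) ^ mK K) *
      (((p.Q : ℝ) / M) ^ r) ^ mK K := by
    rw [← hMr]; rfl
  rw [hZc, hTL]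
  obtain ⟨V, hV⟩ : ∃ V : ℝ, V = Vol K n r p.vg p.kap th B := ⟨_, rfl⟩
  rw [← hV]
  constructor
  · have h1 : ∀ u ∈ hRRfin.toFinset, (1 - eps) * V /
        (Ideal.absNorm (J * q) : ℝ) ^ (n + 1) ≤
        (((hZfin.toFinset.filter (fun x => f x = u)).card : ℕ) : ℝ) := by
      intro u hs
      rw [hfib u hs, hV]
      exact (hB0 B hB H hH A hA (ρ u)).1
    have h2 := Finset.card_nsmul_le_sum _ _ _ h1
    refine le_trans (le_of_eq ?_) h2
    rw [nsmul_eq_mul, hRcard, hRc', hNb]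
    simp only [div_pow]
    field_simp
  · have h1 : ∀ u ∈ hRRfin.toFinset,
        (((hZfin.toFinset.filter (fun x => f x = u)).card : ℕ) : ℝ) ≤
        (1 + eps) * V / (Ideal.absNorm (J * q) : ℝ) ^ (n + 1) := by
      intro u hs
      rw [hfib u hs, hV]
      exact (hB0 B hB H hH A hA (ρ u)).2
    have h2 := Finset.sum_le_card_nsmul _ _ _ h1
    refine h2.trans (le_of_eq ?_)
    rw [nsmul_eq_mul, hRcard, hRc', hNb]
    simp only [div_pow]
    field_simp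


end NKHP
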