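import Pool.Agent.Lib.MP_e426f4_ag.NK.Flat
import Pool.Agent.Lib.MP_e426f4_ag.N.AlgCplx

/-! Module NK-RM: the values of a system along `r` directions, in real coordinates. -/

set_option linter.unusedSectionVars false

namespace NKRC

open NumberField GenHP NFHP NKHP Finset Filter Topology
open CIHP (Sys NS Jac nu Bf)

variable {K : Type} [Field K] [NumberField K] {n r : ℕ} {e : Fin r → ℕ}

/-- the point with shifts `t` in the directions `h` and the error `ze` -/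
noncomputable def Xp (xi ze : Fin (n + 1) → IK K → ℝ) (h : Fin r → Fin (n + 1) → ℤ)
    (t : Fin r × IK K → ℝ) : Fin (n + 1) → IK K → ℝ :=
  fun i j => xi i j + (∑ l, (h l i : ℝ) * t (l, j) + ze i j)

/-- the values of the system -/
noncomputable def Ph (A : Sys n e (IK K → ℝ)) (xi ze : Fin (n + 1) → IK K → ℝ)
    (h : Fin r → Fin (n + 1) → ℤ) (t : Fin r × IK K → ℝ) : Fin r × IK K → ℝ :=
  fun p => co (fun w => F (sysC A w p.1) (ptC (Xp xi ze h t) w)) p.2

/-- the matrix of the derivatives at all places -/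
noncomputable def Gm (A : Sys n e (IK K → ℝ)) (X : Fin (n + 1) → IK K → ℝ)
    (h : Fin r → Fin (n + 1) → ℤ) : InfinitePlace K → Matrix (Fin r) (Fin r) ℂ :=
  fun w => NKHP.Dh (sysC A w) (ptC X w) h

theorem RM_Gm (A : Sys n e (IK K → ℝ)) (X : Fin (n + 1) → IK K → ℝ)
    (h : Fin r → Fin (n + 1) → ℤ) : RM (Gm A X h) := by
  intro i l
  show RV fun w => ∑ j, D (sysC A w i) (ptC X w) j * ((h l j : ℤ) : ℂ)
  refine RV_sum _ fun j _ => RV_mul ?_ ?_
  · exact RV_D (A := fun t w => lam (A i t) w) (x := fun i w => lam (X i) w)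
      (fun _ => RV_lam _) (fun _ => RV_lam _) j
  · have := RV_ofReal (K := K) fun _ => (h l j : ℝ)
    simpa using this

theorem RV_Fs (A : Sys n e (IK K → ℝ)) (X : Fin (n + 1) → IK K → ℝ) (i : Fin r) :
    RV fun w => F (sysC A w i) (ptC X w) :=
  RV_F (A := fun t w => lam (A i t) w) (x := fun i w => lam (X i) w)
    (fun _ => RV_lam _) (fun _ => RV_lam _)

theorem ptC_Xp (xi ze : Fin (n + 1) → IK K → ℝ) (h : Fin r → Fin (n + 1) → ℤ)
    (t : Fin r × IK K → ℝ) (w : InfinitePlace K) (i : Fin (n + 1)) :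
    ptC (Xp xi ze h t) w i = lam (xi i) w +
      (∑ l, ((h l i : ℤ) : ℂ) * lam (fun j => t (l, j)) w + lam (ze i) w) := by
  show lam (fun j => xi i j + (∑ l, (h l i : ℝ) * t (l, j) + ze i j)) w = _
  rw [lam_add (xi i) (fun j => ∑ l, (h l i : ℝ) * t (l, j) + ze i j),
    lam_add (fun j => ∑ l, (h l i : ℝ) * t (l, j)) (ze i),
    lam_lin Finset.univ (fun l => (h l i : ℝ)) (fun l j => t (l, j))]
  simp only [Complex.ofReal_intCast]

theorem Xp_add (xi ze : Fin (n + 1) → IK K → ℝ) (h : Fin r → Fin (n + 1) → ℤ)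
    (t s : Fin r × IK K → ℝ) (w : InfinitePlace K) (i : Fin (n + 1)) :
    ptC (Xp xi ze h (t + s)) w i = ptC (Xp xi ze h t) w i +
      ∑ l, ((h l i : ℤ) : ℂ) * lam (fun j => s (l, j)) w := by
  rw [ptC_Xp, ptC_Xp]
  have h1 : ∀ l, lam (fun j => (t + s) (l, j)) w =
      lam (fun j => t (l, j)) w + lam (fun j => s (l, j)) w := fun l =>
    lam_add (fun j => t (l, j)) (fun j => s (l, j)) w
  simp only [h1, mul_add, Finset.sum_add_distrib]
  ring

/-- the bound for a shift -/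
theorem shift_norm_le (h : Fin r → Fin (n + 1) → ℤ) (m : ℝ) (hm : ∀ l i, |(h l i : ℝ)| ≤ m)
    (s : Fin r × IK K → ℝ) (R : ℝ) (hR : 0 ≤ R) (hs : ∀ p, |s p| ≤ R) (w : InfinitePlace K)
    (i : Fin (n + 1)) :
    ‖∑ l, ((h l i : ℤ) : ℂ) * lam (fun j => s (l, j)) w‖ ≤ r * (m * (cK K * R)) := by
  have hc := cK_pos (K := K)
  calc ‖∑ l, ((h l i : ℤ) : ℂ) * lam (fun j => s (l, j)) w‖
      ≤ ∑ l, ‖((h l i : ℤ) : ℂ) * lam (fun j => s (l, j)) w‖ := norm_sum_le _ _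
    _ ≤ ∑ _l : Fin r, m * (cK K * R) := by
        refine Finset.sum_le_sum fun l _ => ?_
        rw [norm_mul, Complex.norm_intCast]
        exact mul_le_mul (hm l i) (norm_lam_le _ R (fun j => hs (l, j)) w) (norm_nonneg _)
          ((abs_nonneg _).trans (hm l i))
    _ = r * (m * (cK K * R)) := by
        rw [Finset.sum_const, Finset.card_univ, Fintype.card_fin, nsmul_eq_mul]

theorem sum_D_shift (A : Sys n e ℂ) (x : Fin (n + 1) → ℂ) (h : Fin r → Fin (n + 1) → ℤ)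
    (z : Fin r → ℂ) (i : Fin r) :
    ∑ j, D (A i) x j * ∑ l, ((h l j : ℤ) : ℂ) * z l = ∑ l, NKHP.Dh A x h i l * z l := by
  simp only [NKHP.Dh, Matrix.of_apply, Finset.mul_sum, Finset.sum_mul]
  rw [Finset.sum_comm]
  refine Finset.sum_congr rfl fun l _ => Finset.sum_congr rfl fun j _ => ?_
  ring

theorem Ph_deriv (A : Sys n e (IK K → ℝ)) (xi ze : Fin (n + 1) → IK K → ℝ)
    (h : Fin r → Fin (n + 1) → ℤ) (t : Fin r × IK K → ℝ) [DecidableEq (IK K)] :
    HasFDerivAt (Ph A xi ze h)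
      (Matrix.toLin' (fl (Gm A (Xp xi ze h t) h))).toContinuousLinearMap t := by
  rw [hasFDerivAt_pi']
  intro p
  rw [hasFDerivAt_iff_isLittleO_nhds_zero]
  have hc := cK_pos (K := K)
  obtain ⟨m, hm0, hm⟩ : ∃ m : ℝ, 0 ≤ m ∧ ∀ l i, |(h l i : ℝ)| ≤ m := by
    refine ⟨∑ l, ∑ i, |(h l i : ℝ)|, by positivity, fun l i => ?_⟩
    have h1 := Finset.single_le_sum (f := fun i => |(h l i : ℝ)|) (fun _ _ => abs_nonneg _)
      (Finset.mem_univ i)
    have h2 := Finset.single_le_sum (f := fun l => ∑ i, |(h l i : ℝ)|)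
      (fun _ _ => Finset.sum_nonneg fun _ _ => abs_nonneg _) (Finset.mem_univ l)
    exact h1.trans h2
  obtain ⟨X, hX⟩ : ∃ X : ℝ, X = 1 + cK K * ‖Xp xi ze h t‖ := ⟨_, rfl⟩
  have hX1 : 1 ≤ X := by
    rw [hX]
    have : 0 ≤ cK K * ‖Xp xi ze h t‖ := by positivity
    linarith
  obtain ⟨S, hS⟩ : ∃ S : ℝ, S = r * (m * cK K) := ⟨_, rfl⟩
  have hS0 : 0 ≤ S := by rw [hS]; positivity
  obtain ⟨a, ha⟩ : ∃ a : ℝ, a = cK K * ‖A p.1‖ := ⟨_, rfl⟩
  have hAa : ∀ (w : InfinitePlace K) m', ‖sysC A w p.1 m'‖ ≤ a := by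
    intro w m'
    rw [ha]
    refine norm_lam_le _ _ (fun j => ?_) w
    exact (norm_le_pi_norm (A p.1 m') j).trans (norm_le_pi_norm (A p.1) m')
  have hXX : ∀ (w : InfinitePlace K) i, ‖ptC (Xp xi ze h t) w i‖ ≤ X := by
    intro w i
    rw [hX]
    refine (norm_lam_le _ ‖Xp xi ze h t‖ (fun j => ?_) w).trans (by linarith)
    exact (norm_le_pi_norm (Xp xi ze h t i) j).trans (norm_le_pi_norm (Xp xi ze h t) i)
  have hbound : ∀ s : Fin r × IK K → ℝ, ‖s‖ ≤ 1 / (S + 1) →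
      |Ph A xi ze h (t + s) p - Ph A xi ze h t p -
        (fl (Gm A (Xp xi ze h t) h)).mulVec s p| ≤
      (cK K * (NN n (e p.1) * 4 ^ e p.1 * a * X ^ e p.1 * S ^ 2)) * ‖s‖ ^ 2 := by
    intro s hs
    have hs1 : S * ‖s‖ ≤ 1 := by
      rw [le_div_iff₀ (by positivity)] at hs
      nlinarith [norm_nonneg s]
    have hRG := RM_Gm A (Xp xi ze h t) h
    have hR : RV fun w => ∑ l, Gm A (Xp xi ze h t) h w p.1 l * lam (fun k => s (l, k)) w :=
      RV_sum _ fun l _ => RV_mul (hRG p.1 l) (RV_lam _)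
    rw [fl_mulVec hRG]
    show |co _ p.2 - co _ p.2 - co _ p.2| ≤ _
    rw [← co_sub (RV_Fs A (Xp xi ze h (t + s)) p.1) (RV_Fs A (Xp xi ze h t) p.1),
      ← co_sub (RV_sub (RV_Fs A (Xp xi ze h (t + s)) p.1) (RV_Fs A (Xp xi ze h t) p.1)) hR,
      mul_assoc]
    refine co_abs_le (RV_sub (RV_sub (RV_Fs A (Xp xi ze h (t + s)) p.1)
      (RV_Fs A (Xp xi ze h t) p.1)) hR) (fun w => ?_) p.2
    have hy : ∀ i, ‖∑ l, ((h l i : ℤ) : ℂ) * lam (fun j => s (l, j)) w‖ ≤ S * ‖s‖ := by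
      intro i
      refine (shift_norm_le h m hm s ‖s‖ (norm_nonneg s) (fun q => norm_le_pi_norm s q) w
        i).trans (le_of_eq ?_)
      rw [hS]
      ring
    have h1 := F_taylor (sysC A w p.1) (ptC (Xp xi ze h t) w)
      (fun i => ∑ l, ((h l i : ℤ) : ℂ) * lam (fun j => s (l, j)) w) a X (S * ‖s‖) hX1
      (by positivity) (by linarith) (hAa w) (hXX w) hy
    rw [sum_D_shift] at h1
    have h2 : ptC (Xp xi ze h (t + s)) w = fun i => ptC (Xp xi ze h t) w i +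
        ∑ l, ((h l i : ℤ) : ℂ) * lam (fun j => s (l, j)) w := funext fun i =>
      Xp_add xi ze h t s w i
    rw [h2]
    refine h1.trans (le_of_eq ?_)
    ring
  refine Asymptotics.IsBigO.trans_isLittleO (g := fun s : Fin r × IK K → ℝ => ‖s‖ ^ 2) ?_
    (Asymptotics.isLittleO_norm_pow_id (by norm_num))
  refine Asymptotics.IsBigO.of_bound
    (cK K * (NN n (e p.1) * 4 ^ e p.1 * a * X ^ e p.1 * S ^ 2)) ?_
  have hball : Metric.closedBall (0 : Fin r × IK K → ℝ) (1 / (S + 1)) ∈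
      nhds (0 : Fin r × IK K → ℝ) := Metric.closedBall_mem_nhds _ (by positivity)
  filter_upwards [hball] with s hs
  have hs' : ‖s‖ ≤ 1 / (S + 1) := by simpa using hs
  have h2 := hbound s hs'
  rw [Real.norm_of_nonneg (by positivity : (0 : ℝ) ≤ ‖s‖ ^ 2), Real.norm_eq_abs]
  exact h2

end NKRC
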