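import Pool.Agent.Lib.MP_e426f4_ag.NK.SumNorm
import Pool.Agent.Lib.MP_e426f4_ag.N.Ideals
import Pool.Agent.Lib.MP_e426f4_ag.N.Minors
import Pool.Agent.Lib.MP_e426f4_ag.N.Lat
import Pool.Agent.Lib.MP_e426f4_ag.N.SumBad

/-!
NK-SumBad: the sum over the second point. Template: N/SumBad.lean (case r = 1). l_k (k < n) from Good R B x, mu = R B^(1/n); z_k = l_k.y in mgI x y, z /= 0; y -> z has fibres of size <= C; vn_w z <= C mu dl_w/B, vn_w z <= C mu B, and vn_w z <= C mu tau B at the place w if dl_w < tau B^2.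
(mgN/np dl)^r <= (C mu/B)^(m r) N g^r (1/np(vn z))^r with g = mgI x y; for each ideal g: sum_inv_pow with I = g, Y = C mu B (resp. Y_w tau at one place): <= C np(Y)^(n-r)/N g^n; sum over g of N g^(r-n), n - r >= 2: NFHP.ideal_sum, NFHP.ideal_tail (E(G)).
Total C (mu/B)^(m r) (mu B)^(m (n-r)) = C mu^(m n) B^(m(n-2r)) = C R^(m n) B^(m(n+1-2r)).
-/

namespace NKHP

open NumberField GenHP NFHP Finset Filter Topology
open CIHP (Sys NS Jac nu Bf)

/-- the general estimate -/
private theorem sumBad_keyS (K : Type) [Field K] [NumberField K] (n r : ℕ) (hr : 1 ≤ r) (hn : r + 2 ≤ n) :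
    ∃ C : ℝ, 0 < C ∧ ∀ (mu B : ℝ), 0 < mu → 0 < B → ∀ x : Fin (n + 1) → 𝓞 K, Prim x →
    (∀ w, ∃ i, B / 2 ≤ ‖sg w (x i)‖) → ∀ l : Fin n → Fin (n + 1) → 𝓞 K,
    LinearIndependent K (fun k : Fin n => fun i : Fin (n + 1) => ((l k i : 𝓞 K) : K)) →
    (∀ k, ∑ i, l k i * x i = 0) → (∀ k i w, ‖sg w (l k i)‖ ≤ mu) →
    ∀ S : Finset (Fin (n + 1) → 𝓞 K), (∀ y ∈ S, y ∈ Bx n (2 * B) ∧ mgI x y ≠ ⊥) →
    ∀ Y : InfinitePlace K → ℝ, (∀ w, 0 < Y w) →
    (∀ y ∈ S, ∀ k w, ‖sg w (∑ i, l k i * y i)‖ ≤ Y w) → ∀ E : ℝ,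
    (∀ J : Finset (Ideal (𝓞 K)), (∀ I ∈ J, ∃ y ∈ S, I = mgI x y) →
      ∑ I ∈ J, 1 / (Ideal.absNorm I : ℝ) ^ 2 ≤ E) →
    ∑ y ∈ S, ((mgN x y : ℝ) / np (fun w => dl w x y)) ^ r ≤
      C * ((mu / B) ^ mK K) ^ r * np Y ^ (n - r) * E := by
  classical
  obtain ⟨C, hC, hsum⟩ := sum_inv_pow K n r hr (by omega)
  set N8 : ℕ := (sumBad_finite (K := K) 8).toFinset.card with hN8
  set A : ℝ := 2 * ((n : ℝ) + 1) * n with hA
  have hn0 : (0 : ℝ) < n := by
    have : 0 < n := by omega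
    exact_mod_cast this
  have hA0 : 0 < A := by rw [hA]; positivity
  refine ⟨(A ^ mK K) ^ r * (N8 + 1) * C, by positivity, ?_⟩
  intro mu B hmu hB x hx hxB l hl hlx hlmu S hS Y hY hSY E hE
  have hx0 : x ≠ 0 := by
    rintro rfl
    obtain ⟨c, hc⟩ := hx
    simp at hc
  set z : (Fin (n + 1) → 𝓞 K) → (Fin n → 𝓞 K) := fun y => fun k => ∑ i, l k i * y i with hz
  have hzne : ∀ y ∈ S, z y ≠ 0 := fun y hy => sumBad_ne_zero hl hlx hx0 (hS y hy).2
  have hvn : ∀ y, ∀ w, vn w (z y) ≤ A * (mu / B) * dl w x y := by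
    intro y w
    unfold vn
    calc ∑ k, ‖sg w (z y k)‖ ≤ ∑ _k : Fin n, 2 * ((n : ℝ) + 1) * mu / B * dl w x y :=
          Finset.sum_le_sum fun k _ => sumBad_form_le (l k) (hlx k) mu B hB hmu.le w
            (fun i => hlmu k i w) (hxB w)
      _ = A * (mu / B) * dl w x y := by
          rw [Finset.sum_const, Finset.card_univ, Fintype.card_fin, nsmul_eq_mul, hA]
          ring
  have hvn0 : ∀ y ∈ S, ∀ w, 0 < vn w (z y) := by
    intro y hy w
    obtain ⟨k, hk⟩ : ∃ k, z y k ≠ 0 := by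
      by_contra hcon
      push Not at hcon
      exact hzne y hy (funext hcon)
    have h1 : ‖sg w (z y k)‖ ≤ vn w (z y) := by
      unfold vn
      exact Finset.single_le_sum (f := fun k => ‖sg w (z y k)‖) (fun p _ => norm_nonneg _)
        (Finset.mem_univ k)
    exact (norm_sg_pos w hk).trans_le h1
  have hdl0 : ∀ y ∈ S, ∀ w, 0 < dl w x y := by
    intro y hy w
    have h1 := (hvn0 y hy w).trans_le (hvn y w)
    by_contra h
    have h2 : dl w x y = 0 := le_antisymm (not_lt.1 h) (sumBad_dl_nonneg x y w)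
    rw [h2, mul_zero] at h1
    exact lt_irrefl _ h1
  have hc0 : 0 < A * (mu / B) := by positivity
  -- one term
  have hterm1 : ∀ y ∈ S, (mgN x y : ℝ) / np (fun w => dl w x y) ≤
      (A * (mu / B)) ^ mK K * ((Ideal.absNorm (mgI x y) : ℝ) * (1 / np (fun w => vn w (z y)))) := by
    intro y hy
    have h1 : np (fun w => vn w (z y)) ≤ (A * (mu / B)) ^ mK K * np (fun w => dl w x y) := by
      rw [← np_const, ← np_mul]
      exact np_mono (fun w => (hvn0 y hy w).le) (hvn y)
    have h2 : 0 < np (fun w => vn w (z y)) := np_pos (hvn0 y hy)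
    have h3 : 0 < np (fun w => dl w x y) := np_pos (hdl0 y hy)
    have h4 : (A * (mu / B)) ^ mK K * ((Ideal.absNorm (mgI x y) : ℝ) *
        (1 / np (fun w => vn w (z y)))) = ((A * (mu / B)) ^ mK K * (mgN x y : ℝ)) /
        np (fun w => vn w (z y)) := by
      unfold mgN
      ring
    rw [h4, div_le_div_iff₀ h3 h2]
    calc (mgN x y : ℝ) * np (fun w => vn w (z y)) ≤
        (mgN x y : ℝ) * ((A * (mu / B)) ^ mK K * np (fun w => dl w x y)) :=
          mul_le_mul_of_nonneg_left h1 (Nat.cast_nonneg _)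
      _ = _ := by ring
  have hterm : ∀ y ∈ S, ((mgN x y : ℝ) / np (fun w => dl w x y)) ^ r ≤
      ((A * (mu / B)) ^ mK K) ^ r * ((Ideal.absNorm (mgI x y) : ℝ) ^ r *
        (1 / np (fun w => vn w (z y))) ^ r) := by
    intro y hy
    have h3 : 0 < np (fun w => dl w x y) := np_pos (hdl0 y hy)
    rw [← mul_pow, ← mul_pow]
    exact pow_le_pow_left₀ (div_nonneg (Nat.cast_nonneg _) h3.le) (hterm1 y hy) r
  -- fibres of `z`
  have hfib : ∀ (S' : Finset (Fin (n + 1) → 𝓞 K)), S' ⊆ S →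
      ∀ b ∈ S'.image z, (S'.filter fun y => z y = b).card ≤ N8 := by
    intro S' hS' b hb
    obtain ⟨y0, hy0, hyb⟩ := Finset.mem_image.1 hb
    have hsub : (S'.filter fun y => z y = b) ⊆
        ((sumBad_finite (K := K) 8).toFinset).image (fun a => fun i => y0 i + a * x i) := by
      intro y hy
      rw [Finset.mem_filter] at hy
      have h1 : ∀ k, ∑ i, l k i * y i = ∑ i, l k i * y0 i := fun k =>
        congrFun (hy.2.trans hyb.symm) k
      obtain ⟨a, ha⟩ := sumBad_diff hx hl hlx hx0 y0 h1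
      rw [Finset.mem_image]
      refine ⟨a, ?_, by ext i; rw [ha i]⟩
      rw [Set.Finite.mem_toFinset]
      intro w
      obtain ⟨i, hi⟩ := hxB w
      have h2 : ‖sg w (a * x i)‖ ≤ 4 * B := by
        have h3 : a * x i = y i - y0 i := by rw [ha i]; ring
        rw [h3, map_sub]
        calc ‖sg w (y i) - sg w (y0 i)‖ ≤ ‖sg w (y i)‖ + ‖sg w (y0 i)‖ := norm_sub_le _ _
          _ ≤ 2 * B + 2 * B := add_le_add ((hS y (hS' hy.1)).1 i w) ((hS y0 (hS' hy0)).1 i w)
          _ = 4 * B := by ring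
      rw [map_mul, norm_mul] at h2
      have h4 : ‖sg w a‖ * (B / 2) ≤ 4 * B :=
        (mul_le_mul_of_nonneg_left hi (norm_nonneg _)).trans h2
      by_contra hcon
      push Not at hcon
      nlinarith
    calc (S'.filter fun y => z y = b).card ≤ _ := Finset.card_le_card hsub
      _ ≤ N8 := Finset.card_image_le
  -- one ideal
  have hnpY : 0 < np Y := np_pos hY
  have hideal : ∀ I ∈ S.image (mgI x), ∑ y ∈ S.filter (fun y => mgI x y = I),
      ((Ideal.absNorm (mgI x y) : ℝ) ^ r * (1 / np (fun w => vn w (z y))) ^ r) ≤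
        (N8 + 1) * C * np Y ^ (n - r) * (1 / (Ideal.absNorm I : ℝ) ^ 2) := by
    intro I hI
    obtain ⟨y1, hy1, hI1⟩ := Finset.mem_image.1 hI
    have hI0 : I ≠ ⊥ := by rw [← hI1]; exact (hS y1 hy1).2
    have hNI : (1 : ℝ) ≤ (Ideal.absNorm I : ℝ) := by
      exact_mod_cast absNorm_pos hI0
    have hNI0 : (0 : ℝ) < (Ideal.absNorm I : ℝ) := by linarith
    set SI := S.filter (fun y => mgI x y = I) with hSI
    have h1 : ∑ y ∈ SI, ((Ideal.absNorm (mgI x y) : ℝ) ^ r *
        (1 / np (fun w => vn w (z y))) ^ r) =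
        (Ideal.absNorm I : ℝ) ^ r * ∑ y ∈ SI, (1 / np (fun w => vn w (z y))) ^ r := by
      rw [Finset.mul_sum]
      refine Finset.sum_congr rfl fun y hy => ?_
      rw [(Finset.mem_filter.1 hy).2]
    have h2 : ∑ y ∈ SI, (1 / np (fun w => vn w (z y))) ^ r ≤
        N8 * ∑ b ∈ SI.image z, (1 / np (fun w => vn w b)) ^ r := by
      refine sumBad_fibre SI z (fun b => (1 / np (fun w => vn w b)) ^ r) ?_ N8
        (hfib SI (Finset.filter_subset _ _))
      intro b _
      exact pow_nonneg (div_nonneg zero_le_one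
        (np_nonneg fun w => Finset.sum_nonneg fun _ _ => norm_nonneg _)) r
    have h3 : ∑ b ∈ SI.image z, (1 / np (fun w => vn w b)) ^ r ≤
        C * np Y ^ (n - r) / (Ideal.absNorm I : ℝ) ^ n := by
      apply hsum I hI0 Y hY
      intro b hb
      obtain ⟨y, hy, rfl⟩ := Finset.mem_image.1 hb
      rw [hSI, Finset.mem_filter] at hy
      refine ⟨hzne y hy.1, ?_, fun k w => hSY y hy.1 k w⟩
      intro k
      rw [← hy.2]
      exact sumBad_mem x y (l k) hx (hlx k)
    rw [h1]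
    have h4 : 0 ≤ C * np Y ^ (n - r) / (Ideal.absNorm I : ℝ) ^ n := by positivity
    calc (Ideal.absNorm I : ℝ) ^ r * ∑ y ∈ SI, (1 / np (fun w => vn w (z y))) ^ r ≤
        (Ideal.absNorm I : ℝ) ^ r * (N8 * (C * np Y ^ (n - r) / (Ideal.absNorm I : ℝ) ^ n)) := by
          apply mul_le_mul_of_nonneg_left _ (by positivity)
          exact h2.trans (mul_le_mul_of_nonneg_left h3 (Nat.cast_nonneg _))
      _ ≤ (Ideal.absNorm I : ℝ) ^ r *
          ((N8 + 1) * (C * np Y ^ (n - r) / (Ideal.absNorm I : ℝ) ^ n)) := by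
          apply mul_le_mul_of_nonneg_left _ (by positivity)
          exact mul_le_mul_of_nonneg_right (by linarith) h4
      _ = (N8 + 1) * C * np Y ^ (n - r) *
          ((Ideal.absNorm I : ℝ) ^ r / (Ideal.absNorm I : ℝ) ^ n) := by
          ring
      _ ≤ (N8 + 1) * C * np Y ^ (n - r) * (1 / (Ideal.absNorm I : ℝ) ^ 2) := by
          apply mul_le_mul_of_nonneg_left _ (by positivity)
          rw [div_le_div_iff₀ (by positivity) (by positivity)]
          calc (Ideal.absNorm I : ℝ) ^ r * (Ideal.absNorm I : ℝ) ^ 2 =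
              (Ideal.absNorm I : ℝ) ^ (r + 2) := (pow_add _ _ _).symm
            _ ≤ (Ideal.absNorm I : ℝ) ^ n := pow_le_pow_right₀ hNI hn
            _ = 1 * (Ideal.absNorm I : ℝ) ^ n := by ring
  calc ∑ y ∈ S, ((mgN x y : ℝ) / np (fun w => dl w x y)) ^ r ≤
      ∑ y ∈ S, ((A * (mu / B)) ^ mK K) ^ r * ((Ideal.absNorm (mgI x y) : ℝ) ^ r *
        (1 / np (fun w => vn w (z y))) ^ r) := Finset.sum_le_sum hterm
    _ = ((A * (mu / B)) ^ mK K) ^ r * ∑ I ∈ S.image (mgI x),
        ∑ y ∈ S.filter (fun y => mgI x y = I),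
        ((Ideal.absNorm (mgI x y) : ℝ) ^ r * (1 / np (fun w => vn w (z y))) ^ r) := by
        rw [← Finset.mul_sum, Finset.sum_fiberwise_of_maps_to fun y hy =>
          Finset.mem_image_of_mem _ hy]
    _ ≤ ((A * (mu / B)) ^ mK K) ^ r * ∑ I ∈ S.image (mgI x),
        (N8 + 1) * C * np Y ^ (n - r) * (1 / (Ideal.absNorm I : ℝ) ^ 2) :=
        mul_le_mul_of_nonneg_left (Finset.sum_le_sum hideal) (by positivity)
    _ = ((A * (mu / B)) ^ mK K) ^ r * ((N8 + 1) * C * np Y ^ (n - r)) *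
        ∑ I ∈ S.image (mgI x), 1 / (Ideal.absNorm I : ℝ) ^ 2 := by
        rw [← Finset.mul_sum]
        ring
    _ ≤ ((A * (mu / B)) ^ mK K) ^ r * ((N8 + 1) * C * np Y ^ (n - r)) * E := by
        apply mul_le_mul_of_nonneg_left _ (by positivity)
        apply hE
        intro I hI
        obtain ⟨y, hy, h⟩ := Finset.mem_image.1 hI
        exact ⟨y, hy, h.symm⟩
    _ = (A ^ mK K) ^ r * (N8 + 1) * C * ((mu / B) ^ mK K) ^ r * np Y ^ (n - r) * E := by
        rw [mul_pow A, mul_pow (A ^ mK K)]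
        ring

theorem sum_bad (K : Type) [Field K] [NumberField K] (n r : ℕ) (hr : 1 ≤ r) (hn : r + 2 ≤ n)
    (hn2 : 2 * r ≤ n) :
    ∃ (C : ℝ) (E : ℕ → ℝ), 0 < C ∧ Tendsto E atTop (𝓝 0) ∧ (∀ G, 0 ≤ E G) ∧
    ∀ (R : ℝ), 1 ≤ R → ∀ B : ℕ, 1 ≤ B → ∀ x : Fin (n + 1) → 𝓞 K, Prim x →
    x ∈ Bx n (2 * (B : ℝ)) → (∀ w, ∃ i, (B : ℝ) / 2 ≤ ‖sg w (x i)‖) → Good R B x →
    ∀ G : ℕ, 1 ≤ G → ∀ tau : ℝ, 0 < tau → tau ≤ 1 →
    ∀ S : Finset (Fin (n + 1) → 𝓞 K),
    (∀ y ∈ S, y ∈ Bx n (2 * (B : ℝ)) ∧ mgI x y ≠ ⊥ ∧ BadPr G tau B x y) →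
      ∑ y ∈ S, ((mgN x y : ℝ) / np (fun w => dl w x y)) ^ r ≤
        C * R ^ (mK K * n) * (E G + tau) * (B : ℝ) ^ (mK K * (n + 1 - 2 * r)) := by
  classical
  obtain ⟨C, hC, key⟩ := sumBad_keyS K n r hr hn
  obtain ⟨Z, hZ, hideal⟩ := ideal_sum K
  set A : ℝ := 2 * ((n : ℝ) + 1) with hA
  have hA1 : 1 ≤ A := by
    have : (0 : ℝ) ≤ n := Nat.cast_nonneg _
    rw [hA]
    linarith
  have hA0 : 0 < A := by linarith
  set M : ℝ := (Fintype.card (InfinitePlace K) : ℝ) with hM
  have hM0 : 0 ≤ M := Nat.cast_nonneg _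
  refine ⟨C * A ^ (mK K * n) * (1 + M * Z), sumBad_E K, by positivity, sumBad_E_tendsto,
    sumBad_E_nonneg, ?_⟩
  intro R hR B hB x hx hx2 hxB hg G hG tau ht ht1 S hS
  obtain ⟨l, hl, hlx, hlmu⟩ := hg
  set mu : ℝ := R * (B : ℝ) ^ (1 / (n : ℝ)) with hmu
  have hB0 : (0 : ℝ) < B := by exact_mod_cast hB
  have hmu0 : 0 < mu := by positivity
  have hn0 : (n : ℝ) ≠ 0 := by
    have : n ≠ 0 := by omega
    exact_mod_cast this
  have hmun : mu ^ n = R ^ n * B := by
    rw [hmu, mul_pow, ← Real.rpow_natCast ((B : ℝ) ^ (1 / (n : ℝ))) n, ← Real.rpow_mul hB0.le,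
      one_div_mul_cancel hn0, Real.rpow_one]
  have hX0 : 0 < A * mu * B := by positivity
  -- the power of `mu`
  have hpow : ((mu / B) ^ mK K) ^ r * ((A * mu * B) ^ mK K) ^ (n - r) ≤
      A ^ (mK K * n) * R ^ (mK K * n) * (B : ℝ) ^ (mK K * (n + 1 - 2 * r)) := by
    obtain ⟨k, hk⟩ : ∃ k, n = 2 * r + k := ⟨n - 2 * r, by omega⟩
    have hk1 : n - r = r + k := by omega
    have hk2 : n + 1 - 2 * r = k + 1 := by omega
    have h1 : (mu / B) ^ r * (A * mu * B) ^ (n - r) =
        A ^ (n - r) * R ^ n * (B : ℝ) ^ (n + 1 - 2 * r) := by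
      have h2 : (mu / B) ^ r * (A * mu * B) ^ (n - r) =
          A ^ (n - r) * mu ^ n * (B : ℝ) ^ k * ((B : ℝ) ^ r / (B : ℝ) ^ r) := by
        rw [hk1, mul_pow, mul_pow, div_pow]
        have e1 : mu ^ n = mu ^ r * mu ^ (r + k) := by rw [← pow_add]; congr 1; omega
        have e2 : (B : ℝ) ^ (r + k) = (B : ℝ) ^ r * (B : ℝ) ^ k := pow_add _ _ _
        rw [e1, e2]
        ring
      rw [h2, hmun, div_self (pow_ne_zero _ hB0.ne'), hk2, pow_succ]
      ring
    have h2 : ((mu / B) ^ mK K) ^ r * ((A * mu * B) ^ mK K) ^ (n - r) =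
        ((mu / B) ^ r * (A * mu * B) ^ (n - r)) ^ mK K := by
      rw [mul_pow ((mu / B) ^ r) _ (mK K), ← pow_mul, ← pow_mul, ← pow_mul, ← pow_mul,
        mul_comm (mK K) (n - r), mul_comm (mK K) r]
    rw [h2, h1, mul_pow, mul_pow, ← pow_mul, ← pow_mul, ← pow_mul]
    have h3 : A ^ ((n - r) * mK K) ≤ A ^ (mK K * n) := by
      apply pow_le_pow_right₀ hA1
      rw [mul_comm]
      exact Nat.mul_le_mul_left _ (Nat.sub_le _ _)
    rw [mul_comm n (mK K), mul_comm (n + 1 - 2 * r) (mK K)]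
    have h4 : 0 ≤ R ^ (mK K * n) * (B : ℝ) ^ (mK K * (n + 1 - 2 * r)) := by positivity
    calc A ^ ((n - r) * mK K) * R ^ (mK K * n) * (B : ℝ) ^ (mK K * (n + 1 - 2 * r)) =
        A ^ ((n - r) * mK K) * (R ^ (mK K * n) * (B : ℝ) ^ (mK K * (n + 1 - 2 * r))) := by ring
      _ ≤ A ^ (mK K * n) * (R ^ (mK K * n) * (B : ℝ) ^ (mK K * (n + 1 - 2 * r))) :=
          mul_le_mul_of_nonneg_right h3 h4
      _ = _ := by ring
  set P : ℝ := A ^ (mK K * n) * R ^ (mK K * n) * (B : ℝ) ^ (mK K * (n + 1 - 2 * r)) with hP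
  have hP0 : 0 ≤ P := by positivity
  have hterm0 : ∀ y, 0 ≤ ((mgN x y : ℝ) / np (fun w => dl w x y)) ^ r := fun y =>
    pow_nonneg (div_nonneg (Nat.cast_nonneg _) (np_nonneg fun w => sumBad_dl_nonneg x y w)) r
  -- first part
  have hb1 : ∑ y ∈ S.filter (fun y => G < mgN x y), ((mgN x y : ℝ) / np (fun w => dl w x y)) ^ r ≤
      C * P * sumBad_E K G := by
    have h1 := key mu B hmu0 hB0 x hx hxB l hl hlx hlmu (S.filter (fun y => G < mgN x y))
      (fun y hy => ⟨(hS y (Finset.mem_filter.1 hy).1).1, (hS y (Finset.mem_filter.1 hy).1).2.1⟩)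
      (fun _ => A * mu * B) (fun _ => hX0)
      (fun y hy k w => sumBad_form_le' (l k) mu B hmu0.le w (fun i => hlmu k i w)
        (fun i => (hS y (Finset.mem_filter.1 hy).1).1 i w)) (sumBad_E K G) (by
        intro J hJ
        apply sumBad_le_E
        intro I hI
        obtain ⟨y, hy, rfl⟩ := hJ I hI
        exact (Finset.mem_filter.1 hy).2)
    refine h1.trans ?_
    apply mul_le_mul_of_nonneg_right _ (sumBad_E_nonneg G)
    rw [np_const, mul_assoc]
    exact mul_le_mul_of_nonneg_left hpow hC.le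
  -- second part
  have hb2 : ∀ w : InfinitePlace K, ∑ y ∈ S.filter (fun y => dl w x y < tau * (B : ℝ) ^ 2),
      ((mgN x y : ℝ) / np (fun w => dl w x y)) ^ r ≤ C * P * tau * Z := by
    intro w
    set Y : InfinitePlace K → ℝ := fun v => (A * mu * B) * (if v = w then tau else 1) with hY
    have h1 := key mu B hmu0 hB0 x hx hxB l hl hlx hlmu
      (S.filter (fun y => dl w x y < tau * (B : ℝ) ^ 2))
      (fun y hy => ⟨(hS y (Finset.mem_filter.1 hy).1).1, (hS y (Finset.mem_filter.1 hy).1).2.1⟩)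
      Y (by
        intro v
        rw [hY]
        dsimp only
        split_ifs <;> positivity)
      (by
        intro y hy k v
        rw [Finset.mem_filter] at hy
        rw [hY]
        dsimp only
        split_ifs with hv
        · subst hv
          refine (sumBad_form_le (l k) (hlx k) mu B hB0 hmu0.le v (fun i => hlmu k i v)
            (hxB v)).trans ?_
          calc 2 * ((n : ℝ) + 1) * mu / B * dl v x y ≤
              2 * ((n : ℝ) + 1) * mu / B * (tau * (B : ℝ) ^ 2) :=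
                mul_le_mul_of_nonneg_left hy.2.le (by positivity)
            _ = A * mu * B * tau := by
                rw [hA]
                field_simp
        · rw [mul_one]
          exact sumBad_form_le' (l k) mu B hmu0.le v (fun i => hlmu k i v)
            (fun i => (hS y hy.1).1 i v)) Z (by
        intro J hJ
        apply hideal
        intro I hI
        obtain ⟨y, hy, rfl⟩ := hJ I hI
        exact (hS y (Finset.mem_filter.1 hy).1).2.1)
    refine h1.trans ?_
    apply mul_le_mul_of_nonneg_right _ (by linarith)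
    have h2 : np Y = (A * mu * B) ^ mK K * tau ^ w.mult := by
      rw [hY, np_mul (fun _ => A * mu * B), np_const]
      congr 1
      unfold np
      rw [Finset.prod_eq_single w]
      · dsimp only
        rw [if_pos rfl]
      · intro v _ hv
        dsimp only
        rw [if_neg hv, one_pow]
      · intro h
        exact absurd (Finset.mem_univ w) h
    have h3 : np Y ^ (n - r) ≤ ((A * mu * B) ^ mK K) ^ (n - r) * tau := by
      rw [h2, mul_pow]
      apply mul_le_mul_of_nonneg_left _ (by positivity)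
      rw [← pow_mul]
      calc tau ^ (w.mult * (n - r)) ≤ tau ^ 1 := by
            apply pow_le_pow_of_le_one ht.le ht1
            have h4 := InfinitePlace.mult_pos (w := w)
            exact Nat.mul_pos h4 (by omega)
        _ = tau := pow_one _
    calc C * ((mu / B) ^ mK K) ^ r * np Y ^ (n - r) ≤
        C * ((mu / B) ^ mK K) ^ r * (((A * mu * B) ^ mK K) ^ (n - r) * tau) :=
          mul_le_mul_of_nonneg_left h3 (by positivity)
      _ = C * (((mu / B) ^ mK K) ^ r * ((A * mu * B) ^ mK K) ^ (n - r)) * tau := by ring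
      _ ≤ C * P * tau := by
          apply mul_le_mul_of_nonneg_right _ ht.le
          exact mul_le_mul_of_nonneg_left hpow hC.le
  -- assembling
  have hcover : ∑ y ∈ S, ((mgN x y : ℝ) / np (fun w => dl w x y)) ^ r ≤
      ∑ y ∈ S.filter (fun y => G < mgN x y), ((mgN x y : ℝ) / np (fun w => dl w x y)) ^ r +
      ∑ w : InfinitePlace K, ∑ y ∈ S.filter (fun y => dl w x y < tau * (B : ℝ) ^ 2),
        ((mgN x y : ℝ) / np (fun w => dl w x y)) ^ r := by
    simp only [Finset.sum_filter]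
    rw [Finset.sum_comm, ← Finset.sum_add_distrib]
    refine Finset.sum_le_sum fun y hy => ?_
    rcases (hS y hy).2.2 with h | ⟨w, hw⟩
    · rw [if_pos h]
      have : 0 ≤ ∑ w : InfinitePlace K, if dl w x y < tau * (B : ℝ) ^ 2 then
          ((mgN x y : ℝ) / np (fun w => dl w x y)) ^ r else 0 := by
        apply Finset.sum_nonneg
        intro w _
        split_ifs
        · exact hterm0 y
        · exact le_rfl
      linarith
    · have h1 : ((mgN x y : ℝ) / np (fun w => dl w x y)) ^ r ≤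
          ∑ w : InfinitePlace K, if dl w x y < tau * (B : ℝ) ^ 2 then
          ((mgN x y : ℝ) / np (fun w => dl w x y)) ^ r else 0 := by
        have h2 := Finset.single_le_sum (s := (univ : Finset (InfinitePlace K)))
          (f := fun w => if dl w x y < tau * (B : ℝ) ^ 2 then
          ((mgN x y : ℝ) / np (fun w => dl w x y)) ^ r else 0) (fun v _ => by
            split_ifs
            · exact hterm0 y
            · exact le_rfl) (Finset.mem_univ w)
        rw [if_pos hw] at h2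
        exact h2
      have h3 : 0 ≤ (if G < mgN x y then ((mgN x y : ℝ) / np (fun w => dl w x y)) ^ r else 0) := by
        split_ifs
        · exact hterm0 y
        · exact le_rfl
      linarith
  have hsumw : ∑ w : InfinitePlace K, ∑ y ∈ S.filter (fun y => dl w x y < tau * (B : ℝ) ^ 2),
        ((mgN x y : ℝ) / np (fun w => dl w x y)) ^ r ≤ M * (C * P * tau * Z) := by
    calc _ ≤ ∑ _w : InfinitePlace K, C * P * tau * Z := Finset.sum_le_sum fun w _ => hb2 w
      _ = M * (C * P * tau * Z) := by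
          rw [Finset.sum_const, Finset.card_univ, nsmul_eq_mul]
  have hE0 := sumBad_E_nonneg (K := K) G
  calc _ ≤ C * P * sumBad_E K G + M * (C * P * tau * Z) :=
        hcover.trans (add_le_add hb1 hsumw)
    _ ≤ (C * P * sumBad_E K G + M * (C * P * tau * Z)) +
        (C * P * tau + C * P * (M * Z) * sumBad_E K G) := by
        have h1 : 0 ≤ C * P * tau := by positivity
        have h2 : 0 ≤ C * P * (M * Z) * sumBad_E K G := by positivity
        linarith
    _ = C * A ^ (mK K * n) * (1 + M * Z) * R ^ (mK K * n) * (sumBad_E K G + tau) *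
        (B : ℝ) ^ (mK K * (n + 1 - 2 * r)) := by
        rw [hP]
        ring

end NKHP
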