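import Pool.Agent.Lib.MP_e426f4_ag.NK.Crude
import Pool.Agent.Lib.MP_e426f4_ag.NK.SumBad
import Pool.Agent.Lib.MP_e426f4_ag.N.Lat

/-!
NK-SecondBad: bad pairs. Templates: CI/SecondBad.lean, N/SecondBad.lean. crude_sys + sum_bad for each x in GG; #GG <= C B^(m(n+1)) (NFHP.lat_upper_vec, XX in Bx(2B)): total C X (E(G)+tau) [B^(2r) B^(n+1) B^(n+1-2r)/(H^(2r) B^(2 sum e))]^m = C X (E(G)+tau) (B^nu/H^r)^(2m) <= eps TT^2 X
(choose G, then tau; TT = const (B^nu/H^r)^m; nu + sum e = n+1; 2r <= n since 2r <= sum e <= n).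
-/

namespace NKHP

open NumberField GenHP NFHP Finset Filter Topology
open CIHP (Sys NS Jac nu Bf)

variable {K : Type} [Field K] [NumberField K] {n r : ℕ} {e : Fin r → ℕ}

/-- counting pairs by fibres -/
private theorem s2k_card_fib {α β : Type*} (T0 : Set (α × β)) (hT0 : T0.Finite) (T : Finset β)
    (hT : ∀ q ∈ T0, q.2 ∈ T) (N : β → Set α) (hN : ∀ b ∈ T, (N b).Finite)
    (hSN : ∀ q ∈ T0, q.1 ∈ N q.2) : (T0.ncard : ℝ) ≤ ∑ b ∈ T, ((N b).ncard : ℝ) := by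
  classical
  rw [Set.ncard_eq_toFinset_card _ hT0, Finset.card_eq_sum_card_fiberwise (f := fun q => q.2)
    (t := T) (fun q hq => hT q (by simpa using hq))]
  push_cast
  refine Finset.sum_le_sum fun b hb => ?_
  rw [Set.ncard_eq_toFinset_card _ (hN b hb)]
  refine Nat.cast_le.mpr (Finset.card_le_card_of_injOn (fun q => q.1) (fun q hq => ?_)
    (fun q hq q' hq' h => ?_))
  · simp only [Finset.coe_filter, Set.Finite.mem_toFinset, Set.mem_ofPred_eq] at hq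
    simp only [Set.Finite.coe_toFinset]
    rw [← hq.2]
    exact hSN q hq.1
  · simp only [Finset.coe_filter, Set.Finite.mem_toFinset, Set.mem_ofPred_eq] at hq hq'
    exact Prod.ext h (hq.2.trans hq'.2.symm)

/-- number of points in the box -/
private theorem s2k_card_Bx (K : Type) [Field K] [NumberField K] (n : ℕ) : ∃ C : ℝ, 0 < C ∧
    ∀ B : ℕ, 1 ≤ B → ((Bx n (2 * (B : ℝ)) : Set (Fin (n + 1) → 𝓞 K)).ncard : ℝ) ≤
      C * (B : ℝ) ^ (mK K * (n + 1)) := by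
  obtain ⟨C, hC, h⟩ := lat_upper_vec K
  refine ⟨(C * (2 ^ mK K + 1)) ^ (n + 1), by positivity, fun B hB => ?_⟩
  have hB1 : (1 : ℝ) ≤ B := by exact_mod_cast hB
  have h1 := (h (Fin (n + 1)) ⊤ top_ne_bot (fun _ => 2 * (B : ℝ)) (fun _ => by positivity)
    fun _ _ => 0).2
  have e : {a : Fin (n + 1) → 𝓞 K | (∀ i, a i ∈ (⊤ : Ideal (𝓞 K))) ∧
      ∀ i w, ‖sg w (a i) - (0 : ℂ)‖ ≤ 2 * (B : ℝ)} = Bx n (2 * (B : ℝ)) := by
    ext x
    simp only [Set.mem_ofPred_eq, Submodule.mem_top, implies_true, true_and, sub_zero, Bx]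
  rw [e, np_const, Ideal.absNorm_top, Nat.cast_one, div_one, Fintype.card_fin] at h1
  refine h1.trans ?_
  have h2 : (1 : ℝ) ≤ (B : ℝ) ^ mK K := one_le_pow₀ hB1
  have h3 : C * ((2 * (B : ℝ)) ^ mK K + 1) ≤ C * (2 ^ mK K + 1) * (B : ℝ) ^ mK K := by
    rw [mul_pow, mul_assoc]
    refine mul_le_mul_of_nonneg_left ?_ (by linarith)
    nlinarith
  calc (C * ((2 * (B : ℝ)) ^ mK K + 1)) ^ (n + 1)
      ≤ (C * (2 ^ mK K + 1) * (B : ℝ) ^ mK K) ^ (n + 1) :=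
        pow_le_pow_left₀ (by positivity) h3 _
    _ = _ := by rw [mul_pow, ← pow_mul]

/-- the powers of `B` and `H` -/
private theorem s2k_alg (m : ℕ) {B H : ℝ} (hB : 0 < B) (hH : 0 < H) {n r s v : ℕ}
    (h : 2 * r ≤ n + 1) (hs : v + s = n + 1) :
    B ^ (m * (n + 1)) * (B ^ (2 * r) / (H ^ (2 * r) * B ^ (2 * s))) ^ m *
      B ^ (m * (n + 1 - 2 * r)) = ((B ^ v / H ^ r) ^ m) ^ 2 := by
  rw [mul_comm m (n + 1), mul_comm m (n + 1 - 2 * r), pow_mul B (n + 1) m,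
    pow_mul B (n + 1 - 2 * r) m, ← mul_pow, ← mul_pow, ← pow_mul (B ^ v / H ^ r) m 2,
    mul_comm m 2, pow_mul (B ^ v / H ^ r) 2 m]
  congr 1
  have h1 : B ^ (n + 1) * B ^ (2 * r) * B ^ (n + 1 - 2 * r) = (B ^ v) ^ 2 * B ^ (2 * s) := by
    rw [← pow_add, ← pow_add, ← pow_mul, ← pow_add]
    congr 1
    omega
  have h2 : B ^ (n + 1) * (B ^ (2 * r) / (H ^ (2 * r) * B ^ (2 * s))) * B ^ (n + 1 - 2 * r) =
      (B ^ (n + 1) * B ^ (2 * r) * B ^ (n + 1 - 2 * r)) / (H ^ (2 * r) * B ^ (2 * s)) := by ring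
  rw [h2, h1, div_pow, ← pow_mul H, mul_comm r 2]
  have h7 : (H ^ (2 * r) : ℝ) ≠ 0 := by positivity
  have h8 : (B ^ (2 * s)) ≠ 0 := by positivity
  field_simp

/-- the constant of the expected number of points -/
private theorem s2k_TT (p : Par K n e) {eps k0 : ℝ} {w : ℕ} (hp : p.Valid eps k0 w) :
    ∃ a : ℝ, 0 < a ∧ ∀ H : ℝ, p.TT H = a * ((p.B H : ℝ) ^ nu n e / H ^ r) ^ mK K := by
  have hQ : (0 : ℝ) < p.Q := by exact_mod_cast hp.Q_pos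
  have hd := dens_pos p hp
  have hk := hp.kap_pos
  have hg := hp.vg_pos
  refine ⟨((2 * p.kap ^ 2) ^ (n + 1 - r) * (p.Q : ℝ) ^ r) ^ mK K * p.dens / p.vg,
    by positivity, ?_⟩
  intro H
  rw [Par.TT, mul_div_assoc, mul_pow]
  ring

theorem S2_bad (p : Par K n e) {eps k0 : ℝ} {w : ℕ} (hp : p.Valid eps k0 w) (R : ℝ)
    (hR : 1 ≤ R) :
    ∃ (G : ℕ) (tau : ℝ), 1 ≤ G ∧ 0 < tau ∧ tau ≤ 1 ∧ ∀ᶠ H : ℝ in atTop,
      ((p.TBad R G tau H).ncard : ℝ) ≤ eps * p.TT H ^ 2 * p.XR p.rho H := by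
  classical
  have hrho := hp.rho_pos
  have heps := hp.eps_pos
  have hrn : r ≤ n + 1 := by
    have := hp.n_ge
    omega
  have hr2 : 2 * r ≤ n := (CIHP.two_mul_r_le_sum e hp.e_ge).trans hp.sum_le
  obtain ⟨Cc, hCc, hcr⟩ := crude_sys p hp R hR
  obtain ⟨Cs, E, hCs, hE0, hE, hsum⟩ := sum_bad K n r hp.r_pos hp.n_ge hr2
  obtain ⟨a, ha, hTT⟩ := s2k_TT p hp
  obtain ⟨T, hT, hbx⟩ := s2k_card_Bx K n
  obtain ⟨cst, hcst⟩ : ∃ cst : ℝ, cst = Cc * (T * (Cs * R ^ (mK K * n))) := ⟨_, rfl⟩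
  have hcst0 : 0 < cst := by rw [hcst]; positivity
  obtain ⟨d, hd⟩ : ∃ d : ℝ, d = eps * a ^ 2 / cst := ⟨_, rfl⟩
  have hd0 : 0 < d := by rw [hd]; positivity
  obtain ⟨G, hG, hG1⟩ := ((hE0.eventually (ge_mem_nhds (half_pos hd0))).and
    (eventually_ge_atTop 1)).exists
  obtain ⟨tau, htau⟩ : ∃ tau : ℝ, tau = min 1 (d / 2) := ⟨_, rfl⟩
  have ht0 : 0 < tau := by rw [htau]; exact lt_min one_pos (by positivity)
  have ht1 : tau ≤ 1 := by rw [htau]; exact min_le_left _ _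
  have htd : tau ≤ d / 2 := by rw [htau]; exact min_le_right _ _
  refine ⟨G, tau, hG1, ht0, ht1, ?_⟩
  filter_upwards [(CIHP.Bf_atTop e hp.r_pos hp.sum_le p.C0 hp.C0_ge).eventually_ge_atTop 1,
    hcr, eventually_ge_atTop (1 : ℝ)] with H hB hcr hH
  change 1 ≤ p.B H at hB
  have hB1 : (1 : ℝ) ≤ p.B H := by exact_mod_cast hB
  have hB0 : (0 : ℝ) < p.B H := by linarith
  have hH0 : 0 < H := by linarith
  obtain ⟨B, hBd⟩ : ∃ B : ℕ, B = p.B H := ⟨_, rfl⟩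
  rw [← hBd] at hB hB1 hB0 hcr
  have hXR : 0 ≤ p.XR p.rho H := XR_nonneg p p.rho H hrho.le hH0.le
  obtain ⟨hb1, hb2⟩ := mem_XX_bounds p hp B
  obtain ⟨pw, hpw⟩ : ∃ pw : ℝ, pw = ((B : ℝ) ^ (2 * r) /
    (H ^ (2 * r) * (B : ℝ) ^ (2 * ∑ i, e i))) ^ mK K := ⟨_, rfl⟩
  have hpw0 : 0 ≤ pw := by rw [hpw]; positivity
  obtain ⟨bd, hbd⟩ : ∃ bd : ℝ, bd = Cc * p.XR p.rho H * pw := ⟨_, rfl⟩
  have hbd0 : 0 ≤ bd := by rw [hbd]; positivity
  obtain ⟨GF, hGF⟩ : ∃ GF, GF = (GG_finite hrn p R B).toFinset := ⟨_, rfl⟩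
  have hmem : ∀ x, x ∈ GF ↔ x ∈ p.GG R B := fun x => by rw [hGF, Set.Finite.mem_toFinset]
  have hGc : (GF.card : ℝ) ≤ T * (B : ℝ) ^ (mK K * (n + 1)) := by
    refine le_trans ?_ (hbx B hB)
    rw [← Set.ncard_coe_finset]
    refine Nat.cast_le.mpr (Set.ncard_le_ncard (fun x hx => ?_) (Bx_finite _))
    exact hb1 _ ((hmem x).1 hx).1
  have hcf := s2k_card_fib (p.TBad R G tau H) (TBad_finite hrn p R G tau H)
    ((GF ×ˢ GF).filter (fun b => mgI b.1 b.2 ≠ ⊥ ∧ BadPr G tau B b.1 b.2 ∧ b.1 ≠ b.2))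
    (by
      rintro ⟨A, x, y⟩ ⟨_, hx, hy, _, hne, hbad⟩
      simp only [← hBd] at hx hy hbad
      simp only [Finset.mem_filter, Finset.mem_product]
      exact ⟨⟨(hmem x).2 hx, (hmem y).2 hy⟩,
        mgI_ne_bot_of_mem_GG p hp R B hB x y hx hy hne, hbad, hne⟩)
    (fun b => {A : Sys n e (𝓞 K) | A ∈ p.Cl p.rho H ∧ ∀ i, F (A i) b.1 = 0 ∧ F (A i) b.2 = 0})
    (fun b _ => (Cl_finite p p.rho H).subset fun A hA => hA.1)
    (by
      rintro ⟨A, x, y⟩ ⟨hA, hx, hy, hF, hne, hbad⟩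
      exact ⟨hA, hF⟩)
  refine hcf.trans ?_
  have hb : ∀ b ∈ (GF ×ˢ GF).filter
      (fun b => mgI b.1 b.2 ≠ ⊥ ∧ BadPr G tau B b.1 b.2 ∧ b.1 ≠ b.2),
      (Set.ncard {A : Sys n e (𝓞 K) | A ∈ p.Cl p.rho H ∧
        ∀ i, F (A i) b.1 = 0 ∧ F (A i) b.2 = 0} : ℝ) ≤
      bd * ((mgN b.1 b.2 : ℝ) / np (fun w => dl w b.1 b.2)) ^ r := by
    rintro ⟨x, y⟩ hb
    simp only [Finset.mem_filter, Finset.mem_product] at hb
    obtain ⟨⟨hx, hy⟩, _, _, hne⟩ := hb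
    refine (hcr x y ((hmem x).1 hx) ((hmem y).1 hy) hne).trans (le_of_eq ?_)
    rw [hbd, hpw]
    ring
  refine (Finset.sum_le_sum hb).trans ?_
  rw [Finset.sum_filter, Finset.sum_product]
  have hx0 : ∀ x ∈ GF, ∑ y ∈ GF, (if mgI x y ≠ ⊥ ∧ BadPr G tau B x y ∧ x ≠ y then
        bd * ((mgN x y : ℝ) / np (fun w => dl w x y)) ^ r else 0) ≤
      bd * (Cs * R ^ (mK K * n) * (E G + tau) * (B : ℝ) ^ (mK K * (n + 1 - 2 * r))) := by
    intro x hx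
    have hx' := (hmem x).1 hx
    rw [← Finset.sum_filter, ← Finset.mul_sum]
    refine mul_le_mul_of_nonneg_left ?_ hbd0
    refine hsum R hR B hB x hx'.2.1 (hb1 _ hx'.1) (fun w' => ?_) hx'.2.2 G hG1 tau ht0 ht1 _ ?_
    · obtain ⟨i, hi⟩ := hb2 w'
      exact ⟨i, hi _ hx'.1⟩
    · intro y hy
      rw [Finset.mem_filter, hmem] at hy
      exact ⟨hb1 _ hy.1.1, hy.2.1, hy.2.2.1⟩
  refine (Finset.sum_le_card_nsmul _ _ _ hx0).trans ?_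
  rw [nsmul_eq_mul]
  have hz : cst * (E G + tau) ≤ eps * a ^ 2 := by
    have h5 : cst * d = eps * a ^ 2 := by
      rw [hd]
      field_simp
    rw [← h5]
    refine mul_le_mul_of_nonneg_left ?_ hcst0.le
    have h6 : E G ≤ d / 2 := hG
    linarith
  obtain ⟨z, hzd⟩ : ∃ z : ℝ, z = E G + tau := ⟨_, rfl⟩
  have hz0 : 0 ≤ z := by
    rw [hzd]
    exact add_nonneg (hE G) ht0.le
  rw [← hzd] at hz ⊢
  have hnu := s2k_alg (mK K) hB0 hH0 (n := n) (r := r) (s := ∑ i, e i) (v := nu n e)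
    (by omega) (by
      have h1 := hp.sum_le
      unfold nu
      omega)
  rw [← hpw] at hnu
  calc (GF.card : ℝ) * (bd * (Cs * R ^ (mK K * n) * z * (B : ℝ) ^ (mK K * (n + 1 - 2 * r))))
      ≤ (T * (B : ℝ) ^ (mK K * (n + 1))) *
        (bd * (Cs * R ^ (mK K * n) * z * (B : ℝ) ^ (mK K * (n + 1 - 2 * r)))) := by
        refine mul_le_mul_of_nonneg_right hGc ?_
        positivity
    _ = (cst * z) * p.XR p.rho H * ((B : ℝ) ^ (mK K * (n + 1)) * pw *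
        (B : ℝ) ^ (mK K * (n + 1 - 2 * r))) := by
        rw [hbd, hcst]
        ring
    _ = (cst * z) * p.XR p.rho H * (((B : ℝ) ^ nu n e / H ^ r) ^ mK K) ^ 2 := by
        rw [hnu]
    _ ≤ (eps * a ^ 2) * p.XR p.rho H * (((B : ℝ) ^ nu n e / H ^ r) ^ mK K) ^ 2 := by gcongr
    _ = eps * p.TT H ^ 2 * p.XR p.rho H := by
        rw [hTT H, ← hBd]
        ring

end NKHP
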