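import Pool.Agent.Lib.MP_e426f4_ag.NK.Defs
import Pool.Agent.Lib.MP_e426f4_ag.N.Minors
import Pool.Agent.Lib.MP_e426f4_ag.N.ShortTwo

/-!
NK-ShortFine: short vectors for a fine pair. Templates: N/ShortTwo.lean (short_pair) with the spanning family g_q of FineD instead of span_pair, CI/ShortFine.lean. At each place complex solution t_w with F t_w x = 0, F t_w y = s, |t_w| <= c3 |s|_w/(B^(d-2) dl_w) (as in N/ShortTwo; real at real places);
integral solution t_0 (NFHP.exists_vec_mg); t_0 - t_w = sum c_q(w) g_q at each place, RV (real parts at real places), round c_q to a_q in O with error <= cK (NFHP.exists_round): t = t_0 - sum a_q g_q, |t - t_w|_w <= sum cK |g_q|_w <= cK E.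
-/

namespace NKHP

open NumberField GenHP NFHP Finset Filter Topology
open CIHP (Sys NS Jac nu Bf)

private theorem sf_three_le_card {n d : ℕ} (hd : 2 ≤ d) (i0 j : Fin (n + 1)) (h : j ≠ i0) :
    3 ≤ Fintype.card (Idx n d) := by
  obtain ⟨e, rfl⟩ : ∃ e, d = e + 2 := ⟨d - 2, by omega⟩
  obtain ⟨m1, hm1⟩ : ∃ m1 : Idx n (e + 2), m1 = mk fun _ => i0 := ⟨_, rfl⟩
  obtain ⟨m2, hm2⟩ : ∃ m2 : Idx n (e + 2),
    m2 = mk (Fin.cons j fun _ => i0 : Fin (e + 1 + 1) → Fin (n + 1)) := ⟨_, rfl⟩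
  obtain ⟨m3, hm3⟩ : ∃ m3 : Idx n (e + 2), m3 = mk fun _ => j := ⟨_, rfl⟩
  have h12 : m1 ≠ m2 := by
    rw [hm1, hm2]
    exact (mk_cons_ne i0 j h).symm
  have h13 : m1 ≠ m3 := by
    intro h0
    have h1 := congrArg (fun m : Idx n (e + 2) => mon (fun i => if i = j then (0 : ℤ) else 1) m.1) h0
    rw [hm1, hm3] at h1
    simp only [mon_mk] at h1
    simp [h.symm] at h1
  have h23 : m2 ≠ m3 := by
    intro h0
    have h1 := congrArg (fun m : Idx n (e + 2) => mon (fun i => if i = i0 then (0 : ℤ) else 1) m.1) h0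
    rw [hm2, hm3] at h1
    simp only [mon_mk] at h1
    rw [Fin.prod_univ_succ] at h1
    simp [h] at h1
  classical
  calc 3 = ({m1, m2, m3} : Finset (Idx n (e + 2))).card := by
        rw [Finset.card_insert_of_notMem (by simp [h12, h13]),
          Finset.card_insert_of_notMem (by simp [h23]), Finset.card_singleton]
    _ ≤ Fintype.card (Idx n (e + 2)) := Finset.card_le_univ _

private theorem sf_nonneg {K : Type} [Field K] [NumberField K] {n d : ℕ} (hd : 2 ≤ d) (E : ℝ)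
    (x y : Fin (n + 1) → 𝓞 K) (hf : FineD n d E x y) (h : mgI x y ≠ ⊥) : 0 ≤ E := by
  obtain ⟨m, g, hg0, hgm, hgs⟩ := hf
  obtain ⟨w⟩ : Nonempty (InfinitePlace K) := inferInstance
  by_contra hE
  push Not at hE
  obtain ⟨a, b, hab⟩ : ∃ a b, minor x y a b ≠ 0 := by
    by_contra hcon
    push Not at hcon
    apply h
    unfold mgI
    rw [Ideal.span_eq_bot]
    rintro _ ⟨p, rfl⟩
    exact hcon p.1 p.2
  have hm : m = 0 := by
    by_contra hm
    obtain ⟨q⟩ : Nonempty (Fin m) := ⟨⟨0, by omega⟩⟩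
    have hne : Nonempty (Idx n d) := ⟨mk fun _ => a⟩
    obtain ⟨t⟩ := hne
    have h1 := hgm q t w
    have h2 : 0 ≤ (m : ℝ) * ‖sg w (g q t)‖ := by positivity
    linarith
  subst hm
  have hab' : a ≠ b := by
    rintro rfl
    exact hab (by simp [NFHP.minor, mul_comm])
  have hcard := sf_three_le_card (d := d) hd a b hab'.symm
  let φ : (Idx n d → ℂ) →ₗ[ℂ] (Fin 2 → ℂ) :=
    { toFun := fun A => ![F A (fun i => sg w (x i)), F A (fun i => sg w (y i))]
      map_add' := by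
        intro A A'
        have e1 : ∀ z, F (A + A') z = F A z + F A' z := fun z => F_add A A' z
        rw [e1, e1]
        ext i
        fin_cases i <;> simp
      map_smul' := by
        intro c A
        have e1 : ∀ z, F (c • A) z = c * F A z := fun z => F_smul c A z
        rw [e1, e1]
        ext i
        fin_cases i <;> simp }
  have hker : LinearMap.ker φ ≠ ⊥ := by
    refine LinearMap.ker_ne_bot_of_finrank_lt ?_
    rw [Module.finrank_fintype_fun_eq_card, Module.finrank_fintype_fun_eq_card, Fintype.card_fin]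
    omega
  obtain ⟨A, hA, hA0⟩ := (Submodule.ne_bot_iff _).mp hker
  rw [LinearMap.mem_ker] at hA
  have hx0 : F A (fun i => sg w (x i)) = 0 := by
    have := congrFun hA 0
    simpa [φ] using this
  have hy0 : F A (fun i => sg w (y i)) = 0 := by
    have := congrFun hA 1
    simpa [φ] using this
  obtain ⟨c, hc⟩ := hgs w A hx0 hy0
  apply hA0
  funext t
  rw [hc t]
  simp

theorem short_fine {K : Type} [Field K] [NumberField K] {n d : ℕ} (hd : 2 ≤ d) (B : ℕ)
    (hB : 1 ≤ B) (x y : Fin (n + 1) → 𝓞 K) (hx : Prim x) (hy : Prim y) (E : ℝ)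
    (hf : FineD n d E x y)
    (hi : ∀ w, ∃ i, (B : ℝ) / 2 ≤ ‖sg w (x i)‖ ∧ (B : ℝ) / 2 ≤ ‖sg w (y i)‖)
    (hx2 : x ∈ Bx n (2 * (B : ℝ))) (hy2 : y ∈ Bx n (2 * (B : ℝ)))
    (h : mgI x y ≠ ⊥) (s : 𝓞 K) (hs : s ∈ mgI x y) :
    ∃ t : Idx n d → 𝓞 K, F t x = 0 ∧ F t y = s ∧
      ∀ m w, ‖sg w (t m)‖ ≤ c3 n d * ‖sg w s‖ / ((B : ℝ) ^ (d - 2) * dl w x y) + cK K * E := by
  have hE := sf_nonneg hd E x y hf h
  obtain ⟨N, g, hg0, hgm', hgs⟩ := hf
  obtain ⟨b, hgm, hmb⟩ : ∃ b : ℝ, (∀ q t (w : InfinitePlace K), ‖sg w (g q t)‖ ≤ b) ∧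
      (N : ℝ) * b ≤ E := by
    rcases Nat.eq_zero_or_pos N with hm | hm
    · subst hm
      exact ⟨0, fun q => q.elim0, by simpa using hE⟩
    · have hm' : (0 : ℝ) < N := by exact_mod_cast hm
      refine ⟨E / N, fun q t w => ?_, by field_simp; exact le_rfl⟩
      rw [le_div_iff₀ hm', mul_comm]
      exact hgm' q t w
  have hBpos : (0 : ℝ) < B := by exact_mod_cast hB
  have hdpos : ∀ w, 0 < dl w x y := fun w => dl_pos x y h w
  choose i0 hi0 hi0' using hi
  have hy0 : ∀ w, sg w (y (i0 w)) ≠ 0 := by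
    intro w h
    have := hi0' w
    rw [h, norm_zero] at this
    linarith
  choose j hj using fun w => exists_large_minorK B hB x y w (i0 w) (hi0 w) (fun i => hx2 i w)
  obtain ⟨t1, ht1x, ht1y⟩ := exists_vec_mg (d := d) (by omega) x y hy s hs
  obtain ⟨e, rfl⟩ : ∃ e, d = e + 2 := ⟨d - 2, by omega⟩
  -- the real solution
  set δ : InfinitePlace K → ℂ := fun w => sg w (minor x y (i0 w) (j w)) with hδ
  have hδ0 : ∀ w, δ w ≠ 0 := by
    intro w h
    have h1 := hj w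
    have h2 : ‖sg w (minor x y (i0 w) (j w))‖ = 0 := by
      have : sg w (minor x y (i0 w) (j w)) = 0 := h
      rw [this, norm_zero]
    rw [h2, mul_zero] at h1
    linarith [hdpos w]
  have hji : ∀ w, j w ≠ i0 w := by
    intro w h
    apply hδ0 w
    simp only [hδ, h, NFHP.minor, sub_self, map_zero]
  have hδe : ∀ w, δ w = sg w (x (i0 w)) * sg w (y (j w)) - sg w (x (j w)) * sg w (y (i0 w)) := by
    intro w
    simp only [hδ, NFHP.minor, map_sub, map_mul]
  let m1 : InfinitePlace K → Idx n (e + 2) := fun w => mk fun _ => i0 w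
  let m2 : InfinitePlace K → Idx n (e + 2) := fun w =>
    mk (Fin.cons (j w) fun _ => i0 w : Fin (e + 1 + 1) → Fin (n + 1))
  have hm12 : ∀ w, m2 w ≠ m1 w := fun w => mk_cons_ne (i0 w) (j w) (hji w)
  let tR : Idx n (e + 2) → InfinitePlace K → ℂ := fun m w =>
    sg w s / ((sg w (y (i0 w))) ^ (e + 1) * δ w) *
    ((Pi.single (m2 w) (sg w (x (i0 w))) : Idx n (e + 2) → ℂ) m
      - (Pi.single (m1 w) (sg w (x (j w))) : Idx n (e + 2) → ℂ) m)
  have htRV : ∀ m, RV (tR m) := by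
    intro m w hw
    have h1 : RV fun w' => sg w' s / ((sg w' (y (i0 w))) ^ (e + 1) *
        sg w' (minor x y (i0 w) (j w))) *
      ((Pi.single (m2 w) (sg w' (x (i0 w))) : Idx n (e + 2) → ℂ) m
      - (Pi.single (m1 w) (sg w' (x (j w))) : Idx n (e + 2) → ℂ) m) :=
      RV_mul (RV_div (RV_sg s) (RV_mul (RV_pow (RV_sg _) _) (RV_sg _)))
        (RV_sub (RV_single _ (RV_sg _) m) (RV_single _ (RV_sg _) m))
    exact h1 w hw
  have hFR : ∀ w, ∀ z : Fin (n + 1) → ℂ, F (fun m => tR m w) z =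
      sg w s / ((sg w (y (i0 w))) ^ (e + 1) * δ w) *
      (sg w (x (i0 w)) * (z (j w) * z (i0 w) ^ (e + 1)) - sg w (x (j w)) * (z (i0 w) ^ (e + 2))) := by
    intro w z
    have h0 : (fun m => tR m w) = fun m => sg w s / ((sg w (y (i0 w))) ^ (e + 1) * δ w) *
      ((Pi.single (m2 w) (sg w (x (i0 w))) : Idx n (e + 2) → ℂ) m
      - (Pi.single (m1 w) (sg w (x (j w))) : Idx n (e + 2) → ℂ) m) := rfl
    rw [h0, F_smul]
    congr 1
    have h3 : F (fun m => (Pi.single (m2 w) (sg w (x (i0 w))) : Idx n (e + 2) → ℂ) m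
      - (Pi.single (m1 w) (sg w (x (j w))) : Idx n (e + 2) → ℂ) m) z =
      F (Pi.single (m2 w) (sg w (x (i0 w))) : Idx n (e + 2) → ℂ) z
        - F (Pi.single (m1 w) (sg w (x (j w))) : Idx n (e + 2) → ℂ) z := by
      simp only [F, sub_mul, Finset.sum_sub_distrib]
    rw [h3, F_single, F_single, mon_mk, mon_mk, Fin.prod_univ_succ]
    simp
  have hRx : ∀ w, F (fun m => tR m w) (fun i => sg w (x i)) = 0 := by
    intro w
    rw [hFR]
    ring
  have hRy : ∀ w, F (fun m => tR m w) (fun i => sg w (y i)) = sg w s := by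
    intro w
    rw [hFR]
    have h1 : sg w (x (i0 w)) * (sg w (y (j w)) * sg w (y (i0 w)) ^ (e + 1)) -
        sg w (x (j w)) * (sg w (y (i0 w)) ^ (e + 2)) =
        sg w (y (i0 w)) ^ (e + 1) * δ w := by
      rw [hδe]
      ring
    rw [h1]
    have := hy0 w
    have := hδ0 w
    field_simp
  obtain ⟨t, ht1, ht2⟩ := round_familyK g b hgm t1 tR htRV
    (fun w => by
      refine hgs w _ ?_ ?_
      · rw [F_sg_sub, hRx, ht1x, map_zero, sub_zero]
      · rw [F_sg_sub, hRy, ht1y, sub_self])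
  refine ⟨t, ?_, ?_, fun m w => (ht2 m w).trans ?_⟩
  · rw [ht1 x (fun q => (hg0 q).1), ht1x]
  · rw [ht1 y (fun q => (hg0 q).2), ht1y]
  · have h1 : ‖tR m w‖ ≤ c3 n (e + 2) * ‖sg w s‖ / ((B : ℝ) ^ (e + 2 - 2) * dl w x y) := by
      change ‖sg w s / ((sg w (y (i0 w))) ^ (e + 1) * δ w) *
        ((Pi.single (m2 w) (sg w (x (i0 w))) : Idx n (e + 2) → ℂ) m
        - (Pi.single (m1 w) (sg w (x (j w))) : Idx n (e + 2) → ℂ) m)‖ ≤ _
      rw [norm_mul, norm_div, norm_mul, norm_pow]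
      have h2 : ‖(Pi.single (m2 w) (sg w (x (i0 w))) : Idx n (e + 2) → ℂ) m
          - (Pi.single (m1 w) (sg w (x (j w))) : Idx n (e + 2) → ℂ) m‖ ≤ 2 * B := by
        by_cases h3 : m = m1 w
        · subst h3
          rw [Pi.single_eq_of_ne (hm12 w).symm, Pi.single_eq_same, zero_sub, norm_neg]
          exact hx2 _ w
        · rw [Pi.single_eq_of_ne h3, sub_zero]
          by_cases h4 : m = m2 w
          · subst h4
            rw [Pi.single_eq_same]
            exact hx2 _ w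
          · rw [Pi.single_eq_of_ne h4, norm_zero]
            positivity
      have h3 : (B : ℝ) ^ (e + 1) ≤ 2 ^ (e + 1) * ‖sg w (y (i0 w))‖ ^ (e + 1) := by
        rw [← mul_pow]
        have := hi0' w
        gcongr
        linarith
      have hy0' : 0 < ‖sg w (y (i0 w))‖ := norm_pos_iff.mpr (hy0 w)
      have hδ' : 0 < ‖δ w‖ := norm_pos_iff.mpr (hδ0 w)
      have hdp := hdpos w
      have hjw : dl w x y ≤ 8 * ((n : ℝ) + 1) ^ 2 * ‖δ w‖ := hj w
      rw [show e + 2 - 2 = e by omega, c3]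
      calc ‖sg w s‖ / (‖sg w (y (i0 w))‖ ^ (e + 1) * ‖δ w‖) *
            ‖(Pi.single (m2 w) (sg w (x (i0 w))) : Idx n (e + 2) → ℂ) m
              - (Pi.single (m1 w) (sg w (x (j w))) : Idx n (e + 2) → ℂ) m‖
          ≤ ‖sg w s‖ / (‖sg w (y (i0 w))‖ ^ (e + 1) * ‖δ w‖) * (2 * B) := by gcongr
        _ = ‖sg w s‖ * (2 * B) / (‖sg w (y (i0 w))‖ ^ (e + 1) * ‖δ w‖) := by ring
        _ ≤ 2 ^ (e + 2 + 3) * ((n : ℝ) + 1) ^ 2 * ‖sg w s‖ / ((B : ℝ) ^ e * dl w x y) := by
            rw [div_le_div_iff₀ (by positivity) (by positivity)]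
            have h5 : (B : ℝ) ^ (e + 1) * dl w x y ≤
                2 ^ (e + 1) * ‖sg w (y (i0 w))‖ ^ (e + 1) * (8 * ((n : ℝ) + 1) ^ 2 * ‖δ w‖) :=
              mul_le_mul h3 hjw hdp.le (by positivity)
            calc ‖sg w s‖ * (2 * B) * ((B : ℝ) ^ e * dl w x y)
                = 2 * ‖sg w s‖ * ((B : ℝ) ^ (e + 1) * dl w x y) := by ring
              _ ≤ 2 * ‖sg w s‖ * (2 ^ (e + 1) * ‖sg w (y (i0 w))‖ ^ (e + 1) *
                  (8 * ((n : ℝ) + 1) ^ 2 * ‖δ w‖)) := by gcongr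
              _ = 2 ^ (e + 2 + 3) * ((n : ℝ) + 1) ^ 2 * ‖sg w s‖ *
                  (‖sg w (y (i0 w))‖ ^ (e + 1) * ‖δ w‖) := by ring
    have h2 : (Fintype.card (Fin N) : ℝ) * (cK K * b) ≤ cK K * E := by
      rw [Fintype.card_fin]
      calc (N : ℝ) * (cK K * b) = cK K * (N * b) := by ring
        _ ≤ cK K * E := mul_le_mul_of_nonneg_left hmb cK_pos.le
    linarith

end NKHP
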