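import Pool.Agent.Lib.MP_e426f4_ag.NK.Points
import Pool.Agent.Lib.MP_e426f4_ag.NK.Heights
import Pool.Agent.Lib.MP_e426f4_ag.NK.Const
import Pool.Agent.Lib.MP_e426f4_ag.NK.ShortFine

/-!
NK-TransPair: translation inequality for pairs of points. Templates: CI/TransPair.lean, N/TransPair.lean. mgI x y = q qW with q coprime to W and W^G in qW (the norm of mgI is <= G); levels s_i in (W^s) q, CIn (th H B^(e i)): s_i in Q mgI since Q W^G | W^s. t_i = Q t'_i, t'_i from short_fine (E = eps1 H) with s_i/Q: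
|t_i|_w <= c3 n (e i) |s_i|_w/(B^(e i - 2) dl_w) + Q cK eps1 H <= c3 n n cK th H/tau + Q cK eps1 H (dl_w >= tau B^2), coordinates <= cK times that <= c5 th H/tau (he2, tau <= 1). The translates A + t(s) of the systems through x, y by all vectors of levels are distinct (F (A i + t_i) y = s_i).
-/

set_option linter.unusedVariables false

namespace NKHP

open NumberField GenHP NFHP Finset Filter Topology
open CIHP (Sys NS Jac nu Bf)

variable {K : Type} [Field K] [NumberField K] {n r : ℕ} {e : Fin r → ℕ}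

/-- the part of an ideal which is coprime to `W` -/
private theorem cofactorI (W G : ℕ) (hW : 0 < W) (I : Ideal (𝓞 K)) (hI : I ≠ ⊥)
    (hIG : Ideal.absNorm I ≤ G) :
    ∃ q : Ideal (𝓞 K), q ≠ ⊥ ∧ I ≤ q ∧ Ideal.absNorm q ≤ G ∧
      IsCoprime q (Ideal.span {(W : 𝓞 K)}) ∧ ∀ a ∈ q, (W : 𝓞 K) ^ G * a ∈ I := by
  have hW0 : (W : 𝓞 K) ≠ 0 := by exact_mod_cast hW.ne'
  set g : Ideal (𝓞 K) := I ⊔ Ideal.span {(W : 𝓞 K) ^ G} with hg
  have hgI : g ∣ I := Ideal.dvd_iff_le.mpr le_sup_left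
  have hgW : g ∣ Ideal.span {(W : 𝓞 K) ^ G} := Ideal.dvd_iff_le.mpr le_sup_right
  obtain ⟨q, hq⟩ := hgI
  have hg0 : g ≠ ⊥ := fun h => hI (by rw [hq, h, Ideal.bot_mul])
  have hq0 : q ≠ ⊥ := fun h => hI (by rw [hq, h, Ideal.mul_bot])
  have hIq : I ≤ q := by
    rw [hq]
    exact Ideal.mul_le_right
  have hqn : Ideal.absNorm q ≤ G :=
    (Nat.le_of_dvd (absNorm_pos hI) (Ideal.absNorm_dvd_absNorm_of_le hIq)).trans hIG
  refine ⟨q, hq0, hIq, hqn, ?_, ?_⟩
  · by_contra hne
    rw [Ideal.isCoprime_iff_sup_eq] at hne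
    obtain ⟨P, hP, hPle⟩ := Ideal.exists_le_maximal _ hne
    have hPq : P ∣ q := Ideal.dvd_iff_le.mpr (le_sup_left.trans hPle)
    have hPW : P ∣ Ideal.span {(W : 𝓞 K)} := Ideal.dvd_iff_le.mpr (le_sup_right.trans hPle)
    have hP0 : P ≠ ⊥ := by
      rintro rfl
      have := Ideal.dvd_iff_le.mp hPW
      rw [le_bot_iff, Ideal.span_singleton_eq_bot] at this
      exact hW0 this
    have hPp : Prime P := Ideal.prime_of_isPrime hP0 hP.isPrime
    have hfin : FiniteMultiplicity P I := FiniteMultiplicity.of_prime_left hPp hI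
    obtain ⟨J, hJ, hPJ⟩ := hfin.exists_eq_pow_mul_and_not_dvd
    set e := multiplicity P I with he
    -- e < G
    have hN2 : 2 ≤ Ideal.absNorm P := by
      have h1 : Ideal.absNorm P ≠ 1 := fun h => hP.ne_top (Ideal.absNorm_eq_one_iff.mp h)
      have h2 : 0 < Ideal.absNorm P := absNorm_pos hP0
      omega
    have he1 : e < G := by
      have h1 : e < 2 ^ e := Nat.lt_two_pow_self
      have h2 : 2 ^ e ≤ Ideal.absNorm P ^ e := Nat.pow_le_pow_left hN2 e
      have h3 : Ideal.absNorm P ^ e ≤ Ideal.absNorm I := by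
        refine Nat.le_of_dvd (absNorm_pos hI) ?_
        rw [← map_pow]
        exact Ideal.absNorm_dvd_absNorm_of_le (by rw [hJ]; exact Ideal.mul_le_left)
      omega
    have h1 : P ^ e ∣ g := by
      rw [hg]
      rw [Ideal.dvd_iff_le]
      refine sup_le ?_ ?_
      · rw [hJ]; exact Ideal.mul_le_left
      · rw [← Ideal.dvd_iff_le, ← Ideal.span_singleton_pow]
        exact (pow_dvd_pow P he1.le).trans (pow_dvd_pow_of_dvd hPW G)
    have h2 : P ^ e * P ∣ P ^ e * J := by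
      rw [← hJ, hq]
      exact mul_dvd_mul h1 hPq
    have h3 : P ∣ J := (mul_dvd_mul_iff_left (pow_ne_zero e hP0)).mp h2
    exact hPJ h3
  · intro a ha
    rw [hq]
    exact Ideal.mul_mem_mul (by rw [hg]; exact Ideal.mem_sup_right (Ideal.mem_span_singleton_self _)) ha

theorem trans_pair (p : Par K n e) {eps k0 : ℝ} {w : ℕ} (hp : p.Valid eps k0 w) (R : ℝ)
    (hR : 1 ≤ R) (G : ℕ) (hG : 1 ≤ G) (tau : ℝ) (ht : 0 < tau) (ht1 : tau ≤ 1) (th : ℝ)
    (hth : 0 < th) (s : ℕ) (hs : p.Q * p.W ^ G ∣ p.W ^ s) (eps1 : ℝ) (he1 : 0 < eps1)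
    (he2 : p.Q * cK K ^ 2 * eps1 ≤ th) :
    ∀ᶠ H : ℝ in atTop, ∀ x y : Fin (n + 1) → 𝓞 K, x ∈ p.GG R (p.B H) →
      y ∈ p.GG R (p.B H) → x ≠ y → ¬ BadPr G tau (p.B H) x y → Fine n e (eps1 * H) x y →
      ∃ q : Ideal (𝓞 K), q ≠ ⊥ ∧ mgI x y ≤ q ∧ Ideal.absNorm q ≤ G ∧
        IsCoprime q (Ideal.span {(p.W : 𝓞 K)}) ∧
        p.Lev th (Ideal.span {(p.W : 𝓞 K) ^ s} * q) H *
          (Set.ncard {A : Sys n e (𝓞 K) | A ∈ p.Cl p.rho H ∧
            ∀ i, F (A i) x = 0 ∧ F (A i) y = 0} : ℝ) ≤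
          (Set.ncard {A : Sys n e (𝓞 K) | A ∈ p.Cl (p.rho + c5 K n * (th / tau)) H ∧
            ∀ i, F (A i) x = 0 ∧ (p.W : 𝓞 K) ^ s ∣ F (A i) y ∧
            CIn (th * H * (p.B H : ℝ) ^ e i) (F (A i) y)} : ℝ) := by
  have hQpos : (0 : ℝ) < p.Q := by exact_mod_cast hp.Q_pos
  have hWpos : 0 < p.W := hp.W_pos
  have hnpos : (0 : ℝ) < n := by
    have h1 := hp.n_ge
    have : 0 < n := by omega
    exact_mod_cast this
  have hcK := cK_pos (K := K)
  have hBH := (CIHP.Bf_atTop e hp.r_pos hp.sum_le p.C0 hp.C0_ge).eventually_ge_atTop 1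
  filter_upwards [hBH, Filter.eventually_gt_atTop 0] with H hBpos hHpos
  intro x y hx hy hxy hbad hfine
  have hBpos : 1 ≤ p.B H := hBpos
  set B := p.B H with hB
  have hBpos' : (0 : ℝ) < B := by
    have : 0 < B := by omega
    exact_mod_cast this
  have hmg : mgI x y ≠ ⊥ := mgI_ne_bot_of_mem_GG p hp R B hBpos x y hx hy hxy
  unfold BadPr at hbad
  push Not at hbad
  obtain ⟨hmG, hdl⟩ := hbad
  obtain ⟨q, hq0, hqm, hqG, hqW, hqmem⟩ := cofactorI p.W G hWpos (mgI x y) hmg hmG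
  refine ⟨q, hq0, hqm, hqG, hqW, ?_⟩
  obtain ⟨hbx1, hbx2⟩ := mem_XX_bounds p hp B
  obtain ⟨u, hu⟩ := hs
  -- translation vectors
  have hex : ∀ (i : Fin r) (l : 𝓞 K), l ∈ Ideal.span {(p.W : 𝓞 K) ^ s} * q →
      CIn (th * H * (B : ℝ) ^ e i) l → ∃ t : Idx n (e i) → 𝓞 K, F t x = 0 ∧ F t y = l ∧
      (∀ m, (p.Q : 𝓞 K) ∣ t m) ∧ ∀ m j, |(crd (t m) j : ℝ)| ≤ c5 K n * (th / tau) * H := by
    intro i l hl hlV
    have hei2 := hp.e_ge i
    have hein : e i ≤ n :=
      (Finset.single_le_sum (f := e) (fun _ _ => Nat.zero_le _) (Finset.mem_univ i)).trans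
        hp.sum_le
    have hBd : (B : ℝ) ^ e i = (B : ℝ) ^ (e i - 2) * (B : ℝ) ^ 2 := by
      rw [← pow_add]
      congr 1
      omega
    have hc3 : 0 ≤ c3 n (e i) := by
      unfold c3
      positivity
    obtain ⟨a, haq, hal⟩ := Ideal.mem_span_singleton_mul.mp hl
    have hWs : (p.W : 𝓞 K) ^ s = (p.Q : 𝓞 K) * ((p.W : 𝓞 K) ^ G * u) := by
      have : ((p.W ^ s : ℕ) : 𝓞 K) = ((p.Q * p.W ^ G * u : ℕ) : 𝓞 K) := by rw [hu]
      push_cast at this
      rw [this]
      ring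
    have hlQ : l = (p.Q : 𝓞 K) * ((u : 𝓞 K) * ((p.W : 𝓞 K) ^ G * a)) := by
      rw [← hal, hWs]
      ring
    have hmem : (u : 𝓞 K) * ((p.W : 𝓞 K) ^ G * a) ∈ mgI x y :=
      Ideal.mul_mem_left _ _ (hqmem a haq)
    obtain ⟨t, ht0, hts, htb⟩ := short_fine hei2 B hBpos x y hx.2.1 hy.2.1 (eps1 * H) (hfine i)
      (fun w' => by
        obtain ⟨i, hi⟩ := hbx2 w'
        exact ⟨i, hi x hx.1, hi y hy.1⟩) (hbx1 x hx.1) (hbx1 y hy.1) hmg _ hmem
    refine ⟨fun m => (p.Q : 𝓞 K) * t m, ?_, ?_, fun m => Dvd.intro _ rfl, ?_⟩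
    · rw [F_smul, ht0, mul_zero]
    · rw [F_smul, hts, hlQ]
    · intro m j
      have hkey : ∀ w', ‖sg w' ((p.Q : 𝓞 K) * t m)‖ ≤
          c3 n n * cK K * (th / tau) * H + th / tau * H / cK K := by
        intro w'
        have h5 := htb m w'
        have hdlw : tau * (B : ℝ) ^ 2 ≤ dl w' x y := hdl w'
        have hdlpos : 0 < dl w' x y := lt_of_lt_of_le (by positivity) hdlw
        have hlw := CIn_norm hlV w'
        rw [map_mul, norm_mul, sg_natCast, Complex.norm_natCast]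
        set v : 𝓞 K := (u : 𝓞 K) * ((p.W : 𝓞 K) ^ G * a) with hv
        have hlv : ‖sg w' l‖ = p.Q * ‖sg w' v‖ := by
          rw [hlQ, map_mul, norm_mul, sg_natCast, Complex.norm_natCast]
        have h6 : (p.Q : ℝ) * ‖sg w' (t m)‖ ≤ p.Q * (c3 n (e i) * ‖sg w' v‖ /
            ((B : ℝ) ^ (e i - 2) * dl w' x y) + cK K * (eps1 * H)) :=
          mul_le_mul_of_nonneg_left h5 hQpos.le
        refine h6.trans ?_
        have h8 : (p.Q : ℝ) * (c3 n (e i) * ‖sg w' v‖ / ((B : ℝ) ^ (e i - 2) * dl w' x y)) ≤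
            c3 n (e i) * cK K * (th / tau) * H := by
          have : (p.Q : ℝ) * (c3 n (e i) * ‖sg w' v‖ / ((B : ℝ) ^ (e i - 2) * dl w' x y)) =
              c3 n (e i) * ‖sg w' l‖ / ((B : ℝ) ^ (e i - 2) * dl w' x y) := by
            rw [hlv]; ring
          rw [this]
          rw [div_le_iff₀ (by positivity)]
          calc c3 n (e i) * ‖sg w' l‖ ≤
              c3 n (e i) * (cK K * (th * H * (B : ℝ) ^ e i)) :=
                mul_le_mul_of_nonneg_left hlw hc3
            _ = c3 n (e i) * cK K * (th / tau) * H *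
                ((B : ℝ) ^ (e i - 2) * (tau * (B : ℝ) ^ 2)) := by
                rw [hBd]
                field_simp
            _ ≤ c3 n (e i) * cK K * (th / tau) * H *
                ((B : ℝ) ^ (e i - 2) * dl w' x y) := by
                apply mul_le_mul_of_nonneg_left _ (by positivity)
                apply mul_le_mul_of_nonneg_left hdlw (by positivity)
        have h8' : c3 n (e i) * cK K * (th / tau) * H ≤ c3 n n * cK K * (th / tau) * H := by
          have h2 : c3 n (e i) ≤ c3 n n := by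
            unfold c3
            apply mul_le_mul_of_nonneg_right _ (by positivity)
            exact pow_le_pow_right₀ (by norm_num) (by omega)
          have h3 : c3 n (e i) * (cK K * (th / tau) * H) ≤ c3 n n * (cK K * (th / tau) * H) :=
            mul_le_mul_of_nonneg_right h2 (by positivity)
          calc c3 n (e i) * cK K * (th / tau) * H = c3 n (e i) * (cK K * (th / tau) * H) := by ring
            _ ≤ c3 n n * (cK K * (th / tau) * H) := h3
            _ = c3 n n * cK K * (th / tau) * H := by ring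
        have h9 : (p.Q : ℝ) * (cK K * (eps1 * H)) ≤ th / tau * H / cK K := by
          have h10 : th ≤ th / tau := by
            rw [le_div_iff₀ ht]
            nlinarith
          rw [le_div_iff₀ hcK]
          calc (p.Q : ℝ) * (cK K * (eps1 * H)) * cK K = (p.Q * cK K ^ 2 * eps1) * H := by ring
            _ ≤ th / tau * H := mul_le_mul_of_nonneg_right (he2.trans h10) hHpos.le
        rw [mul_add]
        exact add_le_add (h8.trans h8') h9
      refine (crd_le_of_norm_sg hkey j).trans (le_of_eq ?_)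
      unfold c5 c3
      field_simp
  choose! T hT using hex
  set Lv : Fin r → Set (𝓞 K) := fun i => {l : 𝓞 K | l ∈ Ideal.span {(p.W : 𝓞 K) ^ s} * q ∧
    CIn (th * H * (B : ℝ) ^ e i) l} with hLv
  have hLvfin : ∀ i, (Lv i).Finite := fun i => (CIn_finite _).subset fun l hl => hl.2
  set J : Set (Fin r → 𝓞 K) := {l | ∀ i, l i ∈ Lv i} with hJ
  set S1 : Set (Sys n e (𝓞 K)) := {A | A ∈ p.Cl p.rho H ∧
    ∀ i, F (A i) x = 0 ∧ F (A i) y = 0} with hS1
  set S2 : Set (Sys n e (𝓞 K)) := {A | A ∈ p.Cl (p.rho + c5 K n * (th / tau)) H ∧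
    ∀ i, F (A i) x = 0 ∧ (p.W : 𝓞 K) ^ s ∣ F (A i) y ∧
      CIn (th * H * (B : ℝ) ^ e i) (F (A i) y)} with hS2
  have hS2fin : S2.Finite := (Cl_finite p _ H).subset fun A hA => hA.1
  have hcard : (J ×ˢ S1).ncard ≤ S2.ncard := by
    refine Set.ncard_le_ncard_of_injOn (fun a => fun i m => a.2 i m + T i (a.1 i) m) ?_ ?_ hS2fin
    · rintro ⟨l, A⟩ ⟨hl, hA⟩
      have hT0 := fun i => hT i (l i) (hl i).1 (hl i).2
      have hFy : ∀ i, F (fun m => A i m + T i (l i) m) y = l i := fun i => by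
        rw [F_add, (hA.2 i).2, (hT0 i).2.1, zero_add]
      refine ⟨⟨?_, ?_⟩, fun i => ⟨?_, ?_, ?_⟩⟩
      · intro i m j
        have ha := hA.1.1 i m j
        have hb := (hT0 i).2.2.2 m j
        show |(crd (A i m + T i (l i) m) j : ℝ) - H * p.AC i m j| ≤ _
        rw [crd_add]
        push_cast
        have : (crd (A i m) j : ℝ) + crd (T i (l i) m) j - H * p.AC i m j =
            ((crd (A i m) j : ℝ) - H * p.AC i m j) + crd (T i (l i) m) j := by ring
        rw [this]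
        calc |((crd (A i m) j : ℝ) - H * p.AC i m j) + crd (T i (l i) m) j|
            ≤ |(crd (A i m) j : ℝ) - H * p.AC i m j| + |(crd (T i (l i) m) j : ℝ)| := abs_add_le _ _
          _ ≤ p.rho * H + c5 K n * (th / tau) * H := add_le_add ha hb
          _ = (p.rho + c5 K n * (th / tau)) * H := by ring
      · intro i m
        have ha := hA.1.2 i m
        show (p.Q : 𝓞 K) ∣ A i m + T i (l i) m - p.A0 i m
        have : A i m + T i (l i) m - p.A0 i m = (A i m - p.A0 i m) + T i (l i) m := by ring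
        rw [this]
        exact dvd_add ha ((hT0 i).2.2.1 m)
      · show F (fun m => A i m + T i (l i) m) x = 0
        rw [F_add, (hA.2 i).1, (hT0 i).1, add_zero]
      · show (p.W : 𝓞 K) ^ s ∣ F (fun m => A i m + T i (l i) m) y
        rw [hFy]
        obtain ⟨a, -, hal⟩ := Ideal.mem_span_singleton_mul.mp (hl i).1
        exact ⟨a, hal.symm⟩
      · show CIn (th * H * (B : ℝ) ^ e i) (F (fun m => A i m + T i (l i) m) y)
        rw [hFy]
        exact (hl i).2
    · rintro ⟨l, A⟩ ⟨hl, hA⟩ ⟨l', A'⟩ ⟨hl', hA'⟩ heq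
      simp only at heq hA hA' hl hl'
      have hll : l = l' := by
        funext i
        have h5 : F (fun m => A i m + T i (l i) m) y = F (fun m => A' i m + T i (l' i) m) y := by
          rw [congrFun heq i]
        rw [F_add, F_add, (hA.2 i).2, (hA'.2 i).2, (hT i _ (hl i).1 (hl i).2).2.1,
          (hT i _ (hl' i).1 (hl' i).2).2.1, zero_add, zero_add] at h5
        exact h5
      subst hll
      have : A = A' := by
        funext i m
        have := congrFun (congrFun heq i) m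
        exact add_right_cancel this
      rw [this]
  rw [Set.ncard_prod] at hcard
  have hI : J.ncard = ∏ i, (Lv i).ncard := CIHP.ncard_pi Lv hLvfin
  rw [hI] at hcard
  have hLev : p.Lev th (Ideal.span {(p.W : 𝓞 K) ^ s} * q) H = ((∏ i, (Lv i).ncard : ℕ) : ℝ) := by
    rw [Par.Lev]
    push_cast
    rfl
  rw [hLev]
  exact_mod_cast hcard

end NKHP
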