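import Pool.Agent.Lib.MP_e426f4_ag.NK.NLoc
import Pool.Agent.Lib.MP_e426f4_ag.NK.FirstUpper
import Pool.Agent.Lib.MP_e426f4_ag.NK.TransPair
import Pool.Agent.Lib.MP_e426f4_ag.N.Ideals

/-!
NK-SecondMain: main pairs. Given R, G, tau choose th (c5 th/tau <= small rho, th <= th1), s with
Q W^G | W^s, eps1 = th/(Q cK^2). For each (A, x) the y with ideal q = q(x,y) lie in N q classes y = l x mod q
(NFHP.exists_mod), so by nloc their number is <= N q (1+eps) TL/N q^(n+1); weight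
1/Lev(W^s q) ~ N q^r/Lev(W^s) (Lev_asymp; finitely many q of norm <= G: NFHP.finite_ideals). Sum over q = top or
norm > w of N q^(r-n) <= 1 + E (n - r >= 2; q coprime to W and /= top has norm > w: W_primes). S1_upper for
u = rho + c5 th/tau.
-/

namespace NKHP

open NumberField GenHP NFHP Finset Filter Topology
open CIHP (Sys NS Jac nu Bf)

variable {K : Type} [Field K] [NumberField K] {n r : ℕ} {e : Fin r → ℕ}

private theorem n2m_count {α β ι : Type*} (C0 C1 : Finset α) (GF : Finset β) (e l : α → β → Prop)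
    (dv : ι → β → β → Prop) (good : β → β → Prop) [∀ A x, Decidable (e A x)]
    [∀ A x, Decidable (l A x)] [∀ q x y, Decidable (dv q x y)]
    [∀ x y, Decidable (good x y)] (QQ : Finset ι) (N : ι → ℝ) (hN : ∀ q, 0 ≤ N q)
    (c : ℝ) (hc : 0 ≤ c) (b : ι → ℝ)
    (h1 : ∀ x ∈ GF, ∀ y ∈ GF, good x y → ∃ q ∈ QQ, dv q x y ∧
      ((C0.filter (fun A => e A x ∧ e A y)).card : ℝ) ≤
        c * N q * ((C1.filter (fun A => e A x ∧ l A y)).card : ℝ))
    (h2 : ∀ A ∈ C1, ∀ x ∈ GF, e A x → ∀ q ∈ QQ,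
      ((GF.filter (fun y => dv q x y ∧ l A y)).card : ℝ) ≤ b q) :
    (((C0 ×ˢ (GF ×ˢ GF)).filter
      (fun t => e t.1 t.2.1 ∧ e t.1 t.2.2 ∧ good t.2.1 t.2.2)).card : ℝ) ≤
      c * (∑ q ∈ QQ, N q * b q) * (((C1 ×ˢ GF).filter (fun p => e p.1 p.2)).card : ℝ) := by
  have e1 : (((C0 ×ˢ (GF ×ˢ GF)).filter
      (fun t => e t.1 t.2.1 ∧ e t.1 t.2.2 ∧ good t.2.1 t.2.2)).card : ℝ) =
      ∑ x ∈ GF, ∑ y ∈ GF, if good x y then
        ((C0.filter (fun A => e A x ∧ e A y)).card : ℝ) else 0 := by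
    rw [Finset.card_filter]
    push_cast
    rw [Finset.sum_product, Finset.sum_comm, Finset.sum_product]
    refine Finset.sum_congr rfl fun x _ => Finset.sum_congr rfl fun y _ => ?_
    by_cases hg : good x y
    · rw [if_pos hg, Finset.card_filter]
      push_cast
      refine Finset.sum_congr rfl fun A _ => ?_
      simp only [hg, and_true]
    · rw [if_neg hg]
      refine Finset.sum_eq_zero fun A _ => ?_
      simp only [hg, and_false, if_false]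
  have e2 : ∀ x ∈ GF, ∀ y ∈ GF, (if good x y then
        ((C0.filter (fun A => e A x ∧ e A y)).card : ℝ) else 0) ≤
      ∑ q ∈ QQ, ∑ A ∈ C1, c * N q * (if (e A x) then (if (dv q x y ∧ l A y) then 1 else 0) else 0) := by
    intro x hx y hy
    have hnn : ∀ q ∈ QQ, 0 ≤ ∑ A ∈ C1, c * N q *
        (if (e A x) then (if (dv q x y ∧ l A y) then 1 else 0) else 0) := by
      intro q _
      refine Finset.sum_nonneg fun A _ => ?_
      refine mul_nonneg (mul_nonneg hc (hN q)) ?_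
      split_ifs <;> norm_num
    by_cases hg : good x y
    · rw [if_pos hg]
      obtain ⟨q, hq, hqm, hle⟩ := h1 x hx y hy hg
      refine hle.trans ?_
      refine le_trans (le_of_eq ?_) (Finset.single_le_sum hnn hq)
      rw [Finset.card_filter, ← Finset.mul_sum]
      push_cast
      congr 1
      refine Finset.sum_congr rfl fun A _ => ?_
      by_cases h3 : e A x <;> by_cases h4 : l A y <;> simp [h3, h4, hqm]
    · rw [if_neg hg]
      exact Finset.sum_nonneg hnn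
  rw [e1]
  refine (Finset.sum_le_sum fun x hx => Finset.sum_le_sum fun y hy => e2 x hx y hy).trans ?_
  have e3 : ∑ x ∈ GF, ∑ y ∈ GF, ∑ q ∈ QQ, ∑ A ∈ C1, c * N q *
        (if (e A x) then (if (dv q x y ∧ l A y) then (1 : ℝ) else 0) else 0) =
      ∑ q ∈ QQ, ∑ A ∈ C1, ∑ x ∈ GF, c * N q * (if (e A x) then
        ((GF.filter (fun y => dv q x y ∧ l A y)).card : ℝ) else 0) := by
    have e4 : ∀ x ∈ GF, (∑ y ∈ GF, ∑ q ∈ QQ, ∑ A ∈ C1, c * N q *
        (if (e A x) then (if (dv q x y ∧ l A y) then (1 : ℝ) else 0) else 0)) =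
        ∑ q ∈ QQ, ∑ A ∈ C1, c * N q * (if (e A x) then
        ((GF.filter (fun y => dv q x y ∧ l A y)).card : ℝ) else 0) := by
      intro x _
      rw [Finset.sum_comm]
      refine Finset.sum_congr rfl fun q _ => ?_
      rw [Finset.sum_comm]
      refine Finset.sum_congr rfl fun A _ => ?_
      rw [← Finset.mul_sum]
      congr 1
      by_cases h3 : e A x
      · simp only [h3, if_true]
        rw [Finset.card_filter]
        push_cast
        rfl
      · simp only [h3, if_false, Finset.sum_const_zero]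
    rw [Finset.sum_congr rfl e4, Finset.sum_comm]
    refine Finset.sum_congr rfl fun q _ => ?_
    rw [Finset.sum_comm]
  rw [e3]
  have e5 : ∀ q ∈ QQ, ∑ A ∈ C1, ∑ x ∈ GF, c * N q * (if (e A x) then
        ((GF.filter (fun y => dv q x y ∧ l A y)).card : ℝ) else 0) ≤
      c * (N q * b q) * (((C1 ×ˢ GF).filter (fun p => e p.1 p.2)).card : ℝ) := by
    intro q hq
    rw [Finset.card_filter]
    push_cast
    rw [Finset.sum_product, Finset.mul_sum]
    refine Finset.sum_le_sum fun A hA => ?_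
    rw [Finset.mul_sum]
    refine Finset.sum_le_sum fun x hx => ?_
    by_cases h3 : e A x
    · rw [if_pos h3, if_pos h3, mul_one, ← mul_assoc]
      exact mul_le_mul_of_nonneg_left (h2 A hA x hx h3 q hq) (mul_nonneg hc (hN q))
    · rw [if_neg h3, if_neg h3, mul_zero, mul_zero]
  refine (Finset.sum_le_sum e5).trans (le_of_eq ?_)
  rw [← Finset.sum_mul, ← Finset.mul_sum]

private theorem n2m_norm (p : Par K n e) {eps k0 : ℝ} {w : ℕ} (hp : p.Valid eps k0 w)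
    (q : Ideal (𝓞 K)) (hq0 : q ≠ ⊥) (hq1 : q ≠ ⊤)
    (hqW : IsCoprime q (Ideal.span {(p.W : 𝓞 K)})) : w < Ideal.absNorm q := by
  obtain ⟨P, hP, hqP⟩ := Ideal.exists_le_maximal q hq1
  have hP0 : P ≠ ⊥ := fun h => hq0 (le_bot_iff.1 (h ▸ hqP))
  have hmem : ((Ideal.absNorm q : ℕ) : 𝓞 K) ∈ P := hqP (Ideal.absNorm_mem q)
  have hNq : Ideal.absNorm q ≠ 0 := (absNorm_pos hq0).ne'
  have hNq1 : Ideal.absNorm q ≠ 1 := fun h => hq1 (Ideal.absNorm_eq_one_iff.1 h)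
  -- a prime factor of the norm lies in P
  have hex : ∃ l : ℕ, l.Prime ∧ l ∣ Ideal.absNorm q ∧ ((l : ℕ) : 𝓞 K) ∈ P := by
    by_contra hcon
    push Not at hcon
    have h1 : ∀ m : ℕ, m ∣ Ideal.absNorm q → ((m : ℕ) : 𝓞 K) ∉ P := by
      intro m
      induction m using Nat.recOnMul with
      | zero => intro h _; exact hNq (zero_dvd_iff.1 h)
      | one => intro _ h; exact hP.ne_top ((Ideal.eq_top_iff_one P).2 (by simpa using h))
      | prime l hl => intro h; exact hcon l hl h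
      | mul a b ha hb =>
        intro h hab
        rw [Nat.cast_mul] at hab
        rcases hP.isPrime.mem_or_mem hab with h2 | h2
        · exact ha ((Dvd.intro _ rfl).trans h) h2
        · exact hb ((Dvd.intro_left _ rfl).trans h) h2
    exact h1 _ dvd_rfl hmem
  obtain ⟨l, hl, hlq, hlP⟩ := hex
  have hlw : w < l := by
    by_contra hcon
    have h1 : l ∣ p.W := (hp.W_primes l hl).2 (by omega)
    have h2 : ((p.W : ℕ) : 𝓞 K) ∈ P := by
      obtain ⟨m, hm⟩ := h1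
      rw [hm, Nat.cast_mul]
      exact Ideal.mul_mem_right _ _ hlP
    have h3 : q ⊔ Ideal.span {(p.W : 𝓞 K)} ≤ P :=
      sup_le hqP ((Ideal.span_singleton_le_iff_mem P).2 h2)
    rw [Ideal.isCoprime_iff_sup_eq.1 hqW] at h3
    exact hP.ne_top (top_le_iff.1 h3)
  exact hlw.trans_le (Nat.le_of_dvd (Nat.pos_of_ne_zero hNq) hlq)

private theorem n2m_sum (p : Par K n e) {eps k0 : ℝ} {w : ℕ} (hp : p.Valid eps k0 w)
    (E : ℝ) (hE : ∀ S : Finset (Ideal (𝓞 K)), (∀ I ∈ S, w < Ideal.absNorm I) →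
      ∑ I ∈ S, 1 / (Ideal.absNorm I : ℝ) ^ 2 ≤ E)
    (QQ : Finset (Ideal (𝓞 K)))
    (hQQ : ∀ q ∈ QQ, q ≠ ⊥ ∧ IsCoprime q (Ideal.span {(p.W : 𝓞 K)})) :
    ∑ q ∈ QQ, (1 : ℝ) / (Ideal.absNorm q : ℝ) ^ 2 ≤ 1 + E := by
  classical
  have h1 : QQ ⊆ insert ⊤ (QQ.erase ⊤) := by
    intro q hq
    rw [Finset.mem_insert, Finset.mem_erase]
    tauto
  refine (Finset.sum_le_sum_of_subset_of_nonneg h1 fun q _ _ => by positivity).trans ?_
  rw [Finset.sum_insert (Finset.notMem_erase _ _)]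
  refine add_le_add ?_ (hE _ fun q hq => ?_)
  · simp [Ideal.absNorm_top]
  · rw [Finset.mem_erase] at hq
    exact n2m_norm p hp q (hQQ q hq.2).1 hq.1 (hQQ q hq.2).2

private theorem n2m_num (e v : ℝ) (N : ℕ) (hN : 0 < N) (he : 0 < e) (he1 : e ≤ 1 / 10)
    (hv : 0 ≤ v) :
    (1 + 2 * e) * (1 + e) * (1 + v) * ((1 + 8 * e) * (1 + e / N) ^ N) ≤
      1 + 40 * e + 5 * v := by
  have hNr : (0 : ℝ) < N := by exact_mod_cast hN
  have h1 : (1 + e / N) ^ N ≤ 1 + e + e ^ 2 := by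
    have h2 : 1 + e / N ≤ Real.exp (e / N) := by
      have := Real.add_one_le_exp (e / N)
      linarith
    have h3 : (1 + e / N) ^ N ≤ Real.exp (e / N) ^ N := pow_le_pow_left₀ (by positivity) h2 N
    rw [← Real.exp_nat_mul] at h3
    have h4 : (N : ℝ) * (e / N) = e := by field_simp
    rw [h4] at h3
    have h5 := Real.abs_exp_sub_one_sub_id_le (x := e) (by rw [abs_of_pos he]; linarith)
    rw [abs_le] at h5
    linarith
  have h2 : (1 + 8 * e) * (1 + e / N) ^ N ≤ 1 + 10 * e := by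
    calc (1 + 8 * e) * (1 + e / N) ^ N ≤ (1 + 8 * e) * (1 + e + e ^ 2) :=
          mul_le_mul_of_nonneg_left h1 (by positivity)
      _ ≤ 1 + 10 * e := by nlinarith [mul_pos he he, mul_nonneg (mul_nonneg he.le he.le) he.le]
  have h3 : (1 + 2 * e) * (1 + e) ≤ 1 + 32 / 10 * e := by nlinarith
  have h4 : (1 + 2 * e) * (1 + e) * (1 + v) ≤ (1 + 32 / 10 * e) * (1 + v) :=
    mul_le_mul_of_nonneg_right h3 (by positivity)
  have h5 : (1 + 32 / 10 * e) * (1 + 10 * e) ≤ 1 + 165 / 10 * e := by nlinarith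
  have h6 : 1 + 165 / 10 * e ≤ 5 := by linarith
  calc _ ≤ (1 + 32 / 10 * e) * (1 + v) * (1 + 10 * e) :=
        mul_le_mul h4 h2 (by positivity) (by positivity)
    _ = (1 + 32 / 10 * e) * (1 + 10 * e) * (1 + v) := by ring
    _ ≤ (1 + 165 / 10 * e) * (1 + v) := mul_le_mul_of_nonneg_right h5 (by positivity)
    _ = 1 + 165 / 10 * e + (1 + 165 / 10 * e) * v := by ring
    _ ≤ 1 + 165 / 10 * e + 5 * v := by
        have := mul_le_mul_of_nonneg_right h6 hv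
        linarith
    _ ≤ 1 + 40 * e + 5 * v := by linarith

/-- representatives of the classes modulo an ideal -/
private theorem n2m_reps (q : Ideal (𝓞 K)) (hq : q ≠ ⊥) :
    ∃ L : Finset (𝓞 K), L.card ≤ Ideal.absNorm q ∧ ∀ a : 𝓞 K, ∃ l ∈ L, a - l ∈ q := by
  classical
  have : Finite (𝓞 K ⧸ q) := Ideal.finiteQuotientOfFreeOfNeBot q hq
  have : Fintype (𝓞 K ⧸ q) := Fintype.ofFinite _
  refine ⟨Finset.univ.image (fun c : 𝓞 K ⧸ q => Quotient.out c), ?_, fun a => ?_⟩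
  · refine Finset.card_image_le.trans (le_of_eq ?_)
    rw [Finset.card_univ, ← Nat.card_eq_fintype_card]
    rfl
  · refine ⟨Quotient.out (Ideal.Quotient.mk q a), Finset.mem_image_of_mem _ (Finset.mem_univ _), ?_⟩
    rw [← Ideal.Quotient.eq]
    exact (Quotient.out_eq (Ideal.Quotient.mk q a)).symm

theorem S2_main (p : Par K n e) {eps k0 : ℝ} {w : ℕ} (hp : p.Valid eps k0 w)
    (E : ℝ) (hE : ∀ S : Finset (Ideal (𝓞 K)), (∀ I ∈ S, w < Ideal.absNorm I) →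
      ∑ I ∈ S, 1 / (Ideal.absNorm I : ℝ) ^ 2 ≤ E)
    (R : ℝ) (hR : 1 ≤ R) (G : ℕ) (hG : 1 ≤ G) (tau : ℝ) (ht : 0 < tau) (ht1 : tau ≤ 1) :
    ∃ eps1 : ℝ, 0 < eps1 ∧ ∀ᶠ H : ℝ in atTop,
      ((p.TMain R G tau eps1 H).ncard : ℝ) ≤
        (1 + 40 * eps + 5 * E) * p.TT H ^ 2 * p.XR p.rho H := by
  classical
  have hE0 : 0 ≤ E := by simpa using hE ∅ (by simp)
  have he := hp.eps_pos
  have he1 := hp.eps_le
  have hrho := hp.rho_pos
  have hW := hp.W_pos
  have hQ := hp.Q_pos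
  have hr1' := hp.r_pos
  have hnr := hp.n_ge
  have hrn : r ≤ n + 1 := by omega
  have hWr : (0 : ℝ) < p.W := by exact_mod_cast hW
  have hQr : (0 : ℝ) < p.Q := by exact_mod_cast hQ
  have hdens := dens_pos p hp
  have hm0 : 0 < mK K := mK_pos
  have hNSpos : 0 < NS n e := by
    unfold NS
    refine Finset.sum_pos (fun i _ => NN_pos n (e i)) ?_
    exact ⟨⟨0, by omega⟩, Finset.mem_univ _⟩
  have hN0 : 0 < mK K * NS n e := Nat.mul_pos hm0 hNSpos
  obtain ⟨N, hNdef⟩ : ∃ N : ℕ, N = mK K * NS n e := ⟨_, rfl⟩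
  rw [← hNdef] at hN0
  have hNr : (0 : ℝ) < N := by exact_mod_cast hN0
  have hN1 : (1 : ℝ) ≤ N := by exact_mod_cast hN0
  have hcK : 1 ≤ cK K := one_le_cK
  have hc5 : 1 ≤ c5 K n := one_le_c5 K n
  have hc50 : 0 < c5 K n := by linarith only [hc5]
  obtain ⟨s0, hs0⟩ := hp.hens.2.1
  obtain ⟨th, hth, hth2, hth3⟩ : ∃ th : ℝ, 0 < th ∧ th ≤ p.th1 ∧
      th ≤ eps * p.rho * tau / (c5 K n * N) :=
    ⟨min p.th1 (eps * p.rho * tau / (c5 K n * N)), lt_min hp.th1_pos (by positivity),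
      min_le_left _ _, min_le_right _ _⟩
  set s : ℕ := s0 + G with hs
  have hsG : p.Q * p.W ^ G ∣ p.W ^ s := by
    rw [hs, pow_add, ← hs0]
  have hsQ : p.Q ∣ p.W ^ s := (Dvd.intro _ rfl).trans hsG
  set r1 : ℝ := p.rho + c5 K n * (th / tau) with hr1
  have hr1a : p.rho ≤ r1 := by
    have : 0 ≤ c5 K n * (th / tau) := by positivity
    linarith only [this, hr1]
  have hr1b : r1 ≤ p.rho * (1 + eps / N) := by
    have h1 : c5 K n * (th / tau) ≤ eps * p.rho / N := by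
      rw [mul_div_assoc', div_le_div_iff₀ ht hNr]
      rw [le_div_iff₀ (by positivity)] at hth3
      linarith
    have h2 : p.rho * (1 + eps / N) = p.rho + eps * p.rho / N := by ring
    rw [hr1, h2]
    linarith only [h1]
  have hr1c : r1 ≤ 3 / 2 * p.rho := by
    have h1 : eps / N ≤ 1 / 2 := by
      rw [div_le_iff₀ hNr]
      linarith only [hN1, he, he1]
    have h2 : p.rho * (1 + eps / N) ≤ 3 / 2 * p.rho := by
      have := mul_le_mul_of_nonneg_left h1 hrho.le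
      linarith
    linarith only [h2, hr1b]
  set QQ : Finset (Ideal (𝓞 K)) := (finite_ideals (K := K) G).toFinset.filter
    (fun q => IsCoprime q (Ideal.span {(p.W : 𝓞 K)})) with hQQ
  have hmemQQ : ∀ q, q ∈ QQ ↔ (q ≠ ⊥ ∧ Ideal.absNorm q ≤ G) ∧
      IsCoprime q (Ideal.span {(p.W : 𝓞 K)}) := by
    intro q
    rw [hQQ, Finset.mem_filter, Set.Finite.mem_toFinset]
    rfl
  set T' : ℕ → ℝ := fun B => p.TL th s B with hT'
  -- uniform version of the local count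
  obtain ⟨B0, hB0⟩ : ∃ B0 : ℕ, ∀ q ∈ QQ, ∀ B : ℕ, B0 ≤ B → ∀ H : ℝ, 0 < H →
      ∀ A : Sys n e (𝓞 K),
      (∀ i t j, |(crd (A i t) j : ℝ) - H * p.Ainf i t j| ≤ 3 * p.rho * H) →
      (∀ i t, (p.Q : 𝓞 K) ∣ A i t - p.A0 i t) → ∀ z : Fin (n + 1) → 𝓞 K,
      (Set.ncard {x : Fin (n + 1) → 𝓞 K | x ∈ p.XX B ∧ (∀ i, (p.W : 𝓞 K) ^ s ∣ F (A i) x ∧
          CIn (th * H * (B : ℝ) ^ e i) (F (A i) x)) ∧ ∀ i, x i - z i ∈ q} : ℝ) ≤
        (1 + eps) * T' B / (Ideal.absNorm q : ℝ) ^ (n + 1) := by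
    have h1 : ∀ q : Ideal (𝓞 K), ∃ B0 : ℕ, q ∈ QQ → ∀ B : ℕ, B0 ≤ B → ∀ H : ℝ, 0 < H →
      ∀ A : Sys n e (𝓞 K),
      (∀ i t j, |(crd (A i t) j : ℝ) - H * p.Ainf i t j| ≤ 3 * p.rho * H) →
      (∀ i t, (p.Q : 𝓞 K) ∣ A i t - p.A0 i t) → ∀ z : Fin (n + 1) → 𝓞 K,
      (Set.ncard {x : Fin (n + 1) → 𝓞 K | x ∈ p.XX B ∧ (∀ i, (p.W : 𝓞 K) ^ s ∣ F (A i) x ∧
          CIn (th * H * (B : ℝ) ^ e i) (F (A i) x)) ∧ ∀ i, x i - z i ∈ q} : ℝ) ≤
        (1 + eps) * T' B / (Ideal.absNorm q : ℝ) ^ (n + 1) := by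
      intro q
      by_cases hq : q ∈ QQ
      · have hq' := (hmemQQ q).1 hq
        obtain ⟨B0, h⟩ := nloc p hp th hth hth2 s hsQ q hq'.1.1 hq'.2
        exact ⟨B0, fun _ B hB H hH A h1 h2 z => (h B hB H hH A h1 h2 z).2⟩
      · exact ⟨0, fun h => absurd h hq⟩
    choose f hf using h1
    refine ⟨QQ.sup f, fun q hq B hB => hf q hq B ((Finset.le_sup hq).trans hB)⟩
  have hWs : (0 : ℝ) < (p.W : ℝ) ^ s := by positivity
  have hWK : (p.W : 𝓞 K) ≠ 0 := by exact_mod_cast hW.ne'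
  have hWsI : Ideal.span {(p.W : 𝓞 K) ^ s} ≠ ⊥ := by
    rw [Ne, Ideal.span_singleton_eq_bot]
    exact pow_ne_zero s hWK
  have hWsN : (Ideal.absNorm (Ideal.span {(p.W : 𝓞 K) ^ s}) : ℝ) = ((p.W : ℝ) ^ s) ^ mK K := by
    rw [absNorm_span_W]
    push_cast
    rfl
  have hev1 : ∀ᶠ H : ℝ in atTop, max B0 1 ≤ p.B H :=
    (CIHP.Bf_atTop (n := n) e hp.r_pos hp.sum_le p.C0 hp.C0_ge).eventually_ge_atTop _
  have hlevs : ∀ᶠ H : ℝ in atTop, ∀ q ∈ QQ,
      (1 - eps) * (((2 * th * H) ^ r * (p.B H : ℝ) ^ (∑ i, e i)) ^ mK K /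
        (Ideal.absNorm (Ideal.span {(p.W : 𝓞 K) ^ s} * q) : ℝ) ^ r) ≤
        p.Lev th (Ideal.span {(p.W : 𝓞 K) ^ s} * q) H := by
    rw [Filter.eventually_all_finset]
    intro q hq
    have hq' := (hmemQQ q).1 hq
    exact (Lev_asymp p hp th hth (Ideal.span {(p.W : 𝓞 K) ^ s} * q)
      (mul_ne_zero hWsI hq'.1.1) eps he).mono fun H h => h.1
  obtain ⟨eps1, heps1⟩ : ∃ eps1 : ℝ, eps1 = th / (p.Q * cK K ^ 2) := ⟨_, rfl⟩
  have heps0 : 0 < eps1 := by
    rw [heps1]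
    positivity
  have heps2 : p.Q * cK K ^ 2 * eps1 ≤ th := by
    rw [heps1]
    exact le_of_eq (by field_simp)
  refine ⟨eps1, heps0, ?_⟩
  filter_upwards [trans_pair p hp R hR G hG tau ht ht1 th hth s hsG eps1 heps0 heps2,
    S1_upper p hp R hR r1 hr1a hr1c, hev1, hlevs,
    eventually_ge_atTop (1 : ℝ)] with H hTP hS1 hB1 hlev0 hHr
  have hH0 : (0 : ℝ) < H := by linarith only [hHr]
  have hBB0 : B0 ≤ p.B H := (le_max_left _ _).trans hB1
  have hB1' : (1 : ℝ) ≤ p.B H := by exact_mod_cast (le_max_right _ _).trans hB1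
  set B := p.B H with hB
  have hBpos : (0 : ℝ) < B := by linarith only [hB1']
  obtain ⟨LV, hLV⟩ : ∃ LV : ℝ, LV =
      ((2 * th * H / (p.W : ℝ) ^ s) ^ r * (B : ℝ) ^ (∑ i, e i)) ^ mK K := ⟨_, rfl⟩
  have hLV0 : 0 < LV := by
    rw [hLV]
    positivity
  set c : ℝ := (1 + 2 * eps) / LV with hc
  have hc0 : 0 < c := by positivity
  -- finsets
  set C0 := (Cl_finite p p.rho H).toFinset with hC0
  set C1 := (Cl_finite p r1 H).toFinset with hC1
  set GF := (GG_finite hrn p R B).toFinset with hGF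
  have hGFm : ∀ z, z ∈ GF ↔ z ∈ p.GG R B := by
    intro z
    rw [hGF, Set.Finite.mem_toFinset]
  have hC0m : ∀ A, A ∈ C0 ↔ A ∈ p.Cl p.rho H := by
    intro A
    rw [hC0, Set.Finite.mem_toFinset]
  have hC1m : ∀ A, A ∈ C1 ↔ A ∈ p.Cl r1 H := by
    intro A
    rw [hC1, Set.Finite.mem_toFinset]
  set LL : Sys n e (𝓞 K) → (Fin (n + 1) → 𝓞 K) → Prop := fun A y => ∀ i,
    (p.W : 𝓞 K) ^ s ∣ F (A i) y ∧ CIn (th * H * (B : ℝ) ^ e i) (F (A i) y) with hLL
  set EE : Sys n e (𝓞 K) → (Fin (n + 1) → 𝓞 K) → Prop := fun A x => ∀ i, F (A i) x = 0 with hEE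
  set DD : Ideal (𝓞 K) → (Fin (n + 1) → 𝓞 K) → (Fin (n + 1) → 𝓞 K) → Prop :=
    fun q x y => mgI x y ≤ q with hDD
  set GOOD : (Fin (n + 1) → 𝓞 K) → (Fin (n + 1) → 𝓞 K) → Prop := fun x y =>
    x ≠ y ∧ ¬ BadPr G tau B x y ∧ Fine n e (eps1 * H) x y with hGOOD
  have key := n2m_count C0 C1 GF EE LL DD GOOD QQ
    (fun q => (Ideal.absNorm q : ℝ) ^ r) (fun q => by positivity) c hc0.le
    (fun q => (Ideal.absNorm q : ℝ) * ((1 + eps) * T' B / (Ideal.absNorm q : ℝ) ^ (n + 1))) ?_ ?_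
  rotate_left
  · -- transference
    intro x hx y hy hg
    rw [hGFm] at hx hy
    obtain ⟨q, hq0, hqm, hqG, hqW, hle⟩ := hTP x y hx hy hg.1 hg.2.1 hg.2.2
    have hqQ : q ∈ QQ := (hmemQQ q).2 ⟨⟨hq0, hqG⟩, hqW⟩
    refine ⟨q, hqQ, hqm, ?_⟩
    have e1 : (Set.ncard {A : Sys n e (𝓞 K) | A ∈ p.Cl p.rho H ∧
            ∀ i, F (A i) x = 0 ∧ F (A i) y = 0} : ℝ) =
        ((C0.filter (fun A => EE A x ∧ EE A y)).card : ℝ) := by
      rw [← Set.ncard_coe_finset]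
      congr 2
      ext A
      rw [Finset.mem_coe, Finset.mem_filter, hC0m]
      exact ⟨fun h => ⟨h.1, fun i => (h.2 i).1, fun i => (h.2 i).2⟩,
        fun h => ⟨h.1, fun i => ⟨h.2.1 i, h.2.2 i⟩⟩⟩
    have e2 : (Set.ncard {A : Sys n e (𝓞 K) | A ∈ p.Cl (p.rho + c5 K n * (th / tau)) H ∧
            ∀ i, F (A i) x = 0 ∧ (p.W : 𝓞 K) ^ s ∣ F (A i) y ∧
            CIn (th * H * (B : ℝ) ^ e i) (F (A i) y)} : ℝ) =
        ((C1.filter (fun A => EE A x ∧ LL A y)).card : ℝ) := by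
      rw [← Set.ncard_coe_finset]
      congr 2
      ext A
      rw [Finset.mem_coe, Finset.mem_filter, hC1m]
      exact ⟨fun h => ⟨h.1, fun i => (h.2 i).1, fun i => (h.2 i).2⟩,
        fun h => ⟨h.1, fun i => ⟨h.2.1 i, h.2.2 i⟩⟩⟩
    rw [e1, e2] at hle
    have hqr : (0 : ℝ) < (Ideal.absNorm q : ℝ) := by exact_mod_cast absNorm_pos hq0
    have hR0 : (0 : ℝ) ≤ ((C0.filter (fun A => EE A x ∧ EE A y)).card : ℝ) := Nat.cast_nonneg _
    have hR1 : (0 : ℝ) ≤ ((C1.filter (fun A => EE A x ∧ LL A y)).card : ℝ) := Nat.cast_nonneg _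
    have hlev := hlev0 q hqQ
    have h3 : ((2 * th * H) ^ r * (B : ℝ) ^ (∑ i, e i)) ^ mK K /
        (Ideal.absNorm (Ideal.span {(p.W : 𝓞 K) ^ s} * q) : ℝ) ^ r =
        LV / (Ideal.absNorm q : ℝ) ^ r := by
      rw [hLV, map_mul, Nat.cast_mul, hWsN, div_pow (2 * th * H) ((p.W : ℝ) ^ s) r,
        mul_pow (((p.W : ℝ) ^ s) ^ mK K) (Ideal.absNorm q : ℝ) r, mul_pow ((2 * th * H) ^ r),
        mul_pow ((2 * th * H) ^ r / ((p.W : ℝ) ^ s) ^ r), div_pow ((2 * th * H) ^ r),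
        ← pow_mul ((p.W : ℝ) ^ s) (mK K) r, ← pow_mul ((p.W : ℝ) ^ s) r (mK K), mul_comm r (mK K)]
      have h31 : ((p.W : ℝ) ^ s) ^ (mK K * r) ≠ 0 := by positivity
      have h32 : (Ideal.absNorm q : ℝ) ^ r ≠ 0 := by positivity
      generalize ((p.W : ℝ) ^ s) ^ (mK K * r) = a1 at h31
      generalize (Ideal.absNorm q : ℝ) ^ r = a2 at h32
      field_simp
    rw [h3] at hlev
    have h4 : LV / (Ideal.absNorm q : ℝ) ^ r * ((C0.filter (fun A => EE A x ∧ EE A y)).card : ℝ) ≤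
        (1 + 2 * eps) * ((C1.filter (fun A => EE A x ∧ LL A y)).card : ℝ) := by
      have h5 : (1 - eps) * (LV / (Ideal.absNorm q : ℝ) ^ r) *
          ((C0.filter (fun A => EE A x ∧ EE A y)).card : ℝ) ≤
          ((C1.filter (fun A => EE A x ∧ LL A y)).card : ℝ) :=
        (mul_le_mul_of_nonneg_right hlev hR0).trans hle
      have h6 : 1 ≤ (1 + 2 * eps) * (1 - eps) := by nlinarith only [he, he1]
      have h7 : 0 ≤ LV / (Ideal.absNorm q : ℝ) ^ r *
          ((C0.filter (fun A => EE A x ∧ EE A y)).card : ℝ) := mul_nonneg (by positivity) hR0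
      calc LV / (Ideal.absNorm q : ℝ) ^ r * ((C0.filter (fun A => EE A x ∧ EE A y)).card : ℝ) ≤
          ((1 + 2 * eps) * (1 - eps)) *
            (LV / (Ideal.absNorm q : ℝ) ^ r *
              ((C0.filter (fun A => EE A x ∧ EE A y)).card : ℝ)) :=
            le_mul_of_one_le_left h7 h6
        _ = (1 + 2 * eps) * ((1 - eps) * (LV / (Ideal.absNorm q : ℝ) ^ r) *
            ((C0.filter (fun A => EE A x ∧ EE A y)).card : ℝ)) := by ring
        _ ≤ _ := mul_le_mul_of_nonneg_left h5 (by positivity)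
    rw [div_mul_eq_mul_div, div_le_iff₀ (by positivity)] at h4
    show _ ≤ c * (Ideal.absNorm q : ℝ) ^ r * _
    rw [hc, div_mul_eq_mul_div, div_mul_eq_mul_div, le_div_iff₀ hLV0]
    linarith only [h4]
  · -- local count
    intro A hA x hx hAx q hq
    rw [hGFm] at hx
    rw [hC1m] at hA
    have hq' := (hmemQQ q).1 hq
    have hAinf : ∀ i t j, |(crd (A i t) j : ℝ) - H * p.Ainf i t j| ≤ 3 * p.rho * H := by
      intro i t j
      have h1 := hA.1 i t j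
      have h2 := hp.AC_near i t j
      calc |(crd (A i t) j : ℝ) - H * p.Ainf i t j| =
            |((crd (A i t) j : ℝ) - H * p.AC i t j) + H * (p.AC i t j - p.Ainf i t j)| := by
            ring_nf
        _ ≤ |(crd (A i t) j : ℝ) - H * p.AC i t j| + |(H : ℝ) * (p.AC i t j - p.Ainf i t j)| :=
            abs_add_le _ _
        _ = |(crd (A i t) j : ℝ) - H * p.AC i t j| + H * |p.AC i t j - p.Ainf i t j| := by
            rw [abs_mul, abs_of_pos hH0]
        _ ≤ r1 * H + H * p.rho := add_le_add h1 (mul_le_mul_of_nonneg_left h2 hH0.le)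
        _ ≤ 3 * p.rho * H := by nlinarith only [hHr, he, he1, hr1c, hrho]
    obtain ⟨L, hLc, hLr⟩ := n2m_reps q hq'.1.1
    set Sl : 𝓞 K → Finset (Fin (n + 1) → 𝓞 K) := fun l => (XX_finite hrn p B).toFinset.filter
      (fun y => LL A y ∧ ∀ i, y i - l * x i ∈ q) with hSl
    have hcov : GF.filter (fun y => DD q x y ∧ LL A y) ⊆ L.biUnion Sl := by
      intro y hy
      rw [Finset.mem_filter, hGFm] at hy
      obtain ⟨hyG, hqm, hly⟩ := hy
      obtain ⟨l, hl⟩ := exists_mod x y hx.2.1 q hqm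
      obtain ⟨l', hl', hll⟩ := hLr l
      rw [Finset.mem_biUnion]
      refine ⟨l', hl', ?_⟩
      rw [hSl]
      simp only [Finset.mem_filter, Set.Finite.mem_toFinset]
      refine ⟨hyG.1, hly, fun i => ?_⟩
      have h4 : y i - l' * x i = (y i - l * x i) + (l - l') * x i := by ring
      rw [h4]
      exact q.add_mem (hl i) (q.mul_mem_right _ hll)
    have hcard : ∀ l ∈ L, ((Sl l).card : ℝ) ≤
        (1 + eps) * T' B / (Ideal.absNorm q : ℝ) ^ (n + 1) := by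
      intro l _
      have h1 := hB0 q hq B hBB0 H hH0 A hAinf hA.2 (fun i => l * x i)
      refine le_trans (le_of_eq ?_) h1
      rw [← Set.ncard_coe_finset]
      congr 2
      ext y
      simp only [hSl, Finset.coe_filter, Set.mem_ofPred_eq, Set.Finite.mem_toFinset, hLL]
    have hT0 : 0 ≤ (1 + eps) * T' B / (Ideal.absNorm q : ℝ) ^ (n + 1) :=
      (Nat.cast_nonneg _).trans (hB0 q hq B hBB0 H hH0 A hAinf hA.2 x)
    calc ((GF.filter (fun y => DD q x y ∧ LL A y)).card : ℝ) ≤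
        ((L.biUnion Sl).card : ℝ) := by exact_mod_cast Finset.card_le_card hcov
      _ ≤ ∑ l ∈ L, ((Sl l).card : ℝ) := by
        have := Finset.card_biUnion_le (s := L) (t := Sl)
        exact_mod_cast this
      _ ≤ ∑ l ∈ L, (1 + eps) * T' B / (Ideal.absNorm q : ℝ) ^ (n + 1) :=
        Finset.sum_le_sum hcard
      _ = L.card * ((1 + eps) * T' B / (Ideal.absNorm q : ℝ) ^ (n + 1)) := by
        rw [Finset.sum_const, nsmul_eq_mul]
      _ ≤ (Ideal.absNorm q : ℝ) * ((1 + eps) * T' B / (Ideal.absNorm q : ℝ) ^ (n + 1)) := by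
        refine mul_le_mul_of_nonneg_right ?_ hT0
        exact_mod_cast hLc
  -- final computation
  have eL : ((p.TMain R G tau eps1 H).ncard : ℝ) = (((C0 ×ˢ (GF ×ˢ GF)).filter
      (fun t => EE t.1 t.2.1 ∧ EE t.1 t.2.2 ∧ GOOD t.2.1 t.2.2)).card : ℝ) := by
    rw [← Set.ncard_coe_finset]
    congr 2
    ext t
    rw [Finset.mem_coe, Finset.mem_filter, Finset.mem_product, Finset.mem_product, hC0m, hGFm, hGFm]
    exact ⟨fun h => ⟨⟨h.1, h.2.1, h.2.2.1⟩, fun i => (h.2.2.2.1 i).1, fun i => (h.2.2.2.1 i).2,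
        h.2.2.2.2.1, h.2.2.2.2.2.1, h.2.2.2.2.2.2⟩,
      fun h => ⟨h.1.1, h.1.2.1, h.1.2.2, fun i => ⟨h.2.1 i, h.2.2.1 i⟩, h.2.2.2.1, h.2.2.2.2.1,
        h.2.2.2.2.2⟩⟩
  have eR : ((p.Pairs r1 R H).ncard : ℝ) =
      (((C1 ×ˢ GF).filter (fun t => EE t.1 t.2)).card : ℝ) := by
    rw [← Set.ncard_coe_finset]
    congr 2
    ext t
    rw [Finset.mem_coe, Finset.mem_filter, Finset.mem_product, hC1m, hGFm]
    exact ⟨fun h => ⟨⟨h.1, h.2.1⟩, h.2.2⟩, fun h => ⟨h.1.1, h.1.2, h.2⟩⟩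
  rw [eL]
  refine key.trans ?_
  rw [← eR]
  have hTT0 : 0 ≤ p.TT H := TT_nonneg p hp H hH0.le
  have hTL : T' B = p.TT H * LV := by
    rw [hT', hLV]
    exact TL_eq p hp th hth s H hH0
  have hT'nn : 0 ≤ T' B := by
    rw [hTL]
    positivity
  have hsum : ∑ q ∈ QQ, (Ideal.absNorm q : ℝ) ^ r * ((Ideal.absNorm q : ℝ) *
      ((1 + eps) * T' B / (Ideal.absNorm q : ℝ) ^ (n + 1))) ≤
      (1 + eps) * T' B * (1 + E) := by
    have h1 : ∀ q ∈ QQ, (Ideal.absNorm q : ℝ) ^ r * ((Ideal.absNorm q : ℝ) *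
        ((1 + eps) * T' B / (Ideal.absNorm q : ℝ) ^ (n + 1))) ≤
        (1 + eps) * T' B * (1 / (Ideal.absNorm q : ℝ) ^ 2) := by
      intro q hq
      have hq' := (hmemQQ q).1 hq
      have hq1 : (1 : ℝ) ≤ (Ideal.absNorm q : ℝ) := by exact_mod_cast absNorm_pos hq'.1.1
      have hq0 : (0 : ℝ) < (Ideal.absNorm q : ℝ) := by linarith only [hq1]
      have h2 : (Ideal.absNorm q : ℝ) ^ (r + 1 + 2) ≤ (Ideal.absNorm q : ℝ) ^ (n + 1) :=
        pow_le_pow_right₀ hq1 (by omega)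
      have h3 : (Ideal.absNorm q : ℝ) ^ r * ((Ideal.absNorm q : ℝ) *
          ((1 + eps) * T' B / (Ideal.absNorm q : ℝ) ^ (n + 1))) =
          (1 + eps) * T' B * ((Ideal.absNorm q : ℝ) ^ (r + 1) /
            (Ideal.absNorm q : ℝ) ^ (n + 1)) := by
        rw [pow_succ (Ideal.absNorm q : ℝ) r]
        ring
      rw [h3]
      refine mul_le_mul_of_nonneg_left ?_ (by positivity)
      rw [div_le_div_iff₀ (by positivity) (by (clear * - hq1; positivity))]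
      calc (Ideal.absNorm q : ℝ) ^ (r + 1) * (Ideal.absNorm q : ℝ) ^ 2 =
            (Ideal.absNorm q : ℝ) ^ (r + 1 + 2) := (pow_add _ _ _).symm
        _ ≤ (Ideal.absNorm q : ℝ) ^ (n + 1) := h2
        _ = 1 * (Ideal.absNorm q : ℝ) ^ (n + 1) := (one_mul _).symm
    refine (Finset.sum_le_sum h1).trans ?_
    rw [← Finset.mul_sum]
    refine mul_le_mul_of_nonneg_left (n2m_sum p hp E hE QQ fun q hq => ?_) (by positivity)
    exact ⟨((hmemQQ q).1 hq).1.1, ((hmemQQ q).1 hq).2⟩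
  have hcT : c * T' B = (1 + 2 * eps) * p.TT H := by
    rw [hTL, hc]
    field_simp
  have hX : p.XR r1 H ≤ (1 + eps / N) ^ N * p.XR p.rho H := by
    simp only [Par.XR]
    rw [← hNdef, ← mul_pow]
    refine pow_le_pow_left₀ (by positivity) ?_ N
    rw [mul_div_assoc', div_le_div_iff_of_pos_right hQr]
    nlinarith only [hHr, he, he1, hr1b]
  have hXn0 : 0 ≤ p.XR p.rho H := XR_nonneg p p.rho H hrho.le hH0.le
  have hPb : ((p.Pairs r1 R H).ncard : ℝ) ≤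
      (1 + 8 * eps) * (1 + eps / N) ^ N * (p.TT H * p.XR p.rho H) := by
    refine hS1.trans ?_
    calc (1 + 8 * eps) * p.TT H * p.XR r1 H ≤
        (1 + 8 * eps) * p.TT H * ((1 + eps / N) ^ N * p.XR p.rho H) :=
          mul_le_mul_of_nonneg_left hX (by positivity)
      _ = _ := by ring
  have hP0 : (0 : ℝ) ≤ ((p.Pairs r1 R H).ncard : ℝ) := Nat.cast_nonneg _
  calc c * (∑ q ∈ QQ, (Ideal.absNorm q : ℝ) ^ r * ((Ideal.absNorm q : ℝ) *
        ((1 + eps) * T' B / (Ideal.absNorm q : ℝ) ^ (n + 1)))) *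
        ((p.Pairs r1 R H).ncard : ℝ) ≤
      c * ((1 + eps) * T' B * (1 + E)) * ((p.Pairs r1 R H).ncard : ℝ) :=
        mul_le_mul_of_nonneg_right (mul_le_mul_of_nonneg_left hsum hc0.le) hP0
    _ = (c * T' B) * ((1 + eps) * (1 + E)) * ((p.Pairs r1 R H).ncard : ℝ) := by ring
    _ = (1 + 2 * eps) * p.TT H * ((1 + eps) * (1 + E)) * ((p.Pairs r1 R H).ncard : ℝ) := by
        rw [hcT]
    _ ≤ (1 + 2 * eps) * p.TT H * ((1 + eps) * (1 + E)) *
        ((1 + 8 * eps) * (1 + eps / N) ^ N * (p.TT H * p.XR p.rho H)) :=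
        mul_le_mul_of_nonneg_left hPb (by positivity)
    _ = ((1 + 2 * eps) * (1 + eps) * (1 + E) * ((1 + 8 * eps) * (1 + eps / N) ^ N)) *
        (p.TT H ^ 2 * p.XR p.rho H) := by ring
    _ ≤ (1 + 40 * eps + 5 * E) * (p.TT H ^ 2 * p.XR p.rho H) :=
        mul_le_mul_of_nonneg_right (n2m_num eps E N hN0 he he1 hE0) (by positivity)
    _ = (1 + 40 * eps + 5 * E) * p.TT H ^ 2 * p.XR p.rho H := by ring

end NKHP
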