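import Pool.Agent.Lib.MP_e426f4_ag.NK.Crude
import Pool.Agent.Lib.MP_e426f4_ag.NK.FewNotFine
import Pool.Agent.Lib.MP_e426f4_ag.NK.FineGood
import Pool.Agent.Lib.MP_e426f4_ag.N.Lat

/-!
NK-SecondNotFine: pairs that are not fine. Template: CI/SecondNotFine.lean. If 2r < n nu: TNF is empty eventually (CIHP.Bf_small_two, fine_of_good for all e i). Otherwise (CIHP.borderline) all e_i = 2; not Fine means not FineD n 2 for some i. few_not_fine with E = eps1 H, R0 = C0/eps1 (CIHP.Bf_two), for each y in GG,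
S = {x in GG | ...} (distinct points of GG have mgI /= bot: mgI_ne_bot_of_mem_GG): number of pairs <= #GG C B^(m(n+1-1/n)), #GG <= C B^(m(n+1)). crude_sys with mgN <= G, np dl >= (tau B^2)^m: total C X [B^(2nu)/H^(2r)]^m B^(-m/n) = o(TT^2 X).
-/

namespace NKHP

open NumberField GenHP NFHP Finset Filter Topology
open CIHP (Sys NS Jac nu Bf)

variable {K : Type} [Field K] [NumberField K] {n r : ℕ} {e : Fin r → ℕ}

private theorem s2nf_card_fib {α β : Type*} (T0 : Set (α × β)) (hT0 : T0.Finite) (T : Finset β)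
    (hT : ∀ q ∈ T0, q.2 ∈ T) (N : β → Set α) (hN : ∀ b ∈ T, (N b).Finite)
    (hSN : ∀ q ∈ T0, q.1 ∈ N q.2) : (T0.ncard : ℝ) ≤ ∑ b ∈ T, ((N b).ncard : ℝ) := by
  classical
  rw [Set.ncard_eq_toFinset_card _ hT0, Finset.card_eq_sum_card_fiberwise (f := fun q => q.2)
    (t := T) (fun q hq => hT q (by simpa using hq))]
  push_cast
  refine Finset.sum_le_sum fun b hb => ?_
  rw [Set.ncard_eq_toFinset_card _ (hN b hb)]
  refine Nat.cast_le.mpr (Finset.card_le_card_of_injOn (fun q => q.1) (fun q hq => ?_)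
    (fun q hq q' hq' h => ?_))
  · simp only [Finset.coe_filter, Set.Finite.mem_toFinset, Set.mem_ofPred_eq] at hq
    simp only [Set.Finite.coe_toFinset]
    rw [← hq.2]
    exact hSN q hq.1
  · simp only [Finset.coe_filter, Set.Finite.mem_toFinset, Set.mem_ofPred_eq] at hq hq'
    exact Prod.ext h (hq.2.trans hq'.2.symm)

/-- the number of points -/
private theorem s2nf_card_GG (K : Type) [Field K] [NumberField K] (n : ℕ) :
    ∃ C : ℝ, 0 < C ∧ ∀ (r : ℕ) (e : Fin r → ℕ) (p : Par K n e) (eps k0 : ℝ) (w : ℕ),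
      p.Valid eps k0 w → ∀ (R : ℝ) (B : ℕ), 1 ≤ B →
      ((p.GG R B).ncard : ℝ) ≤ C * ((B : ℝ) ^ (n + 1)) ^ mK K := by
  obtain ⟨C, hC1, hC⟩ := lat_upper_vec K
  refine ⟨(2 * C * 2 ^ mK K) ^ (n + 1), by positivity, ?_⟩
  intro r e p eps k0 w hp R B hB
  have hB1 : (1 : ℝ) ≤ B := by exact_mod_cast hB
  have hB0 : (0 : ℝ) < B := by linarith
  have h1 := hC (Fin (n + 1)) ⊤ (by simp) (fun _ => 2 * (B : ℝ)) (fun _ => by positivity)
    (fun _ _ => 0)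
  have h2 : p.GG R B ⊆ {a : Fin (n + 1) → 𝓞 K | (∀ i, a i ∈ (⊤ : Ideal (𝓞 K))) ∧
      ∀ i (w : InfinitePlace K), ‖sg w (a i) - 0‖ ≤ 2 * (B : ℝ)} := by
    intro x hx
    refine ⟨fun _ => Submodule.mem_top, fun i w' => ?_⟩
    rw [sub_zero]
    exact (mem_XX_bounds p hp B).1 x hx.1 i w'
  have h3 : ((p.GG R B).ncard : ℝ) ≤ _ := le_trans (Nat.cast_le.mpr (Set.ncard_le_ncard h2 h1.1)) h1.2
  refine h3.trans ?_
  rw [Ideal.absNorm_top, np_const, Nat.cast_one, div_one, Fintype.card_fin]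
  have h4 : 1 ≤ (2 * (B : ℝ)) ^ mK K := one_le_pow₀ (by linarith)
  calc (C * ((2 * (B : ℝ)) ^ mK K + 1)) ^ (n + 1)
      ≤ (C * ((2 * (B : ℝ)) ^ mK K + (2 * (B : ℝ)) ^ mK K)) ^ (n + 1) := by gcongr
    _ = (2 * C * 2 ^ mK K) ^ (n + 1) * ((B : ℝ) ^ (n + 1)) ^ mK K := by
      rw [mul_pow 2 (B : ℝ), ← pow_mul, mul_comm (n + 1) (mK K), pow_mul, ← mul_pow]
      ring

/-- the constant of the expected number of points -/
private theorem s2nf_TT (p : Par K n e) {eps k0 : ℝ} {w : ℕ} (hp : p.Valid eps k0 w) :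
    ∃ a : ℝ, 0 < a ∧ ∀ H : ℝ, p.TT H = a * ((p.B H : ℝ) ^ nu n e / H ^ r) ^ mK K := by
  have hQ : (0 : ℝ) < p.Q := by exact_mod_cast hp.Q_pos
  have hd := dens_pos p hp
  have hk := hp.kap_pos
  have hg := hp.vg_pos
  refine ⟨((2 * p.kap ^ 2) ^ (n + 1 - r) * (p.Q : ℝ) ^ r) ^ mK K * p.dens / p.vg,
    by positivity, ?_⟩
  intro H
  rw [Par.TT, mul_div_assoc ((2 * p.kap ^ 2) ^ (n + 1 - r) * (p.Q : ℝ) ^ r), mul_pow]
  ring

/-- outside the borderline case all pairs are fine -/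
private theorem s2nf_easy (p : Par K n e) {eps k0 : ℝ} {w : ℕ} (hp : p.Valid eps k0 w) (R : ℝ)
    (hR : 1 ≤ R) (G : ℕ) (tau : ℝ) (eps1 : ℝ) (he1 : 0 < eps1)
    (hb : 2 * r < n * nu n e) :
    ∀ᶠ H : ℝ in atTop,
      ((p.TNF R G tau eps1 H).ncard : ℝ) ≤ eps * p.TT H ^ 2 * p.XR p.rho H := by
  have heps := hp.eps_pos
  have hrho := hp.rho_pos
  have hn2 : 2 ≤ n := by have := hp.n_ge; omega
  have hf : ∀ i : Fin r, ∃ C : ℝ, 0 < C ∧ ∀ B : ℕ, 1 ≤ B → ∀ E : ℝ,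
      C * (B : ℝ) ^ (2 / (n : ℝ)) ≤ E → ∀ x y : Fin (n + 1) → 𝓞 K, Good R B x → Good R B y →
      mgI x y ≠ ⊥ → FineD n (e i) E x y :=
    fun i => fine_of_good K n (e i) (by omega) (hp.e_ge i) R hR
  choose C hC hfi using hf
  obtain ⟨s, hs⟩ : ∃ s : ℝ, s = ∑ i, C i := ⟨_, rfl⟩
  have hs' : ∀ i, C i ≤ s := fun i => by
    rw [hs]
    exact Finset.single_le_sum (f := fun i => C i) (fun i _ => (hC i).le) (Finset.mem_univ i)
  filter_upwards [(CIHP.Bf_atTop (n := n) e hp.r_pos hp.sum_le p.C0 hp.C0_ge).eventually_ge_atTop 1,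
    CIHP.Bf_small_two e hn2 hp.r_pos hp.sum_le hb p.C0 hp.C0_ge (s / eps1),
    eventually_ge_atTop (1 : ℝ)] with H hB hsm hH
  change 1 ≤ p.B H at hB
  change s / eps1 * (p.B H : ℝ) ^ (2 / (n : ℝ)) ≤ H at hsm
  have hB1 : (1 : ℝ) ≤ p.B H := by exact_mod_cast hB
  have hempty : p.TNF R G tau eps1 H = ∅ := by
    rw [Set.eq_empty_iff_forall_notMem]
    rintro ⟨A, x, y⟩ ⟨_, hx, hy, _, hxy, _, hnf⟩
    apply hnf
    intro i
    refine hfi i (p.B H) hB (eps1 * H) ?_ x y hx.2.2 hy.2.2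
      (mgI_ne_bot_of_mem_GG p hp R (p.B H) hB x y hx hy hxy)
    calc C i * (p.B H : ℝ) ^ (2 / (n : ℝ)) ≤ s * (p.B H : ℝ) ^ (2 / (n : ℝ)) := by
          have := hs' i
          gcongr
      _ = eps1 * (s / eps1 * (p.B H : ℝ) ^ (2 / (n : ℝ))) := by
          field_simp
      _ ≤ eps1 * H := mul_le_mul_of_nonneg_left hsm he1.le
  rw [hempty, Set.ncard_empty, Nat.cast_zero]
  have hXn : 0 ≤ p.XR p.rho H := XR_nonneg p p.rho H hrho.le (by linarith)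
  positivity

/-- the borderline case -/
private theorem s2nf_hard (p : Par K n e) {eps k0 : ℝ} {w : ℕ} (hp : p.Valid eps k0 w) (R : ℝ)
    (hR : 1 ≤ R) (G : ℕ) (hG : 1 ≤ G) (tau : ℝ) (ht : 0 < tau) (eps1 : ℝ) (he1 : 0 < eps1)
    (hb : ∀ i, e i = 2) :
    ∀ᶠ H : ℝ in atTop,
      ((p.TNF R G tau eps1 H).ncard : ℝ) ≤ eps * p.TT H ^ 2 * p.XR p.rho H := by
  classical
  have heps := hp.eps_pos
  have hrho := hp.rho_pos
  have hC0 : 0 < p.C0 := lt_of_lt_of_le one_pos hp.C0_ge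
  have hn3 : 3 ≤ n := by have := hp.n_ge; have := hp.r_pos; omega
  have hrn : r ≤ n + 1 := by have := hp.n_ge; omega
  have hn0 : (0 : ℝ) < n := by
    have : 0 < n := by omega
    exact_mod_cast this
  have hG0 : (0 : ℝ) < G := by exact_mod_cast hG
  have hm0 : mK K ≠ 0 := mK_pos.ne'
  obtain ⟨Cc, hCc, hcr⟩ := crude_sys p hp R hR
  obtain ⟨Cf, hCf, hfew⟩ := few_not_fine K n hn3 R (p.C0 / eps1) hR (by positivity)
  obtain ⟨Cg, hCg, hcg⟩ := s2nf_card_GG K n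
  obtain ⟨a, ha, hTT⟩ := s2nf_TT p hp
  obtain ⟨cst, hcst⟩ : ∃ cst : ℝ, cst = Cg * Cf * Cc * (G / tau ^ mK K) ^ r := ⟨_, rfl⟩
  have hcst0 : 0 < cst := by rw [hcst]; positivity
  have hBr : Tendsto (fun H : ℝ => (p.B H : ℝ) ^ (1 / (n : ℝ))) atTop atTop :=
    (tendsto_rpow_atTop (by positivity)).comp
      (tendsto_natCast_atTop_atTop.comp
        (CIHP.Bf_atTop (n := n) e hp.r_pos hp.sum_le p.C0 hp.C0_ge))
  filter_upwards [(CIHP.Bf_atTop (n := n) e hp.r_pos hp.sum_le p.C0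
      hp.C0_ge).eventually_ge_atTop 1,
    hcr, hBr.eventually_ge_atTop (cst / (eps * a ^ 2)), eventually_ge_atTop (1 : ℝ)]
    with H hB hcr hBl hH
  change 1 ≤ p.B H at hB
  have hn2 : 2 ≤ n := by omega
  have htwo : (p.B H : ℝ) ^ (2 / (n : ℝ)) ≤ p.C0 * H :=
    CIHP.Bf_two e hn2 hp.e_ge hp.r_pos hp.sum_le p.C0 hp.C0_ge H hH
  obtain ⟨B, hBd⟩ : ∃ B : ℕ, B = p.B H := ⟨_, rfl⟩
  rw [← hBd] at hB hcr hBl htwo
  have hB1 : (1 : ℝ) ≤ B := by exact_mod_cast hB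
  have hB0 : (0 : ℝ) < B := by linarith
  have hH0 : 0 < H := by linarith
  have hXn : 0 ≤ p.XR p.rho H := XR_nonneg p p.rho H hrho.le hH0.le
  obtain ⟨bd, hbd⟩ : ∃ bd : ℝ, bd = Cc * p.XR p.rho H * (G / (tau * (B : ℝ) ^ 2) ^ mK K) ^ r *
    ((B : ℝ) ^ (2 * r) / (H ^ (2 * r) * (B : ℝ) ^ (2 * ∑ i, e i))) ^ mK K := ⟨_, rfl⟩
  have hbd0 : 0 ≤ bd := by rw [hbd]; positivity
  obtain ⟨GF, hGF⟩ : ∃ GF, GF = (GG_finite hrn p R B).toFinset := ⟨_, rfl⟩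
  have hmem : ∀ x, x ∈ GF ↔ x ∈ p.GG R B := fun x => by rw [hGF, Set.Finite.mem_toFinset]
  have hGc : (GF.card : ℝ) ≤ Cg * ((B : ℝ) ^ (n + 1)) ^ mK K := by
    have h1 := hcg r e p eps k0 w hp R B hB
    rwa [Set.ncard_eq_toFinset_card _ (GG_finite hrn p R B), ← hGF] at h1
  -- the pairs
  obtain ⟨P, hP⟩ : ∃ P : (Fin (n + 1) → 𝓞 K) → (Fin (n + 1) → 𝓞 K) → Prop, P = fun x y =>
    x ≠ y ∧ ¬ BadPr G tau B x y ∧ ¬ FineD n 2 (eps1 * H) x y := ⟨_, rfl⟩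
  have hcf := s2nf_card_fib (p.TNF R G tau eps1 H) (TNF_finite hrn p R G tau eps1 H)
    ((GF ×ˢ GF).filter (fun b => P b.1 b.2))
    (by
      rintro ⟨A, x, y⟩ ⟨_, hx, hy, _, hxy, hbp, hnf⟩
      simp only [← hBd] at hx hy hbp
      simp only [Finset.mem_filter, Finset.mem_product]
      rw [hP]
      refine ⟨⟨(hmem x).2 hx, (hmem y).2 hy⟩, hxy, hbp, ?_⟩
      intro hfd
      apply hnf
      intro i
      rw [hb i]
      exact hfd)
    (fun b => {A : Sys n e (𝓞 K) | A ∈ p.Cl p.rho H ∧ ∀ i, F (A i) b.1 = 0 ∧ F (A i) b.2 = 0})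
    (fun b _ => (Cl_finite p p.rho H).subset fun A hA => hA.1)
    (by
      rintro ⟨A, x, y⟩ ⟨hA, hx, hy, hF, _⟩
      exact ⟨hA, hF⟩)
  refine hcf.trans ?_
  have hbb : ∀ b ∈ (GF ×ˢ GF).filter (fun b => P b.1 b.2),
      (Set.ncard {A : Sys n e (𝓞 K) | A ∈ p.Cl p.rho H ∧
        ∀ i, F (A i) b.1 = 0 ∧ F (A i) b.2 = 0} : ℝ) ≤ bd := by
    rintro ⟨x, y⟩ hb
    simp only [Finset.mem_filter, Finset.mem_product] at hb
    rw [hP] at hb
    obtain ⟨⟨hx, hy⟩, hxy, hbp, _⟩ := hb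
    refine (hcr x y ((hmem x).1 hx) ((hmem y).1 hy) hxy).trans ?_
    rw [hbd]
    unfold BadPr at hbp
    push Not at hbp
    have hm' : (mgN x y : ℝ) ≤ G := by exact_mod_cast hbp.1
    have hnp : (tau * (B : ℝ) ^ 2) ^ mK K ≤ np (fun w => dl w x y) := by
      rw [← np_const (K := K)]
      exact np_mono (fun _ => by positivity) hbp.2
    have h1 : (mgN x y : ℝ) / np (fun w => dl w x y) ≤ G / (tau * (B : ℝ) ^ 2) ^ mK K := by
      gcongr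
    have h2 : 0 ≤ (mgN x y : ℝ) / np (fun w => dl w x y) := by
      have h3 : 0 ≤ np (fun w => dl w x y) := le_trans (by positivity) hnp
      positivity
    gcongr
  refine (Finset.sum_le_card_nsmul _ _ _ hbb).trans ?_
  rw [nsmul_eq_mul]
  -- number of pairs
  have hpairs : ((((GF ×ˢ GF).filter (fun b => P b.1 b.2)).card : ℕ) : ℝ) ≤
      GF.card * (Cf * ((B : ℝ) ^ ((n : ℝ) + 1 - 1 / (n : ℝ))) ^ mK K) := by
    have h1 : ((GF ×ˢ GF).filter (fun b => P b.1 b.2)).card =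
        ∑ y ∈ GF, ((GF.filter fun x => P x y).card) := by
      rw [Finset.card_filter, Finset.sum_product_right]
      refine Finset.sum_congr rfl fun y _ => ?_
      rw [Finset.card_filter]
    rw [h1]
    push_cast
    rw [← nsmul_eq_mul]
    refine Finset.sum_le_card_nsmul _ _ _ fun y hy => ?_
    have hy' := (hmem y).1 hy
    refine le_trans ?_ (hfew B hB (eps1 * H) (by positivity) ?_ y hy'.2.1 hy'.2.2)
    · rw [← Set.ncard_coe_finset]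
      refine Nat.cast_le.mpr (Set.ncard_le_ncard ?_ ?_)
      · intro x hx
        rw [Finset.mem_coe, Finset.mem_filter, hP] at hx
        obtain ⟨hx, hxy, _, hnf⟩ := hx
        have hx' := (hmem x).1 hx
        refine ⟨(mem_XX_bounds p hp B).1 x hx'.1, fun w' => ?_, hx'.2.1, hx'.2.2,
          mgI_ne_bot_of_mem_GG p hp R B hB x y hx' hy' hxy, hnf⟩
        obtain ⟨i, hi⟩ := (mem_XX_bounds p hp B).2 w'
        exact ⟨i, hi x hx'.1⟩
      · exact (Bx_finite (K := K) (n := n) (2 * (B : ℝ))).subset fun x hx => hx.1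
    · calc (B : ℝ) ^ (2 / (n : ℝ)) ≤ p.C0 * H := htwo
        _ = p.C0 / eps1 * (eps1 * H) := by
          field_simp
  have hBp : (B : ℝ) ^ ((n : ℝ) + 1 - 1 / (n : ℝ)) = (B : ℝ) ^ (n + 1) / (B : ℝ) ^ (1 / (n : ℝ)) := by
    rw [Real.rpow_sub hB0]
    congr 1
    rw [← Real.rpow_natCast]
    push_cast
    rfl
  have hq1 : 1 ≤ (B : ℝ) ^ (1 / (n : ℝ)) := Real.one_le_rpow hB1 (by positivity)
  obtain ⟨q, hq⟩ : ∃ q : ℝ, q = (B : ℝ) ^ (1 / (n : ℝ)) := ⟨_, rfl⟩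
  rw [← hq] at hq1 hBl hBp
  have hq0 : 0 < q := by linarith
  rw [hBp] at hpairs
  have hqm : q ≤ q ^ mK K := le_self_pow₀ hq1 hm0
  have hz : cst / q ^ mK K ≤ eps * a ^ 2 := by
    rw [div_le_iff₀ (by positivity)]
    rw [div_le_iff₀ (by positivity)] at hBl
    have h1 : q * (eps * a ^ 2) ≤ q ^ mK K * (eps * a ^ 2) :=
      mul_le_mul_of_nonneg_right hqm (by positivity)
    linarith
  have hnu : (B : ℝ) ^ (n + 1) * (B : ℝ) ^ (n + 1) =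
      ((B : ℝ) ^ nu n e) ^ 2 * (B : ℝ) ^ (2 * ∑ i, e i) := by
    rw [← pow_add, ← pow_mul, ← pow_add]
    congr 1
    have h1 := hp.sum_le
    unfold nu
    omega
  have hcore : (B : ℝ) ^ (n + 1) * ((B : ℝ) ^ (n + 1) / q) *
      ((B : ℝ) ^ (2 * r) / (H ^ (2 * r) * (B : ℝ) ^ (2 * ∑ i, e i))) =
      (1 / q) * ((B : ℝ) ^ nu n e / H ^ r) ^ 2 * ((B : ℝ) ^ 2) ^ r := by
    have h7 : (H ^ (2 * r) : ℝ) ≠ 0 := by positivity
    have h8 : ((B : ℝ) ^ (2 * ∑ i, e i)) ≠ 0 := by positivity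
    rw [show (B : ℝ) ^ (n + 1) * ((B : ℝ) ^ (n + 1) / q) =
      ((B : ℝ) ^ (n + 1) * (B : ℝ) ^ (n + 1)) / q by ring, hnu, div_pow, ← pow_mul H, mul_comm r 2,
      pow_mul (B : ℝ) 2 r]
    field_simp
  have hpw : ((1 / q) * ((B : ℝ) ^ nu n e / H ^ r) ^ 2 * ((B : ℝ) ^ 2) ^ r) ^ mK K =
      (1 / q ^ mK K) * (((B : ℝ) ^ nu n e / H ^ r) ^ mK K) ^ 2 * (((B : ℝ) ^ 2) ^ r) ^ mK K := by
    rw [mul_pow ((1 / q) * ((B : ℝ) ^ nu n e / H ^ r) ^ 2), mul_pow (1 / q), one_div_pow]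
    congr 2
    rw [← pow_mul, ← pow_mul, mul_comm]
  have hG1 : (G / (tau * (B : ℝ) ^ 2) ^ mK K) ^ r * ((((B : ℝ) ^ 2) ^ r)) ^ mK K =
      (G / tau ^ mK K) ^ r := by
    have h1 : (((B : ℝ) ^ 2) ^ r) ^ mK K = (((B : ℝ) ^ 2) ^ mK K) ^ r := by
      rw [← pow_mul ((B : ℝ) ^ 2) r, mul_comm r, pow_mul ((B : ℝ) ^ 2) (mK K)]
    rw [h1, mul_pow tau, ← mul_pow]
    congr 1
    field_simp
  calc ((((GF ×ˢ GF).filter (fun b => P b.1 b.2)).card : ℕ) : ℝ) * bd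
      ≤ (GF.card * (Cf * ((B : ℝ) ^ (n + 1) / q) ^ mK K)) * bd :=
        mul_le_mul_of_nonneg_right hpairs hbd0
    _ ≤ ((Cg * ((B : ℝ) ^ (n + 1)) ^ mK K) * (Cf * ((B : ℝ) ^ (n + 1) / q) ^ mK K)) * bd := by
        gcongr
    _ = Cg * Cf * Cc * p.XR p.rho H * (G / (tau * (B : ℝ) ^ 2) ^ mK K) ^ r *
        ((B : ℝ) ^ (n + 1) * ((B : ℝ) ^ (n + 1) / q) *
          ((B : ℝ) ^ (2 * r) / (H ^ (2 * r) * (B : ℝ) ^ (2 * ∑ i, e i)))) ^ mK K := by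
        rw [hbd, mul_pow ((B : ℝ) ^ (n + 1) * ((B : ℝ) ^ (n + 1) / q)),
          mul_pow ((B : ℝ) ^ (n + 1))]
        ring
    _ = Cg * Cf * Cc * p.XR p.rho H * ((G / (tau * (B : ℝ) ^ 2) ^ mK K) ^ r *
        (((B : ℝ) ^ 2) ^ r) ^ mK K) * (1 / q ^ mK K * (((B : ℝ) ^ nu n e / H ^ r) ^ mK K) ^ 2) := by
        rw [hcore, hpw]
        ring
    _ = (cst / q ^ mK K) * p.XR p.rho H * (((B : ℝ) ^ nu n e / H ^ r) ^ mK K) ^ 2 := by
        rw [hG1, hcst]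
        ring
    _ ≤ (eps * a ^ 2) * p.XR p.rho H * (((B : ℝ) ^ nu n e / H ^ r) ^ mK K) ^ 2 := by gcongr
    _ = eps * p.TT H ^ 2 * p.XR p.rho H := by
        rw [hTT H, ← hBd]
        ring

theorem S2_not_fine (p : Par K n e) {eps k0 : ℝ} {w : ℕ} (hp : p.Valid eps k0 w) (R : ℝ)
    (hR : 1 ≤ R) (G : ℕ) (hG : 1 ≤ G) (tau : ℝ) (ht : 0 < tau) (eps1 : ℝ) (he1 : 0 < eps1) :
    ∀ᶠ H : ℝ in atTop,
      ((p.TNF R G tau eps1 H).ncard : ℝ) ≤ eps * p.TT H ^ 2 * p.XR p.rho H := by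
  by_cases hb : 2 * r < n * nu n e
  · exact s2nf_easy p hp R hR G tau eps1 he1 hb
  · exact s2nf_hard p hp R hR G hG tau ht eps1 he1
      (CIHP.borderline e hp.e_ge hp.r_pos hp.sum_le hb)

end NKHP
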