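import Pool.Agent.Lib.MP_e426f4_ag.NK.Basic
import Pool.Agent.Lib.MP_e426f4_ag.NK.CardCl
import Pool.Agent.Lib.MP_e426f4_ag.NK.Heights
import Pool.Agent.Lib.MP_e426f4_ag.NK.FirstLower
import Pool.Agent.Lib.MP_e426f4_ag.NK.FirstUpper
import Pool.Agent.Lib.MP_e426f4_ag.NK.SecondBad
import Pool.Agent.Lib.MP_e426f4_ag.NK.SecondNotFine
import Pool.Agent.Lib.MP_e426f4_ag.NK.SecondMain

/-!
NK-SecondMoment. Templates: CI/SecondMoment.lean, N/SecondMoment.lean. Order: R from S1_lower; G, tau from S2_bad; eps1 from S2_main; S2_not_fine. Pairs of points: x = y: Pairs <= (1+8eps) TT X <= 2 eps TT^2 X (TT_large); TBad + TNF + TMain cover the pairs x /= y. Cauchy-Schwarz / Chebyshev: sum_A (N(A) - T)^2 <= (100 eps + 10 E) T^2 X.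
N(A) > 0 implies SolubleS A (x in GG is Prim, so x /= 0). n + 1 >= r for the finiteness lemmas (n_ge).
-/

namespace NKHP

open NumberField GenHP NFHP Finset Filter Topology
open CIHP (Sys NS Jac nu Bf)

variable {K : Type} [Field K] [NumberField K] {n r : ℕ} {e : Fin r → ℕ}

private theorem ct_algebra (u v S N X Y : ℝ) (hu : 0 ≤ u) (hv : 0 ≤ v) (hu1 : u ≤ 1) (hX : 0 ≤ X)
    (hS : (1 - u) * X ≤ S) (hN : N ≤ (1 + v) * X) (hCS : S ^ 2 ≤ Y * N) (hY : 0 ≤ Y) :
    (1 - 2 * u - v) * X ≤ Y := by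
  rcases hX.eq_or_lt with rfl | hXp
  · simpa using hY
  have h1 : ((1 - u) * X) ^ 2 ≤ S ^ 2 := pow_le_pow_left₀ (mul_nonneg (by linarith) hX) hS 2
  have h2 : Y * N ≤ Y * ((1 + v) * X) := mul_le_mul_of_nonneg_left hN hY
  have h3 : (1 - u) ^ 2 * X ≤ Y * (1 + v) := by
    have h4 : (1 - u) ^ 2 * X * X ≤ Y * (1 + v) * X := by nlinarith only [h1, h2, hCS]
    exact le_of_mul_le_mul_right h4 hXp
  have h5 : (1 - 2 * u - v) * (1 + v) ≤ (1 - u) ^ 2 := by nlinarith only [hu, hv, mul_nonneg hu hv]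
  have h6 : (1 - 2 * u - v) * X * (1 + v) ≤ Y * (1 + v) := by
    calc (1 - 2 * u - v) * X * (1 + v) = (1 - 2 * u - v) * (1 + v) * X := by ring
      _ ≤ (1 - u) ^ 2 * X := mul_le_mul_of_nonneg_right h5 hX
      _ ≤ Y * (1 + v) := h3
  exact le_of_mul_le_mul_right h6 (by linarith)

theorem second_moment (p : Par K n e) {eps k0 : ℝ} {w : ℕ} (hp : p.Valid eps k0 w)
    (E : ℝ) (hE : ∀ S : Finset (Ideal (𝓞 K)), (∀ I ∈ S, w < Ideal.absNorm I) →
      ∑ I ∈ S, 1 / (Ideal.absNorm I : ℝ) ^ 2 ≤ E) :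
    ∀ᶠ H : ℝ in atTop,
      (Set.ncard {A | A ∈ p.Cl p.rho H ∧ ¬ SolubleS A} : ℝ) ≤
        (100 * eps + 10 * E) * p.XR p.rho H := by
  classical
  have heps := hp.eps_pos
  have heps1 := hp.eps_le
  have hr1 : r ≤ n + 1 := by
    have := hp.n_ge
    omega
  have hE0 : 0 ≤ E := by
    have := hE ∅ (fun I hI => absurd hI (Finset.notMem_empty I))
    simpa using this
  obtain ⟨K0, hK0, hlow⟩ := S1_lower p hp E hE
  have hlow' := hlow K0 le_rfl
  have hup := S1_upper p hp K0 hK0 p.rho le_rfl (by linarith [hp.rho_pos])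
  obtain ⟨G, tau, hG, htau, htau1, hbad⟩ := S2_bad p hp K0 hK0
  obtain ⟨eps1, heps1', hmain⟩ := S2_main p hp E hE K0 hK0 G hG tau htau htau1
  have hnf := S2_not_fine p hp K0 hK0 G hG tau htau eps1 heps1'
  have hcl := card_Cl p hp.Q_pos p.rho eps hp.rho_pos heps
  have hTT' := TT_large p hp
  filter_upwards [hlow', hup, hbad, hnf, hmain, hcl, hTT', Filter.eventually_ge_atTop 0] with H
    hlow hup hbad hnf hmain hcl hTT hH0
  obtain ⟨-, hcl2⟩ := hcl
  set X : ℝ := p.XR p.rho H with hX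
  have hX0 : 0 ≤ X := XR_nonneg p p.rho H hp.rho_pos.le hH0
  set T : ℝ := p.TT H with hT
  have hT0 : 0 < T := lt_of_lt_of_le (by positivity) hTT
  -- finsets
  set CL : Finset (Sys n e (𝓞 K)) := (Cl_finite p p.rho H).toFinset with hCL
  set GF : Finset (Fin (n + 1) → 𝓞 K) := (GG_finite hr1 p K0 (p.B H)).toFinset with hGF
  have hCLm : ∀ A, A ∈ CL ↔ A ∈ p.Cl p.rho H := by
    intro A
    rw [hCL, Set.Finite.mem_toFinset]
  have hGFm : ∀ x, x ∈ GF ↔ x ∈ p.GG K0 (p.B H) := by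
    intro x
    rw [hGF, Set.Finite.mem_toFinset]
  set N : Sys n e (𝓞 K) → ℕ := fun A => (GF.filter (fun x => ∀ i, F (A i) x = 0)).card with hN
  have hPairs : (p.Pairs p.rho K0 H).ncard = ∑ A ∈ CL, N A := by
    have e1 : p.Pairs p.rho K0 H = (((CL ×ˢ GF).filter (fun q => ∀ i, F (q.1 i) q.2 = 0) :
        Finset (Sys n e (𝓞 K) × (Fin (n + 1) → 𝓞 K))) :
          Set (Sys n e (𝓞 K) × (Fin (n + 1) → 𝓞 K))) := by
      ext q
      rw [Finset.mem_coe, Finset.mem_filter, Finset.mem_product, hCLm, hGFm]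
      exact ⟨fun h => ⟨⟨h.1, h.2.1⟩, h.2.2⟩, fun h => ⟨h.1.1, h.1.2, h.2⟩⟩
    rw [e1, Set.ncard_coe_finset, Finset.card_filter, Finset.sum_product]
    exact Finset.sum_congr rfl fun A _ => (Finset.card_filter _ _).symm
  have hTrip : ∑ A ∈ CL, (N A) ^ 2 ≤ (p.Pairs p.rho K0 H).ncard + (p.TBad K0 G tau H).ncard +
      (p.TNF K0 G tau eps1 H).ncard + (p.TMain K0 G tau eps1 H).ncard := by
    set TR : Finset (Sys n e (𝓞 K) × (Fin (n + 1) → 𝓞 K) × (Fin (n + 1) → 𝓞 K)) :=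
      (CL ×ˢ (GF ×ˢ GF)).filter (fun q => (∀ i, F (q.1 i) q.2.1 = 0) ∧ ∀ i, F (q.1 i) q.2.2 = 0)
      with hTR
    have hcard : ∑ A ∈ CL, (N A) ^ 2 = TR.card := by
      rw [hTR, Finset.card_filter, Finset.sum_product]
      refine Finset.sum_congr rfl fun A _ => ?_
      rw [hN, sq]
      simp only
      rw [← Finset.card_product, Finset.card_eq_sum_ones, ← Finset.sum_filter, ← Finset.filter_product,
        Finset.sum_const]
    rw [hcard]
    have hsub : (TR : Set (Sys n e (𝓞 K) × (Fin (n + 1) → 𝓞 K) × (Fin (n + 1) → 𝓞 K))) ⊆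
        ((fun q : Sys n e (𝓞 K) × (Fin (n + 1) → 𝓞 K) => (q.1, q.2, q.2)) ''
          p.Pairs p.rho K0 H) ∪
          p.TBad K0 G tau H ∪ p.TNF K0 G tau eps1 H ∪ p.TMain K0 G tau eps1 H := by
      rintro ⟨A, x, y⟩ hq
      rw [Finset.mem_coe, hTR, Finset.mem_filter, Finset.mem_product, Finset.mem_product, hCLm,
        hGFm, hGFm] at hq
      obtain ⟨⟨hA, hx, hy⟩, hFx, hFy⟩ := hq
      by_cases hxy : x = y
      · subst hxy
        exact Or.inl (Or.inl (Or.inl ⟨(A, x), ⟨hA, hx, hFx⟩, rfl⟩))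
      by_cases hbad : BadPr G tau (p.B H) x y
      · exact Or.inl (Or.inl (Or.inr ⟨hA, hx, hy, fun i => ⟨hFx i, hFy i⟩, hxy, hbad⟩))
      · by_cases hf : Fine n e (eps1 * H) x y
        · exact Or.inr ⟨hA, hx, hy, fun i => ⟨hFx i, hFy i⟩, hxy, hbad, hf⟩
        · exact Or.inl (Or.inr ⟨hA, hx, hy, fun i => ⟨hFx i, hFy i⟩, hxy, hbad, hf⟩)
    have hfinP := (Pairs_finite hr1 p p.rho K0 H).image
      (fun q : Sys n e (𝓞 K) × (Fin (n + 1) → 𝓞 K) => (q.1, q.2, q.2))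
    have hfinB := TBad_finite hr1 p K0 G tau H
    have hfinN := TNF_finite hr1 p K0 G tau eps1 H
    have hfinM := TMain_finite hr1 p K0 G tau eps1 H
    calc TR.card = (TR : Set (Sys n e (𝓞 K) × (Fin (n + 1) → 𝓞 K) ×
          (Fin (n + 1) → 𝓞 K))).ncard := (Set.ncard_coe_finset _).symm
      _ ≤ _ := Set.ncard_le_ncard hsub (((hfinP.union hfinB).union hfinN).union hfinM)
      _ ≤ _ := Set.ncard_union_le _ _
      _ ≤ _ := Nat.add_le_add_right (Set.ncard_union_le _ _) _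
      _ ≤ _ := Nat.add_le_add_right (Nat.add_le_add_right (Set.ncard_union_le _ _) _) _
      _ ≤ _ := Nat.add_le_add_right (Nat.add_le_add_right (Nat.add_le_add_right
          (Set.ncard_image_le (Pairs_finite hr1 p p.rho K0 H)) _) _) _
  -- positive part
  set CP : Finset (Sys n e (𝓞 K)) := CL.filter (fun A => 0 < N A) with hCP
  have hCS : (∑ A ∈ CL, (N A : ℝ)) ^ 2 ≤ (CP.card : ℝ) * ∑ A ∈ CL, (N A : ℝ) ^ 2 := by
    have e1 : ∑ A ∈ CL, (N A : ℝ) = ∑ A ∈ CP, (N A : ℝ) := by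
      symm
      refine Finset.sum_subset (Finset.filter_subset _ _) fun A hA hA' => ?_
      have : ¬ 0 < N A := fun h => hA' (Finset.mem_filter.mpr ⟨hA, h⟩)
      have h0 : N A = 0 := by omega
      rw [h0]
      simp
    rw [e1]
    refine (sq_sum_le_card_mul_sum_sq).trans (mul_le_mul_of_nonneg_left ?_ (by (clear * -; positivity)))
    exact Finset.sum_le_sum_of_subset_of_nonneg (Finset.filter_subset _ _) fun _ _ _ => by (clear * -; positivity)
  -- nonsoluble systems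
  have hns : (Set.ncard {A | A ∈ p.Cl p.rho H ∧ ¬ SolubleS A} : ℝ) ≤
      (p.Cl p.rho H).ncard - CP.card := by
    have e1 : (p.Cl p.rho H).ncard = CL.card := Set.ncard_eq_toFinset_card _ (Cl_finite p p.rho H)
    have hsub : {A | A ∈ p.Cl p.rho H ∧ ¬ SolubleS A} ⊆
        ((CL \ CP : Finset (Sys n e (𝓞 K))) : Set (Sys n e (𝓞 K))) := by
      intro A hA
      have hA1 : A ∈ CL := by
        rw [hCLm]
        exact hA.1
      rw [Finset.mem_coe, Finset.mem_sdiff]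
      refine ⟨hA1, fun hAP => hA.2 ?_⟩
      have hpos := (Finset.mem_filter.mp hAP).2
      obtain ⟨x, hx⟩ := Finset.card_pos.mp hpos
      rw [Finset.mem_filter, hGFm] at hx
      obtain ⟨⟨-, ⟨c, hc⟩, -⟩, hFx⟩ := hx
      refine ⟨fun i => algebraMap (𝓞 K) K (x i), ?_, fun i => ?_⟩
      · intro h0
        have hx0 : ∀ i, x i = 0 := fun i => by
          have h1 : algebraMap (𝓞 K) K (x i) = 0 := congrFun h0 i
          exact RingOfIntegers.coe_injective (by rw [map_zero]; exact h1)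
        simp [hx0] at hc
      · have h2 := F_map (algebraMap (𝓞 K) K) (A i) x
        rw [hFx i, map_zero] at h2
        exact h2
    have h3 : Set.ncard {A | A ∈ p.Cl p.rho H ∧ ¬ SolubleS A} ≤ (CL \ CP).card := by
      rw [← Set.ncard_coe_finset]
      exact Set.ncard_le_ncard hsub (Finset.finite_toSet _)
    have h4 : (CL \ CP).card + CP.card = CL.card :=
      Finset.card_sdiff_add_card_eq_card (Finset.filter_subset _ _)
    rw [e1]
    have h5 : Set.ncard {A | A ∈ p.Cl p.rho H ∧ ¬ SolubleS A} + CP.card ≤ CL.card := by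
      omega
    have h6 : ((Set.ncard {A | A ∈ p.Cl p.rho H ∧ ¬ SolubleS A} : ℕ) : ℝ) +
        (CP.card : ℝ) ≤ CL.card := by
      exact_mod_cast h5
    linarith only [h6]
  refine hns.trans ?_
  set u : ℝ := 8 * eps + 2 * E with hu
  set v : ℝ := 44 * eps + 5 * E with hv
  have hu0 : 0 ≤ u := by positivity
  have hv0 : 0 ≤ v := by positivity
  by_cases hu1 : u ≤ 1
  · have hS : (1 - u) * (T * X) ≤ ∑ A ∈ CL, (N A : ℝ) := by
      have : ((∑ A ∈ CL, N A : ℕ) : ℝ) = ∑ A ∈ CL, (N A : ℝ) := by push_cast; rfl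
      rw [← this, ← hPairs]
      refine le_trans (le_of_eq ?_) hlow
      rw [hu]; ring
    have hN2 : ∑ A ∈ CL, (N A : ℝ) ^ 2 ≤ (1 + v) * (T ^ 2 * X) := by
      have h1 : ((∑ A ∈ CL, (N A) ^ 2 : ℕ) : ℝ) ≤ ((p.Pairs p.rho K0 H).ncard : ℝ) +
          (p.TBad K0 G tau H).ncard + (p.TNF K0 G tau eps1 H).ncard +
          (p.TMain K0 G tau eps1 H).ncard := by exact_mod_cast hTrip
      have h2 : ((∑ A ∈ CL, (N A) ^ 2 : ℕ) : ℝ) = ∑ A ∈ CL, (N A : ℝ) ^ 2 := by push_cast; rfl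
      rw [h2] at h1
      have h3 : (1 + 8 * eps) * T ≤ 2 * eps * T ^ 2 := by
        rw [div_le_iff₀ heps] at hTT
        have h31 : (1 + 8 * eps) * T ≤ 2 * T := by nlinarith only [hTT, heps, heps1, hT0]
        have h32 : 2 * T ≤ 2 * eps * T ^ 2 := by nlinarith only [hTT, heps, hT0]
        exact h31.trans h32
      have h4 : (1 + 8 * eps) * T * X ≤ 2 * eps * T ^ 2 * X := mul_le_mul_of_nonneg_right h3 hX0
      rw [hv]
      nlinarith only [h1, h4, hbad, hmain, hnf, hup]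
    -- scale out T
    have hCP0 : (0 : ℝ) ≤ CP.card := by (clear * -; positivity)
    have hkey := ct_algebra u v ((∑ A ∈ CL, (N A : ℝ)) / T) ((∑ A ∈ CL, (N A : ℝ) ^ 2) / T ^ 2) X CP.card
      hu0 hv0 hu1 hX0 ?_ ?_ ?_ hCP0
    · have h5 : ((p.Cl p.rho H).ncard : ℝ) - CP.card ≤ (1 + eps) * X - (1 - 2 * u - v) * X := by
        linarith only [hkey, hcl2]
      refine h5.trans ?_
      have h6 : (1 + eps) * X - (1 - 2 * u - v) * X = (eps + 2 * u + v) * X := by ring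
      rw [h6]
      refine mul_le_mul_of_nonneg_right ?_ hX0
      rw [hu, hv]
      linarith only [heps, hE0]
    · rw [le_div_iff₀ hT0]
      linarith only [hS]
    · rw [div_le_iff₀ (by positivity)]
      linarith only [hN2]
    · rw [div_pow, ← mul_div_assoc]
      exact div_le_div_of_nonneg_right hCS (by positivity)
  · push Not at hu1
    have h7 : ((p.Cl p.rho H).ncard : ℝ) - CP.card ≤ (1 + eps) * X := by
      have : (0 : ℝ) ≤ CP.card := by (clear * -; positivity)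
      linarith only [hcl2, this]
    refine h7.trans (mul_le_mul_of_nonneg_right ?_ hX0)
    rw [hu] at hu1
    linarith only [heps, heps1, hu1, hE0]

end NKHP
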