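import Pool.Agent.Lib.MP_e426f4_ag.NK.Defs
import Pool.Agent.Lib.MP_e426f4_ag.N.SumNorm

/-!
NK-SumNorm. Template: N/SumNorm.lean (case r = 1; copy it). Dyadic boxes k : places -> N: n Y_w 2^(-k_w-1) < vn_w z <= n Y_w 2^(-k_w); number of z <= (C np(nY2^-k)/N I)^n (NFHP.lat_upper_ne_zero), each summand <= (1/np(nY 2^(-k-1)))^r;
the sum over k is a product of geometric series with exponent (n - r) mult >= 1.
-/

namespace NKHP

open NumberField GenHP NFHP Finset Filter Topology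
open CIHP (Sys NS Jac nu Bf)

theorem sum_inv_pow (K : Type) [Field K] [NumberField K] (n r : ℕ) (hr : 1 ≤ r) (hn : r + 1 ≤ n) :
    ∃ C : ℝ, 0 < C ∧ ∀ I : Ideal (𝓞 K), I ≠ ⊥ → ∀ Y : InfinitePlace K → ℝ, (∀ w, 0 < Y w) →
    ∀ S : Finset (Fin n → 𝓞 K), (∀ z ∈ S, z ≠ 0 ∧ (∀ i, z i ∈ I) ∧ ∀ i w, ‖sg w (z i)‖ ≤ Y w) →
      ∑ z ∈ S, (1 / np (fun w => vn w z)) ^ r ≤
        C * np Y ^ (n - r) / (Ideal.absNorm I : ℝ) ^ n := by
  classical
  obtain ⟨C0, hC0, hC⟩ := lat_upper_ne_zero K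
  have hn0 : (0 : ℝ) < n := by
    have : 0 < n := by omega
    exact_mod_cast this
  refine ⟨C0 ^ n * (2 ^ mK K) ^ r * ((n : ℝ) ^ mK K) ^ (n - r) * 2 ^ Fintype.card (InfinitePlace K),
    by positivity, fun I hI Y hY S hS => ?_⟩
  have hNI : (0 : ℝ) < Ideal.absNorm I := by exact_mod_cast absNorm_pos hI
  have hnpY : 0 < np Y := np_pos hY
  have hex : ∀ (z : Fin n → 𝓞 K) (w : InfinitePlace K), z ∈ S → ∃ k : ℕ,
      (1 / 2 : ℝ) ^ (k + 1) < vn w z / (n * Y w) ∧ vn w z / (n * Y w) ≤ (1 / 2) ^ k := by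
    intro z w hz
    have h1 := hS z hz
    have h0 : 0 < n * Y w := mul_pos hn0 (hY w)
    refine exists_nat_pow_near_of_lt_one (div_pos (vn_pos w z h1.1) h0) ?_ (by norm_num)
      (by norm_num)
    rw [div_le_one h0]
    have := vn_le w z (Y w) fun i => h1.2.2 i w
    rwa [Fintype.card_fin] at this
  let k : (Fin n → 𝓞 K) → (InfinitePlace K → ℕ) := fun z w =>
    if h : z ∈ S then (hex z w h).choose else 0
  have hk : ∀ z ∈ S, ∀ w, (1 / 2 : ℝ) ^ (k z w + 1) < vn w z / (n * Y w) ∧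
      vn w z / (n * Y w) ≤ (1 / 2) ^ k z w := by
    intro z hz w
    have e : k z w = (hex z w hz).choose := dif_pos hz
    rw [e]
    exact (hex z w hz).choose_spec
  let X : (InfinitePlace K → ℕ) → InfinitePlace K → ℝ := fun κ w => n * Y w * (1 / 2) ^ κ w
  have hX : ∀ κ w, 0 < X κ w := fun κ w => by
    have := hY w
    positivity
  have hle : ∀ z ∈ S, ∀ w, vn w z ≤ X (k z) w := by
    intro z hz w
    have h0 : 0 < n * Y w := mul_pos hn0 (hY w)
    have := (hk z hz w).2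
    rw [div_le_iff₀ h0] at this
    calc vn w z ≤ (1 / 2) ^ k z w * (n * Y w) := this
      _ = _ := by ring
  have hge : ∀ z ∈ S, ∀ w, X (k z) w / 2 ≤ vn w z := by
    intro z hz w
    have h0 : 0 < n * Y w := mul_pos hn0 (hY w)
    have := (hk z hz w).1.le
    rw [le_div_iff₀ h0] at this
    calc X (k z) w / 2 = (1 / 2) ^ (k z w + 1) * (n * Y w) := by
          show n * Y w * (1 / 2) ^ k z w / 2 = _
          rw [pow_succ]
          ring
      _ ≤ _ := this
  -- one cell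
  have hcell : ∀ κ : InfinitePlace K → ℕ, ∑ z ∈ S.filter (fun z => k z = κ),
      (1 / np (fun w => vn w z)) ^ r ≤ C0 ^ n * (2 ^ mK K) ^ r * ((n : ℝ) ^ mK K) ^ (n - r) *
        (np Y ^ (n - r) / (Ideal.absNorm I : ℝ) ^ n) * ∏ w, (1 / 2 : ℝ) ^ κ w := by
    intro κ
    have hXp : 0 < np (X κ) := np_pos (hX κ)
    have h1 : ∀ z ∈ S.filter (fun z => k z = κ), (1 / np (fun w => vn w z)) ^ r ≤
        (2 ^ mK K / np (X κ)) ^ r := by
      intro z hz
      rw [Finset.mem_filter] at hz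
      have h2 : np (X κ) / 2 ^ mK K ≤ np (fun w => vn w z) := by
        rw [← np_const, ← np_div]
        refine np_mono (fun w => (half_pos (hX κ w)).le) fun w => ?_
        rw [← hz.2]
        exact hge z hz.1 w
      have h3 : 0 < np (X κ) / 2 ^ mK K := by positivity
      refine pow_le_pow_left₀ (one_div_nonneg.2 (h3.le.trans h2)) ?_ r
      calc 1 / np (fun w => vn w z) ≤ 1 / (np (X κ) / 2 ^ mK K) :=
            one_div_le_one_div_of_le h3 h2
        _ = _ := by rw [one_div_div]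
    have h4 : ((S.filter fun z => k z = κ).card : ℝ) ≤
        (C0 * (np (X κ) / Ideal.absNorm I)) ^ n := by
      have h5 := hC (Fin n) I hI (X κ) (hX κ)
      rw [Fintype.card_fin] at h5
      refine le_trans ?_ h5
      rw [← Set.ncard_coe_finset]
      have hfin : {a : Fin n → 𝓞 K | a ≠ 0 ∧ (∀ i, a i ∈ I) ∧ ∀ i w, ‖sg w (a i)‖ ≤ X κ w}.Finite := by
        obtain ⟨C', _, hC'⟩ := lat_upper_vec K
        have := (hC' (Fin n) I hI (X κ) (hX κ) fun _ _ => 0).1
        simp only [sub_zero] at this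
        exact this.subset fun a ha => ha.2
      have h6 : Set.ncard ((S.filter fun z => k z = κ : Finset _) : Set (Fin n → 𝓞 K)) ≤
          Set.ncard {a : Fin n → 𝓞 K | a ≠ 0 ∧ (∀ i, a i ∈ I) ∧ ∀ i w, ‖sg w (a i)‖ ≤ X κ w} := by
        refine Set.ncard_le_ncard ?_ hfin
        intro z hz
        rw [Finset.mem_coe, Finset.mem_filter] at hz
        refine ⟨(hS z hz.1).1, (hS z hz.1).2.1, fun i w => ?_⟩
        rw [← hz.2]
        exact (norm_le_vn w z i).trans (hle z hz.1 w)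
      exact_mod_cast h6
    have h7 : np (X κ) = (n : ℝ) ^ mK K * np Y * np (fun w => (1 / 2 : ℝ) ^ κ w) := by
      show np (fun w => n * Y w * (1 / 2) ^ κ w) = _
      rw [np_mul, np_mul, np_const]
    have h8 : np (fun w => (1 / 2 : ℝ) ^ κ w) ^ (n - r) ≤ ∏ w, (1 / 2 : ℝ) ^ κ w := by
      have h9 : np (fun w => (1 / 2 : ℝ) ^ κ w) ≤ ∏ w, (1 / 2 : ℝ) ^ κ w := by
        unfold np
        refine Finset.prod_le_prod (fun w _ => by positivity) fun w _ => ?_
        exact pow_le_of_le_one (by positivity) (pow_le_one₀ (by norm_num) (by norm_num))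
          (InfinitePlace.mult_pos).ne'
      have h10 : 0 ≤ np (fun w => (1 / 2 : ℝ) ^ κ w) := np_nonneg fun w => by positivity
      have h11 : np (fun w => (1 / 2 : ℝ) ^ κ w) ≤ 1 := h9.trans
        (Finset.prod_le_one (fun w _ => by positivity) fun w _ =>
          pow_le_one₀ (by norm_num) (by norm_num))
      exact (pow_le_of_le_one h10 h11 (by omega)).trans h9
    calc ∑ z ∈ S.filter (fun z => k z = κ), (1 / np (fun w => vn w z)) ^ r
        ≤ ∑ _z ∈ S.filter (fun z => k z = κ), (2 ^ mK K / np (X κ)) ^ r := Finset.sum_le_sum h1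
      _ = ((S.filter fun z => k z = κ).card : ℝ) * (2 ^ mK K / np (X κ)) ^ r := by
          rw [Finset.sum_const, nsmul_eq_mul]
      _ ≤ (C0 * (np (X κ) / Ideal.absNorm I)) ^ n * (2 ^ mK K / np (X κ)) ^ r :=
          mul_le_mul_of_nonneg_right h4 (by positivity)
      _ = C0 ^ n * (2 ^ mK K) ^ r * np (X κ) ^ (n - r) / (Ideal.absNorm I : ℝ) ^ n := by
          have h11 : np (X κ) ^ n = np (X κ) ^ (n - r) * np (X κ) ^ r := by
            rw [← pow_add]
            congr 1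
            omega
          rw [mul_pow, div_pow, div_pow, h11]
          have := pow_ne_zero r hXp.ne'
          field_simp
      _ = C0 ^ n * (2 ^ mK K) ^ r * ((n : ℝ) ^ mK K) ^ (n - r) *
        (np Y ^ (n - r) / (Ideal.absNorm I : ℝ) ^ n) *
          np (fun w => (1 / 2 : ℝ) ^ κ w) ^ (n - r) := by
          rw [h7, mul_pow, mul_pow]
          ring
      _ ≤ _ := mul_le_mul_of_nonneg_left h8 (by positivity)
  -- sum over the cells
  obtain ⟨M, hM⟩ : ∃ M : ℕ, ∀ z ∈ S, ∀ w, k z w < M := by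
    refine ⟨∑ z ∈ S, ∑ w, k z w + 1, fun z hz w => ?_⟩
    have h1 : k z w ≤ ∑ w, k z w :=
      Finset.single_le_sum (f := fun w => k z w) (fun _ _ => Nat.zero_le _) (Finset.mem_univ w)
    have h2 : ∑ w, k z w ≤ ∑ z ∈ S, ∑ w, k z w :=
      Finset.single_le_sum (f := fun z => ∑ w, k z w) (fun _ _ => Nat.zero_le _) hz
    omega
  have hmaps : ∀ z ∈ S, k z ∈ Fintype.piFinset fun _ : InfinitePlace K => Finset.range M := by
    intro z hz
    rw [Fintype.mem_piFinset]
    intro w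
    rw [Finset.mem_range]
    exact hM z hz w
  have hgeo : ∑ j ∈ Finset.range M, (1 / 2 : ℝ) ^ j ≤ 2 := by
    have := geom_sum_eq (by norm_num : (1 / 2 : ℝ) ≠ 1) M
    rw [this]
    have h1 : (0 : ℝ) < (1 / 2) ^ M := by positivity
    rw [div_le_iff_of_neg (by norm_num)]
    linarith
  calc ∑ z ∈ S, (1 / np (fun w => vn w z)) ^ r
      = ∑ κ ∈ Fintype.piFinset fun _ : InfinitePlace K => Finset.range M,
          ∑ z ∈ S.filter (fun z => k z = κ), (1 / np (fun w => vn w z)) ^ r :=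
        (Finset.sum_fiberwise_of_maps_to hmaps _).symm
    _ ≤ ∑ κ ∈ Fintype.piFinset fun _ : InfinitePlace K => Finset.range M,
        C0 ^ n * (2 ^ mK K) ^ r * ((n : ℝ) ^ mK K) ^ (n - r) *
        (np Y ^ (n - r) / (Ideal.absNorm I : ℝ) ^ n) * ∏ w, (1 / 2 : ℝ) ^ κ w :=
        Finset.sum_le_sum fun κ _ => hcell κ
    _ = C0 ^ n * (2 ^ mK K) ^ r * ((n : ℝ) ^ mK K) ^ (n - r) *
        (np Y ^ (n - r) / (Ideal.absNorm I : ℝ) ^ n) *
          ∏ _w : InfinitePlace K, ∑ j ∈ Finset.range M, (1 / 2 : ℝ) ^ j := by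
        rw [← Finset.mul_sum, Finset.prod_univ_sum]
    _ ≤ C0 ^ n * (2 ^ mK K) ^ r * ((n : ℝ) ^ mK K) ^ (n - r) *
        (np Y ^ (n - r) / (Ideal.absNorm I : ℝ) ^ n) * 2 ^ Fintype.card (InfinitePlace K) := by
        refine mul_le_mul_of_nonneg_left ?_ (by positivity)
        rw [Finset.prod_const, Finset.card_univ]
        exact pow_le_pow_left₀ (Finset.sum_nonneg fun _ _ => by positivity) hgeo _
    _ = _ := by ring

end NKHP
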